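import Pool.Agent.Lib.H17W.Defs

set_option autoImplicit false

/-!
# H17W, module A: calculus along maps, definitions

`Φ : V → ℝ^d` is a map from a normed space `V` into the domain of a metric `G` on `ℝ^d`; vector fields along `Φ` are maps
`W : V → (Fin d → ℝ)`.
-/

open MeasureTheory Filter Topology Set
open scoped ContDiff

namespace H17W

variable {d : ℕ} {V : Type*} [NormedAddCommGroup V] [NormedSpace ℝ V]

/-- The Christoffel symbols as a bilinear map. -/
noncomputable def gam (G : H31R.EE d → Matrix (Fin d) (Fin d) ℝ) (p : H31R.EE d) (a b : Fin d → ℝ) : Fin d → ℝ :=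
  fun c => ∑ i, ∑ j, H31R.chr G c i j p * a i * b j

/-- The derivative of the map `Φ` at `x` in the direction `v`. -/
noncomputable def vel (Φ : V → H31R.EE d) (x v : V) : Fin d → ℝ := fun a => fderiv ℝ (fun y => Φ y a) x v

/-- The covariant derivative at `x`, in the direction `v`, of the vector field `W` along `Φ`. -/
noncomputable def cov (G : H31R.EE d → Matrix (Fin d) (Fin d) ℝ) (Φ : V → H31R.EE d) (W : V → Fin d → ℝ) (x v : V) :
    Fin d → ℝ := fun a => fderiv ℝ (fun y => W y a) x v + gam G (Φ x) (vel Φ x v) (W x) a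

/-- Components `R^l_{k i j}` of the curvature tensor. -/
noncomputable def rm (G : H31R.EE d → Matrix (Fin d) (Fin d) ℝ) (l k i j : Fin d) (p : H31R.EE d) : ℝ :=
  H31R.pd i (H31R.chr G l j k) p - H31R.pd j (H31R.chr G l i k) p +
    ∑ m, (H31R.chr G l i m p * H31R.chr G m j k p - H31R.chr G l j m p * H31R.chr G m i k p)

/-- The curvature `R(a, b) c`. -/
noncomputable def riem (G : H31R.EE d → Matrix (Fin d) (Fin d) ℝ) (p : H31R.EE d) (a b c : Fin d → ℝ) : Fin d → ℝ :=
  fun l => ∑ i, ∑ j, ∑ k, rm G l k i j p * a i * b j * c k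

/-- The Ricci tensor as a bilinear form. -/
noncomputable def Ric (G : H31R.EE d → Matrix (Fin d) (Fin d) ℝ) (p : H31R.EE d) (a b : Fin d → ℝ) : ℝ :=
  ∑ i, ∑ j, H31R.ric G i j p * a i * b j

/-- The scalar curvature. -/
noncomputable def scal (G : H31R.EE d → Matrix (Fin d) (Fin d) ℝ) (p : H31R.EE d) : ℝ :=
  ∑ i, ∑ j, (G p)⁻¹ i j * H31R.ric G i j p

/-- `G` is smooth near `p`, symmetric near `p` and nondegenerate at `p`. -/
structure MetAt (G : H31R.EE d → Matrix (Fin d) (Fin d) ℝ) (p : H31R.EE d) : Prop where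
  smooth : ∀ᶠ q in 𝓝 p, ∀ a b, ContDiffAt ℝ ∞ (fun q' => G q' a b) q
  symm : ∀ᶠ q in 𝓝 p, ∀ a b, G q a b = G q b a
  nondeg : (G p).det ≠ 0

end H17W
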