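import Pool.Agent.Lib.H17W.A0

set_option autoImplicit false

/-!
# H17W, chunk A1 (M): Christoffel symbols

Auxiliary names start with `a1_`.
-/

open MeasureTheory Filter Topology Set
open scoped ContDiff

namespace H17W

variable {d : ℕ} {G : H31R.EE d → Matrix (Fin d) (Fin d) ℝ} {p : H31R.EE d}

/-- The determinant of a matrix with smooth entries is smooth. -/
theorem a1_det_sm {E : Type*} [NormedAddCommGroup E] [NormedSpace ℝ E] {m : ℕ}
    (M : E → Matrix (Fin m) (Fin m) ℝ) (q : E)
    (h : ∀ a b, ContDiffAt ℝ ∞ (fun q' => M q' a b) q) : ContDiffAt ℝ ∞ (fun q' => (M q').det) q := by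
  simp only [Matrix.det_apply']
  exact ContDiffAt.sum fun σ _ => contDiffAt_const.mul (contDiffAt_prod fun i _ => h _ _)

theorem a1_adj_sm {E : Type*} [NormedAddCommGroup E] [NormedSpace ℝ E] {m : ℕ}
    (M : E → Matrix (Fin m) (Fin m) ℝ) (q : E)
    (h : ∀ a b, ContDiffAt ℝ ∞ (fun q' => M q' a b) q) (a b : Fin m) :
    ContDiffAt ℝ ∞ (fun q' => (M q').adjugate a b) q := by
  simp only [Matrix.adjugate_apply]
  refine a1_det_sm _ q fun i j => ?_
  simp only [Matrix.updateRow_apply]
  by_cases hi : i = b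
  · simp only [hi, if_true]
    exact contDiffAt_const
  · simp only [hi, if_false]
    exact h i j

/-- `det` is a polynomial in the entries, which are smooth near `p`, hence continuous: it stays nonzero; use
`Filter.Eventually.eventually_nhds` for the other two fields. -/
theorem metAt_ev (h : MetAt G p) : ∀ᶠ q in 𝓝 p, MetAt G q := by
  have hd : ∀ᶠ q in 𝓝 p, (G q).det ≠ 0 :=
    (a1_det_sm G p h.smooth.self_of_nhds).continuousAt.eventually_ne h.nondeg
  filter_upwards [h.smooth.eventually_nhds, h.symm.eventually_nhds, hd] with q h1 h2 h3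
  exact ⟨h1, h2, h3⟩

theorem a1_inv_eq (q : H31R.EE d) (a b : Fin d) :
    (G q)⁻¹ a b = (G q).det⁻¹ * (G q).adjugate a b := by
  rw [Matrix.inv_def, Ring.inverse_eq_inv', Matrix.smul_apply, smul_eq_mul]

theorem a1_inv_at (h : MetAt G p) (a b : Fin d) : ContDiffAt ℝ ∞ (fun q' => (G q')⁻¹ a b) p := by
  simp only [a1_inv_eq]
  exact ((a1_det_sm G p h.smooth.self_of_nhds).inv h.nondeg).mul
    (a1_adj_sm G p h.smooth.self_of_nhds a b)

/-- Write `(G q)⁻¹ a b = (det G q)⁻¹ * adjugate (G q) a b` (`Matrix.inv_def`, `Ring.inverse_eq_inv'`); `det` and `adjugate`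
(`Matrix.det_apply`, `Matrix.adjugate_apply`) are polynomials in the entries. Or see `H17T`/`H31R` for the smoothness of the
inverse of a matrix. Use `metAt_ev`. -/
theorem inv_smooth (h : MetAt G p) (a b : Fin d) : ∀ᶠ q in 𝓝 p, ContDiffAt ℝ ∞ (fun q' => (G q')⁻¹ a b) q := by
  filter_upwards [metAt_ev h] with q hq
  exact a1_inv_at hq a b

theorem a1_pd_sm {F : H31R.EE d → ℝ} {q : H31R.EE d} (hF : ContDiffAt ℝ ∞ F q) (i : Fin d) :
    ContDiffAt ℝ ∞ (fun x => H31R.pd i F x) q := by
  unfold H31R.pd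
  exact (hF.fderiv_right (m := ∞) (by norm_cast)).clm_apply contDiffAt_const

theorem a1_chr_at (h : MetAt G p) (c i j : Fin d) : ContDiffAt ℝ ∞ (H31R.chr G c i j) p := by
  have hs := h.smooth.self_of_nhds
  unfold H31R.chr
  exact contDiffAt_const.mul (ContDiffAt.sum fun l _ => (a1_inv_at h c l).mul
    (((a1_pd_sm (hs j l) i).add (a1_pd_sm (hs i l) j)).sub (a1_pd_sm (hs i j) l)))

/-- From `inv_smooth` and the smoothness of `fderiv` (`ContDiffAt.fderiv_right`), which is needed at all points near `p`. -/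
theorem chr_smooth (h : MetAt G p) (c i j : Fin d) : ∀ᶠ q in 𝓝 p, ContDiffAt ℝ ∞ (H31R.chr G c i j) q := by
  filter_upwards [metAt_ev h] with q hq
  exact a1_chr_at hq c i j

theorem inv_symm (h : MetAt G p) (a b : Fin d) : (G p)⁻¹ a b = (G p)⁻¹ b a := by
  have h1 : (G p).transpose = G p := by
    ext i j
    exact h.symm.self_of_nhds j i
  have h2 : ((G p)⁻¹).transpose = (G p)⁻¹ := by
    rw [Matrix.transpose_nonsing_inv, h1]
  calc (G p)⁻¹ a b = ((G p)⁻¹).transpose b a := rfl
    _ = (G p)⁻¹ b a := by rw [h2]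

theorem a1_pd_symm (h : MetAt G p) (l i j : Fin d) :
    H31R.pd l (fun y => G y i j) p = H31R.pd l (fun y => G y j i) p := by
  unfold H31R.pd
  have h1 : (fun y => G y i j) =ᶠ[𝓝 p] (fun y => G y j i) := by
    filter_upwards [h.symm] with q hq
    exact hq i j
  rw [h1.fderiv_eq]

/-- `pd l` of `G · i j` and `G · j i` agree since the functions agree near `p` (`Filter.EventuallyEq.fderiv_eq`). -/
theorem chr_symm (h : MetAt G p) (c i j : Fin d) : H31R.chr G c i j p = H31R.chr G c j i p := by
  unfold H31R.chr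
  refine congrArg _ (Finset.sum_congr rfl fun l _ => ?_)
  rw [a1_pd_symm h l i j]
  ring

/-- Multiply the definition of `chr` by `G`. -/
theorem chr_lower (h : MetAt G p) (i j k : Fin d) : ∑ l, G p l k * H31R.chr G l i j p =
    1 / 2 * (H31R.pd i (fun y => G y j k) p + H31R.pd j (fun y => G y i k) p - H31R.pd k (fun y => G y i j) p) := by
  have hinv : G p * (G p)⁻¹ = 1 :=
    Matrix.mul_nonsing_inv _ (isUnit_iff_ne_zero.2 h.nondeg)
  have hk : ∀ m, ∑ l, G p l k * (G p)⁻¹ l m = if k = m then 1 else 0 := by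
    intro m
    have h1 : (G p * (G p)⁻¹) k m = if k = m then 1 else 0 := by
      rw [hinv, Matrix.one_apply]
    rw [← h1, Matrix.mul_apply]
    exact Finset.sum_congr rfl fun l _ => by rw [h.symm.self_of_nhds k l]
  unfold H31R.chr
  calc ∑ l, G p l k * (1 / 2 * ∑ m, (G p)⁻¹ l m *
        (H31R.pd i (fun y => G y j m) p + H31R.pd j (fun y => G y i m) p - H31R.pd m (fun y => G y i j) p))
      = 1 / 2 * ∑ l, ∑ m, (G p l k * (G p)⁻¹ l m) *
        (H31R.pd i (fun y => G y j m) p + H31R.pd j (fun y => G y i m) p - H31R.pd m (fun y => G y i j) p) := by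
        rw [Finset.mul_sum]
        refine Finset.sum_congr rfl fun l _ => ?_
        rw [Finset.mul_sum, Finset.mul_sum, Finset.mul_sum]
        exact Finset.sum_congr rfl fun m _ => by ring
    _ = 1 / 2 * ∑ m, (if k = m then 1 else 0) *
        (H31R.pd i (fun y => G y j m) p + H31R.pd j (fun y => G y i m) p - H31R.pd m (fun y => G y i j) p) := by
        rw [Finset.sum_comm]
        refine congrArg _ (Finset.sum_congr rfl fun m _ => ?_)
        rw [← Finset.sum_mul, hk m]
    _ = _ := by
        simp only [ite_mul, one_mul, zero_mul, Finset.sum_ite_eq, Finset.mem_univ, if_true]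

/-- From `chr_lower` (twice) and the symmetry of `G`. -/
theorem compat (h : MetAt G p) (a b c : Fin d) : H31R.pd c (fun y => G y a b) p =
    ∑ l, (G p l b * H31R.chr G l c a p + G p a l * H31R.chr G l c b p) := by
  have h1 := chr_lower h c a b
  have h2 := chr_lower h c b a
  have h3 : ∑ l, G p a l * H31R.chr G l c b p = ∑ l, G p l a * H31R.chr G l c b p :=
    Finset.sum_congr rfl fun l _ => by rw [h.symm.self_of_nhds a l]
  rw [Finset.sum_add_distrib, h3, h1, h2, a1_pd_symm h c b a]
  ring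

end H17W
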