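import Pool.Agent.Lib.H17W.A1

set_option autoImplicit false

/-!
# H17W, chunk A2 (M): covariant derivatives along a map

Auxiliary names start with `a2_`.
-/

open MeasureTheory Filter Topology Set
open scoped ContDiff

namespace H17W

variable {d : ℕ} {G : H31R.EE d → Matrix (Fin d) (Fin d) ℝ}
variable {V : Type*} [NormedAddCommGroup V] [NormedSpace ℝ V] {Φ : V → H31R.EE d} {A B : V → Fin d → ℝ} {x : V}

theorem a2_proj_diff (hΦ : DifferentiableAt ℝ Φ x) (a : Fin d) :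
    DifferentiableAt ℝ (fun y => Φ y a) x :=
  (EuclideanSpace.proj (𝕜 := ℝ) a).differentiableAt.comp x hΦ

theorem a2_vel (hΦ : DifferentiableAt ℝ Φ x) (v : V) (a : Fin d) :
    vel Φ x v a = fderiv ℝ Φ x v a := by
  unfold vel
  have h1 : HasFDerivAt (fun y => Φ y a)
      ((EuclideanSpace.proj (𝕜 := ℝ) a).comp (fderiv ℝ Φ x)) x :=
    (EuclideanSpace.proj (𝕜 := ℝ) a).hasFDerivAt.comp x hΦ.hasFDerivAt
  rw [h1.fderiv]
  rfl

/-- Chain rule: `fderiv F (Φ x)` applied to `∑ a, (vel Φ x v a) • ebas a`. -/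
theorem chain {F : H31R.EE d → ℝ} (hF : DifferentiableAt ℝ F (Φ x)) (hΦ : DifferentiableAt ℝ Φ x) (v : V) :
    fderiv ℝ (fun y => F (Φ y)) x v = ∑ a, H31R.pd a F (Φ x) * vel Φ x v a := by
  have h1 : fderiv ℝ (fun y => F (Φ y)) x = (fderiv ℝ F (Φ x)).comp (fderiv ℝ Φ x) :=
    (hF.hasFDerivAt.comp x hΦ.hasFDerivAt).fderiv
  have h2 : fderiv ℝ Φ x v = ∑ a, (vel Φ x v a) • H31R.ebas a := by
    ext b
    simp only [a2_vel hΦ]
    rw [WithLp.ofLp_sum, Finset.sum_apply]
    simp [Pi.single_apply]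
  rw [h1, ContinuousLinearMap.comp_apply]
  conv_lhs => rw [h2]
  rw [map_sum]
  refine Finset.sum_congr rfl fun a _ => ?_
  rw [map_smul, smul_eq_mul, mul_comm]
  rfl

theorem a2_G_diff (hG : MetAt G (Φ x)) (hΦ : DifferentiableAt ℝ Φ x) (i j : Fin d) :
    DifferentiableAt ℝ (fun y => G (Φ y) i j) x := by
  have h1 : DifferentiableAt ℝ (fun q' => G q' i j) (Φ x) :=
    (hG.smooth.self_of_nhds i j).differentiableAt (by norm_num)
  exact h1.comp x hΦ

theorem a2_G_fderiv (hG : MetAt G (Φ x)) (hΦ : DifferentiableAt ℝ Φ x) (v : V) (i j : Fin d) :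
    fderiv ℝ (fun y => G (Φ y) i j) x v = ∑ c, (∑ l, (G (Φ x) l j * H31R.chr G l c i (Φ x) +
      G (Φ x) i l * H31R.chr G l c j (Φ x))) * vel Φ x v c := by
  have h1 : DifferentiableAt ℝ (fun q' => G q' i j) (Φ x) :=
    (hG.smooth.self_of_nhds i j).differentiableAt (by norm_num)
  rw [chain h1 hΦ v]
  exact Finset.sum_congr rfl fun c _ => by rw [compat hG i j c]

/-- algebra for `ip_cov` -/
theorem a2_alg (g : Fin d → Fin d → ℝ) (Γ : Fin d → Fin d → Fin d → ℝ) (w a b a' b' : Fin d → ℝ) :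
    ∑ i, ∑ j, ((∑ c, (∑ l, (g l j * Γ l c i + g i l * Γ l c j)) * w c) * a i * b j
      + g i j * a' i * b j + g i j * a i * b' j) =
    (∑ i, ∑ j, g i j * (a' i + ∑ c, ∑ k, Γ i c k * w c * a k) * b j) +
      ∑ i, ∑ j, g i j * a i * (b' j + ∑ c, ∑ k, Γ j c k * w c * b k) := by
  have e1 : ∑ i, ∑ j, (∑ c, (∑ l, g l j * Γ l c i) * w c) * a i * b j =
      ∑ i, ∑ j, g i j * (∑ c, ∑ k, Γ i c k * w c * a k) * b j := by
    simp only [Finset.sum_mul, Finset.mul_sum]
    -- left: ∑ i j c l ; right: ∑ i j c k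
    have : ∑ i, ∑ j, ∑ c, ∑ l, g l j * Γ l c i * w c * a i * b j =
        ∑ l, ∑ j, ∑ c, ∑ i, g l j * Γ l c i * w c * a i * b j := by
      calc ∑ i, ∑ j, ∑ c, ∑ l, g l j * Γ l c i * w c * a i * b j
          = ∑ i, ∑ l, ∑ j, ∑ c, g l j * Γ l c i * w c * a i * b j := by
            refine Finset.sum_congr rfl fun i _ => ?_
            rw [Finset.sum_comm (s := (Finset.univ : Finset (Fin d))) (t := (Finset.univ : Finset (Fin d)))
              (f := fun l j => ∑ c, g l j * Γ l c i * w c * a i * b j)]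
            refine Finset.sum_congr rfl fun j _ => ?_
            exact Finset.sum_comm
        _ = ∑ l, ∑ i, ∑ j, ∑ c, g l j * Γ l c i * w c * a i * b j := Finset.sum_comm
        _ = ∑ l, ∑ j, ∑ c, ∑ i, g l j * Γ l c i * w c * a i * b j := by
            refine Finset.sum_congr rfl fun l _ => ?_
            rw [Finset.sum_comm]
            refine Finset.sum_congr rfl fun j _ => ?_
            exact Finset.sum_comm
    rw [this]
    refine Finset.sum_congr rfl fun i _ => Finset.sum_congr rfl fun j _ =>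
      Finset.sum_congr rfl fun c _ => Finset.sum_congr rfl fun k _ => ?_
    ring
  have e2 : ∑ i, ∑ j, (∑ c, (∑ l, g i l * Γ l c j) * w c) * a i * b j =
      ∑ i, ∑ j, g i j * a i * (∑ c, ∑ k, Γ j c k * w c * b k) := by
    simp only [Finset.sum_mul, Finset.mul_sum]
    have : ∀ i, ∑ j, ∑ c, ∑ l, g i l * Γ l c j * w c * a i * b j =
        ∑ l, ∑ c, ∑ j, g i l * Γ l c j * w c * a i * b j := by
      intro i
      calc ∑ j, ∑ c, ∑ l, g i l * Γ l c j * w c * a i * b j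
          = ∑ j, ∑ l, ∑ c, g i l * Γ l c j * w c * a i * b j :=
            Finset.sum_congr rfl fun j _ => Finset.sum_comm
        _ = ∑ l, ∑ j, ∑ c, g i l * Γ l c j * w c * a i * b j := Finset.sum_comm
        _ = ∑ l, ∑ c, ∑ j, g i l * Γ l c j * w c * a i * b j :=
            Finset.sum_congr rfl fun l _ => Finset.sum_comm
    refine Finset.sum_congr rfl fun i _ => ?_
    rw [this i]
    refine Finset.sum_congr rfl fun j _ =>
      Finset.sum_congr rfl fun c _ => Finset.sum_congr rfl fun k _ => ?_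
    ring
  have e3 : ∀ i j, (∑ c, (∑ l, (g l j * Γ l c i + g i l * Γ l c j)) * w c) * a i * b j
      + g i j * a' i * b j + g i j * a i * b' j =
      ((∑ c, (∑ l, g l j * Γ l c i) * w c) * a i * b j + g i j * a' i * b j) +
      ((∑ c, (∑ l, g i l * Γ l c j) * w c) * a i * b j + g i j * a i * b' j) := by
    intro i j
    have : ∑ c, (∑ l, (g l j * Γ l c i + g i l * Γ l c j)) * w c =
        (∑ c, (∑ l, g l j * Γ l c i) * w c) + ∑ c, (∑ l, g i l * Γ l c j) * w c := by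
      rw [← Finset.sum_add_distrib]
      refine Finset.sum_congr rfl fun c _ => ?_
      rw [Finset.sum_add_distrib, add_mul]
    rw [this]
    ring
  calc _ = ∑ i, ∑ j, (((∑ c, (∑ l, g l j * Γ l c i) * w c) * a i * b j + g i j * a' i * b j) +
      ((∑ c, (∑ l, g i l * Γ l c j) * w c) * a i * b j + g i j * a i * b' j)) :=
        Finset.sum_congr rfl fun i _ => Finset.sum_congr rfl fun j _ => e3 i j
    _ = (∑ i, ∑ j, (∑ c, (∑ l, g l j * Γ l c i) * w c) * a i * b j + ∑ i, ∑ j, g i j * a' i * b j) +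
      (∑ i, ∑ j, (∑ c, (∑ l, g i l * Γ l c j) * w c) * a i * b j + ∑ i, ∑ j, g i j * a i * b' j) := by
        simp only [Finset.sum_add_distrib]
    _ = _ := by
        rw [e1, e2]
        have r1 : ∑ i, ∑ j, g i j * (a' i + ∑ c, ∑ k, Γ i c k * w c * a k) * b j =
            ∑ i, ∑ j, g i j * (∑ c, ∑ k, Γ i c k * w c * a k) * b j + ∑ i, ∑ j, g i j * a' i * b j := by
          simp only [← Finset.sum_add_distrib]
          exact Finset.sum_congr rfl fun i _ => Finset.sum_congr rfl fun j _ => by ring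
        have r2 : ∑ i, ∑ j, g i j * a i * (b' j + ∑ c, ∑ k, Γ j c k * w c * b k) =
            ∑ i, ∑ j, g i j * a i * (∑ c, ∑ k, Γ j c k * w c * b k) + ∑ i, ∑ j, g i j * a i * b' j := by
          simp only [← Finset.sum_add_distrib]
          exact Finset.sum_congr rfl fun i _ => Finset.sum_congr rfl fun j _ => by ring
        rw [r1, r2]

/-- The covariant derivative is compatible with the metric: product rule, `chain` for the entries of `G`, and `compat`. -/
theorem ip_cov (hG : MetAt G (Φ x)) (hΦ : DifferentiableAt ℝ Φ x) (hA : ∀ a, DifferentiableAt ℝ (fun y => A y a) x)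
    (hB : ∀ a, DifferentiableAt ℝ (fun y => B y a) x) (v : V) :
    fderiv ℝ (fun y => ip G (Φ y) (A y) (B y)) x v =
      ip G (Φ x) (cov G Φ A x v) (B x) + ip G (Φ x) (A x) (cov G Φ B x v) := by
  have hd : ∀ i j, HasFDerivAt (fun y => G (Φ y) i j * A y i * B y j)
      ((G (Φ x) i j * A x i) • fderiv ℝ (fun y => B y j) x +
        B x j • (G (Φ x) i j • fderiv ℝ (fun y => A y i) x +
          A x i • fderiv ℝ (fun y => G (Φ y) i j) x)) x := fun i j =>
    ((a2_G_diff hG hΦ i j).hasFDerivAt.mul (hA i).hasFDerivAt).mul (hB j).hasFDerivAt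
  have h1 : HasFDerivAt (fun y => ip G (Φ y) (A y) (B y))
      (∑ i, ∑ j, ((G (Φ x) i j * A x i) • fderiv ℝ (fun y => B y j) x +
        B x j • (G (Φ x) i j • fderiv ℝ (fun y => A y i) x +
          A x i • fderiv ℝ (fun y => G (Φ y) i j) x))) x := by
    unfold ip
    exact HasFDerivAt.fun_sum fun i _ => HasFDerivAt.fun_sum fun j _ => hd i j
  rw [h1.fderiv]
  simp only [ContinuousLinearMap.sum_apply, ContinuousLinearMap.add_apply,
    ContinuousLinearMap.smul_apply, smul_eq_mul]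
  simp only [a2_G_fderiv hG hΦ v]
  unfold ip cov gam
  rw [← a2_alg (fun i j => G (Φ x) i j) (fun l c i => H31R.chr G l c i (Φ x)) (vel Φ x v) (A x) (B x)
    (fun i => fderiv ℝ (fun y => A y i) x v) (fun i => fderiv ℝ (fun y => B y i) x v)]
  refine Finset.sum_congr rfl fun i _ => Finset.sum_congr rfl fun j _ => ?_
  ring

theorem a2_vel_diff (hΦ : ContDiffAt ℝ 2 Φ x) (v : V) (a : Fin d) :
    DifferentiableAt ℝ (fun y => vel Φ y v a) x := by
  have h1 : ContDiffAt ℝ 2 (fun y => Φ y a) x :=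
    (EuclideanSpace.proj (𝕜 := ℝ) a).contDiff.contDiffAt.comp x hΦ
  have h2 : ContDiffAt ℝ 1 (fderiv ℝ (fun y => Φ y a)) x := h1.fderiv_right (by norm_num)
  exact (h2.differentiableAt (by norm_num)).clm_apply (differentiableAt_const v)

theorem a2_second (hΦ : ContDiffAt ℝ 2 Φ x) (u v : V) (a : Fin d) :
    fderiv ℝ (fun y => vel Φ y v a) x u = fderiv ℝ (fun y => vel Φ y u a) x v := by
  have h1 : ContDiffAt ℝ 2 (fun y => Φ y a) x :=
    (EuclideanSpace.proj (𝕜 := ℝ) a).contDiff.contDiffAt.comp x hΦ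
  have h2 : DifferentiableAt ℝ (fderiv ℝ (fun y => Φ y a)) x :=
    (h1.fderiv_right (m := 1) (by norm_num)).differentiableAt (by norm_num)
  have h3 : IsSymmSndFDerivAt ℝ (fun y => Φ y a) x :=
    h1.isSymmSndFDerivAt (by simp)
  have h4 : ∀ w : V, fderiv ℝ (fun y => vel Φ y w a) x =
      (ContinuousLinearMap.apply ℝ ℝ w).comp (fderiv ℝ (fderiv ℝ (fun y => Φ y a)) x) := by
    intro w
    exact ((ContinuousLinearMap.apply ℝ ℝ w).hasFDerivAt.comp x h2.hasFDerivAt).fderiv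
  rw [h4 v, h4 u]
  exact h3 u v

/-- Symmetry of the second derivative of `Φ` and of the Christoffel symbols. -/
theorem cov_symm (hG : MetAt G (Φ x)) (hΦ : ContDiffAt ℝ 2 Φ x) (u v : V) :
    cov G Φ (fun y => vel Φ y v) x u = cov G Φ (fun y => vel Φ y u) x v := by
  funext a
  unfold cov gam
  rw [a2_second hΦ u v a]
  refine congrArg _ ?_
  rw [Finset.sum_comm]
  refine Finset.sum_congr rfl fun j _ => Finset.sum_congr rfl fun i _ => ?_
  rw [chr_symm hG a i j]
  ring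

theorem cov_add (hA : ∀ a, DifferentiableAt ℝ (fun y => A y a) x) (hB : ∀ a, DifferentiableAt ℝ (fun y => B y a) x) (v : V) :
    cov G Φ (fun y => A y + B y) x v = cov G Φ A x v + cov G Φ B x v := by
  funext a
  have h1 : fderiv ℝ (fun y => (A y + B y) a) x = fderiv ℝ (fun y => A y a) x + fderiv ℝ (fun y => B y a) x := by
    exact ((hA a).hasFDerivAt.add (hB a).hasFDerivAt).fderiv
  unfold cov gam
  rw [h1, Pi.add_apply]
  have h2 : ∑ i, ∑ j, H31R.chr G a i j (Φ x) * vel Φ x v i * (A x + B x) j =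
      ∑ i, ∑ j, H31R.chr G a i j (Φ x) * vel Φ x v i * A x j +
      ∑ i, ∑ j, H31R.chr G a i j (Φ x) * vel Φ x v i * B x j := by
    simp only [← Finset.sum_add_distrib]
    exact Finset.sum_congr rfl fun i _ => Finset.sum_congr rfl fun j _ => by
      rw [Pi.add_apply]; ring
  rw [h2, ContinuousLinearMap.add_apply]
  ring

theorem cov_smul {f : V → ℝ} (hf : DifferentiableAt ℝ f x) (hA : ∀ a, DifferentiableAt ℝ (fun y => A y a) x) (v : V) :
    cov G Φ (fun y => f y • A y) x v = fderiv ℝ f x v • A x + f x • cov G Φ A x v := by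
  funext a
  have h1 : fderiv ℝ (fun y => (f y • A y) a) x = f x • fderiv ℝ (fun y => A y a) x + A x a • fderiv ℝ f x := by
    exact (hf.hasFDerivAt.mul (hA a).hasFDerivAt).fderiv
  unfold cov gam
  rw [h1, Pi.add_apply, Pi.smul_apply, Pi.smul_apply]
  have h2 : ∑ i, ∑ j, H31R.chr G a i j (Φ x) * vel Φ x v i * (f x • A x) j =
      f x * ∑ i, ∑ j, H31R.chr G a i j (Φ x) * vel Φ x v i * A x j := by
    simp only [Finset.mul_sum]
    exact Finset.sum_congr rfl fun i _ => Finset.sum_congr rfl fun j _ => by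
      rw [Pi.smul_apply, smul_eq_mul]; ring
  rw [h2, ContinuousLinearMap.add_apply, ContinuousLinearMap.smul_apply, ContinuousLinearMap.smul_apply]
  simp only [smul_eq_mul]
  ring

theorem a2_vel_at (hΦ : ContDiffAt ℝ ∞ Φ x) (v : V) (a : Fin d) :
    ContDiffAt ℝ ∞ (fun z => vel Φ z v a) x := by
  have h1 : ContDiffAt ℝ ∞ (fun y => Φ y a) x :=
    (EuclideanSpace.proj (𝕜 := ℝ) a).contDiff.contDiffAt.comp x hΦ
  exact (h1.fderiv_right (m := ∞) (by norm_cast)).clm_apply contDiffAt_const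

omit [NormedSpace ℝ V] in
/-- `MetAt` along a continuous map. -/
theorem a2_met_ev (hG : MetAt G (Φ x)) (hΦ : ContinuousAt Φ x) : ∀ᶠ y in 𝓝 x, MetAt G (Φ y) :=
  hΦ.eventually (metAt_ev hG)

theorem a2_cov_at (hG : MetAt G (Φ x)) (hΦ : ContDiffAt ℝ ∞ Φ x)
    (hA : ∀ a, ContDiffAt ℝ ∞ (fun z => A z a) x) (v : V) (a : Fin d) :
    ContDiffAt ℝ ∞ (fun z => cov G Φ A z v a) x := by
  unfold cov gam
  refine ContDiffAt.add ?_ ?_
  · exact ((hA a).fderiv_right (m := ∞) (by norm_cast)).clm_apply contDiffAt_const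
  · refine ContDiffAt.sum fun i _ => ContDiffAt.sum fun j _ => ?_
    refine ((?_ : ContDiffAt ℝ ∞ (fun z => H31R.chr G a i j (Φ z)) x).mul (a2_vel_at hΦ v i)).mul (hA j)
    exact (a1_chr_at hG a i j).comp x hΦ

/-- The covariant derivative of a smooth field is smooth. -/
theorem cov_smooth (hG : MetAt G (Φ x)) (hΦ : ∀ᶠ y in 𝓝 x, ContDiffAt ℝ ∞ Φ y)
    (hA : ∀ᶠ y in 𝓝 x, ∀ a, ContDiffAt ℝ ∞ (fun z => A z a) y) (v : V) :
    ∀ᶠ y in 𝓝 x, ∀ a, ContDiffAt ℝ ∞ (fun z => cov G Φ A z v a) y := by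
  filter_upwards [a2_met_ev hG hΦ.self_of_nhds.continuousAt, hΦ, hA] with y h1 h2 h3 a
  exact a2_cov_at h1 h2 h3 v a

/-- `vel` of a smooth map is smooth. -/
theorem vel_smooth (hΦ : ∀ᶠ y in 𝓝 x, ContDiffAt ℝ ∞ Φ y) (v : V) :
    ∀ᶠ y in 𝓝 x, ∀ a, ContDiffAt ℝ ∞ (fun z => vel Φ z v a) y := by
  filter_upwards [hΦ] with y h2 a
  exact a2_vel_at h2 v a

/-- Scalar products of smooth fields are smooth. -/
theorem ip_smooth (hG : MetAt G (Φ x)) (hΦ : ∀ᶠ y in 𝓝 x, ContDiffAt ℝ ∞ Φ y)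
    (hA : ∀ᶠ y in 𝓝 x, ∀ a, ContDiffAt ℝ ∞ (fun z => A z a) y) (hB : ∀ᶠ y in 𝓝 x, ∀ a, ContDiffAt ℝ ∞ (fun z => B z a) y) :
    ∀ᶠ y in 𝓝 x, ContDiffAt ℝ ∞ (fun z => ip G (Φ z) (A z) (B z)) y := by
  filter_upwards [a2_met_ev hG hΦ.self_of_nhds.continuousAt, hΦ, hA, hB] with y h1 h2 h3 h4
  unfold ip
  refine ContDiffAt.sum fun i _ => ContDiffAt.sum fun j _ => ?_
  refine ((?_ : ContDiffAt ℝ ∞ (fun z => G (Φ z) i j) y).mul (h3 i)).mul (h4 j)
  exact (h1.smooth.self_of_nhds i j).comp y h2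

end H17W
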