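import Pool.Agent.Lib.H17W.A2

set_option autoImplicit false

/-!
# H17W, chunk A3 (M/L): the commutator of two covariant derivatives is the curvature

Auxiliary names start with `a3_`.
-/

open MeasureTheory Filter Topology Set
open scoped ContDiff

namespace H17W

variable {d : ℕ} {G : H31R.EE d → Matrix (Fin d) (Fin d) ℝ}
variable {V : Type*} [NormedAddCommGroup V] [NormedSpace ℝ V] {Φ : V → H31R.EE d} {A : V → Fin d → ℝ} {x : V}

/-- reindexing of the derivative terms -/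
theorem a3_P (D : Fin d → Fin d → Fin d → ℝ) (U W a : Fin d → ℝ) :
    ∑ i, ∑ j, (∑ k, D k i j * U k) * W i * a j = ∑ i, ∑ j, ∑ k, D i j k * U i * W j * a k := by
  simp only [Finset.sum_mul]
  calc ∑ i, ∑ j, ∑ k, D k i j * U k * W i * a j
      = ∑ i, ∑ k, ∑ j, D k i j * U k * W i * a j :=
        Finset.sum_congr rfl fun i _ => Finset.sum_comm
    _ = ∑ k, ∑ i, ∑ j, D k i j * U k * W i * a j := Finset.sum_comm

/-- reindexing of the quadratic terms -/
theorem a3_Q (g : Fin d → Fin d → ℝ) (Γ : Fin d → Fin d → Fin d → ℝ) (U W a : Fin d → ℝ) :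
    ∑ i, ∑ j, g i j * U i * (∑ k, ∑ l, Γ j k l * W k * a l) =
      ∑ i, ∑ j, ∑ k, (∑ m, g i m * Γ m j k) * U i * W j * a k := by
  simp only [Finset.mul_sum, Finset.sum_mul]
  refine Finset.sum_congr rfl fun i _ => ?_
  calc ∑ j, ∑ k, ∑ l, g i j * U i * (Γ j k l * W k * a l)
      = ∑ k, ∑ j, ∑ l, g i j * U i * (Γ j k l * W k * a l) := Finset.sum_comm
    _ = ∑ k, ∑ l, ∑ j, g i j * U i * (Γ j k l * W k * a l) :=
        Finset.sum_congr rfl fun k _ => Finset.sum_comm
    _ = ∑ j, ∑ k, ∑ m, g i m * Γ m j k * U i * W j * a k :=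
        Finset.sum_congr rfl fun k _ => Finset.sum_congr rfl fun l _ =>
          Finset.sum_congr rfl fun j _ => by ring

/-- exchange of the first two arguments -/
theorem a3_swap (D : Fin d → Fin d → Fin d → ℝ) (U W a : Fin d → ℝ) :
    ∑ i, ∑ j, ∑ k, D i j k * W i * U j * a k = ∑ i, ∑ j, ∑ k, D j i k * U i * W j * a k := by
  rw [Finset.sum_comm]
  exact Finset.sum_congr rfl fun i _ => Finset.sum_congr rfl fun j _ =>
    Finset.sum_congr rfl fun k _ => by ring

/-- algebra for `cov_comm` -/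
theorem a3_alg (g : Fin d → Fin d → ℝ) (D Γ : Fin d → Fin d → Fin d → ℝ) (U W a S Au Av : Fin d → ℝ)
    (T : ℝ) :
    (T + ∑ i, ∑ j, ((∑ k, D k i j * U k) * W i * a j + g i j * S i * a j + g i j * W i * Au j) +
      ∑ i, ∑ j, g i j * U i * (Av j + ∑ k, ∑ l, Γ j k l * W k * a l)) -
    (T + ∑ i, ∑ j, ((∑ k, D k i j * W k) * U i * a j + g i j * S i * a j + g i j * U i * Av j) +
      ∑ i, ∑ j, g i j * W i * (Au j + ∑ k, ∑ l, Γ j k l * U k * a l)) =
    ∑ i, ∑ j, ∑ k, (D i j k - D j i k + ∑ m, (g i m * Γ m j k - g j m * Γ m i k)) * U i * W j * a k := by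
  have r : ∀ (U W Au Av : Fin d → ℝ),
      (T + ∑ i, ∑ j, ((∑ k, D k i j * U k) * W i * a j + g i j * S i * a j + g i j * W i * Au j) +
      ∑ i, ∑ j, g i j * U i * (Av j + ∑ k, ∑ l, Γ j k l * W k * a l)) =
      (T + ∑ i, ∑ j, g i j * S i * a j + (∑ i, ∑ j, g i j * W i * Au j + ∑ i, ∑ j, g i j * U i * Av j)) +
      (∑ i, ∑ j, ∑ k, D i j k * U i * W j * a k +
        ∑ i, ∑ j, ∑ k, (∑ m, g i m * Γ m j k) * U i * W j * a k) := by
    intro U W Au Av
    rw [← a3_P D U W a, ← a3_Q g Γ U W a]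
    have h1 : ∑ i, ∑ j, g i j * U i * (Av j + ∑ k, ∑ l, Γ j k l * W k * a l) =
        ∑ i, ∑ j, g i j * U i * Av j + ∑ i, ∑ j, g i j * U i * (∑ k, ∑ l, Γ j k l * W k * a l) := by
      simp only [← Finset.sum_add_distrib]
      exact Finset.sum_congr rfl fun i _ => Finset.sum_congr rfl fun j _ => by ring
    rw [h1]
    simp only [Finset.sum_add_distrib]
    ring
  rw [r U W Au Av, r W U Av Au, a3_swap D U W a,
    a3_swap (fun i j k => ∑ m, g i m * Γ m j k) U W a]
  have h2 : ∑ i, ∑ j, ∑ k, (D i j k - D j i k + ∑ m, (g i m * Γ m j k - g j m * Γ m i k)) * U i * W j * a k =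
      (∑ i, ∑ j, ∑ k, D i j k * U i * W j * a k - ∑ i, ∑ j, ∑ k, D j i k * U i * W j * a k) +
      (∑ i, ∑ j, ∑ k, (∑ m, g i m * Γ m j k) * U i * W j * a k -
        ∑ i, ∑ j, ∑ k, (∑ m, g j m * Γ m i k) * U i * W j * a k) := by
    simp only [← Finset.sum_add_distrib, ← Finset.sum_sub_distrib]
    refine Finset.sum_congr rfl fun i _ => Finset.sum_congr rfl fun j _ =>
      Finset.sum_congr rfl fun k _ => ?_
    rw [Finset.sum_sub_distrib]
    ring
  rw [h2]
  ring

/-- the component of the second covariant derivative -/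
theorem a3_second (hG : MetAt G (Φ x)) (hΦ : ContDiffAt ℝ ∞ Φ x)
    (hA : ∀ a, ContDiffAt ℝ ∞ (fun z => A z a) x) (u v : V) (a : Fin d) :
    cov G Φ (fun y => cov G Φ A y v) x u a =
      fderiv ℝ (fun y => fderiv ℝ (fun z => A z a) y v) x u +
      ∑ i, ∑ j, ((∑ k, H31R.pd k (H31R.chr G a i j) (Φ x) * vel Φ x u k) * vel Φ x v i * A x j +
        H31R.chr G a i j (Φ x) * fderiv ℝ (fun y => vel Φ y v i) x u * A x j +
        H31R.chr G a i j (Φ x) * vel Φ x v i * fderiv ℝ (fun z => A z j) x u) +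
      ∑ i, ∑ j, H31R.chr G a i j (Φ x) * vel Φ x u i *
        (fderiv ℝ (fun z => A z j) x v + ∑ k, ∑ l, H31R.chr G j k l (Φ x) * vel Φ x v k * A x l) := by
  have hA1 : DifferentiableAt ℝ (fun y => fderiv ℝ (fun z => A z a) y v) x :=
    ((((hA a).fderiv_right (m := ∞) (by norm_cast)).clm_apply contDiffAt_const).differentiableAt
      (by norm_num))
  have hc : ∀ i j, DifferentiableAt ℝ (fun y => H31R.chr G a i j (Φ y)) x := fun i j =>
    ((a1_chr_at hG a i j).comp x hΦ).differentiableAt (by norm_num)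
  have hv : ∀ i, DifferentiableAt ℝ (fun y => vel Φ y v i) x := fun i =>
    (a2_vel_at hΦ v i).differentiableAt (by norm_num)
  have hAd : ∀ j, DifferentiableAt ℝ (fun y => A y j) x := fun j =>
    (hA j).differentiableAt (by norm_num)
  have hd : ∀ i j, HasFDerivAt (fun y => H31R.chr G a i j (Φ y) * vel Φ y v i * A y j)
      ((H31R.chr G a i j (Φ x) * vel Φ x v i) • fderiv ℝ (fun y => A y j) x +
        A x j • (H31R.chr G a i j (Φ x) • fderiv ℝ (fun y => vel Φ y v i) x +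
          vel Φ x v i • fderiv ℝ (fun y => H31R.chr G a i j (Φ y)) x)) x := fun i j =>
    ((hc i j).hasFDerivAt.mul (hv i).hasFDerivAt).mul (hAd j).hasFDerivAt
  have hchain : ∀ i j, fderiv ℝ (fun y => H31R.chr G a i j (Φ y)) x u =
      ∑ k, H31R.pd k (H31R.chr G a i j) (Φ x) * vel Φ x u k := fun i j =>
    chain ((a1_chr_at hG a i j).differentiableAt (by norm_num)) (hΦ.differentiableAt (by norm_num)) u
  have h1 : HasFDerivAt (fun y => cov G Φ A y v a)
      (fderiv ℝ (fun y => fderiv ℝ (fun z => A z a) y v) x +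
        ∑ i, ∑ j, ((H31R.chr G a i j (Φ x) * vel Φ x v i) • fderiv ℝ (fun y => A y j) x +
        A x j • (H31R.chr G a i j (Φ x) • fderiv ℝ (fun y => vel Φ y v i) x +
          vel Φ x v i • fderiv ℝ (fun y => H31R.chr G a i j (Φ y)) x))) x := by
    unfold cov gam
    exact hA1.hasFDerivAt.add
      (HasFDerivAt.fun_sum fun i _ => HasFDerivAt.fun_sum fun j _ => hd i j)
  have h2 : cov G Φ (fun y => cov G Φ A y v) x u a =
      fderiv ℝ (fun y => cov G Φ A y v a) x u +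
        ∑ i, ∑ j, H31R.chr G a i j (Φ x) * vel Φ x u i * cov G Φ A x v j := rfl
  rw [h2, h1.fderiv]
  simp only [ContinuousLinearMap.sum_apply, ContinuousLinearMap.add_apply,
    ContinuousLinearMap.smul_apply, smul_eq_mul]
  refine congrArg₂ _ (congrArg _ ?_) rfl
  refine Finset.sum_congr rfl fun i _ => Finset.sum_congr rfl fun j _ => ?_
  rw [hchain i j]
  ring

/-- Component `a` of `cov (cov A v) u` is
`∂_u ∂_v A^a + ∑_ij ∂_u (chr a i j ∘ Φ) v^i A^j + ∑_ij chr a i j ((∂_u v^i) A^j + v^i ∂_u A^j) + ∑_ij chr a i j u^i (∂_v A^j + ∑_kl chr j k l v^k A^l)`,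
where `v^i = vel Φ · v i`, and `∂_u v^i = ∂_v u^i` (second derivative of `Φ`), `∂_u ∂_v A^a = ∂_v ∂_u A^a`,
`∂_u (chr a i j ∘ Φ) = ∑_k pd k (chr a i j) u^k` (`chain`). The difference with `u`, `v` exchanged is `riem`. -/
theorem cov_comm (hG : MetAt G (Φ x)) (hΦ : ∀ᶠ y in 𝓝 x, ContDiffAt ℝ ∞ Φ y)
    (hA : ∀ᶠ y in 𝓝 x, ∀ a, ContDiffAt ℝ ∞ (fun z => A z a) y) (u v : V) :
    cov G Φ (fun y => cov G Φ A y v) x u - cov G Φ (fun y => cov G Φ A y u) x v =
      riem G (Φ x) (vel Φ x u) (vel Φ x v) (A x) := by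
  have hΦ' := hΦ.self_of_nhds
  have hA' := hA.self_of_nhds
  have hΦ2 : ContDiffAt ℝ 2 Φ x := hΦ'.of_le (by norm_cast)
  funext a
  rw [Pi.sub_apply, a3_second hG hΦ' hA' u v a, a3_second hG hΦ' hA' v u a]
  have hT : fderiv ℝ (fun y => fderiv ℝ (fun z => A z a) y u) x v =
      fderiv ℝ (fun y => fderiv ℝ (fun z => A z a) y v) x u := by
    have h2 : DifferentiableAt ℝ (fderiv ℝ (fun y => A y a)) x :=
      ((hA' a).fderiv_right (m := ∞) (by norm_cast)).differentiableAt (by norm_num)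
    have h3 : IsSymmSndFDerivAt ℝ (fun y => A y a) x :=
      (hA' a).isSymmSndFDerivAt (by simp; norm_cast)
    have h4 : ∀ w : V, fderiv ℝ (fun y => fderiv ℝ (fun z => A z a) y w) x =
        (ContinuousLinearMap.apply ℝ ℝ w).comp (fderiv ℝ (fderiv ℝ (fun y => A y a)) x) := by
      intro w
      exact ((ContinuousLinearMap.apply ℝ ℝ w).hasFDerivAt.comp x h2.hasFDerivAt).fderiv
    rw [h4 v, h4 u]
    exact h3 v u
  have hS : ∀ i, fderiv ℝ (fun y => vel Φ y u i) x v = fderiv ℝ (fun y => vel Φ y v i) x u :=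
    fun i => a2_second hΦ2 v u i
  simp only [hT, hS]
  exact a3_alg (fun i j => H31R.chr G a i j (Φ x)) (fun k i j => H31R.pd k (H31R.chr G a i j) (Φ x))
    (fun j k l => H31R.chr G j k l (Φ x)) (vel Φ x u) (vel Φ x v) (A x)
    (fun i => fderiv ℝ (fun y => vel Φ y v i) x u) (fun j => fderiv ℝ (fun z => A z j) x u)
    (fun j => fderiv ℝ (fun z => A z j) x v) _

end H17W
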