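import Pool.Agent.Lib.H17W.A1

set_option autoImplicit false

/-!
# H17W, chunk A4 (S/M): multilinearity of the curvature, the Ricci tensor as a trace

Auxiliary names start with `a4_`.
-/

open MeasureTheory Filter Topology Set
open scoped ContDiff

namespace H17W

variable {d : ℕ} {G : H31R.EE d → Matrix (Fin d) (Fin d) ℝ} {p : H31R.EE d}

theorem ip_symm (h : MetAt G p) (a b : Fin d → ℝ) : ip G p a b = ip G p b a := by
  unfold ip
  rw [Finset.sum_comm]
  refine Finset.sum_congr rfl fun i _ => Finset.sum_congr rfl fun j _ => ?_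
  rw [h.symm.self_of_nhds j i]
  ring

theorem ip_add_left (a a' b : Fin d → ℝ) : ip G p (a + a') b = ip G p a b + ip G p a' b := by
  unfold ip
  rw [← Finset.sum_add_distrib]
  refine Finset.sum_congr rfl fun i _ => ?_
  rw [← Finset.sum_add_distrib]
  refine Finset.sum_congr rfl fun j _ => ?_
  rw [Pi.add_apply]
  ring

theorem ip_smul_left (t : ℝ) (a b : Fin d → ℝ) : ip G p (t • a) b = t * ip G p a b := by
  unfold ip
  rw [Finset.mul_sum]
  refine Finset.sum_congr rfl fun i _ => ?_
  rw [Finset.mul_sum]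
  refine Finset.sum_congr rfl fun j _ => ?_
  rw [Pi.smul_apply, smul_eq_mul]
  ring

theorem ip_add_right (a b b' : Fin d → ℝ) : ip G p a (b + b') = ip G p a b + ip G p a b' := by
  unfold ip
  rw [← Finset.sum_add_distrib]
  refine Finset.sum_congr rfl fun i _ => ?_
  rw [← Finset.sum_add_distrib]
  refine Finset.sum_congr rfl fun j _ => ?_
  rw [Pi.add_apply]
  ring

theorem ip_smul_right (t : ℝ) (a b : Fin d → ℝ) : ip G p a (t • b) = t * ip G p a b := by
  unfold ip
  rw [Finset.mul_sum]
  refine Finset.sum_congr rfl fun i _ => ?_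
  rw [Finset.mul_sum]
  refine Finset.sum_congr rfl fun j _ => ?_
  rw [Pi.smul_apply, smul_eq_mul]
  ring

theorem a4_rm_anti (l k i j : Fin d) : rm G l k i j p = -rm G l k j i p := by
  unfold rm
  have h : ∑ m, (H31R.chr G l i m p * H31R.chr G m j k p - H31R.chr G l j m p * H31R.chr G m i k p) =
      -∑ m, (H31R.chr G l j m p * H31R.chr G m i k p - H31R.chr G l i m p * H31R.chr G m j k p) := by
    rw [← Finset.sum_neg_distrib]
    exact Finset.sum_congr rfl fun m _ => by ring
  rw [h]
  ring

theorem riem_anti (a b c : Fin d → ℝ) : riem G p a b c = -riem G p b a c := by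
  funext l
  rw [Pi.neg_apply]
  unfold riem
  rw [Finset.sum_comm, ← Finset.sum_neg_distrib]
  refine Finset.sum_congr rfl fun i _ => ?_
  rw [← Finset.sum_neg_distrib]
  refine Finset.sum_congr rfl fun j _ => ?_
  rw [← Finset.sum_neg_distrib]
  refine Finset.sum_congr rfl fun k _ => ?_
  rw [a4_rm_anti l k j i]
  ring

theorem riem_add1 (a a' b c : Fin d → ℝ) : riem G p (a + a') b c = riem G p a b c + riem G p a' b c := by
  funext l
  rw [Pi.add_apply]
  unfold riem
  rw [← Finset.sum_add_distrib]
  refine Finset.sum_congr rfl fun i _ => ?_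
  rw [← Finset.sum_add_distrib]
  refine Finset.sum_congr rfl fun j _ => ?_
  rw [← Finset.sum_add_distrib]
  refine Finset.sum_congr rfl fun k _ => ?_
  rw [Pi.add_apply]
  ring

theorem riem_smul1 (t : ℝ) (a b c : Fin d → ℝ) : riem G p (t • a) b c = t • riem G p a b c := by
  funext l
  rw [Pi.smul_apply, smul_eq_mul]
  unfold riem
  rw [Finset.mul_sum]
  refine Finset.sum_congr rfl fun i _ => ?_
  rw [Finset.mul_sum]
  refine Finset.sum_congr rfl fun j _ => ?_
  rw [Finset.mul_sum]
  refine Finset.sum_congr rfl fun k _ => ?_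
  rw [Pi.smul_apply, smul_eq_mul]
  ring

theorem riem_add3 (a b c c' : Fin d → ℝ) : riem G p a b (c + c') = riem G p a b c + riem G p a b c' := by
  funext l
  rw [Pi.add_apply]
  unfold riem
  rw [← Finset.sum_add_distrib]
  refine Finset.sum_congr rfl fun i _ => ?_
  rw [← Finset.sum_add_distrib]
  refine Finset.sum_congr rfl fun j _ => ?_
  rw [← Finset.sum_add_distrib]
  refine Finset.sum_congr rfl fun k _ => ?_
  rw [Pi.add_apply]
  ring

theorem riem_smul3 (t : ℝ) (a b c : Fin d → ℝ) : riem G p a b (t • c) = t • riem G p a b c := by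
  funext l
  rw [Pi.smul_apply, smul_eq_mul]
  unfold riem
  rw [Finset.mul_sum]
  refine Finset.sum_congr rfl fun i _ => ?_
  rw [Finset.mul_sum]
  refine Finset.sum_congr rfl fun j _ => ?_
  rw [Finset.mul_sum]
  refine Finset.sum_congr rfl fun k _ => ?_
  rw [Pi.smul_apply, smul_eq_mul]
  ring

theorem a4_pd_chr (h : MetAt G p) (k c i j : Fin d) :
    H31R.pd k (H31R.chr G c i j) p = H31R.pd k (H31R.chr G c j i) p := by
  unfold H31R.pd
  have he : H31R.chr G c i j =ᶠ[𝓝 p] H31R.chr G c j i := by
    filter_upwards [metAt_ev h] with q hq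
    exact chr_symm hq c i j
  rw [he.fderiv_eq]

/-- The definition of `H31R.ric` with the symmetry of the Christoffel symbols (near `p`, for the derivatives). -/
theorem ric_eq (h : MetAt G p) (i j : Fin d) : H31R.ric G i j p = ∑ k, rm G k i k j p := by
  unfold H31R.ric rm
  refine Finset.sum_congr rfl fun k _ => ?_
  rw [a4_pd_chr h k k i j, a4_pd_chr h j k i k]
  congr 1
  refine Finset.sum_congr rfl fun l _ => ?_
  rw [chr_symm h l i j, chr_symm h l i k]

/-- `Ric c b = ∑ k, (R(e_k, b) c)_k`. -/
theorem Ric_trace (h : MetAt G p) (c b : Fin d → ℝ) : Ric G p c b = ∑ k, riem G p (Pi.single k 1) b c k := by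
  have h1 : ∀ k : Fin d, riem G p (Pi.single k 1) b c k = ∑ j, ∑ i, rm G k i k j p * b j * c i := by
    intro k
    unfold riem
    rw [Finset.sum_eq_single k]
    · refine Finset.sum_congr rfl fun j _ => Finset.sum_congr rfl fun i _ => ?_
      rw [Pi.single_eq_same, mul_one]
    · intro m _ hm
      refine Finset.sum_eq_zero fun j _ => Finset.sum_eq_zero fun i _ => ?_
      rw [Pi.single_eq_of_ne hm]
      ring
    · intro hk
      exact absurd (Finset.mem_univ k) hk
  rw [Finset.sum_congr rfl fun k _ => h1 k]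
  unfold Ric
  rw [Finset.sum_comm]
  rw [Finset.sum_comm (s := Finset.univ) (t := Finset.univ) (f := fun k j => ∑ i, rm G k i k j p * b j * c i)]
  refine Finset.sum_congr rfl fun j _ => ?_
  rw [Finset.sum_comm (s := Finset.univ) (t := Finset.univ) (f := fun k i => rm G k i k j p * b j * c i)]
  refine Finset.sum_congr rfl fun i _ => ?_
  rw [ric_eq h, Finset.sum_mul, Finset.sum_mul]
  refine Finset.sum_congr rfl fun k _ => ?_
  ring

end H17W
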