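import Pool.Agent.Lib.H17W.A3
import Pool.Agent.Lib.H17W.A4

set_option autoImplicit false

/-!
# H17W, chunk A5 (M): the symmetries of the curvature

Auxiliary names start with `a5_`.
-/

open MeasureTheory Filter Topology Set
open scoped ContDiff

namespace H17W

variable {d : ℕ} {G : H31R.EE d → Matrix (Fin d) (Fin d) ℝ} {p : H31R.EE d}

theorem a5_symm {V : Type*} [NormedAddCommGroup V] [NormedSpace ℝ V] {F : V → ℝ} {x : V}
    (hF : ContDiffAt ℝ 2 F x) (u v : V) :
    fderiv ℝ (fun y => fderiv ℝ F y v) x u = fderiv ℝ (fun y => fderiv ℝ F y u) x v := by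
  have h : IsSymmSndFDerivAt ℝ F x := hF.isSymmSndFDerivAt (by simp)
  have hd : DifferentiableAt ℝ (fderiv ℝ F) x :=
    (hF.fderiv_right (m := 1) (by norm_num)).differentiableAt (by norm_num)
  have e : ∀ u v : V, fderiv ℝ (fun y => fderiv ℝ F y v) x u = fderiv ℝ (fderiv ℝ F) x u v := by
    intro u v
    rw [fderiv_clm_apply hd (differentiableAt_const v)]
    simp
  rw [e, e]
  exact h u v

theorem a5_vel (x v : H31R.EE d) : vel (fun y : H31R.EE d => y) x v = v := by
  funext a
  unfold vel
  have h : (fun y : H31R.EE d => y a) = fun y => EuclideanSpace.proj a y := by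
    funext y
    rfl
  rw [h]
  exact congrFun (congrArg DFunLike.coe (ContinuousLinearMap.fderiv (EuclideanSpace.proj (𝕜 := ℝ) a))) v

theorem a5_ip (G : H31R.EE d → Matrix (Fin d) (Fin d) ℝ) (p : H31R.EE d) (Z Y : Fin d → ℝ) :
    ip G p Z Y = ∑ c, Z c * (G p).mulVec Y c := by
  unfold ip
  apply Finset.sum_congr rfl
  intro i _
  rw [Matrix.mulVec, dotProduct, Finset.mul_sum]
  apply Finset.sum_congr rfl
  intro j _
  ring

theorem a5_single (G : H31R.EE d → Matrix (Fin d) (Fin d) ℝ) (p : H31R.EE d) (l : Fin d)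
    (Y : Fin d → ℝ) : ip G p (Pi.single l 1) Y = (G p).mulVec Y l := by
  rw [a5_ip, Finset.sum_eq_single l]
  · simp
  · intro b _ hb
    simp [hb]
  · intro hl
    exact absurd (Finset.mem_univ l) hl

/-- Take `V = ℝ^d`, `Φ = id`, constant fields `c`, `e` (then `vel id p u = u`), and differentiate `ip G y c e` twice with
`ip_cov`: `∂_u ∂_v <c,e> = <D_u D_v c, e> + <D_v c, D_u e> + <D_u c, D_v e> + <c, D_u D_v e>`, symmetric in `u`, `v`. Use `cov_comm`
(directions `u = a`, `v = b` as elements of `ℝ^d`). -/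
theorem riem_skew (h : MetAt G p) (a b c e : Fin d → ℝ) : ip G p (riem G p a b c) e = -ip G p (riem G p a b e) c := by
  obtain ⟨u, hu⟩ : ∃ u : H31R.EE d, (u : Fin d → ℝ) = a := ⟨WithLp.toLp 2 a, rfl⟩
  obtain ⟨v, hv⟩ : ∃ v : H31R.EE d, (v : Fin d → ℝ) = b := ⟨WithLp.toLp 2 b, rfl⟩
  obtain ⟨Φ, hΦ⟩ : ∃ Φ : H31R.EE d → H31R.EE d, Φ = fun y => y := ⟨_, rfl⟩
  have hΦs : ∀ q : H31R.EE d, ContDiffAt ℝ ∞ Φ q := by
    intro q
    rw [hΦ]
    exact contDiffAt_id
  have hvel : ∀ x w : H31R.EE d, vel Φ x w = w := by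
    intro x w
    rw [hΦ]
    exact a5_vel x w
  have hΦp : ∀ q, Φ q = q := fun q => by rw [hΦ]
  have hcs : ∀ c : Fin d → ℝ, ∀ y : H31R.EE d, ∀ a, ContDiffAt ℝ ∞ (fun _ : H31R.EE d => c a) y :=
    fun c y a => contDiffAt_const
  have hG : MetAt G (Φ p) := by rw [hΦp]; exact h
  have hev : ∀ᶠ y in 𝓝 p, MetAt G (Φ y) := by
    rw [hΦ]
    exact metAt_ev h
  have one : (∞ : WithTop ℕ∞) ≠ 0 := by simp
  -- first derivatives of the scalar product of constant fields
  have hfirst : ∀ w : H31R.EE d, (fun y => fderiv ℝ (fun z => ip G (Φ z) c e) y w) =ᶠ[𝓝 p]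
      fun y => ip G (Φ y) (cov G Φ (fun _ => c) y w) e + ip G (Φ y) c (cov G Φ (fun _ => e) y w) := by
    intro w
    filter_upwards [hev] with y hy
    exact ip_cov (A := fun _ => c) (B := fun _ => e) hy ((hΦs y).differentiableAt one)
      (fun a => differentiableAt_const _) (fun a => differentiableAt_const _) w
  have hcov : ∀ (c : Fin d → ℝ) (w : H31R.EE d) (a : Fin d),
      DifferentiableAt ℝ (fun z => cov G Φ (fun _ => c) z w a) p := by
    intro c w a
    have h1 := cov_smooth (A := fun _ => c) hG (Eventually.of_forall hΦs)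
      (Eventually.of_forall fun y => hcs c y) w
    exact (h1.self_of_nhds a).differentiableAt one
  have hsm1 : ∀ (c e : Fin d → ℝ) (w : H31R.EE d),
      DifferentiableAt ℝ (fun y => ip G (Φ y) (cov G Φ (fun _ => c) y w) e) p := by
    intro c e w
    have h1 := ip_smooth (A := fun y => cov G Φ (fun _ => c) y w) (B := fun _ => e) hG
      (Eventually.of_forall hΦs) (cov_smooth (A := fun _ => c) hG (Eventually.of_forall hΦs)
      (Eventually.of_forall fun y => hcs c y) w) (Eventually.of_forall fun y => hcs e y)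
    exact h1.self_of_nhds.differentiableAt one
  have hsm2 : ∀ (c e : Fin d → ℝ) (w : H31R.EE d),
      DifferentiableAt ℝ (fun y => ip G (Φ y) c (cov G Φ (fun _ => e) y w)) p := by
    intro c e w
    have h1 := ip_smooth (A := fun _ => c) (B := fun y => cov G Φ (fun _ => e) y w) hG
      (Eventually.of_forall hΦs) (Eventually.of_forall fun y => hcs c y)
      (cov_smooth (A := fun _ => e) hG (Eventually.of_forall hΦs)
      (Eventually.of_forall fun y => hcs e y) w)
    exact h1.self_of_nhds.differentiableAt one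
  have hsecond : ∀ w w' : H31R.EE d, fderiv ℝ (fun y => fderiv ℝ (fun z => ip G (Φ z) c e) y w) p w' =
      (ip G (Φ p) (cov G Φ (fun y => cov G Φ (fun _ => c) y w) p w') e +
        ip G (Φ p) (cov G Φ (fun _ => c) p w) (cov G Φ (fun _ => e) p w')) +
      (ip G (Φ p) (cov G Φ (fun _ => c) p w') (cov G Φ (fun _ => e) p w) +
        ip G (Φ p) c (cov G Φ (fun y => cov G Φ (fun _ => e) y w) p w')) := by
    intro w w'
    rw [(hfirst w).fderiv_eq, fderiv_fun_add (hsm1 c e w) (hsm2 c e w),
      _root_.add_apply,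
      ip_cov (A := fun y => cov G Φ (fun _ => c) y w) (B := fun _ => e) hG
        ((hΦs p).differentiableAt one) (fun a => hcov c w a) (fun a => differentiableAt_const _) w',
      ip_cov (A := fun _ => c) (B := fun y => cov G Φ (fun _ => e) y w) hG
        ((hΦs p).differentiableAt one) (fun a => differentiableAt_const _) (fun a => hcov e w a) w']
  have hF : ContDiffAt ℝ ∞ (fun z => ip G (Φ z) c e) p := by
    have h1 := ip_smooth (A := fun _ => c) (B := fun _ => e) hG
      (Eventually.of_forall hΦs) (Eventually.of_forall fun y => hcs c y)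
      (Eventually.of_forall fun y => hcs e y)
    exact h1.self_of_nhds
  have hsy := a5_symm (hF.of_le (by norm_cast)) u v
  rw [hsecond, hsecond] at hsy
  have hcc : ∀ c : Fin d → ℝ, cov G Φ (fun y => cov G Φ (fun _ => c) y v) p u -
      cov G Φ (fun y => cov G Φ (fun _ => c) y u) p v = riem G p a b c := by
    intro c
    have h1 := cov_comm (A := fun _ => c) hG (Eventually.of_forall hΦs)
      (Eventually.of_forall fun y => hcs c y) u v
    rw [hvel, hvel, hΦp, hu, hv] at h1
    exact h1
  have e1 : cov G Φ (fun y => cov G Φ (fun _ => c) y v) p u =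
      riem G p a b c + cov G Φ (fun y => cov G Φ (fun _ => c) y u) p v := by
    rw [← hcc c]
    abel
  have e2 : cov G Φ (fun y => cov G Φ (fun _ => e) y v) p u =
      riem G p a b e + cov G Φ (fun y => cov G Φ (fun _ => e) y u) p v := by
    rw [← hcc e]
    abel
  rw [e1, e2, hΦp, ip_add_left, ip_add_right] at hsy
  have e3 := ip_symm h c (riem G p a b e)
  linarith

theorem a5_chr (h : MetAt G p) (m l j k : Fin d) :
    H31R.pd m (H31R.chr G l j k) p = H31R.pd m (H31R.chr G l k j) p := by
  unfold H31R.pd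
  have h1 : H31R.chr G l j k =ᶠ[𝓝 p] H31R.chr G l k j := by
    filter_upwards [metAt_ev h] with y hy
    exact chr_symm hy l j k
  rw [h1.fderiv_eq]

theorem a5_rm (h : MetAt G p) (l k i j : Fin d) :
    rm G l k i j p + rm G l i j k p + rm G l j k i p = 0 := by
  unfold rm
  rw [a5_chr h i l k j, a5_chr h j l k i, a5_chr h k l j i]
  have e1 : ∀ m, H31R.chr G m k i p = H31R.chr G m i k p := fun m => chr_symm h m k i
  have e2 : ∀ m, H31R.chr G m j i p = H31R.chr G m i j p := fun m => chr_symm h m j i
  have e3 : ∀ m, H31R.chr G m k j p = H31R.chr G m j k p := fun m => chr_symm h m k j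
  simp only [e1, e2, e3]
  have e4 : ∑ m, (H31R.chr G l i m p * H31R.chr G m j k p - H31R.chr G l j m p * H31R.chr G m i k p) +
      ∑ m, (H31R.chr G l j m p * H31R.chr G m i k p - H31R.chr G l k m p * H31R.chr G m i j p) +
      ∑ m, (H31R.chr G l k m p * H31R.chr G m i j p - H31R.chr G l i m p * H31R.chr G m j k p) = 0 := by
    rw [← Finset.sum_add_distrib, ← Finset.sum_add_distrib]
    apply Finset.sum_eq_zero
    intro m _
    ring
  linarith

/-- In the sum over the cyclic permutations of `rm l k i j` all terms cancel by `chr_symm` (which holds near `p`, so also for the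
derivatives). -/
theorem bianchi (h : MetAt G p) (a b c : Fin d → ℝ) : riem G p a b c + riem G p b c a + riem G p c a b = 0 := by
  funext l
  simp only [Pi.add_apply, Pi.zero_apply]
  have e1 : riem G p b c a l = ∑ i, ∑ j, ∑ k, rm G l i j k p * a i * b j * c k := by
    unfold riem
    calc ∑ i, ∑ j, ∑ k, rm G l k i j p * b i * c j * a k
        = ∑ i, ∑ k, ∑ j, rm G l k i j p * b i * c j * a k :=
          Finset.sum_congr rfl (fun i _ => Finset.sum_comm)
      _ = ∑ k, ∑ i, ∑ j, rm G l k i j p * b i * c j * a k := Finset.sum_comm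
      _ = ∑ i, ∑ j, ∑ k, rm G l i j k p * a i * b j * c k := by
          refine Finset.sum_congr rfl fun i _ => Finset.sum_congr rfl fun j _ =>
            Finset.sum_congr rfl fun k _ => ?_
          ring
  have e2 : riem G p c a b l = ∑ i, ∑ j, ∑ k, rm G l j k i p * a i * b j * c k := by
    unfold riem
    calc ∑ i, ∑ j, ∑ k, rm G l k i j p * c i * a j * b k
        = ∑ j, ∑ i, ∑ k, rm G l k i j p * c i * a j * b k := Finset.sum_comm
      _ = ∑ j, ∑ k, ∑ i, rm G l k i j p * c i * a j * b k :=
          Finset.sum_congr rfl (fun i _ => Finset.sum_comm)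
      _ = ∑ i, ∑ j, ∑ k, rm G l j k i p * a i * b j * c k := by
          refine Finset.sum_congr rfl fun i _ => Finset.sum_congr rfl fun j _ =>
            Finset.sum_congr rfl fun k _ => ?_
          ring
  have e0 : riem G p a b c l = ∑ i, ∑ j, ∑ k, rm G l k i j p * a i * b j * c k := rfl
  rw [e0, e1, e2, ← Finset.sum_add_distrib, ← Finset.sum_add_distrib]
  apply Finset.sum_eq_zero
  intro i _
  rw [← Finset.sum_add_distrib, ← Finset.sum_add_distrib]
  apply Finset.sum_eq_zero
  intro j _
  rw [← Finset.sum_add_distrib, ← Finset.sum_add_distrib]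
  apply Finset.sum_eq_zero
  intro k _
  have e3 := a5_rm h l k i j
  calc rm G l k i j p * a i * b j * c k + rm G l i j k p * a i * b j * c k +
      rm G l j k i p * a i * b j * c k =
      (rm G l k i j p + rm G l i j k p + rm G l j k i p) * (a i * b j * c k) := by ring
    _ = 0 := by rw [e3, zero_mul]

/-- Pair symmetry: the standard consequence of `riem_anti`, `riem_skew` and `bianchi` (add the four Bianchi identities obtained by
omitting one of the vectors and pairing with it; `linarith`). -/
theorem riem_pair (h : MetAt G p) (a b c e : Fin d → ℝ) : ip G p (riem G p a b c) e = ip G p (riem G p c e a) b := by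
  have bi : ∀ a b c e : Fin d → ℝ, ip G p (riem G p a b c) e + ip G p (riem G p b c a) e +
      ip G p (riem G p c a b) e = 0 := by
    intro a b c e
    rw [← ip_add_left, ← ip_add_left, bianchi h]
    unfold ip
    simp
  have an : ∀ a b c e : Fin d → ℝ, ip G p (riem G p a b c) e = -ip G p (riem G p b a c) e := by
    intro a b c e
    rw [riem_anti (G := G) (p := p) a b c]
    have h1 := ip_smul_left (G := G) (p := p) (-1) (riem G p b a c) e
    rw [neg_one_smul] at h1
    rw [h1]
    ring
  have sk := fun a b c e : Fin d → ℝ => riem_skew h a b c e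
  have b1 := bi a b c e
  have b2 := bi b c e a
  have b3 := bi c e a b
  have b4 := bi e a b c
  have s1 := sk b c e a
  have s2 := sk c e b a
  have s3 := sk e a c b
  have s4 := sk a b e c
  have s5 := sk a c e b
  have s6 := an a c b e
  have s7 := sk b e a c
  have s8 := an b e c a
  linarith

/-- `Ric c b = trace (a ↦ R(a,b)c)`; the trace is `∑ (G⁻¹)_kl <R(e_k,b)c, e_l>`, and `<R(e_k,b)c,e_l> = <R(c,e_l)e_k,b>
= <R(e_l,c)b,e_k>`. -/
theorem Ric_symm (h : MetAt G p) (a b : Fin d → ℝ) : Ric G p a b = Ric G p b a := by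
  have an : ∀ a b c e : Fin d → ℝ, ip G p (riem G p a b c) e = -ip G p (riem G p b a c) e := by
    intro a b c e
    rw [riem_anti (G := G) (p := p) a b c]
    have h1 := ip_smul_left (G := G) (p := p) (-1) (riem G p b a c) e
    rw [neg_one_smul] at h1
    rw [h1]
    ring
  have key : ∀ c b : Fin d → ℝ, Ric G p c b = ∑ k, ∑ l, (G p)⁻¹ k l *
      ip G p (riem G p (Pi.single k 1) b c) (Pi.single l 1) := by
    intro c b
    rw [Ric_trace h]
    apply Finset.sum_congr rfl
    intro k _
    have h1 : (G p)⁻¹.mulVec ((G p).mulVec (riem G p (Pi.single k 1) b c)) =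
        riem G p (Pi.single k 1) b c := by
      rw [Matrix.mulVec_mulVec, Matrix.nonsing_inv_mul _ (isUnit_iff_ne_zero.mpr h.nondeg),
        Matrix.one_mulVec]
    rw [← congrFun h1 k, Matrix.mulVec, dotProduct]
    apply Finset.sum_congr rfl
    intro l _
    rw [ip_symm h _ (Pi.single l 1), a5_single]
  rw [key a b, key b a, Finset.sum_comm]
  apply Finset.sum_congr rfl
  intro k _
  apply Finset.sum_congr rfl
  intro l _
  rw [inv_symm h l k, riem_pair h (Pi.single l 1) b a (Pi.single k 1),
    an a (Pi.single k 1) (Pi.single l 1) b, riem_skew h (Pi.single k 1) a (Pi.single l 1) b,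
    neg_neg]

end H17W
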