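import Pool.Agent.Lib.H17W.A4

set_option autoImplicit false

/-!
# H17W, chunk A6 (M): null frames, linear algebra

Auxiliary names start with `a6_`.
-/

open MeasureTheory Filter Topology Set
open scoped ContDiff

namespace H17W

/-- `G⁻¹ = Q^ij X_i X_j + (L k + k L) / 2`. -/
def NFrame (G : Matrix (Fin 4) (Fin 4) ℝ) (X : Fin 3 → Fin 4 → ℝ) (Q : Fin 3 → Fin 3 → ℝ) (L k : Fin 4 → ℝ) : Prop :=
  ∀ a c, G⁻¹ a c = ∑ i, ∑ j, Q i j * X i a * X j c + (L a * k c + k a * L c) / 2

variable {G : H31R.EE 4 → Matrix (Fin 4) (Fin 4) ℝ} {p : H31R.EE 4} {X : Fin 3 → Fin 4 → ℝ} {Q : Fin 3 → Fin 3 → ℝ} {L k : Fin 4 → ℝ}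

theorem a6_ip (G : H31R.EE 4 → Matrix (Fin 4) (Fin 4) ℝ) (p : H31R.EE 4) (Z Y : Fin 4 → ℝ) :
    ip G p Z Y = ∑ c, Z c * (G p).mulVec Y c := by
  unfold ip
  apply Finset.sum_congr rfl
  intro i _
  rw [Matrix.mulVec, dotProduct, Finset.mul_sum]
  apply Finset.sum_congr rfl
  intro j _
  ring

theorem a6_raise (h : MetAt G p) (Y : Fin 4 → ℝ) (a : Fin 4) :
    Y a = ∑ c, (G p)⁻¹ a c * (G p).mulVec Y c := by
  have h1 : (G p)⁻¹.mulVec ((G p).mulVec Y) = Y := by
    rw [Matrix.mulVec_mulVec, Matrix.nonsing_inv_mul _ (isUnit_iff_ne_zero.mpr h.nondeg),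
      Matrix.one_mulVec]
  exact (congrFun h1 a).symm

/-- sums over four indices -/
theorem a6_swap {A B : Type} [Fintype A] [Fintype B] (f : A → A → B → B → ℝ) :
    ∑ a, ∑ c, ∑ i, ∑ j, f a c i j = ∑ i, ∑ j, ∑ a, ∑ c, f a c i j := by
  calc ∑ a, ∑ c, ∑ i, ∑ j, f a c i j = ∑ a, ∑ i, ∑ c, ∑ j, f a c i j :=
        Finset.sum_congr rfl (fun a _ => Finset.sum_comm)
    _ = ∑ i, ∑ a, ∑ c, ∑ j, f a c i j := Finset.sum_comm
    _ = ∑ i, ∑ a, ∑ j, ∑ c, f a c i j :=
        Finset.sum_congr rfl (fun i _ => Finset.sum_congr rfl (fun a _ => Finset.sum_comm))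
    _ = ∑ i, ∑ j, ∑ a, ∑ c, f a c i j := Finset.sum_congr rfl (fun i _ => Finset.sum_comm)

theorem a6_bil {M : Matrix (Fin 4) (Fin 4) ℝ} (hF : NFrame M X Q L k) (B : Fin 4 → Fin 4 → ℝ) :
    ∑ a, ∑ c, M⁻¹ a c * B a c = ∑ i, ∑ j, Q i j * (∑ a, ∑ c, X i a * X j c * B a c) +
      ((∑ a, ∑ c, L a * k c * B a c) + ∑ a, ∑ c, k a * L c * B a c) / 2 := by
  have h1 : ∀ a c, M⁻¹ a c * B a c = (∑ i, ∑ j, Q i j * (X i a * X j c * B a c)) +
      (L a * k c * B a c + k a * L c * B a c) / 2 := by
    intro a c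
    rw [hF a c, add_mul]
    congr 1
    · rw [Finset.sum_mul]
      apply Finset.sum_congr rfl
      intro i _
      rw [Finset.sum_mul]
      apply Finset.sum_congr rfl
      intro j _
      ring
    · ring
  simp only [h1]
  rw [Finset.sum_congr rfl (fun a _ => Finset.sum_add_distrib), Finset.sum_add_distrib, a6_swap]
  congr 1
  · apply Finset.sum_congr rfl
    intro i _
    apply Finset.sum_congr rfl
    intro j _
    rw [Finset.mul_sum]
    apply Finset.sum_congr rfl
    intro a _
    rw [Finset.mul_sum]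
  · rw [← Finset.sum_add_distrib, Finset.sum_div]
    apply Finset.sum_congr rfl
    intro a _
    rw [← Finset.sum_add_distrib, Finset.sum_div]

/-- the candidate for the inverse matrix -/
noncomputable def a6_N (X : Fin 3 → Fin 4 → ℝ) (Q : Fin 3 → Fin 3 → ℝ) (L k : Fin 4 → ℝ) :
    Matrix (Fin 4) (Fin 4) ℝ :=
  fun a c => ∑ i, ∑ j, Q i j * X i a * X j c + (L a * k c + k a * L c) / 2

theorem a6_Nvec (G : H31R.EE 4 → Matrix (Fin 4) (Fin 4) ℝ) (p : H31R.EE 4)
    (X : Fin 3 → Fin 4 → ℝ) (Q : Fin 3 → Fin 3 → ℝ) (L k : Fin 4 → ℝ) (Y : Fin 4 → ℝ)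
    (a : Fin 4) : (a6_N X Q L k).mulVec ((G p).mulVec Y) a =
      (∑ i, (∑ j, Q i j * ip G p (X j) Y) * X i a) + (L a * ip G p k Y + k a * ip G p L Y) / 2 := by
  rw [Matrix.mulVec, dotProduct]
  have h1 : ∀ c, a6_N X Q L k a c * (G p).mulVec Y c =
      (∑ i, ∑ j, Q i j * X i a * (X j c * (G p).mulVec Y c)) +
        (L a * (k c * (G p).mulVec Y c) + k a * (L c * (G p).mulVec Y c)) / 2 := by
    intro c
    unfold a6_N
    rw [add_mul]
    congr 1
    · rw [Finset.sum_mul]
      apply Finset.sum_congr rfl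
      intro i _
      rw [Finset.sum_mul]
      apply Finset.sum_congr rfl
      intro j _
      ring
    · ring
  simp only [h1]
  rw [Finset.sum_add_distrib]
  congr 1
  · rw [Finset.sum_comm]
    apply Finset.sum_congr rfl
    intro i _
    rw [Finset.sum_comm, Finset.sum_mul]
    apply Finset.sum_congr rfl
    intro j _
    rw [a6_ip, ← Finset.mul_sum]
    ring
  · rw [a6_ip, a6_ip, ← Finset.sum_div, Finset.sum_add_distrib, ← Finset.mul_sum,
      ← Finset.mul_sum]

/-- the map `(v, c, d) ↦ ∑ v_i X_i + c L + d k` -/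
noncomputable def a6_T (X : Fin 3 → Fin 4 → ℝ) (L k : Fin 4 → ℝ) :
    ((Fin 3 → ℝ) × ℝ × ℝ) →ₗ[ℝ] (Fin 4 → ℝ) where
  toFun w := (∑ i, w.1 i • X i) + w.2.1 • L + w.2.2 • k
  map_add' w w' := by
    simp only [Prod.fst_add, Prod.snd_add, Pi.add_apply, add_smul, Finset.sum_add_distrib]
    abel
  map_smul' t w := by
    simp only [Prod.smul_fst, Prod.smul_snd, Pi.smul_apply, smul_eq_mul, mul_smul,
      RingHom.id_apply, smul_add, Finset.smul_sum]

theorem a6_ip_T (h : MetAt G p) (w : (Fin 3 → ℝ) × ℝ × ℝ) (Y : Fin 4 → ℝ) :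
    ip G p (a6_T X L k w) Y = (∑ i, w.1 i * ip G p (X i) Y) + w.2.1 * ip G p L Y +
      w.2.2 * ip G p k Y := by
  have h1 : a6_T X L k w = (∑ i, w.1 i • X i) + w.2.1 • L + w.2.2 • k := rfl
  have h2 : ∀ s : Finset (Fin 3), ip G p (∑ i ∈ s, w.1 i • X i) Y =
      ∑ i ∈ s, w.1 i * ip G p (X i) Y := by
    classical
    intro s
    induction s using Finset.induction_on with
    | empty =>
      rw [Finset.sum_empty, Finset.sum_empty]
      unfold ip
      simp
    | insert a s ha ih =>
      rw [Finset.sum_insert ha, Finset.sum_insert ha, ip_add_left, ip_smul_left, ih]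
  rw [h1, ip_add_left, ip_add_left, ip_smul_left, ip_smul_left, h2]

/-- `N M = 1`, where `N` is the right hand side of `NFrame` and `M = G p`: it is enough to check `N M Y = Y` for `Y = X_l`, `L`, `k`
(direct from the hypotheses), and these vectors span: the linear map `(v, c, d) ↦ ∑ v_i X_i + c L + d k` from `ℝ³ × ℝ × ℝ` to `ℝ⁴`
has kernel contained in `{(t x, 0, 0)}` (pair with `L`, `k`, then with `X_k` and multiply by `Q`), so its rank is `4`. -/
theorem nframe_of (h : MetAt G p) (x : Fin 3 → ℝ) (hx : ∑ i, x i ^ 2 ≠ 0) (hX : ∀ a, ∑ i, x i * X i a = 0)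
    (hQ : ∀ i j, Q i j = Q j i) (hQx : ∀ i, ∑ j, Q i j * x j = 0)
    (hhQ : ∀ i j, ∑ l, ip G p (X i) (X l) * Q l j = (if i = j then 1 else 0) - x i * x j / ∑ m, x m ^ 2)
    (hLL : ip G p L L = 0) (hkk : ip G p k k = 0) (hLk : ip G p L k = 2) (hLX : ∀ i, ip G p L (X i) = 0)
    (hkX : ∀ i, ip G p k (X i) = 0) : NFrame (G p) X Q L k := by
  have hkL : ip G p k L = 2 := by rw [ip_symm h, hLk]
  have hXL : ∀ i, ip G p (X i) L = 0 := fun i => by rw [ip_symm h, hLX i]
  have hXk : ∀ i, ip G p (X i) k = 0 := fun i => by rw [ip_symm h, hkX i]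
  have hker : LinearMap.ker (a6_T X L k) ≤ Submodule.span ℝ {((x, 0, 0) : (Fin 3 → ℝ) × ℝ × ℝ)} := by
    intro w hw
    rw [LinearMap.mem_ker] at hw
    have e1 := a6_ip_T (X := X) (L := L) (k := k) h w L
    have e2 := a6_ip_T (X := X) (L := L) (k := k) h w k
    have z : ∀ Y, ip G p (0 : Fin 4 → ℝ) Y = 0 := by
      intro Y
      unfold ip
      simp
    rw [hw, z] at e1 e2
    simp only [hXL, hXk, hLL, hkk, hLk, hkL, mul_zero, Finset.sum_const_zero, zero_add,
      add_zero] at e1 e2
    have w1 : w.2.1 = 0 := by linarith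
    have w2 : w.2.2 = 0 := by linarith
    have e3 : ∀ j, ∑ i, w.1 i * ip G p (X i) (X j) = 0 := by
      intro j
      have e4 := a6_ip_T (X := X) (L := L) (k := k) h w (X j)
      rw [hw, z, w1, w2] at e4
      linarith
    have e5 : ∀ j, w.1 j = ((∑ i, w.1 i * x i) / ∑ m, x m ^ 2) * x j := by
      intro j
      have e6 : ∑ l, (∑ i, w.1 i * ip G p (X i) (X l)) * Q l j = 0 := by
        apply Finset.sum_eq_zero
        intro l _
        rw [e3 l, zero_mul]
      have e7 : ∑ l, (∑ i, w.1 i * ip G p (X i) (X l)) * Q l j =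
          ∑ i, w.1 i * ((if i = j then 1 else 0) - x i * x j / ∑ m, x m ^ 2) := by
        calc ∑ l, (∑ i, w.1 i * ip G p (X i) (X l)) * Q l j =
            ∑ l, ∑ i, w.1 i * (ip G p (X i) (X l) * Q l j) := by
              apply Finset.sum_congr rfl
              intro l _
              rw [Finset.sum_mul]
              apply Finset.sum_congr rfl
              intro i _
              ring
          _ = ∑ i, ∑ l, w.1 i * (ip G p (X i) (X l) * Q l j) := Finset.sum_comm
          _ = ∑ i, w.1 i * ((if i = j then 1 else 0) - x i * x j / ∑ m, x m ^ 2) := by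
              apply Finset.sum_congr rfl
              intro i _
              rw [← Finset.mul_sum, hhQ i j]
      rw [e7] at e6
      simp only [mul_sub, Finset.sum_sub_distrib, mul_ite, mul_one, mul_zero,
        Finset.sum_ite_eq', Finset.mem_univ, if_true] at e6
      have e8 : ∑ i, w.1 i * (x i * x j / ∑ m, x m ^ 2) =
          ((∑ i, w.1 i * x i) / ∑ m, x m ^ 2) * x j := by
        rw [Finset.sum_div, Finset.sum_mul]
        apply Finset.sum_congr rfl
        intro i _
        ring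
      rw [e8] at e6
      linarith
    rw [Submodule.mem_span_singleton]
    refine ⟨(∑ i, w.1 i * x i) / ∑ m, x m ^ 2, ?_⟩
    ext j
    · simp only [Prod.smul_mk, Pi.smul_apply, smul_eq_mul]
      exact (e5 j).symm
    · simp [w1]
    · simp [w2]
  have hfr : Module.finrank ℝ ((Fin 3 → ℝ) × ℝ × ℝ) = 5 := by
    simp [Module.finrank_prod]
  have hk1 : Module.finrank ℝ (LinearMap.ker (a6_T X L k)) ≤ 1 := by
    refine le_trans (Submodule.finrank_mono hker) ?_
    exact le_trans (finrank_span_le_card _) (by simp)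
  have hr := LinearMap.finrank_range_add_finrank_ker (a6_T X L k)
  rw [hfr] at hr
  have htop : LinearMap.range (a6_T X L k) = ⊤ := by
    apply Submodule.eq_top_of_finrank_eq
    have h4 : Module.finrank ℝ (Fin 4 → ℝ) = 4 := by simp
    have h5 := Submodule.finrank_le (LinearMap.range (a6_T X L k))
    rw [h4] at h5 ⊢
    omega
  have hX1 : ∀ l a, (a6_N X Q L k).mulVec ((G p).mulVec (X l)) a = X l a := by
    intro l a
    rw [a6_Nvec, hkX, hLX]
    have e1 : ∀ i, ∑ j, Q i j * ip G p (X j) (X l) =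
        (if l = i then 1 else 0) - x l * x i / ∑ m, x m ^ 2 := by
      intro i
      rw [← hhQ l i]
      apply Finset.sum_congr rfl
      intro j _
      rw [hQ i j, ip_symm h (X j) (X l)]
      ring
    simp only [e1, sub_mul, Finset.sum_sub_distrib, ite_mul, one_mul, zero_mul,
      Finset.sum_ite_eq, Finset.mem_univ, if_true]
    have e2 : ∑ i, x l * x i / (∑ m, x m ^ 2) * X i a = 0 := by
      calc ∑ i, x l * x i / (∑ m, x m ^ 2) * X i a =
          ∑ i, x l / (∑ m, x m ^ 2) * (x i * X i a) := by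
            apply Finset.sum_congr rfl
            intro i _
            ring
        _ = 0 := by rw [← Finset.mul_sum, hX a, mul_zero]
    rw [e2]
    ring
  have hL1 : ∀ a, (a6_N X Q L k).mulVec ((G p).mulVec L) a = L a := by
    intro a
    rw [a6_Nvec, hkL, hLL]
    simp only [hXL, mul_zero, Finset.sum_const_zero, zero_mul]
    ring
  have hk2 : ∀ a, (a6_N X Q L k).mulVec ((G p).mulVec k) a = k a := by
    intro a
    rw [a6_Nvec, hkk, hLk]
    simp only [hXk, mul_zero, Finset.sum_const_zero, zero_mul]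
    ring
  have hone : a6_N X Q L k * G p = 1 := by
    have hall : ∀ Y : Fin 4 → ℝ, (a6_N X Q L k * G p).mulVec Y = Y := by
      intro Y
      have hY : Y ∈ LinearMap.range (a6_T X L k) := by
        rw [htop]
        exact Submodule.mem_top
      obtain ⟨w, rfl⟩ := hY
      have h1 : a6_T X L k w = (∑ i, w.1 i • X i) + w.2.1 • L + w.2.2 • k := rfl
      rw [h1, Matrix.mulVec_add, Matrix.mulVec_add, Matrix.mulVec_smul, Matrix.mulVec_smul,
        Matrix.mulVec_sum]
      congr 1
      · congr 1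
        · apply Finset.sum_congr rfl
          intro i _
          rw [Matrix.mulVec_smul, ← Matrix.mulVec_mulVec]
          congr 1
          funext a
          exact hX1 i a
        · rw [← Matrix.mulVec_mulVec]
          congr 1
          funext a
          exact hL1 a
      · rw [← Matrix.mulVec_mulVec]
        congr 1
        funext a
        exact hk2 a
    apply Matrix.ext_of_mulVec_single
    intro i
    rw [hall, Matrix.one_mulVec]
  have hinv : (G p)⁻¹ = a6_N X Q L k := Matrix.inv_eq_left_inv hone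
  intro a c
  rw [hinv]
  rfl

/-- Multiply `NFrame` by `G p`. -/
theorem expand (h : MetAt G p) (hF : NFrame (G p) X Q L k) (Y : Fin 4 → ℝ) :
    Y = (∑ i, (∑ j, Q i j * ip G p Y (X j)) • X i) + (ip G p Y k / 2) • L + (ip G p Y L / 2) • k := by
  have hinv : (G p)⁻¹ = a6_N X Q L k := by
    ext a c
    rw [hF a c]
    rfl
  funext a
  have h1 : (G p)⁻¹.mulVec ((G p).mulVec Y) = Y := by
    rw [Matrix.mulVec_mulVec, Matrix.nonsing_inv_mul _ (isUnit_iff_ne_zero.mpr h.nondeg),
      Matrix.one_mulVec]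
  have h2 := congrFun h1 a
  rw [hinv, a6_Nvec] at h2
  rw [← h2]
  simp only [Pi.add_apply, Pi.smul_apply, Finset.sum_apply, smul_eq_mul]
  rw [ip_symm h Y k, ip_symm h Y L]
  have e : ∀ j, ip G p Y (X j) = ip G p (X j) Y := fun j => ip_symm h _ _
  simp only [e]
  ring

/-- Scalar products in terms of the components. -/
theorem ip_expand (h : MetAt G p) (hF : NFrame (G p) X Q L k) (Y Z : Fin 4 → ℝ) :
    ip G p Y Z = ∑ i, ∑ j, Q i j * ip G p Y (X i) * ip G p Z (X j) + (ip G p Y k * ip G p Z L + ip G p Y L * ip G p Z k) / 2 := by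
  have h1 : ip G p Y Z = ∑ a, ∑ c, (G p)⁻¹ a c * ((G p).mulVec Y a * (G p).mulVec Z c) := by
    rw [ip_symm h, a6_ip]
    calc ∑ c, Z c * (G p).mulVec Y c =
        ∑ a, (∑ c, (G p)⁻¹ a c * (G p).mulVec Z c) * (G p).mulVec Y a :=
          Finset.sum_congr rfl (fun a _ => by rw [← a6_raise h Z a])
      _ = ∑ a, ∑ c, (G p)⁻¹ a c * ((G p).mulVec Y a * (G p).mulVec Z c) := by
          apply Finset.sum_congr rfl
          intro a _
          rw [Finset.sum_mul]
          apply Finset.sum_congr rfl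
          intro c _
          ring
  have h2 : ∀ U W : Fin 4 → ℝ, ∑ a, ∑ c, U a * W c * ((G p).mulVec Y a * (G p).mulVec Z c) =
      ip G p Y U * ip G p Z W := by
    intro U W
    rw [ip_symm h Y U, ip_symm h Z W, a6_ip, a6_ip, Finset.sum_mul_sum]
    apply Finset.sum_congr rfl
    intro a _
    apply Finset.sum_congr rfl
    intro c _
    ring
  rw [h1, a6_bil hF]
  simp only [h2]
  congr 1
  · apply Finset.sum_congr rfl
    intro i _
    apply Finset.sum_congr rfl
    intro j _
    ring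
  · ring

/-- `Ric_trace`, and `∑_a A_aa = ∑_ac (G⁻¹)_ac (G A)_ca` for the matrix `A_ab = (R(e_b, b') c)_a`. -/
theorem Ric_frame (h : MetAt G p) (hF : NFrame (G p) X Q L k) (c b : Fin 4 → ℝ) :
    Ric G p c b = ∑ i, ∑ j, Q i j * ip G p (riem G p (X i) b c) (X j) + ip G p (riem G p L b c) k / 2 +
      ip G p (riem G p k b c) L / 2 := by
  have h1 : Ric G p c b = ∑ a, ∑ e, (G p)⁻¹ a e *
      (G p).mulVec (riem G p (Pi.single a 1) b c) e := by
    rw [Ric_trace h]
    exact Finset.sum_congr rfl (fun a _ => a6_raise h _ a)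
  have h2 : ∀ U W : Fin 4 → ℝ, ∑ a, ∑ e, U a * W e *
      (G p).mulVec (riem G p (Pi.single a 1) b c) e = ip G p (riem G p U b c) W := by
    intro U W
    have h3 : ∀ a, ∑ e, U a * W e * (G p).mulVec (riem G p (Pi.single a 1) b c) e =
        U a * ip G p (riem G p (Pi.single a 1) b c) W := by
      intro a
      rw [ip_symm h _ W, a6_ip, Finset.mul_sum]
      apply Finset.sum_congr rfl
      intro e _
      ring
    simp only [h3]
    have h4 : ∀ s : Finset (Fin 4), ip G p (riem G p (∑ a ∈ s, U a • Pi.single a (1 : ℝ)) b c) W =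
        ∑ a ∈ s, U a * ip G p (riem G p (Pi.single a 1) b c) W := by
      classical
      intro s
      induction s using Finset.induction_on with
      | empty =>
        rw [Finset.sum_empty, Finset.sum_empty]
        have h5 := riem_smul1 (G := G) (p := p) 0 (0 : Fin 4 → ℝ) b c
        rw [zero_smul, zero_smul] at h5
        rw [h5]
        unfold ip
        simp
      | insert a s ha ih =>
        rw [Finset.sum_insert ha, Finset.sum_insert ha, riem_add1, riem_smul1, ip_add_left,
          ip_smul_left, ih]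
    rw [← h4]
    congr 1
    congr 1
    funext e
    simp [Finset.sum_apply, Pi.single_apply]
  rw [h1, a6_bil hF]
  simp only [h2]
  ring

/-- Contract `NFrame` with `H31R.ric`. -/
theorem scal_frame (h : MetAt G p) (hF : NFrame (G p) X Q L k) :
    scal G p = ∑ i, ∑ j, Q i j * Ric G p (X i) (X j) + (Ric G p L k + Ric G p k L) / 2 := by
  have h2 : ∀ U W : Fin 4 → ℝ, ∑ a, ∑ e, U a * W e * H31R.ric G a e p = Ric G p U W := by
    intro U W
    unfold Ric
    apply Finset.sum_congr rfl
    intro a _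
    apply Finset.sum_congr rfl
    intro e _
    ring
  unfold scal
  rw [a6_bil hF]
  simp only [h2]

end H17W
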