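import Pool.Agent.Lib.H17W.A0

set_option autoImplicit false

/-!
# H17W, module B: the geometry of the null hypersurface, definitions

All fields are functions of `(s, x)`, `x ≠ 0`, and homogeneous in `x` (the map `Ψ` is extended by `Ψ(s, x/|x|)`). For fixed `s`,
`PP` is a Riemannian metric on `ℝ³ \ {0}`: the metric of the cylinder `ℝ × S2`, the surface `S2` with the induced metric; `x` is a
parallel vector field of it.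
-/

open MeasureTheory Filter Topology Set
open scoped ContDiff

namespace H17W

open H17T (E4 pt pos)
open Pool.Agent.Lib.PenroseSph (E3 S2 sm)

/-- The homogeneous extension of `Ψ`. -/
noncomputable def Ph (Ψ : ℝ × E3 → E4) (p : ℝ × E3) : E4 := Ψ (p.1, ‖p.2‖⁻¹ • p.2)

/-- The direction `∂_s`. -/
noncomputable def dS : ℝ × E3 := (1, 0)

/-- The direction `∂_i`. -/
noncomputable def dX (i : Fin 3) : ℝ × E3 := (0, EuclideanSpace.single i (1 : ℝ))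

variable (G : E4 → Matrix (Fin 4) (Fin 4) ℝ) (Ψ : ℝ × E3 → E4)

/-- `L = ∂_s Φ`. -/
noncomputable def LL (p : ℝ × E3) : Fin 4 → ℝ := vel (Ph Ψ) p dS

/-- `X_i = ∂_i Φ`. -/
noncomputable def XX (i : Fin 3) (p : ℝ × E3) : Fin 4 → ℝ := vel (Ph Ψ) p (dX i)

/-- Scalar product of two vector fields along `Φ`. -/
noncomputable def ipp (A B : ℝ × E3 → Fin 4 → ℝ) (p : ℝ × E3) : ℝ := ip G (Ph Ψ p) (A p) (B p)

/-- `<X_i, X_j>`. -/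
noncomputable def hh (i j : Fin 3) (p : ℝ × E3) : ℝ := ipp G Ψ (XX Ψ i) (XX Ψ j) p

/-- The cylinder metric. -/
noncomputable def PP (p : ℝ × E3) : Matrix (Fin 3) (Fin 3) ℝ :=
  Matrix.of fun i j => hh G Ψ i j p + p.2 i * p.2 j / ‖p.2‖ ^ 4

/-- The inverse of `<X_i, X_j>` on the tangent planes. -/
noncomputable def QQ (i j : Fin 3) (p : ℝ × E3) : ℝ := (PP G Ψ p)⁻¹ i j - p.2 i * p.2 j

/-- The gradient of the time function. -/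
noncomputable def ZZ (p : ℝ × E3) : Fin 4 → ℝ := fun a => (G (Ph Ψ p))⁻¹ a 0

/-- Its component orthogonal to the surface. -/
noncomputable def Zp (p : ℝ × E3) : Fin 4 → ℝ :=
  fun a => ZZ G Ψ p a - ∑ i, ∑ j, QQ G Ψ i j p * XX Ψ j p 0 * XX Ψ i p a

/-- The null normal `k`, `<L, k> = 2`. -/
noncomputable def kk (p : ℝ × E3) : Fin 4 → ℝ :=
  fun a => 2 / LL Ψ p 0 * (Zp G Ψ p a - ipp G Ψ (Zp G Ψ) (Zp G Ψ) p / (2 * LL Ψ p 0) * LL Ψ p a)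

/-- `χ_ij = <D_i L, X_j>`. -/
noncomputable def chi (i j : Fin 3) (p : ℝ × E3) : ℝ :=
  ip G (Ph Ψ p) (cov G (Ph Ψ) (LL Ψ) p (dX i)) (XX Ψ j p)

/-- `κ_ij = <D_i k, X_j>`. -/
noncomputable def kap (i j : Fin 3) (p : ℝ × E3) : ℝ :=
  ip G (Ph Ψ p) (cov G (Ph Ψ) (kk G Ψ) p (dX i)) (XX Ψ j p)

/-- `ζ_i = <D_i L, k> / 2`. -/
noncomputable def zet (i : Fin 3) (p : ℝ × E3) : ℝ :=
  ip G (Ph Ψ p) (cov G (Ph Ψ) (LL Ψ) p (dX i)) (kk G Ψ p) / 2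

/-- The expansion in the direction `L`. -/
noncomputable def exl (p : ℝ × E3) : ℝ := ∑ i, ∑ j, QQ G Ψ i j p * chi G Ψ i j p

/-- The expansion in the direction `k`. -/
noncomputable def tht (p : ℝ × E3) : ℝ := ∑ i, ∑ j, QQ G Ψ i j p * kap G Ψ i j p

/-- `Ric(L, L)`. -/
noncomputable def ee (p : ℝ × E3) : ℝ := Ric G (Ph Ψ p) (LL Ψ p) (LL Ψ p)

/-- `Ric(L, X_j)`. -/
noncomputable def jj (j : Fin 3) (p : ℝ × E3) : ℝ := Ric G (Ph Ψ p) (LL Ψ p) (XX Ψ j p)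

/-- The trace of `Ric` over the surface, `- G(L, k)`. -/
noncomputable def rr (p : ℝ × E3) : ℝ := ∑ i, ∑ j, QQ G Ψ i j p * Ric G (Ph Ψ p) (XX Ψ i p) (XX Ψ j p)

/-- The Christoffel symbols of the cylinder metric. -/
noncomputable def cc (k i j : Fin 3) (p : ℝ × E3) : ℝ := H31R.chr (fun x => PP G Ψ (p.1, x)) k i j p.2

/-- `div χ`. -/
noncomputable def dchi (j : Fin 3) (p : ℝ × E3) : ℝ :=
  ∑ i, ∑ l, QQ G Ψ i l p * (fderiv ℝ (chi G Ψ l j) p (dX i) - ∑ m, cc G Ψ m i l p * chi G Ψ m j p -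
    ∑ m, cc G Ψ m i j p * chi G Ψ l m p)

/-- `div ζ`. -/
noncomputable def dzet (p : ℝ × E3) : ℝ :=
  ∑ i, ∑ j, QQ G Ψ i j p * (fderiv ℝ (zet G Ψ j) p (dX i) - ∑ m, cc G Ψ m i j p * zet G Ψ m p)

/-- Area density. -/
noncomputable def dA (p : ℝ × E3) : ℝ := Real.sqrt (PP G Ψ p).det

/-- The null hypersurface is regular, on the open set `W` of the pairs `(s, x)`. -/
structure Reg (W : Set (ℝ × E3)) : Prop where
  isOpen : IsOpen W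
  ne : ∀ p ∈ W, p.2 ≠ 0
  mem : ∀ s : ℝ, 0 ≤ s → ∀ x : E3, x ≠ 0 → (s, x) ∈ W
  smooth : ∀ p ∈ W, ContDiffAt ℝ ∞ (Ph Ψ) p
  met : ∀ p ∈ W, MetAt G (Ph Ψ p)
  time : ∀ p ∈ W, LL Ψ p 0 ≠ 0
  pos : ∀ p ∈ W, ∀ ξ : Fin 3 → ℝ, ξ ≠ 0 → 0 < ∑ i, ∑ j, PP G Ψ p i j * ξ i * ξ j
  geo : ∀ s : ℝ, 0 ≤ s → ∀ x : E3, x ≠ 0 → cov G (Ph Ψ) (LL Ψ) (s, x) dS = 0
  null : ∀ s : ℝ, 0 ≤ s → ∀ x : E3, x ≠ 0 → ipp G Ψ (LL Ψ) (LL Ψ) (s, x) = 0
  orth : ∀ s : ℝ, 0 ≤ s → ∀ x : E3, x ≠ 0 → ∀ i, ipp G Ψ (LL Ψ) (XX Ψ i) (s, x) = 0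

end H17W
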