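import Pool.Agent.Lib.H17W.B1A

set_option autoImplicit false

/-!
# H17W, chunk B1C (M): the regular set

Auxiliary names start with `b1c_`.
-/

open MeasureTheory Filter Topology Set
open scoped ContDiff

namespace H17W

open H17T (E4 pt pos)
open Pool.Agent.Lib.PenroseSph (E3 S2 sm)

variable {U : Set E4} {G : E4 → Matrix (Fin 4) (Fin 4) ℝ} {Ψ : ℝ × E3 → E4}

theorem b1c_dir1 {F : ℝ × E3 → ℝ} {t : ℝ} {x : E3} (hF : DifferentiableAt ℝ F (t, x)) :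
    HasDerivAt (fun t : ℝ => F (t, x)) (fderiv ℝ F (t, x) dS) t := by
  have h1 : HasDerivAt (fun t : ℝ => ((t, x) : ℝ × E3)) ((1 : ℝ), (0 : E3)) t :=
    (hasDerivAt_id t).prodMk (hasDerivAt_const t x)
  exact hF.hasFDerivAt.comp_hasDerivAt t h1

theorem b1c_dir2 {F : ℝ × E3 → ℝ} {t : ℝ} {x : E3} (hF : DifferentiableAt ℝ F (t, x))
    (h0 : ∀ᶠ y in 𝓝 x, F (t, y) = 0) (v : E3) : fderiv ℝ F (t, x) (0, v) = 0 := by
  have h1 : HasFDerivAt (fun y : E3 => ((t, y) : ℝ × E3)) (ContinuousLinearMap.inr ℝ ℝ E3) x := by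
    have := (hasFDerivAt_const (𝕜 := ℝ) t x).prodMk (hasFDerivAt_id (𝕜 := ℝ) x)
    refine this.congr_fderiv ?_
    ext v <;> simp
  have h2 := hF.hasFDerivAt.comp x h1
  have h3 : (F ∘ fun y : E3 => ((t, y) : ℝ × E3)) =ᶠ[𝓝 x] fun _ => (0 : ℝ) := h0
  have h4 := h2.fderiv
  rw [h3.fderiv_eq] at h4
  have h5 := congrArg (fun L : E3 →L[ℝ] ℝ => L v) h4
  simp at h5
  exact h5.symm

theorem b1c_ev (hN : NullCone U G Ψ) {s : ℝ} (hs : 0 ≤ s) {x : E3} (hx : x ≠ 0) :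
    (∀ᶠ p in 𝓝 ((s, x) : ℝ × E3), ContDiffAt ℝ ∞ (Ph Ψ) p) ∧
      (∀ᶠ p in 𝓝 ((s, x) : ℝ × E3), p.2 ≠ 0 ∧ DifferentiableAt ℝ Ψ (p.1, ‖p.2‖⁻¹ • p.2)) := by
  obtain ⟨W₀, hW, hmem, hΨ⟩ := hN.smooth
  have hn : ‖(‖x‖⁻¹ • x : E3)‖ = 1 := by
    rw [norm_smul, norm_inv, norm_norm, inv_mul_cancel₀ (norm_ne_zero_iff.2 hx)]
  have hm : ((s, ‖x‖⁻¹ • x) : ℝ × E3) ∈ W₀ := hmem s hs ⟨‖x‖⁻¹ • x, mem_sphere_zero_iff_norm.2 hn⟩
  have hc : ContinuousAt (fun p : ℝ × E3 => ((p.1, ‖p.2‖⁻¹ • p.2) : ℝ × E3)) (s, x) := by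
    refine continuousAt_fst.prodMk (ContinuousAt.smul (f := fun p : ℝ × E3 => ‖p.2‖⁻¹) (g := fun p : ℝ × E3 => p.2) ?_ continuousAt_snd)
    exact (continuousAt_snd.norm).inv₀ (norm_ne_zero_iff.2 hx)
  have h1 : ∀ᶠ p in 𝓝 ((s, x) : ℝ × E3), ((p.1, ‖p.2‖⁻¹ • p.2) : ℝ × E3) ∈ W₀ :=
    hc.preimage_mem_nhds (hW.mem_nhds hm)
  have h2 : ∀ᶠ p in 𝓝 ((s, x) : ℝ × E3), p.2 ≠ 0 :=
    (continuousAt_snd (p := ((s, x) : ℝ × E3))).preimage_mem_nhds (isOpen_ne.mem_nhds (show ((s, x) : ℝ × E3).2 ≠ 0 from hx))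
  constructor
  · filter_upwards [h1, h2] with p hp1 hp2
    exact Ph_smooth hW hΨ hp2 hp1
  · filter_upwards [h1, h2] with p hp1 hp2
    exact ⟨hp2, ((hΨ _ hp1).contDiffAt (hW.mem_nhds hp1)).differentiableAt (by simp)⟩

theorem b1c_met (hG : SpaceTime U G) (hN : NullCone U G Ψ) {s : ℝ} (hs : 0 ≤ s) {x : E3} (hx : x ≠ 0) :
    MetAt G (Ph Ψ (s, x)) := by
  have hn : ‖(‖x‖⁻¹ • x : E3)‖ = 1 := by
    rw [norm_smul, norm_inv, norm_norm, inv_mul_cancel₀ (norm_ne_zero_iff.2 hx)]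
  exact metAt_of hG (hN.mem s hs ⟨‖x‖⁻¹ • x, mem_sphere_zero_iff_norm.2 hn⟩)

theorem b1c_LL (hN : NullCone U G Ψ) {s : ℝ} (hs : 0 ≤ s) {x : E3} (hx : x ≠ 0) (a : Fin 4) :
    ∀ᶠ p in 𝓝 ((s, x) : ℝ × E3), ∀ a, ContDiffAt ℝ ∞ (fun q => LL Ψ q a) p :=
  vel_smooth (b1c_ev hN hs hx).1 dS

theorem b1c_XX (hN : NullCone U G Ψ) {s : ℝ} (hs : 0 ≤ s) {x : E3} (hx : x ≠ 0) (i : Fin 3) :
    ∀ᶠ p in 𝓝 ((s, x) : ℝ × E3), ∀ a, ContDiffAt ℝ ∞ (fun q => XX Ψ i q a) p :=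
  vel_smooth (b1c_ev hN hs hx).1 (dX i)

theorem b1c_geo (hN : NullCone U G Ψ) {s : ℝ} (hs : 0 ≤ s) {x : E3} (hx : x ≠ 0) :
    cov G (Ph Ψ) (LL Ψ) (s, x) dS = 0 := by
  have hn : ‖(‖x‖⁻¹ • x : E3)‖ = 1 := by
    rw [norm_smul, norm_inv, norm_norm, inv_mul_cancel₀ (norm_ne_zero_iff.2 hx)]
  have hev := (b1c_ev hN hs hx).2
  have hLL := (b1c_LL hN hs hx 0).self_of_nhds
  have hgen : ∀ᶠ t in 𝓝 s, LL Ψ (t, x) = gen Ψ t (‖x‖⁻¹ • x) := by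
    have hc : ContinuousAt (fun t : ℝ => ((t, x) : ℝ × E3)) s := by fun_prop
    filter_upwards [hc.preimage_mem_nhds hev] with t ht
    exact LL_gen hx ht.2
  funext a
  have h1 := b1c_dir1 ((hLL a).differentiableAt (by simp))
  have h2 : (fun t : ℝ => LL Ψ (t, x) a) =ᶠ[𝓝 s] fun t => gen Ψ t (‖x‖⁻¹ • x) a := by
    filter_upwards [hgen] with t ht
    rw [ht]
  have h3 : fderiv ℝ (fun q => LL Ψ q a) (s, x) dS = deriv (fun t => gen Ψ t (‖x‖⁻¹ • x) a) s := by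
    rw [← h2.deriv_eq, h1.deriv]
  have h4 := hN.geodesic s hs ⟨‖x‖⁻¹ • x, mem_sphere_zero_iff_norm.2 hn⟩ a
  show fderiv ℝ (fun q => LL Ψ q a) (s, x) dS + gam G (Ph Ψ (s, x)) (LL Ψ (s, x)) (LL Ψ (s, x)) a = 0
  rw [h3, hgen.self_of_nhds]
  exact h4

theorem b1c_const {φ : ℝ → ℝ} (h : ∀ t : ℝ, 0 ≤ t → HasDerivAt φ 0 t) (h0 : φ 0 = 0) {s : ℝ} (hs : 0 ≤ s) : φ s = 0 := by
  have h1 : ContinuousOn φ (Icc 0 s) := fun t ht => (h t ht.1).continuousAt.continuousWithinAt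
  have h2 := constant_of_has_deriv_right_zero h1 (fun t ht => (h t ht.1).hasDerivWithinAt) s ⟨hs, le_rfl⟩
  rw [h2, h0]

/-- `<L, L>` is constant along the generators (`ip_cov`, `cov L = 0`), hence zero: for `x ≠ 0`, `s ≥ 0`
(`HasDerivAt` of `t ↦ <L,L>(t, x)` is `2 <D_s L, L> = 0` for `t ≥ 0`). -/
theorem null_all (hG : SpaceTime U G) (hN : NullCone U G Ψ) {s : ℝ} (hs : 0 ≤ s) {x : E3} (hx : x ≠ 0) :
    ipp G Ψ (LL Ψ) (LL Ψ) (s, x) = 0 := by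
  have hn : ‖(‖x‖⁻¹ • x : E3)‖ = 1 := by
    rw [norm_smul, norm_inv, norm_norm, inv_mul_cancel₀ (norm_ne_zero_iff.2 hx)]
  refine b1c_const (φ := fun t => ipp G Ψ (LL Ψ) (LL Ψ) (t, x)) (fun t ht => ?_) ?_ hs
  · have hsm := (ip_smooth (b1c_met hG hN ht hx) (b1c_ev hN ht hx).1 (b1c_LL hN ht hx 0)
      (b1c_LL hN ht hx 0)).self_of_nhds
    have hd := (b1c_LL hN ht hx 0).self_of_nhds
    have hc := ip_cov (b1c_met hG hN ht hx) ((b1c_ev hN ht hx).1.self_of_nhds.differentiableAt (by simp))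
      (fun a => (hd a).differentiableAt (by simp)) (fun a => (hd a).differentiableAt (by simp)) dS
    rw [b1c_geo hN ht hx] at hc
    have h1 := b1c_dir1 (hsm.differentiableAt (by simp))
    rw [hc] at h1
    have e : ip G (Ph Ψ (t, x)) 0 (LL Ψ (t, x)) + ip G (Ph Ψ (t, x)) (LL Ψ (t, x)) 0 = 0 := by simp [ip]
    rw [e] at h1
    exact h1
  · show ip G (Ph Ψ (0, x)) (LL Ψ (0, x)) (LL Ψ (0, x)) = 0
    rw [LL_gen hx ((b1c_ev hN le_rfl hx).2.self_of_nhds).2]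
    exact hN.null ⟨‖x‖⁻¹ • x, mem_sphere_zero_iff_norm.2 hn⟩

/-- The geodesic equation for `Φ`. -/
theorem geo_all (hG : SpaceTime U G) (hN : NullCone U G Ψ) {s : ℝ} (hs : 0 ≤ s) {x : E3} (hx : x ≠ 0) :
    cov G (Ph Ψ) (LL Ψ) (s, x) dS = 0 := b1c_geo hN hs hx

/-- `<L, X_i>` is constant along the generators: its derivative is `<D_s L, X_i> + <L, D_s X_i> = <L, D_i L> = ∂_i <L,L> / 2 = 0`
(`cov_symm`; `<L,L>(s, ·) = 0` for every `s ≥ 0`). At `s = 0` it is `hN.orth`. -/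
theorem orth_all (hG : SpaceTime U G) (hN : NullCone U G Ψ) {s : ℝ} (hs : 0 ≤ s) {x : E3} (hx : x ≠ 0) (i : Fin 3) :
    ipp G Ψ (LL Ψ) (XX Ψ i) (s, x) = 0 := by
  have hn : ‖(‖x‖⁻¹ • x : E3)‖ = 1 := by
    rw [norm_smul, norm_inv, norm_norm, inv_mul_cancel₀ (norm_ne_zero_iff.2 hx)]
  refine b1c_const (φ := fun t => ipp G Ψ (LL Ψ) (XX Ψ i) (t, x)) (fun t ht => ?_) ?_ hs
  · have hM := b1c_met hG hN ht hx
    have hP := (b1c_ev hN ht hx).1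
    have hPd := hP.self_of_nhds.differentiableAt (by simp)
    have hsm := (ip_smooth hM hP (b1c_LL hN ht hx 0) (b1c_XX hN ht hx i)).self_of_nhds
    have hd := (b1c_LL hN ht hx 0).self_of_nhds
    have hdX := (b1c_XX hN ht hx i).self_of_nhds
    have hc := ip_cov hM hPd (fun a => (hd a).differentiableAt (by simp)) (fun a => (hdX a).differentiableAt (by simp)) dS
    have hsy : cov G (Ph Ψ) (XX Ψ i) (t, x) dS = cov G (Ph Ψ) (LL Ψ) (t, x) (dX i) :=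
      cov_symm hM (hP.self_of_nhds.of_le (WithTop.coe_le_coe.2 le_top)) dS (dX i)
    have hsmL := (ip_smooth hM hP (b1c_LL hN ht hx 0) (b1c_LL hN ht hx 0)).self_of_nhds
    have hcL := ip_cov hM hPd (fun a => (hd a).differentiableAt (by simp)) (fun a => (hd a).differentiableAt (by simp)) (dX i)
    have hz : fderiv ℝ (fun y => ip G (Ph Ψ y) (LL Ψ y) (LL Ψ y)) (t, x) (dX i) = 0 := by
      refine b1c_dir2 (hsmL.differentiableAt (by simp)) ?_ _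
      filter_upwards [isOpen_ne.mem_nhds hx] with y hy
      exact null_all hG hN ht hy
    rw [hz, ip_symm hM (cov G (Ph Ψ) (LL Ψ) (t, x) (dX i))] at hcL
    rw [b1c_geo hN ht hx, hsy] at hc
    have h2 : ip G (Ph Ψ (t, x)) (LL Ψ (t, x)) (cov G (Ph Ψ) (LL Ψ) (t, x) (dX i)) = 0 := by linarith
    have h1 := b1c_dir1 (hsm.differentiableAt (by simp))
    rw [hc, h2] at h1
    have e : ip G (Ph Ψ (t, x)) 0 (XX Ψ i (t, x)) + 0 = 0 := by simp [ip]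
    rw [e] at h1
    exact h1
  · show ip G (Ph Ψ (0, x)) (LL Ψ (0, x)) (XX Ψ i (0, x)) = 0
    have hd := ((b1c_ev hN le_rfl hx).2.self_of_nhds).2
    rw [LL_gen hx hd, XX_tanv hx hd, ip_smul_right]
    have h3 := hN.orth ⟨‖x‖⁻¹ • x, mem_sphere_zero_iff_norm.2 hn⟩
      (EuclideanSpace.single i (1 : ℝ) - (‖x‖⁻¹ • x) i • (‖x‖⁻¹ • x)) ?_
    · show ‖x‖⁻¹ * ip G (Ψ (0, ‖x‖⁻¹ • x)) (gen Ψ 0 (‖x‖⁻¹ • x)) _ = 0
      rw [h3, mul_zero]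
    · show inner ℝ (‖x‖⁻¹ • x) (EuclideanSpace.single i (1 : ℝ) - (‖x‖⁻¹ • x) i • (‖x‖⁻¹ • x)) = 0
      rw [inner_sub_right, inner_smul_right, real_inner_self_eq_norm_sq, hn, EuclideanSpace.inner_single_right]
      simp

end H17W
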