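import Pool.Agent.Lib.H17W.B1B
import Pool.Agent.Lib.H17W.B1C

set_option autoImplicit false

/-!
# H17W, chunk B1D (M): the regular set

Auxiliary names start with `b1d_`.
-/

open MeasureTheory Filter Topology Set
open scoped ContDiff

namespace H17W

open H17T (E4 pt pos)
open Pool.Agent.Lib.PenroseSph (E3 S2 sm)

variable {U : Set E4} {G : E4 → Matrix (Fin 4) (Fin 4) ℝ} {Ψ : ℝ × E3 → E4}

theorem b1d_pos (hN : NullCone U G Ψ) {s : ℝ} (hs : 0 ≤ s) {x : E3} (hx : x ≠ 0) {ξ : Fin 3 → ℝ}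
    (hξ : ξ ≠ 0) : 0 < ∑ i, ∑ j, PP G Ψ (s, x) i j * ξ i * ξ j := by
  have hr : 0 < ‖x‖ := norm_pos_iff.2 hx
  obtain ⟨n, hndef⟩ : ∃ n : E3, n = ‖x‖⁻¹ • x := ⟨_, rfl⟩
  have hn : ‖n‖ = 1 := by
    rw [hndef, norm_smul, norm_inv, norm_norm, inv_mul_cancel₀ hr.ne']
  have hd : DifferentiableAt ℝ Ψ (s, ‖x‖⁻¹ • x) := ((b1c_ev hN hs hx).2.self_of_nhds).2
  have hxn : ∀ i, x i = ‖x‖ * n i := by
    intro i
    rw [hndef]
    show x i = ‖x‖ * (‖x‖⁻¹ * x i)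
    rw [← mul_assoc, mul_inv_cancel₀ hr.ne', one_mul]
  have hX : ∀ i, XX Ψ i (s, x) = ‖x‖⁻¹ • tanv Ψ s n (EuclideanSpace.single i (1 : ℝ) - n i • n) := by
    intro i
    rw [hndef]
    exact XX_tanv hx hd i
  obtain ⟨v, hvdef⟩ : ∃ v : E3, v = ξ 0 • (EuclideanSpace.single 0 (1 : ℝ) - n 0 • n) +
    ξ 1 • (EuclideanSpace.single 1 (1 : ℝ) - n 1 • n) + ξ 2 • (EuclideanSpace.single 2 (1 : ℝ) - n 2 • n) := ⟨_, rfl⟩
  have hY : ξ 0 • XX Ψ 0 (s, x) + ξ 1 • XX Ψ 1 (s, x) + ξ 2 • XX Ψ 2 (s, x) = ‖x‖⁻¹ • tanv Ψ s n v := by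
    funext a
    rw [hvdef]
    simp only [hX, tanv, map_add, map_smul, Pi.add_apply, Pi.smul_apply, smul_eq_mul]
    ring
  have hsum : ∑ i, ∑ j, PP G Ψ (s, x) i j * ξ i * ξ j =
      ip G (Ph Ψ (s, x)) (ξ 0 • XX Ψ 0 (s, x) + ξ 1 • XX Ψ 1 (s, x) + ξ 2 • XX Ψ 2 (s, x))
        (ξ 0 • XX Ψ 0 (s, x) + ξ 1 • XX Ψ 1 (s, x) + ξ 2 • XX Ψ 2 (s, x)) +
        (x 0 * ξ 0 + x 1 * ξ 1 + x 2 * ξ 2) ^ 2 / ‖x‖ ^ 4 := by
    simp only [PP, Matrix.of_apply, hh, ipp, Fin.sum_univ_three, ip_add_left, ip_add_right, ip_smul_left, ip_smul_right]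
    ring
  rw [hsum, hY, ip_smul_left, ip_smul_right]
  have hin : inner ℝ n v = 0 := by
    rw [hvdef, inner_add_right, inner_add_right, inner_smul_right, inner_smul_right, inner_smul_right, inner_sub_right,
      inner_sub_right, inner_sub_right, inner_smul_right, inner_smul_right, inner_smul_right, real_inner_self_eq_norm_sq, hn,
      EuclideanSpace.inner_single_right, EuclideanSpace.inner_single_right, EuclideanSpace.inner_single_right]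
    simp
  have hPh : Ph Ψ (s, x) = Ψ (s, n) := by rw [hndef]; rfl
  rw [hPh]
  by_cases hv : v = 0
  · have h1 : tanv Ψ s n v = 0 := by
      funext a
      rw [hv]
      simp [tanv]
    rw [h1]
    have h2 : ip G (Ψ (s, n)) 0 0 = 0 := by simp [ip]
    rw [h2, mul_zero, mul_zero, zero_add]
    have h3 : x 0 * ξ 0 + x 1 * ξ 1 + x 2 * ξ 2 ≠ 0 := by
      intro h4
      have h5 : n 0 * ξ 0 + n 1 * ξ 1 + n 2 * ξ 2 = 0 := by
        have : ‖x‖ * (n 0 * ξ 0 + n 1 * ξ 1 + n 2 * ξ 2) = 0 := by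
          rw [← h4, hxn 0, hxn 1, hxn 2]
          ring
        exact (mul_eq_zero.1 this).resolve_left hr.ne'
      apply hξ
      funext k
      have h6 : v k = 0 := by rw [hv]; rfl
      rw [hvdef] at h6
      have h7 : v k = ξ k - (n 0 * ξ 0 + n 1 * ξ 1 + n 2 * ξ 2) * n k := by
        rw [hvdef]
        fin_cases k <;>
        simp [PiLp.single_apply] <;> ring
      rw [← hvdef, h7, h5] at h6
      simpa using h6
    positivity
  · have h1 := hN.regular s hs ⟨n, mem_sphere_zero_iff_norm.2 hn⟩ v hv hin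
    have h2 : 0 < ip G (Ψ (s, n)) (tanv Ψ s n v) (tanv Ψ s n v) := h1
    have h3 : 0 ≤ (x 0 * ξ 0 + x 1 * ξ 1 + x 2 * ξ 2) ^ 2 / ‖x‖ ^ 4 := by positivity
    have h4 : 0 < ‖x‖⁻¹ * (‖x‖⁻¹ * ip G (Ψ (s, n)) (tanv Ψ s n v) (tanv Ψ s n v)) := by positivity
    linarith

/-- Positivity of a quadratic form with continuous coefficients is an open condition. -/
theorem b1d_open {X : Type*} [TopologicalSpace X] {M : X → Matrix (Fin 3) (Fin 3) ℝ} {p : X}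
    (hc : ∀ i j, ContinuousAt (fun q => M q i j) p) (hp : ∀ ξ : Fin 3 → ℝ, ξ ≠ 0 → 0 < ∑ i, ∑ j, M p i j * ξ i * ξ j) :
    ∀ᶠ q in 𝓝 p, ∀ ξ : Fin 3 → ℝ, ξ ≠ 0 → 0 < ∑ i, ∑ j, M q i j * ξ i * ξ j := by
  have h1 : ∀ᶠ q in 𝓝 p, ∀ ξ ∈ Metric.sphere (0 : Fin 3 → ℝ) 1, 0 < ∑ i, ∑ j, M q i j * ξ i * ξ j := by
    refine (isCompact_sphere (0 : Fin 3 → ℝ) 1).eventually_forall_of_forall_eventually fun ξ hξ => ?_
    have hξ0 : ξ ≠ 0 := by
      rintro rfl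
      simp at hξ
    have h2 : ContinuousAt (fun z : X × (Fin 3 → ℝ) => ∑ i, ∑ j, M z.1 i j * z.2 i * z.2 j) (p, ξ) := by
      refine tendsto_finsetSum _ fun i _ => tendsto_finsetSum _ fun j _ => ?_
      have h3 : ContinuousAt (fun z : X × (Fin 3 → ℝ) => M z.1 i j) (p, ξ) :=
        ContinuousAt.comp (f := Prod.fst) (g := fun q => M q i j) (hc i j) continuousAt_fst
      have h4 : ∀ k : Fin 3, ContinuousAt (fun z : X × (Fin 3 → ℝ) => z.2 k) (p, ξ) := fun k =>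
        ((continuous_apply k).comp continuous_snd).continuousAt
      exact (h3.mul (h4 i)).mul (h4 j)
    exact h2.eventually (lt_mem_nhds (hp ξ hξ0))
  filter_upwards [h1] with q hq ξ hξ
  have hr : 0 < ‖ξ‖ := norm_pos_iff.2 hξ
  have h2 := hq (‖ξ‖⁻¹ • ξ) (by
    rw [mem_sphere_zero_iff_norm, norm_smul, norm_inv, norm_norm, inv_mul_cancel₀ hr.ne'])
  have h3 : ∑ i, ∑ j, M q i j * ξ i * ξ j = ‖ξ‖ ^ 2 * ∑ i, ∑ j, M q i j * (‖ξ‖⁻¹ • ξ) i * (‖ξ‖⁻¹ • ξ) j := by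
    rw [Finset.mul_sum]
    refine Finset.sum_congr rfl fun i _ => ?_
    rw [Finset.mul_sum]
    refine Finset.sum_congr rfl fun j _ => ?_
    simp only [Pi.smul_apply, smul_eq_mul]
    field_simp
  rw [h3]
  positivity

/-- `W` is the set of the `(s, x)` with `x ≠ 0`, `(s, x/|x|) ∈ W₀`, `Φ ∈ U`, `L^0 ≠ 0` and such that `PP` is positive definite
near the point (interior). For `s ≥ 0`: `PP(s,x) ξ ξ = <X_v, X_v> + (x·ξ)²/|x|⁴` with `v` the tangential part of `ξ` (`XX_tanv`,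
`hN.regular`); positivity near the point by continuity and compactness of the unit sphere
(`IsCompact.eventually_forall_of_forall_eventually`, homogeneity in `ξ`). -/
theorem reg_of (hG : SpaceTime U G) (hN : NullCone U G Ψ) (h0 : ∀ n : S2, gen Ψ 0 n 0 ≠ 0) : ∃ W : Set (ℝ × E3), Reg G Ψ W := by
  refine ⟨interior {p | p.2 ≠ 0 ∧ ContDiffAt ℝ ∞ (Ph Ψ) p ∧ Ph Ψ p ∈ U ∧ LL Ψ p 0 ≠ 0 ∧
    ∀ ξ : Fin 3 → ℝ, ξ ≠ 0 → 0 < ∑ i, ∑ j, PP G Ψ p i j * ξ i * ξ j}, ?_⟩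
  refine ⟨isOpen_interior, fun p hp => (interior_subset hp).1, ?_, fun p hp => (interior_subset hp).2.1,
    fun p hp => metAt_of hG (interior_subset hp).2.2.1, fun p hp => (interior_subset hp).2.2.2.1,
    fun p hp => (interior_subset hp).2.2.2.2, fun s hs x hx => geo_all hG hN hs hx,
    fun s hs x hx => null_all hG hN hs hx, fun s hs x hx i => orth_all hG hN hs hx i⟩
  intro s hs x hx
  rw [mem_interior_iff_mem_nhds]
  have hn : ‖(‖x‖⁻¹ • x : E3)‖ = 1 := by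
    rw [norm_smul, norm_inv, norm_norm, inv_mul_cancel₀ (norm_ne_zero_iff.2 hx)]
  obtain ⟨e1, e2⟩ := b1c_ev hN hs hx
  have hM := b1c_met hG hN hs hx
  have hU : Ph Ψ (s, x) ∈ U := hN.mem s hs ⟨‖x‖⁻¹ • x, mem_sphere_zero_iff_norm.2 hn⟩
  have e3 : ∀ᶠ p in 𝓝 ((s, x) : ℝ × E3), Ph Ψ p ∈ U :=
    e1.self_of_nhds.continuousAt.preimage_mem_nhds (hG.isOpen.mem_nhds hU)
  have hL := b1c_LL hN hs hx 0
  have hXX := fun i => b1c_XX hN hs hx i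
  have hL0 : LL Ψ (s, x) 0 ≠ 0 := by
    intro h
    have h1 := null_zero hG hU h (null_all hG hN hs hx)
    rw [LL_gen hx e2.self_of_nhds.2] at h1
    exact gen_ne hG hN h0 hs ⟨‖x‖⁻¹ • x, mem_sphere_zero_iff_norm.2 hn⟩ h1
  have e4 : ∀ᶠ p in 𝓝 ((s, x) : ℝ × E3), LL Ψ p 0 ≠ 0 :=
    (hL.self_of_nhds 0).continuousAt.eventually_ne hL0
  have e5 : ∀ᶠ p in 𝓝 ((s, x) : ℝ × E3), ∀ ξ : Fin 3 → ℝ, ξ ≠ 0 → 0 < ∑ i, ∑ j, PP G Ψ p i j * ξ i * ξ j := by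
    refine b1d_open (M := fun p => PP G Ψ p) (fun i j => ?_) fun ξ hξ => b1d_pos hN hs hx hξ
    have h1 := (ip_smooth hM e1 (hXX i) (hXX j)).self_of_nhds.continuousAt
    have h2 : ∀ k : Fin 3, ContinuousAt (fun q : ℝ × E3 => q.2 k) (s, x) := fun k => by fun_prop
    have h3 : ContinuousAt (fun q : ℝ × E3 => ‖q.2‖ ^ 4) (s, x) := by fun_prop
    exact h1.add (((h2 i).mul (h2 j)).div h3 (pow_ne_zero 4 (norm_ne_zero_iff.2 hx)))
  filter_upwards [e1, e2, e3, e4, e5] with p h1 h2 h3 h4 h5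
  exact ⟨h2.1, h1, h3, h4, h5⟩

end H17W
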