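import Pool.Agent.Lib.H17W.B0
import Pool.Agent.Lib.H17W.A2
import Pool.Agent.Lib.H17W.A4

set_option autoImplicit false

/-!
# H17W, chunk B1A (S/M): the regular set

Auxiliary names start with `b1a_`.
-/

open MeasureTheory Filter Topology Set
open scoped ContDiff

namespace H17W

open H17T (E4 pt pos)
open Pool.Agent.Lib.PenroseSph (E3 S2 sm)

variable {U : Set E4} {G : E4 → Matrix (Fin 4) (Fin 4) ℝ} {Ψ : ℝ × E3 → E4}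

theorem b1a_norm {x : E3} (hx : x ≠ 0) :
    HasFDerivAt (fun y : E3 => ‖y‖⁻¹) ((-(‖x‖ ^ 2)⁻¹ * (1 / (2 * ‖x‖)) * 2) • innerSL ℝ x) x := by
  have hn : ‖x‖ ≠ 0 := norm_ne_zero_iff.mpr hx
  have h1 : HasFDerivAt (fun y : E3 => ‖y‖ ^ 2) (2 • innerSL ℝ x) x :=
    (hasStrictFDerivAt_norm_sq x).hasFDerivAt
  have h2 := h1.sqrt (pow_ne_zero 2 hn)
  have e : (fun y : E3 => Real.sqrt (‖y‖ ^ 2)) = fun y => ‖y‖ := by
    funext y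
    exact Real.sqrt_sq (norm_nonneg y)
  rw [e, Real.sqrt_sq (norm_nonneg x)] at h2
  have h3 := (hasDerivAt_inv hn).comp_hasFDerivAt x h2
  have h4 : (-(‖x‖ ^ 2)⁻¹ * (1 / (2 * ‖x‖)) * 2) • innerSL ℝ x =
      (-(‖x‖ ^ 2)⁻¹) • (1 / (2 * ‖x‖)) • (2 : ℕ) • innerSL ℝ x := by
    rw [← Nat.cast_smul_eq_nsmul ℝ, smul_smul, smul_smul, Nat.cast_ofNat]
  rw [h4]
  exact h3

/-- the derivative of `y ↦ y / |y|` -/
noncomputable def b1a_D (x : E3) : E3 →L[ℝ] E3 :=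
  ‖x‖⁻¹ • ContinuousLinearMap.id ℝ E3 +
    ((-(‖x‖ ^ 2)⁻¹ * (1 / (2 * ‖x‖)) * 2) • innerSL ℝ x).smulRight x

theorem b1a_unit {x : E3} (hx : x ≠ 0) : HasFDerivAt (fun y : E3 => ‖y‖⁻¹ • y) (b1a_D x) x :=
  (b1a_norm hx).smul (hasFDerivAt_id x)

theorem b1a_D_single {x : E3} (hx : x ≠ 0) (i : Fin 3) :
    b1a_D x (EuclideanSpace.single i (1 : ℝ)) =
      ‖x‖⁻¹ • (EuclideanSpace.single i (1 : ℝ) - (‖x‖⁻¹ • x) i • (‖x‖⁻¹ • x)) := by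
  have hn : ‖x‖ ≠ 0 := norm_ne_zero_iff.mpr hx
  have h1 : innerSL ℝ x (EuclideanSpace.single i (1 : ℝ)) = x i := by
    simp [EuclideanSpace.inner_single_right]
  unfold b1a_D
  rw [_root_.add_apply, ContinuousLinearMap.smulRight_apply]
  simp only [FunLike.coe_smul, Pi.smul_apply, smul_eq_mul, h1,
    ContinuousLinearMap.coe_id', id_eq, PiLp.smul_apply]
  rw [smul_sub, sub_eq_add_neg, smul_smul, smul_smul, ← neg_smul]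
  congr 2
  field_simp

theorem b1a_nu {s : ℝ} {x : E3} (hx : x ≠ 0) :
    HasFDerivAt (fun y : ℝ × E3 => ((y.1, ‖y.2‖⁻¹ • y.2) : ℝ × E3))
      ((ContinuousLinearMap.fst ℝ ℝ E3).prod ((b1a_D x).comp (ContinuousLinearMap.snd ℝ ℝ E3)))
      (s, x) := by
  have h1 : HasFDerivAt (fun y : ℝ × E3 => y.1) (ContinuousLinearMap.fst ℝ ℝ E3) (s, x) :=
    hasFDerivAt_fst
  have h2 : HasFDerivAt (fun y : ℝ × E3 => y.2) (ContinuousLinearMap.snd ℝ ℝ E3) (s, x) :=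
    hasFDerivAt_snd
  have h3 : HasFDerivAt (fun y : E3 => ‖y‖⁻¹ • y) (b1a_D x) ((s, x) : ℝ × E3).2 := b1a_unit hx
  exact h1.prodMk (HasFDerivAt.comp (g := fun y : E3 => ‖y‖⁻¹ • y) (s, x) h3 h2)

theorem b1a_comp {s : ℝ} {x : E3} (hx : x ≠ 0) (hΨ : DifferentiableAt ℝ Ψ (s, ‖x‖⁻¹ • x))
    (v : ℝ × E3) (a : Fin 4) : vel (Ph Ψ) (s, x) v a =
      fderiv ℝ (fun z => Ψ z a) (s, ‖x‖⁻¹ • x) (v.1, b1a_D x v.2) := by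
  have ha : DifferentiableAt ℝ (fun z => Ψ z a) (s, ‖x‖⁻¹ • x) := by
    have h := (EuclideanSpace.proj (𝕜 := ℝ) a).differentiableAt.comp (s, ‖x‖⁻¹ • x) hΨ
    exact h
  have h1 := ha.hasFDerivAt.comp (s, x) (b1a_nu (s := s) hx)
  have h2 : vel (Ph Ψ) (s, x) v a = fderiv ℝ ((fun z => Ψ z a) ∘
    fun y : ℝ × E3 => ((y.1, ‖y.2‖⁻¹ • y.2) : ℝ × E3)) (s, x) v := rfl
  rw [h2, h1.fderiv]
  rfl

/-- `LL` and `XX` in terms of `gen` and `tanv`; for `x ≠ 0` the derivative of `y ↦ ‖y‖⁻¹ • y` at `x` in the direction `e_i` is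
`‖x‖⁻¹ • (e_i - n_i n)`, `n = ‖x‖⁻¹ • x`. -/
theorem LL_gen {s : ℝ} {x : E3} (hx : x ≠ 0) (hΨ : DifferentiableAt ℝ Ψ (s, ‖x‖⁻¹ • x)) :
    LL Ψ (s, x) = gen Ψ s (‖x‖⁻¹ • x) := by
  funext a
  unfold LL
  rw [b1a_comp hx hΨ]
  have ha : DifferentiableAt ℝ (fun z => Ψ z a) (s, ‖x‖⁻¹ • x) := by
    have h := (EuclideanSpace.proj (𝕜 := ℝ) a).differentiableAt.comp (s, ‖x‖⁻¹ • x) hΨ
    exact h
  have h1 : HasDerivAt (fun t : ℝ => ((t, ‖x‖⁻¹ • x) : ℝ × E3)) (1, 0) s :=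
    (hasDerivAt_id s).prodMk (hasDerivAt_const s (‖x‖⁻¹ • x))
  have h2 := ha.hasFDerivAt.comp_hasDerivAt s h1
  have h3 : gen Ψ s (‖x‖⁻¹ • x) a = deriv ((fun z => Ψ z a) ∘
    fun t : ℝ => ((t, ‖x‖⁻¹ • x) : ℝ × E3)) s := rfl
  rw [h3, h2.deriv]
  simp [dS]

theorem XX_tanv {s : ℝ} {x : E3} (hx : x ≠ 0) (hΨ : DifferentiableAt ℝ Ψ (s, ‖x‖⁻¹ • x)) (i : Fin 3) :
    XX Ψ i (s, x) = ‖x‖⁻¹ • tanv Ψ s (‖x‖⁻¹ • x)
      (EuclideanSpace.single i (1 : ℝ) - (‖x‖⁻¹ • x) i • (‖x‖⁻¹ • x)) := by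
  funext a
  unfold XX
  rw [b1a_comp hx hΨ]
  have ha : DifferentiableAt ℝ (fun z => Ψ z a) (s, ‖x‖⁻¹ • x) := by
    have h := (EuclideanSpace.proj (𝕜 := ℝ) a).differentiableAt.comp (s, ‖x‖⁻¹ • x) hΨ
    exact h
  have h1 : HasFDerivAt (fun y : E3 => ((s, y) : ℝ × E3))
      ((0 : E3 →L[ℝ] ℝ).prod (ContinuousLinearMap.id ℝ E3)) (‖x‖⁻¹ • x) :=
    (hasFDerivAt_const s _).prodMk (hasFDerivAt_id _)
  have h2 := ha.hasFDerivAt.comp (‖x‖⁻¹ • x) h1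
  have h3 : ∀ w, tanv Ψ s (‖x‖⁻¹ • x) w a = fderiv ℝ (fun z => Ψ z a) (s, ‖x‖⁻¹ • x) (0, w) := by
    intro w
    have h4 : tanv Ψ s (‖x‖⁻¹ • x) w a = fderiv ℝ ((fun z => Ψ z a) ∘
      fun y : E3 => ((s, y) : ℝ × E3)) (‖x‖⁻¹ • x) w := rfl
    rw [h4, h2.fderiv]
    rfl
  rw [Pi.smul_apply, h3, smul_eq_mul]
  have h5 : ((dX i).1, b1a_D x (dX i).2) = ‖x‖⁻¹ • ((0 : ℝ),
      (EuclideanSpace.single i (1 : ℝ) - (‖x‖⁻¹ • x) i • (‖x‖⁻¹ • x) : E3)) := by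
    rw [Prod.smul_mk, smul_zero]
    change ((0 : ℝ), b1a_D x (EuclideanSpace.single i (1 : ℝ))) = _
    rw [b1a_D_single hx i]
  rw [h5, map_smul, smul_eq_mul]

/-- `Φ` is smooth on the open set of the `(s, x)` with `x ≠ 0`, `(s, x/|x|) ∈ W₀`. -/
theorem Ph_smooth {W₀ : Set (ℝ × E3)} (hW : IsOpen W₀) (hΨ : ContDiffOn ℝ ∞ Ψ W₀) {p : ℝ × E3} (hp : p.2 ≠ 0)
    (hpW : (p.1, ‖p.2‖⁻¹ • p.2) ∈ W₀) : ContDiffAt ℝ ∞ (Ph Ψ) p := by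
  have h1 : ContDiffAt ℝ ∞ (fun y : ℝ × E3 => ‖y.2‖) p := contDiffAt_snd.norm ℝ hp
  have h2 : ContDiffAt ℝ ∞ (fun y : ℝ × E3 => ‖y.2‖⁻¹ • y.2) p :=
    (h1.inv (norm_ne_zero_iff.mpr hp)).smul contDiffAt_snd
  have h3 : ContDiffAt ℝ ∞ (fun y : ℝ × E3 => ((y.1, ‖y.2‖⁻¹ • y.2) : ℝ × E3)) p :=
    contDiffAt_fst.prodMk h2
  have h4 : ContDiffAt ℝ ∞ Ψ (p.1, ‖p.2‖⁻¹ • p.2) := hΨ.contDiffAt (hW.mem_nhds hpW)
  exact ContDiffAt.comp (g := Ψ) (f := fun y : ℝ × E3 => ((y.1, ‖y.2‖⁻¹ • y.2) : ℝ × E3)) p h4 h3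

/-- A metric of `SpaceTime` is nondegenerate, smooth and symmetric near each point (`(G p)⁻¹ 0 0 < 0` is impossible if
`det G p = 0`, since then `(G p)⁻¹ = 0`). -/
theorem metAt_of (hG : SpaceTime U G) {p : E4} (hp : p ∈ U) : MetAt G p := by
  refine ⟨?_, ?_, ?_⟩
  · filter_upwards [hG.isOpen.mem_nhds hp] with q hq
    intro a b
    exact (hG.smooth a b).contDiffAt (hG.isOpen.mem_nhds hq)
  · filter_upwards [hG.isOpen.mem_nhds hp] with q hq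
    exact hG.symm q hq
  · intro h0
    have h1 := hG.time p hp
    rw [Matrix.nonsing_inv_apply_not_isUnit _ (by rw [h0]; exact not_isUnit_zero)] at h1
    exact absurd h1 (by simp)

end H17W
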