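import Pool.Agent.Lib.H17W.B2A

set_option autoImplicit false

/-!
# H17W, chunk B2B (M): algebra, smoothness and homogeneity of the fields

Auxiliary names start with `b2b_`.
-/

open MeasureTheory Filter Topology Set
open scoped ContDiff

namespace H17W

open H17T (E4 pt pos)
open Pool.Agent.Lib.PenroseSph (E3 S2 sm)

variable {G : E4 → Matrix (Fin 4) (Fin 4) ℝ} {Ψ : ℝ × E3 → E4} {W : Set (ℝ × E3)}

theorem b2b_Z {p : E4} (h : MetAt G p) (Y : Fin 4 → ℝ) : ip G p (fun a => (G p)⁻¹ a 0) Y = Y 0 := by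
  have hu : IsUnit (G p).det := h.nondeg.isUnit
  have hsy := h.symm.self_of_nhds
  unfold ip
  rw [Finset.sum_comm]
  have h1 : ∀ j, ∑ i, G p i j * (G p)⁻¹ i 0 * Y j = if j = 0 then Y j else 0 := by
    intro j
    have h2 := congrFun (congrFun (Matrix.mul_nonsing_inv _ hu) j) 0
    rw [Matrix.mul_apply, Matrix.one_apply] at h2
    have h3 : ∑ i, G p i j * (G p)⁻¹ i 0 = if j = 0 then 1 else 0 := by
      rw [← h2]
      refine Finset.sum_congr rfl fun i _ => ?_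
      rw [hsy i j]
    rw [← Finset.sum_mul, h3]
    split_ifs <;> ring
  rw [Finset.sum_congr rfl fun j _ => h1 j, Finset.sum_ite_eq' Finset.univ 0 Y,
    if_pos (Finset.mem_univ _)]

theorem b2b_Zp (p : ℝ × E3) : Zp G Ψ p = ZZ G Ψ p +
    ∑ i, (-(∑ j, QQ G Ψ i j p * XX Ψ j p 0)) • XX Ψ i p := by
  funext a
  rw [Pi.add_apply, Finset.sum_apply]
  unfold Zp
  rw [sub_eq_add_neg, ← Finset.sum_neg_distrib]
  congr 1
  refine Finset.sum_congr rfl fun i _ => ?_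
  rw [Pi.smul_apply, smul_eq_mul, neg_mul, Finset.sum_mul]

theorem b2b_kk (p : ℝ × E3) : kk G Ψ p = (2 / LL Ψ p 0) •
    (Zp G Ψ p + (-(ipp G Ψ (Zp G Ψ) (Zp G Ψ) p / (2 * LL Ψ p 0))) • LL Ψ p) := by
  funext a
  rw [Pi.smul_apply, Pi.add_apply, Pi.smul_apply, smul_eq_mul, smul_eq_mul]
  unfold kk
  ring

theorem b2b_ip (q : E4) (w : Fin 3 → ℝ) (V : Fin 3 → Fin 4 → ℝ) (Y : Fin 4 → ℝ) :
    ip G q (∑ i, w i • V i) Y = ∑ i, w i * ip G q (V i) Y := by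
  rw [Fin.sum_univ_three, Fin.sum_univ_three, ip_add_left, ip_add_left, ip_smul_left,
    ip_smul_left, ip_smul_left]

theorem b2b_ZpL (hR : Reg G Ψ W) {s : ℝ} (hs : 0 ≤ s) {x : E3} (hx : x ≠ 0) :
    ip G (Ph Ψ (s, x)) (Zp G Ψ (s, x)) (LL Ψ (s, x)) = LL Ψ (s, x) 0 := by
  have hp := hR.mem s hs x hx
  have hm := hR.met _ hp
  have h1 : ∀ i, ip G (Ph Ψ (s, x)) (XX Ψ i (s, x)) (LL Ψ (s, x)) = 0 := by
    intro i
    rw [ip_symm hm]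
    exact hR.orth s hs x hx i
  rw [b2b_Zp, ip_add_left, b2b_ip]
  simp only [h1, mul_zero, Finset.sum_const_zero, add_zero]
  exact b2b_Z hm _

theorem b2b_ZpX (hR : Reg G Ψ W) {s : ℝ} (hs : 0 ≤ s) {x : E3} (hx : x ≠ 0) (l : Fin 3) :
    ip G (Ph Ψ (s, x)) (Zp G Ψ (s, x)) (XX Ψ l (s, x)) = 0 := by
  have hp := hR.mem s hs x hx
  have hm := hR.met _ hp
  have hv : ∑ i, XX Ψ i (s, x) 0 * x i = 0 := by
    have h1 := XX_rad (Ψ := Ψ) (p := (s, x)) hx ((hR.smooth _ hp).differentiableAt (by simp)) 0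
    rw [← h1]
    refine Finset.sum_congr rfl fun i _ => ?_
    ring
  have h2 := hQ_apply hR hp hv l
  rw [b2b_Zp, ip_add_left, b2b_ip]
  have h3 : ip G (Ph Ψ (s, x)) (ZZ G Ψ (s, x)) (XX Ψ l (s, x)) = XX Ψ l (s, x) 0 := b2b_Z hm _
  rw [h3]
  have h4 : ∑ i, -(∑ j, QQ G Ψ i j (s, x) * XX Ψ j (s, x) 0) *
      ip G (Ph Ψ (s, x)) (XX Ψ i (s, x)) (XX Ψ l (s, x)) = -XX Ψ l (s, x) 0 := by
    rw [← h2, ← Finset.sum_neg_distrib]
    refine Finset.sum_congr rfl fun i _ => ?_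
    rw [neg_mul]
    rfl
  rw [h4, add_neg_cancel]

/-- The scalar products of `k` (for `s ≥ 0`). -/
theorem kk_L (hR : Reg G Ψ W) {s : ℝ} (hs : 0 ≤ s) {x : E3} (hx : x ≠ 0) : ipp G Ψ (LL Ψ) (kk G Ψ) (s, x) = 2 := by
  have hp := hR.mem s hs x hx
  have hm := hR.met _ hp
  have h0 := hR.time _ hp
  change ip G (Ph Ψ (s, x)) (LL Ψ (s, x)) (kk G Ψ (s, x)) = 2
  rw [b2b_kk, ip_smul_right, ip_add_right, ip_smul_right, ip_symm hm, b2b_ZpL hR hs hx]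
  have h1 : ip G (Ph Ψ (s, x)) (LL Ψ (s, x)) (LL Ψ (s, x)) = 0 := hR.null s hs x hx
  rw [h1, mul_zero, add_zero]
  field_simp

theorem kk_k (hR : Reg G Ψ W) {s : ℝ} (hs : 0 ≤ s) {x : E3} (hx : x ≠ 0) : ipp G Ψ (kk G Ψ) (kk G Ψ) (s, x) = 0 := by
  have hp := hR.mem s hs x hx
  have hm := hR.met _ hp
  have h0 := hR.time _ hp
  have h1 : ip G (Ph Ψ (s, x)) (LL Ψ (s, x)) (LL Ψ (s, x)) = 0 := hR.null s hs x hx
  have h2 : ip G (Ph Ψ (s, x)) (Zp G Ψ (s, x)) (LL Ψ (s, x)) = LL Ψ (s, x) 0 := b2b_ZpL hR hs hx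
  have h3 : ip G (Ph Ψ (s, x)) (LL Ψ (s, x)) (Zp G Ψ (s, x)) = LL Ψ (s, x) 0 := by
    rw [ip_symm hm]
    exact h2
  have h4 : ip G (Ph Ψ (s, x)) (Zp G Ψ (s, x)) (Zp G Ψ (s, x)) = ipp G Ψ (Zp G Ψ) (Zp G Ψ) (s, x) := rfl
  change ip G (Ph Ψ (s, x)) (kk G Ψ (s, x)) (kk G Ψ (s, x)) = 0
  rw [b2b_kk, ip_smul_right, ip_add_right, ip_smul_right, ip_smul_left, ip_add_left, ip_smul_left,
    ip_smul_left, ip_add_left, ip_smul_left, h1, h2, h3, h4]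
  field_simp
  ring

theorem kk_X (hR : Reg G Ψ W) {s : ℝ} (hs : 0 ≤ s) {x : E3} (hx : x ≠ 0) (i : Fin 3) :
    ipp G Ψ (kk G Ψ) (XX Ψ i) (s, x) = 0 := by
  have hp := hR.mem s hs x hx
  have h1 : ip G (Ph Ψ (s, x)) (LL Ψ (s, x)) (XX Ψ i (s, x)) = 0 := hR.orth s hs x hx i
  change ip G (Ph Ψ (s, x)) (kk G Ψ (s, x)) (XX Ψ i (s, x)) = 0
  rw [b2b_kk, ip_smul_left, ip_add_left, ip_smul_left, b2b_ZpX hR hs hx, h1]
  ring

/-- `nframe_of`. -/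
theorem nframe (hR : Reg G Ψ W) {s : ℝ} (hs : 0 ≤ s) {x : E3} (hx : x ≠ 0) :
    NFrame (G (Ph Ψ (s, x))) (fun i => XX Ψ i (s, x)) (fun i j => QQ G Ψ i j (s, x)) (LL Ψ (s, x)) (kk G Ψ (s, x)) := by
  have hp := hR.mem s hs x hx
  have hn : ∑ m, (x m) ^ 2 = ‖x‖ ^ 2 := (EuclideanSpace.real_norm_sq_eq x).symm
  have hne : ‖x‖ ≠ 0 := norm_ne_zero_iff.2 hx
  refine nframe_of (hR.met _ hp) (fun i => x i) ?_ ?_ ?_ ?_ ?_ ?_ ?_ ?_ ?_ ?_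
  · rw [hn]
    exact pow_ne_zero 2 hne
  · exact XX_rad (p := (s, x)) hx ((hR.smooth _ hp).differentiableAt (by simp))
  · exact QQ_symm hR hp
  · exact QQ_rad hR hp
  · intro i j
    rw [hn]
    exact hQ hR hp i j
  · exact hR.null s hs x hx
  · exact kk_k hR hs hx
  · exact kk_L hR hs hx
  · exact hR.orth s hs x hx
  · exact kk_X hR hs hx

end H17W
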