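import Pool.Agent.Lib.H17W.B2A

set_option autoImplicit false

/-!
# H17W, chunk B2C (M): algebra, smoothness and homogeneity of the fields

Auxiliary names start with `b2c_`.
-/

open MeasureTheory Filter Topology Set
open scoped ContDiff

namespace H17W

open H17T (E4 pt pos)
open Pool.Agent.Lib.PenroseSph (E3 S2 sm)

variable {G : E4 → Matrix (Fin 4) (Fin 4) ℝ} {Ψ : ℝ × E3 → E4} {W : Set (ℝ × E3)}

theorem b2c_det {n : ℕ} {V : Type*} [NormedAddCommGroup V] [NormedSpace ℝ V] {A : V → Matrix (Fin n) (Fin n) ℝ} {p : V}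
    (hA : ∀ i j, ContDiffAt ℝ ∞ (fun q => A q i j) p) : ContDiffAt ℝ ∞ (fun q => (A q).det) p := by
  simp only [Matrix.det_apply']
  exact ContDiffAt.sum fun σ _ => contDiffAt_const.mul (contDiffAt_prod fun i _ => hA _ _)

theorem b2c_inv {n : ℕ} {V : Type*} [NormedAddCommGroup V] [NormedSpace ℝ V] {A : V → Matrix (Fin n) (Fin n) ℝ} {p : V}
    (hA : ∀ i j, ContDiffAt ℝ ∞ (fun q => A q i j) p) (hd : (A p).det ≠ 0) (i j : Fin n) :
    ContDiffAt ℝ ∞ (fun q => (A q)⁻¹ i j) p := by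
  have h1 : (fun q => (A q)⁻¹ i j) = fun q => ((A q).det)⁻¹ * (A q).adjugate i j := by
    funext q
    rw [Matrix.inv_def, Matrix.smul_apply, Ring.inverse_eq_inv', smul_eq_mul]
  rw [h1]
  refine ((b2c_det hA).inv hd).mul ?_
  simp only [Matrix.adjugate_apply]
  refine b2c_det fun k l => ?_
  by_cases hk : k = j
  · subst hk
    simp only [Matrix.updateRow_self]
    exact contDiffAt_const
  · simp only [Matrix.updateRow_ne hk]
    exact hA k l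

theorem b2c_ev (hR : Reg G Ψ W) {p : ℝ × E3} (hp : p ∈ W) : ∀ᶠ q in 𝓝 p, q ∈ W := hR.isOpen.mem_nhds hp

theorem b2c_Ph (hR : Reg G Ψ W) {p : ℝ × E3} (hp : p ∈ W) : ∀ᶠ q in 𝓝 p, ContDiffAt ℝ ∞ (Ph Ψ) q := by
  filter_upwards [b2c_ev hR hp] with q hq
  exact hR.smooth q hq

theorem b2c_ip (hR : Reg G Ψ W) {A B : ℝ × E3 → Fin 4 → ℝ} (hA : ∀ q ∈ W, ∀ a, ContDiffAt ℝ ∞ (fun z => A z a) q)
    (hB : ∀ q ∈ W, ∀ a, ContDiffAt ℝ ∞ (fun z => B z a) q) {p : ℝ × E3} (hp : p ∈ W) :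
    ContDiffAt ℝ ∞ (ipp G Ψ A B) p := by
  have hA' : ∀ᶠ y in 𝓝 p, ∀ a, ContDiffAt ℝ ∞ (fun z => A z a) y := by
    filter_upwards [b2c_ev hR hp] with q hq using hA q hq
  have hB' : ∀ᶠ y in 𝓝 p, ∀ a, ContDiffAt ℝ ∞ (fun z => B z a) y := by
    filter_upwards [b2c_ev hR hp] with q hq using hB q hq
  exact (ip_smooth (hR.met p hp) (b2c_Ph hR hp) hA' hB').self_of_nhds

theorem b2c_coord {p : ℝ × E3} (i : Fin 3) : ContDiffAt ℝ ∞ (fun q : ℝ × E3 => q.2 i) p := by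
  fun_prop

theorem b2c_ZZ (hR : Reg G Ψ W) {p : ℝ × E3} (hp : p ∈ W) (a : Fin 4) : ContDiffAt ℝ ∞ (fun q => ZZ G Ψ q a) p := by
  have hM := hR.met p hp
  refine b2c_inv (A := fun q => G (Ph Ψ q)) (fun i j => ?_) hM.nondeg a 0
  exact (hM.smooth.self_of_nhds i j).comp p (hR.smooth p hp)

/-- All fields are smooth on `W` (`vel_smooth`, `ip_smooth`, `cov_smooth`, smoothness of the inverse matrix). -/
theorem LL_smooth (hR : Reg G Ψ W) {p : ℝ × E3} (hp : p ∈ W) (a : Fin 4) : ContDiffAt ℝ ∞ (fun q => LL Ψ q a) p := (vel_smooth (b2c_Ph hR hp) dS).self_of_nhds a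

theorem XX_smooth (hR : Reg G Ψ W) {p : ℝ × E3} (hp : p ∈ W) (i : Fin 3) (a : Fin 4) :
    ContDiffAt ℝ ∞ (fun q => XX Ψ i q a) p := (vel_smooth (b2c_Ph hR hp) (dX i)).self_of_nhds a

theorem hh_smooth (hR : Reg G Ψ W) {p : ℝ × E3} (hp : p ∈ W) (i j : Fin 3) : ContDiffAt ℝ ∞ (hh G Ψ i j) p :=
  b2c_ip hR (fun q hq a => XX_smooth hR hq i a) (fun q hq a => XX_smooth hR hq j a) hp

theorem PP_smooth (hR : Reg G Ψ W) {p : ℝ × E3} (hp : p ∈ W) (i j : Fin 3) : ContDiffAt ℝ ∞ (fun q => PP G Ψ q i j) p := by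
  have hn : p.2 ≠ 0 := hR.ne p hp
  have h1 : ContDiffAt ℝ ∞ (fun q : ℝ × E3 => ‖q.2‖ ^ 4) p := (contDiffAt_snd.norm ℝ hn).pow 4
  show ContDiffAt ℝ ∞ (fun q => hh G Ψ i j q + q.2 i * q.2 j / ‖q.2‖ ^ 4) p
  exact (hh_smooth hR hp i j).add (((b2c_coord i).mul (b2c_coord j)).div h1 (pow_ne_zero 4 (norm_ne_zero_iff.2 hn)))

theorem QQ_smooth (hR : Reg G Ψ W) {p : ℝ × E3} (hp : p ∈ W) (i j : Fin 3) : ContDiffAt ℝ ∞ (QQ G Ψ i j) p := by
  have h1 := b2c_inv (A := fun q => PP G Ψ q) (p := p) (fun i j => PP_smooth hR hp i j) (PP_det hR hp).ne' i j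
  exact h1.sub ((b2c_coord i).mul (b2c_coord j))

theorem b2c_Zp (hR : Reg G Ψ W) {p : ℝ × E3} (hp : p ∈ W) (a : Fin 4) : ContDiffAt ℝ ∞ (fun q => Zp G Ψ q a) p := by
  refine (b2c_ZZ hR hp a).sub ?_
  exact ContDiffAt.sum fun i _ => ContDiffAt.sum fun j _ =>
    ((QQ_smooth hR hp i j).mul (XX_smooth hR hp j 0)).mul (XX_smooth hR hp i a)

theorem kk_smooth (hR : Reg G Ψ W) {p : ℝ × E3} (hp : p ∈ W) (a : Fin 4) : ContDiffAt ℝ ∞ (fun q => kk G Ψ q a) p := by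
  have h0 := hR.time p hp
  have hL := LL_smooth hR hp 0
  have hZ := b2c_ip hR (fun q hq a => b2c_Zp hR hq a) (fun q hq a => b2c_Zp hR hq a) hp
  have h2 : ContDiffAt ℝ ∞ (fun q => 2 * LL Ψ q 0) p := contDiffAt_const.mul hL
  exact (contDiffAt_const.div hL h0).mul ((b2c_Zp hR hp a).sub
    ((hZ.div h2 (mul_ne_zero two_ne_zero h0)).mul (LL_smooth hR hp a)))

theorem dA_smooth (hR : Reg G Ψ W) {p : ℝ × E3} (hp : p ∈ W) : ContDiffAt ℝ ∞ (dA G Ψ) p := by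
  have h1 : ContDiffAt ℝ ∞ (fun q => (PP G Ψ q).det) p := b2c_det fun i j => PP_smooth hR hp i j
  exact h1.sqrt (PP_det hR hp).ne'

end H17W
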