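import Pool.Agent.Lib.H17W.B2C

set_option autoImplicit false

/-!
# H17W, chunk B2D (M): algebra, smoothness and homogeneity of the fields

Auxiliary names start with `b2d_`.
-/

open MeasureTheory Filter Topology Set
open scoped ContDiff

namespace H17W

open H17T (E4 pt pos)
open Pool.Agent.Lib.PenroseSph (E3 S2 sm)

variable {G : E4 → Matrix (Fin 4) (Fin 4) ℝ} {Ψ : ℝ × E3 → E4} {W : Set (ℝ × E3)}

theorem b2d_ev (hR : Reg G Ψ W) {p : ℝ × E3} (hp : p ∈ W) {P : ℝ × E3 → Prop} (h : ∀ q ∈ W, P q) : ∀ᶠ q in 𝓝 p, P q :=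
  Filter.eventually_of_mem (hR.isOpen.mem_nhds hp) h

theorem chi_smooth (hR : Reg G Ψ W) {p : ℝ × E3} (hp : p ∈ W) (i j : Fin 3) : ContDiffAt ℝ ∞ (chi G Ψ i j) p := by
  have hΦ : ∀ᶠ y in 𝓝 p, ContDiffAt ℝ ∞ (Ph Ψ) y := b2d_ev hR hp hR.smooth
  have hL : ∀ᶠ y in 𝓝 p, ∀ a, ContDiffAt ℝ ∞ (fun z => LL Ψ z a) y := b2d_ev hR hp fun q hq a => LL_smooth hR hq a
  have hX : ∀ᶠ y in 𝓝 p, ∀ a, ContDiffAt ℝ ∞ (fun z => XX Ψ j z a) y := b2d_ev hR hp fun q hq a => XX_smooth hR hq j a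
  exact (ip_smooth (hR.met p hp) hΦ (cov_smooth (hR.met p hp) hΦ hL (dX i)) hX).self_of_nhds

theorem kap_smooth (hR : Reg G Ψ W) {p : ℝ × E3} (hp : p ∈ W) (i j : Fin 3) : ContDiffAt ℝ ∞ (kap G Ψ i j) p := by
  have hΦ : ∀ᶠ y in 𝓝 p, ContDiffAt ℝ ∞ (Ph Ψ) y := b2d_ev hR hp hR.smooth
  have hK : ∀ᶠ y in 𝓝 p, ∀ a, ContDiffAt ℝ ∞ (fun z => kk G Ψ z a) y := b2d_ev hR hp fun q hq a => kk_smooth hR hq a
  have hX : ∀ᶠ y in 𝓝 p, ∀ a, ContDiffAt ℝ ∞ (fun z => XX Ψ j z a) y := b2d_ev hR hp fun q hq a => XX_smooth hR hq j a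
  exact (ip_smooth (hR.met p hp) hΦ (cov_smooth (hR.met p hp) hΦ hK (dX i)) hX).self_of_nhds

theorem zet_smooth (hR : Reg G Ψ W) {p : ℝ × E3} (hp : p ∈ W) (i : Fin 3) : ContDiffAt ℝ ∞ (zet G Ψ i) p := by
  have hΦ : ∀ᶠ y in 𝓝 p, ContDiffAt ℝ ∞ (Ph Ψ) y := b2d_ev hR hp hR.smooth
  have hL : ∀ᶠ y in 𝓝 p, ∀ a, ContDiffAt ℝ ∞ (fun z => LL Ψ z a) y := b2d_ev hR hp fun q hq a => LL_smooth hR hq a
  have hK : ∀ᶠ y in 𝓝 p, ∀ a, ContDiffAt ℝ ∞ (fun z => kk G Ψ z a) y := b2d_ev hR hp fun q hq a => kk_smooth hR hq a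
  exact (ip_smooth (hR.met p hp) hΦ (cov_smooth (hR.met p hp) hΦ hL (dX i)) hK).self_of_nhds.div_const 2

theorem exl_smooth (hR : Reg G Ψ W) {p : ℝ × E3} (hp : p ∈ W) : ContDiffAt ℝ ∞ (exl G Ψ) p := by
  have h : ContDiffAt ℝ ∞ (fun q => ∑ i, ∑ j, QQ G Ψ i j q * chi G Ψ i j q) p :=
    ContDiffAt.sum fun i _ => ContDiffAt.sum fun j _ => (QQ_smooth hR hp i j).mul (chi_smooth hR hp i j)
  exact h

theorem tht_smooth (hR : Reg G Ψ W) {p : ℝ × E3} (hp : p ∈ W) : ContDiffAt ℝ ∞ (tht G Ψ) p := by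
  have h : ContDiffAt ℝ ∞ (fun q => ∑ i, ∑ j, QQ G Ψ i j q * kap G Ψ i j q) p :=
    ContDiffAt.sum fun i _ => ContDiffAt.sum fun j _ => (QQ_smooth hR hp i j).mul (kap_smooth hR hp i j)
  exact h

theorem b2d_pd {d : ℕ} {f : H31R.EE d → ℝ} {x : H31R.EE d} (hf : ContDiffAt ℝ ∞ f x) (k : Fin d) :
    ContDiffAt ℝ ∞ (H31R.pd k f) x := by
  have h : ContDiffAt ℝ ∞ (fun y => fderiv ℝ f y (H31R.ebas k)) x :=
    (hf.fderiv_right (m := ∞) (by simp)).clm_apply contDiffAt_const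
  exact h

theorem b2d_ric {d : ℕ} {G : H31R.EE d → Matrix (Fin d) (Fin d) ℝ} {x : H31R.EE d} (h : MetAt G x) (i j : Fin d) :
    ContDiffAt ℝ ∞ (H31R.ric G i j) x := by
  have hc : ∀ a b c, ContDiffAt ℝ ∞ (H31R.chr G a b c) x := fun a b c => (chr_smooth h a b c).self_of_nhds
  have e : ContDiffAt ℝ ∞ (fun y => ∑ k, (H31R.pd k (H31R.chr G k i j) y - H31R.pd j (H31R.chr G k i k) y
    + ∑ l, (H31R.chr G k k l y * H31R.chr G l i j y - H31R.chr G k j l y * H31R.chr G l i k y))) x :=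
    ContDiffAt.sum fun k _ => ((b2d_pd (hc k i j) k).sub (b2d_pd (hc k i k) j)).add
      (ContDiffAt.sum fun l _ => ((hc k k l).mul (hc l i j)).sub ((hc k j l).mul (hc l i k)))
  exact e

/-- `H31R.ric` is smooth near `Φ p`. -/
theorem Ric_smooth (hR : Reg G Ψ W) {p : ℝ × E3} (hp : p ∈ W) {A B : ℝ × E3 → Fin 4 → ℝ}
    (hA : ∀ a, ContDiffAt ℝ ∞ (fun q => A q a) p) (hB : ∀ a, ContDiffAt ℝ ∞ (fun q => B q a) p) :
    ContDiffAt ℝ ∞ (fun q => Ric G (Ph Ψ q) (A q) (B q)) p := by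
  have h : ContDiffAt ℝ ∞ (fun q => ∑ i, ∑ j, H31R.ric G i j (Ph Ψ q) * A q i * B q j) p :=
    ContDiffAt.sum fun i _ => ContDiffAt.sum fun j _ =>
      (((b2d_ric (hR.met p hp) i j).comp p (hR.smooth p hp)).mul (hA i)).mul (hB j)
  exact h

end H17W
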