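import Pool.Agent.Lib.H17W.B2B
import Pool.Agent.Lib.H17W.B2D

set_option autoImplicit false

/-!
# H17W, chunk B2E (M): algebra, smoothness and homogeneity of the fields

Auxiliary names start with `b2e_`.
-/

open MeasureTheory Filter Topology Set
open scoped ContDiff

namespace H17W

open H17T (E4 pt pos)
open Pool.Agent.Lib.PenroseSph (E3 S2 sm)

variable {G : E4 → Matrix (Fin 4) (Fin 4) ℝ} {Ψ : ℝ × E3 → E4} {W : Set (ℝ × E3)}

theorem b2e_hh (s : ℝ) (x : E3) {c : ℝ} (hc : 0 < c) (i j : Fin 3) :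
    hh G Ψ i j (s, c • x) = hh G Ψ i j (s, x) / c ^ 2 := by
  unfold hh ipp
  rw [Ph_hom s x hc, XX_hom s x hc, XX_hom s x hc, ip_smul_left, ip_smul_right]
  field_simp

theorem b2e_PP (s : ℝ) (x : E3) {c : ℝ} (hc : 0 < c) (i j : Fin 3) :
    PP G Ψ (s, c • x) i j = PP G Ψ (s, x) i j / c ^ 2 := by
  have hc0 : c ≠ 0 := hc.ne'
  have e : (s, c • x).2 = c • x := rfl
  have e' : (s, x).2 = x := rfl
  have e2 : ‖c • x‖ = c * ‖x‖ := by rw [norm_smul, Real.norm_of_nonneg hc.le]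
  simp only [PP, Matrix.of_apply]
  rw [b2e_hh s x hc i j, e2]
  have e3 : (c • x) i = c * x i := rfl
  have e4 : (c • x) j = c * x j := rfl
  rw [e3, e4, add_div]
  congr 1
  by_cases hx : ‖x‖ = 0
  · rw [hx]
    simp
  · field_simp

/-- For `s ≥ 0` the metric `PP(s, ·)` is a cylinder metric. -/
theorem PP_cyl (hR : Reg G Ψ W) {s : ℝ} (hs : 0 ≤ s) : Cyl fun x => PP G Ψ (s, x) := by
  refine ⟨?_, ?_, ?_, ?_, ?_⟩
  · intro x hx i j
    have h1 : ContDiffAt ℝ ∞ (fun y : E3 => ((s, y) : ℝ × E3)) x := contDiffAt_const.prodMk contDiffAt_id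
    exact (PP_smooth hR (hR.mem s hs x hx) i j).comp x h1
  · intro x hx i j
    show PP G Ψ (s, x) i j = PP G Ψ (s, x) j i
    simp only [PP, Matrix.of_apply]
    rw [hh_symm hR (hR.mem s hs x hx) i j, mul_comm (x i) (x j)]
  · intro x hx ξ hξ
    exact hR.pos (s, x) (hR.mem s hs x hx) ξ hξ
  · intro x hx c hc i j
    exact b2e_PP s x hc i j
  · intro x hx i
    exact PP_rad hR (hR.mem s hs x hx) i

/-- `QQ` has degree `2`. -/
theorem QQ_hom (hR : Reg G Ψ W) {s : ℝ} (hs : 0 ≤ s) {x : E3} (hx : x ≠ 0) {c : ℝ} (hc : 0 < c) (i j : Fin 3) :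
    QQ G Ψ i j (s, c • x) = c ^ 2 * QQ G Ψ i j (s, x) := by
  have hc0 : c ≠ 0 := hc.ne'
  have hdet : IsUnit (PP G Ψ (s, x)).det := (PP_det hR (hR.mem s hs x hx)).ne'.isUnit
  have e1 : PP G Ψ (s, c • x) = (c ^ 2)⁻¹ • PP G Ψ (s, x) := by
    ext a b
    rw [b2e_PP s x hc a b, Matrix.smul_apply, smul_eq_mul]
    ring
  have e2 : (PP G Ψ (s, c • x))⁻¹ = (c ^ 2) • (PP G Ψ (s, x))⁻¹ := by
    apply Matrix.inv_eq_right_inv
    rw [e1, Matrix.smul_mul, Matrix.mul_smul, Matrix.mul_nonsing_inv _ hdet, smul_smul,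
      inv_mul_cancel₀ (pow_ne_zero 2 hc0), one_smul]
  unfold QQ
  rw [e2, Matrix.smul_apply, smul_eq_mul]
  show c ^ 2 * (PP G Ψ (s, x))⁻¹ i j - (c * x i) * (c * x j) = c ^ 2 * ((PP G Ψ (s, x))⁻¹ i j - x i * x j)
  ring

theorem b2e_Zp (hR : Reg G Ψ W) {s : ℝ} (hs : 0 ≤ s) {x : E3} (hx : x ≠ 0) {c : ℝ} (hc : 0 < c) :
    Zp G Ψ (s, c • x) = Zp G Ψ (s, x) := by
  have hc0 : c ≠ 0 := hc.ne'
  funext a
  unfold Zp ZZ
  rw [Ph_hom s x hc]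
  congr 1
  refine Finset.sum_congr rfl fun i _ => Finset.sum_congr rfl fun j _ => ?_
  rw [QQ_hom hR hs hx hc, XX_hom s x hc, XX_hom s x hc, Pi.smul_apply, Pi.smul_apply, smul_eq_mul, smul_eq_mul]
  field_simp

/-- `k` has degree `0`. -/
theorem kk_hom (hR : Reg G Ψ W) {s : ℝ} (hs : 0 ≤ s) {x : E3} (hx : x ≠ 0) {c : ℝ} (hc : 0 < c) :
    kk G Ψ (s, c • x) = kk G Ψ (s, x) := by
  funext a
  unfold kk ipp
  rw [Ph_hom s x hc, LL_hom s x hc, b2e_Zp hR hs hx hc]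

theorem b2e_covL (hR : Reg G Ψ W) {s : ℝ} (hs : 0 ≤ s) {x : E3} (hx : x ≠ 0) {c : ℝ} (hc : 0 < c) (i : Fin 3) :
    cov G (Ph Ψ) (LL Ψ) (s, c • x) (dX i) = c⁻¹ • cov G (Ph Ψ) (LL Ψ) (s, x) (dX i) := by
  have hc0 : c ≠ 0 := hc.ne'
  have hcx : c • x ≠ 0 := smul_ne_zero hc0 hx
  funext a
  have hv : vel (Ph Ψ) (s, c • x) (dX i) = c⁻¹ • vel (Ph Ψ) (s, x) (dX i) := XX_hom s x hc i
  have hfd : fderiv ℝ (fun y => LL Ψ y a) (s, c • x) (dX i) = c⁻¹ * fderiv ℝ (fun y => LL Ψ y a) (s, x) (dX i) := by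
    let m : ℝ × E3 →L[ℝ] ℝ × E3 :=
      (ContinuousLinearMap.fst ℝ ℝ E3).prod (c • ContinuousLinearMap.snd ℝ ℝ E3)
    have hm : ∀ q : ℝ × E3, m q = (q.1, c • q.2) := fun q => rfl
    have hcomp : (fun y => LL Ψ y a) ∘ m = fun y => LL Ψ y a := by
      funext q
      show LL Ψ (m q) a = LL Ψ q a
      rw [hm, LL_hom q.1 q.2 hc]
    have hd : DifferentiableAt ℝ (fun y => LL Ψ y a) (m (s, x)) :=
      (LL_smooth hR (hR.mem s hs (c • x) hcx) a).differentiableAt (by simp)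
    have h1 : fderiv ℝ ((fun y => LL Ψ y a) ∘ m) (s, x) = (fderiv ℝ (fun y => LL Ψ y a) (m (s, x))).comp m := by
      rw [fderiv_comp (s, x) hd m.differentiableAt, m.fderiv]
    rw [hcomp] at h1
    have h2 : m (dX i) = c • dX i := by
      rw [hm]
      show ((0 : ℝ), c • EuclideanSpace.single i (1 : ℝ)) = c • ((0 : ℝ), EuclideanSpace.single i (1 : ℝ))
      rw [Prod.smul_mk, smul_zero]
    have h3 : fderiv ℝ (fun y => LL Ψ y a) (s, x) (dX i) = c * fderiv ℝ (fun y => LL Ψ y a) (s, c • x) (dX i) := by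
      rw [h1]
      show fderiv ℝ (fun y => LL Ψ y a) (m (s, x)) (m (dX i)) = _
      rw [h2, map_smul, smul_eq_mul, hm]
    rw [h3, ← mul_assoc, inv_mul_cancel₀ hc0, one_mul]
  show fderiv ℝ (fun y => LL Ψ y a) (s, c • x) (dX i) + gam G (Ph Ψ (s, c • x)) (vel (Ph Ψ) (s, c • x) (dX i)) (LL Ψ (s, c • x)) a =
    c⁻¹ * (fderiv ℝ (fun y => LL Ψ y a) (s, x) (dX i) + gam G (Ph Ψ (s, x)) (vel (Ph Ψ) (s, x) (dX i)) (LL Ψ (s, x)) a)
  rw [hfd, hv, Ph_hom s x hc, LL_hom s x hc, mul_add]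
  congr 1
  unfold gam
  rw [Finset.mul_sum]
  refine Finset.sum_congr rfl fun k _ => ?_
  rw [Finset.mul_sum]
  refine Finset.sum_congr rfl fun l _ => ?_
  rw [Pi.smul_apply, smul_eq_mul]
  ring

/-- `χ` has degree `-2` (the derivative in the direction `∂_i` of a field of degree `0` has degree `-1`). -/
theorem chi_hom (hR : Reg G Ψ W) {s : ℝ} (hs : 0 ≤ s) {x : E3} (hx : x ≠ 0) {c : ℝ} (hc : 0 < c) (i j : Fin 3) :
    chi G Ψ i j (s, c • x) = chi G Ψ i j (s, x) / c ^ 2 := by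
  unfold chi
  rw [b2e_covL hR hs hx hc, XX_hom s x hc, Ph_hom s x hc, ip_smul_left, ip_smul_right]
  field_simp

theorem zet_hom (hR : Reg G Ψ W) {s : ℝ} (hs : 0 ≤ s) {x : E3} (hx : x ≠ 0) {c : ℝ} (hc : 0 < c) (i : Fin 3) :
    zet G Ψ i (s, c • x) = zet G Ψ i (s, x) / c := by
  unfold zet
  rw [b2e_covL hR hs hx hc, kk_hom hR hs hx hc, Ph_hom s x hc, ip_smul_left]
  field_simp

theorem exl_hom (hR : Reg G Ψ W) {s : ℝ} (hs : 0 ≤ s) {x : E3} (hx : x ≠ 0) {c : ℝ} (hc : 0 < c) :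
    exl G Ψ (s, c • x) = exl G Ψ (s, x) := by
  have hc0 : c ≠ 0 := hc.ne'
  unfold exl
  refine Finset.sum_congr rfl fun i _ => Finset.sum_congr rfl fun j _ => ?_
  rw [QQ_hom hR hs hx hc, chi_hom hR hs hx hc]
  field_simp

theorem dA_hom (hR : Reg G Ψ W) {s : ℝ} (hs : 0 ≤ s) {x : E3} (hx : x ≠ 0) {c : ℝ} (hc : 0 < c) :
    dA G Ψ (s, c • x) = dA G Ψ (s, x) / c ^ 3 := by
  have hc0 : c ≠ 0 := hc.ne'
  have e1 : PP G Ψ (s, c • x) = (c ^ 2)⁻¹ • PP G Ψ (s, x) := by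
    ext a b
    rw [b2e_PP s x hc a b, Matrix.smul_apply, smul_eq_mul]
    ring
  unfold dA
  rw [e1, Matrix.det_smul, Fintype.card_fin]
  have e2 : ((c ^ 2)⁻¹) ^ 3 = ((c ^ 3)⁻¹) ^ 2 := by
    rw [← inv_pow, ← inv_pow]
    ring
  rw [e2, Real.sqrt_mul (by positivity), Real.sqrt_sq (by positivity)]
  ring

end H17W
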