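import Pool.Agent.Lib.H17W.C9

set_option autoImplicit false

/-!
# H17W, chunk C10 (S/M): the Einstein tensor against the variation
-/

open MeasureTheory Filter Topology Set
open scoped ContDiff

namespace H17W

open Pool.Agent.Lib.PenroseSph (E3 S2 sm pd)

variable {Pt : ℝ → E3 → Matrix (Fin 3) (Fin 3) ℝ} {t : ℝ} {x : E3}

/-- Differentiate `Cyl.rad` in `t` (the entries are differentiable: `Fam.smooth`). -/
theorem Pd_rad (hF : Fam Pt) (hx : x ≠ 0) (i : Fin 3) : ∑ j, Pd Pt i j t x * x j = 0 := by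
  have hd : ∀ j, HasDerivAt (fun s => Pt s x i j) (Pd Pt i j t x) t := by
    intro j
    have h1 : ContDiffAt ℝ ∞ (fun s : ℝ => Pt s x i j) t := by
      have h2 := (hF.smooth t x hx i j).comp t (f := fun s : ℝ => (s, x))
        (contDiffAt_id.prodMk contDiffAt_const)
      exact h2
    exact (h1.differentiableAt (by simp)).hasDerivAt
  have hs : HasDerivAt (fun s => ∑ j, Pt s x i j * x j) (∑ j, Pd Pt i j t x * x j) t :=
    HasDerivAt.fun_sum fun j _ => (hd j).mul_const (x j)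
  have hc : (fun s => ∑ j, Pt s x i j * x j) = fun _ => x i / ‖x‖ ^ 2 := by
    funext s
    exact (hF.cyl s).rad x hx i
  rw [hc] at hs
  exact hs.unique (hasDerivAt_const t _)

theorem c10_ein {P : E3 → Matrix (Fin 3) (Fin 3) ℝ} (hP : Cyl P) (hx : x ≠ 0) (i j : Fin 3) :
    ein P i j x = -(scal P x / 2) * (x i * x j) := by
  have hn : ‖x‖ ^ 2 ≠ 0 := pow_ne_zero 2 (norm_ne_zero_iff.mpr hx)
  have h1 : ∀ b, ∑ a, (P x)⁻¹ i a * P x a b = if i = b then 1 else 0 := fun b => hP.inv_mul hx i b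
  have h2 := hP.inv_rad hx i
  have h3 := hP.inv_rad hx j
  have e1 : ∑ a, ∑ b, (P x)⁻¹ i a * (P x)⁻¹ j b * H31R.ric P a b x
      = scal P x / 2 * (∑ b, (∑ a, (P x)⁻¹ i a * P x a b) * (P x)⁻¹ j b
        - (∑ a, (P x)⁻¹ i a * (x a / ‖x‖ ^ 2)) * (∑ b, (P x)⁻¹ j b * (x b / ‖x‖ ^ 2))) := by
    simp only [ric_cyl hP hx]
    rw [show ‖x‖ ^ 4 = ‖x‖ ^ 2 * ‖x‖ ^ 2 by ring]
    simp only [Fin.sum_univ_three]
    field_simp
    ring
  unfold ein
  rw [e1, h2, h3]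
  simp only [h1]
  have e2 : ∑ b, (if i = b then (1 : ℝ) else 0) * (P x)⁻¹ j b = (P x)⁻¹ j i := by
    simp
  rw [e2, hP.inv_symm hx j i]
  ring

/-- By `ric_cyl`: `Σ_ab K_ia K_jb ric_ab = scal/2 (K_ij - x_i x_j)` (`K P = 1`, `K (x/‖x‖²) = x`), so
`ein i j = - scal/2 x_i x_j` and the sum is `- scal/2 Σ_i x_i Σ_j Pd_ij x_j = 0`. -/
theorem ein_Pd (hF : Fam Pt) (hx : x ≠ 0) : ∑ i, ∑ j, ein (Pt t) i j x * Pd Pt i j t x = 0 := by
  have h : ∀ i, ∑ j, ein (Pt t) i j x * Pd Pt i j t x = 0 := by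
    intro i
    have e : ∀ j, ein (Pt t) i j x * Pd Pt i j t x
        = -(scal (Pt t) x / 2) * x i * (Pd Pt i j t x * x j) := by
      intro j
      rw [c10_ein (hF.cyl t) hx]
      ring
    simp only [e]
    rw [← Finset.mul_sum, Pd_rad hF hx, mul_zero]
  simp only [h]
  simp

end H17W
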