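import Pool.Agent.Lib.H17W.C5

set_option autoImplicit false

/-!
# H17W, chunk C5B (S): homogeneity of the variation
-/

open MeasureTheory Filter Topology Set
open scoped ContDiff

namespace H17W

open Pool.Agent.Lib.PenroseSph (E3 S2 sm pd)

variable {Pt : ℝ → E3 → Matrix (Fin 3) (Fin 3) ℝ} {t : ℝ} {x : E3} {c : ℝ}

/-- Derivative in `t` of `Cyl.hom_chr` (`deriv_div_const`; the functions of `s` are equal). -/
theorem hom_CC (hF : Fam Pt) (hx : x ≠ 0) (hc : 0 < c) (k i j : Fin 3) :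
    CC Pt k i j t (c • x) = CC Pt k i j t x / c := by
  unfold CC
  have h : (fun s => H31R.chr (Pt s) k i j (c • x)) = fun s => H31R.chr (Pt s) k i j x / c := by
    funext s
    exact (hF.cyl s).hom_chr hx hc k i j
  rw [h, deriv_div_const]

/-- `Cyl.hom_sdet`, `Cyl.hom_inv`, `hom_CC`: degree `-3 + 2 - 1`. -/
theorem hom_vv (hF : Fam Pt) (hx : x ≠ 0) (hc : 0 < c) (k : Fin 3) :
    Real.sqrt (Pt t (c • x)).det * vv Pt k t (c • x) = Real.sqrt (Pt t x).det * vv Pt k t x / c ^ 2 := by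
  have hP := hF.cyl t
  have h : vv Pt k t (c • x) = c * vv Pt k t x := by
    unfold vv
    rw [Finset.mul_sum]
    refine Finset.sum_congr rfl fun i _ => ?_
    rw [Finset.mul_sum]
    refine Finset.sum_congr rfl fun j _ => ?_
    rw [hP.hom_inv hx hc, hP.hom_inv hx hc, hom_CC hF hx hc, hom_CC hF hx hc]
    field_simp
  rw [h, hP.hom_sdet hx hc]
  field_simp

end H17W
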