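import Pool.Agent.Lib.H17W.C0

set_option autoImplicit false

/-!
# H17W, chunk C3 (M): functions of `t` and `x`
-/

open MeasureTheory Filter Topology Set
open scoped ContDiff

namespace H17W

open Pool.Agent.Lib.PenroseSph (E3 S2 sm pd)

variable {h : ℝ × E3 → ℝ} {t : ℝ} {x : E3}

theorem c3_pdeq {g : ℝ × E3 → ℝ} {z : ℝ × E3} (hg : DifferentiableAt ℝ g z) (k : Fin 3) :
    H31R.pd k (fun y => g (z.1, y)) z.2 = fderiv ℝ g z (0, H31R.ebas k) := by
  unfold H31R.pd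
  have h1 : HasFDerivAt (fun y : E3 => (z.1, y)) (ContinuousLinearMap.inr ℝ ℝ E3) z.2 := hasFDerivAt_prodMk_right z.1 z.2
  have h2 : HasFDerivAt g (fderiv ℝ g z) (z.1, z.2) := hg.hasFDerivAt
  have h3 := h2.comp z.2 h1
  have h4 : fderiv ℝ (fun y => g (z.1, y)) z.2 = (fderiv ℝ g z).comp (ContinuousLinearMap.inr ℝ ℝ E3) := h3.fderiv
  rw [h4]
  simp

theorem c3_dteq {g : ℝ × E3 → ℝ} {z : ℝ × E3} (hg : DifferentiableAt ℝ g z) :
    HasDerivAt (fun s => g (s, z.2)) (fderiv ℝ g z (1, 0)) z.1 := by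
  have h1 : HasFDerivAt (fun y : ℝ => (y, z.2)) (ContinuousLinearMap.inl ℝ ℝ E3) z.1 := hasFDerivAt_prodMk_left z.1 z.2
  have h2 : HasFDerivAt g (fderiv ℝ g z) (z.1, z.2) := hg.hasFDerivAt
  have h3 : HasDerivAt (fun s => g (s, z.2)) (((fderiv ℝ g z).comp (ContinuousLinearMap.inl ℝ ℝ E3)) 1) z.1 := (h2.comp z.1 h1).hasDerivAt
  simpa using h3

theorem c3_ev {g : ℝ × E3 → ℝ} {z : ℝ × E3} (hg : ContDiffAt ℝ ∞ g z) : ∀ᶠ w in 𝓝 z, DifferentiableAt ℝ g w := by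
  have h1 : ContDiffAt ℝ 1 g z := hg.of_le (by exact_mod_cast le_top)
  filter_upwards [h1.eventually (by simp)] with w hw
  exact hw.differentiableAt (by simp)

theorem c3_fd {g : ℝ × E3 → ℝ} {z : ℝ × E3} (hg : ContDiffAt ℝ ∞ g z) (v : ℝ × E3) :
    ContDiffAt ℝ ∞ (fun w => fderiv ℝ g w v) z := by
  have h1 : ContDiffAt ℝ ∞ (fderiv ℝ g) z := hg.fderiv_right (by simp)
  exact h1.clm_apply contDiffAt_const

theorem c3_fd2 {g : ℝ × E3 → ℝ} {z : ℝ × E3} (hg : ContDiffAt ℝ ∞ g z) (v w : ℝ × E3) :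
    fderiv ℝ (fun w => fderiv ℝ g w v) z w = fderiv ℝ (fderiv ℝ g) z w v := by
  have h1 : ContDiffAt ℝ ∞ (fderiv ℝ g) z := hg.fderiv_right (by simp)
  have h2 : DifferentiableAt ℝ (fderiv ℝ g) z := h1.differentiableAt (by simp)
  have h3 : HasFDerivAt (fun w => fderiv ℝ g w v) ((ContinuousLinearMap.apply ℝ ℝ v).comp (fderiv ℝ (fderiv ℝ g) z)) z :=
    (ContinuousLinearMap.apply ℝ ℝ v).hasFDerivAt.comp z h2.hasFDerivAt
  rw [h3.fderiv]
  simp

/-- Near `(t, x)` the function `h` is differentiable (`ContDiffAt.eventually` for order one), and there the partial derivative is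
`fderiv ℝ h z (0, e_k)` (chain rule with the affine map `y ↦ (z.1, y)`); `fderiv ℝ h` is smooth at `(t, x)`
(`ContDiffAt.fderiv_right`); `ContDiffAt.congr_of_eventuallyEq`. -/
theorem j_pd (hh : ContDiffAt ℝ ∞ h (t, x)) (k : Fin 3) :
    ContDiffAt ℝ ∞ (fun z : ℝ × E3 => H31R.pd k (fun y => h (z.1, y)) z.2) (t, x) := by
  refine (c3_fd hh (0, H31R.ebas k)).congr_of_eventuallyEq ?_
  filter_upwards [c3_ev hh] with z hz
  exact c3_pdeq hz k

/-- As `j_pd`, with `fderiv ℝ h z (1, 0)`. -/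
theorem j_dt (hh : ContDiffAt ℝ ∞ h (t, x)) : ContDiffAt ℝ ∞ (fun z : ℝ × E3 => deriv (fun s => h (s, z.2)) z.1) (t, x) := by
  refine (c3_fd hh (1, 0)).congr_of_eventuallyEq ?_
  filter_upwards [c3_ev hh] with z hz
  exact (c3_dteq hz).deriv

/-- `(s, x) ↦ pd k h (s, x)` is differentiable. -/
theorem j_has (hh : ContDiffAt ℝ ∞ h (t, x)) : HasDerivAt (fun s => h (s, x)) (deriv (fun s => h (s, x)) t) t := by
  have h1 : HasDerivAt (fun s => h (s, x)) (fderiv ℝ h (t, x) (1, 0)) t :=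
    c3_dteq (z := (t, x)) (hh.differentiableAt (by simp))
  exact h1.differentiableAt.hasDerivAt

/-- Mixed partial derivatives. Both sides are `D²h (t, x) (1, 0) (0, e_k)` (formulas of `j_pd`, `j_dt` near `(t, x)`,
`ContDiffAt.isSymmSndFDerivAt`; see e.g. `Pool/Agent/Lib/H31R/TA1.lean` line 236 for its use). -/
theorem j_comm (hh : ContDiffAt ℝ ∞ h (t, x)) (k : Fin 3) :
    HasDerivAt (fun s => H31R.pd k (fun y => h (s, y)) x) (H31R.pd k (fun y => deriv (fun s => h (s, y)) t) x) t := by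
  have hev := c3_ev hh
  have hs : ∀ᶠ s in 𝓝 t, DifferentiableAt ℝ h (s, x) := by
    have hc : Tendsto (fun s : ℝ => (s, x)) (𝓝 t) (𝓝 (t, x)) := (Continuous.prodMk_left x).tendsto t
    exact hc.eventually hev
  have hy : ∀ᶠ y in 𝓝 x, DifferentiableAt ℝ h (t, y) := by
    have hc : Tendsto (fun y : E3 => (t, y)) (𝓝 x) (𝓝 (t, x)) := (Continuous.prodMk_right t).tendsto x
    exact hc.eventually hev
  have e1 : (fun s => H31R.pd k (fun y => h (s, y)) x) =ᶠ[𝓝 t] fun s => fderiv ℝ h (s, x) (0, H31R.ebas k) := by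
    filter_upwards [hs] with s hs'
    exact c3_pdeq (z := (s, x)) hs' k
  have e2 : H31R.pd k (fun y => deriv (fun s => h (s, y)) t) x = H31R.pd k (fun y => fderiv ℝ h (t, y) (1, 0)) x := by
    unfold H31R.pd
    have : (fun y => deriv (fun s => h (s, y)) t) =ᶠ[𝓝 x] fun y => fderiv ℝ h (t, y) (1, 0) := by
      filter_upwards [hy] with y hy'
      exact (c3_dteq (z := (t, y)) hy').deriv
    rw [this.fderiv_eq]
  have d1 : HasDerivAt (fun s => fderiv ℝ h (s, x) (0, H31R.ebas k))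
      (fderiv ℝ (fun w => fderiv ℝ h w (0, H31R.ebas k)) (t, x) (1, 0)) t :=
    c3_dteq (g := fun w => fderiv ℝ h w (0, H31R.ebas k)) (z := (t, x)) ((c3_fd hh _).differentiableAt (by simp))
  have d2 : H31R.pd k (fun y => fderiv ℝ h (t, y) (1, 0)) x = fderiv ℝ (fun w => fderiv ℝ h w (1, 0)) (t, x) (0, H31R.ebas k) :=
    c3_pdeq (g := fun w => fderiv ℝ h w (1, 0)) (z := (t, x)) ((c3_fd hh _).differentiableAt (by simp)) k
  have hsym : IsSymmSndFDerivAt ℝ h (t, x) :=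
    hh.isSymmSndFDerivAt (by
      rw [minSmoothness_of_isRCLikeNormedField]
      exact WithTop.coe_le_coe.2 (le_top : (2 : ℕ∞) ≤ ⊤))
  rw [e2, d2, c3_fd2 hh]
  rw [c3_fd2 hh, hsym (1, 0) (0, H31R.ebas k)] at d1
  exact d1.congr_of_eventuallyEq e1

/-- Restriction to a fixed `t`. -/
theorem j_fix (hh : ContDiffAt ℝ ∞ h (t, x)) : ContDiffAt ℝ ∞ (fun y => h (t, y)) x := by
  have h1 : ContDiffAt ℝ ∞ (fun y : E3 => (t, y)) x := contDiffAt_const.prodMk contDiffAt_id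
  exact ContDiffAt.comp x (f := fun y : E3 => (t, y)) (g := h) hh h1

end H17W
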