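import Pool.Agent.Lib.H17W.CB1
import Pool.Agent.Lib.H17W.C3

set_option autoImplicit false

/-!
# H17W, chunk C4 (S/M): smoothness of the fields of a family of metrics
-/

open MeasureTheory Filter Topology Set
open scoped ContDiff

namespace H17W

open Pool.Agent.Lib.PenroseSph (E3 S2 sm pd)

variable {Pt : ℝ → E3 → Matrix (Fin 3) (Fin 3) ℝ} {t : ℝ} {x : E3}

/-- `H31R.N_inv_at`. -/
theorem j_inv (hF : Fam Pt) (hx : x ≠ 0) (i j : Fin 3) :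
    ContDiffAt ℝ ∞ (fun z : ℝ × E3 => (Pt z.1 z.2)⁻¹ i j) (t, x) :=
  H31R.N_inv_at (A := fun z : ℝ × E3 => Pt z.1 z.2) (fun i j => hF.smooth t x hx i j)
    ((hF.cyl t).det_pos hx).ne' i j

/-- `H31R.N_det_at`, `ContDiffAt.sqrt`. -/
theorem j_sdet (hF : Fam Pt) (hx : x ≠ 0) : ContDiffAt ℝ ∞ (fun z : ℝ × E3 => Real.sqrt (Pt z.1 z.2).det) (t, x) :=
  (H31R.N_det_at (A := fun z : ℝ × E3 => Pt z.1 z.2) (fun i j => hF.smooth t x hx i j)).sqrt
    ((hF.cyl t).det_pos hx).ne'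

/-- Unfold `H31R.chr`; `j_inv`, `j_pd`. -/
theorem j_chr (hF : Fam Pt) (hx : x ≠ 0) (k i j : Fin 3) :
    ContDiffAt ℝ ∞ (fun z : ℝ × E3 => H31R.chr (Pt z.1) k i j z.2) (t, x) := by
  unfold H31R.chr
  refine contDiffAt_const.mul (ContDiffAt.sum fun l _ => (j_inv hF hx k l).mul ?_)
  exact ((j_pd (hF.smooth t x hx j l) i).add (j_pd (hF.smooth t x hx i l) j)).sub (j_pd (hF.smooth t x hx i j) l)

/-- Unfold `H31R.ric`; `j_chr`, `j_pd` (with `h = fun z => H31R.chr (Pt z.1) k i j z.2`). -/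
theorem j_ric (hF : Fam Pt) (hx : x ≠ 0) (i j : Fin 3) :
    ContDiffAt ℝ ∞ (fun z : ℝ × E3 => H31R.ric (Pt z.1) i j z.2) (t, x) := by
  unfold H31R.ric
  refine ContDiffAt.sum fun k _ => ?_
  refine ((j_pd (j_chr hF hx k i j) k).sub (j_pd (j_chr hF hx k i k) j)).add (ContDiffAt.sum fun l _ => ?_)
  exact ((j_chr hF hx k k l).mul (j_chr hF hx l i j)).sub ((j_chr hF hx k j l).mul (j_chr hF hx l i k))

theorem j_scal (hF : Fam Pt) (hx : x ≠ 0) : ContDiffAt ℝ ∞ (fun z : ℝ × E3 => scal (Pt z.1) z.2) (t, x) := by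
  unfold scal
  exact ContDiffAt.sum fun i _ => ContDiffAt.sum fun j _ => (j_inv hF hx i j).mul (j_ric hF hx i j)

/-- `j_dt` and `j_chr`. -/
theorem j_CC (hF : Fam Pt) (hx : x ≠ 0) (k i j : Fin 3) :
    ContDiffAt ℝ ∞ (fun z : ℝ × E3 => CC Pt k i j z.1 z.2) (t, x) := by
  unfold CC
  exact j_dt (j_chr hF hx k i j)

theorem j_vv (hF : Fam Pt) (hx : x ≠ 0) (k : Fin 3) : ContDiffAt ℝ ∞ (fun z : ℝ × E3 => vv Pt k z.1 z.2) (t, x) := by
  unfold vv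
  refine ContDiffAt.sum fun i _ => ContDiffAt.sum fun j _ => ?_
  exact ((j_inv hF hx i j).mul (j_CC hF hx k i j)).sub ((j_inv hF hx k j).mul (j_CC hF hx i i j))

end H17W
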