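import Pool.Agent.Lib.H17W.C0

set_option autoImplicit false

/-!
# H17W, chunk C7 (M): the algebra of the Palatini identity
-/

namespace H17W

/-- The Palatini identity. `K` is the inverse metric, `Γ` the Christoffel symbols, `C` their variation, `dC m k i j = ∂_m C^k_ij`. On the
right: `∂_k (√det v^k) / √det`, `v^k = K_ij C^k_ij - K_kj C^i_ij`, with `∂_k √det = √det Γ^l_kl` and
`∂_m K_ij = - Γ^i_ml K_lj - Γ^j_ml K_il`.
Proof. Covariantly `K_ij (∇_k C^k_ij - ∇_j C^k_ik) = ∇_k v^k`. The terms with `dC` agree (rename the indices: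
`Σ K_ij dC j k i k = Σ K_kj dC k i i j` by the symmetries), the terms with `Γ`: on the left
`K_ij (C^k_kl Γ^l_ij + Γ^k_kl C^l_ij - C^k_jl Γ^l_ik - Γ^k_jl C^l_ik)`, on the right `Γ^l_kl v^k + dK C`, each is a sum of products
`Γ K C`. Either by brute force (`simp only [Fin.sum_univ_three]`, rewrite all entries to a normal form with the symmetries, `ring`;
it helps to split according to the three entries of `Γ`), or by renaming indices with `Finset.sum_comm`. -/
theorem palatini_alg {K : Fin 3 → Fin 3 → ℝ} {Γ C : Fin 3 → Fin 3 → Fin 3 → ℝ} {dC : Fin 3 → Fin 3 → Fin 3 → Fin 3 → ℝ}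
    (hK : ∀ i j, K i j = K j i) (hΓ : ∀ k i j, Γ k i j = Γ k j i) (hC : ∀ k i j, C k i j = C k j i)
    (hdC : ∀ m k i j, dC m k i j = dC m k j i) :
    ∑ i, ∑ j, K i j * (∑ k, (dC k k i j - dC j k i k +
        ∑ l, (C k k l * Γ l i j + Γ k k l * C l i j - C k j l * Γ l i k - Γ k j l * C l i k))) =
      ∑ k, ((∑ l, Γ l k l) * (∑ i, ∑ j, (K i j * C k i j - K k j * C i i j)) +
        ∑ i, ∑ j, ((-∑ l, (Γ i k l * K l j + Γ j k l * K i l)) * C k i j + K i j * dC k k i j -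
          (-∑ l, (Γ k k l * K l j + Γ j k l * K k l)) * C i i j - K k j * dC k i i j)) := by
  simp only [Fin.sum_univ_three]
  rw [hK 1 0, hK 2 0, hK 2 1]
  simp only [hΓ _ 1 0, hΓ _ 2 0, hΓ _ 2 1, hC _ 1 0, hC _ 2 0, hC _ 2 1, hdC _ _ 1 0, hdC _ _ 2 0, hdC _ _ 2 1]
  ring

end H17W
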