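import Pool.Agent.Lib.H17W.CB3
import Pool.Agent.Lib.H17W.C4
import Pool.Agent.Lib.H17W.C7

set_option autoImplicit false

/-!
# H17W, chunk C8A (M): the divergence term of the variation
-/

open MeasureTheory Filter Topology Set
open scoped ContDiff

namespace H17W

open Pool.Agent.Lib.PenroseSph (E3 S2 sm pd)

variable {Pt : ℝ → E3 → Matrix (Fin 3) (Fin 3) ℝ} {t : ℝ} {x : E3}

/-- `C^k_ij` is symmetric in `i`, `j`, also its derivatives (near `x` the functions `CC Pt k i j t` and `CC Pt k j i t` are equal, by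
`Cyl.chr_symm` for all `s`; `H31R.N_pd_congr`). -/
theorem CC_symm (hF : Fam Pt) (hx : x ≠ 0) (k i j : Fin 3) : CC Pt k i j t x = CC Pt k j i t x := by
  unfold CC
  congr 1
  funext s
  exact (hF.cyl s).chr_symm hx k i j

theorem pd_CC_symm (hF : Fam Pt) (hx : x ≠ 0) (m k i j : Fin 3) :
    H31R.pd m (CC Pt k i j t) x = H31R.pd m (CC Pt k j i t) x := by
  refine H31R.N_pd_congr m ?_
  filter_upwards [isOpen_ne.mem_nhds hx] with y hy
  exact CC_symm hF hy k i j

/-- Product rule (`H31R.N_pd_mul`, `H31R.N_pd_sum`, all factors are differentiable at `x`: `j_fix` of `j_sdet`, `j_inv`, `j_CC`), then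
`Cyl.sdet_chr`, `Cyl.inv_chr` and `palatini_alg` with `K = (Pt t x)⁻¹`, `Γ k i j = chr`, `C = CC`, `dC m k i j = pd m (CC Pt k i j t) x`
(factor `√det` out of the sum over `k`). -/
theorem pal_div (hF : Fam Pt) (hx : x ≠ 0) :
    ∑ k, H31R.pd k (fun y => Real.sqrt (Pt t y).det * vv Pt k t y) x =
      Real.sqrt (Pt t x).det * ∑ i, ∑ j, (Pt t x)⁻¹ i j *
        (∑ k, (H31R.pd k (CC Pt k i j t) x - H31R.pd j (CC Pt k i k t) x +
          ∑ l, (CC Pt k k l t x * H31R.chr (Pt t) l i j x + H31R.chr (Pt t) k k l x * CC Pt l i j t x -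
            CC Pt k j l t x * H31R.chr (Pt t) l i k x - H31R.chr (Pt t) k j l x * CC Pt l i k t x))) := by
  have hcyl := hF.cyl t
  have e := palatini_alg (K := fun i j => (Pt t x)⁻¹ i j) (Γ := fun k i j => H31R.chr (Pt t) k i j x)
    (C := fun k i j => CC Pt k i j t x) (dC := fun m k i j => H31R.pd m (CC Pt k i j t) x)
    (fun i j => hcyl.inv_symm hx i j) (fun k i j => hcyl.chr_symm hx k i j) (fun k i j => CC_symm hF hx k i j)
    (fun m k i j => pd_CC_symm hF hx m k i j)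
  beta_reduce at e
  rw [e, Finset.mul_sum]
  refine Finset.sum_congr rfl fun k _ => ?_
  have dsd : DifferentiableAt ℝ (fun y => Real.sqrt (Pt t y).det) x :=
    (j_fix (h := fun z : ℝ × E3 => Real.sqrt (Pt z.1 z.2).det) (j_sdet hF hx)).differentiableAt (by simp)
  have dK : ∀ i j, DifferentiableAt ℝ (fun y => (Pt t y)⁻¹ i j) x := fun i j =>
    (j_fix (h := fun z : ℝ × E3 => (Pt z.1 z.2)⁻¹ i j) (j_inv hF hx i j)).differentiableAt (by simp)
  have dC : ∀ k i j, DifferentiableAt ℝ (fun y => CC Pt k i j t y) x := fun k i j =>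
    (j_fix (h := fun z : ℝ × E3 => CC Pt k i j z.1 z.2) (j_CC hF hx k i j)).differentiableAt (by simp)
  have dvv : DifferentiableAt ℝ (fun y => vv Pt k t y) x :=
    (j_fix (h := fun z : ℝ × E3 => vv Pt k z.1 z.2) (j_vv hF hx k)).differentiableAt (by simp)
  have dT : ∀ i j, DifferentiableAt ℝ (fun y => (Pt t y)⁻¹ i j * CC Pt k i j t y - (Pt t y)⁻¹ k j * CC Pt i i j t y) x :=
    fun i j => ((dK i j).mul (dC k i j)).sub ((dK k j).mul (dC i i j))
  have e2 : H31R.pd k (fun y => vv Pt k t y) x = ∑ i, ∑ j,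
      ((-∑ l, (H31R.chr (Pt t) i k l x * (Pt t x)⁻¹ l j + H31R.chr (Pt t) j k l x * (Pt t x)⁻¹ i l)) * CC Pt k i j t x +
        (Pt t x)⁻¹ i j * H31R.pd k (CC Pt k i j t) x -
        (-∑ l, (H31R.chr (Pt t) k k l x * (Pt t x)⁻¹ l j + H31R.chr (Pt t) j k l x * (Pt t x)⁻¹ k l)) * CC Pt i i j t x -
        (Pt t x)⁻¹ k j * H31R.pd k (CC Pt i i j t) x) := by
    unfold vv
    rw [H31R.N_pd_sum _ _ (fun i _ => DifferentiableAt.fun_sum fun j _ => dT i j)]
    refine Finset.sum_congr rfl fun i _ => ?_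
    rw [H31R.N_pd_sum _ _ (fun j _ => dT i j)]
    refine Finset.sum_congr rfl fun j _ => ?_
    have m1 : DifferentiableAt ℝ (fun y => (Pt t y)⁻¹ i j * CC Pt k i j t y) x := (dK i j).mul (dC k i j)
    have m2 : DifferentiableAt ℝ (fun y => (Pt t y)⁻¹ k j * CC Pt i i j t y) x := (dK k j).mul (dC i i j)
    have q0 := H31R.N_pd_sub m1 m2 k
    have q1 := H31R.N_pd_mul (dK i j) (dC k i j) k
    have q2 := H31R.N_pd_mul (dK k j) (dC i i j) k
    have q3 := hcyl.inv_chr hx k i j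
    have q4 := hcyl.inv_chr hx k k j
    rw [q0, q1, q2, q3, q4]
    ring
  rw [H31R.N_pd_mul dsd dvv, hcyl.sdet_chr hx k, e2]
  unfold vv
  ring

end H17W
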