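import Pool.Agent.Lib.H17W.C6
import Pool.Agent.Lib.H17W.C8A

set_option autoImplicit false

/-!
# H17W, chunk C8 (M): the variation of the Lagrangian
-/

open MeasureTheory Filter Topology Set
open scoped ContDiff

namespace H17W

open Pool.Agent.Lib.PenroseSph (E3 S2 sm pd)

variable {Pt : ℝ → E3 → Matrix (Fin 3) (Fin 3) ℝ} {t : ℝ} {x : E3}

/-- Exchange of two pairs of indices. -/
theorem c8_swap (F : Fin 3 → Fin 3 → Fin 3 → Fin 3 → ℝ) :
    ∑ i, ∑ j, ∑ a, ∑ b, F i j a b = ∑ i, ∑ j, ∑ a, ∑ b, F a b i j := by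
  have h1 : ∀ i, ∑ j, ∑ a, ∑ b, F i j a b = ∑ a, ∑ b, ∑ j, F i j a b := by
    intro i
    rw [Finset.sum_comm]
    exact Finset.sum_congr rfl fun a _ => Finset.sum_comm
  have h2 : ∑ i, ∑ j, ∑ a, ∑ b, F i j a b = ∑ i, ∑ a, ∑ b, ∑ j, F i j a b :=
    Finset.sum_congr rfl fun i _ => h1 i
  rw [h2, Finset.sum_comm]
  exact Finset.sum_congr rfl fun a _ => Finset.sum_comm

/-- `scal = Σ K_ij ric_ij` with `K = (Pt s x)⁻¹`. Derivatives in `s` at `t`: of `Pt s x i j`: `Pd Pt i j t x` (`Fam.smooth`, `j_has`), of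
`K_ij`: `hasDerivAt_minv`, of `√det`: `hasDerivAt_sdet`, of `ric_ij`: `dt_ric`. Product rule: the derivative is
`√det (- Σ_ij Σ_ab K_ia Ṗ_ab K_bj ric_ij + Σ_ij K_ij ric'_ij) + scal √det / 2 Σ_ab K_ab Ṗ_ab`; the term with `ric'` is `pal_div`, the first
and the last one give `- √det Σ ein^ab Ṗ_ab` (`K` symmetric: `Cyl.inv_symm`; exchange the sums). -/
theorem dt_lagr (hF : Fam Pt) (hx : x ≠ 0) :
    HasDerivAt (fun s => scal (Pt s) x * Real.sqrt (Pt s x).det)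
      (-(Real.sqrt (Pt t x).det * ∑ i, ∑ j, ein (Pt t) i j x * Pd Pt i j t x) +
        ∑ k, H31R.pd k (fun y => Real.sqrt (Pt t y).det * vv Pt k t y) x) t := by
  have hcyl := hF.cyl t
  have hdet := hcyl.det_pos hx
  have hP : ∀ i j, HasDerivAt (fun s => Pt s x i j) ((Matrix.of fun a b => Pd Pt a b t x) i j) t := fun i j =>
    j_has (h := fun z : ℝ × E3 => Pt z.1 z.2 i j) (hF.smooth t x hx i j)
  have hK := hasDerivAt_minv (A := fun s => Pt s x) hP hdet.ne'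
  have hD := hasDerivAt_sdet (A := fun s => Pt s x) hP (fun i j => hcyl.symm x hx i j) hdet
  have hR := dt_ric (t := t) hF hx
  have hS : HasDerivAt (fun s => scal (Pt s) x) (∑ i, ∑ j,
      ((-∑ a, ∑ b, (Pt t x)⁻¹ i a * Pd Pt a b t x * (Pt t x)⁻¹ b j) * H31R.ric (Pt t) i j x +
        (Pt t x)⁻¹ i j * (∑ k, (H31R.pd k (CC Pt k i j t) x - H31R.pd j (CC Pt k i k t) x +
          ∑ l, (CC Pt k k l t x * H31R.chr (Pt t) l i j x + H31R.chr (Pt t) k k l x * CC Pt l i j t x -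
            CC Pt k j l t x * H31R.chr (Pt t) l i k x - H31R.chr (Pt t) k j l x * CC Pt l i k t x))))) t := by
    unfold scal
    exact HasDerivAt.fun_sum fun i _ => HasDerivAt.fun_sum fun j _ => (hK i j).mul (hR i j)
  refine (hS.mul hD).congr_deriv ?_
  rw [pal_div hF hx]
  have hs : ∑ i, ∑ j, (∑ a, ∑ b, (Pt t x)⁻¹ i a * Pd Pt a b t x * (Pt t x)⁻¹ b j) * H31R.ric (Pt t) i j x =
      ∑ i, ∑ j, (∑ a, ∑ b, (Pt t x)⁻¹ i a * (Pt t x)⁻¹ j b * H31R.ric (Pt t) a b x) * Pd Pt i j t x := by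
    simp only [Finset.sum_mul]
    rw [c8_swap]
    refine Finset.sum_congr rfl fun i _ => Finset.sum_congr rfl fun j _ => Finset.sum_congr rfl fun a _ =>
      Finset.sum_congr rfl fun b _ => ?_
    rw [hcyl.inv_symm hx a i]
    ring
  have he : ∑ i, ∑ j, ein (Pt t) i j x * Pd Pt i j t x =
      ∑ i, ∑ j, (∑ a, ∑ b, (Pt t x)⁻¹ i a * (Pt t x)⁻¹ j b * H31R.ric (Pt t) a b x) * Pd Pt i j t x -
        scal (Pt t) x / 2 * ∑ i, ∑ j, (Pt t x)⁻¹ i j * Pd Pt i j t x := by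
    unfold ein
    rw [Finset.mul_sum, ← Finset.sum_sub_distrib]
    refine Finset.sum_congr rfl fun i _ => ?_
    rw [Finset.mul_sum, ← Finset.sum_sub_distrib]
    refine Finset.sum_congr rfl fun j _ => ?_
    ring
  have hsplit : ∑ i, ∑ j,
      ((-∑ a, ∑ b, (Pt t x)⁻¹ i a * Pd Pt a b t x * (Pt t x)⁻¹ b j) * H31R.ric (Pt t) i j x +
        (Pt t x)⁻¹ i j * (∑ k, (H31R.pd k (CC Pt k i j t) x - H31R.pd j (CC Pt k i k t) x +
          ∑ l, (CC Pt k k l t x * H31R.chr (Pt t) l i j x + H31R.chr (Pt t) k k l x * CC Pt l i j t x -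
            CC Pt k j l t x * H31R.chr (Pt t) l i k x - H31R.chr (Pt t) k j l x * CC Pt l i k t x)))) =
      -(∑ i, ∑ j, (∑ a, ∑ b, (Pt t x)⁻¹ i a * Pd Pt a b t x * (Pt t x)⁻¹ b j) * H31R.ric (Pt t) i j x) +
      ∑ i, ∑ j, (Pt t x)⁻¹ i j * (∑ k, (H31R.pd k (CC Pt k i j t) x - H31R.pd j (CC Pt k i k t) x +
          ∑ l, (CC Pt k k l t x * H31R.chr (Pt t) l i j x + H31R.chr (Pt t) k k l x * CC Pt l i j t x -
            CC Pt k j l t x * H31R.chr (Pt t) l i k x - H31R.chr (Pt t) k j l x * CC Pt l i k t x))) := by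
    rw [← Finset.sum_neg_distrib, ← Finset.sum_add_distrib]
    refine Finset.sum_congr rfl fun i _ => ?_
    rw [← Finset.sum_neg_distrib, ← Finset.sum_add_distrib]
    refine Finset.sum_congr rfl fun j _ => ?_
    rw [neg_mul]
  rw [hsplit, hs, he]
  simp only [Matrix.of_apply]
  ring

end H17W
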