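import Pool.Agent.Lib.H17W.C1
import Pool.Agent.Lib.H17W.C5B
import Pool.Agent.Lib.H17W.C8
import Pool.Agent.Lib.H17W.C10

set_option autoImplicit false

/-!
# H17W, chunk C11 (M): the total curvature is constant along a family
-/

open MeasureTheory Filter Topology Set
open scoped ContDiff

namespace H17W

open Pool.Agent.Lib.PenroseSph (E3 S2 sm pd)

variable {Pt : ℝ → E3 → Matrix (Fin 3) (Fin 3) ℝ}

theorem c11_ne (n : S2) : (n : E3) ≠ 0 := by
  intro h0
  have h1 := Pool.Agent.Lib.PenroseSph.norm_S2 n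
  rw [h0, norm_zero] at h1
  norm_num at h1

/-- `PenroseSph.hasDerivAt_int` (SphAvg.lean) with `F s n = scal (Pt s) n * √det (Pt s n)` and `F' s n` its derivative in `s`. The
function `h (s, x) = scal (Pt s) x * √det (Pt s x)` is smooth at all `(s, x)`, `x ≠ 0` (`j_scal`, `j_sdet`), so is
`(s, x) ↦ deriv (fun u => h (u, x)) s` (`j_dt`); this gives the continuity hypotheses (composition with the continuous map
`(s, n) ↦ (s, (n : E3))`; points of the sphere are `≠ 0`). By `dt_lagr` and `ein_Pd` the derivative is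
`Σ_k pd k (√det v^k)`, whose integral is `0` by `flux` (`hom_vv`; smoothness of `y ↦ √det (Pt t y) * vv Pt k t y`: `j_fix`). -/
theorem int_deriv (hF : Fam Pt) (t : ℝ) :
    HasDerivAt (fun s => ∫ n : S2, scal (Pt s) n * Real.sqrt (Pt s n).det ∂sm) 0 t := by
  have hsm : ∀ s : ℝ, ∀ x : E3, x ≠ 0 →
      ContDiffAt ℝ ∞ (fun z : ℝ × E3 => scal (Pt z.1) z.2 * Real.sqrt (Pt z.1 z.2).det) (s, x) :=
    fun s x hx => (j_scal hF hx).mul (j_sdet hF hx)
  have hcm : Continuous (fun p : ℝ × S2 => (p.1, (p.2 : E3))) := by fun_prop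
  have e : ∫ n : S2, deriv (fun u => scal (Pt u) n * Real.sqrt (Pt u n).det) t ∂sm = 0 := by
    have e1 : ∀ n : S2, deriv (fun u => scal (Pt u) n * Real.sqrt (Pt u n).det) t
        = ∑ k, pd k (fun y => Real.sqrt (Pt t y).det * vv Pt k t y) n := by
      intro n
      have h1 := (dt_lagr hF (c11_ne n) (t := t)).deriv
      rw [ein_Pd hF (c11_ne n), mul_zero, neg_zero, zero_add] at h1
      exact h1
    simp only [e1]
    refine flux (Z := fun y k => Real.sqrt (Pt t y).det * vv Pt k t y) ?_ ?_
    · intro x hx k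
      have h2 := j_fix ((j_sdet (t := t) hF hx).mul (j_vv (t := t) hF hx k))
      exact h2.of_le (by simp)
    · intro x hx c hc k
      exact hom_vv hF hx hc k
  rw [← e]
  refine Pool.Agent.Lib.PenroseSph.hasDerivAt_int
    (F := fun s n => scal (Pt s) n * Real.sqrt (Pt s n).det)
    (F' := fun s n => deriv (fun u => scal (Pt u) n * Real.sqrt (Pt u n).det) s)
    (t0 := t) one_pos ?_ ?_ ?_
  · intro s _ n
    exact j_has (hsm s n (c11_ne n))
  · intro s _
    rw [continuous_iff_continuousAt]
    intro n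
    have h1 := (hsm s n (c11_ne n)).continuousAt
    have h2 : ContinuousAt (fun m : S2 => (s, (m : E3))) n := by fun_prop
    exact ContinuousAt.comp (f := fun m : S2 => (s, (m : E3))) h1 h2
  · apply Continuous.continuousOn
    rw [continuous_iff_continuousAt]
    rintro ⟨s, n⟩
    have h1 := (j_dt (hsm s n (c11_ne n))).continuousAt
    have h2 : ContinuousAt (fun p : ℝ × S2 => (p.1, (p.2 : E3))) (s, n) := hcm.continuousAt
    exact ContinuousAt.comp (f := fun p : ℝ × S2 => (p.1, (p.2 : E3))) h1 h2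

end H17W
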