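import Pool.Agent.Lib.H17W.C12

set_option autoImplicit false

/-!
# H17W, chunk C13 (S): the path
-/

open MeasureTheory Filter Topology Set
open scoped ContDiff

namespace H17W

open Pool.Agent.Lib.PenroseSph (E3 S2 sm pd)

variable {P : E3 → Matrix (Fin 3) (Fin 3) ℝ}

theorem c13_entry (P : E3 → Matrix (Fin 3) (Fin 3) ℝ) (t : ℝ) (x : E3) (i j : Fin 3) :
    path P t x i j = Real.cos t ^ 2 * P0 x i j + Real.sin t ^ 2 * P x i j := by
  simp [path, Matrix.add_apply, Matrix.smul_apply]

theorem c13_cyl (hP : Cyl P) (t : ℝ) : Cyl (path P t) where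
  smooth x hx i j := by
    simp only [c13_entry]
    exact (contDiffAt_const.mul (P0_cyl.smooth x hx i j)).add
      (contDiffAt_const.mul (hP.smooth x hx i j))
  symm x hx i j := by
    rw [c13_entry, c13_entry, P0_cyl.symm x hx i j, hP.symm x hx i j]
  pos x hx ξ hξ := by
    have h1 := P0_cyl.pos x hx ξ hξ
    have h2 := hP.pos x hx ξ hξ
    have e : ∑ i, ∑ j, path P t x i j * ξ i * ξ j =
        Real.cos t ^ 2 * (∑ i, ∑ j, P0 x i j * ξ i * ξ j) +
        Real.sin t ^ 2 * (∑ i, ∑ j, P x i j * ξ i * ξ j) := by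
      simp only [c13_entry, Finset.mul_sum, ← Finset.sum_add_distrib]
      exact Finset.sum_congr rfl fun i _ => Finset.sum_congr rfl fun j _ => by ring
    rw [e]
    have h3 := Real.sin_sq_add_cos_sq t
    rcases (sq_nonneg (Real.cos t)).lt_or_eq with h4 | h4
    · have h5 : 0 ≤ Real.sin t ^ 2 := sq_nonneg _
      positivity
    · rw [← h4] at h3 ⊢
      have h5 : Real.sin t ^ 2 = 1 := by linarith
      rw [h5]
      linarith
  hom x hx c hc i j := by
    rw [c13_entry, c13_entry, P0_cyl.hom x hx c hc i j, hP.hom x hx c hc i j]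
    ring
  rad x hx i := by
    have h1 := P0_cyl.rad x hx i
    have h2 := hP.rad x hx i
    have e : ∑ j, path P t x i j * x j =
        Real.cos t ^ 2 * (∑ j, P0 x i j * x j) + Real.sin t ^ 2 * (∑ j, P x i j * x j) := by
      simp only [c13_entry, Finset.mul_sum, ← Finset.sum_add_distrib]
      exact Finset.sum_congr rfl fun j _ => by ring
    rw [e, h1, h2, ← add_mul, Real.cos_sq_add_sin_sq, one_mul]

/-- A convex combination of cylinder metrics is one (`cos² + sin² = 1`; at least one of the coefficients is positive); joint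
smoothness. -/
theorem path_fam (hP : Cyl P) : Fam (path P) where
  cyl t := c13_cyl hP t
  smooth t x hx i j := by
    simp only [c13_entry]
    have h1 : ContDiffAt ℝ ∞ (fun z : ℝ × E3 => P0 z.2 i j) (t, x) :=
      (P0_cyl.smooth x hx i j).comp (t, x) contDiffAt_snd
    have h2 : ContDiffAt ℝ ∞ (fun z : ℝ × E3 => P z.2 i j) (t, x) :=
      (hP.smooth x hx i j).comp (t, x) contDiffAt_snd
    have h3 : ContDiffAt ℝ ∞ (fun z : ℝ × E3 => Real.cos z.1 ^ 2) (t, x) :=
      (Real.contDiff_cos.contDiffAt.comp (t, x) contDiffAt_fst).pow 2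
    have h4 : ContDiffAt ℝ ∞ (fun z : ℝ × E3 => Real.sin z.1 ^ 2) (t, x) :=
      (Real.contDiff_sin.contDiffAt.comp (t, x) contDiffAt_fst).pow 2
    exact (h3.mul h1).add (h4.mul h2)

theorem path_zero (x : E3) : path P 0 x = P0 x := by
  simp [path]

theorem path_one (x : E3) : path P (Real.pi / 2) x = P x := by
  simp [path]

end H17W
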