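import Pool.Agent.Lib.H17W.CB3

set_option autoImplicit false

/-!
# H17W, chunk C2 (S/M): the divergence of a one-form
-/

open MeasureTheory Filter Topology Set
open scoped ContDiff

namespace H17W

open Pool.Agent.Lib.PenroseSph (E3 S2 sm pd)

/-- The divergence of a one-form.
Proof. `√det P`, `K = P⁻¹`, `α` are differentiable at `x` (`H31R.N_inv_at`, `H31R.N_det_at`); product rule on the right, then
`Cyl.sdet_chr`, `Cyl.inv_chr` (`pd = H31R.pd` by `rfl`): the right side is `√det` times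
`Σ_ij (Σ_k Γ^k_ik) K_ij α_j - Σ_ijl (Γ^i_il K_lj + Γ^j_il K_il) α_j + Σ_ij K_ij ∂_i α_j`; the first two sums cancel (rename
`Σ_ik Γ^k_ik K_ij = Σ_il Γ^i_il K_lj` with `Cyl.chr_symm`) and `Σ_ijl Γ^j_il K_il α_j` is the term on the left. All sums are over `Fin 3`:
`Fin.sum_univ_three`, normalise symmetric entries, `ring`; or `Finset.sum_comm`. -/
theorem div_form {P : E3 → Matrix (Fin 3) (Fin 3) ℝ} (hP : Cyl P) {al : E3 → Fin 3 → ℝ} {x : E3} (hx : x ≠ 0)
    (hal : ∀ i, DifferentiableAt ℝ (fun y => al y i) x) :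
    Real.sqrt (P x).det * (∑ i, ∑ j, (P x)⁻¹ i j * (pd i (fun y => al y j) x - ∑ k, H31R.chr P k i j x * al x k)) =
      ∑ i, pd i (fun y => Real.sqrt (P y).det * ∑ j, (P y)⁻¹ i j * al y j) x := by
  have hd : 0 < (P x).det := hP.det_pos hx
  have hS : DifferentiableAt ℝ (fun y => Real.sqrt (P y).det) x :=
    (((H31R.N_det_at (hP.smooth x hx)).differentiableAt (by simp)).sqrt hd.ne')
  have hK : ∀ i j, DifferentiableAt ℝ (fun y => (P y)⁻¹ i j) x := fun i j =>
    (H31R.N_inv_at (hP.smooth x hx) hd.ne' i j).differentiableAt (by simp)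
  have e1 : ∀ i : Fin 3, H31R.pd i (fun y => Real.sqrt (P y).det * ∑ j, (P y)⁻¹ i j * al y j) x =
      Real.sqrt (P x).det * (∑ k, H31R.chr P k i k x) * (∑ j, (P x)⁻¹ i j * al x j) +
      Real.sqrt (P x).det * ∑ j, ((-∑ l, (H31R.chr P i i l x * (P x)⁻¹ l j + H31R.chr P j i l x * (P x)⁻¹ i l)) * al x j
        + (P x)⁻¹ i j * H31R.pd i (fun y => al y j) x) := by
    intro i
    have hm : ∀ j, DifferentiableAt ℝ (fun y => (P y)⁻¹ i j * al y j) x := fun j => (hK i j).fun_mul (hal j)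
    rw [H31R.N_pd_mul hS (DifferentiableAt.fun_sum fun j _ => hm j), hP.sdet_chr hx i,
      H31R.N_pd_sum _ _ fun j _ => hm j]
    congr 2
    refine Finset.sum_congr rfl fun j _ => ?_
    rw [H31R.N_pd_mul (hK i j) (hal j), hP.inv_chr hx i i j]
  have e2 : ∀ i : Fin 3, pd i (fun y => Real.sqrt (P y).det * ∑ j, (P y)⁻¹ i j * al y j) x =
      H31R.pd i (fun y => Real.sqrt (P y).det * ∑ j, (P y)⁻¹ i j * al y j) x := fun i => rfl
  have e3 : ∀ i j : Fin 3, pd i (fun y => al y j) x = H31R.pd i (fun y => al y j) x := fun i j => rfl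
  simp only [e2, e1, e3]
  have hs := fun k => hP.chr_symm hx k 1 0
  have hs2 := fun k => hP.chr_symm hx k 2 0
  have hs3 := fun k => hP.chr_symm hx k 2 1
  simp only [Fin.sum_univ_three, hs, hs2, hs3]
  ring

end H17W
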