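import Pool.Agent.Lib.H17W.C1
import Pool.Agent.Lib.H17W.C2
import Pool.Agent.Lib.H17W.C11
import Pool.Agent.Lib.H17W.C13

set_option autoImplicit false

/-!
# H17W, module C: the Gauss-Bonnet theorem (helper74)

`flux` is in `C1.lean`, `div_form` in `C2.lean`, the structure `Cyl` in `C0.lean`.
-/

open MeasureTheory Filter Topology Set
open scoped ContDiff

namespace H17W

open Pool.Agent.Lib.PenroseSph (E3 S2 sm pd)

/-- The Gauss-Bonnet theorem. -/
theorem gauss_bonnet {P : E3 → Matrix (Fin 3) (Fin 3) ℝ} (hP : Cyl P) :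
    ∫ n : S2, scal P n * Real.sqrt (P n).det ∂sm = 8 * Real.pi := by
  have h : ∀ a b : ℝ, ∫ n : S2, scal (path P a) n * Real.sqrt (path P a n).det ∂sm =
      ∫ n : S2, scal (path P b) n * Real.sqrt (path P b n).det ∂sm :=
    is_const_of_deriv_eq_zero (fun t => (int_deriv (path_fam hP) t).differentiableAt) fun t => (int_deriv (path_fam hP) t).deriv
  have h0 : path P 0 = P0 := funext path_zero
  have h1 : path P (Real.pi / 2) = P := funext path_one
  rw [← P0_int, ← h0, h 0 (Real.pi / 2), h1]

end H17W
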