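import Pool.Agent.Lib.H17W.A0
import Pool.Agent.Lib.H31R.N4
import Pool.Agent.Lib.PenroseSph.SphFlux

set_option autoImplicit false

/-!
# H17W, module C: definitions (helper74)

Metrics of the cylinder `ℝ × S2` on `ℝ³ \ {0}`, families of such metrics.
-/

open MeasureTheory Filter Topology Set
open scoped ContDiff

namespace H17W

open Pool.Agent.Lib.PenroseSph (E3 S2 sm pd)

/-- A smooth Riemannian metric on `ℝ³ \ {0}`, homogeneous of degree `-2`, with `P(x) x = x / |x|²`: the product of the line (the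
coordinate `log |x|`) and of the sphere with a Riemannian metric. -/
structure Cyl (P : E3 → Matrix (Fin 3) (Fin 3) ℝ) : Prop where
  smooth : ∀ x : E3, x ≠ 0 → ∀ i j, ContDiffAt ℝ ∞ (fun y => P y i j) x
  symm : ∀ x : E3, x ≠ 0 → ∀ i j, P x i j = P x j i
  pos : ∀ x : E3, x ≠ 0 → ∀ ξ : Fin 3 → ℝ, ξ ≠ 0 → 0 < ∑ i, ∑ j, P x i j * ξ i * ξ j
  hom : ∀ x : E3, x ≠ 0 → ∀ c : ℝ, 0 < c → ∀ i j, P (c • x) i j = P x i j / c ^ 2
  rad : ∀ x : E3, x ≠ 0 → ∀ i, ∑ j, P x i j * x j = x i / ‖x‖ ^ 2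

/-- A smooth family of cylinder metrics. -/
structure Fam (Pt : ℝ → E3 → Matrix (Fin 3) (Fin 3) ℝ) : Prop where
  cyl : ∀ t, Cyl (Pt t)
  smooth : ∀ t : ℝ, ∀ x : E3, x ≠ 0 → ∀ i j, ContDiffAt ℝ ∞ (fun z : ℝ × E3 => Pt z.1 z.2 i j) (t, x)

/-- The variation of the Christoffel symbols of a family of metrics. -/
noncomputable def CC (Pt : ℝ → E3 → Matrix (Fin 3) (Fin 3) ℝ) (k i j : Fin 3) (t : ℝ) (x : E3) : ℝ :=
  deriv (fun s => H31R.chr (Pt s) k i j x) t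

/-- The vector field `v^k = P^ij C^k_ij - P^kj C^i_ij`. -/
noncomputable def vv (Pt : ℝ → E3 → Matrix (Fin 3) (Fin 3) ℝ) (k : Fin 3) (t : ℝ) (x : E3) : ℝ :=
  ∑ i, ∑ j, ((Pt t x)⁻¹ i j * CC Pt k i j t x - (Pt t x)⁻¹ k j * CC Pt i i j t x)

/-- The variation of the metric. -/
noncomputable def Pd (Pt : ℝ → E3 → Matrix (Fin 3) (Fin 3) ℝ) (i j : Fin 3) (t : ℝ) (x : E3) : ℝ :=
  deriv (fun s => Pt s x i j) t

/-- The Einstein tensor with upper indices. -/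
noncomputable def ein (P : E3 → Matrix (Fin 3) (Fin 3) ℝ) (i j : Fin 3) (x : E3) : ℝ :=
  ∑ a, ∑ b, (P x)⁻¹ i a * (P x)⁻¹ j b * H31R.ric P a b x - scal P x / 2 * (P x)⁻¹ i j

/-- The matrix `(l, k) ↦ Σ_m ε_lkm x_m`. -/
def crs (x : Fin 3 → ℝ) : Matrix (Fin 3) (Fin 3) ℝ := !![0, x 2, -x 1; -x 2, 0, x 0; x 1, -x 0, 0]

/-- The round cylinder `|x|⁻² δ`. -/
noncomputable def P0 (x : E3) : Matrix (Fin 3) (Fin 3) ℝ := (‖x‖ ^ 2)⁻¹ • (1 : Matrix (Fin 3) (Fin 3) ℝ)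

/-- The path of metrics from the round cylinder (`t = 0`) to `P` (`t = π / 2`). -/
noncomputable def path (P : E3 → Matrix (Fin 3) (Fin 3) ℝ) (t : ℝ) (x : E3) : Matrix (Fin 3) (Fin 3) ℝ :=
  Real.cos t ^ 2 • P0 x + Real.sin t ^ 2 • P x

end H17W
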