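import Pool.Agent.Lib.H17W.A5
import Pool.Agent.Lib.H17W.C0

set_option autoImplicit false

/-!
# H17W, chunk B3E (M): first order structure equations

Auxiliary names start with `b3e_`.
-/

open MeasureTheory Filter Topology Set
open scoped ContDiff

namespace H17W

open H17T (E4 pt pos)
open Pool.Agent.Lib.PenroseSph (E3 S2 sm)

variable {G : E4 → Matrix (Fin 4) (Fin 4) ℝ} {Ψ : ℝ × E3 → E4} {W : Set (ℝ × E3)}

theorem b3e_basis (v : E3) : v = ∑ j, v j • H31R.ebas j := by
  ext k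
  fin_cases k <;> simp [Fin.sum_univ_three, H31R.ebas]

theorem b3e_fderiv (f : E3 → ℝ) (x v : E3) : fderiv ℝ f x v = ∑ j, v j * H31R.pd j f x := by
  conv_lhs => rw [b3e_basis v]
  rw [map_sum]
  exact Finset.sum_congr rfl fun j _ => by rw [map_smul]; rfl

theorem b3e_pd_coord (x : E3) (i m : Fin 3) : H31R.pd i (fun y : E3 => y m) x = if i = m then 1 else 0 := by
  have h : HasFDerivAt (fun y : E3 => y m) (EuclideanSpace.proj m : E3 →L[ℝ] ℝ) x :=
    (EuclideanSpace.proj m : E3 →L[ℝ] ℝ).hasFDerivAt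
  unfold H31R.pd
  rw [h.fderiv]
  simp [H31R.ebas, Pi.single_apply, eq_comm]

theorem b3e_coord (x : E3) (m : Fin 3) : DifferentiableAt ℝ (fun y : E3 => y m) x :=
  (EuclideanSpace.proj m : E3 →L[ℝ] ℝ).differentiableAt

theorem b3e_pd_mul {f g : E3 → ℝ} {x : E3} (hf : DifferentiableAt ℝ f x) (hg : DifferentiableAt ℝ g x) (i : Fin 3) :
    H31R.pd i (fun y => f y * g y) x = H31R.pd i f x * g x + f x * H31R.pd i g x := by
  unfold H31R.pd
  rw [fderiv_fun_mul hf hg]
  change f x * fderiv ℝ g x (H31R.ebas i) + g x * fderiv ℝ f x (H31R.ebas i) = _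
  ring

theorem b3e_pd_normsq (x : E3) (i : Fin 3) : H31R.pd i (fun y : E3 => ‖y‖ ^ 2) x = 2 * x i := by
  unfold H31R.pd
  rw [(hasStrictFDerivAt_norm_sq x).hasFDerivAt.fderiv]
  change 2 • inner ℝ x (H31R.ebas i) = _
  rw [H31R.ebas, EuclideanSpace.inner_single_right]
  simp

theorem b3e_pd_congr {f g : E3 → ℝ} {x : E3} (h : f =ᶠ[𝓝 x] g) (i : Fin 3) : H31R.pd i f x = H31R.pd i g x := by
  unfold H31R.pd; rw [h.fderiv_eq]

theorem b3e_normsq (x : E3) : DifferentiableAt ℝ (fun y : E3 => ‖y‖ ^ 2) x :=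
  (hasStrictFDerivAt_norm_sq x).hasFDerivAt.differentiableAt

theorem b3e_ne {x : E3} (hx : x ≠ 0) : ∀ᶠ y in 𝓝 x, y ≠ 0 := isOpen_ne.mem_nhds hx

theorem b3e_div_diff {x : E3} (hx : x ≠ 0) (m : Fin 3) : DifferentiableAt ℝ (fun y : E3 => y m / ‖y‖ ^ 2) x := by
  have h : ‖x‖ ^ 2 ≠ 0 := pow_ne_zero _ (norm_ne_zero_iff.mpr hx)
  have h1 : DifferentiableAt ℝ (fun y : E3 => (‖y‖ ^ 2)⁻¹) x := (b3e_normsq x).fun_inv h
  simp only [div_eq_mul_inv]
  exact (b3e_coord x m).fun_mul h1

theorem b3e_div {x : E3} (hx : x ≠ 0) (i m : Fin 3) :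
    H31R.pd i (fun y : E3 => y m / ‖y‖ ^ 2) x = (if i = m then 1 else 0) / ‖x‖ ^ 2 - 2 * x i * x m / ‖x‖ ^ 4 := by
  have hn : ‖x‖ ≠ 0 := norm_ne_zero_iff.mpr hx
  have h1 := b3e_pd_mul (b3e_div_diff hx m) (b3e_normsq x) i
  have h2 : H31R.pd i (fun y : E3 => y m / ‖y‖ ^ 2 * ‖y‖ ^ 2) x = if i = m then 1 else 0 := by
    rw [← b3e_pd_coord x i m]
    refine b3e_pd_congr ?_ i
    filter_upwards [b3e_ne hx] with y hy
    have : ‖y‖ ≠ 0 := norm_ne_zero_iff.mpr hy
    field_simp
  rw [h2, b3e_pd_normsq] at h1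
  rw [h1]
  field_simp
  ring

section

variable {P : E3 → Matrix (Fin 3) (Fin 3) ℝ}

theorem b3e_diff (hP : Cyl P) {x : E3} (hx : x ≠ 0) (i j : Fin 3) : DifferentiableAt ℝ (fun y => P y i j) x :=
  (hP.smooth x hx i j).differentiableAt (by simp)

/-- Euler's relation. -/
theorem b3e_euler (hP : Cyl P) {x : E3} (hx : x ≠ 0) (i m : Fin 3) :
    ∑ j, x j * H31R.pd j (fun y => P y i m) x = -2 * P x i m := by
  rw [← b3e_fderiv]
  have h1 : HasDerivAt (fun c : ℝ => P (c • x) i m) (fderiv ℝ (fun y => P y i m) x x) 1 := by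
    have hg : HasDerivAt (fun c : ℝ => c • x) x (1 : ℝ) := by
      simpa using (hasDerivAt_id (1 : ℝ)).smul_const x
    have hf : HasFDerivAt (fun y => P y i m) (fderiv ℝ (fun y => P y i m) x) ((1 : ℝ) • x) := by
      rw [one_smul]; exact (b3e_diff hP hx i m).hasFDerivAt
    exact hf.comp_hasDerivAt (1 : ℝ) hg
  have h2 := ((hasDerivAt_pow 2 (1 : ℝ)).fun_inv (by norm_num)).const_mul (P x i m)
  have h3 : (fun c : ℝ => P (c • x) i m) =ᶠ[𝓝 1] fun c : ℝ => P x i m * (c ^ 2)⁻¹ := by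
    filter_upwards [lt_mem_nhds (show (0 : ℝ) < 1 by norm_num)] with c hc
    rw [hP.hom x hx c hc, div_eq_mul_inv]
  rw [h1.unique (h2.congr_of_eventuallyEq h3)]
  norm_num
  ring

theorem b3e_rad_deriv (hP : Cyl P) {x : E3} (hx : x ≠ 0) (i m : Fin 3) :
    ∑ j, x j * H31R.pd i (fun y => P y j m) x =
      (if i = m then 1 else 0) / ‖x‖ ^ 2 - 2 * x i * x m / ‖x‖ ^ 4 - P x i m := by
  have h1 : H31R.pd i (fun y : E3 => P y 0 m * y 0 + P y 1 m * y 1 + P y 2 m * y 2) x =
      H31R.pd i (fun y : E3 => y m / ‖y‖ ^ 2) x := by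
    refine b3e_pd_congr ?_ i
    filter_upwards [b3e_ne hx] with y hy
    have := hP.rad y hy m
    rw [Fin.sum_univ_three] at this
    rw [hP.symm y hy 0 m, hP.symm y hy 1 m, hP.symm y hy 2 m]
    exact this
  have hd : ∀ j, DifferentiableAt ℝ (fun y : E3 => P y j m * y j) x :=
    fun j => (b3e_diff hP hx j m).fun_mul (b3e_coord x j)
  have h2 : H31R.pd i (fun y : E3 => P y 0 m * y 0 + P y 1 m * y 1 + P y 2 m * y 2) x =
      ∑ j, H31R.pd i (fun y : E3 => P y j m * y j) x := by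
    unfold H31R.pd
    rw [fderiv_fun_add ((hd 0).fun_add (hd 1)) (hd 2), fderiv_fun_add (hd 0) (hd 1), Fin.sum_univ_three]
    rfl
  have h3 : ∀ j, H31R.pd i (fun y : E3 => P y j m * y j) x =
      H31R.pd i (fun y => P y j m) x * x j + P x j m * (if i = j then 1 else 0) := by
    intro j
    rw [b3e_pd_mul (b3e_diff hP hx j m) (b3e_coord x j), b3e_pd_coord]
  rw [h2, b3e_div hx] at h1
  simp only [h3] at h1
  rw [← h1, Finset.sum_add_distrib]
  simp only [mul_ite, mul_one, mul_zero, Finset.sum_ite_eq, Finset.mem_univ, if_true]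
  rw [add_sub_cancel_right]
  exact Finset.sum_congr rfl fun j _ => mul_comm _ _

theorem b3e_det (hP : Cyl P) {x : E3} (hx : x ≠ 0) : (P x).det ≠ 0 := by
  intro h
  obtain ⟨v, hv, hv0⟩ := Matrix.exists_mulVec_eq_zero_iff.mpr h
  have h1 := hP.pos x hx v hv
  have h2 : ∑ i, ∑ j, P x i j * v i * v j = 0 := by
    refine Finset.sum_eq_zero fun i _ => ?_
    have h3 : ∑ j, P x i j * v j = 0 := congrFun hv0 i
    calc ∑ j, P x i j * v i * v j = v i * ∑ j, P x i j * v j := by
          rw [Finset.mul_sum]; exact Finset.sum_congr rfl fun j _ => by ring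
      _ = 0 := by rw [h3, mul_zero]
  linarith

theorem cyl_metAt (hP : Cyl P) {x : E3} (hx : x ≠ 0) : MetAt P x where
  smooth := (b3e_ne hx).mono fun q hq a b => hP.smooth q hq a b
  symm := (b3e_ne hx).mono fun q hq a b => hP.symm q hq a b
  nondeg := b3e_det hP hx

/-- A vector which is orthogonal to everything vanishes. -/
theorem b3e_zero (hP : Cyl P) {x : E3} (hx : x ≠ 0) {w : Fin 3 → ℝ} (h : ∀ m, ∑ l, P x l m * w l = 0) : w = 0 := by
  by_contra hw
  have h1 := hP.pos x hx w hw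
  have h2 : ∑ i, ∑ j, P x i j * w i * w j = ∑ j, w j * ∑ i, P x i j * w i := by
    rw [Finset.sum_comm]
    refine Finset.sum_congr rfl fun j _ => ?_
    rw [Finset.mul_sum]
    exact Finset.sum_congr rfl fun i _ => by ring
  rw [h2] at h1
  simp only [h, mul_zero, Finset.sum_const_zero, lt_irrefl] at h1

/-- `x` is a parallel vector field of a cylinder metric: with the index lowered this is
`∑_j x_j (∂_i P_jl + ∂_j P_il - ∂_l P_ij) / 2 = - P_il`, since `∑ x_j ∂_j P_il = - 2 P_il` (homogeneity) and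
`∑ x_j ∂_i P_jl = ∂_i (x_l/|x|²) - P_il`, and `∂_i (x_l/|x|²) = ∂_l (x_i/|x|²)`. A cylinder metric satisfies `MetAt` at each `x ≠ 0`. -/
theorem cyl_chr_rad {P : E3 → Matrix (Fin 3) (Fin 3) ℝ} (hP : Cyl P) {x : E3} (hx : x ≠ 0) (k i : Fin 3) :
    ∑ j, H31R.chr P k i j x * x j = -(if k = i then 1 else 0) := by
  have h : (fun k => (∑ j, H31R.chr P k i j x * x j) + (if k = i then 1 else 0)) = 0 := by
    refine b3e_zero hP hx fun m => ?_
    have hl := fun j => chr_lower (cyl_metAt hP hx) i j m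
    have he := b3e_euler hP hx i m
    have h1 := b3e_rad_deriv hP hx i m
    have h2 := b3e_rad_deriv hP hx m i
    have hsy : ∀ j, H31R.pd m (fun y => P y i j) x = H31R.pd m (fun y => P y j i) x := fun j =>
      b3e_pd_congr ((b3e_ne hx).mono fun q hq => hP.symm q hq i j) m
    have hs := hP.symm x hx i m
    have hc : (if i = m then (1 : ℝ) else 0) = if m = i then 1 else 0 := by simp only [eq_comm]
    have hd : ∑ l, P x l m * (if l = i then (1 : ℝ) else 0) = P x i m := by simp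
    have key : ∑ l, P x l m * ∑ j, H31R.chr P l i j x * x j = -P x i m := by
      have e1 : ∑ l, P x l m * ∑ j, H31R.chr P l i j x * x j = ∑ j, x j * ∑ l, P x l m * H31R.chr P l i j x := by
        simp only [Finset.mul_sum]
        rw [Finset.sum_comm]
        exact Finset.sum_congr rfl fun j _ => Finset.sum_congr rfl fun l _ => by ring
      rw [e1]
      simp only [hl]
      have e2 : ∑ j, x j * (1 / 2 * (H31R.pd i (fun y => P y j m) x + H31R.pd j (fun y => P y i m) x -
          H31R.pd m (fun y => P y i j) x)) = 1 / 2 * ((∑ j, x j * H31R.pd i (fun y => P y j m) x) +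
          (∑ j, x j * H31R.pd j (fun y => P y i m) x) - ∑ j, x j * H31R.pd m (fun y => P y j i) x) := by
        rw [← Finset.sum_add_distrib, ← Finset.sum_sub_distrib, Finset.mul_sum]
        exact Finset.sum_congr rfl fun j _ => by rw [hsy j]; ring
      rw [e2, he, h1, h2, hc, hs]
      ring
    calc ∑ l, P x l m * ((∑ j, H31R.chr P l i j x * x j) + (if l = i then 1 else 0))
        = ∑ l, P x l m * (∑ j, H31R.chr P l i j x * x j) + ∑ l, P x l m * (if l = i then (1 : ℝ) else 0) := by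
          rw [← Finset.sum_add_distrib]; exact Finset.sum_congr rfl fun l _ => by ring
      _ = 0 := by rw [key, hd]; ring
  have h1 := congrFun h k
  simp only [Pi.zero_apply] at h1
  linarith

/-- `∑_k Γ^k_ij x_k = |x|² ∑_l Γ_l,ij x_l = |x|² ∂_i (x_j/|x|²)`. -/
theorem cyl_chr_up {P : E3 → Matrix (Fin 3) (Fin 3) ℝ} (hP : Cyl P) {x : E3} (hx : x ≠ 0) (i j : Fin 3) :
    ∑ k, H31R.chr P k i j x * x k = (if i = j then 1 else 0) - 2 * x i * x j / ‖x‖ ^ 2 := by
  have hn : ‖x‖ ≠ 0 := norm_ne_zero_iff.mpr hx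
  have hxk : ∀ k, x k = ‖x‖ ^ 2 * ∑ l, P x k l * x l := by
    intro k
    rw [hP.rad x hx k]
    field_simp
  have e0 : ∑ k, H31R.chr P k i j x * x k = ‖x‖ ^ 2 * ∑ l, x l * ∑ k, P x k l * H31R.chr P k i j x := by
    calc ∑ k, H31R.chr P k i j x * x k = ∑ k, H31R.chr P k i j x * (‖x‖ ^ 2 * ∑ l, P x k l * x l) :=
          Finset.sum_congr rfl fun k _ => by rw [← hxk k]
      _ = _ := by
          simp only [Finset.mul_sum]
          rw [Finset.sum_comm]
          exact Finset.sum_congr rfl fun l _ => Finset.sum_congr rfl fun k _ => by ring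
  rw [e0]
  simp only [fun l => chr_lower (cyl_metAt hP hx) i j l]
  have he := b3e_euler hP hx i j
  have h1 := b3e_rad_deriv hP hx i j
  have h2 := b3e_rad_deriv hP hx j i
  have hs := hP.symm x hx i j
  have hc : (if j = i then (1 : ℝ) else 0) = if i = j then 1 else 0 := by simp only [eq_comm]
  have hsy : ∀ l, H31R.pd i (fun y => P y j l) x = H31R.pd i (fun y => P y l j) x := fun l =>
    b3e_pd_congr ((b3e_ne hx).mono fun q hq => hP.symm q hq j l) i
  have hsy' : ∀ l, H31R.pd j (fun y => P y i l) x = H31R.pd j (fun y => P y l i) x := fun l =>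
    b3e_pd_congr ((b3e_ne hx).mono fun q hq => hP.symm q hq i l) j
  have e2 : ∑ l, x l * (1 / 2 * (H31R.pd i (fun y => P y j l) x + H31R.pd j (fun y => P y i l) x -
      H31R.pd l (fun y => P y i j) x)) = 1 / 2 * ((∑ l, x l * H31R.pd i (fun y => P y l j) x) +
      (∑ l, x l * H31R.pd j (fun y => P y l i) x) - ∑ l, x l * H31R.pd l (fun y => P y i j) x) := by
    rw [← Finset.sum_add_distrib, ← Finset.sum_sub_distrib, Finset.mul_sum]
    exact Finset.sum_congr rfl fun l _ => by rw [hsy l, hsy' l]; ring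
  rw [e2, he, h1, h2, hc, hs]
  field_simp
  ring

/-- The field `y ↦ y` is parallel. -/
theorem b3e_par (hP : Cyl P) {x : E3} (hx : x ≠ 0) (v : E3) :
    cov P (fun y : E3 => y) (fun y : E3 => fun a => y a) x v = 0 := by
  funext a
  unfold cov gam vel
  have hf : ∀ b : Fin 3, fderiv ℝ (fun y : E3 => y b) x v = v b := by
    intro b
    have h : HasFDerivAt (fun y : E3 => y b) (EuclideanSpace.proj b : E3 →L[ℝ] ℝ) x :=
      (EuclideanSpace.proj b : E3 →L[ℝ] ℝ).hasFDerivAt
    rw [h.fderiv]; rfl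
  simp only [hf, Pi.zero_apply]
  have h1 : ∑ i, ∑ j, H31R.chr P a i j x * v i * x j = ∑ i, v i * -(if a = i then 1 else 0) := by
    refine Finset.sum_congr rfl fun i _ => ?_
    rw [← cyl_chr_rad hP hx a i, Finset.mul_sum]
    exact Finset.sum_congr rfl fun j _ => by ring
  rw [h1]
  simp

theorem b3e_riem0 (hP : Cyl P) {x : E3} (hx : x ≠ 0) (a b : E3) :
    riem P x (fun i => a i) (fun i => b i) (fun i => x i) = 0 := by
  have h := cov_comm (G := P) (Φ := fun y : E3 => y) (A := fun y : E3 => fun a => y a) (x := x)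
    (cyl_metAt hP hx) (Eventually.of_forall fun y => contDiffAt_id)
    (Eventually.of_forall fun y a => (EuclideanSpace.proj a : E3 →L[ℝ] ℝ).contDiff.contDiffAt) a b
  have hv : ∀ u : E3, vel (fun y : E3 => y) x u = fun i => u i := by
    intro u
    funext b
    unfold vel
    have h : HasFDerivAt (fun y : E3 => y b) (EuclideanSpace.proj b : E3 →L[ℝ] ℝ) x :=
      (EuclideanSpace.proj b : E3 →L[ℝ] ℝ).hasFDerivAt
    rw [h.fderiv]; rfl
  have h0 : ∀ u w : E3, cov P (fun y : E3 => y)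
      (fun y => cov P (fun y : E3 => y) (fun y : E3 => fun a => y a) y w) x u = 0 := by
    intro u w
    have he : ∀ᶠ y in 𝓝 x, cov P (fun y : E3 => y) (fun y : E3 => fun a => y a) y w = 0 :=
      (b3e_ne hx).mono fun y hy => b3e_par hP hy w
    funext c
    unfold cov at he ⊢
    have hz : (fun y => (fun a => fderiv ℝ (fun y : E3 => y a) y w +
        gam P y (vel (fun y : E3 => y) y w) (fun a => y a) a) c) =ᶠ[𝓝 x] fun _ => (0 : ℝ) :=
      he.mono fun y hy => by
        have := congrFun hy c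
        simpa using this
    have hx0 := he.self_of_nhds
    rw [hz.fderiv_eq]
    simp only [fderiv_fun_const, Pi.zero_apply, ContinuousLinearMap.zero_apply, zero_add]
    rw [hx0]
    simp [gam]
  rw [h0 a b, h0 b a, sub_zero, hv, hv] at h
  exact h.symm

theorem b3e_ip_zero (p : E3) (b : Fin 3 → ℝ) : ip P p 0 b = 0 := by simp [ip]

theorem b3e_riem1 (hP : Cyl P) {x : E3} (hx : x ≠ 0) (b c : Fin 3 → ℝ) :
    riem P x (fun i => x i) b c = 0 := by
  refine b3e_zero hP hx fun m => ?_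
  have h1 := riem_pair (cyl_metAt hP hx) (fun i => x i) b c (Pi.single m 1)
  have h2 : riem P x c (Pi.single m 1) (fun i => x i) = 0 :=
    b3e_riem0 hP hx (WithLp.toLp 2 c) (WithLp.toLp 2 (Pi.single m 1))
  rw [h2, b3e_ip_zero] at h1
  rw [← h1]
  unfold ip
  refine Finset.sum_congr rfl fun l _ => ?_
  simp [Pi.single_apply]

/-- `x` is parallel, so `R(a, b) x = 0` (`cov_comm` with `Φ = id` on `E3`, the field `y ↦ y`, whose covariant derivative in the
direction `v` is `v_k + ∑ Γ^k_ij v_i y_j = 0`), so `R(x, b) c = 0` (`riem_pair`). -/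
theorem cyl_riem {P : E3 → Matrix (Fin 3) (Fin 3) ℝ} (hP : Cyl P) {x : E3} (hx : x ≠ 0) (l k j : Fin 3) :
    ∑ i, rm P l k i j x * x i = 0 := by
  have h := congrFun (b3e_riem1 hP hx (Pi.single j 1) (Pi.single k 1)) l
  unfold riem at h
  simp only [Pi.zero_apply] at h
  rw [← h]
  refine Finset.sum_congr rfl fun i _ => ?_
  simp [Pi.single_apply]

/-- `<R(a, b) c, x> = - <R(a, b) x, c> = 0` and `P x = x/|x|²`. -/
theorem cyl_riem_up {P : E3 → Matrix (Fin 3) (Fin 3) ℝ} (hP : Cyl P) {x : E3} (hx : x ≠ 0) (k i j : Fin 3) :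
    ∑ l, rm P l k i j x * x l = 0 := by
  have hn : ‖x‖ ≠ 0 := norm_ne_zero_iff.mpr hx
  have h1 := riem_skew (cyl_metAt hP hx) (Pi.single i 1) (Pi.single j 1) (Pi.single k 1) (fun i => x i)
  have h2 : riem P x (Pi.single i 1) (Pi.single j 1) (fun i => x i) = 0 :=
    b3e_riem0 hP hx (WithLp.toLp 2 (Pi.single i 1)) (WithLp.toLp 2 (Pi.single j 1))
  rw [h2, b3e_ip_zero, neg_zero] at h1
  have h3 : ∀ l, riem P x (Pi.single i 1) (Pi.single j 1) (Pi.single k 1) l = rm P l k i j x := by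
    intro l
    unfold riem
    simp [Pi.single_apply]
  unfold ip at h1
  simp only [h3] at h1
  have h4 : ∑ l, ∑ m, P x l m * rm P l k i j x * x m = ∑ l, rm P l k i j x * (x l / ‖x‖ ^ 2) := by
    refine Finset.sum_congr rfl fun l _ => ?_
    rw [← hP.rad x hx l, Finset.mul_sum]
    exact Finset.sum_congr rfl fun m _ => by ring
  rw [h4] at h1
  have h5 : ∑ l, rm P l k i j x * (x l / ‖x‖ ^ 2) = (∑ l, rm P l k i j x * x l) / ‖x‖ ^ 2 := by
    rw [Finset.sum_div]
    exact Finset.sum_congr rfl fun l _ => by ring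
  rw [h5] at h1
  exact (div_eq_zero_iff.mp h1).resolve_right (pow_ne_zero _ hn)

theorem cyl_ric {P : E3 → Matrix (Fin 3) (Fin 3) ℝ} (hP : Cyl P) {x : E3} (hx : x ≠ 0) (i : Fin 3) :
    ∑ j, H31R.ric P i j x * x j = 0 := by
  have ha : ∀ k j, rm P k i k j x = -rm P k i j k x := by
    intro k j
    unfold rm
    have : ∑ m, (H31R.chr P k k m x * H31R.chr P m j i x - H31R.chr P k j m x * H31R.chr P m k i x) =
        -∑ m, (H31R.chr P k j m x * H31R.chr P m k i x - H31R.chr P k k m x * H31R.chr P m j i x) := by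
      rw [← Finset.sum_neg_distrib]
      exact Finset.sum_congr rfl fun m _ => by ring
    rw [this]
    ring
  have h1 : ∑ j, H31R.ric P i j x * x j = ∑ k, -∑ j, rm P k i j k x * x j := by
    simp only [ric_eq (cyl_metAt hP hx), ha, Finset.sum_mul, ← Finset.sum_neg_distrib]
    rw [Finset.sum_comm]
    exact Finset.sum_congr rfl fun k _ => Finset.sum_congr rfl fun j _ => by ring
  rw [h1]
  simp only [cyl_riem hP hx, neg_zero, Finset.sum_const_zero]

end

end H17W
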