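import Pool.Agent.Lib.H17W.B3A
import Pool.Agent.Lib.H17W.B3B
import Pool.Agent.Lib.H17W.B3C
import Pool.Agent.Lib.H17W.B3D
import Pool.Agent.Lib.H17W.B3E
import Pool.Agent.Lib.H17W.B3F

set_option autoImplicit false

/-!
# H17W: first order structure equations
-/
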