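import Pool.Agent.Lib.H17W.B4B
import Pool.Agent.Lib.H17W.B3D

set_option autoImplicit false

/-!
# H17W, chunk B4C (M): the derivative of `X_j`, Raychaudhuri's equation

Auxiliary names start with `b4c_`.
-/

open MeasureTheory Filter Topology Set
open scoped ContDiff

namespace H17W

open H17T (E4 pt pos)
open Pool.Agent.Lib.PenroseSph (E3 S2 sm)

variable {G : E4 → Matrix (Fin 4) (Fin 4) ℝ} {Ψ : ℝ × E3 → E4} {W : Set (ℝ × E3)}

/-- The algebra of Raychaudhuri's equation. -/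
theorem b4c_alg (Q A B : Fin 3 → Fin 3 → ℝ) (hQ : ∀ i j, Q i j = Q j i) :
    ∑ i, ∑ j, ((-2 * ∑ a, ∑ b, Q i a * A a b * Q b j) * A i j + Q i j * (B i j + ∑ a, ∑ b, Q a b * A i a * A j b)) =
      -(∑ i, ∑ j, ∑ a, ∑ b, Q i a * Q j b * A i j * A a b) + ∑ i, ∑ j, Q i j * B i j := by
  have h1 : ∑ i, ∑ j, (∑ a, ∑ b, Q i a * A a b * Q b j) * A i j = ∑ i, ∑ j, ∑ a, ∑ b, Q i a * Q j b * A i j * A a b := by
    refine Finset.sum_congr rfl fun i _ => Finset.sum_congr rfl fun j _ => ?_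
    rw [Finset.sum_mul]
    refine Finset.sum_congr rfl fun a _ => ?_
    rw [Finset.sum_mul]
    refine Finset.sum_congr rfl fun b _ => ?_
    rw [hQ b j]
    ring
  have h2 : ∑ i, ∑ j, Q i j * (∑ a, ∑ b, Q a b * A i a * A j b) = ∑ i, ∑ j, ∑ a, ∑ b, Q i a * Q j b * A i j * A a b := by
    refine Finset.sum_congr rfl fun i _ => ?_
    have h3 : ∀ j, Q i j * (∑ a, ∑ b, Q a b * A i a * A j b) = ∑ a, ∑ b, Q i j * Q a b * A i a * A j b := by
      intro j
      rw [Finset.mul_sum]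
      refine Finset.sum_congr rfl fun a _ => ?_
      rw [Finset.mul_sum]
      refine Finset.sum_congr rfl fun b _ => ?_
      ring
    rw [Finset.sum_congr rfl fun j _ => h3 j, Finset.sum_comm]
  have h4 : ∑ i, ∑ j, ((-2 * ∑ a, ∑ b, Q i a * A a b * Q b j) * A i j + Q i j * (B i j + ∑ a, ∑ b, Q a b * A i a * A j b)) =
      -2 * (∑ i, ∑ j, (∑ a, ∑ b, Q i a * A a b * Q b j) * A i j) + (∑ i, ∑ j, Q i j * B i j) +
        ∑ i, ∑ j, Q i j * (∑ a, ∑ b, Q a b * A i a * A j b) := by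
    rw [Finset.mul_sum, ← Finset.sum_add_distrib, ← Finset.sum_add_distrib]
    refine Finset.sum_congr rfl fun i _ => ?_
    rw [Finset.mul_sum, ← Finset.sum_add_distrib, ← Finset.sum_add_distrib]
    refine Finset.sum_congr rfl fun j _ => ?_
    ring
  rw [h4, h1, h2]
  ring

/-- Raychaudhuri's equation (`QQ_ds`, `chi_ds`, `ee_eq`). -/
theorem ray (hR : Reg G Ψ W) {s : ℝ} (hs : 0 ≤ s) {x : E3} (hx : x ≠ 0) :
    fderiv ℝ (exl G Ψ) (s, x) dS =
      -(∑ i, ∑ j, ∑ a, ∑ b, QQ G Ψ i a (s, x) * QQ G Ψ j b (s, x) * chi G Ψ i j (s, x) * chi G Ψ a b (s, x)) - ee G Ψ (s, x) := by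
  have hp : (s, x) ∈ W := hR.mem s hs x hx
  have hQd : ∀ i j, DifferentiableAt ℝ (QQ G Ψ i j) (s, x) := fun i j => (QQ_smooth hR hp i j).differentiableAt (by simp)
  have hcd : ∀ i j, DifferentiableAt ℝ (chi G Ψ i j) (s, x) := fun i j => (chi_smooth hR hp i j).differentiableAt (by simp)
  have h1 : fderiv ℝ (exl G Ψ) (s, x) dS = ∑ i, ∑ j, (fderiv ℝ (QQ G Ψ i j) (s, x) dS * chi G Ψ i j (s, x) +
      QQ G Ψ i j (s, x) * fderiv ℝ (chi G Ψ i j) (s, x) dS) := by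
    have h : HasFDerivAt (exl G Ψ) (∑ i, ∑ j, (QQ G Ψ i j (s, x) • fderiv ℝ (chi G Ψ i j) (s, x) +
        chi G Ψ i j (s, x) • fderiv ℝ (QQ G Ψ i j) (s, x))) (s, x) := by
      unfold exl
      refine HasFDerivAt.fun_sum fun i _ => HasFDerivAt.fun_sum fun j _ => ?_
      exact (hQd i j).hasFDerivAt.mul (hcd i j).hasFDerivAt
    rw [h.fderiv]
    simp only [sum_apply, add_apply, smul_apply, smul_eq_mul]
    refine Finset.sum_congr rfl fun i _ => Finset.sum_congr rfl fun j _ => ?_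
    ring
  rw [h1, ee_eq hR hs hx]
  have h2 := b4c_alg (fun i j => QQ G Ψ i j (s, x)) (fun i j => chi G Ψ i j (s, x))
    (fun i j => ip G (Ph Ψ (s, x)) (riem G (Ph Ψ (s, x)) (LL Ψ (s, x)) (XX Ψ i (s, x)) (LL Ψ (s, x))) (XX Ψ j (s, x)))
    (fun i j => QQ_symm hR hp i j)
  simp only [QQ_ds hR hs hx, chi_ds hR hs hx]
  rw [sub_neg_eq_add]
  exact h2

/-- `Q = Q P Q`. -/
theorem b4c_Qpos (hR : Reg G Ψ W) {p : ℝ × E3} (hp : p ∈ W) (ξ : Fin 3 → ℝ) :
    0 ≤ ∑ i, ∑ j, QQ G Ψ i j p * ξ i * ξ j := by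
  set η : Fin 3 → ℝ := fun i => ∑ j, QQ G Ψ i j p * ξ j with hη
  have h1 : 0 ≤ ∑ i, ∑ j, PP G Ψ p i j * η i * η j := by
    by_cases h0 : η = 0
    · simp [h0]
    · exact (hR.pos p hp η h0).le
  have hxη : ∑ i, p.2 i * η i = 0 := by
    have : ∑ i, p.2 i * η i = ∑ j, (∑ i, QQ G Ψ j i p * p.2 i) * ξ j := by
      simp only [hη, Finset.mul_sum, Finset.sum_mul]
      rw [Finset.sum_comm]
      refine Finset.sum_congr rfl fun j _ => Finset.sum_congr rfl fun i _ => ?_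
      rw [QQ_symm hR hp i j]
      ring
    rw [this]
    simp [QQ_rad hR hp]
  have hPη : ∀ i, ∑ j, PP G Ψ p i j * η j = ξ i - p.2 i * (∑ m, p.2 m * ξ m) / ‖p.2‖ ^ 2 := by
    intro i
    have e1 : ∑ j, PP G Ψ p i j * η j = (∑ j, hh G Ψ i j p * η j) + p.2 i / ‖p.2‖ ^ 4 * ∑ j, p.2 j * η j := by
      rw [Finset.mul_sum, ← Finset.sum_add_distrib]
      refine Finset.sum_congr rfl fun j _ => ?_
      simp only [PP, Matrix.of_apply]
      ring
    have e2 : ∑ j, hh G Ψ i j p * η j = ∑ m, (∑ j, hh G Ψ i j p * QQ G Ψ j m p) * ξ m := by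
      simp only [hη, Finset.mul_sum, Finset.sum_mul]
      rw [Finset.sum_comm]
      refine Finset.sum_congr rfl fun j _ => Finset.sum_congr rfl fun m _ => ?_
      ring
    rw [e1, hxη, e2]
    simp only [hQ hR hp]
    rw [mul_zero, add_zero]
    have e3 : ∀ m, ((if i = m then (1 : ℝ) else 0) - p.2 i * p.2 m / ‖p.2‖ ^ 2) * ξ m =
        (if i = m then ξ m else 0) - p.2 i * (p.2 m * ξ m) / ‖p.2‖ ^ 2 := by
      intro m
      split_ifs <;> ring
    rw [Finset.sum_congr rfl fun m _ => e3 m, Finset.sum_sub_distrib, Finset.sum_ite_eq, ← Finset.sum_div, ← Finset.mul_sum]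
    simp
  have h2 : ∑ i, ∑ j, PP G Ψ p i j * η i * η j = ∑ i, ∑ j, QQ G Ψ i j p * ξ i * ξ j := by
    have e1 : ∀ i, ∑ j, PP G Ψ p i j * η i * η j = η i * (ξ i - p.2 i * (∑ m, p.2 m * ξ m) / ‖p.2‖ ^ 2) := by
      intro i
      rw [← hPη i, Finset.mul_sum]
      refine Finset.sum_congr rfl fun j _ => ?_
      ring
    rw [Finset.sum_congr rfl fun i _ => e1 i]
    have e2 : ∑ i, η i * (ξ i - p.2 i * (∑ m, p.2 m * ξ m) / ‖p.2‖ ^ 2) =
        (∑ i, η i * ξ i) - (∑ i, p.2 i * η i) * ((∑ m, p.2 m * ξ m) / ‖p.2‖ ^ 2) := by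
      rw [Finset.sum_mul, ← Finset.sum_sub_distrib]
      refine Finset.sum_congr rfl fun i _ => ?_
      ring
    rw [e2, hxη, zero_mul, sub_zero]
    refine Finset.sum_congr rfl fun i _ => ?_
    simp only [hη, Finset.sum_mul]
    refine Finset.sum_congr rfl fun j _ => ?_
    ring
  rw [h2] at h1
  exact h1

/-- `|A|² ≥ 0` for a positive semidefinite `Q`. -/
theorem b4c_nonneg (Q : Fin 3 → Fin 3 → ℝ) (hs : ∀ i j, Q i j = Q j i) (hQ : ∀ ξ : Fin 3 → ℝ, 0 ≤ ∑ i, ∑ j, Q i j * ξ i * ξ j)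
    (A : Fin 3 → Fin 3 → ℝ) : 0 ≤ ∑ i, ∑ j, ∑ a, ∑ b, Q i a * Q j b * A i j * A a b := by
  have hM : (Matrix.of Q).PosSemidef := by
    refine Matrix.PosSemidef.of_dotProduct_mulVec_nonneg ?_ ?_
    · ext i j
      simp [Matrix.conjTranspose, hs j i]
    · intro ξ
      have h := hQ ξ
      have e : star ξ ⬝ᵥ (Matrix.of Q).mulVec ξ = ∑ i, ∑ j, Q i j * ξ i * ξ j := by
        simp only [dotProduct, Matrix.mulVec, Matrix.of_apply, Finset.mul_sum]
        refine Finset.sum_congr rfl fun i _ => Finset.sum_congr rfl fun j _ => ?_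
        simp
        ring
      rw [e]
      exact h
  obtain ⟨m, C, hC⟩ := Matrix.posSemidef_iff_eq_sum_vecMulVec.mp hM
  have hQC : ∀ i a, Q i a = ∑ c, C c i * C c a := by
    intro i a
    have := congrFun (congrFun hC i) a
    simpa [Matrix.sum_apply, Matrix.vecMulVec] using this
  have h1 : ∑ i, ∑ j, ∑ a, ∑ b, Q i a * Q j b * A i j * A a b = ∑ c, ∑ d, (∑ i, ∑ j, C c i * C d j * A i j) ^ 2 := by
    have e1 : ∀ c d, (∑ i, ∑ j, C c i * C d j * A i j) ^ 2 =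
        ∑ i, ∑ j, ∑ a, ∑ b, (C c i * C c a) * (C d j * C d b) * A i j * A a b := by
      intro c d
      rw [sq, Finset.sum_mul_sum]
      refine Finset.sum_congr rfl fun i _ => ?_
      rw [Finset.sum_comm]
      have : ∀ a, (∑ j, C c i * C d j * A i j) * (∑ b, C c a * C d b * A a b) =
          ∑ j, ∑ b, (C c i * C c a) * (C d j * C d b) * A i j * A a b := by
        intro a
        rw [Finset.sum_mul_sum]
        refine Finset.sum_congr rfl fun j _ => Finset.sum_congr rfl fun b _ => ?_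
        ring
      rw [Finset.sum_congr rfl fun a _ => this a]
    simp only [e1]
    have e2 : ∀ i j a b, Q i a * Q j b * A i j * A a b = ∑ c, ∑ d, (C c i * C c a) * (C d j * C d b) * A i j * A a b := by
      intro i j a b
      rw [hQC i a, hQC j b, Finset.sum_mul_sum, Finset.sum_mul, Finset.sum_mul]
      refine Finset.sum_congr rfl fun c _ => ?_
      rw [Finset.sum_mul, Finset.sum_mul]
    simp only [e2]
    have sw : ∀ f : Fin 3 → Fin 3 → Fin 3 → Fin 3 → Fin m → Fin m → ℝ,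
        ∑ i, ∑ j, ∑ a, ∑ b, ∑ c, ∑ d, f i j a b c d = ∑ c, ∑ d, ∑ i, ∑ j, ∑ a, ∑ b, f i j a b c d := by
      intro f
      simp only [← Fintype.sum_prod_type']
      refine Fintype.sum_equiv ⟨fun q => (q.2.2.2.2.1, q.2.2.2.2.2, q.1, q.2.1, q.2.2.1, q.2.2.2.1),
        fun q => (q.2.2.1, q.2.2.2.1, q.2.2.2.2.1, q.2.2.2.2.2, q.1, q.2.1), fun q => rfl, fun q => rfl⟩ _ _ ?_
      intro q
      rfl
    exact sw fun i j a b c d => (C c i * C c a) * (C d j * C d b) * A i j * A a b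
  rw [h1]
  positivity

theorem b4c_cs (Q h A : Fin 3 → Fin 3 → ℝ) (x : Fin 3 → ℝ) (N : ℝ) (hN : N ≠ 0) (hxN : ∑ i, x i ^ 2 = N)
    (hs : ∀ i j, Q i j = Q j i) (hQ : ∀ ξ : Fin 3 → ℝ, 0 ≤ ∑ i, ∑ j, Q i j * ξ i * ξ j)
    (hx : ∀ i, ∑ j, Q i j * x j = 0) (hhQ : ∀ i j, ∑ l, h i l * Q l j = (if i = j then 1 else 0) - x i * x j / N) :
    (∑ i, ∑ j, Q i j * A i j) ^ 2 / 2 ≤ ∑ i, ∑ j, ∑ a, ∑ b, Q i a * Q j b * A i j * A a b := by
  -- contraction with `h`
  have hB : ∀ B : Fin 3 → Fin 3 → ℝ, ∑ i, ∑ j, ∑ a, ∑ b, Q i a * Q j b * B i j * h a b = ∑ i, ∑ j, Q i j * B i j := by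
    intro B
    have e1 : ∀ i j, ∑ a, ∑ b, Q i a * Q j b * B i j * h a b = Q i j * B i j := by
      intro i j
      have e2 : ∀ a, ∑ b, Q i a * Q j b * B i j * h a b = B i j * (Q i a * ∑ b, h a b * Q b j) := by
        intro a
        rw [Finset.mul_sum, Finset.mul_sum]
        refine Finset.sum_congr rfl fun b _ => ?_
        rw [hs b j]
        ring
      rw [Finset.sum_congr rfl fun a _ => e2 a, ← Finset.mul_sum]
      have e3 : ∑ a, Q i a * ∑ b, h a b * Q b j = Q i j := by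
        have e4 : ∀ a, Q i a * ∑ b, h a b * Q b j = (if a = j then Q i a else 0) - Q i a * x a * (x j / N) := by
          intro a
          rw [hhQ a j]
          split_ifs <;> ring
        rw [Finset.sum_congr rfl fun a _ => e4 a, Finset.sum_sub_distrib, ← Finset.sum_mul, hx i]
        simp
      rw [e3]
      ring
    exact Finset.sum_congr rfl fun i _ => Finset.sum_congr rfl fun j _ => e1 i j
  have hsw : ∑ i, ∑ j, ∑ a, ∑ b, Q i a * Q j b * h i j * A a b = ∑ i, ∑ j, Q i j * A i j := by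
    have sw : ∀ f : Fin 3 → Fin 3 → Fin 3 → Fin 3 → ℝ,
        ∑ i, ∑ j, ∑ a, ∑ b, f i j a b = ∑ a, ∑ b, ∑ i, ∑ j, f i j a b := by
      intro f
      simp only [← Fintype.sum_prod_type']
      refine Fintype.sum_equiv ⟨fun q => (q.2.2.1, q.2.2.2, q.1, q.2.1),
        fun q => (q.2.2.1, q.2.2.2, q.1, q.2.1), fun q => rfl, fun q => rfl⟩ _ _ ?_
      intro q
      rfl
    rw [sw fun i j a b => Q i a * Q j b * h i j * A a b, ← hB A]
    refine Finset.sum_congr rfl fun a _ => Finset.sum_congr rfl fun b _ => Finset.sum_congr rfl fun i _ =>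
      Finset.sum_congr rfl fun j _ => ?_
    rw [hs i a, hs j b]
    ring
  have hhh : ∑ i, ∑ j, Q i j * h i j = 2 := by
    have e1 : ∀ i, ∑ j, Q i j * h i j = 1 - x i ^ 2 / N := by
      intro i
      have := hhQ i i
      rw [if_pos rfl] at this
      rw [← pow_two] at this
      rw [← this]
      refine Finset.sum_congr rfl fun j _ => ?_
      rw [hs i j]
      ring
    rw [Finset.sum_congr rfl fun i _ => e1 i, Finset.sum_sub_distrib, ← Finset.sum_div, hxN, div_self hN]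
    simp
    norm_num
  have hpos : ∀ t : ℝ, 0 ≤ (∑ i, ∑ j, ∑ a, ∑ b, Q i a * Q j b * A i j * A a b) - 2 * t * (∑ i, ∑ j, Q i j * A i j) + 2 * t ^ 2 := by
    intro t
    have h1 := b4c_nonneg Q hs hQ fun i j => A i j - t * h i j
    have h2 : ∑ i, ∑ j, ∑ a, ∑ b, Q i a * Q j b * (A i j - t * h i j) * (A a b - t * h a b) =
        (∑ i, ∑ j, ∑ a, ∑ b, Q i a * Q j b * A i j * A a b) - t * (∑ i, ∑ j, ∑ a, ∑ b, Q i a * Q j b * A i j * h a b) -
          t * (∑ i, ∑ j, ∑ a, ∑ b, Q i a * Q j b * h i j * A a b) +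
          t ^ 2 * ∑ i, ∑ j, ∑ a, ∑ b, Q i a * Q j b * h i j * h a b := by
      simp only [Finset.mul_sum, ← Finset.sum_add_distrib, ← Finset.sum_sub_distrib]
      refine Finset.sum_congr rfl fun i _ => Finset.sum_congr rfl fun j _ => Finset.sum_congr rfl fun a _ =>
        Finset.sum_congr rfl fun b _ => ?_
      ring
    rw [h2, hB A, hsw, hB h, hhh] at h1
    linarith
  have h3 := hpos ((∑ i, ∑ j, Q i j * A i j) / 2)
  nlinarith [h3]

/-- Cauchy-Schwarz for the trace of a symmetric form on a plane: `(Q^ij χ_ij)² ≤ 2 |χ|²`. `Q` is positive semidefinite of rank two: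
diagonalise, or: for all real `t` the form `χ - t h` has nonnegative square `|χ - t h|² = |χ|² - 2 t exL + 2 t² ≥ 0` (`|A|² ≥ 0` for a symmetric `A`
with `A x = 0`: with `Q = ∑_c v_c v_cᵀ` it is `∑ (A(v_c, v_d))²`), take `t = exL / 2`. -/
theorem chi_cs (hR : Reg G Ψ W) {s : ℝ} (hs : 0 ≤ s) {x : E3} (hx : x ≠ 0) :
    exl G Ψ (s, x) ^ 2 / 2 ≤
      ∑ i, ∑ j, ∑ a, ∑ b, QQ G Ψ i a (s, x) * QQ G Ψ j b (s, x) * chi G Ψ i j (s, x) * chi G Ψ a b (s, x) := by
  have hp : (s, x) ∈ W := hR.mem s hs x hx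
  have hN : ‖x‖ ^ 2 ≠ 0 := pow_ne_zero 2 (norm_ne_zero_iff.mpr hx)
  exact b4c_cs (fun i j => QQ G Ψ i j (s, x)) (fun i j => hh G Ψ i j (s, x)) (fun i j => chi G Ψ i j (s, x)) (fun i => x i)
    (‖x‖ ^ 2) hN (EuclideanSpace.real_norm_sq_eq x).symm (fun i j => QQ_symm hR hp i j) (b4c_Qpos hR hp) (fun i => QQ_rad hR hp i)
    (fun i j => hQ hR hp i j)

end H17W
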