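import Pool.Agent.Lib.H17W.B3B
import Pool.Agent.Lib.H17W.B3F

set_option autoImplicit false

/-!
# H17W, chunk B4A (M): the derivative of `X_j`, Raychaudhuri's equation

Auxiliary names start with `b4a_`.
-/

open MeasureTheory Filter Topology Set
open scoped ContDiff

namespace H17W

open H17T (E4 pt pos)
open Pool.Agent.Lib.PenroseSph (E3 S2 sm)

variable {G : E4 → Matrix (Fin 4) (Fin 4) ℝ} {Ψ : ℝ × E3 → E4} {W : Set (ℝ × E3)}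

theorem b4a_ip_sum {d n : ℕ} {G : H31R.EE d → Matrix (Fin d) (Fin d) ℝ} {p : H31R.EE d} (c : Fin n → ℝ) (f : Fin n → Fin d → ℝ)
    (b : Fin d → ℝ) : ip G p (∑ m, c m • f m) b = ∑ m, c m * ip G p (f m) b := by
  classical
  have h : ∀ s : Finset (Fin n), ip G p (∑ m ∈ s, c m • f m) b = ∑ m ∈ s, c m * ip G p (f m) b := by
    intro s
    induction s using Finset.induction_on with
    | empty => simp [ip]
    | insert a s ha ih => rw [Finset.sum_insert ha, Finset.sum_insert ha, ip_add_left, ip_smul_left, ih]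
  exact h Finset.univ

theorem b4a_ip_sub {d : ℕ} {G : H31R.EE d → Matrix (Fin d) (Fin d) ℝ} {p : H31R.EE d} (a a' b : Fin d → ℝ) :
    ip G p (a - a') b = ip G p a b - ip G p a' b := by
  have h : a = (a - a') + a' := by simp
  have h2 := ip_add_left (G := G) (p := p) (a - a') a' b
  rw [← h] at h2
  linarith

theorem b4a_mem (hR : Reg G Ψ W) {s : ℝ} (hs : 0 ≤ s) {x : E3} (hx : x ≠ 0) : (s, x) ∈ W := hR.mem s hs x hx

theorem b4a_Xdiff (hR : Reg G Ψ W) {p : ℝ × E3} (hp : p ∈ W) (i : Fin 3) :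
    ∀ a, DifferentiableAt ℝ (fun q => XX Ψ i q a) p := fun a => (XX_smooth hR hp i a).differentiableAt (by simp)

theorem b4a_Phdiff (hR : Reg G Ψ W) {p : ℝ × E3} (hp : p ∈ W) : DifferentiableAt ℝ (Ph Ψ) p :=
  (hR.smooth p hp).differentiableAt (by simp)

theorem b4a_dh (hR : Reg G Ψ W) {s : ℝ} (hs : 0 ≤ s) {x : E3} (hx : x ≠ 0) (i j l : Fin 3) :
    fderiv ℝ (hh G Ψ j l) (s, x) (dX i) =
      ip G (Ph Ψ (s, x)) (cov G (Ph Ψ) (XX Ψ j) (s, x) (dX i)) (XX Ψ l (s, x)) +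
        ip G (Ph Ψ (s, x)) (cov G (Ph Ψ) (XX Ψ l) (s, x) (dX i)) (XX Ψ j (s, x)) := by
  have hp := b4a_mem hR hs hx
  have h := ip_cov (hR.met _ hp) (b4a_Phdiff hR hp) (b4a_Xdiff hR hp j) (b4a_Xdiff hR hp l) (dX i)
  rw [ip_symm (hR.met _ hp) (XX Ψ j (s, x)) (cov G (Ph Ψ) (XX Ψ l) (s, x) (dX i))] at h
  exact h

/-- Koszul's formula: `<D_i X_j, X_l> = (∂_i h_jl + ∂_j h_il - ∂_l h_ij) / 2` (`ip_cov`, `DXX_symm`), and this is
`∑ cc^m_ij h_ml` (`cc_lower`). -/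
theorem ip_DXX (hR : Reg G Ψ W) {s : ℝ} (hs : 0 ≤ s) {x : E3} (hx : x ≠ 0) (i j l : Fin 3) :
    ip G (Ph Ψ (s, x)) (cov G (Ph Ψ) (XX Ψ j) (s, x) (dX i)) (XX Ψ l (s, x)) = ∑ m, cc G Ψ m i j (s, x) * hh G Ψ m l (s, x) := by
  have hp := b4a_mem hR hs hx
  rw [cc_lower hR hs hx i j l, b4a_dh hR hs hx i j l, b4a_dh hR hs hx j i l, b4a_dh hR hs hx l i j,
    DXX_symm hR hp j i, DXX_symm hR hp l i, DXX_symm hR hp l j]
  ring

/-- `D_i X_j = ∑ cc^m_ij X_m - (κ_ij L + χ_ij k) / 2`: `expand` for the difference `Y` of `D_i X_j` and `∑ cc^m_ij X_m`, with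
`ip_DXX`, `chi_eq`, `kap_eq`. -/
theorem DXX (hR : Reg G Ψ W) {s : ℝ} (hs : 0 ≤ s) {x : E3} (hx : x ≠ 0) (i j : Fin 3) :
    cov G (Ph Ψ) (XX Ψ j) (s, x) (dX i) = (∑ m, cc G Ψ m i j (s, x) • XX Ψ m (s, x)) -
      (kap G Ψ i j (s, x) / 2) • LL Ψ (s, x) - (chi G Ψ i j (s, x) / 2) • kk G Ψ (s, x) := by
  have hp := b4a_mem hR hs hx
  have hmet := hR.met _ hp
  have hX : ∀ l, ip G (Ph Ψ (s, x)) (cov G (Ph Ψ) (XX Ψ j) (s, x) (dX i) - ∑ m, cc G Ψ m i j (s, x) • XX Ψ m (s, x))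
      (XX Ψ l (s, x)) = 0 := by
    intro l
    rw [b4a_ip_sub, b4a_ip_sum, ip_DXX hR hs hx]
    exact sub_self _
  have hk : ip G (Ph Ψ (s, x)) (cov G (Ph Ψ) (XX Ψ j) (s, x) (dX i) - ∑ m, cc G Ψ m i j (s, x) • XX Ψ m (s, x))
      (kk G Ψ (s, x)) = -kap G Ψ i j (s, x) := by
    rw [b4a_ip_sub, b4a_ip_sum, kap_eq hR hs hx]
    have h0 : ∀ m, ip G (Ph Ψ (s, x)) (XX Ψ m (s, x)) (kk G Ψ (s, x)) = 0 := by
      intro m
      rw [ip_symm hmet]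
      exact kk_X hR hs hx m
    simp [h0]
  have hL : ip G (Ph Ψ (s, x)) (cov G (Ph Ψ) (XX Ψ j) (s, x) (dX i) - ∑ m, cc G Ψ m i j (s, x) • XX Ψ m (s, x))
      (LL Ψ (s, x)) = -chi G Ψ i j (s, x) := by
    rw [b4a_ip_sub, b4a_ip_sum, chi_eq hR hs hx]
    have h0 : ∀ m, ip G (Ph Ψ (s, x)) (XX Ψ m (s, x)) (LL Ψ (s, x)) = 0 := by
      intro m
      rw [ip_symm hmet]
      exact hR.orth s hs x hx m
    simp [h0]
  have hE := expand hmet (nframe hR hs hx) (cov G (Ph Ψ) (XX Ψ j) (s, x) (dX i) - ∑ m, cc G Ψ m i j (s, x) • XX Ψ m (s, x))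
  rw [hk, hL] at hE
  simp only [hX, mul_zero, Finset.sum_const_zero, zero_smul, zero_add] at hE
  rw [sub_eq_iff_eq_add] at hE
  rw [hE]
  module

/-- `∂_i h_jl = ∑ (cc^m_ij h_ml + cc^m_il h_mj)` (`h` is parallel). -/
theorem hh_di (hR : Reg G Ψ W) {s : ℝ} (hs : 0 ≤ s) {x : E3} (hx : x ≠ 0) (i j l : Fin 3) :
    fderiv ℝ (hh G Ψ j l) (s, x) (dX i) =
      ∑ m, (cc G Ψ m i j (s, x) * hh G Ψ m l (s, x) + cc G Ψ m i l (s, x) * hh G Ψ m j (s, x)) := by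
  rw [b4a_dh hR hs hx i j l, ip_DXX hR hs hx, ip_DXX hR hs hx, Finset.sum_add_distrib]

end H17W
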