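import Pool.Agent.Lib.H17W.B5A

set_option autoImplicit false

/-!
# H17W, chunk B5B (M): Codazzi and the torsion equation

Auxiliary names start with `b5b_`.
-/

open MeasureTheory Filter Topology Set
open scoped ContDiff

namespace H17W

open H17T (E4 pt pos)
open Pool.Agent.Lib.PenroseSph (E3 S2 sm)

variable {G : E4 → Matrix (Fin 4) (Fin 4) ℝ} {Ψ : ℝ × E3 → E4} {W : Set (ℝ × E3)}

/-- The derivative of a trace. -/
theorem b5b_trace {Q χ : Fin 3 → Fin 3 → ℝ × E3 → ℝ} {p : ℝ × E3} (v : ℝ × E3)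
    (hQ : ∀ i l, DifferentiableAt ℝ (Q i l) p) (hχ : ∀ i l, DifferentiableAt ℝ (χ i l) p) :
    fderiv ℝ (fun q => ∑ i, ∑ l, Q i l q * χ i l q) p v =
      (∑ i, ∑ l, Q i l p * fderiv ℝ (χ i l) p v) + ∑ i, ∑ l, fderiv ℝ (Q i l) p v * χ i l p := by
  have h : HasFDerivAt (fun q => ∑ i, ∑ l, Q i l q * χ i l q)
      (∑ i, ∑ l, (Q i l p • fderiv ℝ (χ i l) p + χ i l p • fderiv ℝ (Q i l) p)) p := by
    apply HasFDerivAt.fun_sum
    intro i _
    apply HasFDerivAt.fun_sum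
    intro l _
    exact (hQ i l).hasFDerivAt.mul (hχ i l).hasFDerivAt
  rw [h.fderiv, ContinuousLinearMap.sum_apply, ← Finset.sum_add_distrib]
  refine Finset.sum_congr rfl fun i _ => ?_
  rw [ContinuousLinearMap.sum_apply, ← Finset.sum_add_distrib]
  refine Finset.sum_congr rfl fun l _ => ?_
  simp only [ContinuousLinearMap.add_apply, ContinuousLinearMap.smul_apply, smul_eq_mul]
  ring

/-- Index algebra for `exl_di`. -/
theorem b5b_alg1 (Q χ : Fin 3 → Fin 3 → ℝ) (c : Fin 3 → Fin 3 → Fin 3 → ℝ) (j : Fin 3)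
    (hQ : ∀ i l, Q i l = Q l i) (hχ : ∀ i l, χ i l = χ l i) :
    ∑ i, ∑ l, (-∑ m, (c i j m * Q m l + c l j m * Q i m)) * χ i l = -(2 * ∑ i, ∑ l, ∑ m, c i j m * Q m l * χ i l) := by
  have h1 : ∑ i, ∑ l, ∑ m, c l j m * Q i m * χ i l = ∑ i, ∑ l, ∑ m, c i j m * Q m l * χ i l := by
    rw [Finset.sum_comm]
    refine Finset.sum_congr rfl fun i _ => Finset.sum_congr rfl fun l _ => Finset.sum_congr rfl fun m _ => ?_
    rw [hQ l m, hχ l i]
  have h2 : ∑ i, ∑ l, (-∑ m, (c i j m * Q m l + c l j m * Q i m)) * χ i l =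
      -(∑ i, ∑ l, ∑ m, c i j m * Q m l * χ i l) - ∑ i, ∑ l, ∑ m, c l j m * Q i m * χ i l := by
    rw [← Finset.sum_neg_distrib, ← Finset.sum_sub_distrib]
    refine Finset.sum_congr rfl fun i _ => ?_
    rw [← Finset.sum_neg_distrib, ← Finset.sum_sub_distrib]
    refine Finset.sum_congr rfl fun l _ => ?_
    rw [neg_mul, Finset.sum_mul, ← Finset.sum_neg_distrib, ← Finset.sum_neg_distrib, ← Finset.sum_sub_distrib]
    refine Finset.sum_congr rfl fun m _ => ?_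
    ring
  rw [h2, h1]
  ring

/-- Index algebra for `codazzi_tr`. -/
theorem b5b_alg2 (Q χ : Fin 3 → Fin 3 → ℝ) (c D : Fin 3 → Fin 3 → Fin 3 → ℝ) (z : Fin 3 → ℝ) (j : Fin 3)
    (hQ : ∀ i l, Q i l = Q l i) (hχ : ∀ i l, χ i l = χ l i) (hc : ∀ k i l, c k i l = c k l i) :
    ∑ i, ∑ l, Q i l * (D j l i - D i l j - ∑ m, c m i l * χ j m + ∑ m, c m j l * χ i m + z j * χ i l - z i * χ j l) =
      (∑ i, ∑ l, Q i l * (D j l i - ∑ m, c m i l * χ m j - ∑ m, c m i j * χ l m)) -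
        ((∑ i, ∑ l, Q i l * D i l j) - 2 * ∑ i, ∑ l, ∑ m, c i j m * Q m l * χ i l) +
        z j * (∑ i, ∑ l, Q i l * χ i l) - ∑ a, ∑ b, Q a b * χ j a * z b := by
  have t2 : ∑ i, ∑ l, Q i l * ∑ m, c m i j * χ l m = ∑ i, ∑ l, Q i l * ∑ m, c m j l * χ i m := by
    rw [Finset.sum_comm]
    refine Finset.sum_congr rfl fun i _ => Finset.sum_congr rfl fun l _ => ?_
    rw [hQ l i]
    congr 1
    refine Finset.sum_congr rfl fun m _ => ?_
    rw [hc m l j]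
  have t3 : ∑ i, ∑ l, ∑ m, c i j m * Q m l * χ i l = ∑ i, ∑ l, Q i l * ∑ m, c m j l * χ i m := by
    have e1 : ∑ i, ∑ l, Q i l * ∑ m, c m j l * χ i m = ∑ i, ∑ m, ∑ l, c m j l * Q l i * χ m i := by
      refine Finset.sum_congr rfl fun i _ => ?_
      rw [Finset.sum_comm]
      refine Finset.sum_congr rfl fun l _ => ?_
      rw [Finset.mul_sum]
      refine Finset.sum_congr rfl fun m _ => ?_
      rw [hQ i l, hχ i m]
      ring
    rw [e1, Finset.sum_comm]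
  have t4 : ∑ i, ∑ l, Q i l * (z i * χ j l) = ∑ a, ∑ b, Q a b * χ j a * z b := by
    rw [Finset.sum_comm]
    refine Finset.sum_congr rfl fun i _ => Finset.sum_congr rfl fun l _ => ?_
    rw [hQ l i]
    ring
  have t5 : ∑ i, ∑ l, Q i l * ∑ m, c m i l * χ j m = ∑ i, ∑ l, Q i l * ∑ m, c m i l * χ m j := by
    refine Finset.sum_congr rfl fun i _ => Finset.sum_congr rfl fun l _ => ?_
    congr 1
    refine Finset.sum_congr rfl fun m _ => ?_
    rw [hχ j m]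
  have t6 : ∑ i, ∑ l, Q i l * (z j * χ i l) = z j * ∑ i, ∑ l, Q i l * χ i l := by
    rw [Finset.mul_sum]
    refine Finset.sum_congr rfl fun i _ => ?_
    rw [Finset.mul_sum]
    refine Finset.sum_congr rfl fun l _ => ?_
    ring
  simp only [mul_sub, mul_add, Finset.sum_sub_distrib, Finset.sum_add_distrib]
  rw [t2, t3, t4, t5, t6]
  ring

/-- The derivative of `exL = Q^il χ_il` with `QQ_di`. -/
theorem exl_di (hR : Reg G Ψ W) {s : ℝ} (hs : 0 ≤ s) {x : E3} (hx : x ≠ 0) (j : Fin 3) :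
    fderiv ℝ (exl G Ψ) (s, x) (dX j) = (∑ i, ∑ l, QQ G Ψ i l (s, x) * fderiv ℝ (chi G Ψ i l) (s, x) (dX j)) -
      2 * ∑ i, ∑ l, ∑ m, cc G Ψ i j m (s, x) * QQ G Ψ m l (s, x) * chi G Ψ i l (s, x) := by
  have hp : (s, x) ∈ W := hR.mem s hs x hx
  have h1 : fderiv ℝ (exl G Ψ) (s, x) (dX j) =
      (∑ i, ∑ l, QQ G Ψ i l (s, x) * fderiv ℝ (chi G Ψ i l) (s, x) (dX j)) +
        ∑ i, ∑ l, fderiv ℝ (QQ G Ψ i l) (s, x) (dX j) * chi G Ψ i l (s, x) :=
    b5b_trace (dX j) (fun i l => (QQ_smooth hR hp i l).differentiableAt (by simp))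
      (fun i l => (chi_smooth hR hp i l).differentiableAt (by simp))
  rw [h1]
  simp only [QQ_di hR hs hx j]
  rw [b5b_alg1 (fun i l => QQ G Ψ i l (s, x)) (fun i l => chi G Ψ i l (s, x))
    (fun k i l => cc G Ψ k i l (s, x)) j (fun i l => QQ_symm hR hp i l) (fun i l => chi_symm hR hs hx i l)]
  ring

/-- The contraction of `codazzi` with `Q^il` (`exl_di`, `chi_symm`, `QQ_symm`, `cc_symm`). -/
theorem codazzi_tr (hR : Reg G Ψ W) {s : ℝ} (hs : 0 ≤ s) {x : E3} (hx : x ≠ 0) (j : Fin 3) :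
    ∑ i, ∑ l, QQ G Ψ i l (s, x) *
      ip G (Ph Ψ (s, x)) (riem G (Ph Ψ (s, x)) (XX Ψ i (s, x)) (XX Ψ j (s, x)) (LL Ψ (s, x))) (XX Ψ l (s, x)) =
      dchi G Ψ j (s, x) - fderiv ℝ (exl G Ψ) (s, x) (dX j) + zet G Ψ j (s, x) * exl G Ψ (s, x) -
        ∑ a, ∑ b, QQ G Ψ a b (s, x) * chi G Ψ j a (s, x) * zet G Ψ b (s, x) := by
  have hp : (s, x) ∈ W := hR.mem s hs x hx
  have hd : ∀ i l, fderiv ℝ (chi G Ψ l j) (s, x) (dX i) = fderiv ℝ (chi G Ψ j l) (s, x) (dX i) := by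
    intro i l
    exact fd_slice (fun y hy => chi_symm hR hs hy l j) hx ((chi_smooth hR hp l j).differentiableAt (by simp))
      ((chi_smooth hR hp j l).differentiableAt (by simp)) i
  have hdchi : dchi G Ψ j (s, x) = ∑ i, ∑ l, QQ G Ψ i l (s, x) * (fderiv ℝ (chi G Ψ j l) (s, x) (dX i) -
      ∑ m, cc G Ψ m i l (s, x) * chi G Ψ m j (s, x) - ∑ m, cc G Ψ m i j (s, x) * chi G Ψ l m (s, x)) := by
    unfold dchi
    simp only [hd]
  have hexl : exl G Ψ (s, x) = ∑ i, ∑ l, QQ G Ψ i l (s, x) * chi G Ψ i l (s, x) := rfl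
  simp only [codazzi hR hs hx]
  rw [hdchi, exl_di hR hs hx j, hexl]
  exact b5b_alg2 (fun i l => QQ G Ψ i l (s, x)) (fun i l => chi G Ψ i l (s, x))
    (fun k i l => cc G Ψ k i l (s, x)) (fun i l k => fderiv ℝ (chi G Ψ i l) (s, x) (dX k))
    (fun i => zet G Ψ i (s, x)) j (fun i l => QQ_symm hR hp i l) (fun i l => chi_symm hR hs hx i l)
    (fun k i l => cc_symm hR hs hx k i l)

end H17W
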