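import Pool.Agent.Lib.H17W.B5B

set_option autoImplicit false

/-!
# H17W, chunk B5C (M): Codazzi and the torsion equation

Auxiliary names start with `b5c_`.
-/

open MeasureTheory Filter Topology Set
open scoped ContDiff

namespace H17W

open H17T (E4 pt pos)
open Pool.Agent.Lib.PenroseSph (E3 S2 sm)

variable {G : E4 → Matrix (Fin 4) (Fin 4) ℝ} {Ψ : ℝ × E3 → E4} {W : Set (ℝ × E3)}

/-- The covariant derivative of the zero field. -/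
theorem b5c_cov_zero (p v : ℝ × E3) : cov G (Ph Ψ) (fun _ => (0 : Fin 4 → ℝ)) p v = 0 := by
  funext a
  simp [cov, gam]

/-- `D_s D_j L = R(L, X_j) L`. -/
theorem b5c_DsDj (hR : Reg G Ψ W) {s : ℝ} (hs : 0 ≤ s) {x : E3} (hx : x ≠ 0) (j : Fin 3) :
    cov G (Ph Ψ) (fun y => cov G (Ph Ψ) (LL Ψ) y (dX j)) (s, x) dS =
      riem G (Ph Ψ (s, x)) (LL Ψ (s, x)) (XX Ψ j (s, x)) (LL Ψ (s, x)) := by
  have hp : (s, x) ∈ W := hR.mem s hs x hx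
  have hc : cov G (Ph Ψ) (fun y => cov G (Ph Ψ) (LL Ψ) y (dX j)) (s, x) dS -
        cov G (Ph Ψ) (fun y => cov G (Ph Ψ) (LL Ψ) y dS) (s, x) (dX j) =
      riem G (Ph Ψ (s, x)) (LL Ψ (s, x)) (XX Ψ j (s, x)) (LL Ψ (s, x)) :=
    cov_comm (hR.met _ hp) (b5a_phi hR hp) (b5a_LL hR hp) dS (dX j)
  have h0 : cov G (Ph Ψ) (fun y => cov G (Ph Ψ) (LL Ψ) y dS) (s, x) (dX j) = 0 := by
    rw [cov_slice (A := fun y => cov G (Ph Ψ) (LL Ψ) y dS) (B := fun _ => (0 : Fin 4 → ℝ)) (s := s)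
      (fun y hy => hR.geo s hs y hy) hx (fun a => b5a_cov_diff hR hp dS a)
      (fun a => differentiableAt_const _) j]
    exact b5c_cov_zero _ _
  rw [← hc, h0, sub_zero]

/-- `2 ζ_j = <D_j L, k>`: `<D_s D_j L, k> = <R(L,X_j)L, k>`, `<D_j L, D_s k> = - 2 ζ^a χ_ja` (`Dsk`). -/
theorem zet_ds (hR : Reg G Ψ W) {s : ℝ} (hs : 0 < s) {x : E3} (hx : x ≠ 0) (j : Fin 3) :
    fderiv ℝ (zet G Ψ j) (s, x) dS =
      ip G (Ph Ψ (s, x)) (riem G (Ph Ψ (s, x)) (LL Ψ (s, x)) (XX Ψ j (s, x)) (LL Ψ (s, x))) (kk G Ψ (s, x)) / 2 -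
        ∑ a, ∑ b, QQ G Ψ a b (s, x) * chi G Ψ j a (s, x) * zet G Ψ b (s, x) := by
  have hp : (s, x) ∈ W := hR.mem s hs.le x hx
  have hk : ∀ a, DifferentiableAt ℝ (fun y => kk G Ψ y a) (s, x) := fun a =>
    (kk_smooth hR hp a).differentiableAt (by simp)
  have h1 : fderiv ℝ (fun y => ip G (Ph Ψ y) (cov G (Ph Ψ) (LL Ψ) y (dX j)) (kk G Ψ y)) (s, x) dS =
      ip G (Ph Ψ (s, x)) (cov G (Ph Ψ) (fun y => cov G (Ph Ψ) (LL Ψ) y (dX j)) (s, x) dS) (kk G Ψ (s, x)) +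
        ip G (Ph Ψ (s, x)) (cov G (Ph Ψ) (LL Ψ) (s, x) (dX j)) (cov G (Ph Ψ) (kk G Ψ) (s, x) dS) :=
    ip_cov (A := fun y => cov G (Ph Ψ) (LL Ψ) y (dX j)) (B := kk G Ψ) (hR.met _ hp) (b5a_phi_diff hR hp)
      (fun a => b5a_cov_diff hR hp (dX j) a) hk dS
  have h2 : zet G Ψ j = fun y => (1 / 2 : ℝ) * ip G (Ph Ψ y) (cov G (Ph Ψ) (LL Ψ) y (dX j)) (kk G Ψ y) := by
    funext y
    unfold zet
    ring
  have hd : DifferentiableAt ℝ (fun y => ip G (Ph Ψ y) (cov G (Ph Ψ) (LL Ψ) y (dX j)) (kk G Ψ y)) (s, x) := by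
    have h3 : (fun y => ip G (Ph Ψ y) (cov G (Ph Ψ) (LL Ψ) y (dX j)) (kk G Ψ y)) = fun y => 2 * zet G Ψ j y := by
      funext y
      unfold zet
      ring
    rw [h3]
    exact ((zet_smooth hR hp j).differentiableAt (by simp)).const_mul 2
  have h4 : fderiv ℝ (zet G Ψ j) (s, x) dS =
      1 / 2 * fderiv ℝ (fun y => ip G (Ph Ψ y) (cov G (Ph Ψ) (LL Ψ) y (dX j)) (kk G Ψ y)) (s, x) dS := by
    rw [h2, fderiv_const_mul hd]
    rfl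
  have h5 : ip G (Ph Ψ (s, x)) (cov G (Ph Ψ) (LL Ψ) (s, x) (dX j)) (∑ a, zetU G Ψ a (s, x) • XX Ψ a (s, x)) =
      ∑ a, ∑ b, QQ G Ψ a b (s, x) * chi G Ψ j a (s, x) * zet G Ψ b (s, x) := by
    rw [b5a_sum_right]
    refine Finset.sum_congr rfl fun a _ => ?_
    have h6 : ip G (Ph Ψ (s, x)) (cov G (Ph Ψ) (LL Ψ) (s, x) (dX j)) (XX Ψ a (s, x)) = chi G Ψ j a (s, x) := rfl
    rw [h6]
    unfold zetU
    rw [Finset.sum_mul]
    refine Finset.sum_congr rfl fun b _ => ?_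
    ring
  rw [h4, h1, b5c_DsDj hR hs.le hx, Dsk hR hs hx, ip_smul_right, h5]
  ring

/-- The torsion equation (`Ric_frame` for `Ric(L, X_j)`, `codazzi_tr`, `zet_ds`; `<R(k,X_j)L,L> = 0` by `riem_skew`). -/
theorem torsion_eq (hR : Reg G Ψ W) {s : ℝ} (hs : 0 < s) {x : E3} (hx : x ≠ 0) (j : Fin 3) :
    fderiv ℝ (zet G Ψ j) (s, x) dS + exl G Ψ (s, x) * zet G Ψ j (s, x) =
      fderiv ℝ (exl G Ψ) (s, x) (dX j) - dchi G Ψ j (s, x) + jj G Ψ j (s, x) := by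
  have hp : (s, x) ∈ W := hR.mem s hs.le x hx
  have hM : MetAt G (Ph Ψ (s, x)) := hR.met _ hp
  have h1 : jj G Ψ j (s, x) = _ := Ric_frame hM (nframe hR hs.le hx) (LL Ψ (s, x)) (XX Ψ j (s, x))
  have h2 := codazzi_tr hR hs.le hx j
  have h3 := zet_ds hR hs hx j
  have h4 := riem_skew hM (kk G Ψ (s, x)) (XX Ψ j (s, x)) (LL Ψ (s, x)) (LL Ψ (s, x))
  rw [h2] at h1
  linarith

end H17W
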