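import Pool.Agent.Lib.H17W.B4A
import Pool.Agent.Lib.H17W.B3C
import Pool.Agent.Lib.H17W.A5

set_option autoImplicit false

/-!
# H17W, chunk B5A (M): Codazzi and the torsion equation

Auxiliary names start with `b5a_`.
-/

open MeasureTheory Filter Topology Set
open scoped ContDiff

namespace H17W

open H17T (E4 pt pos)
open Pool.Agent.Lib.PenroseSph (E3 S2 sm)

variable {G : E4 → Matrix (Fin 4) (Fin 4) ℝ} {Ψ : ℝ × E3 → E4} {W : Set (ℝ × E3)}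

/-- The scalar product as a linear map in the right argument. -/
noncomputable def b5a_r (G : E4 → Matrix (Fin 4) (Fin 4) ℝ) (p : E4) (a : Fin 4 → ℝ) : (Fin 4 → ℝ) →ₗ[ℝ] ℝ where
  toFun b := ip G p a b
  map_add' b b' := ip_add_right a b b'
  map_smul' t b := ip_smul_right t a b

/-- The scalar product as a linear map in the left argument. -/
noncomputable def b5a_l (G : E4 → Matrix (Fin 4) (Fin 4) ℝ) (p : E4) (b : Fin 4 → ℝ) : (Fin 4 → ℝ) →ₗ[ℝ] ℝ where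
  toFun a := ip G p a b
  map_add' a a' := ip_add_left a a' b
  map_smul' t a := ip_smul_left t a b

theorem b5a_sum_right (p : E4) (a : Fin 4 → ℝ) (f : Fin 3 → ℝ) (X : Fin 3 → Fin 4 → ℝ) :
    ip G p a (∑ m, f m • X m) = ∑ m, f m * ip G p a (X m) := by
  have h := map_sum (b5a_r G p a) (fun m => f m • X m) Finset.univ
  simp only [map_smul] at h
  exact h

theorem b5a_sub_right (p : E4) (a b c : Fin 4 → ℝ) : ip G p a (b - c) = ip G p a b - ip G p a c :=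
  map_sub (b5a_r G p a) b c

theorem b5a_sum_left (p : E4) (a : Fin 4 → ℝ) (f : Fin 3 → ℝ) (X : Fin 3 → Fin 4 → ℝ) :
    ip G p (∑ m, f m • X m) a = ∑ m, f m * ip G p (X m) a := by
  have h := map_sum (b5a_l G p a) (fun m => f m • X m) Finset.univ
  simp only [map_smul] at h
  exact h

theorem b5a_sub_left (p : E4) (a b c : Fin 4 → ℝ) : ip G p (b - c) a = ip G p b a - ip G p c a :=
  map_sub (b5a_l G p a) b c

theorem b5a_phi (hR : Reg G Ψ W) {p : ℝ × E3} (hp : p ∈ W) : ∀ᶠ y in 𝓝 p, ContDiffAt ℝ ∞ (Ph Ψ) y :=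
  Filter.eventually_of_mem (hR.isOpen.mem_nhds hp) (fun y hy => hR.smooth y hy)

theorem b5a_LL (hR : Reg G Ψ W) {p : ℝ × E3} (hp : p ∈ W) :
    ∀ᶠ y in 𝓝 p, ∀ a, ContDiffAt ℝ ∞ (fun z => LL Ψ z a) y :=
  Filter.eventually_of_mem (hR.isOpen.mem_nhds hp) (fun y hy a => LL_smooth hR hy a)

theorem b5a_phi_diff (hR : Reg G Ψ W) {p : ℝ × E3} (hp : p ∈ W) : DifferentiableAt ℝ (Ph Ψ) p :=
  (hR.smooth p hp).differentiableAt (by simp)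

theorem b5a_cov_diff (hR : Reg G Ψ W) {p : ℝ × E3} (hp : p ∈ W) (v : ℝ × E3) (a : Fin 4) :
    DifferentiableAt ℝ (fun y => cov G (Ph Ψ) (LL Ψ) y v a) p := by
  have h := cov_smooth (hR.met p hp) (b5a_phi hR hp) (b5a_LL hR hp) v
  exact (h.self_of_nhds a).differentiableAt (by simp)

theorem b5a_X_diff (hR : Reg G Ψ W) {p : ℝ × E3} (hp : p ∈ W) (i : Fin 3) (a : Fin 4) :
    DifferentiableAt ℝ (fun y => XX Ψ i y a) p :=
  (XX_smooth hR hp i a).differentiableAt (by simp)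

/-- The product rule for `χ`. -/
theorem b5a_chi_d (hR : Reg G Ψ W) {p : ℝ × E3} (hp : p ∈ W) (j l : Fin 3) (v : ℝ × E3) :
    fderiv ℝ (chi G Ψ j l) p v =
      ip G (Ph Ψ p) (cov G (Ph Ψ) (fun y => cov G (Ph Ψ) (LL Ψ) y (dX j)) p v) (XX Ψ l p) +
        ip G (Ph Ψ p) (cov G (Ph Ψ) (LL Ψ) p (dX j)) (cov G (Ph Ψ) (XX Ψ l) p v) :=
  ip_cov (A := fun y => cov G (Ph Ψ) (LL Ψ) y (dX j)) (B := XX Ψ l) (hR.met p hp) (b5a_phi_diff hR hp)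
    (fun a => b5a_cov_diff hR hp (dX j) a) (fun a => b5a_X_diff hR hp l a) v

/-- `<D_j L, L> = 0`. -/
theorem b5a_covL_L (hR : Reg G Ψ W) {s : ℝ} (hs : 0 ≤ s) {x : E3} (hx : x ≠ 0) (j : Fin 3) :
    ip G (Ph Ψ (s, x)) (cov G (Ph Ψ) (LL Ψ) (s, x) (dX j)) (LL Ψ (s, x)) = 0 := by
  have hM : MetAt G (Ph Ψ (s, x)) := hR.met _ (hR.mem s hs x hx)
  have hLL : ip G (Ph Ψ (s, x)) (LL Ψ (s, x)) (LL Ψ (s, x)) = 0 := hR.null s hs x hx
  have hX : ∀ a, ip G (Ph Ψ (s, x)) (XX Ψ a (s, x)) (LL Ψ (s, x)) = 0 := by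
    intro a
    rw [ip_symm hM]
    exact hR.orth s hs x hx a
  rw [DiL hR hs hx j, ip_add_left, ip_smul_left, b5a_sum_left, hLL]
  simp only [hX, mul_zero, Finset.sum_const_zero, add_zero]

/-- `<D_j L, D_i X_l>`. -/
theorem b5a_covL_covX (hR : Reg G Ψ W) {s : ℝ} (hs : 0 ≤ s) {x : E3} (hx : x ≠ 0) (i j l : Fin 3) :
    ip G (Ph Ψ (s, x)) (cov G (Ph Ψ) (LL Ψ) (s, x) (dX j)) (cov G (Ph Ψ) (XX Ψ l) (s, x) (dX i)) =
      ∑ m, cc G Ψ m i l (s, x) * chi G Ψ j m (s, x) - zet G Ψ j (s, x) * chi G Ψ i l (s, x) := by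
  have h1 := b5a_covL_L hR hs hx j
  have h2 : ip G (Ph Ψ (s, x)) (cov G (Ph Ψ) (LL Ψ) (s, x) (dX j)) (kk G Ψ (s, x)) = 2 * zet G Ψ j (s, x) := by
    unfold zet
    ring
  rw [DXX hR hs hx i l, b5a_sub_right, b5a_sub_right, b5a_sum_right, ip_smul_right, ip_smul_right, h1, h2]
  have h3 : ∀ m, ip G (Ph Ψ (s, x)) (cov G (Ph Ψ) (LL Ψ) (s, x) (dX j)) (XX Ψ m (s, x)) = chi G Ψ j m (s, x) :=
    fun m => rfl
  simp only [h3]
  ring

/-- `<D_i D_j L, X_l> = ∂_i χ_jl - <D_j L, D_i X_l>` and `<D_j L, D_i X_l> = ∑ cc^m_il χ_jm - ζ_j χ_il` (`DXX`, `DiL`: or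
`<D_j L, X_m> = χ_jm`, `<D_j L, L> = 0`, `<D_j L, k> = 2 ζ_j`); `cov_comm`. -/
theorem codazzi (hR : Reg G Ψ W) {s : ℝ} (hs : 0 ≤ s) {x : E3} (hx : x ≠ 0) (i j l : Fin 3) :
    ip G (Ph Ψ (s, x)) (riem G (Ph Ψ (s, x)) (XX Ψ i (s, x)) (XX Ψ j (s, x)) (LL Ψ (s, x))) (XX Ψ l (s, x)) =
      fderiv ℝ (chi G Ψ j l) (s, x) (dX i) - fderiv ℝ (chi G Ψ i l) (s, x) (dX j) -
        ∑ m, cc G Ψ m i l (s, x) * chi G Ψ j m (s, x) + ∑ m, cc G Ψ m j l (s, x) * chi G Ψ i m (s, x) +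
        zet G Ψ j (s, x) * chi G Ψ i l (s, x) - zet G Ψ i (s, x) * chi G Ψ j l (s, x) := by
  have hp : (s, x) ∈ W := hR.mem s hs x hx
  have hc : riem G (Ph Ψ (s, x)) (XX Ψ i (s, x)) (XX Ψ j (s, x)) (LL Ψ (s, x)) =
      cov G (Ph Ψ) (fun y => cov G (Ph Ψ) (LL Ψ) y (dX j)) (s, x) (dX i) -
        cov G (Ph Ψ) (fun y => cov G (Ph Ψ) (LL Ψ) y (dX i)) (s, x) (dX j) :=
    (cov_comm (hR.met _ hp) (b5a_phi hR hp) (b5a_LL hR hp) (dX i) (dX j)).symm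
  rw [hc, b5a_sub_left]
  have e1 := b5a_chi_d hR hp j l (dX i)
  have e2 := b5a_chi_d hR hp i l (dX j)
  rw [b5a_covL_covX hR hs hx] at e1 e2
  rw [e1, e2]
  ring

end H17W
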