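import Pool.Agent.Lib.H17W.B6A

set_option autoImplicit false

/-!
# H17W, chunk B6B (M): Gauss' equation, the equation for the expansion `θ`

Auxiliary names start with `b6b_`.
-/

open MeasureTheory Filter Topology Set
open scoped ContDiff

namespace H17W

open H17T (E4 pt pos)
open Pool.Agent.Lib.PenroseSph (E3 S2 sm)

variable {G : E4 → Matrix (Fin 4) (Fin 4) ℝ} {Ψ : ℝ × E3 → E4} {W : Set (ℝ × E3)}

theorem b6b_perm1 (g : Fin 3 → Fin 3 → Fin 3 → Fin 3 → ℝ) :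
    ∑ i, ∑ j, ∑ k, ∑ l, g j l k i = ∑ i, ∑ j, ∑ k, ∑ l, g i j k l := by
  rw [Finset.sum_comm]
  refine Finset.sum_congr rfl fun j _ => ?_
  rw [Finset.sum_comm]
  calc ∑ k, ∑ i, ∑ l, g j l k i = ∑ k, ∑ l, ∑ i, g j l k i := Finset.sum_congr rfl fun k _ => Finset.sum_comm
    _ = ∑ l, ∑ k, ∑ i, g j l k i := Finset.sum_comm

theorem b6b_perm2 (g : Fin 3 → Fin 3 → Fin 3 → Fin 3 → ℝ) :
    ∑ i, ∑ j, ∑ k, ∑ l, g i k l j = ∑ i, ∑ j, ∑ k, ∑ l, g i j k l := by
  refine Finset.sum_congr rfl fun i _ => ?_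
  rw [Finset.sum_comm]
  exact Finset.sum_congr rfl fun k _ => Finset.sum_comm

/-- Algebra of the contraction. -/
theorem b6b_alg {Q X K : Fin 3 → Fin 3 → ℝ} (hQ : ∀ i j, Q i j = Q j i) (hK : ∀ i j, K i j = K j i)
    (R : Fin 3 → Fin 3 → Fin 3 → Fin 3 → ℝ) :
    ∑ i, ∑ j, ∑ k, ∑ l, Q j k * Q i l * (R i j k l - (K j k * X i l + X j k * K i l) / 2 + (K i k * X j l + X i k * K j l) / 2) =
      (∑ i, ∑ j, ∑ k, ∑ l, Q j k * Q i l * R i j k l) - (∑ i, ∑ j, Q i j * X i j) * (∑ i, ∑ j, Q i j * K i j) +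
        ∑ i, ∑ j, ∑ a, ∑ b, Q i a * Q j b * X i j * K a b := by
  have e1 : ∑ i, ∑ j, ∑ k, ∑ l, Q j k * Q i l * (K j k * X i l) = (∑ i, ∑ j, Q i j * X i j) * (∑ i, ∑ j, Q i j * K i j) := by
    rw [Finset.sum_mul]
    refine Finset.sum_congr rfl fun i _ => ?_
    rw [Finset.mul_sum]
    refine Finset.sum_congr rfl fun j _ => ?_
    rw [Finset.mul_sum]
    refine Finset.sum_congr rfl fun k _ => ?_
    rw [Finset.sum_mul]
    exact Finset.sum_congr rfl fun l _ => by ring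
  have e2 : ∑ i, ∑ j, ∑ k, ∑ l, Q j k * Q i l * (X j k * K i l) = (∑ i, ∑ j, Q i j * X i j) * (∑ i, ∑ j, Q i j * K i j) := by
    rw [mul_comm, Finset.sum_mul]
    refine Finset.sum_congr rfl fun i _ => ?_
    rw [Finset.mul_sum]
    refine Finset.sum_congr rfl fun j _ => ?_
    rw [Finset.mul_sum]
    refine Finset.sum_congr rfl fun k _ => ?_
    rw [Finset.sum_mul]
    exact Finset.sum_congr rfl fun l _ => by ring
  have e3 : ∑ i, ∑ j, ∑ k, ∑ l, Q j k * Q i l * (K i k * X j l) = ∑ i, ∑ j, ∑ a, ∑ b, Q i a * Q j b * X i j * K a b := by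
    rw [← b6b_perm1 fun i j a b => Q i a * Q j b * X i j * K a b]
    refine Finset.sum_congr rfl fun i _ => Finset.sum_congr rfl fun j _ => Finset.sum_congr rfl fun k _ =>
      Finset.sum_congr rfl fun l _ => ?_
    rw [hQ i l, hK i k]
    ring
  have e4 : ∑ i, ∑ j, ∑ k, ∑ l, Q j k * Q i l * (X i k * K j l) = ∑ i, ∑ j, ∑ a, ∑ b, Q i a * Q j b * X i j * K a b := by
    rw [← b6b_perm2 fun i j a b => Q i a * Q j b * X i j * K a b]
    refine Finset.sum_congr rfl fun i _ => Finset.sum_congr rfl fun j _ => Finset.sum_congr rfl fun k _ =>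
      Finset.sum_congr rfl fun l _ => ?_
    rw [hQ j k, hK j l]
    ring
  have e5 : ∀ i j k l, Q j k * Q i l * (R i j k l - (K j k * X i l + X j k * K i l) / 2 + (K i k * X j l + X i k * K j l) / 2) =
      Q j k * Q i l * R i j k l - Q j k * Q i l * (K j k * X i l) / 2 - Q j k * Q i l * (X j k * K i l) / 2 +
        Q j k * Q i l * (K i k * X j l) / 2 + Q j k * Q i l * (X i k * K j l) / 2 := fun i j k l => by ring
  simp only [e5, Finset.sum_add_distrib, Finset.sum_sub_distrib, ← Finset.sum_div, e1, e2, e3, e4]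
  ring

/-- The curvature term of the contraction. -/
theorem b6b_R (hR : Reg G Ψ W) {s : ℝ} (hs : 0 ≤ s) {x : E3} (hx : x ≠ 0) :
    ∑ i, ∑ j, ∑ k, ∑ l, QQ G Ψ j k (s, x) * QQ G Ψ i l (s, x) * (∑ m, rm (fun y => PP G Ψ (s, y)) m k i j x * hh G Ψ m l (s, x)) =
      scal (fun y => PP G Ψ (s, y)) x := by
  have hp : (s, x) ∈ W := hR.mem s hs x hx
  have hP := PP_cyl hR hs
  have hPM := cyl_metAt hP hx
  -- contraction with `Q^il`
  have e1 : ∀ i j k, ∑ l, QQ G Ψ i l (s, x) * (∑ m, rm (fun y => PP G Ψ (s, y)) m k i j x * hh G Ψ m l (s, x)) =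
      rm (fun y => PP G Ψ (s, y)) i k i j x := by
    intro i j k
    have h1 : ∑ l, QQ G Ψ i l (s, x) * (∑ m, rm (fun y => PP G Ψ (s, y)) m k i j x * hh G Ψ m l (s, x)) =
        ∑ m, rm (fun y => PP G Ψ (s, y)) m k i j x * ∑ l, hh G Ψ m l (s, x) * QQ G Ψ l i (s, x) := by
      simp only [Finset.mul_sum]
      rw [Finset.sum_comm]
      refine Finset.sum_congr rfl fun m _ => Finset.sum_congr rfl fun l _ => ?_
      rw [QQ_symm hR hp i l]
      ring
    rw [h1]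
    have h2 : ∀ m, ∑ l, hh G Ψ m l (s, x) * QQ G Ψ l i (s, x) = (if m = i then 1 else 0) - x m * x i / ‖x‖ ^ 2 := fun m =>
      hQ hR hp m i
    simp only [h2, mul_sub, Finset.sum_sub_distrib]
    have h3 : ∑ m, rm (fun y => PP G Ψ (s, y)) m k i j x * (x m * x i / ‖x‖ ^ 2) = 0 := by
      have h4 := cyl_riem_up hP hx k i j
      calc ∑ m, rm (fun y => PP G Ψ (s, y)) m k i j x * (x m * x i / ‖x‖ ^ 2) =
          (∑ m, rm (fun y => PP G Ψ (s, y)) m k i j x * x m) * (x i / ‖x‖ ^ 2) := by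
            rw [Finset.sum_mul]
            exact Finset.sum_congr rfl fun m _ => by ring
        _ = 0 := by rw [h4, zero_mul]
    rw [h3, sub_zero]
    simp
  have e2 : ∀ i j, ∑ k, ∑ l, QQ G Ψ j k (s, x) * QQ G Ψ i l (s, x) * (∑ m, rm (fun y => PP G Ψ (s, y)) m k i j x * hh G Ψ m l (s, x)) =
      ∑ k, QQ G Ψ j k (s, x) * rm (fun y => PP G Ψ (s, y)) i k i j x := by
    intro i j
    refine Finset.sum_congr rfl fun k _ => ?_
    rw [← e1 i j k, Finset.mul_sum]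
    exact Finset.sum_congr rfl fun l _ => by ring
  simp only [e2]
  rw [Finset.sum_comm]
  have e3 : ∀ j, ∑ i, ∑ k, QQ G Ψ j k (s, x) * rm (fun y => PP G Ψ (s, y)) i k i j x =
      ∑ k, (PP G Ψ (s, x))⁻¹ j k * H31R.ric (fun y => PP G Ψ (s, y)) k j x - x j * ∑ k, H31R.ric (fun y => PP G Ψ (s, y)) k j x * x k := by
    intro j
    rw [Finset.sum_comm]
    have h1 : ∀ k, ∑ i, QQ G Ψ j k (s, x) * rm (fun y => PP G Ψ (s, y)) i k i j x =
        QQ G Ψ j k (s, x) * H31R.ric (fun y => PP G Ψ (s, y)) k j x := by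
      intro k
      rw [ric_eq hPM, Finset.mul_sum]
    simp only [h1]
    rw [Finset.mul_sum, ← Finset.sum_sub_distrib]
    refine Finset.sum_congr rfl fun k _ => ?_
    unfold QQ
    ring
  simp only [e3]
  rw [Finset.sum_sub_distrib]
  have e4 : ∑ j, x j * ∑ k, H31R.ric (fun y => PP G Ψ (s, y)) k j x * x k = 0 := by
    have h1 : ∑ j, x j * ∑ k, H31R.ric (fun y => PP G Ψ (s, y)) k j x * x k =
        ∑ k, x k * ∑ j, H31R.ric (fun y => PP G Ψ (s, y)) k j x * x j := by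
      simp only [Finset.mul_sum]
      rw [Finset.sum_comm]
      exact Finset.sum_congr rfl fun k _ => Finset.sum_congr rfl fun j _ => by ring
    rw [h1]
    simp only [cyl_ric hP hx, mul_zero, Finset.sum_const_zero]
  rw [e4, sub_zero, Finset.sum_comm]
  unfold scal
  refine Finset.sum_congr rfl fun i _ => Finset.sum_congr rfl fun j _ => ?_
  have h5 : (PP G Ψ (s, x))⁻¹ j i = (PP G Ψ (s, x))⁻¹ i j := inv_symm hPM j i
  rw [h5]

/-- The contraction of `gauss` with `Q^jk Q^il`: `∑_l h_ml Q^il = δ_mi - x_m x_i / |x|²` (`hQ`, symmetric), `cyl_riem` for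
`PP_cyl`, `ric_eq`, `cyl_ric`. -/
theorem gauss_tr (hR : Reg G Ψ W) {s : ℝ} (hs : 0 ≤ s) {x : E3} (hx : x ≠ 0) :
    ∑ i, ∑ j, ∑ k, ∑ l, QQ G Ψ j k (s, x) * QQ G Ψ i l (s, x) *
      ip G (Ph Ψ (s, x)) (riem G (Ph Ψ (s, x)) (XX Ψ i (s, x)) (XX Ψ j (s, x)) (XX Ψ k (s, x))) (XX Ψ l (s, x)) =
      scal (fun y => PP G Ψ (s, y)) x - exl G Ψ (s, x) * tht G Ψ (s, x) +
        ∑ i, ∑ j, ∑ a, ∑ b, QQ G Ψ i a (s, x) * QQ G Ψ j b (s, x) * chi G Ψ i j (s, x) * kap G Ψ a b (s, x) := by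
  have hp : (s, x) ∈ W := hR.mem s hs x hx
  have h1 := b6b_alg (Q := fun i j => QQ G Ψ i j (s, x)) (X := fun i j => chi G Ψ i j (s, x)) (K := fun i j => kap G Ψ i j (s, x))
    (fun i j => QQ_symm hR hp i j) (fun i j => kap_symm hR hs hx i j)
    (fun i j k l => ∑ m, rm (fun y => PP G Ψ (s, y)) m k i j x * hh G Ψ m l (s, x))
  simp only [gauss hR hs hx]
  rw [h1, b6b_R hR hs hx]
  rfl

end H17W
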