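import Pool.Agent.Lib.H17W.B6B
import Pool.Agent.Lib.H17W.B6C
import Pool.Agent.Lib.H17W.B3D

set_option autoImplicit false

/-!
# H17W, chunk B6D (M): Gauss' equation, the equation for the expansion `θ`

Auxiliary names start with `b6d_`.
-/

open MeasureTheory Filter Topology Set
open scoped ContDiff

namespace H17W

open H17T (E4 pt pos)
open Pool.Agent.Lib.PenroseSph (E3 S2 sm)

variable {G : E4 → Matrix (Fin 4) (Fin 4) ℝ} {Ψ : ℝ × E3 → E4} {W : Set (ℝ × E3)}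

theorem b6d_perm3 (g : Fin 3 → Fin 3 → Fin 3 → Fin 3 → ℝ) :
    ∑ i, ∑ j, ∑ k, ∑ l, g k j i l = ∑ i, ∑ j, ∑ k, ∑ l, g i j k l := by
  calc ∑ i, ∑ j, ∑ k, ∑ l, g k j i l = ∑ j, ∑ i, ∑ k, ∑ l, g k j i l := Finset.sum_comm
    _ = ∑ j, ∑ i, ∑ k, ∑ l, g i j k l := Finset.sum_congr rfl fun j _ => Finset.sum_comm
    _ = ∑ i, ∑ j, ∑ k, ∑ l, g i j k l := Finset.sum_comm

theorem b6d_perm4 (g : Fin 3 → Fin 3 → Fin 3 → Fin 3 → ℝ) :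
    ∑ i, ∑ j, ∑ k, ∑ l, g j l i k = ∑ i, ∑ j, ∑ k, ∑ l, g i j k l := by
  rw [Finset.sum_comm]
  refine Finset.sum_congr rfl fun j _ => ?_
  calc ∑ i, ∑ k, ∑ l, g j l i k = ∑ i, ∑ l, ∑ k, g j l i k := Finset.sum_congr rfl fun i _ => Finset.sum_comm
    _ = ∑ l, ∑ i, ∑ k, g j l i k := Finset.sum_comm

/-- Algebra of the derivative of `∑ Q_ij K_ij`. -/
theorem b6d_alg {Q X K S D : Fin 3 → Fin 3 → ℝ} {z : Fin 3 → ℝ} (hQ : ∀ i j, Q i j = Q j i) :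
    ∑ i, ∑ j, ((-2 * ∑ a, ∑ b, Q i a * X a b * Q b j) * K i j +
      Q i j * (S i j - 2 * D i j + (∑ a, ∑ b, Q a b * K i a * X j b) - 2 * z i * z j)) =
      (∑ i, ∑ j, Q i j * S i j) - 2 * (∑ i, ∑ j, Q i j * D i j) - 2 * (∑ i, ∑ j, Q i j * z i * z j) -
        ∑ i, ∑ j, ∑ a, ∑ b, Q i a * Q j b * X i j * K a b := by
  have e1 : ∑ i, ∑ j, (∑ a, ∑ b, Q i a * X a b * Q b j) * K i j = ∑ i, ∑ j, ∑ a, ∑ b, Q i a * Q j b * X i j * K a b := by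
    calc ∑ i, ∑ j, (∑ a, ∑ b, Q i a * X a b * Q b j) * K i j =
        ∑ i, ∑ j, ∑ a, ∑ b, Q a i * Q b j * X a b * K i j := by
          refine Finset.sum_congr rfl fun i _ => Finset.sum_congr rfl fun j _ => ?_
          rw [Finset.sum_mul]
          refine Finset.sum_congr rfl fun a _ => ?_
          rw [Finset.sum_mul]
          refine Finset.sum_congr rfl fun b _ => ?_
          rw [hQ i a]
          ring
      _ = ∑ i, ∑ a, ∑ j, ∑ b, Q a i * Q b j * X a b * K i j := Finset.sum_congr rfl fun i _ => Finset.sum_comm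
      _ = ∑ a, ∑ i, ∑ j, ∑ b, Q a i * Q b j * X a b * K i j := Finset.sum_comm
      _ = ∑ a, ∑ i, ∑ b, ∑ j, Q a i * Q b j * X a b * K i j :=
          Finset.sum_congr rfl fun a _ => Finset.sum_congr rfl fun i _ => Finset.sum_comm
      _ = ∑ a, ∑ b, ∑ i, ∑ j, Q a i * Q b j * X a b * K i j := Finset.sum_congr rfl fun a _ => Finset.sum_comm
  have e2 : ∑ i, ∑ j, Q i j * (∑ a, ∑ b, Q a b * K i a * X j b) = ∑ i, ∑ j, ∑ a, ∑ b, Q i a * Q j b * X i j * K a b := by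
    rw [← b6d_perm4 fun i j a b => Q i a * Q j b * X i j * K a b]
    refine Finset.sum_congr rfl fun i _ => Finset.sum_congr rfl fun j _ => ?_
    rw [Finset.mul_sum]
    refine Finset.sum_congr rfl fun a _ => ?_
    rw [Finset.mul_sum]
    refine Finset.sum_congr rfl fun b _ => ?_
    rw [hQ i j, hQ a b]
    ring
  have e3 : ∀ i j, (-2 * ∑ a, ∑ b, Q i a * X a b * Q b j) * K i j +
      Q i j * (S i j - 2 * D i j + (∑ a, ∑ b, Q a b * K i a * X j b) - 2 * z i * z j) =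
      (-2) * ((∑ a, ∑ b, Q i a * X a b * Q b j) * K i j) + Q i j * S i j + (-2) * (Q i j * D i j) +
        Q i j * (∑ a, ∑ b, Q a b * K i a * X j b) + (-2) * (Q i j * z i * z j) := fun i j => by ring
  simp only [e3, Finset.sum_add_distrib, ← Finset.mul_sum, e1, e2]
  ring

/-- `Ric_frame` for `Ric(X_i, X_j)`: `<R(L,X_j)X_i,k> = - <R(L,X_j)k,X_i>`, `<R(k,X_j)X_i,L> = <R(X_i,L)k,X_j> = - <R(L,X_i)k,X_j>`
(`riem_skew`, `riem_pair`, `riem_anti`). -/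
theorem rr_eq (hR : Reg G Ψ W) {s : ℝ} (hs : 0 ≤ s) {x : E3} (hx : x ≠ 0) :
    rr G Ψ (s, x) = (∑ i, ∑ j, ∑ k, ∑ l, QQ G Ψ j k (s, x) * QQ G Ψ i l (s, x) *
      ip G (Ph Ψ (s, x)) (riem G (Ph Ψ (s, x)) (XX Ψ i (s, x)) (XX Ψ j (s, x)) (XX Ψ k (s, x))) (XX Ψ l (s, x))) -
      ∑ i, ∑ j, QQ G Ψ i j (s, x) *
        ip G (Ph Ψ (s, x)) (riem G (Ph Ψ (s, x)) (LL Ψ (s, x)) (XX Ψ i (s, x)) (kk G Ψ (s, x))) (XX Ψ j (s, x)) := by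
  have hp : (s, x) ∈ W := hR.mem s hs x hx
  have hM := hR.met _ hp
  have hF := nframe hR hs hx
  have hQ : ∀ i j, QQ G Ψ i j (s, x) = QQ G Ψ j i (s, x) := QQ_symm hR hp
  have h1 : ∀ i j, Ric G (Ph Ψ (s, x)) (XX Ψ i (s, x)) (XX Ψ j (s, x)) =
      (∑ a, ∑ b, QQ G Ψ a b (s, x) *
        ip G (Ph Ψ (s, x)) (riem G (Ph Ψ (s, x)) (XX Ψ a (s, x)) (XX Ψ j (s, x)) (XX Ψ i (s, x))) (XX Ψ b (s, x))) -
      ip G (Ph Ψ (s, x)) (riem G (Ph Ψ (s, x)) (LL Ψ (s, x)) (XX Ψ j (s, x)) (kk G Ψ (s, x))) (XX Ψ i (s, x)) / 2 -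
      ip G (Ph Ψ (s, x)) (riem G (Ph Ψ (s, x)) (LL Ψ (s, x)) (XX Ψ i (s, x)) (kk G Ψ (s, x))) (XX Ψ j (s, x)) / 2 := by
    intro i j
    have h2 := Ric_frame hM hF (XX Ψ i (s, x)) (XX Ψ j (s, x))
    have h3 := riem_skew hM (LL Ψ (s, x)) (XX Ψ j (s, x)) (XX Ψ i (s, x)) (kk G Ψ (s, x))
    have h4 := riem_pair hM (kk G Ψ (s, x)) (XX Ψ j (s, x)) (XX Ψ i (s, x)) (LL Ψ (s, x))
    have h5 : riem G (Ph Ψ (s, x)) (XX Ψ i (s, x)) (LL Ψ (s, x)) (kk G Ψ (s, x)) =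
        (-1 : ℝ) • riem G (Ph Ψ (s, x)) (LL Ψ (s, x)) (XX Ψ i (s, x)) (kk G Ψ (s, x)) := by
      rw [neg_one_smul]
      exact riem_anti _ _ _
    rw [h5, ip_smul_left] at h4
    rw [h2, h3, h4]
    ring
  unfold rr
  simp only [h1]
  have e1 : ∀ i j, QQ G Ψ i j (s, x) * ((∑ a, ∑ b, QQ G Ψ a b (s, x) *
        ip G (Ph Ψ (s, x)) (riem G (Ph Ψ (s, x)) (XX Ψ a (s, x)) (XX Ψ j (s, x)) (XX Ψ i (s, x))) (XX Ψ b (s, x))) -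
      ip G (Ph Ψ (s, x)) (riem G (Ph Ψ (s, x)) (LL Ψ (s, x)) (XX Ψ j (s, x)) (kk G Ψ (s, x))) (XX Ψ i (s, x)) / 2 -
      ip G (Ph Ψ (s, x)) (riem G (Ph Ψ (s, x)) (LL Ψ (s, x)) (XX Ψ i (s, x)) (kk G Ψ (s, x))) (XX Ψ j (s, x)) / 2) =
      (∑ a, ∑ b, QQ G Ψ j i (s, x) * QQ G Ψ a b (s, x) *
        ip G (Ph Ψ (s, x)) (riem G (Ph Ψ (s, x)) (XX Ψ a (s, x)) (XX Ψ j (s, x)) (XX Ψ i (s, x))) (XX Ψ b (s, x))) -
      (QQ G Ψ j i (s, x) *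
        ip G (Ph Ψ (s, x)) (riem G (Ph Ψ (s, x)) (LL Ψ (s, x)) (XX Ψ j (s, x)) (kk G Ψ (s, x))) (XX Ψ i (s, x))) / 2 -
      (QQ G Ψ i j (s, x) *
        ip G (Ph Ψ (s, x)) (riem G (Ph Ψ (s, x)) (LL Ψ (s, x)) (XX Ψ i (s, x)) (kk G Ψ (s, x))) (XX Ψ j (s, x))) / 2 := by
    intro i j
    rw [hQ i j]
    simp only [mul_assoc, ← Finset.mul_sum]
    ring
  simp only [e1, Finset.sum_sub_distrib, ← Finset.sum_div]
  have e2 : ∑ i, ∑ j, QQ G Ψ j i (s, x) *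
        ip G (Ph Ψ (s, x)) (riem G (Ph Ψ (s, x)) (LL Ψ (s, x)) (XX Ψ j (s, x)) (kk G Ψ (s, x))) (XX Ψ i (s, x)) =
      ∑ i, ∑ j, QQ G Ψ i j (s, x) *
        ip G (Ph Ψ (s, x)) (riem G (Ph Ψ (s, x)) (LL Ψ (s, x)) (XX Ψ i (s, x)) (kk G Ψ (s, x))) (XX Ψ j (s, x)) :=
    Finset.sum_comm
  have e3 : ∑ i, ∑ j, ∑ a, ∑ b, QQ G Ψ j i (s, x) * QQ G Ψ a b (s, x) *
        ip G (Ph Ψ (s, x)) (riem G (Ph Ψ (s, x)) (XX Ψ a (s, x)) (XX Ψ j (s, x)) (XX Ψ i (s, x))) (XX Ψ b (s, x)) =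
      ∑ i, ∑ j, ∑ k, ∑ l, QQ G Ψ j k (s, x) * QQ G Ψ i l (s, x) *
        ip G (Ph Ψ (s, x)) (riem G (Ph Ψ (s, x)) (XX Ψ i (s, x)) (XX Ψ j (s, x)) (XX Ψ k (s, x))) (XX Ψ l (s, x)) :=
    b6d_perm3 fun i j k l => QQ G Ψ j k (s, x) * QQ G Ψ i l (s, x) *
        ip G (Ph Ψ (s, x)) (riem G (Ph Ψ (s, x)) (XX Ψ i (s, x)) (XX Ψ j (s, x)) (XX Ψ k (s, x))) (XX Ψ l (s, x))
  rw [e2, e3]
  ring

/-- The equation for the expansion `θ` (`QQ_ds`, `kap_ds`, `gauss_tr`, `rr_eq`). -/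
theorem theta_eq (hR : Reg G Ψ W) {s : ℝ} (hs : 0 < s) {x : E3} (hx : x ≠ 0) :
    fderiv ℝ (tht G Ψ) (s, x) dS + exl G Ψ (s, x) * tht G Ψ (s, x) =
      scal (fun y => PP G Ψ (s, y)) x - 2 * (∑ i, ∑ j, QQ G Ψ i j (s, x) * zet G Ψ i (s, x) * zet G Ψ j (s, x)) -
        2 * dzet G Ψ (s, x) - rr G Ψ (s, x) := by
  have hp : (s, x) ∈ W := hR.mem s hs.le x hx
  have hQd : ∀ i j, DifferentiableAt ℝ (QQ G Ψ i j) (s, x) := fun i j => (QQ_smooth hR hp i j).differentiableAt (by simp)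
  have hKd : ∀ i j, DifferentiableAt ℝ (kap G Ψ i j) (s, x) := fun i j => (kap_smooth hR hp i j).differentiableAt (by simp)
  have h0 : HasFDerivAt (tht G Ψ) (∑ i, ∑ j, (QQ G Ψ i j (s, x) • fderiv ℝ (kap G Ψ i j) (s, x) +
      kap G Ψ i j (s, x) • fderiv ℝ (QQ G Ψ i j) (s, x))) (s, x) := by
    show HasFDerivAt (fun p => ∑ i, ∑ j, QQ G Ψ i j p * kap G Ψ i j p) _ _
    apply HasFDerivAt.fun_sum
    intro i _
    apply HasFDerivAt.fun_sum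
    intro j _
    exact (hQd i j).hasFDerivAt.mul (hKd i j).hasFDerivAt
  have h1 : fderiv ℝ (tht G Ψ) (s, x) dS = ∑ i, ∑ j, ((-2 * ∑ a, ∑ b, QQ G Ψ i a (s, x) * chi G Ψ a b (s, x) * QQ G Ψ b j (s, x)) *
      kap G Ψ i j (s, x) + QQ G Ψ i j (s, x) *
      (ip G (Ph Ψ (s, x)) (riem G (Ph Ψ (s, x)) (LL Ψ (s, x)) (XX Ψ i (s, x)) (kk G Ψ (s, x))) (XX Ψ j (s, x)) -
        2 * (fderiv ℝ (zet G Ψ j) (s, x) (dX i) - ∑ m, cc G Ψ m i j (s, x) * zet G Ψ m (s, x)) +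
        (∑ a, ∑ b, QQ G Ψ a b (s, x) * kap G Ψ i a (s, x) * chi G Ψ j b (s, x)) - 2 * zet G Ψ i (s, x) * zet G Ψ j (s, x))) := by
    rw [h0.fderiv]
    simp only [sum_apply, add_apply, smul_apply, smul_eq_mul]
    refine Finset.sum_congr rfl fun i _ => Finset.sum_congr rfl fun j _ => ?_
    rw [QQ_ds hR hs.le hx i j, kap_ds hR hs hx i j]
    ring
  have h2 := b6d_alg (Q := fun i j => QQ G Ψ i j (s, x)) (X := fun i j => chi G Ψ i j (s, x)) (K := fun i j => kap G Ψ i j (s, x))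
    (S := fun i j => ip G (Ph Ψ (s, x)) (riem G (Ph Ψ (s, x)) (LL Ψ (s, x)) (XX Ψ i (s, x)) (kk G Ψ (s, x))) (XX Ψ j (s, x)))
    (D := fun i j => fderiv ℝ (zet G Ψ j) (s, x) (dX i) - ∑ m, cc G Ψ m i j (s, x) * zet G Ψ m (s, x))
    (z := fun i => zet G Ψ i (s, x)) (fun i j => QQ_symm hR hp i j)
  have h3 := rr_eq hR hs.le hx
  have h4 := gauss_tr hR hs.le hx
  have h5 : dzet G Ψ (s, x) = ∑ i, ∑ j, QQ G Ψ i j (s, x) *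
      (fderiv ℝ (zet G Ψ j) (s, x) (dX i) - ∑ m, cc G Ψ m i j (s, x) * zet G Ψ m (s, x)) := rfl
  rw [h4] at h3
  rw [h1, h2, h3, h5]
  ring

end H17W
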