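import Pool.Agent.Lib.H17W.B6A
import Pool.Agent.Lib.H17W.B6B
import Pool.Agent.Lib.H17W.B6C
import Pool.Agent.Lib.H17W.B6D

set_option autoImplicit false

/-!
# H17W: Gauss' equation, the equation for the expansion `θ`
-/
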