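import Pool.Agent.Lib.H17W.B4A
import Pool.Agent.Lib.H17W.B3C
import Pool.Agent.Lib.H17W.A5

set_option autoImplicit false

/-!
# H17W, chunk B6A (M): Gauss' equation, the equation for the expansion `θ`

Auxiliary names start with `b6a_`.
-/

open MeasureTheory Filter Topology Set
open scoped ContDiff

namespace H17W

open H17T (E4 pt pos)
open Pool.Agent.Lib.PenroseSph (E3 S2 sm)

variable {G : E4 → Matrix (Fin 4) (Fin 4) ℝ} {Ψ : ℝ × E3 → E4} {W : Set (ℝ × E3)}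

theorem b6a_PhEv (hR : Reg G Ψ W) {p : ℝ × E3} (hp : p ∈ W) : ∀ᶠ q in 𝓝 p, ContDiffAt ℝ ∞ (Ph Ψ) q :=
  Filter.eventually_of_mem (hR.isOpen.mem_nhds hp) hR.smooth

theorem b6a_XEv (hR : Reg G Ψ W) {p : ℝ × E3} (hp : p ∈ W) (k : Fin 3) :
    ∀ᶠ q in 𝓝 p, ∀ a, ContDiffAt ℝ ∞ (fun z => XX Ψ k z a) q :=
  Filter.eventually_of_mem (hR.isOpen.mem_nhds hp) fun _ hq a => XX_smooth hR hq k a

theorem b6a_covEv (hR : Reg G Ψ W) {p : ℝ × E3} (hp : p ∈ W) (j k : Fin 3) :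
    ∀ᶠ q in 𝓝 p, ∀ a, ContDiffAt ℝ ∞ (fun z => cov G (Ph Ψ) (XX Ψ k) z (dX j) a) q :=
  cov_smooth (hR.met p hp) (b6a_PhEv hR hp) (b6a_XEv hR hp k) (dX j)

/-- The derivatives of `cc` in the direction `∂_i`. -/
theorem b6a_cc (hR : Reg G Ψ W) {s : ℝ} (hs : 0 ≤ s) {x : E3} (hx : x ≠ 0) (i m j k : Fin 3) :
    fderiv ℝ (cc G Ψ m j k) (s, x) (dX i) = H31R.pd i (H31R.chr (fun y => PP G Ψ (s, y)) m j k) x := by
  have hp : (s, x) ∈ W := hR.mem s hs x hx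
  have h1 : HasFDerivAt (cc G Ψ m j k) (fderiv ℝ (cc G Ψ m j k) (s, x)) (s, x) :=
    ((cc_smooth hR hp m j k).differentiableAt (by simp)).hasFDerivAt
  have h2 : HasFDerivAt (fun y : E3 => (s, y)) (ContinuousLinearMap.inr ℝ ℝ E3) x := hasFDerivAt_prodMk_right s x
  have h3 := h1.comp x h2
  have h4 : (cc G Ψ m j k ∘ fun y : E3 => (s, y)) = H31R.chr (fun y => PP G Ψ (s, y)) m j k := by
    funext y
    rfl
  rw [h4] at h3
  unfold H31R.pd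
  rw [h3.fderiv]
  rfl

/-- `<D_i D_j X_k, X_l>`. -/
theorem b6a_dd (hR : Reg G Ψ W) {s : ℝ} (hs : 0 ≤ s) {x : E3} (hx : x ≠ 0) (i j k l : Fin 3) :
    ip G (Ph Ψ (s, x)) (cov G (Ph Ψ) (fun q => cov G (Ph Ψ) (XX Ψ k) q (dX j)) (s, x) (dX i)) (XX Ψ l (s, x)) =
      ∑ m, H31R.pd i (H31R.chr (fun y => PP G Ψ (s, y)) m j k) x * hh G Ψ m l (s, x) +
      (∑ m, ∑ n, cc G Ψ m j k (s, x) * cc G Ψ n i m (s, x) * hh G Ψ n l (s, x)) -
      (kap G Ψ j k (s, x) * chi G Ψ i l (s, x) + chi G Ψ j k (s, x) * kap G Ψ i l (s, x)) / 2 := by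
  have hp : (s, x) ∈ W := hR.mem s hs x hx
  have hM := hR.met _ hp
  have hPh : DifferentiableAt ℝ (Ph Ψ) (s, x) := (hR.smooth _ hp).differentiableAt (by simp)
  have hX : ∀ l a, DifferentiableAt ℝ (fun y => XX Ψ l y a) (s, x) := fun l a =>
    (XX_smooth hR hp l a).differentiableAt (by simp)
  have hC : ∀ a, DifferentiableAt ℝ (fun y => cov G (Ph Ψ) (XX Ψ k) y (dX j) a) (s, x) := fun a =>
    ((b6a_covEv hR hp j k).self_of_nhds a).differentiableAt (by simp)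
  -- the derivative of `<D_j X_k, X_l>`
  have e1 := ip_cov (G := G) (Φ := Ph Ψ) (A := fun q => cov G (Ph Ψ) (XX Ψ k) q (dX j)) (B := XX Ψ l) hM hPh hC (hX l) (dX i)
  have hF : DifferentiableAt ℝ (fun q => ip G (Ph Ψ q) (cov G (Ph Ψ) (XX Ψ k) q (dX j)) (XX Ψ l q)) (s, x) :=
    ((ip_smooth hM (b6a_PhEv hR hp) (b6a_covEv hR hp j k) (b6a_XEv hR hp l)).self_of_nhds).differentiableAt (by simp)
  have hcd : ∀ m, DifferentiableAt ℝ (cc G Ψ m j k) (s, x) := fun m => (cc_smooth hR hp m j k).differentiableAt (by simp)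
  have hhd : ∀ m, DifferentiableAt ℝ (hh G Ψ m l) (s, x) := fun m => (hh_smooth hR hp m l).differentiableAt (by simp)
  have hK : DifferentiableAt ℝ (fun q => ∑ m, cc G Ψ m j k q * hh G Ψ m l q) (s, x) := by
    apply DifferentiableAt.fun_sum
    intro m _
    exact (hcd m).mul (hhd m)
  have e2 := fd_slice (F := fun q => ip G (Ph Ψ q) (cov G (Ph Ψ) (XX Ψ k) q (dX j)) (XX Ψ l q))
    (K := fun q => ∑ m, cc G Ψ m j k q * hh G Ψ m l q) (s := s) (fun y hy => ip_DXX hR hs hy j k l) hx hF hK i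
  have e3 : fderiv ℝ (fun q => ∑ m, cc G Ψ m j k q * hh G Ψ m l q) (s, x) (dX i) =
      ∑ m, (H31R.pd i (H31R.chr (fun y => PP G Ψ (s, y)) m j k) x * hh G Ψ m l (s, x) +
        cc G Ψ m j k (s, x) * ∑ n, (cc G Ψ n i m (s, x) * hh G Ψ n l (s, x) + cc G Ψ n i l (s, x) * hh G Ψ n m (s, x))) := by
    have h1 : HasFDerivAt (fun q => ∑ m, cc G Ψ m j k q * hh G Ψ m l q)
        (∑ m, (cc G Ψ m j k (s, x) • fderiv ℝ (hh G Ψ m l) (s, x) + hh G Ψ m l (s, x) • fderiv ℝ (cc G Ψ m j k) (s, x))) (s, x) := by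
      apply HasFDerivAt.fun_sum
      intro m _
      exact (hcd m).hasFDerivAt.mul (hhd m).hasFDerivAt
    rw [h1.fderiv]
    simp only [ContinuousLinearMap.sum_apply, ContinuousLinearMap.add_apply, ContinuousLinearMap.smul_apply, smul_eq_mul]
    refine Finset.sum_congr rfl fun m _ => ?_
    rw [b6a_cc hR hs hx, hh_di hR hs hx]
    ring
  -- `<D_j X_k, D_i X_l>`
  have e4 : ip G (Ph Ψ (s, x)) (cov G (Ph Ψ) (XX Ψ k) (s, x) (dX j)) (cov G (Ph Ψ) (XX Ψ l) (s, x) (dX i)) =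
      ∑ m, cc G Ψ m j k (s, x) * ∑ n, cc G Ψ n i l (s, x) * hh G Ψ n m (s, x) +
      (kap G Ψ j k (s, x) * chi G Ψ i l (s, x) + chi G Ψ j k (s, x) * kap G Ψ i l (s, x)) / 2 := by
    have hc1 : chi G Ψ i l (s, x) = -ip G (Ph Ψ (s, x)) (cov G (Ph Ψ) (XX Ψ l) (s, x) (dX i)) (LL Ψ (s, x)) := chi_eq hR hs hx i l
    have hk1 : kap G Ψ i l (s, x) = -ip G (Ph Ψ (s, x)) (cov G (Ph Ψ) (XX Ψ l) (s, x) (dX i)) (kk G Ψ (s, x)) := kap_eq hR hs hx i l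
    rw [DXX hR hs hx j k, sub_eq_add_neg, sub_eq_add_neg, ← neg_smul, ← neg_smul, ip_add_left, ip_add_left, ip_smul_left, ip_smul_left]
    rw [ip_symm hM (LL Ψ (s, x)), ip_symm hM (kk G Ψ (s, x))]
    have hsum : ip G (Ph Ψ (s, x)) (∑ m, cc G Ψ m j k (s, x) • XX Ψ m (s, x)) (cov G (Ph Ψ) (XX Ψ l) (s, x) (dX i)) =
        ∑ m, cc G Ψ m j k (s, x) * ∑ n, cc G Ψ n i l (s, x) * hh G Ψ n m (s, x) := by
      have hterm : ∀ m, ip G (Ph Ψ (s, x)) (XX Ψ m (s, x)) (cov G (Ph Ψ) (XX Ψ l) (s, x) (dX i)) =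
          ∑ n, cc G Ψ n i l (s, x) * hh G Ψ n m (s, x) := by
        intro m
        rw [ip_symm hM]
        exact ip_DXX hR hs hx i l m
      simp only [Fin.sum_univ_three, ip_add_left, ip_smul_left, hterm]
    rw [hsum]
    linear_combination (-(kap G Ψ j k (s, x)) / 2) * hc1 - (chi G Ψ j k (s, x) / 2) * hk1
  have e5 : ip G (Ph Ψ (s, x)) (cov G (Ph Ψ) (fun q => cov G (Ph Ψ) (XX Ψ k) q (dX j)) (s, x) (dX i)) (XX Ψ l (s, x)) =
      fderiv ℝ (fun q => ∑ m, cc G Ψ m j k q * hh G Ψ m l q) (s, x) (dX i) -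
      ip G (Ph Ψ (s, x)) (cov G (Ph Ψ) (XX Ψ k) (s, x) (dX j)) (cov G (Ph Ψ) (XX Ψ l) (s, x) (dX i)) := by
    rw [← e2, e1]
    ring
  rw [e5, e3, e4]
  simp only [Finset.mul_sum, Finset.sum_add_distrib, mul_add, mul_assoc]
  ring

/-- Gauss' equation. `<D_i D_j X_k, X_l> = ∂_i <D_j X_k, X_l> - <D_j X_k, D_i X_l>`, `<D_j X_k, X_l> = ∑ cc^m_jk h_ml` (`ip_DXX`),
`<D_j X_k, D_i X_l> = ∑ cc^m_jk cc^n_il h_mn + (κ_jk χ_il + χ_jk κ_il) / 2` (`DXX`), `hh_di`, `cov_comm`; `∂_i cc` is `H31R.pd i` of the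
Christoffel symbol of `PP(s, ·)`. -/
theorem gauss (hR : Reg G Ψ W) {s : ℝ} (hs : 0 ≤ s) {x : E3} (hx : x ≠ 0) (i j k l : Fin 3) :
    ip G (Ph Ψ (s, x)) (riem G (Ph Ψ (s, x)) (XX Ψ i (s, x)) (XX Ψ j (s, x)) (XX Ψ k (s, x))) (XX Ψ l (s, x)) =
      (∑ m, rm (fun y => PP G Ψ (s, y)) m k i j x * hh G Ψ m l (s, x)) -
        (kap G Ψ j k (s, x) * chi G Ψ i l (s, x) + chi G Ψ j k (s, x) * kap G Ψ i l (s, x)) / 2 +
        (kap G Ψ i k (s, x) * chi G Ψ j l (s, x) + chi G Ψ i k (s, x) * kap G Ψ j l (s, x)) / 2 := by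
  have hp : (s, x) ∈ W := hR.mem s hs x hx
  have hM := hR.met _ hp
  have h1 := cov_comm (G := G) (Φ := Ph Ψ) (A := XX Ψ k) hM (b6a_PhEv hR hp) (b6a_XEv hR hp k) (dX i) (dX j)
  have h2 : riem G (Ph Ψ (s, x)) (XX Ψ i (s, x)) (XX Ψ j (s, x)) (XX Ψ k (s, x)) =
      cov G (Ph Ψ) (fun q => cov G (Ph Ψ) (XX Ψ k) q (dX j)) (s, x) (dX i) +
      (-1 : ℝ) • cov G (Ph Ψ) (fun q => cov G (Ph Ψ) (XX Ψ k) q (dX i)) (s, x) (dX j) := by
    rw [neg_one_smul, ← sub_eq_add_neg]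
    exact h1.symm
  rw [h2, ip_add_left, ip_smul_left, b6a_dd hR hs hx i j k l, b6a_dd hR hs hx j i k l]
  have h3 : ∀ m j k, H31R.chr (fun y => PP G Ψ (s, y)) m j k x = cc G Ψ m j k (s, x) := fun _ _ _ => rfl
  simp only [rm, h3]
  simp only [Fin.sum_univ_three]
  ring

end H17W
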