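import Pool.Agent.Lib.H17W.C0

set_option autoImplicit false

/-!
# H17W, chunk C1 (S): the flux lemma
-/

open MeasureTheory Filter Topology Set
open scoped ContDiff

namespace H17W

open Pool.Agent.Lib.PenroseSph (E3 S2 sm pd)

/-- The integral over the unit sphere of the divergence of a vector field which is homogeneous of degree `-2`.
Proof. `Y i x = Z x i` is `C¹` on `{0 < |x|}`, so by `PenroseSph.flux_deriv` (`a = 0`, `t = 1`) the function
`s ↦ s * avg (Σ Y_i x_i) s` has at `1` the derivative `avg (Σ ∂_i Y_i) 1 = (4π)⁻¹ ∫ Σ ∂_i Y_i` (`avg`: see `PenroseSph.SphAvg`). For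
`s > 0`, `Z (s n) = Z n / s²`, so `avg (Σ Y_i x_i) s = s⁻¹ avg (Σ Y_i x_i) 1`, the function is constant near `1` and its derivative is
`0`. -/
theorem flux {Z : E3 → Fin 3 → ℝ} (hZ : ∀ x : E3, x ≠ 0 → ∀ i, ContDiffAt ℝ 1 (fun y => Z y i) x)
    (hom : ∀ x : E3, x ≠ 0 → ∀ c : ℝ, 0 < c → ∀ i, Z (c • x) i = Z x i / c ^ 2) :
    ∫ n : S2, (∑ i, pd i (fun y => Z y i) n) ∂sm = 0 := by
  have hY : ∀ i, ContDiffOn ℝ 1 ((fun (i : Fin 3) (x : E3) => Z x i) i) {x : E3 | (0 : ℝ) < ‖x‖} := by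
    intro i x hx
    have hx0 : x ≠ 0 := norm_pos_iff.1 hx
    exact (hZ x hx0 i).contDiffWithinAt
  have h1 := Pool.Agent.Lib.PenroseSph.flux_deriv (a := 0) (t := 1) le_rfl one_pos hY
  have h2 : (fun s : ℝ => s * Pool.Agent.Lib.PenroseSph.avg (fun x => ∑ i, (fun (i : Fin 3) (x : E3) => Z x i) i x * x i) s)
      =ᶠ[𝓝 1] fun _ => Pool.Agent.Lib.PenroseSph.avg (fun x => ∑ i, (fun (i : Fin 3) (x : E3) => Z x i) i x * x i) 1 := by
    filter_upwards [lt_mem_nhds (show (0 : ℝ) < 1 from one_pos)] with s hs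
    rw [← Pool.Agent.Lib.PenroseSph.avg_smul]
    unfold Pool.Agent.Lib.PenroseSph.avg
    congr 1
    refine integral_congr_ae (Eventually.of_forall fun n => ?_)
    have hn : (n : E3) ≠ 0 := by
      intro h0
      have := Pool.Agent.Lib.PenroseSph.norm_S2 n
      rw [h0, norm_zero] at this
      exact zero_ne_one this
    simp only [one_smul, Finset.mul_sum]
    refine Finset.sum_congr rfl fun i _ => ?_
    rw [hom n hn s hs i]
    simp only [PiLp.smul_apply, smul_eq_mul]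
    field_simp
  have h3 := (h1.congr_of_eventuallyEq h2.symm).unique (hasDerivAt_const (1 : ℝ) _)
  unfold Pool.Agent.Lib.PenroseSph.avg at h3
  simp only [one_pow, one_mul, one_smul] at h3
  have h4 : (4 * Real.pi)⁻¹ ≠ 0 := inv_ne_zero (by positivity)
  exact (mul_eq_zero.1 h3).resolve_left h4

end H17W
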