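import Pool.Agent.Lib.H17W.C0
import Pool.Agent.Lib.PenroseSph.Calc

set_option autoImplicit false

/-!
# H17W, chunk C12 (S/M): the round cylinder
-/

open MeasureTheory Filter Topology Set
open scoped ContDiff

namespace H17W

open Pool.Agent.Lib.PenroseSph (E3 S2 sm pd)

variable {x : E3}

theorem c12_apply (x : E3) (i j : Fin 3) : P0 x i j = (‖x‖ ^ 2)⁻¹ * (if i = j then 1 else 0) := by
  simp [P0, Matrix.one_apply]

theorem P0_cyl : Cyl P0 := by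
  refine ⟨?_, ?_, ?_, ?_, ?_⟩
  · intro x hx i j
    have hn : ‖x‖ ^ 2 ≠ 0 := pow_ne_zero 2 (norm_ne_zero_iff.mpr hx)
    have h1 : ContDiffAt ℝ ∞ (fun y : E3 => (‖y‖ ^ 2)⁻¹ * (if i = j then (1 : ℝ) else 0)) x :=
      ((contDiff_norm_sq ℝ).contDiffAt.inv hn).mul contDiffAt_const
    simp only [c12_apply]
    exact h1
  · intro x _ i j
    rw [c12_apply, c12_apply]
    simp only [eq_comm]
  · intro x hx ξ hξ
    have hn : 0 < (‖x‖ ^ 2)⁻¹ := by
      have : 0 < ‖x‖ := norm_pos_iff.mpr hx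
      positivity
    simp only [c12_apply]
    have e : ∑ i, ∑ j, (‖x‖ ^ 2)⁻¹ * (if i = j then (1 : ℝ) else 0) * ξ i * ξ j
        = (‖x‖ ^ 2)⁻¹ * ∑ i, ξ i ^ 2 := by
      simp [Fin.sum_univ_three]
      ring
    rw [e]
    apply mul_pos hn
    obtain ⟨k, hk⟩ := Function.ne_iff.mp hξ
    have hk' : ξ k ≠ 0 := hk
    exact Finset.sum_pos' (fun i _ => sq_nonneg _) ⟨k, Finset.mem_univ k, by positivity⟩
  · intro x hx c hc i j
    rw [c12_apply, c12_apply, norm_smul, Real.norm_of_nonneg hc.le]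
    have hn : ‖x‖ ≠ 0 := norm_ne_zero_iff.mpr hx
    field_simp
  · intro x hx i
    simp only [c12_apply]
    have e : ∀ j, (‖x‖ ^ 2)⁻¹ * (if i = j then (1 : ℝ) else 0) * x j
        = if i = j then x j / ‖x‖ ^ 2 else 0 := by
      intro j
      split_ifs
      · rw [div_eq_mul_inv]
        ring
      · ring
    simp only [e]
    simp

/-- The conformal factor. -/
noncomputable def c12_phi (r : ℝ) : ℝ := (Real.sqrt r)⁻¹

theorem c12_met : P0 = Pool.Agent.Lib.PenroseSph.sphMetric c12_phi := by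
  funext y
  unfold P0 Pool.Agent.Lib.PenroseSph.sphMetric c12_phi
  congr 1
  have h1 := Real.sq_sqrt (norm_nonneg y)
  rw [inv_pow]
  congr 1
  calc ‖y‖ ^ 2 = (Real.sqrt ‖y‖ ^ 2) ^ 2 := by rw [h1]
    _ = Real.sqrt ‖y‖ ^ 4 := by ring

theorem c12_reg : Pool.Agent.Lib.PenroseSph.RegPhi c12_phi 0 := by
  refine ⟨le_rfl, ?_, ?_⟩
  · intro r hr
    have hr' : 0 < r := hr
    have h1 : ContDiffAt ℝ 2 Real.sqrt r := Real.contDiffAt_sqrt hr'.ne'
    exact (h1.inv (Real.sqrt_pos.mpr hr').ne').contDiffWithinAt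
  · intro r hr
    exact inv_pos.mpr (Real.sqrt_pos.mpr hr)

theorem c12_LL {r : ℝ} (hr : 0 < r) : Pool.Agent.Lib.PenroseSph.LL c12_phi r = -(r ^ 2)⁻¹ := by
  have hs : 0 < Real.sqrt r := Real.sqrt_pos.mpr hr
  have h1 := (Real.hasDerivAt_sqrt hr.ne').fun_inv hs.ne'
  have h2 : deriv c12_phi r = -(1 / (2 * Real.sqrt r)) / Real.sqrt r ^ 2 := h1.deriv
  unfold Pool.Agent.Lib.PenroseSph.LL
  rw [h2, Real.sq_sqrt hr.le]
  unfold c12_phi
  field_simp

theorem c12_dLL {r : ℝ} (hr : 0 < r) :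
    deriv (Pool.Agent.Lib.PenroseSph.LL c12_phi) r = 2 * (r ^ 3)⁻¹ := by
  have he : Pool.Agent.Lib.PenroseSph.LL c12_phi =ᶠ[𝓝 r] fun s => -(s ^ 2)⁻¹ := by
    filter_upwards [Ioi_mem_nhds hr] with s hs
    exact c12_LL hs
  rw [he.deriv_eq]
  have h2 : r ^ 2 ≠ 0 := pow_ne_zero 2 hr.ne'
  have h1 : HasDerivAt (fun s : ℝ => -(s ^ 2)⁻¹) (-(-(2 * r) / (r ^ 2) ^ 2)) r := by
    have h3 : HasDerivAt (fun s : ℝ => s ^ 2) (2 * r) r := by
      simpa using hasDerivAt_pow 2 r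
    exact (h3.fun_inv h2).fun_neg
  rw [h1.deriv]
  field_simp

/-- `P0` is `PenroseSph.sphMetric φ` with `φ ρ = ρ^(-1/2)` (for `x ≠ 0`; `φ^4 = ρ⁻²`), `scal` is `PenroseSph.scal` (unfold), which is
computed in `PenroseSph.scal_sph` (`a = 0`; `RegPhi` for this `φ`): `LL φ ρ = - 1/ρ²`, so
`scal = - ρ² (4 (2/ρ² - 3/ρ²) + 2/ρ²) = 2`. Or directly: `Γ^k_ij = - (δ_ki x_j + δ_kj x_i - δ_ij x_k) / |x|²`. -/
theorem P0_scal (hx : x ≠ 0) : scal P0 x = 2 := by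
  have hn : 0 < ‖x‖ := norm_pos_iff.mpr hx
  have h1 : scal P0 x = Pool.Agent.Lib.PenroseSph.scal P0 x := rfl
  rw [h1, c12_met, Pool.Agent.Lib.PenroseSph.scal_sph c12_reg hn, c12_LL hn, c12_dLL hn]
  have h2 : c12_phi ‖x‖ ^ 4 = (‖x‖ ^ 2)⁻¹ := by
    unfold c12_phi
    rw [inv_pow]
    congr 1
    calc Real.sqrt ‖x‖ ^ 4 = (Real.sqrt ‖x‖ ^ 2) ^ 2 := by ring
      _ = ‖x‖ ^ 2 := by rw [Real.sq_sqrt hn.le]
  rw [h2]
  field_simp
  norm_num

/-- At points of the unit sphere `P0 = 1`, `sm` has total mass `4π` (`PenroseSph.sm_univ`). -/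
theorem P0_int : ∫ n : S2, scal P0 n * Real.sqrt (P0 n).det ∂sm = 8 * Real.pi := by
  have e : ∀ n : S2, scal P0 n * Real.sqrt (P0 n).det = 2 := by
    intro n
    have h1 := Pool.Agent.Lib.PenroseSph.norm_S2 n
    have h0 : (n : E3) ≠ 0 := by
      intro h0
      rw [h0, norm_zero] at h1
      norm_num at h1
    rw [P0_scal h0]
    unfold P0
    rw [h1]
    simp
  simp only [e]
  rw [integral_const, Pool.Agent.Lib.PenroseSph.sm_univ]
  simp only [smul_eq_mul]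
  ring

end H17W
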