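import Pool.Agent.Lib.H17W.CB1

set_option autoImplicit false

/-!
# H17W, chunk C5 (S/M): homogeneity of the Christoffel symbols
-/

open MeasureTheory Filter Topology Set
open scoped ContDiff

namespace H17W

open Pool.Agent.Lib.PenroseSph (E3 S2 sm pd)

variable {P : E3 → Matrix (Fin 3) (Fin 3) ℝ} {x : E3} {c : ℝ}

/-- The partial derivatives of a function which is homogeneous of degree `-m`. Proof: `y ↦ f (c y)` and `y ↦ f y / c^m` agree near
`x`, so do their partial derivatives at `x`: `c ∂_k f (c x) = ∂_k f (x) / c^m`. -/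
theorem hom_pd {f : E3 → ℝ} {m : ℕ} (hf : ∀ y : E3, y ≠ 0 → f (c • y) = f y / c ^ m) (hd : DifferentiableAt ℝ f (c • x))
    (hx : x ≠ 0) (hc : 0 < c) (k : Fin 3) : H31R.pd k f (c • x) = H31R.pd k f x / c ^ (m + 1) := by
  have h0 : (fun y => c ^ m * f (c • y)) =ᶠ[𝓝 x] f := by
    refine Filter.mem_of_superset (isOpen_ne.mem_nhds hx) fun y hy => ?_
    show c ^ m * f (c • y) = f y
    rw [hf y hy]
    field_simp
  have h1 : HasFDerivAt (fun y : E3 => c • y) (c • ContinuousLinearMap.id ℝ E3) x :=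
    (hasFDerivAt_id x).const_smul c
  have h2 : HasFDerivAt (fun y => c ^ m * f (c • y))
      (c ^ m • ((fderiv ℝ f (c • x)).comp (c • ContinuousLinearMap.id ℝ E3))) x :=
    (hd.hasFDerivAt.comp x h1).const_mul (c ^ m)
  have h3 := (h2.congr_of_eventuallyEq h0.symm).fderiv
  unfold H31R.pd
  rw [h3]
  have h4 : (c ^ m • ((fderiv ℝ f (c • x)).comp (c • ContinuousLinearMap.id ℝ E3)))
      (H31R.ebas k) = c ^ m * (c * (fderiv ℝ f (c • x)) (H31R.ebas k)) := by
    show c ^ m * (fderiv ℝ f (c • x)) (c • H31R.ebas k) = _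
    rw [map_smul, smul_eq_mul]
  rw [h4, pow_succ]
  field_simp

theorem c5_mat (hP : Cyl P) (hx : x ≠ 0) (hc : 0 < c) : P (c • x) = (c ^ 2)⁻¹ • P x := by
  ext a b
  rw [hP.hom x hx c hc a b, Matrix.smul_apply, smul_eq_mul, div_eq_inv_mul]

/-- `P (c x) = c⁻² P x`. -/
theorem Cyl.hom_inv (hP : Cyl P) (hx : x ≠ 0) (hc : 0 < c) (i j : Fin 3) : (P (c • x))⁻¹ i j = c ^ 2 * (P x)⁻¹ i j := by
  have e := c5_mat hP hx hc
  have h1 : (P (c • x))⁻¹ = c ^ 2 • (P x)⁻¹ := by
    apply Matrix.inv_eq_right_inv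
    rw [e, Matrix.smul_mul, Matrix.mul_smul, Matrix.mul_nonsing_inv _ (cb1_unit hP hx), smul_smul,
      inv_mul_cancel₀ (pow_ne_zero 2 hc.ne'), one_smul]
  rw [h1]
  rfl

/-- `det` has degree `-6`. -/
theorem Cyl.hom_sdet (hP : Cyl P) (hx : x ≠ 0) (hc : 0 < c) :
    Real.sqrt (P (c • x)).det = Real.sqrt (P x).det / c ^ 3 := by
  have e := c5_mat hP hx hc
  rw [e, Matrix.det_smul, Fintype.card_fin]
  have h1 : ((c ^ 2)⁻¹) ^ 3 * (P x).det = (P x).det / (c ^ 3) ^ 2 := by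
    field_simp
  rw [h1, Real.sqrt_div' _ (by positivity), Real.sqrt_sq (by positivity)]

/-- `hom_inv` and `hom_pd` (`m = 2`). -/
theorem Cyl.hom_chr (hP : Cyl P) (hx : x ≠ 0) (hc : 0 < c) (k i j : Fin 3) :
    H31R.chr P k i j (c • x) = H31R.chr P k i j x / c := by
  have hcx : c • x ≠ 0 := smul_ne_zero hc.ne' hx
  have h1 : ∀ a b l : Fin 3, H31R.pd l (fun y => P y a b) (c • x) =
      H31R.pd l (fun y => P y a b) x / c ^ 3 := fun a b l =>
    hom_pd (m := 2) (fun y hy => hP.hom y hy c hc a b)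
      ((hP.smooth (c • x) hcx a b).differentiableAt (by simp)) hx hc l
  unfold H31R.chr
  simp only [h1, hP.hom_inv hx hc]
  rw [mul_div_assoc, Finset.sum_div]
  congr 1
  refine Finset.sum_congr rfl fun l _ => ?_
  field_simp

end H17W
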