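import Pool.Agent.Lib.H17W.C4

set_option autoImplicit false

/-!
# H17W, chunk C6 (M): the variation of the Ricci tensor
-/

open MeasureTheory Filter Topology Set
open scoped ContDiff

namespace H17W

open Pool.Agent.Lib.PenroseSph (E3 S2 sm pd)

variable {Pt : ℝ → E3 → Matrix (Fin 3) (Fin 3) ℝ} {t : ℝ} {x : E3}

theorem c6_chr (hF : Fam Pt) (hx : x ≠ 0) (k i j : Fin 3) :
    HasDerivAt (fun s => H31R.chr (Pt s) k i j x) (CC Pt k i j t x) t :=
  j_has (h := fun z => H31R.chr (Pt z.1) k i j z.2) (j_chr hF hx k i j)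

theorem c6_pd (hF : Fam Pt) (hx : x ≠ 0) (m k i j : Fin 3) :
    HasDerivAt (fun s => H31R.pd m (H31R.chr (Pt s) k i j) x) (H31R.pd m (CC Pt k i j t) x) t :=
  j_comm (h := fun z => H31R.chr (Pt z.1) k i j z.2) (j_chr hF hx k i j) m

/-- Unfold `H31R.ric`, product rule in `t`: `j_has` for `h = fun z => H31R.chr (Pt z.1) k i j z.2` (smooth by `j_chr`) gives
`HasDerivAt (fun s => H31R.chr (Pt s) k i j x) (CC Pt k i j t x) t`, and `j_comm` gives
`HasDerivAt (fun s => H31R.pd k (H31R.chr (Pt s) k i j) x) (H31R.pd k (CC Pt k i j t) x) t` (`CC` is by definition the derivative). -/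
theorem dt_ric (hF : Fam Pt) (hx : x ≠ 0) (i j : Fin 3) :
    HasDerivAt (fun s => H31R.ric (Pt s) i j x)
      (∑ k, (H31R.pd k (CC Pt k i j t) x - H31R.pd j (CC Pt k i k t) x +
        ∑ l, (CC Pt k k l t x * H31R.chr (Pt t) l i j x + H31R.chr (Pt t) k k l x * CC Pt l i j t x -
          CC Pt k j l t x * H31R.chr (Pt t) l i k x - H31R.chr (Pt t) k j l x * CC Pt l i k t x))) t := by
  unfold H31R.ric
  refine HasDerivAt.fun_sum fun k _ => ?_
  refine ((c6_pd hF hx k k i j).sub (c6_pd hF hx j k i k)).add ?_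
  refine HasDerivAt.fun_sum fun l _ => ?_
  have h1 := (c6_chr (t := t) hF hx k k l).mul (c6_chr (t := t) hF hx l i j)
  have h2 := (c6_chr (t := t) hF hx k j l).mul (c6_chr (t := t) hF hx l i k)
  refine (h1.sub h2).congr_deriv ?_
  ring

end H17W
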