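import Pool.Agent.Lib.H17W.C0

set_option autoImplicit false

/-!
# H17W, chunk C9A (S/M): algebraic curvature tensors in dimension three with a parallel vector
-/

namespace H17W

/-- A vector `a` with `a × x = 0` is a multiple of `x`. -/
theorem c9a_mul {a x w : Fin 3 → ℝ} (hw : ∑ i, x i * w i = 1) (h01 : a 1 * x 0 = a 0 * x 1) (h02 : a 2 * x 0 = a 0 * x 2)
    (h12 : a 2 * x 1 = a 1 * x 2) (m : Fin 3) : a m = (∑ p, a p * w p) * x m := by
  rw [Fin.sum_univ_three] at hw ⊢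
  fin_cases m
  · show a 0 = (a 0 * w 0 + a 1 * w 1 + a 2 * w 2) * x 0
    linear_combination (-a 0) * hw - w 1 * h01 - w 2 * h02
  · show a 1 = (a 0 * w 0 + a 1 * w 1 + a 2 * w 2) * x 1
    linear_combination (-a 1) * hw + w 0 * h01 - w 2 * h12
  · show a 2 = (a 0 * w 0 + a 1 * w 1 + a 2 * w 2) * x 2
    linear_combination (-a 2) * hw + w 0 * h02 + w 1 * h12

/-- An antisymmetric matrix is `crs` of its vector. -/
theorem c9a_crs {M : Fin 3 → Fin 3 → ℝ} {x : Fin 3 → ℝ} {ρ : ℝ} (hM : ∀ i j, M i j = -M j i) (h0 : M 1 2 = ρ * x 0)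
    (h1 : M 2 0 = ρ * x 1) (h2 : M 0 1 = ρ * x 2) (i j : Fin 3) : M i j = ρ * crs x i j := by
  have e0 := hM 0 0
  have e1 := hM 1 1
  have e2 := hM 2 2
  have e3 := hM 1 0
  have e4 := hM 0 2
  have e5 := hM 2 1
  fin_cases i <;> fin_cases j <;> simp [crs] <;> linarith

/-- Let `R n k i j` (think of `<R(e_i, e_j) e_k, e_n>`) be antisymmetric in `n, k` and in `i, j`, with the Bianchi identity, and
`Σ_k R n k i j x_k = 0`. Then `R` is a multiple of the square of the area form of the plane orthogonal to `x`.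
Proof. Fix `i, j` and put `a = (R 1 2 i j, R 2 0 i j, R 0 1 i j)`. The three equations `Σ_k R n k i j x_k = 0`, `n = 0, 1, 2`, are
`a_2 x_1 = a_1 x_2`, `a_0 x_2 = a_2 x_0`, `a_1 x_0 = a_0 x_1`; with `Σ x_m w_m = 1`: `a_m = ρ_ij x_m`, `ρ_ij = Σ_p a_p w_p`, that is
`R n k i j = ρ_ij * crs x n k`; and `ρ_ij = - ρ_ji`. Put `r = (ρ_12, ρ_20, ρ_01)`. The Bianchi identity for `(k, i, j) = (0, 1, 2)` is
`Σ_k crs x n k r_k = 0` for all `n`, the same three equations for `r`, so `r_m = κ x_m`, `κ = Σ r_p w_p`, and `ρ_ij = κ crs x i j`.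
(`Fin` case checks: `fin_cases` on the indices, `linear_combination`.) -/
theorem curv3 {R : Fin 3 → Fin 3 → Fin 3 → Fin 3 → ℝ} {x w : Fin 3 → ℝ} (hw : ∑ i, x i * w i = 1)
    (h1 : ∀ n k i j, R n k i j = -R k n i j) (h2 : ∀ n k i j, R n k i j = -R n k j i)
    (h3 : ∀ n k i j, R n k i j + R n i j k + R n j k i = 0) (h4 : ∀ n i j, ∑ k, R n k i j * x k = 0) :
    ∃ κ : ℝ, ∀ n k i j, R n k i j = κ * crs x n k * crs x i j := by
  have key : ∀ i j, ∃ ρ : ℝ, ρ = R 1 2 i j * w 0 + R 2 0 i j * w 1 + R 0 1 i j * w 2 ∧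
      R 1 2 i j = ρ * x 0 ∧ R 2 0 i j = ρ * x 1 ∧ R 0 1 i j = ρ * x 2 := by
    intro i j
    have q0 := h4 0 i j
    have q1 := h4 1 i j
    have q2 := h4 2 i j
    rw [Fin.sum_univ_three] at q0 q1 q2
    have d0 := h1 0 0 i j
    have d1 := h1 1 1 i j
    have d2 := h1 2 2 i j
    have d3 := h1 1 0 i j
    have d4 := h1 0 2 i j
    have d5 := h1 2 1 i j
    have z0 : R 0 0 i j = 0 := by linarith
    have z1 : R 1 1 i j = 0 := by linarith
    have z2 : R 2 2 i j = 0 := by linarith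
    rw [z0, d4] at q0
    rw [z1, d3] at q1
    rw [z2, d5] at q2
    have hm := c9a_mul (a := ![R 1 2 i j, R 2 0 i j, R 0 1 i j]) hw
      (by simp only [Matrix.cons_val_zero, Matrix.cons_val_one]; linarith)
      (by simp only [Matrix.cons_val_zero, Matrix.cons_val]; linarith)
      (by simp only [Matrix.cons_val_one, Matrix.cons_val]; linarith)
    have m0 := hm 0
    have m1 := hm 1
    have m2 := hm 2
    rw [Fin.sum_univ_three] at m0 m1 m2
    exact ⟨_, rfl, m0, m1, m2⟩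
  choose ρ hρ k0 k1 k2 using key
  have hR : ∀ n k i j, R n k i j = ρ i j * crs x n k := fun n k i j =>
    c9a_crs (M := fun n k => R n k i j) (fun n k => h1 n k i j) (k0 i j) (k1 i j) (k2 i j) n k
  have hρa : ∀ i j, ρ i j = -ρ j i := by
    intro i j
    rw [hρ i j, hρ j i, h2 1 2 i j, h2 2 0 i j, h2 0 1 i j]
    ring
  have b0 := h3 0 0 1 2
  have b1 := h3 1 0 1 2
  have b2 := h3 2 0 1 2
  simp only [hR] at b0 b1 b2
  have c00 : crs x 0 0 = 0 := rfl
  have c01 : crs x 0 1 = x 2 := rfl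
  have c02 : crs x 0 2 = -x 1 := rfl
  have c10 : crs x 1 0 = -x 2 := rfl
  have c11 : crs x 1 1 = 0 := rfl
  have c12 : crs x 1 2 = x 0 := rfl
  have c20 : crs x 2 0 = x 1 := rfl
  have c21 : crs x 2 1 = -x 0 := rfl
  have c22 : crs x 2 2 = 0 := rfl
  rw [c00, c01, c02] at b0
  rw [c10, c11, c12] at b1
  rw [c20, c21, c22] at b2
  have hm := c9a_mul (a := ![ρ 1 2, ρ 2 0, ρ 0 1]) hw
    (by simp only [Matrix.cons_val_zero, Matrix.cons_val_one]; linarith)
    (by simp only [Matrix.cons_val_zero, Matrix.cons_val]; linarith)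
    (by simp only [Matrix.cons_val_one, Matrix.cons_val]; linarith)
  have m0 := hm 0
  have m1 := hm 1
  have m2 := hm 2
  refine ⟨∑ p, (![ρ 1 2, ρ 2 0, ρ 0 1] : Fin 3 → ℝ) p * w p, fun n k i j => ?_⟩
  have h5 := c9a_crs (M := ρ) hρa m0 m1 m2 i j
  rw [hR, h5]
  ring

end H17W
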