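import Pool.Agent.Lib.H17W.C0

set_option autoImplicit false

/-!
# H17W, chunk C9B (S/M): the trace of the square of the area form
-/

namespace H17W

/-- For a symmetric invertible matrix `A`: `crs(x)ᵀ A⁻¹ crs(x) = (det A)⁻¹ ((xᵀ A x) A - (A x) (A x)ᵀ)`.
Proof. `A⁻¹ = (det A)⁻¹ adjugate A` (`Matrix.inv_def`, `Matrix.adjugate_fin_three`), so after multiplication by `det A` it is a
polynomial identity in the six entries of `A` and in `x`, if the factor `xᵀ A x = 1` (`h1` with `hw`) is put in front of `A k j`: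
`Σ_ln adj_ln crs_nk crs_lj - ((Σ_ab A_ab x_a x_b) A_kj - w_k w_j) = 0` (checked; `fin_cases` on `k`, `j`, `Fin.sum_univ_three`,
`Matrix.det_fin_three`, `ring`). -/
theorem crs_trace {A : Matrix (Fin 3) (Fin 3) ℝ} (hs : ∀ i j, A i j = A j i) (hd : A.det ≠ 0) {x w : Fin 3 → ℝ}
    (hw : ∀ i, w i = ∑ j, A i j * x j) (h1 : ∑ i, x i * w i = 1) (k j : Fin 3) :
    ∑ l, ∑ n, A⁻¹ l n * crs x n k * crs x l j = (A.det)⁻¹ * (A k j - w k * w j) := by
  have key : ∑ l, ∑ n, A.adjugate l n * crs x n k * crs x l j =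
      (∑ i, x i * ∑ j, A i j * x j) * A k j - (∑ j', A k j' * x j') * (∑ j', A j j' * x j') := by
    have h10 := hs 1 0
    have h20 := hs 2 0
    have h21 := hs 2 1
    rw [Matrix.adjugate_fin_three]
    simp only [Fin.sum_univ_three, h10, h20, h21]
    fin_cases k <;> fin_cases j <;> simp [crs, h10, h20, h21] <;> ring
  have e1 : ∑ l, ∑ n, A⁻¹ l n * crs x n k * crs x l j =
      (A.det)⁻¹ * ∑ l, ∑ n, A.adjugate l n * crs x n k * crs x l j := by
    rw [Finset.mul_sum]
    refine Finset.sum_congr rfl fun l _ => ?_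
    rw [Finset.mul_sum]
    refine Finset.sum_congr rfl fun n _ => ?_
    rw [Matrix.inv_def, Ring.inverse_eq_inv', Matrix.smul_apply, smul_eq_mul]
    ring
  have e2 : ∑ i, x i * ∑ j, A i j * x j = 1 := by
    rw [← h1]
    exact Finset.sum_congr rfl fun i _ => by rw [hw i]
  rw [e1, key, e2, one_mul, hw k, hw j]

end H17W
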