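import Pool.Agent.Lib.H17W.C0

set_option autoImplicit false

/-!
# H17W, chunk CB1 (S): simple facts on cylinder metrics
-/

open MeasureTheory Filter Topology Set
open scoped ContDiff

namespace H17W

open Pool.Agent.Lib.PenroseSph (E3 S2 sm pd)

variable {P : E3 → Matrix (Fin 3) (Fin 3) ℝ} {x : E3}

theorem cb1_posDef (hP : Cyl P) (hx : x ≠ 0) : (P x).PosDef := by
  have hherm : (P x).IsHermitian := by
    ext i j
    simp only [Matrix.conjTranspose_apply, star_trivial]
    exact hP.symm x hx j i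
  refine Matrix.PosDef.of_dotProduct_mulVec_pos hherm ?_
  intro ξ hξ
  have := hP.pos x hx ξ hξ
  have e : star ξ ⬝ᵥ (P x).mulVec ξ = ∑ i, ∑ j, P x i j * ξ i * ξ j := by
    simp only [dotProduct, Matrix.mulVec, Pi.star_apply, star_trivial, Finset.mul_sum]
    exact Finset.sum_congr rfl fun i _ => Finset.sum_congr rfl fun j _ => by ring
  rw [e]; exact this

/-- A positive definite symmetric matrix has positive determinant (`Matrix.PosDef.det_pos`). -/
theorem Cyl.det_pos (hP : Cyl P) (hx : x ≠ 0) : 0 < (P x).det :=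
  (cb1_posDef hP hx).det_pos

theorem cb1_unit (hP : Cyl P) (hx : x ≠ 0) : IsUnit (P x).det :=
  isUnit_iff_ne_zero.2 (hP.det_pos hx).ne'

/-- The inverse of a symmetric matrix is symmetric. -/
theorem Cyl.inv_symm (hP : Cyl P) (hx : x ≠ 0) (i j : Fin 3) : (P x)⁻¹ i j = (P x)⁻¹ j i := by
  have h : (P x).transpose = P x := by
    ext a b
    exact hP.symm x hx b a
  have h2 : ((P x)⁻¹).transpose = (P x)⁻¹ := by
    rw [Matrix.transpose_nonsing_inv, h]
  exact congrFun (congrFun h2 j) i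

/-- `(P x)⁻¹ (P x) = 1`, entrywise. -/
theorem Cyl.inv_mul (hP : Cyl P) (hx : x ≠ 0) (i j : Fin 3) :
    ∑ k, (P x)⁻¹ i k * P x k j = if i = j then 1 else 0 := by
  have h := congrFun (congrFun (Matrix.nonsing_inv_mul _ (cb1_unit hP hx)) i) j
  rw [Matrix.mul_apply, Matrix.one_apply] at h
  exact h

/-- `(P x) (P x)⁻¹ = 1`, entrywise. -/
theorem Cyl.mul_inv (hP : Cyl P) (hx : x ≠ 0) (i j : Fin 3) :
    ∑ k, P x i k * (P x)⁻¹ k j = if i = j then 1 else 0 := by
  have h := congrFun (congrFun (Matrix.mul_nonsing_inv _ (cb1_unit hP hx)) i) j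
  rw [Matrix.mul_apply, Matrix.one_apply] at h
  exact h

/-- From `Cyl.rad`: `P x = x / |x|²`, so `P⁻¹ (x / |x|²) = x`. -/
theorem Cyl.inv_rad (hP : Cyl P) (hx : x ≠ 0) (i : Fin 3) : ∑ j, (P x)⁻¹ i j * (x j / ‖x‖ ^ 2) = x i := by
  have h1 : (P x).mulVec (fun j => x j) = fun j => x j / ‖x‖ ^ 2 := by
    funext j
    exact hP.rad x hx j
  have h2 : ((P x)⁻¹).mulVec ((P x).mulVec (fun j => x j)) = fun j => x j := by
    rw [Matrix.mulVec_mulVec, Matrix.nonsing_inv_mul _ (cb1_unit hP hx), Matrix.one_mulVec]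
  rw [h1] at h2
  exact congrFun h2 i

/-- `P` is smooth and symmetric at all points `y ≠ 0`, hence near `x`. -/
theorem Cyl.metAt (hP : Cyl P) (hx : x ≠ 0) : MetAt P x where
  smooth := (isOpen_ne.mem_nhds hx : {y : E3 | y ≠ 0} ∈ 𝓝 x) |> fun h => Filter.mem_of_superset h fun y hy => hP.smooth y hy
  symm := (isOpen_ne.mem_nhds hx : {y : E3 | y ≠ 0} ∈ 𝓝 x) |> fun h => Filter.mem_of_superset h fun y hy => hP.symm y hy
  nondeg := (hP.det_pos hx).ne'

end H17W
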