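import Pool.Agent.Lib.H17W.A5
import Pool.Agent.Lib.H17W.B3E
import Pool.Agent.Lib.H17W.CB1
import Pool.Agent.Lib.H17W.C9A
import Pool.Agent.Lib.H17W.C9B

set_option autoImplicit false

/-!
# H17W, chunk C9 (M): the Ricci tensor of a cylinder metric
-/

open MeasureTheory Filter Topology Set
open scoped ContDiff

namespace H17W

open Pool.Agent.Lib.PenroseSph (E3 S2 sm pd)

variable {P : E3 → Matrix (Fin 3) (Fin 3) ℝ} {x : E3}

theorem c9_riem (P : E3 → Matrix (Fin 3) (Fin 3) ℝ) (x : E3) (i j k l : Fin 3) :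
    riem P x (Pi.single i 1) (Pi.single j 1) (Pi.single k 1) l = rm P l k i j x := by
  unfold riem
  rw [Finset.sum_eq_single i, Finset.sum_eq_single j, Finset.sum_eq_single k]
  · simp
  · intro b _ hb; simp [hb]
  · intro h; exact absurd (Finset.mem_univ _) h
  · intro b _ hb; simp [hb]
  · intro h; exact absurd (Finset.mem_univ _) h
  · intro b _ hb; simp [hb]
  · intro h; exact absurd (Finset.mem_univ _) h

theorem c9_low (hP : Cyl P) (hx : x ≠ 0) (n k i j : Fin 3) :
    ∑ l, P x n l * rm P l k i j x =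
      ip P x (riem P x (Pi.single i 1) (Pi.single j 1) (Pi.single k 1)) (Pi.single n 1) := by
  rw [ip_symm (hP.metAt hx), a5_single, Matrix.mulVec, dotProduct]
  exact Finset.sum_congr rfl fun l _ => by rw [c9_riem]

theorem c9_norm (hx : x ≠ 0) : ∑ i, x i * (x i / ‖x‖ ^ 2) = 1 := by
  have h1 : ‖x‖ ^ 2 = ∑ i, x i ^ 2 := EuclideanSpace.real_norm_sq_eq x
  have h2 : ‖x‖ ^ 2 ≠ 0 := pow_ne_zero 2 (norm_ne_zero_iff.mpr hx)
  have h3 : ∀ i, x i * (x i / ‖x‖ ^ 2) = x i ^ 2 / ‖x‖ ^ 2 := fun i => by ring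
  simp only [h3]
  rw [← Finset.sum_div, ← h1, div_self h2]

/-- The curvature tensor with the index lowered, `R n k i j = <R(e_i, e_j) e_k, e_n> = Σ_l P_nl rm^l_kij`, is a multiple of
`crs x n k * crs x i j`. Apply `curv3` with `w i = x i / ‖x‖²` (`Σ x_i² = ‖x‖²`): `h1` is `riem_skew`, `h2` is `riem_anti` (or the
definition of `rm`), `h3` is `bianchi`, all with the basis vectors `Pi.single i 1` (then `riem P x e_i e_j e_k l = rm P l k i j x`);
`h4`: by `h1`, `Σ_k R n k i j x_k = - Σ_k Σ_l P_kl x_k rm^l_nij = - Σ_l (x_l / ‖x‖²) rm^l_nij = 0` (`Cyl.rad`, `Cyl.symm`,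
`cyl_riem_up`). -/
theorem cyl_curv (hP : Cyl P) (hx : x ≠ 0) :
    ∃ κ : ℝ, ∀ n k i j, ∑ l, P x n l * rm P l k i j x = κ * crs x n k * crs x i j := by
  have hm := hP.metAt hx
  have hsk : ∀ n k i j, ∑ l, P x n l * rm P l k i j x = -∑ l, P x k l * rm P l n i j x := by
    intro n k i j
    rw [c9_low hP hx, c9_low hP hx]
    exact riem_skew hm _ _ _ _
  refine curv3 (R := fun n k i j => ∑ l, P x n l * rm P l k i j x) (w := fun i => x i / ‖x‖ ^ 2)
    (c9_norm hx) hsk ?_ ?_ ?_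
  · intro n k i j
    change ∑ l, P x n l * rm P l k i j x = -∑ l, P x n l * rm P l k j i x
    rw [← Finset.sum_neg_distrib]
    refine Finset.sum_congr rfl fun l _ => ?_
    rw [← c9_riem, ← c9_riem, riem_anti]
    simp
  · intro n k i j
    change ∑ l, P x n l * rm P l k i j x + ∑ l, P x n l * rm P l i j k x +
      ∑ l, P x n l * rm P l j k i x = 0
    rw [← Finset.sum_add_distrib, ← Finset.sum_add_distrib]
    refine Finset.sum_eq_zero fun l _ => ?_
    rw [← mul_add, ← mul_add]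
    have h := congrFun (bianchi hm (Pi.single i 1) (Pi.single j 1) (Pi.single k 1)) l
    simp only [Pi.add_apply, Pi.zero_apply, c9_riem] at h
    rw [h, mul_zero]
  · intro n i j
    have h1 : ∀ k, (∑ l, P x n l * rm P l k i j x) * x k =
        -∑ l, P x k l * rm P l n i j x * x k := by
      intro k
      rw [hsk n k i j, neg_mul, Finset.sum_mul]
    change ∑ k, (∑ l, P x n l * rm P l k i j x) * x k = 0
    simp only [h1]
    rw [Finset.sum_neg_distrib, Finset.sum_comm]
    have h2 : ∀ l, ∑ k, P x k l * rm P l n i j x * x k = (rm P l n i j x * x l) / ‖x‖ ^ 2 := by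
      intro l
      have h3 := hP.rad x hx l
      calc ∑ k, P x k l * rm P l n i j x * x k = rm P l n i j x * ∑ k, P x l k * x k := by
            rw [Finset.mul_sum]
            refine Finset.sum_congr rfl fun k _ => ?_
            rw [hP.symm x hx k l]
            ring
        _ = _ := by rw [h3]; ring
    simp only [h2]
    rw [← Finset.sum_div, cyl_riem_up hP hx, zero_div, neg_zero]

/-- `ric_kj = Σ_l rm^l_klj` (`ric_eq`) `= Σ_ln K_ln (Σ_m P_nm rm^m_klj) = κ Σ_ln K_ln crs_nk crs_lj = κ (det P)⁻¹ (P_kj - w_k w_j)` with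
`w = P x = x / ‖x‖²` (`crs_trace`). -/
theorem cyl_ric_aux (hP : Cyl P) (hx : x ≠ 0) :
    ∃ κ : ℝ, ∀ k j, H31R.ric P k j x = κ * (P x k j - x k * x j / ‖x‖ ^ 4) := by
  obtain ⟨κ, hκ⟩ := cyl_curv hP hx
  refine ⟨κ * ((P x).det)⁻¹, fun k j => ?_⟩
  have hd := (hP.det_pos hx).ne'
  have h1 := crs_trace (A := P x) (x := x) (w := fun i => x i / ‖x‖ ^ 2) (hP.symm x hx) hd
    (fun i => (hP.rad x hx i).symm) (c9_norm hx) k j
  have h2 : ∀ l, rm P l k l j x = ∑ n, (P x)⁻¹ l n * (κ * crs x n k * crs x l j) := by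
    intro l
    simp only [← hκ, Finset.mul_sum]
    rw [Finset.sum_comm]
    have h3 : ∀ m, ∑ n, (P x)⁻¹ l n * (P x n m * rm P m k l j x) =
        (if l = m then 1 else 0) * rm P m k l j x := by
      intro m
      rw [← hP.inv_mul hx l m, Finset.sum_mul]
      exact Finset.sum_congr rfl fun n _ => by ring
    simp only [h3]
    simp
  rw [ric_eq (hP.metAt hx)]
  calc ∑ l, rm P l k l j x = κ * ∑ l, ∑ n, (P x)⁻¹ l n * crs x n k * crs x l j := by
        rw [Finset.mul_sum]
        refine Finset.sum_congr rfl fun l _ => ?_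
        rw [h2 l, Finset.mul_sum]
        exact Finset.sum_congr rfl fun n _ => by ring
    _ = _ := by
        rw [h1]
        field_simp

/-- With `κ` from `cyl_ric_aux`: `scal = Σ K_kj ric_kj = κ (3 - Σ K_kj w_k w_j) = 2 κ`, as `K w = x` (`Cyl.inv_rad`), `x · w = 1`. -/
theorem ric_cyl (hP : Cyl P) (hx : x ≠ 0) (k j : Fin 3) :
    H31R.ric P k j x = scal P x / 2 * (P x k j - x k * x j / ‖x‖ ^ 4) := by
  obtain ⟨κ, hκ⟩ := cyl_ric_aux hP hx
  have h1 : scal P x = 2 * κ := by
    unfold scal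
    simp only [hκ]
    have h2 : ∀ i, ∑ j, (P x)⁻¹ i j * (κ * (P x i j - x i * x j / ‖x‖ ^ 4)) =
        κ * (1 - x i * (x i / ‖x‖ ^ 2)) := by
      intro i
      have h3 := hP.inv_mul hx i i
      rw [if_pos rfl] at h3
      have h4 := hP.inv_rad hx i
      calc ∑ j, (P x)⁻¹ i j * (κ * (P x i j - x i * x j / ‖x‖ ^ 4))
          = κ * (∑ j, (P x)⁻¹ i j * P x j i - x i / ‖x‖ ^ 2 * ∑ j, (P x)⁻¹ i j * (x j / ‖x‖ ^ 2)) := by
            rw [Finset.mul_sum, ← Finset.sum_sub_distrib, Finset.mul_sum]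
            refine Finset.sum_congr rfl fun j _ => ?_
            rw [hP.symm x hx j i]
            ring
        _ = _ := by rw [h3, h4]; ring
    simp only [h2]
    rw [← Finset.mul_sum, Finset.sum_sub_distrib, c9_norm hx]
    simp
    ring
  rw [h1, hκ k j]
  ring

end H17W
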