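import Pool.Agent.Lib.H17W.C0

set_option autoImplicit false

/-!
# H17W, chunk CB2 (M): derivatives of the inverse and of the determinant
-/

open MeasureTheory Filter Topology Set
open scoped ContDiff

namespace H17W

open Pool.Agent.Lib.PenroseSph (E3 S2 sm pd)

theorem cb2_diff_det {A : ℝ → Matrix (Fin 3) (Fin 3) ℝ} {t : ℝ}
    (h : ∀ i j, DifferentiableAt ℝ (fun s => A s i j) t) : DifferentiableAt ℝ (fun s => (A s).det) t := by
  simp only [Matrix.det_fin_three]
  fun_prop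

theorem cb2_diff_adj {A : ℝ → Matrix (Fin 3) (Fin 3) ℝ} {t : ℝ}
    (h : ∀ i j, DifferentiableAt ℝ (fun s => A s i j) t) (i j : Fin 3) :
    DifferentiableAt ℝ (fun s => (A s).adjugate i j) t := by
  simp only [Matrix.adjugate_apply]
  apply cb2_diff_det
  intro a b
  by_cases hab : a = j
  · subst hab
    simp only [Matrix.updateRow_self]
    exact differentiableAt_const _
  · simp only [Matrix.updateRow_ne hab]
    exact h a b

theorem cb2_diff_inv {A : ℝ → Matrix (Fin 3) (Fin 3) ℝ} {t : ℝ}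
    (h : ∀ i j, DifferentiableAt ℝ (fun s => A s i j) t) (hd : (A t).det ≠ 0) (i j : Fin 3) :
    DifferentiableAt ℝ (fun s => (A s)⁻¹ i j) t := by
  have e : (fun s => (A s)⁻¹ i j) = fun s => ((A s).det)⁻¹ * (A s).adjugate i j := by
    funext s
    rw [Matrix.inv_def, Ring.inverse_eq_inv']
    rfl
  rw [e]
  exact ((cb2_diff_det h).inv hd).mul (cb2_diff_adj h i j)

/-- Derivative of the inverse along a curve of matrices: the entries of `A⁻¹` are differentiable (`(A s)⁻¹ i j = (det A)⁻¹ *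
adjugate`, as in `H31R.N_inv_at`; or `HasDerivAt.ringInverse`), and differentiate `A⁻¹ A = 1` (true near `t`). -/
theorem hasDerivAt_minv {A : ℝ → Matrix (Fin 3) (Fin 3) ℝ} {A' : Matrix (Fin 3) (Fin 3) ℝ} {t : ℝ}
    (h : ∀ i j, HasDerivAt (fun s => A s i j) (A' i j) t) (hd : (A t).det ≠ 0) (i j : Fin 3) :
    HasDerivAt (fun s => (A s)⁻¹ i j) (-∑ a, ∑ b, (A t)⁻¹ i a * A' a b * (A t)⁻¹ b j) t := by
  have hD : ∀ i j, DifferentiableAt ℝ (fun s => A s i j) t := fun i j => (h i j).differentiableAt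
  have hI : ∀ i j, DifferentiableAt ℝ (fun s => (A s)⁻¹ i j) t := cb2_diff_inv hD hd
  -- the matrix of derivatives of the inverse
  set B : Matrix (Fin 3) (Fin 3) ℝ := fun i j => deriv (fun s => (A s)⁻¹ i j) t with hB
  have hBd : ∀ i j, HasDerivAt (fun s => (A s)⁻¹ i j) (B i j) t := fun i j => (hI i j).hasDerivAt
  have hev : ∀ᶠ s in 𝓝 t, (A s).det ≠ 0 := (cb2_diff_det hD).continuousAt.eventually_ne hd
  have hu : IsUnit (A t).det := isUnit_iff_ne_zero.2 hd
  have hz : A' * (A t)⁻¹ + A t * B = 0 := by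
    ext i j
    have h1 : HasDerivAt (fun s => ∑ k, A s i k * (A s)⁻¹ k j)
        (∑ k, (A' i k * (A t)⁻¹ k j + A t i k * B k j)) t :=
      HasDerivAt.fun_sum fun k _ => (h i k).mul (hBd k j)
    have h2 : (fun s => ∑ k, A s i k * (A s)⁻¹ k j) =ᶠ[𝓝 t] fun _ => (1 : Matrix (Fin 3) (Fin 3) ℝ) i j :=
      hev.mono fun s hs => by
        have := congrFun (congrFun (Matrix.mul_nonsing_inv (A s) (isUnit_iff_ne_zero.2 hs)) i) j
        rw [Matrix.mul_apply] at this
        exact this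
    have h3 : HasDerivAt (fun s => ∑ k, A s i k * (A s)⁻¹ k j) 0 t :=
      (hasDerivAt_const t ((1 : Matrix (Fin 3) (Fin 3) ℝ) i j)).congr_of_eventuallyEq h2
    have h4 := h1.unique h3
    rw [Finset.sum_add_distrib] at h4
    simpa only [Matrix.add_apply, Matrix.mul_apply, Matrix.zero_apply] using h4
  have h5 : B = -((A t)⁻¹ * (A' * (A t)⁻¹)) := by
    have h6 : (A t)⁻¹ * (A' * (A t)⁻¹ + A t * B) = 0 := by rw [hz, Matrix.mul_zero]
    rw [Matrix.mul_add, ← Matrix.mul_assoc (A t)⁻¹ (A t) B, Matrix.nonsing_inv_mul _ hu, Matrix.one_mul] at h6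
    exact eq_neg_of_add_eq_zero_right h6
  have h7 := hBd i j
  have h8 : B i j = -∑ a, ∑ b, (A t)⁻¹ i a * A' a b * (A t)⁻¹ b j := by
    rw [h5]
    simp only [Matrix.neg_apply, Matrix.mul_apply, Finset.mul_sum]
    congr 1
    exact Finset.sum_congr rfl fun a _ => Finset.sum_congr rfl fun b _ => by ring
  rwa [h8] at h7

theorem cb2_adj_eq {M : Matrix (Fin 3) (Fin 3) ℝ} (hd : M.det ≠ 0) (i j : Fin 3) :
    M.adjugate i j = M.det * M⁻¹ i j := by
  rw [Matrix.inv_def, Ring.inverse_eq_inv']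
  show _ = M.det * (M.det⁻¹ * M.adjugate i j)
  rw [← mul_assoc, mul_inv_cancel₀ hd, one_mul]

theorem cb2_hasDerivAt_det {A : ℝ → Matrix (Fin 3) (Fin 3) ℝ} {A' : Matrix (Fin 3) (Fin 3) ℝ} {t : ℝ}
    (h : ∀ i j, HasDerivAt (fun s => A s i j) (A' i j) t) :
    HasDerivAt (fun s => (A s).det) (∑ a, ∑ b, (A t).adjugate b a * A' a b) t := by
  have h1 := ((((((h 0 0).mul (h 1 1)).mul (h 2 2)).sub (((h 0 0).mul (h 1 2)).mul (h 2 1))).sub
    (((h 0 1).mul (h 1 0)).mul (h 2 2))).add (((h 0 1).mul (h 1 2)).mul (h 2 0))).add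
    (((h 0 2).mul (h 1 0)).mul (h 2 1)) |>.sub (((h 0 2).mul (h 1 1)).mul (h 2 0))
  have e : (fun s => (A s).det) = fun s => A s 0 0 * A s 1 1 * A s 2 2 - A s 0 0 * A s 1 2 * A s 2 1 -
      A s 0 1 * A s 1 0 * A s 2 2 + A s 0 1 * A s 1 2 * A s 2 0 + A s 0 2 * A s 1 0 * A s 2 1 -
      A s 0 2 * A s 1 1 * A s 2 0 := by
    funext s
    rw [Matrix.det_fin_three]
  rw [e]
  refine h1.congr_deriv ?_
  simp only [Fin.sum_univ_three, Matrix.adjugate_fin_three, Matrix.of_apply, Matrix.cons_val', Matrix.cons_val_zero,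
    Matrix.cons_val_one, Matrix.cons_val, Pi.mul_apply]
  ring

/-- Derivative of `√det` along a curve of matrices (Jacobi's formula): expand `det` with `Matrix.det_fin_three` and differentiate; with
`A⁻¹ = (det A)⁻¹ adjugate A` (`Matrix.adjugate_fin_three`, `Matrix.inv_def`) the derivative of `det` is
`Σ_ab adjugate_ba A'_ab = det A Σ_ab (A⁻¹)_ba A'_ab`, then `Real.sqrt` (`√d' = d' / (2 √d)`, `d = √d²`). For symmetric `A t` one may
exchange `a` and `b` in the inverse. -/
theorem hasDerivAt_sdet {A : ℝ → Matrix (Fin 3) (Fin 3) ℝ} {A' : Matrix (Fin 3) (Fin 3) ℝ} {t : ℝ}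
    (h : ∀ i j, HasDerivAt (fun s => A s i j) (A' i j) t) (hs : ∀ i j, A t i j = A t j i) (hd : 0 < (A t).det) :
    HasDerivAt (fun s => Real.sqrt (A s).det) (Real.sqrt (A t).det * (1 / 2) * ∑ a, ∑ b, (A t)⁻¹ a b * A' a b) t := by
  have h1 := (cb2_hasDerivAt_det h).sqrt hd.ne'
  refine h1.congr_deriv ?_
  have hsym : ∀ a b, (A t)⁻¹ b a = (A t)⁻¹ a b := by
    intro a b
    have h' : (A t).transpose = A t := by
      ext a b
      exact hs b a
    have h2 : ((A t)⁻¹).transpose = (A t)⁻¹ := by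
      rw [Matrix.transpose_nonsing_inv, h']
    exact congrFun (congrFun h2 a) b
  have h3 : ∑ a, ∑ b, (A t).adjugate b a * A' a b = (A t).det * ∑ a, ∑ b, (A t)⁻¹ a b * A' a b := by
    simp only [Finset.mul_sum]
    refine Finset.sum_congr rfl fun a _ => Finset.sum_congr rfl fun b _ => ?_
    rw [cb2_adj_eq hd.ne', hsym]; ring
  rw [h3]
  have h4 : Real.sqrt (A t).det ≠ 0 := (Real.sqrt_pos.2 hd).ne'
  have h5 : (A t).det = Real.sqrt (A t).det * Real.sqrt (A t).det := (Real.mul_self_sqrt hd.le).symm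
  rw [div_eq_iff (by positivity)]
  nth_rewrite 1 [h5]
  ring

/-- The same for partial derivatives: restrict to the line `s ↦ x + s e_i` (or repeat the proof). Note that `y ↦ √det P y` is
differentiable at `x`, and `H31R.pd i f x` is the derivative of `s ↦ f (x + s • ebas i)` at `0`. -/
theorem pd_sdet {P : E3 → Matrix (Fin 3) (Fin 3) ℝ} {x : E3} (h : ∀ i j, DifferentiableAt ℝ (fun y => P y i j) x)
    (hs : ∀ i j, P x i j = P x j i) (hd : 0 < (P x).det) (i : Fin 3) :
    H31R.pd i (fun y => Real.sqrt (P y).det) x =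
      Real.sqrt (P x).det * (1 / 2) * ∑ a, ∑ b, (P x)⁻¹ a b * H31R.pd i (fun y => P y a b) x := by
  set γ : ℝ → E3 := fun s => x + s • H31R.ebas i with hγ
  have hγ0 : γ 0 = x := by simp [hγ]
  have hγd : HasDerivAt γ (H31R.ebas i) 0 := by
    have := ((hasDerivAt_id (0 : ℝ)).smul_const (H31R.ebas i : E3)).const_add x
    simpa [hγ] using this
  have key : ∀ f : E3 → ℝ, DifferentiableAt ℝ f x → HasDerivAt (fun s => f (γ s)) (H31R.pd i f x) 0 := by
    intro f hf
    have h1 : HasFDerivAt f (fderiv ℝ f x) (γ 0) := by rw [hγ0]; exact hf.hasFDerivAt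
    exact h1.comp_hasDerivAt 0 hγd
  have hdet : DifferentiableAt ℝ (fun y => (P y).det) x := by
    simp only [Matrix.det_fin_three]
    fun_prop
  have hsq : DifferentiableAt ℝ (fun y => Real.sqrt (P y).det) x := hdet.sqrt hd.ne'
  have h1 := key _ hsq
  have h2 := hasDerivAt_sdet (A := fun s => P (γ s)) (A' := fun a b => H31R.pd i (fun y => P y a b) x) (t := 0)
    (fun a b => key _ (h a b)) (by simpa only [hγ0] using hs) (by simpa only [hγ0] using hd)
  have h3 := h1.unique h2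
  simpa only [hγ0] using h3

end H17W
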