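import Pool.Agent.Lib.H17W.CB1
import Pool.Agent.Lib.H17W.CB2

set_option autoImplicit false

/-!
# H17W, chunk CB3 (S/M): the volume density and the inverse metric are parallel
-/

open MeasureTheory Filter Topology Set
open scoped ContDiff

namespace H17W

open Pool.Agent.Lib.PenroseSph (E3 S2 sm pd)

variable {P : E3 → Matrix (Fin 3) (Fin 3) ℝ} {x : E3}

theorem cb3_open : IsOpen {y : E3 | y ≠ 0} := isOpen_ne

/-- `H31R.N_chr_symm` on the open set `{x ≠ 0}`. -/
theorem Cyl.chr_symm (hP : Cyl P) (hx : x ≠ 0) (k i j : Fin 3) : H31R.chr P k i j x = H31R.chr P k j i x :=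
  H31R.N_chr_symm cb3_open hx (fun y hy => hP.symm y hy) k i j

/-- By `pd_sdet`; with `K = P⁻¹`, `Σ_k Γ^k_ik = ½ Σ_kl K_kl (∂_i P_kl + ∂_k P_il - ∂_l P_ik)` and the last two terms cancel (`K` symmetric). -/
theorem Cyl.sdet_chr (hP : Cyl P) (hx : x ≠ 0) (i : Fin 3) :
    H31R.pd i (fun y => Real.sqrt (P y).det) x = Real.sqrt (P x).det * ∑ k, H31R.chr P k i k x := by
  rw [pd_sdet (fun i j => (hP.smooth x hx i j).differentiableAt (by simp)) (hP.symm x hx) (hP.det_pos hx) i]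
  have h1 : ∑ k, H31R.chr P k i k x = (1 / 2) * ∑ a, ∑ b, (P x)⁻¹ a b * H31R.pd i (fun y => P y a b) x := by
    unfold H31R.chr
    rw [← Finset.mul_sum]
    congr 1
    have h2 : ∑ k, ∑ l, (P x)⁻¹ k l * (H31R.pd i (fun y => P y k l) x + H31R.pd k (fun y => P y i l) x -
        H31R.pd l (fun y => P y i k) x) =
        ∑ k, ∑ l, (P x)⁻¹ k l * H31R.pd i (fun y => P y k l) x +
        (∑ k, ∑ l, (P x)⁻¹ k l * H31R.pd k (fun y => P y i l) x -
        ∑ k, ∑ l, (P x)⁻¹ k l * H31R.pd l (fun y => P y i k) x) := by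
      simp only [← Finset.sum_sub_distrib, ← Finset.sum_add_distrib]
      exact Finset.sum_congr rfl fun k _ => Finset.sum_congr rfl fun l _ => by ring
    have h3 : ∑ k, ∑ l, (P x)⁻¹ k l * H31R.pd l (fun y => P y i k) x =
        ∑ k, ∑ l, (P x)⁻¹ k l * H31R.pd k (fun y => P y i l) x := by
      rw [Finset.sum_comm]
      exact Finset.sum_congr rfl fun k _ => Finset.sum_congr rfl fun l _ => by rw [hP.inv_symm hx l k]
    rw [h2, h3, sub_self, add_zero]
  rw [h1]; ring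

/-- `∂_m K = - K (∂_m P) K` (`H31R.N_pd_inv`) and `∂_m P_ab = Σ_l (Γ^l_ma P_lb + Γ^l_mb P_al)` (`H31R.N_chM_compat` on `{x ≠ 0}`, or
directly from `H31R.N_chr_lower`), `K P = 1`. -/
theorem Cyl.inv_chr (hP : Cyl P) (hx : x ≠ 0) (m i j : Fin 3) :
    H31R.pd m (fun y => (P y)⁻¹ i j) x =
      -∑ l, (H31R.chr P i m l x * (P x)⁻¹ l j + H31R.chr P j m l x * (P x)⁻¹ i l) := by
  have hd : (P x).det ≠ 0 := (hP.det_pos hx).ne'
  have hu : IsUnit (P x).det := isUnit_iff_ne_zero.2 hd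
  rw [H31R.N_pd_inv (fun i j => (hP.smooth x hx i j).of_le (by simp)) hd m i j]
  rw [H31R.N_chM_compat cb3_open hx (fun y hy => hP.symm y hy) (fun y hy => (hP.det_pos hy).ne') m]
  have h1 : (P x)⁻¹ * ((H31R.chM P m x).transpose * P x + P x * H31R.chM P m x) * (P x)⁻¹ =
      (P x)⁻¹ * (H31R.chM P m x).transpose + H31R.chM P m x * (P x)⁻¹ := by
    rw [Matrix.mul_add, Matrix.add_mul]
    congr 1
    · rw [← Matrix.mul_assoc, Matrix.mul_assoc _ (P x) (P x)⁻¹, Matrix.mul_nonsing_inv _ hu, Matrix.mul_one]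
    · rw [← Matrix.mul_assoc, Matrix.nonsing_inv_mul _ hu, Matrix.one_mul]
  rw [h1]
  simp only [Matrix.neg_apply, Matrix.add_apply, Matrix.mul_apply, Matrix.transpose_apply, H31R.chM]
  congr 1
  rw [← Finset.sum_add_distrib]
  exact Finset.sum_congr rfl fun l _ => by ring

end H17W
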