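import Pool.Agent.Lib.H17W.D1A
import Pool.Agent.Lib.H17W.B4C

set_option autoImplicit false

/-!
# H17W, chunk D1B (M): the data of the null hypersurface

Auxiliary names start with `d1b_`.
-/

open MeasureTheory Filter Topology Set
open scoped ContDiff

namespace H17W

open H17T (E4 pt pos)
open Pool.Agent.Lib.PenroseSph (E3 S2 sm)

variable {G : E4 → Matrix (Fin 4) (Fin 4) ℝ} {Ψ : ℝ × E3 → E4} {W : Set (ℝ × E3)} {ψ : ℝ × E3 → ℝ}

theorem d1b_deriv {F : ℝ × E3 → ℝ} {s : ℝ} {x : E3} (hF : DifferentiableAt ℝ F (s, x)) :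
    HasDerivAt (fun t => F (t, x)) (fderiv ℝ F (s, x) dS) s := by
  have h1 : HasDerivAt (fun t : ℝ => (t, x)) ((1 : ℝ), (0 : E3)) s :=
    (hasDerivAt_id s).prodMk (hasDerivAt_const s x)
  exact hF.hasFDerivAt.comp_hasDerivAt s h1

theorem d1b_ev (hc : Cut W ψ) {s : ℝ} (hs : 0 ≤ s) (n : S2) : ∀ᶠ t in 𝓝 s, ψ (t, (n : E3)) = 1 := by
  have h1 : Tendsto (fun t : ℝ => ((t, (n : E3)) : ℝ × E3)) (𝓝 s) (𝓝 (s, (n : E3))) :=
    (continuous_id.prodMk continuous_const).tendsto s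
  exact h1.eventually (hc.one s hs n)

theorem d1b_alg (a b c d e f x y z : ℝ) (h1 : a * x + b * y + c * z = 0)
    (h2 : b * x + d * y + e * z = 0) (h3 : c * x + e * y + f * z = 0)
    (hn : x ^ 2 + y ^ 2 + z ^ 2 = 1) :
    ((a + d + f) ^ 2 - (a ^ 2 + b ^ 2 + c ^ 2 + (b ^ 2 + d ^ 2 + e ^ 2) + (c ^ 2 + e ^ 2 + f ^ 2))) / 2 =
      (a + x * x) * (d + y * y) * (f + z * z) - (a + x * x) * (e + y * z) * (e + z * y) -
        (b + x * y) * (b + y * x) * (f + z * z) + (b + x * y) * (e + y * z) * (c + z * x) +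
        (c + x * z) * (b + y * x) * (e + z * y) - (c + x * z) * (d + y * y) * (c + z * x) := by
  linear_combination
    (-((d * f - e ^ 2) * x + (c * e - b * f) * y + (b * e - c * d) * z + (a * x + b * y + c * z) -
      (a + d + f) * x)) * h1 +
    (-((c * e - b * f) * x + (a * f - c ^ 2) * y + (b * c - a * e) * z + (b * x + d * y + e * z) -
      (a + d + f) * y)) * h2 +
    (-((b * e - c * d) * x + (b * c - a * e) * y + (a * d - b ^ 2) * z + (c * x + e * y + f * z) -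
      (a + d + f) * z)) * h3 -
    ((a * d + a * f + d * f - b ^ 2 - c ^ 2 - e ^ 2) -
      (a * d * f + 2 * b * c * e - a * e ^ 2 - d * c ^ 2 - f * b ^ 2)) * hn

/-- The null second fundamental form (`hh_ds`, `Cut.one`). -/
theorem data_chi (hR : Reg G Ψ W) (hc : Cut W ψ) {s : ℝ} (hs : 0 ≤ s) (n : S2) (i j : Fin 3) :
    (data G Ψ ψ).chi s n i j = chi G Ψ i j (s, (n : E3)) := by
  have hn : (n : E3) ≠ 0 := ne_zero_of_mem_unit_sphere n
  have h1 := d1b_deriv ((hh_smooth hR (hR.mem s hs n hn) i j).differentiableAt (by simp))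
  have h2 : (fun t => (data G Ψ ψ).g t n i j) =ᶠ[𝓝 s] fun t => hh G Ψ i j (t, (n : E3)) := by
    filter_upwards [d1b_ev hc hs n] with t ht
    change ψ (t, (n : E3)) * hh G Ψ i j (t, (n : E3)) = _
    rw [ht, one_mul]
  change deriv (fun t => (data G Ψ ψ).g t n i j) s / 2 = _
  rw [h2.deriv_eq, h1.deriv, hh_ds hR hs hn]
  ring

theorem data_exL (hR : Reg G Ψ W) (hc : Cut W ψ) {s : ℝ} (hs : 0 ≤ s) (n : S2) :
    (data G Ψ ψ).exL s n = exl G Ψ (s, (n : E3)) := by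
  change ∑ i, ∑ j, QQ G Ψ i j (s, (n : E3)) * (data G Ψ ψ).chi s n i j = _
  simp only [data_chi hR hc hs]
  rfl

/-- For `|x| = 1` and a symmetric `h` with `h x = 0` one has `det (h + x xᵀ) = ((tr h)² - tr h²) / 2`. -/
theorem data_dA (hR : Reg G Ψ W) (hc : Cut W ψ) {s : ℝ} (hs : 0 ≤ s) (n : S2) :
    (data G Ψ ψ).dA s n = dA G Ψ (s, (n : E3)) := by
  have hn : (n : E3) ≠ 0 := ne_zero_of_mem_unit_sphere n
  have hn1 : ‖(n : E3)‖ = 1 := mem_sphere_zero_iff_norm.1 n.2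
  have hW := hR.mem s hs n hn
  have hg : ∀ i j, (data G Ψ ψ).g s n i j = hh G Ψ i j (s, (n : E3)) := by
    intro i j
    change ψ (s, (n : E3)) * hh G Ψ i j (s, (n : E3)) = _
    rw [cut_eq hc hs, one_mul]
  change Real.sqrt (((∑ i, (data G Ψ ψ).g s n i i) ^ 2 - ∑ i, ∑ j, (data G Ψ ψ).g s n i j ^ 2) / 2) = _
  unfold dA
  congr 1
  simp only [hg]
  have hP : ∀ i j, PP G Ψ (s, (n : E3)) i j = hh G Ψ i j (s, (n : E3)) + (n : E3) i * (n : E3) j := by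
    intro i j
    change hh G Ψ i j (s, (n : E3)) + (n : E3) i * (n : E3) j / ‖(n : E3)‖ ^ 4 = _
    rw [hn1]
    norm_num
  have hsy := hh_symm hR hW
  have hr0 := hh_rad hR hW 0
  have hr1 := hh_rad hR hW 1
  have hr2 := hh_rad hR hW 2
  have hnn : (n : E3) 0 ^ 2 + (n : E3) 1 ^ 2 + (n : E3) 2 ^ 2 = 1 := by
    have h1 := EuclideanSpace.real_norm_sq_eq (n : E3)
    rw [hn1, Fin.sum_univ_three] at h1
    linarith
  rw [Matrix.det_fin_three]
  simp only [hP, Fin.sum_univ_three] at hr0 hr1 hr2 ⊢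
  rw [hsy 1 0, hsy 2 0, hsy 2 1]
  rw [hsy 1 0] at hr1
  rw [hsy 2 0, hsy 2 1] at hr2
  exact d1b_alg _ _ _ _ _ _ _ _ _ hr0 hr1 hr2 hnn

/-- Raychaudhuri's equation (`B4.ray`); `exL = exl` for `t ≥ 0`. -/
theorem data_ray (hR : Reg G Ψ W) (hc : Cut W ψ) {s : ℝ} (hs : 0 < s) (n : S2) :
    HasDerivAt (fun t => (data G Ψ ψ).exL t n) (-(data G Ψ ψ).chiSq s n - (data G Ψ ψ).e s n) s := by
  have hn : (n : E3) ≠ 0 := ne_zero_of_mem_unit_sphere n
  have h1 := d1b_deriv ((exl_smooth hR (hR.mem s hs.le n hn)).differentiableAt (by simp))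
  rw [ray hR hs.le hn] at h1
  have h2 : (fun t => (data G Ψ ψ).exL t n) =ᶠ[𝓝 s] fun t => exl G Ψ (t, (n : E3)) := by
    filter_upwards [lt_mem_nhds hs] with t ht
    exact data_exL hR hc ht.le n
  have h3 : (data G Ψ ψ).chiSq s n = ∑ i, ∑ j, ∑ a, ∑ b, QQ G Ψ i a (s, (n : E3)) *
      QQ G Ψ j b (s, (n : E3)) * chi G Ψ i j (s, (n : E3)) * chi G Ψ a b (s, (n : E3)) := by
    change ∑ i, ∑ j, ∑ k, ∑ l, QQ G Ψ i k (s, (n : E3)) * QQ G Ψ j l (s, (n : E3)) *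
      (data G Ψ ψ).chi s n i j * (data G Ψ ψ).chi s n k l = _
    simp only [data_chi hR hc hs.le]
  rw [h3]
  exact h1.congr_of_eventuallyEq h2

end H17W
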