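import Pool.Agent.Lib.H17W.D1A
import Pool.Agent.Lib.H17W.B3B

set_option autoImplicit false

/-!
# H17W, chunk D1C (M): the data of the null hypersurface

Auxiliary names start with `d1c_`.
-/

open MeasureTheory Filter Topology Set
open scoped ContDiff

namespace H17W

open H17T (E4 pt pos)
open Pool.Agent.Lib.PenroseSph (E3 S2 sm)

variable {G : E4 → Matrix (Fin 4) (Fin 4) ℝ} {Ψ : ℝ × E3 → E4} {W : Set (ℝ × E3)} {ψ : ℝ × E3 → ℝ}

theorem d1c_ne (n : S2) : (n : E3) ≠ 0 := by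
  have h : ‖(n : E3)‖ = 1 := mem_sphere_zero_iff_norm.1 n.2
  intro h0
  rw [h0, norm_zero] at h
  exact zero_ne_one h

theorem d1c_mem (hR : Reg G Ψ W) {s : ℝ} (hs : 0 ≤ s) (n : S2) : ((s, (n : E3)) : ℝ × E3) ∈ W :=
  hR.mem s hs n (d1c_ne n)

/-- The algebraic fields of `IsNull`. -/
theorem data_alg (hR : Reg G Ψ W) (hc : Cut W ψ) {s : ℝ} (hs : 0 ≤ s) (n : S2) :
    (∀ i j, (data G Ψ ψ).g s n i j = (data G Ψ ψ).g s n j i) ∧ (∀ i, ∑ j, (data G Ψ ψ).g s n i j * (n : E3) j = 0) ∧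
    (∀ v : Fin 3 → ℝ, v ≠ 0 → ∑ i, (n : E3) i * v i = 0 → 0 < ∑ i, ∑ j, (data G Ψ ψ).g s n i j * v i * v j) ∧
    (∀ i j, (data G Ψ ψ).gi s n i j = (data G Ψ ψ).gi s n j i) ∧ (∀ i, ∑ j, (data G Ψ ψ).gi s n i j * (n : E3) j = 0) ∧
    (∀ i j, ∑ k, (data G Ψ ψ).g s n i k * (data G Ψ ψ).gi s n k j = NullPen.proj n i j) ∧
    (∑ i, (n : E3) i * (data G Ψ ψ).ζ s n i = 0) ∧ (∑ i, (n : E3) i * (data G Ψ ψ).j s n i = 0) := by
  have hn : ‖(n : E3)‖ = 1 := mem_sphere_zero_iff_norm.1 n.2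
  have hn0 := d1c_ne n
  have hp := d1c_mem hR hs n
  have h1 := cut_eq hc hs n
  refine ⟨?_, ?_, ?_, ?_, ?_, ?_, ?_, ?_⟩
  · intro i j
    show ψ (s, (n : E3)) * hh G Ψ i j (s, (n : E3)) = ψ (s, (n : E3)) * hh G Ψ j i (s, (n : E3))
    rw [hh_symm hR hp i j]
  · intro i
    show ∑ j, ψ (s, (n : E3)) * hh G Ψ i j (s, (n : E3)) * (n : E3) j = 0
    rw [h1]
    simp only [one_mul]
    exact hh_rad hR hp i
  · intro v hv hnv
    show 0 < ∑ i, ∑ j, ψ (s, (n : E3)) * hh G Ψ i j (s, (n : E3)) * v i * v j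
    rw [h1]
    simp only [one_mul]
    have h2 := hR.pos (s, (n : E3)) hp v hv
    have h3 : ∑ i, ∑ j, PP G Ψ (s, (n : E3)) i j * v i * v j = ∑ i, ∑ j, hh G Ψ i j (s, (n : E3)) * v i * v j := by
      have h4 : ∑ i, ∑ j, PP G Ψ (s, (n : E3)) i j * v i * v j = ∑ i, ∑ j, hh G Ψ i j (s, (n : E3)) * v i * v j +
          (∑ i, (n : E3) i * v i) * (∑ j, (n : E3) j * v j) := by
        rw [Finset.sum_mul_sum, ← Finset.sum_add_distrib]
        refine Finset.sum_congr rfl fun i _ => ?_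
        rw [← Finset.sum_add_distrib]
        refine Finset.sum_congr rfl fun j _ => ?_
        show (hh G Ψ i j (s, (n : E3)) + (n : E3) i * (n : E3) j / ‖(n : E3)‖ ^ 4) * v i * v j = _
        rw [hn]
        ring
      rw [h4, hnv]
      ring
    rw [h3] at h2
    exact h2
  · intro i j
    exact QQ_symm hR hp i j
  · intro i
    exact QQ_rad hR hp i
  · intro i j
    show ∑ k, ψ (s, (n : E3)) * hh G Ψ i k (s, (n : E3)) * QQ G Ψ k j (s, (n : E3)) = _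
    rw [h1]
    simp only [one_mul]
    rw [hQ hR hp i j]
    show (if i = j then (1 : ℝ) else 0) - (n : E3) i * (n : E3) j / ‖(n : E3)‖ ^ 2 = (if i = j then 1 else 0) - (n : E3) i * (n : E3) j
    rw [hn]
    ring
  · show ∑ i, (n : E3) i * (ψ (s, (n : E3)) * zet G Ψ i (s, (n : E3))) = 0
    rw [h1]
    simp only [one_mul]
    have h2 := zet_rad hR hs hn0
    rw [← h2]
    exact Finset.sum_congr rfl fun i _ => mul_comm _ _
  · show ∑ i, (n : E3) i * (ψ (s, (n : E3)) * jj G Ψ i (s, (n : E3))) = 0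
    rw [h1]
    simp only [one_mul]
    have hd : DifferentiableAt ℝ (Ph Ψ) (s, (n : E3)) := (hR.smooth _ hp).differentiableAt (by simp)
    have h2 : ∀ a, ∑ i, (n : E3) i * XX Ψ i (s, (n : E3)) a = 0 := fun a => XX_rad (p := (s, (n : E3))) hn0 hd a
    unfold jj Ric
    have h3 : ∑ i, (n : E3) i * (∑ a, ∑ b, H31R.ric G a b (Ph Ψ (s, (n : E3))) * LL Ψ (s, (n : E3)) a * XX Ψ i (s, (n : E3)) b) =
        ∑ a, ∑ b, H31R.ric G a b (Ph Ψ (s, (n : E3))) * LL Ψ (s, (n : E3)) a * (∑ i, (n : E3) i * XX Ψ i (s, (n : E3)) b) := by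
      simp only [Finset.mul_sum]
      rw [Finset.sum_comm]
      refine Finset.sum_congr rfl fun a _ => ?_
      rw [Finset.sum_comm]
      refine Finset.sum_congr rfl fun b _ => Finset.sum_congr rfl fun i _ => ?_
      ring
    rw [h3]
    apply Finset.sum_eq_zero
    intro a _
    apply Finset.sum_eq_zero
    intro b _
    rw [h2, mul_zero]

/-- Smoothness. -/
theorem data_smooth (hR : Reg G Ψ W) (hc : Cut W ψ) :
    (∀ i j, ContDiff ℝ ∞ (fun p : ℝ × E3 => (data G Ψ ψ).g p.1 p.2 i j)) ∧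
    (∀ i, ContDiff ℝ ∞ (fun p : ℝ × E3 => (data G Ψ ψ).ζ p.1 p.2 i)) ∧
    (∀ i, ContDiff ℝ ∞ (fun p : ℝ × E3 => (data G Ψ ψ).j p.1 p.2 i)) ∧
    ContDiff ℝ ∞ (fun p : ℝ × E3 => (data G Ψ ψ).θ p.1 p.2) ∧ ContDiff ℝ ∞ (fun p : ℝ × E3 => (data G Ψ ψ).ρ p.1 p.2) := by
  refine ⟨?_, ?_, ?_, ?_, ?_⟩
  · intro i j
    exact hc.mul (hh G Ψ i j) fun p hp => hh_smooth hR hp i j
  · intro i
    exact hc.mul (zet G Ψ i) fun p hp => zet_smooth hR hp i
  · intro i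
    exact hc.mul (jj G Ψ i) fun p hp => Ric_smooth hR hp (fun a => LL_smooth hR hp a) (fun a => XX_smooth hR hp i a)
  · exact hc.mul (tht G Ψ) fun p hp => tht_smooth hR hp
  · refine hc.mul (rr G Ψ) fun p hp => ?_
    have h : ContDiffAt ℝ ∞ (fun q => ∑ i, ∑ j, QQ G Ψ i j q * Ric G (Ph Ψ q) (XX Ψ i q) (XX Ψ j q)) p :=
      ContDiffAt.sum fun i _ => ContDiffAt.sum fun j _ => (QQ_smooth hR hp i j).mul
        (Ric_smooth hR hp (fun a => XX_smooth hR hp i a) (fun a => XX_smooth hR hp j a))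
    exact h

end H17W
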