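import Pool.Agent.Lib.H17W.D1A
import Pool.Agent.Lib.H17W.D1B
import Pool.Agent.Lib.H17W.D1C

set_option autoImplicit false

/-!
# H17W: the data of the null hypersurface
-/
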