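import Pool.Agent.Lib.H17W.B0
import Pool.Agent.Lib.H74P.Stmt

set_option autoImplicit false

/-!
# H17W, chunk D1A (S/M): the data of the null hypersurface

Auxiliary names start with `d1a_`.
-/

open MeasureTheory Filter Topology Set
open scoped ContDiff

namespace H17W

open H17T (E4 pt pos)
open Pool.Agent.Lib.PenroseSph (E3 S2 sm)

/-- A smooth cutoff function: one near `[0, ∞) × S2`, zero outside a closed subset of `W`. -/
structure Cut (W : Set (ℝ × E3)) (ψ : ℝ × E3 → ℝ) : Prop where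
  one : ∀ s : ℝ, 0 ≤ s → ∀ n : S2, ∀ᶠ q in 𝓝 ((s, (n : E3)) : ℝ × E3), ψ q = 1
  mul : ∀ F : ℝ × E3 → ℝ, (∀ p ∈ W, ContDiffAt ℝ ∞ F p) → ContDiff ℝ ∞ fun p => ψ p * F p

/-- `[0, ∞) × S2` is closed; choose an open `V` which contains it with `closure V ⊆ W` (`normal_exists_closure_subset`), and
`exists_contMDiffMap_one_nhds_of_subset_interior` (`E = ℝ × E3`, `contMDiff_iff_contDiff`) with `t = closure V`. -/
theorem cut_exists {W : Set (ℝ × E3)} (hW : IsOpen W) (h : ∀ s : ℝ, 0 ≤ s → ∀ n : S2, (s, (n : E3)) ∈ W) :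
    ∃ ψ : ℝ × E3 → ℝ, Cut W ψ := by
  have hC : IsClosed {p : ℝ × E3 | 0 ≤ p.1 ∧ ‖p.2‖ = 1} :=
    (isClosed_le continuous_const continuous_fst).inter
      (isClosed_eq continuous_snd.norm continuous_const)
  have hCW : {p : ℝ × E3 | 0 ≤ p.1 ∧ ‖p.2‖ = 1} ⊆ W := by
    rintro ⟨s, x⟩ ⟨hs, hx⟩
    exact h s hs ⟨x, mem_sphere_zero_iff_norm.2 hx⟩
  obtain ⟨V, hVo, hCV, hVW⟩ := normal_exists_closure_subset hC hW hCW
  obtain ⟨f, h1, h0, _⟩ := exists_contMDiffMap_one_nhds_of_subset_interior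
    (modelWithCornersSelf ℝ (ℝ × E3)) (n := ⊤) hC
    (hCV.trans (interior_maximal subset_closure hVo))
  have hf : ContDiff ℝ ∞ (f : ℝ × E3 → ℝ) := contMDiff_iff_contDiff.1 f.contMDiff
  refine ⟨f, ?_, ?_⟩
  · intro s hs n
    have hmem : ((s, (n : E3)) : ℝ × E3) ∈ {p : ℝ × E3 | 0 ≤ p.1 ∧ ‖p.2‖ = 1} :=
      ⟨hs, mem_sphere_zero_iff_norm.1 n.2⟩
    exact h1.filter_mono (nhds_le_nhdsSet hmem)
  · intro F hF
    rw [contDiff_iff_contDiffAt]
    intro p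
    by_cases hp : p ∈ closure V
    · exact hf.contDiffAt.mul (hF p (hVW hp))
    · have hev : (fun p => f p * F p) =ᶠ[𝓝 p] fun _ => (0 : ℝ) := by
        filter_upwards [isClosed_closure.isOpen_compl.mem_nhds hp] with q hq
        rw [h0 q hq, zero_mul]
      exact contDiffAt_const.congr_of_eventuallyEq hev

/-- The data of the null hypersurface. -/
noncomputable def data (G : E4 → Matrix (Fin 4) (Fin 4) ℝ) (Ψ : ℝ × E3 → E4) (ψ : ℝ × E3 → ℝ) : NullPen.MatterData where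
  g s x i j := ψ (s, x) * hh G Ψ i j (s, x)
  gi s x i j := QQ G Ψ i j (s, x)
  ζ s x i := ψ (s, x) * zet G Ψ i (s, x)
  θ s x := ψ (s, x) * tht G Ψ (s, x)
  ρ s x := ψ (s, x) * rr G Ψ (s, x)
  e s x := ee G Ψ (s, x)
  j s x i := ψ (s, x) * jj G Ψ i (s, x)

variable {G : E4 → Matrix (Fin 4) (Fin 4) ℝ} {Ψ : ℝ × E3 → E4} {W : Set (ℝ × E3)} {ψ : ℝ × E3 → ℝ}

theorem cut_eq (hc : Cut W ψ) {s : ℝ} (hs : 0 ≤ s) (n : S2) : ψ (s, (n : E3)) = 1 := by
  exact (hc.one s hs n).self_of_nhds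

end H17W
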