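import Pool.Agent.Lib.H17W.B1D

set_option autoImplicit false

/-!
# H17W, chunk D2A (M): the dominant energy condition

Auxiliary names start with `d2a_`.
-/

open MeasureTheory Filter Topology Set
open scoped ContDiff

namespace H17W

open H17T (E4 pt pos DEC ein)
open Pool.Agent.Lib.PenroseSph (E3 S2 sm)

variable {U : Set E4} {G : E4 → Matrix (Fin 4) (Fin 4) ℝ} {Ψ : ℝ × E3 → E4} {W : Set (ℝ × E3)}

theorem d2a_eq (p : E4) (ξ : Fin 4 → ℝ) : (∑ a, ∑ b, G p a b * ξ a * ξ b) = ip G p ξ ξ := rfl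

theorem d2a_neg_left (p : E4) (a b : Fin 4 → ℝ) : ip G p (-a) b = -ip G p a b := by
  unfold ip
  rw [← Finset.sum_neg_distrib]
  refine Finset.sum_congr rfl fun i _ => ?_
  rw [← Finset.sum_neg_distrib]
  refine Finset.sum_congr rfl fun j _ => ?_
  rw [Pi.neg_apply]
  ring

theorem d2a_neg_right (p : E4) (a b : Fin 4 → ℝ) : ip G p a (-b) = -ip G p a b := by
  unfold ip
  rw [← Finset.sum_neg_distrib]
  refine Finset.sum_congr rfl fun i _ => ?_
  rw [← Finset.sum_neg_distrib]
  refine Finset.sum_congr rfl fun j _ => ?_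
  rw [Pi.neg_apply]
  ring

theorem d2a_Ric_neg_left (p : E4) (a b : Fin 4 → ℝ) : Ric G p (-a) b = -Ric G p a b := by
  unfold Ric
  rw [← Finset.sum_neg_distrib]
  refine Finset.sum_congr rfl fun i _ => ?_
  rw [← Finset.sum_neg_distrib]
  refine Finset.sum_congr rfl fun j _ => ?_
  rw [Pi.neg_apply]
  ring

theorem d2a_Ric_neg_right (p : E4) (a b : Fin 4 → ℝ) : Ric G p a (-b) = -Ric G p a b := by
  unfold Ric
  rw [← Finset.sum_neg_distrib]
  refine Finset.sum_congr rfl fun i _ => ?_
  rw [← Finset.sum_neg_distrib]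
  refine Finset.sum_congr rfl fun j _ => ?_
  rw [Pi.neg_apply]
  ring

theorem ein_ip (p : E4) (ξ η : Fin 4 → ℝ) :
    ∑ a, ∑ b, ein G a b p * ξ a * η b = Ric G p ξ η - 1 / 2 * scal G p * ip G p ξ η := by
  unfold ein Ric ip
  change ∑ a, ∑ b, (H31R.ric G a b p - 1 / 2 * scal G p * G p a b) * ξ a * η b = _
  rw [Finset.mul_sum, ← Finset.sum_sub_distrib]
  refine Finset.sum_congr rfl fun i _ => ?_
  rw [Finset.mul_sum, ← Finset.sum_sub_distrib]
  refine Finset.sum_congr rfl fun j _ => ?_
  ring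

/-- a vector with time component zero is spacelike or zero -/
theorem d2a_nonneg (hG : SpaceTime U G) {p : E4} (hp : p ∈ U) {v : Fin 4 → ℝ} (h0 : v 0 = 0) : 0 ≤ ip G p v v := by
  have key : ip G p v v = ∑ i : Fin 3, ∑ j : Fin 3, G p (Fin.succ i) (Fin.succ j) * v (Fin.succ i) * v (Fin.succ j) := by
    unfold ip
    rw [Fin.sum_univ_succ]
    have h1 : ∑ j, G p 0 j * v 0 * v j = 0 := by
      apply Finset.sum_eq_zero
      intro j _
      rw [h0]; ring
    rw [h1, zero_add]
    refine Finset.sum_congr rfl fun i _ => ?_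
    rw [Fin.sum_univ_succ, h0]
    ring
  rw [key]
  by_cases hξ : (fun i : Fin 3 => v (Fin.succ i)) = 0
  · have h2 : ∀ i : Fin 3, v (Fin.succ i) = 0 := fun i => congrFun hξ i
    apply le_of_eq
    symm
    apply Finset.sum_eq_zero
    intro i _
    apply Finset.sum_eq_zero
    intro j _
    rw [h2 i]; ring
  · exact (hG.spacelike p hp (fun i : Fin 3 => v (Fin.succ i)) hξ).le

/-- Two null vectors with positive scalar product have opposite time orientations: the time component of `b⁰ a - a⁰ b` is zero,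
so this vector is spacelike or zero, and its square is `- 2 a⁰ b⁰ <a, b>`; `a⁰ = 0` is impossible by `null_zero`. -/
theorem orient_null (hG : SpaceTime U G) {p : E4} (hp : p ∈ U) {a b : Fin 4 → ℝ} (ha : ip G p a a = 0) (hb : ip G p b b = 0)
    (hab : 0 < ip G p a b) : a 0 * b 0 < 0 := by
  have hsymm : ip G p b a = ip G p a b := by
    unfold ip
    rw [Finset.sum_comm]
    refine Finset.sum_congr rfl fun i _ => Finset.sum_congr rfl fun j _ => ?_
    rw [hG.symm p hp j i]
    ring
  have ha0 : a 0 ≠ 0 := by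
    intro h
    have h2 := null_zero hG hp h ha
    rw [h2] at hab
    have : ip G p 0 b = 0 := by
      unfold ip
      apply Finset.sum_eq_zero
      intro i _
      apply Finset.sum_eq_zero
      intro j _
      simp
    rw [this] at hab
    exact lt_irrefl _ hab
  have hb0 : b 0 ≠ 0 := by
    intro h
    have h2 := null_zero hG hp h hb
    rw [h2] at hab
    have : ip G p a 0 = 0 := by
      unfold ip
      apply Finset.sum_eq_zero
      intro i _
      apply Finset.sum_eq_zero
      intro j _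
      simp
    rw [this] at hab
    exact lt_irrefl _ hab
  have h0 : (fun i => b 0 * a i - a 0 * b i) 0 = 0 := by
    show b 0 * a 0 - a 0 * b 0 = 0
    ring
  have h1 := d2a_nonneg (v := fun i => b 0 * a i - a 0 * b i) hG hp h0
  have h2 : ip G p (fun i => b 0 * a i - a 0 * b i) (fun i => b 0 * a i - a 0 * b i) =
      b 0 ^ 2 * ip G p a a - a 0 * b 0 * ip G p a b - a 0 * b 0 * ip G p b a + a 0 ^ 2 * ip G p b b := by
    unfold ip
    rw [Finset.mul_sum, Finset.mul_sum, Finset.mul_sum, Finset.mul_sum, ← Finset.sum_sub_distrib,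
      ← Finset.sum_sub_distrib, ← Finset.sum_add_distrib]
    refine Finset.sum_congr rfl fun i _ => ?_
    rw [Finset.mul_sum, Finset.mul_sum, Finset.mul_sum, Finset.mul_sum, ← Finset.sum_sub_distrib,
      ← Finset.sum_sub_distrib, ← Finset.sum_add_distrib]
    refine Finset.sum_congr rfl fun j _ => ?_
    ring
  rw [h2, ha, hb, hsymm] at h1
  have h3 : a 0 * b 0 * ip G p a b ≤ 0 := by linarith
  have h4 : a 0 * b 0 ≤ 0 := by
    by_contra hcon
    have := mul_pos (not_le.mp hcon) hab
    linarith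
  exact lt_of_le_of_ne h4 (mul_ne_zero ha0 hb0)

theorem dec_null (hG : SpaceTime U G) {p : E4} (hp : p ∈ U) (hD : DEC G p) {a b : Fin 4 → ℝ} (ha : ip G p a a = 0) (hb : ip G p b b = 0)
    (hab : 0 < ip G p a b) : Ric G p a b - 1 / 2 * scal G p * ip G p a b ≤ 0 := by
  have hor := orient_null hG hp ha hb hab
  rcases lt_or_ge 0 (a 0) with h | h
  · have hb0 : b 0 < 0 := by
      by_contra hcon
      have := mul_nonneg h.le (not_lt.mp hcon)
      linarith
    have h1 : H17T.Causal G p a := ⟨h, by rw [d2a_eq, ha]⟩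
    have h2 : H17T.Causal G p (-b) := by
      refine ⟨by rw [Pi.neg_apply]; linarith, ?_⟩
      rw [d2a_eq, d2a_neg_left, d2a_neg_right, hb]
      simp
    have h3 := hD a (-b) h1 h2
    rw [ein_ip, d2a_Ric_neg_right, d2a_neg_right] at h3
    linarith
  · have ha0 : a 0 < 0 := by
      rcases h.lt_or_eq with h | h
      · exact h
      · rw [h] at hor; simp at hor
    have hb0 : 0 < b 0 := by
      by_contra hcon
      have := mul_nonneg_of_nonpos_of_nonpos ha0.le (not_lt.mp hcon)
      linarith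
    have h1 : H17T.Causal G p (-a) := by
      refine ⟨by rw [Pi.neg_apply]; linarith, ?_⟩
      rw [d2a_eq, d2a_neg_left, d2a_neg_right, ha]
      simp
    have h2 : H17T.Causal G p b := ⟨hb0, by rw [d2a_eq, hb]⟩
    have h3 := hD (-a) b h1 h2
    rw [ein_ip, d2a_Ric_neg_left, d2a_neg_left] at h3
    linarith

theorem dec_self {p : E4} (hD : DEC G p) {a : Fin 4 → ℝ} (h0 : a 0 ≠ 0) (ha : ip G p a a = 0) : 0 ≤ Ric G p a a := by
  rcases lt_or_gt_of_ne h0 with h | h
  · have h1 : H17T.Causal G p (-a) := by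
      refine ⟨by rw [Pi.neg_apply]; linarith, ?_⟩
      rw [d2a_eq, d2a_neg_left, d2a_neg_right, ha]
      simp
    have h3 := hD (-a) (-a) h1 h1
    rw [ein_ip, d2a_Ric_neg_left, d2a_neg_left, d2a_Ric_neg_right, d2a_neg_right, ha] at h3
    linarith
  · have h1 : H17T.Causal G p a := ⟨h, by rw [d2a_eq, ha]⟩
    have h3 := hD a a h1 h1
    rw [ein_ip, ha] at h3
    linarith

end H17W
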