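import Pool.Agent.Lib.H17W.D3A

set_option autoImplicit false

/-!
# H17W, chunk D3B (M): divergences

Auxiliary names start with `d3b_`.
-/

open MeasureTheory Filter Topology Set
open scoped ContDiff

namespace H17W

open H17T (E4 pt pos)
open Pool.Agent.Lib.PenroseSph (E3 S2 sm pd)

variable {G : E4 → Matrix (Fin 4) (Fin 4) ℝ} {Ψ : ℝ × E3 → E4} {W : Set (ℝ × E3)}

theorem d3b_alg {Q ch h : Fin 3 → Fin 3 → ℝ} {x V dE : Fin 3 → ℝ} {r e : ℝ} {c dch dh : Fin 3 → Fin 3 → Fin 3 → ℝ}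
    (dV : Fin 3 → Fin 3 → ℝ)
    (hQh : ∀ m l, ∑ j, h m j * Q j l = (if m = l then 1 else 0) - x m * x l / r)
    (hQs : ∀ i j, Q i j = Q j i) (hhs : ∀ i j, h i j = h j i) (hVx : ∑ i, x i * V i = 0)
    (hdh : ∀ i j k, dh i j k = ∑ m, (c m i j * h m k + c m i k * h m j)) :
    ∑ i, ∑ j, Q i j * ((∑ k, ((dch i j k - (dE i * h j k + e * dh i j k)) * V k + (ch j k - e * h j k) * dV i k)) -
        ∑ m, c m i j * ∑ k, (ch m k - e * h m k) * V k) =
      (∑ i, ∑ m, ((∑ l, Q i l * ch l m) - e * ((if i = m then 1 else 0) - x i * x m / r)) * (dV i m + ∑ k, c m i k * V k)) -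
        ∑ j, V j * (dE j - ∑ i, ∑ l, Q i l * (dch i l j - ∑ m, c m i l * ch m j - ∑ m, c m i j * ch l m)) := by
  have hQh' : ∀ i k, ∑ j, Q i j * h j k = (if i = k then 1 else 0) - x i * x k / r := by
    intro i k
    have h1 : ∑ j, Q i j * h j k = ∑ j, h k j * Q j i := by
      refine Finset.sum_congr rfl fun j _ => ?_
      rw [hQs i j, hhs j k, mul_comm]
    rw [h1, hQh, mul_comm (x k)]
    simp only [eq_comm]
  -- splitting of the terms
  have h0 : ∀ i j, ((∑ k, ((dch i j k - (dE i * h j k + e * dh i j k)) * V k + (ch j k - e * h j k) * dV i k)) -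
      ∑ m, c m i j * ∑ k, (ch m k - e * h m k) * V k) =
      (∑ k, (ch j k - e * h j k) * (dV i k + ∑ m, c k i m * V m)) +
      (∑ k, V k * (dch i j k - ∑ m, c m i j * ch m k - ∑ m, c m i k * ch j m)) - dE i * ∑ k, h j k * V k := by
    intro i j
    simp only [hdh, Fin.sum_univ_three]
    rw [hhs 0 j, hhs 1 j, hhs 2 j]
    ring
  have hA : ∑ i, ∑ j, Q i j * ∑ k, (ch j k - e * h j k) * (dV i k + ∑ m, c k i m * V m) =
      ∑ i, ∑ m, ((∑ l, Q i l * ch l m) - e * ((if i = m then 1 else 0) - x i * x m / r)) * (dV i m + ∑ k, c m i k * V k) := by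
    refine Finset.sum_congr rfl fun i _ => ?_
    have h1 : ∑ j, Q i j * ∑ k, (ch j k - e * h j k) * (dV i k + ∑ m, c k i m * V m) =
        ∑ k, ((∑ l, Q i l * ch l k) - e * ∑ j, Q i j * h j k) * (dV i k + ∑ m, c k i m * V m) := by
      simp only [Finset.mul_sum]
      rw [Finset.sum_comm]
      refine Finset.sum_congr rfl fun k _ => ?_
      rw [← Finset.sum_sub_distrib, Finset.sum_mul]
      refine Finset.sum_congr rfl fun j _ => ?_
      ring
    rw [h1]
    simp only [hQh']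
  have hB : ∑ i, ∑ j, Q i j * ∑ k, V k * (dch i j k - ∑ m, c m i j * ch m k - ∑ m, c m i k * ch j m) =
      ∑ j, V j * ∑ i, ∑ l, Q i l * (dch i l j - ∑ m, c m i l * ch m j - ∑ m, c m i j * ch l m) := by
    have h1 : ∀ i, ∑ j, Q i j * ∑ k, V k * (dch i j k - ∑ m, c m i j * ch m k - ∑ m, c m i k * ch j m) =
        ∑ k, V k * ∑ l, Q i l * (dch i l k - ∑ m, c m i l * ch m k - ∑ m, c m i k * ch l m) := by
      intro i
      have h2 : ∀ j, Q i j * ∑ k, V k * (dch i j k - ∑ m, c m i j * ch m k - ∑ m, c m i k * ch j m) =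
          ∑ k, V k * (Q i j * (dch i j k - ∑ m, c m i j * ch m k - ∑ m, c m i k * ch j m)) := by
        intro j
        rw [Finset.mul_sum]
        refine Finset.sum_congr rfl fun k _ => ?_
        ring
      simp only [h2]
      rw [Finset.sum_comm]
      refine Finset.sum_congr rfl fun k _ => ?_
      rw [Finset.mul_sum]
    simp only [h1]
    rw [Finset.sum_comm]
    refine Finset.sum_congr rfl fun k _ => ?_
    rw [Finset.mul_sum]
  have hC : ∑ i, ∑ j, Q i j * (dE i * ∑ k, h j k * V k) = ∑ j, V j * dE j := by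
    have h1 : ∀ i, ∑ j, Q i j * (dE i * ∑ k, h j k * V k) = dE i * V i := by
      intro i
      have h2 : ∑ j, Q i j * (dE i * ∑ k, h j k * V k) = dE i * ∑ k, (∑ j, Q i j * h j k) * V k := by
        simp only [Finset.mul_sum, Finset.sum_mul]
        rw [Finset.sum_comm]
        refine Finset.sum_congr rfl fun k _ => Finset.sum_congr rfl fun j _ => ?_
        ring
      rw [h2]
      have h3 : ∑ k, (∑ j, Q i j * h j k) * V k = V i := by
        have h4 : ∀ k, (∑ j, Q i j * h j k) * V k = (if i = k then V k else 0) - x i / r * (x k * V k) := by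
          intro k
          rw [hQh']
          split_ifs <;> ring
        simp only [h4]
        rw [Finset.sum_sub_distrib, Finset.sum_ite_eq, if_pos (Finset.mem_univ i), ← Finset.mul_sum, hVx]
        ring
      rw [h3]
    simp only [h1]
    refine Finset.sum_congr rfl fun i _ => ?_
    ring
  have hsplit : ∑ i, ∑ j, Q i j * ((∑ k, (ch j k - e * h j k) * (dV i k + ∑ m, c k i m * V m)) +
      (∑ k, V k * (dch i j k - ∑ m, c m i j * ch m k - ∑ m, c m i k * ch j m)) - dE i * ∑ k, h j k * V k) =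
      (∑ i, ∑ j, Q i j * ∑ k, (ch j k - e * h j k) * (dV i k + ∑ m, c k i m * V m)) +
      (∑ i, ∑ j, Q i j * ∑ k, V k * (dch i j k - ∑ m, c m i j * ch m k - ∑ m, c m i k * ch j m)) -
      ∑ i, ∑ j, Q i j * (dE i * ∑ k, h j k * V k) := by
    rw [← Finset.sum_add_distrib, ← Finset.sum_sub_distrib]
    refine Finset.sum_congr rfl fun i _ => ?_
    rw [← Finset.sum_add_distrib, ← Finset.sum_sub_distrib]
    refine Finset.sum_congr rfl fun j _ => ?_
    ring
  simp only [h0]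
  rw [hsplit, hA, hB, hC]
  have hD : ∑ j, V j * (dE j - ∑ i, ∑ l, Q i l * (dch i l j - ∑ m, c m i l * ch m j - ∑ m, c m i j * ch l m)) =
      (∑ j, V j * dE j) - ∑ j, V j * ∑ i, ∑ l, Q i l * (dch i l j - ∑ m, c m i l * ch m j - ∑ m, c m i j * ch l m) := by
    rw [← Finset.sum_sub_distrib]
    refine Finset.sum_congr rfl fun j _ => ?_
    ring
  rw [hD]
  ring

/-- `div (χ V - exL V) = momc V + (div χ)(V) - V(exL)`: with `t_jk = χ_jk - exL h_jk`,
`∑ Q^ij (∂_i t_jk - cc^m_ij t_mk - cc^m_ik t_jm) = dchi_k - ∑_i (δ_ik - x_i x_k/|x|²) ∂_i exL` (`hh_di`, `hQ`), `∑_j Q^ij t_jk = T^i_k`, `momc_eq`. -/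
theorem mom_div (hR : Reg G Ψ W) {s : ℝ} (hs : 0 ≤ s) {x : E3} (hx : x ≠ 0) {V : E3 → Fin 3 → ℝ}
    (hV : ∀ i, DifferentiableAt ℝ (fun y => V y i) x) (hVx : ∑ i, x i * V x i = 0) :
    divf G Ψ (alf G Ψ V s) s x = momc G Ψ V (s, x) - ∑ j, V x j * (fderiv ℝ (exl G Ψ) (s, x) (dX j) - dchi G Ψ j (s, x)) := by
  have hp : (s, x) ∈ W := hR.mem s hs x hx
  have hne : (∞ : WithTop ℕ∞) ≠ 0 := by simp
  have hchi := fun j k => (chi_smooth hR hp j k).differentiableAt hne
  have hexl := (exl_smooth hR hp).differentiableAt hne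
  have hhh := fun j k => (hh_smooth hR hp j k).differentiableAt hne
  have hsl : ∀ {F : ℝ × E3 → ℝ}, DifferentiableAt ℝ F (s, x) → DifferentiableAt ℝ (fun y => F (s, y)) x := by
    intro F hF
    exact DifferentiableAt.comp x (g := F) (f := fun y : E3 => ((s, y) : ℝ × E3)) hF
      ((differentiableAt_const s).prodMk differentiableAt_id)
  have hpd : ∀ i j, pd i (fun y => alf G Ψ V s y j) x =
      ∑ k, ((fderiv ℝ (chi G Ψ j k) (s, x) (dX i) - (fderiv ℝ (exl G Ψ) (s, x) (dX i) * hh G Ψ j k (s, x) +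
        exl G Ψ (s, x) * fderiv ℝ (hh G Ψ j k) (s, x) (dX i))) * V x k +
        (chi G Ψ j k (s, x) - exl G Ψ (s, x) * hh G Ψ j k (s, x)) * pd i (fun y => V y k) x) := by
    intro i j
    have h1 : HasFDerivAt (fun y => alf G Ψ V s y j) (∑ k, ((chi G Ψ j k (s, x) - exl G Ψ (s, x) * hh G Ψ j k (s, x)) •
        fderiv ℝ (fun y => V y k) x + V x k • (fderiv ℝ (fun y => chi G Ψ j k (s, y)) x -
        (exl G Ψ (s, x) • fderiv ℝ (fun y => hh G Ψ j k (s, y)) x +
          hh G Ψ j k (s, x) • fderiv ℝ (fun y => exl G Ψ (s, y)) x)))) x := by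
      unfold alf
      refine HasFDerivAt.fun_sum fun k _ => ?_
      exact ((hsl (hchi j k)).hasFDerivAt.sub ((hsl hexl).hasFDerivAt.mul (hsl (hhh j k)).hasFDerivAt)).mul
        (hV k).hasFDerivAt
    have h2 : pd i (fun y => alf G Ψ V s y j) x = (∑ k, ((chi G Ψ j k (s, x) - exl G Ψ (s, x) * hh G Ψ j k (s, x)) •
        fderiv ℝ (fun y => V y k) x + V x k • (fderiv ℝ (fun y => chi G Ψ j k (s, y)) x -
        (exl G Ψ (s, x) • fderiv ℝ (fun y => hh G Ψ j k (s, y)) x +
          hh G Ψ j k (s, x) • fderiv ℝ (fun y => exl G Ψ (s, y)) x))) : E3 →L[ℝ] ℝ) (EuclideanSpace.single i 1) := by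
      unfold Pool.Agent.Lib.PenroseSph.pd
      rw [h1.fderiv]
    rw [h2, _root_.sum_apply]
    refine Finset.sum_congr rfl fun k _ => ?_
    rw [← d3a_slice (hchi j k) i, ← d3a_slice hexl i, ← d3a_slice (hhh j k) i]
    simp only [_root_.add_apply, _root_.sub_apply, _root_.smul_apply, smul_eq_mul,
      Pool.Agent.Lib.PenroseSph.pd]
    ring
  rw [momc_eq hR hs hx V]
  unfold divf
  simp only [hpd]
  exact d3b_alg (Q := fun i j => QQ G Ψ i j (s, x)) (ch := fun i j => chi G Ψ i j (s, x))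
    (h := fun i j => hh G Ψ i j (s, x)) (x := fun i => x i) (r := ‖x‖ ^ 2) (e := exl G Ψ (s, x)) (V := fun k => V x k)
    (dE := fun i => fderiv ℝ (exl G Ψ) (s, x) (dX i)) (c := fun m i k => cc G Ψ m i k (s, x))
    (dch := fun i j k => fderiv ℝ (chi G Ψ j k) (s, x) (dX i)) (dh := fun i j k => fderiv ℝ (hh G Ψ j k) (s, x) (dX i))
    (fun i k => pd i (fun y => V y k) x) (fun m l => hQ hR hp m l) (fun i j => QQ_symm hR hp i j)
    (fun i j => hh_symm hR hp i j) hVx (fun i j k => hh_di hR hs hx i j k)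

end H17W
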