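import Pool.Agent.Lib.H17W.D3B
import Pool.Agent.Lib.H17W.D3C

set_option autoImplicit false

/-!
# H17W, chunk D3D (M): divergences

Auxiliary names start with `d3d_`.
-/

open MeasureTheory Filter Topology Set
open scoped ContDiff

namespace H17W

open H17T (E4 pt pos)
open Pool.Agent.Lib.PenroseSph (E3 S2 sm pd)

variable {G : E4 → Matrix (Fin 4) (Fin 4) ℝ} {Ψ : ℝ × E3 → E4} {W : Set (ℝ × E3)}

theorem d3d_ne (n : S2) : (n : E3) ≠ 0 := by
  intro h
  have h1 : ‖(n : E3)‖ = 1 := by simpa using n.2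
  rw [h, norm_zero] at h1
  exact one_ne_zero h1.symm

/-- A function which is continuous away from the origin is integrable on the sphere. -/
theorem d3d_int {F : E3 → ℝ} (hF : ∀ x : E3, x ≠ 0 → ContinuousAt F x) :
    Integrable (fun n : S2 => F n) sm := by
  have hc : Continuous (fun n : S2 => F n) :=
    continuous_iff_continuousAt.2 fun n =>
      ContinuousAt.comp (f := fun n : S2 => (n : E3)) (hF n (d3d_ne n)) continuous_subtype_val.continuousAt
  exact hc.integrable_of_hasCompactSupport (HasCompactSupport.of_compactSpace _)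

theorem d3d_pair {s : ℝ} {x : E3} : ContinuousAt (fun y : E3 => ((s, y) : ℝ × E3)) x :=
  (continuous_const.prodMk continuous_id).continuousAt

theorem d3d_c0 {F : ℝ × E3 → ℝ} {s : ℝ} {x : E3} (hF : ContDiffAt ℝ ∞ F (s, x)) :
    ContinuousAt (fun y : E3 => F (s, y)) x :=
  ContinuousAt.comp (f := fun y : E3 => ((s, y) : ℝ × E3)) hF.continuousAt d3d_pair

theorem d3d_c1 {F : ℝ × E3 → ℝ} {s : ℝ} {x : E3} (hF : ContDiffAt ℝ ∞ F (s, x)) (v : ℝ × E3) :
    ContinuousAt (fun y : E3 => fderiv ℝ F (s, y) v) x := by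
  have h1 : ContDiffAt ℝ 0 (fderiv ℝ F) (s, x) := hF.fderiv_right (by simp)
  exact (ContinuousAt.comp (f := fun y : E3 => ((s, y) : ℝ × E3)) h1.continuousAt d3d_pair).clm_apply
    continuousAt_const

theorem d3d_slice {F : ℝ × E3 → ℝ} {s : ℝ} {x : E3} (hF : ContDiffAt ℝ ∞ F (s, x)) :
    ContDiffAt ℝ ∞ (fun y : E3 => F (s, y)) x :=
  ContDiffAt.comp x (f := fun y : E3 => ((s, y) : ℝ × E3)) hF (contDiffAt_const.prodMk contDiffAt_id)

theorem d3d_pd {F : ℝ × E3 → ℝ} {s : ℝ} {x : E3} (hF : ContDiffAt ℝ ∞ F (s, x)) (i : Fin 3) :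
    pd i (fun y => F (s, y)) x = fderiv ℝ F (s, x) (dX i) := by
  have h1 : HasFDerivAt (fun y : E3 => ((s, y) : ℝ × E3)) (ContinuousLinearMap.inr ℝ ℝ E3) x :=
    hasFDerivAt_prodMk_right s x
  have h0 : HasFDerivAt F (fderiv ℝ F (s, x)) (s, x) := (hF.differentiableAt (by simp)).hasFDerivAt
  have h2 : HasFDerivAt (fun y : E3 => F (s, y)) ((fderiv ℝ F (s, x)).comp (ContinuousLinearMap.inr ℝ ℝ E3)) x :=
    HasFDerivAt.comp x h0 h1
  unfold pd
  rw [h2.fderiv]
  simp [dX]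

theorem d3d_cc (hR : Reg G Ψ W) {s : ℝ} (hs : 0 ≤ s) (k i j : Fin 3) {x : E3} (hx : x ≠ 0) :
    ContinuousAt (fun y : E3 => cc G Ψ k i j (s, y)) x := by
  have h1 := (chr_smooth (cyl_metAt (PP_cyl hR hs) hx) k i j).self_of_nhds
  exact h1.continuousAt

theorem d3d_dzet (hR : Reg G Ψ W) {s : ℝ} (hs : 0 ≤ s) {x : E3} (hx : x ≠ 0) :
    ContinuousAt (fun y : E3 => dzet G Ψ (s, y)) x := by
  have hm := hR.mem s hs x hx
  unfold dzet
  refine tendsto_finset_sum _ fun i _ => tendsto_finset_sum _ fun j _ => ?_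
  refine ContinuousAt.mul (d3d_c0 (QQ_smooth hR hm i j)) ?_
  refine ContinuousAt.sub (d3d_c1 (zet_smooth hR hm j) _) ?_
  exact tendsto_finset_sum _ fun m _ => ContinuousAt.mul (d3d_cc hR hs m i j hx) (d3d_c0 (zet_smooth hR hm m))

theorem d3d_dchi (hR : Reg G Ψ W) {s : ℝ} (hs : 0 ≤ s) (j : Fin 3) {x : E3} (hx : x ≠ 0) :
    ContinuousAt (fun y : E3 => dchi G Ψ j (s, y)) x := by
  have hm := hR.mem s hs x hx
  unfold dchi
  refine tendsto_finset_sum _ fun i _ => tendsto_finset_sum _ fun l _ => ?_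
  refine ContinuousAt.mul (d3d_c0 (QQ_smooth hR hm i l)) ?_
  refine ContinuousAt.sub (ContinuousAt.sub (d3d_c1 (chi_smooth hR hm l j) _) ?_) ?_
  · exact tendsto_finset_sum _ fun m _ => ContinuousAt.mul (d3d_cc hR hs m i l hx) (d3d_c0 (chi_smooth hR hm m j))
  · exact tendsto_finset_sum _ fun m _ => ContinuousAt.mul (d3d_cc hR hs m i j hx) (d3d_c0 (chi_smooth hR hm l m))

/-- Integrability of the first integrand of `int_mom`. -/
theorem d3d_intA (hR : Reg G Ψ W) {s : ℝ} (hs : 0 ≤ s) {V : E3 → Fin 3 → ℝ}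
    (hV : ∀ x : E3, x ≠ 0 → ∀ i, ContDiffAt ℝ ∞ (fun y => V y i) x) :
    Integrable (fun n : S2 => (∑ j, V n j * (fderiv ℝ (exl G Ψ) (s, (n : E3)) (dX j) - dchi G Ψ j (s, (n : E3)))) *
      dA G Ψ (s, (n : E3))) sm := by
  refine d3d_int (F := fun x : E3 => (∑ j, V x j * (fderiv ℝ (exl G Ψ) (s, x) (dX j) - dchi G Ψ j (s, x))) *
      dA G Ψ (s, x)) fun x hx => ?_
  have hm := hR.mem s hs x hx
  refine ContinuousAt.mul (tendsto_finset_sum _ fun j _ => ?_) (d3d_c0 (dA_smooth hR hm))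
  exact ContinuousAt.mul (hV x hx j).continuousAt
    (ContinuousAt.sub (d3d_c1 (exl_smooth hR hm) _) (d3d_dchi hR hs j hx))

theorem d3d_pdc {f : E3 → ℝ} {x : E3} (hf : ContDiffAt ℝ ∞ f x) (k : Fin 3) : ContinuousAt (pd k f) x := by
  have h1 : ContDiffAt ℝ 0 (fderiv ℝ f) x := hf.fderiv_right (by simp)
  exact h1.continuousAt.clm_apply continuousAt_const

/-- Integrability of the second integrand of `int_mom`. -/
theorem d3d_intB (hR : Reg G Ψ W) {s : ℝ} (hs : 0 ≤ s) {V : E3 → Fin 3 → ℝ}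
    (hV : ∀ x : E3, x ≠ 0 → ∀ i, ContDiffAt ℝ ∞ (fun y => V y i) x) :
    Integrable (fun n : S2 => momc G Ψ V (s, (n : E3)) * dA G Ψ (s, (n : E3))) sm := by
  refine d3d_int (F := fun x : E3 => momc G Ψ V (s, x) * dA G Ψ (s, x)) fun x hx => ?_
  have hm := hR.mem s hs x hx
  refine ContinuousAt.mul ?_ (d3d_c0 (dA_smooth hR hm))
  unfold momc
  refine ContinuousAt.div_const ?_ 2
  refine tendsto_finset_sum _ fun i _ => tendsto_finset_sum _ fun j _ => ?_
  refine ContinuousAt.mul (ContinuousAt.sub ?_ ?_) ?_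
  · refine tendsto_finset_sum _ fun k _ => tendsto_finset_sum _ fun l _ => ?_
    exact ContinuousAt.mul (ContinuousAt.mul (d3d_c0 (QQ_smooth hR hm i k)) (d3d_c0 (QQ_smooth hR hm j l)))
      (d3d_c0 (chi_smooth hR hm k l))
  · exact ContinuousAt.mul (d3d_c0 (exl_smooth hR hm)) (d3d_c0 (QQ_smooth hR hm i j))
  · refine tendsto_finset_sum _ fun k _ => ContinuousAt.add (ContinuousAt.add ?_ ?_) ?_
    · exact ContinuousAt.mul (hV x hx k).continuousAt (d3d_c1 (hh_smooth hR hm i j) _)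
    · exact ContinuousAt.mul (d3d_c0 (hh_smooth hR hm k j)) (d3d_pdc (hV x hx k) i)
    · exact ContinuousAt.mul (d3d_c0 (hh_smooth hR hm i k)) (d3d_pdc (hV x hx k) j)

theorem d3d_hh_hom (s : ℝ) (x : E3) {c : ℝ} (hc : 0 < c) (i j : Fin 3) :
    hh G Ψ i j (s, c • x) = hh G Ψ i j (s, x) / c ^ 2 := by
  unfold hh ipp
  rw [Ph_hom s x hc, XX_hom s x hc i, XX_hom s x hc j]
  unfold ip
  rw [Finset.sum_div]
  refine Finset.sum_congr rfl fun a _ => ?_
  rw [Finset.sum_div]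
  refine Finset.sum_congr rfl fun b _ => ?_
  simp only [Pi.smul_apply, smul_eq_mul]
  field_simp

/-- `div_zero` for `ζ` (`zet_hom`, `zet_rad`, `zet_smooth`). -/
theorem int_dzet (hR : Reg G Ψ W) {s : ℝ} (hs : 0 ≤ s) : ∫ n : S2, dzet G Ψ (s, (n : E3)) * dA G Ψ (s, (n : E3)) ∂sm = 0 := by
  rw [← div_zero hR hs (al := fun x j => zet G Ψ j (s, x))
    (fun x hx i => d3d_slice (zet_smooth hR (hR.mem s hs x hx) i))
    (fun x hx c hc i => zet_hom hR hs hx hc i) (fun x hx => zet_rad hR hs hx)]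
  refine integral_congr_ae (Eventually.of_forall fun n => ?_)
  have hm := hR.mem s hs n (d3d_ne n)
  simp only [dzet, divf]
  congr 1
  refine Finset.sum_congr rfl fun i _ => Finset.sum_congr rfl fun j _ => ?_
  rw [d3d_pd (zet_smooth hR hm j) i]

/-- `div_zero` for `alf V s` and `mom_div`. The integrands are continuous on the sphere. -/
theorem int_mom (hR : Reg G Ψ W) {s : ℝ} (hs : 0 ≤ s) {V : E3 → Fin 3 → ℝ}
    (hV : ∀ x : E3, x ≠ 0 → ∀ i, ContDiffAt ℝ ∞ (fun y => V y i) x)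
    (hom : ∀ x : E3, x ≠ 0 → ∀ c : ℝ, 0 < c → ∀ i, V (c • x) i = c * V x i)
    (rad : ∀ x : E3, x ≠ 0 → ∑ i, x i * V x i = 0) :
    ∫ n : S2, (∑ j, V n j * (fderiv ℝ (exl G Ψ) (s, (n : E3)) (dX j) - dchi G Ψ j (s, (n : E3)))) * dA G Ψ (s, (n : E3)) ∂sm =
      ∫ n : S2, momc G Ψ V (s, (n : E3)) * dA G Ψ (s, (n : E3)) ∂sm := by
  have h0 := div_zero hR hs (al := alf G Ψ V s)
    (fun x hx j => by
      have hm := hR.mem s hs x hx
      unfold alf
      refine ContDiffAt.sum fun k _ => ?_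
      exact ((d3d_slice (chi_smooth hR hm j k)).sub
        ((d3d_slice (exl_smooth hR hm)).mul (d3d_slice (hh_smooth hR hm j k)))).mul (hV x hx k))
    (fun x hx c hc j => by
      unfold alf
      rw [Finset.sum_div]
      refine Finset.sum_congr rfl fun k _ => ?_
      rw [chi_hom hR hs hx hc, exl_hom hR hs hx hc, d3d_hh_hom s x hc, hom x hx c hc]
      field_simp)
    (fun x hx => by
      have hm := hR.mem s hs x hx
      unfold alf
      simp only [Finset.sum_mul]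
      rw [Finset.sum_comm]
      refine Finset.sum_eq_zero fun k _ => ?_
      have e1 : ∑ j, chi G Ψ j k (s, x) * x j = 0 := by
        rw [← chi_rad hR hs hx k]
        exact Finset.sum_congr rfl fun j _ => by rw [chi_symm hR hs hx j k]
      have e2 : ∑ j, hh G Ψ j k (s, x) * x j = 0 := by
        rw [← hh_rad hR hm k]
        exact Finset.sum_congr rfl fun j _ => by rw [hh_symm hR hm j k]
      have e3 : ∑ j, (chi G Ψ j k (s, x) - exl G Ψ (s, x) * hh G Ψ j k (s, x)) * V x k * x j =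
          (∑ j, chi G Ψ j k (s, x) * x j) * V x k -
            exl G Ψ (s, x) * (∑ j, hh G Ψ j k (s, x) * x j) * V x k := by
        simp only [Finset.sum_mul, Finset.mul_sum, ← Finset.sum_sub_distrib]
        exact Finset.sum_congr rfl fun j _ => by ring
      rw [e3, e1, e2]
      ring)
  have h1 : ∀ n : S2, divf G Ψ (alf G Ψ V s) s n * dA G Ψ (s, (n : E3)) =
      momc G Ψ V (s, (n : E3)) * dA G Ψ (s, (n : E3)) -
        (∑ j, V n j * (fderiv ℝ (exl G Ψ) (s, (n : E3)) (dX j) - dchi G Ψ j (s, (n : E3)))) * dA G Ψ (s, (n : E3)) := by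
    intro n
    rw [mom_div hR hs (d3d_ne n) (fun i => (hV n (d3d_ne n) i).differentiableAt (by simp)) (rad n (d3d_ne n))]
    ring
  rw [integral_congr_ae (Eventually.of_forall h1), integral_sub (d3d_intB hR hs hV) (d3d_intA hR hs hV)] at h0
  linarith

/-- The Gauss-Bonnet theorem for the surfaces. -/
theorem int_scal (hR : Reg G Ψ W) {s : ℝ} (hs : 0 ≤ s) :
    ∫ n : S2, scal (fun y => PP G Ψ (s, y)) (n : E3) * dA G Ψ (s, (n : E3)) ∂sm = 8 * Real.pi :=
  gauss_bonnet (PP_cyl hR hs)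

end H17W
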