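import Pool.Agent.Lib.H17W.B4A

set_option autoImplicit false

/-!
# H17W, chunk D3A (M): divergences

Auxiliary names start with `d3a_`.
-/

open MeasureTheory Filter Topology Set
open scoped ContDiff

namespace H17W

open H17T (E4 pt pos)
open Pool.Agent.Lib.PenroseSph (E3 S2 sm pd)

variable (G : E4 → Matrix (Fin 4) (Fin 4) ℝ) (Ψ : ℝ × E3 → E4)

/-- Half of the scalar product of `χ - exL h` with the Lie derivative of the metric. -/
noncomputable def momc (V : E3 → Fin 3 → ℝ) (p : ℝ × E3) : ℝ :=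
  (∑ i, ∑ j, ((∑ k, ∑ l, QQ G Ψ i k p * QQ G Ψ j l p * chi G Ψ k l p) - exl G Ψ p * QQ G Ψ i j p) *
    ∑ k, (V p.2 k * fderiv ℝ (hh G Ψ i j) p (dX k) + hh G Ψ k j p * pd i (fun y => V y k) p.2 +
      hh G Ψ i k p * pd j (fun y => V y k) p.2)) / 2

/-- The one-form `χ(V, ·) - exL h(V, ·)`. -/
noncomputable def alf (V : E3 → Fin 3 → ℝ) (s : ℝ) (x : E3) (j : Fin 3) : ℝ :=
  ∑ k, (chi G Ψ j k (s, x) - exl G Ψ (s, x) * hh G Ψ j k (s, x)) * V x k

/-- The divergence of a one-form on the surface. -/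
noncomputable def divf (al : E3 → Fin 3 → ℝ) (s : ℝ) (x : E3) : ℝ :=
  ∑ i, ∑ j, QQ G Ψ i j (s, x) * (pd i (fun y => al y j) x - ∑ k, cc G Ψ k i j (s, x) * al x k)

variable {G : E4 → Matrix (Fin 4) (Fin 4) ℝ} {Ψ : ℝ × E3 → E4} {W : Set (ℝ × E3)}

/-- Derivatives in the slice `s = const`. -/
theorem d3a_slice {F : ℝ × E3 → ℝ} {s : ℝ} {x : E3} (hF : DifferentiableAt ℝ F (s, x)) (i : Fin 3) :
    pd i (fun y => F (s, y)) x = fderiv ℝ F (s, x) (dX i) := by
  have h1 : HasFDerivAt (fun y : E3 => ((s, y) : ℝ × E3)) ((0 : E3 →L[ℝ] ℝ).prod (ContinuousLinearMap.id ℝ E3)) x :=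
    (hasFDerivAt_const s x).prodMk (hasFDerivAt_id x)
  have h2 : HasFDerivAt (fun y => F (s, y))
      ((fderiv ℝ F (s, x)).comp ((0 : E3 →L[ℝ] ℝ).prod (ContinuousLinearMap.id ℝ E3))) x :=
    HasFDerivAt.comp x (g := F) (f := fun y : E3 => ((s, y) : ℝ × E3)) hF.hasFDerivAt h1
  unfold Pool.Agent.Lib.PenroseSph.pd
  rw [h2.fderiv]
  rfl

theorem d3a_low {Q ch h : Fin 3 → Fin 3 → ℝ} {x : Fin 3 → ℝ} {r e : ℝ}
    (hQh : ∀ m l, ∑ j, h m j * Q j l = (if m = l then 1 else 0) - x m * x l / r)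
    (hQs : ∀ i j, Q i j = Q j i) (hhs : ∀ i j, h i j = h j i) (hch : ∀ k, ∑ l, ch k l * x l = 0) (i m : Fin 3) :
    ∑ j, ((∑ k, ∑ l, Q i k * Q j l * ch k l) - e * Q i j) * h j m =
      (∑ l, Q i l * ch l m) - e * ((if i = m then 1 else 0) - x i * x m / r) := by
  have h1 : ∑ j, ((∑ k, ∑ l, Q i k * Q j l * ch k l) - e * Q i j) * h j m =
      (∑ k, ∑ l, Q i k * ch k l * (∑ j, h m j * Q j l)) - e * ∑ j, h m j * Q j i := by
    simp only [Fin.sum_univ_three, hhs _ m, hQs i]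
    ring
  have h2 : ∑ k, ∑ l, Q i k * ch k l * ((if m = l then 1 else 0) - x m * x l / r) =
      (∑ k, Q i k * ch k m) - ∑ k, Q i k * (x m / r) * ∑ l, ch k l * x l := by
    rw [← Finset.sum_sub_distrib]
    refine Finset.sum_congr rfl fun k _ => ?_
    have h3 : ∀ l, Q i k * ch k l * ((if m = l then (1 : ℝ) else 0) - x m * x l / r) =
        (if m = l then Q i k * ch k l else 0) - Q i k * (x m / r) * (ch k l * x l) := by
      intro l
      split_ifs <;> ring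
    simp only [h3]
    rw [Finset.sum_sub_distrib, Finset.sum_ite_eq, if_pos (Finset.mem_univ m), Finset.mul_sum]
  have h4 : ((if m = i then (1 : ℝ) else 0) - x m * x i / r) = ((if i = m then 1 else 0) - x i * x m / r) := by
    rw [mul_comm (x m)]
    simp only [eq_comm]
  rw [h1]
  simp only [hQh]
  rw [h2, h4]
  simp only [hch, mul_zero, Finset.sum_const_zero, sub_zero]

theorem d3a_alg {T h : Fin 3 → Fin 3 → ℝ} (hT : ∀ i j, T i j = T j i) (hhs : ∀ i j, h i j = h j i)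
    (V : Fin 3 → ℝ) (dV : Fin 3 → Fin 3 → ℝ) {c dh : Fin 3 → Fin 3 → Fin 3 → ℝ}
    (hdh : ∀ i j k, dh i j k = ∑ m, (c m k i * h m j + c m k j * h m i)) (hc : ∀ m i k, c m i k = c m k i) :
    (∑ i, ∑ j, T i j * ∑ k, (V k * dh i j k + h k j * dV i k + h i k * dV j k)) / 2 =
      ∑ i, ∑ m, (∑ j, T i j * h j m) * (dV i m + ∑ k, c m i k * V k) := by
  have h1 : ∑ i, ∑ j, T i j * ∑ k, (V k * dh i j k + h k j * dV i k + h i k * dV j k) =
      (∑ i, ∑ j, T i j * ∑ k, (V k * (∑ m, c m k i * h m j) + h k j * dV i k)) +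
      ∑ i, ∑ j, T i j * ∑ k, (V k * (∑ m, c m k j * h m i) + h i k * dV j k) := by
    rw [← Finset.sum_add_distrib]
    refine Finset.sum_congr rfl fun i _ => ?_
    rw [← Finset.sum_add_distrib]
    refine Finset.sum_congr rfl fun j _ => ?_
    rw [← mul_add, ← Finset.sum_add_distrib]
    congr 1
    refine Finset.sum_congr rfl fun k _ => ?_
    rw [hdh, Finset.sum_add_distrib]
    ring
  have h2 : ∑ i, ∑ j, T i j * ∑ k, (V k * (∑ m, c m k j * h m i) + h i k * dV j k) =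
      ∑ i, ∑ j, T i j * ∑ k, (V k * (∑ m, c m k i * h m j) + h k j * dV i k) := by
    rw [Finset.sum_comm]
    refine Finset.sum_congr rfl fun i _ => Finset.sum_congr rfl fun j _ => ?_
    rw [hT j i]
    congr 1
    refine Finset.sum_congr rfl fun k _ => ?_
    rw [hhs j k]
  have h3 : ∑ i, ∑ j, T i j * ∑ k, (V k * (∑ m, c m k i * h m j) + h k j * dV i k) =
      ∑ i, ∑ m, (∑ j, T i j * h j m) * (dV i m + ∑ k, c m i k * V k) := by
    refine Finset.sum_congr rfl fun i _ => ?_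
    simp only [hc _ i, Fin.sum_univ_three, hhs 1 0, hhs 2 0, hhs 2 1]
    ring
  rw [h1, h2, h3]
  ring

/-- With `T^ij = χ^ij - exL Q^ij` (symmetric), `T^i_m = ∑_j T^ij h_jm = ∑_l Q^il χ_lm - exL (δ_im - x_i x_m / |x|²)` (`hQ`) and `hh_di`
(`h` is parallel): `momc = ∑ T^i_m (∂_i V_m + ∑_k cc^m_ik V_k)`. -/
theorem momc_eq (hR : Reg G Ψ W) {s : ℝ} (hs : 0 ≤ s) {x : E3} (hx : x ≠ 0) (V : E3 → Fin 3 → ℝ) :
    momc G Ψ V (s, x) = ∑ i, ∑ m, ((∑ l, QQ G Ψ i l (s, x) * chi G Ψ l m (s, x)) -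
      exl G Ψ (s, x) * ((if i = m then 1 else 0) - x i * x m / ‖x‖ ^ 2)) *
        (pd i (fun y => V y m) x + ∑ k, cc G Ψ m i k (s, x) * V x k) := by
  have hp : (s, x) ∈ W := hR.mem s hs x hx
  have hQs := fun i j => QQ_symm hR hp i j
  have hhs := fun i j => hh_symm hR hp i j
  have hlow := d3a_low (Q := fun i j => QQ G Ψ i j (s, x)) (ch := fun i j => chi G Ψ i j (s, x))
    (h := fun i j => hh G Ψ i j (s, x)) (x := fun i => x i) (r := ‖x‖ ^ 2) (e := exl G Ψ (s, x))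
    (fun m l => hQ hR hp m l) hQs hhs (fun k => chi_rad hR hs hx k)
  have halg := d3a_alg (T := fun i j => (∑ k, ∑ l, QQ G Ψ i k (s, x) * QQ G Ψ j l (s, x) * chi G Ψ k l (s, x)) -
      exl G Ψ (s, x) * QQ G Ψ i j (s, x)) (h := fun i j => hh G Ψ i j (s, x)) (fun i j => by
        rw [hQs i j, Finset.sum_comm]
        congr 1
        refine Finset.sum_congr rfl fun k _ => Finset.sum_congr rfl fun l _ => ?_
        rw [chi_symm hR hs hx]
        ring) hhs (fun k => V x k) (fun i k => pd i (fun y => V y k) x)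
    (c := fun m i k => cc G Ψ m i k (s, x)) (dh := fun i j k => fderiv ℝ (hh G Ψ i j) (s, x) (dX k))
    (fun i j k => hh_di hR hs hx k i j) (fun m i k => cc_symm hR hs hx m i k)
  unfold momc
  refine halg.trans ?_
  simp only [hlow]

end H17W
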