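import Pool.Agent.Lib.H17W.D1B
import Pool.Agent.Lib.H17W.D3A

set_option autoImplicit false

/-!
# H17W, chunk D4B (M): the constraint equations of the data

Auxiliary names start with `d4b_`.
-/

open MeasureTheory Filter Topology Set
open scoped ContDiff

namespace H17W

open H17T (E4 pt pos)
open Pool.Agent.Lib.PenroseSph (E3 S2 sm pd)

variable {U : Set E4} {G : E4 → Matrix (Fin 4) (Fin 4) ℝ} {Ψ : ℝ × E3 → E4} {W : Set (ℝ × E3)} {ψ : ℝ × E3 → ℝ}

/-- The extension of a vector field on the sphere which is homogeneous of degree one. -/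
noncomputable def ext (V : E3 → Fin 3 → ℝ) : E3 → Fin 3 → ℝ := fun x i => ‖x‖ * V (‖x‖⁻¹ • x) i

theorem d4b_ne (n : S2) : (n : E3) ≠ 0 := fun h => by
  have h1 := mem_sphere_zero_iff_norm.1 n.2
  rw [h, norm_zero] at h1
  exact zero_ne_one h1

theorem ext_prop {V : E3 → Fin 3 → ℝ} (hV : ∀ i, ContDiff ℝ ∞ (fun y => V y i)) (hT : ∀ n : S2, ∑ i, (n : E3) i * V n i = 0) :
    (∀ x : E3, x ≠ 0 → ∀ i, ContDiffAt ℝ ∞ (fun y => ext V y i) x) ∧
    (∀ x : E3, x ≠ 0 → ∀ c : ℝ, 0 < c → ∀ i, ext V (c • x) i = c * ext V x i) ∧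
    (∀ x : E3, x ≠ 0 → ∑ i, x i * ext V x i = 0) ∧ ∀ (n : S2) (i : Fin 3), ext V n i = V n i := by
  refine ⟨?_, ?_, ?_, ?_⟩
  · intro x hx i
    unfold ext
    have h1 : ContDiffAt ℝ ∞ (fun y : E3 => ‖y‖) x := contDiffAt_norm ℝ hx
    have h2 : ContDiffAt ℝ ∞ (fun y : E3 => ‖y‖⁻¹ • y) x := (h1.inv (norm_ne_zero_iff.2 hx)).smul contDiffAt_id
    exact h1.mul (ContDiffAt.comp x (g := fun y => V y i) (f := fun y : E3 => ‖y‖⁻¹ • y) (hV i).contDiffAt h2)
  · intro x hx c hc i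
    unfold ext
    have h0 : ‖x‖ ≠ 0 := norm_ne_zero_iff.2 hx
    have h1 : ‖c • x‖ = c * ‖x‖ := by rw [norm_smul, Real.norm_eq_abs, abs_of_pos hc]
    have h2 : (c * ‖x‖)⁻¹ • c • x = ‖x‖⁻¹ • x := by
      rw [smul_smul]
      congr 1
      field_simp
    rw [h1, h2]
    ring
  · intro x hx
    have h0 : ‖x‖ ≠ 0 := norm_ne_zero_iff.2 hx
    have hm : ‖x‖⁻¹ • x ∈ Metric.sphere (0 : E3) 1 := by
      rw [mem_sphere_zero_iff_norm, norm_smul, norm_inv, norm_norm, inv_mul_cancel₀ h0]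
    have h1 := hT ⟨_, hm⟩
    simp only [PiLp.smul_apply, smul_eq_mul] at h1
    have h2 : ∑ i, x i * ext V x i = ‖x‖ ^ 2 * ∑ i, ‖x‖⁻¹ * x i * V (‖x‖⁻¹ • x) i := by
      rw [Finset.mul_sum]
      refine Finset.sum_congr rfl fun i _ => ?_
      unfold ext
      field_simp
    rw [h2, h1, mul_zero]
  · intro n i
    unfold ext
    rw [mem_sphere_zero_iff_norm.1 n.2]
    simp

/-- The derivative of the extension at the points of the sphere. -/
theorem d4b_ext {V : E3 → Fin 3 → ℝ} (hV : ∀ i, ContDiff ℝ ∞ (fun y => V y i)) (n : S2) (i k : Fin 3) :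
    pd i (fun y => ext V y k) n = pd i (fun y => V y k) n +
      (n : E3) i * (V n k - fderiv ℝ (fun y => V y k) (n : E3) (n : E3)) := by
  have hn1 : ‖(n : E3)‖ = 1 := mem_sphere_zero_iff_norm.1 n.2
  have hne : (∞ : WithTop ℕ∞) ≠ 0 := by simp
  have h1 : HasFDerivAt (fun y : E3 => ‖y‖) (innerSL ℝ (n : E3)) (n : E3) := by
    have h2 : HasFDerivAt (fun y : E3 => ‖y‖ ^ 2) (2 • innerSL ℝ (n : E3)) (n : E3) :=
      (hasStrictFDerivAt_norm_sq (n : E3)).hasFDerivAt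
    have h3 := h2.sqrt (by rw [hn1]; norm_num)
    have h4 : (fun y : E3 => Real.sqrt (‖y‖ ^ 2)) = fun y : E3 => ‖y‖ := by
      funext y
      exact Real.sqrt_sq (norm_nonneg y)
    rw [h4] at h3
    refine h3.congr_fderiv ?_
    rw [hn1]
    ext v
    simp
  have h5 : HasFDerivAt (fun y : E3 => ‖y‖⁻¹) (-innerSL ℝ (n : E3)) (n : E3) := by
    have h6 : HasFDerivAt (fun y : E3 => ‖y‖⁻¹) ((-(‖(n : E3)‖ ^ 2)⁻¹) • innerSL ℝ (n : E3)) (n : E3) :=
      HasDerivAt.comp_hasFDerivAt (n : E3) (hasDerivAt_inv (by rw [hn1]; norm_num)) h1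
    refine h6.congr_fderiv ?_
    rw [hn1]
    ext v
    simp
  have h7 : HasFDerivAt (fun y : E3 => ‖y‖⁻¹ • y)
      (‖(n : E3)‖⁻¹ • ContinuousLinearMap.id ℝ E3 + (-innerSL ℝ (n : E3)).smulRight (n : E3)) (n : E3) :=
    h5.smul (hasFDerivAt_id (n : E3))
  have hpt : ‖(n : E3)‖⁻¹ • (n : E3) = n := by rw [hn1, inv_one, one_smul]
  have h8 : HasFDerivAt (fun y => V y k) (fderiv ℝ (fun y => V y k) (n : E3)) (‖(n : E3)‖⁻¹ • (n : E3)) := by
    rw [hpt]
    exact ((hV k).differentiable hne).differentiableAt.hasFDerivAt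
  have h9 : HasFDerivAt (fun y : E3 => V (‖y‖⁻¹ • y) k) ((fderiv ℝ (fun y => V y k) (n : E3)).comp
      (‖(n : E3)‖⁻¹ • ContinuousLinearMap.id ℝ E3 + (-innerSL ℝ (n : E3)).smulRight (n : E3))) (n : E3) :=
    HasFDerivAt.comp (n : E3) (g := fun y => V y k) (f := fun y : E3 => ‖y‖⁻¹ • y) h8 h7
  have h10 := h1.mul h9
  have h11 : pd i (fun y => ext V y k) n = (‖(n : E3)‖ • (fderiv ℝ (fun y => V y k) (n : E3)).comp
      (‖(n : E3)‖⁻¹ • ContinuousLinearMap.id ℝ E3 + (-innerSL ℝ (n : E3)).smulRight (n : E3)) +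
        V (‖(n : E3)‖⁻¹ • (n : E3)) k • innerSL ℝ (n : E3)) (EuclideanSpace.single i 1) := by
    unfold Pool.Agent.Lib.PenroseSph.pd ext
    exact congrArg (fun L : E3 →L[ℝ] ℝ => L (EuclideanSpace.single i 1)) h10.fderiv
  rw [h11, hpt, hn1]
  have h12 : inner ℝ (n : E3) (EuclideanSpace.single i (1 : ℝ)) = (n : E3) i := by
    rw [EuclideanSpace.inner_single_right]
    simp
  simp only [_root_.add_apply, _root_.smul_apply, ContinuousLinearMap.comp_apply, innerSL_apply_apply,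
    h12, one_smul, inv_one, ContinuousLinearMap.smulRight_apply, _root_.neg_apply,
    ContinuousLinearMap.id_apply, map_add, map_smul, smul_eq_mul, Pool.Agent.Lib.PenroseSph.pd]
  ring

theorem d4b_alg {T h : Fin 3 → Fin 3 → ℝ} {n V a : Fin 3 → ℝ} {dV dW : Fin 3 → Fin 3 → ℝ} {dh : Fin 3 → Fin 3 → Fin 3 → ℝ}
    (hT1 : ∀ j, ∑ i, T i j * n i = 0) (hT2 : ∀ i, ∑ j, T i j * n j = 0) (hW : ∀ i k, dW i k = dV i k + n i * a k) :
    ∑ i, ∑ j, T i j * ∑ k, (V k * dh i j k + h k j * dW i k + h i k * dW j k) =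
      ∑ i, ∑ j, T i j * ∑ k, (V k * dh i j k + h k j * dV i k + h i k * dV j k) := by
  have h1 : ∑ i, ∑ j, T i j * ∑ k, (V k * dh i j k + h k j * dW i k + h i k * dW j k) =
      (∑ i, ∑ j, T i j * ∑ k, (V k * dh i j k + h k j * dV i k + h i k * dV j k)) +
      ((∑ i, ∑ j, T i j * n i * ∑ k, h k j * a k) + ∑ i, ∑ j, T i j * n j * ∑ k, h i k * a k) := by
    rw [← Finset.sum_add_distrib, ← Finset.sum_add_distrib]
    refine Finset.sum_congr rfl fun i _ => ?_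
    rw [← Finset.sum_add_distrib, ← Finset.sum_add_distrib]
    refine Finset.sum_congr rfl fun j _ => ?_
    simp only [hW, Fin.sum_univ_three]
    ring
  have h2 : ∑ i, ∑ j, T i j * n i * ∑ k, h k j * a k = 0 := by
    rw [Finset.sum_comm]
    refine Finset.sum_eq_zero fun j _ => ?_
    rw [← Finset.sum_mul, hT1, zero_mul]
  have h3 : ∑ i, ∑ j, T i j * n j * ∑ k, h i k * a k = 0 := by
    refine Finset.sum_eq_zero fun i _ => ?_
    rw [← Finset.sum_mul, hT2, zero_mul]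
  rw [h1, h2, h3]
  ring

/-- `mom` of the data contains only derivatives of `V` in directions tangent to the sphere (`∑_i T^ij n_i = 0`,
`T^ij = χ^ij - exL Q^ij`), and the derivatives of `V` and of `ext V` in these directions agree. `NullPen.pd` is the derivative in the direction
`e_k`. -/
theorem data_mom (hR : Reg G Ψ W) (hc : Cut W ψ) {s : ℝ} (hs : 0 ≤ s) {V : E3 → Fin 3 → ℝ} (hV : ∀ i, ContDiff ℝ ∞ (fun y => V y i))
    (hT : ∀ n : S2, ∑ i, (n : E3) i * V n i = 0) (n : S2) :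
    (data G Ψ ψ).mom s V n = momc G Ψ (ext V) (s, (n : E3)) := by
  have hne : (∞ : WithTop ℕ∞) ≠ 0 := by simp
  have hx := d4b_ne n
  have hp : (s, (n : E3)) ∈ W := hR.mem s hs n hx
  have hVd : ∀ k, DifferentiableAt ℝ (fun y => V y k) (n : E3) := fun k => ((hV k).differentiable hne).differentiableAt
  -- the derivatives of Euclidean three space
  have hpd : ∀ (i : Fin 3) {f : E3 → ℝ}, DifferentiableAt ℝ f (n : E3) → NullPen.pd i f (n : E3) = pd i f n := by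
    intro i f hf
    unfold NullPen.pd Pool.Agent.Lib.PenroseSph.pd
    have h1 : HasDerivAt (fun t : ℝ => (n : E3) + t • EuclideanSpace.single i (1 : ℝ)) (EuclideanSpace.single i (1 : ℝ)) 0 := by
      have h2 : HasDerivAt (fun t : ℝ => t • (EuclideanSpace.single i (1 : ℝ) : E3))
          ((1 : ℝ) • (EuclideanSpace.single i (1 : ℝ) : E3)) 0 := (hasDerivAt_id (0 : ℝ)).smul_const _
      rw [one_smul] at h2
      exact h2.const_add _
    have h3 : HasFDerivAt f (fderiv ℝ f (n : E3)) ((n : E3) + (0 : ℝ) • EuclideanSpace.single i (1 : ℝ)) := by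
      rw [zero_smul, add_zero]
      exact hf.hasFDerivAt
    exact (h3.comp_hasDerivAt (0 : ℝ) h1).deriv
  have hV1 : ∀ i k, NullPen.pd i (fun y => V y k) (n : E3) = pd i (fun y => V y k) n := fun i k => hpd i (hVd k)
  have hev : ∀ᶠ y in 𝓝 (n : E3), ψ (s, y) = 1 := by
    have h1 : Filter.Tendsto (fun y : E3 => ((s, y) : ℝ × E3)) (𝓝 (n : E3)) (𝓝 ((s, (n : E3)) : ℝ × E3)) :=
      (continuous_const.prodMk continuous_id).tendsto _
    exact h1.eventually (hc.one s hs n)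
  have hg : ∀ i j k, NullPen.pd k (fun y => (data G Ψ ψ).g s y i j) (n : E3) = fderiv ℝ (hh G Ψ i j) (s, (n : E3)) (dX k) := by
    intro i j k
    have h1 : (fun y => (data G Ψ ψ).g s y i j) =ᶠ[𝓝 (n : E3)] fun y => hh G Ψ i j (s, y) := by
      filter_upwards [hev] with y hy
      show ψ (s, y) * hh G Ψ i j (s, y) = _
      rw [hy, one_mul]
    have hhd := (hh_smooth hR hp i j).differentiableAt hne
    have h2 : DifferentiableAt ℝ (fun y => hh G Ψ i j (s, y)) (n : E3) :=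
      DifferentiableAt.comp (n : E3) (g := hh G Ψ i j) (f := fun y : E3 => ((s, y) : ℝ × E3)) hhd
        ((differentiableAt_const s).prodMk differentiableAt_id)
    have h3 : DifferentiableAt ℝ (fun y => (data G Ψ ψ).g s y i j) (n : E3) := h1.differentiableAt_iff.2 h2
    rw [hpd k h3, ← d3a_slice hhd k]
    unfold Pool.Agent.Lib.PenroseSph.pd
    rw [h1.fderiv_eq]
  have hg0 : ∀ i j, (data G Ψ ψ).g s n i j = hh G Ψ i j (s, (n : E3)) := by
    intro i j
    show ψ (s, (n : E3)) * hh G Ψ i j (s, (n : E3)) = _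
    rw [cut_eq hc hs, one_mul]
  have hQx : ∀ i, ∑ j, QQ G Ψ i j (s, (n : E3)) * (n : E3) j = 0 := fun i => QQ_rad hR hp i
  have hQx' : ∀ j, ∑ i, QQ G Ψ i j (s, (n : E3)) * (n : E3) i = 0 := by
    intro j
    rw [← hQx j]
    refine Finset.sum_congr rfl fun i _ => ?_
    rw [QQ_symm hR hp]
  have hT1 : ∀ j, ∑ i, ((∑ k, ∑ l, QQ G Ψ i k (s, (n : E3)) * QQ G Ψ j l (s, (n : E3)) * chi G Ψ k l (s, (n : E3))) -
      exl G Ψ (s, (n : E3)) * QQ G Ψ i j (s, (n : E3))) * (n : E3) i = 0 := by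
    intro j
    have h1 : ∑ i, ((∑ k, ∑ l, QQ G Ψ i k (s, (n : E3)) * QQ G Ψ j l (s, (n : E3)) * chi G Ψ k l (s, (n : E3))) -
        exl G Ψ (s, (n : E3)) * QQ G Ψ i j (s, (n : E3))) * (n : E3) i =
        (∑ k, ∑ l, (∑ i, QQ G Ψ i k (s, (n : E3)) * (n : E3) i) * (QQ G Ψ j l (s, (n : E3)) * chi G Ψ k l (s, (n : E3)))) -
        exl G Ψ (s, (n : E3)) * ∑ i, QQ G Ψ i j (s, (n : E3)) * (n : E3) i := by
      simp only [Fin.sum_univ_three]
      ring
    rw [h1]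
    simp only [hQx', zero_mul, mul_zero, Finset.sum_const_zero, sub_zero]
  have hT2 : ∀ i, ∑ j, ((∑ k, ∑ l, QQ G Ψ i k (s, (n : E3)) * QQ G Ψ j l (s, (n : E3)) * chi G Ψ k l (s, (n : E3))) -
      exl G Ψ (s, (n : E3)) * QQ G Ψ i j (s, (n : E3))) * (n : E3) j = 0 := by
    intro i
    have h1 : ∑ j, ((∑ k, ∑ l, QQ G Ψ i k (s, (n : E3)) * QQ G Ψ j l (s, (n : E3)) * chi G Ψ k l (s, (n : E3))) -
        exl G Ψ (s, (n : E3)) * QQ G Ψ i j (s, (n : E3))) * (n : E3) j =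
        (∑ k, ∑ l, (∑ j, QQ G Ψ j l (s, (n : E3)) * (n : E3) j) * (QQ G Ψ i k (s, (n : E3)) * chi G Ψ k l (s, (n : E3)))) -
        exl G Ψ (s, (n : E3)) * ∑ j, QQ G Ψ i j (s, (n : E3)) * (n : E3) j := by
      simp only [Fin.sum_univ_three]
      ring
    rw [h1, hQx]
    simp only [hQx', zero_mul, mul_zero, Finset.sum_const_zero, sub_zero]
  have hext : ∀ k, ext V n k = V n k := (ext_prop hV hT).2.2.2 n
  have halg := d4b_alg (T := fun i j => (∑ k, ∑ l, QQ G Ψ i k (s, (n : E3)) * QQ G Ψ j l (s, (n : E3)) *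
      chi G Ψ k l (s, (n : E3))) - exl G Ψ (s, (n : E3)) * QQ G Ψ i j (s, (n : E3))) (h := fun i j => hh G Ψ i j (s, (n : E3)))
    (n := fun i => (n : E3) i) (V := fun k => V n k)
    (a := fun k => V n k - fderiv ℝ (fun y => V y k) (n : E3) (n : E3))
    (dV := fun i k => pd i (fun y => V y k) n) (dW := fun i k => pd i (fun y => ext V y k) n)
    (dh := fun i j k => fderiv ℝ (hh G Ψ i j) (s, (n : E3)) (dX k)) hT1 hT2 (fun i k => d4b_ext hV n i k)
  unfold NullPen.NullData.mom NullPen.NullData.lie momc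
  simp only [data_chi hR hc hs, data_exL hR hc hs, hg, hg0, hV1, hext]
  exact congrArg (fun t : ℝ => t / 2) halg.symm

end H17W
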