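import Pool.Agent.Lib.H17W.D4A
import Pool.Agent.Lib.H17W.D4B
import Pool.Agent.Lib.H17W.D3D
import Pool.Agent.Lib.H17W.B5C

set_option autoImplicit false

/-!
# H17W, chunk D4C (M): the constraint equations of the data

Auxiliary names start with `d4c_`.
-/

open MeasureTheory Filter Topology Set
open scoped ContDiff

namespace H17W

open H17T (E4 pt pos)
open Pool.Agent.Lib.PenroseSph (E3 S2 sm pd)

variable {U : Set E4} {G : E4 → Matrix (Fin 4) (Fin 4) ℝ} {Ψ : ℝ × E3 → E4} {W : Set (ℝ × E3)} {ψ : ℝ × E3 → ℝ}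

theorem d4c_dt {f : ℝ × E3 → ℝ} {s : ℝ} {x : E3} (hf : ContDiffAt ℝ ∞ f (s, x)) :
    HasDerivAt (fun t : ℝ => f (t, x)) (fderiv ℝ f (s, x) dS) s := by
  have h2 : HasDerivAt (fun r : ℝ => ((r, x) : ℝ × E3)) (1, 0) s :=
    (hasDerivAt_id s).prodMk (hasDerivAt_const s x)
  exact (hf.differentiableAt (by simp)).hasFDerivAt.comp_hasDerivAt s h2

/-- The torsion equation: `int_derivS` for `F = (∑ ζ_i V_i) dA` (`V_i` is a function of `p.2`), `dA_ds`, `torsion_eq`, `int_mom` for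
`ext V`, `data_mom`. -/
theorem data_torsion (hR : Reg G Ψ W) (hc : Cut W ψ) {V : E3 → Fin 3 → ℝ} (hV : ∀ i, ContDiff ℝ ∞ (fun y => V y i))
    (hT : ∀ n : S2, ∑ i, (n : E3) i * V n i = 0) {s : ℝ} (hs : 0 < s) :
    HasDerivAt (fun t => ∫ n : S2, (∑ i, (data G Ψ ψ).ζ t n i * V n i) * (data G Ψ ψ).dA t n ∂NullPen.sm)
      (∫ n : S2, ((data G Ψ ψ).mom s V n + ∑ i, (data G Ψ ψ).j s n i * V n i) * (data G Ψ ψ).dA s n ∂NullPen.sm) s := by
  obtain ⟨e1, e2, e3, e4⟩ := ext_prop hV hT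
  have hs0 := hs.le
  have hF : ∀ p ∈ W, ContDiffAt ℝ ∞ (fun p : ℝ × E3 => (∑ i, zet G Ψ i p * V p.2 i) * dA G Ψ p) p := by
    intro p hp
    refine ContDiffAt.mul (ContDiffAt.sum fun i _ => (zet_smooth hR hp i).mul ?_) (dA_smooth hR hp)
    exact ContDiffAt.comp p (g := fun y => V y i) (hV i).contDiffAt contDiffAt_snd
  have h1 := int_derivS hc hF hs
  have h2 : (fun t => ∫ n : S2, (∑ i, (data G Ψ ψ).ζ t n i * V n i) * (data G Ψ ψ).dA t n ∂NullPen.sm) =ᶠ[𝓝 s]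
      (fun t => ∫ n : S2, (fun p : ℝ × E3 => (∑ i, zet G Ψ i p * V p.2 i) * dA G Ψ p) (t, (n : E3)) ∂sm) := by
    filter_upwards [lt_mem_nhds hs] with t ht
    refine integral_congr_ae (Eventually.of_forall fun n => ?_)
    show (∑ i, (data G Ψ ψ).ζ t n i * V n i) * (data G Ψ ψ).dA t n = (∑ i, zet G Ψ i (t, (n : E3)) * V n i) * dA G Ψ (t, (n : E3))
    rw [data_dA hR hc ht.le n]
    congr 1
    refine Finset.sum_congr rfl fun i _ => ?_
    show ψ (t, (n : E3)) * zet G Ψ i (t, (n : E3)) * V n i = _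
    rw [cut_eq hc ht.le n, one_mul]
  refine (h1.congr_of_eventuallyEq h2).congr_deriv ?_
  have h3 : ∀ n : S2, fderiv ℝ (fun p : ℝ × E3 => (∑ i, zet G Ψ i p * V p.2 i) * dA G Ψ p) (s, (n : E3)) dS =
      (∑ j, ext V n j * (fderiv ℝ (exl G Ψ) (s, (n : E3)) (dX j) - dchi G Ψ j (s, (n : E3)))) * dA G Ψ (s, (n : E3)) +
        (∑ j, jj G Ψ j (s, (n : E3)) * ext V n j) * dA G Ψ (s, (n : E3)) := by
    intro n
    have hm := hR.mem s hs0 n (d3d_ne n)
    have g1 := d4c_dt (hF _ hm)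
    have g2 : HasDerivAt (fun t : ℝ => (∑ i, zet G Ψ i (t, (n : E3)) * V n i) * dA G Ψ (t, (n : E3)))
        ((∑ i, fderiv ℝ (zet G Ψ i) (s, (n : E3)) dS * V n i) * dA G Ψ (s, (n : E3)) +
          (∑ i, zet G Ψ i (s, (n : E3)) * V n i) * fderiv ℝ (dA G Ψ) (s, (n : E3)) dS) s :=
      (HasDerivAt.fun_sum fun i _ => (d4c_dt (zet_smooth hR hm i)).mul_const (V n i)).mul (d4c_dt (dA_smooth hR hm))
    rw [g1.unique g2, dA_ds hR hs0 (d3d_ne n)]
    simp only [e4]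
    have g3 : ∀ i, fderiv ℝ (zet G Ψ i) (s, (n : E3)) dS = fderiv ℝ (exl G Ψ) (s, (n : E3)) (dX i) - dchi G Ψ i (s, (n : E3)) +
        jj G Ψ i (s, (n : E3)) - exl G Ψ (s, (n : E3)) * zet G Ψ i (s, (n : E3)) := by
      intro i
      linarith [torsion_eq hR hs (d3d_ne n) i]
    simp only [g3, Fin.sum_univ_three]
    ring
  have h4 : ∀ n : S2, ((data G Ψ ψ).mom s V n + ∑ i, (data G Ψ ψ).j s n i * V n i) * (data G Ψ ψ).dA s n =
      momc G Ψ (ext V) (s, (n : E3)) * dA G Ψ (s, (n : E3)) + (∑ j, jj G Ψ j (s, (n : E3)) * ext V n j) * dA G Ψ (s, (n : E3)) := by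
    intro n
    rw [data_dA hR hc hs0 n, data_mom hR hc hs0 hV hT n, add_mul]
    congr 2
    refine Finset.sum_congr rfl fun i _ => ?_
    show ψ (s, (n : E3)) * jj G Ψ i (s, (n : E3)) * V n i = _
    rw [cut_eq hc hs0 n, one_mul, e4]
  have h5 : Integrable (fun n : S2 => (∑ j, jj G Ψ j (s, (n : E3)) * ext V n j) * dA G Ψ (s, (n : E3))) sm := by
    refine d3d_int (F := fun x : E3 => (∑ j, jj G Ψ j (s, x) * ext V x j) * dA G Ψ (s, x)) fun x hx => ?_
    have hm := hR.mem s hs0 x hx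
    refine ContinuousAt.mul (tendsto_finsetSum _ fun j _ => ?_) (d3d_c0 (dA_smooth hR hm))
    exact ContinuousAt.mul (d3d_c0 (Ric_smooth hR hm (fun a => LL_smooth hR hm a) (fun a => XX_smooth hR hm j a)))
      (e1 x hx j).continuousAt
  rw [integral_congr_ae (Eventually.of_forall h3)]
  refine Eq.trans ?_ (integral_congr_ae (μ := sm) (Eventually.of_forall h4)).symm
  rw [integral_add (d3d_intA hR hs0 e1) h5, integral_add (d3d_intB hR hs0 e1) h5, int_mom hR hs0 e1 e2 e3]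

end H17W
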