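import Pool.Agent.Lib.H17W.D4A
import Pool.Agent.Lib.H17W.D1B
import Pool.Agent.Lib.H17W.D3D
import Pool.Agent.Lib.H17W.B6D

set_option autoImplicit false

/-!
# H17W, chunk D4D (S/M): the constraint equations of the data

Auxiliary names start with `d4d_`.
-/

open MeasureTheory Filter Topology Set
open scoped ContDiff

namespace H17W

open H17T (E4 pt pos)
open Pool.Agent.Lib.PenroseSph (E3 S2 sm pd)

variable {U : Set E4} {G : E4 → Matrix (Fin 4) (Fin 4) ℝ} {Ψ : ℝ × E3 → E4} {W : Set (ℝ × E3)} {ψ : ℝ × E3 → ℝ}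

theorem d4d_dt {f : ℝ × E3 → ℝ} {s : ℝ} {x : E3} (hf : ContDiffAt ℝ ∞ f (s, x)) :
    HasDerivAt (fun t : ℝ => f (t, x)) (fderiv ℝ f (s, x) dS) s := by
  have h2 : HasDerivAt (fun r : ℝ => ((r, x) : ℝ × E3)) (1, 0) s :=
    (hasDerivAt_id s).prodMk (hasDerivAt_const s x)
  exact (hf.differentiableAt (by simp)).hasFDerivAt.comp_hasDerivAt s h2

theorem d4d_int {A B C R : S2 → ℝ} (hA : Integrable A sm) (hB : Integrable B sm) (hC : Integrable C sm) (hr : Integrable R sm) :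
    ∫ n : S2, (A n + 2 * B n + 2 * C n + R n) ∂sm =
      (∫ n : S2, A n ∂sm) + 2 * (∫ n : S2, B n ∂sm) + 2 * (∫ n : S2, C n ∂sm) + ∫ n : S2, R n ∂sm := by
  have h1 : Integrable (fun n => A n + 2 * B n) sm := hA.add (hB.const_mul 2)
  have h2 : Integrable (fun n => A n + 2 * B n + 2 * C n) sm := h1.add (hC.const_mul 2)
  rw [integral_add h2 hr, integral_add h1 (hC.const_mul 2), integral_add hA (hB.const_mul 2), integral_const_mul,
    integral_const_mul]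

/-- The integrated equation for `θ`: `int_derivS` for `θ dA`, `theta_eq`, `int_scal`, `int_dzet`. -/
theorem data_expansion (hR : Reg G Ψ W) (hc : Cut W ψ) {s : ℝ} (hs : 0 < s) :
    HasDerivAt (fun t => ∫ n : S2, (data G Ψ ψ).θ t n * (data G Ψ ψ).dA t n ∂NullPen.sm)
      (8 * Real.pi - 2 * (∫ n : S2, (data G Ψ ψ).torSq s n * (data G Ψ ψ).dA s n ∂NullPen.sm) -
        ∫ n : S2, (data G Ψ ψ).ρ s n * (data G Ψ ψ).dA s n ∂NullPen.sm) s := by
  have hs0 := hs.le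
  have hF : ∀ p ∈ W, ContDiffAt ℝ ∞ (fun p : ℝ × E3 => tht G Ψ p * dA G Ψ p) p :=
    fun p hp => (tht_smooth hR hp).mul (dA_smooth hR hp)
  have h1 := int_derivS hc hF hs
  have h2 : (fun t => ∫ n : S2, (data G Ψ ψ).θ t n * (data G Ψ ψ).dA t n ∂NullPen.sm) =ᶠ[𝓝 s]
      (fun t => ∫ n : S2, (fun p : ℝ × E3 => tht G Ψ p * dA G Ψ p) (t, (n : E3)) ∂sm) := by
    filter_upwards [lt_mem_nhds hs] with t ht
    refine integral_congr_ae (Eventually.of_forall fun n => ?_)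
    show (data G Ψ ψ).θ t n * (data G Ψ ψ).dA t n = tht G Ψ (t, (n : E3)) * dA G Ψ (t, (n : E3))
    rw [data_dA hR hc ht.le n]
    show ψ (t, (n : E3)) * tht G Ψ (t, (n : E3)) * dA G Ψ (t, (n : E3)) = _
    rw [cut_eq hc ht.le n, one_mul]
  refine (h1.congr_of_eventuallyEq h2).congr_deriv ?_
  have iA : Integrable (fun n : S2 => fderiv ℝ (fun p : ℝ × E3 => tht G Ψ p * dA G Ψ p) (s, (n : E3)) dS) sm :=
    d3d_int (F := fun x : E3 => fderiv ℝ (fun p : ℝ × E3 => tht G Ψ p * dA G Ψ p) (s, x) dS) fun x hx =>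
      d3d_c1 (hF _ (hR.mem s hs0 x hx)) _
  have iB : Integrable (fun n : S2 => (∑ i, ∑ j, QQ G Ψ i j (s, (n : E3)) * zet G Ψ i (s, (n : E3)) * zet G Ψ j (s, (n : E3))) *
      dA G Ψ (s, (n : E3))) sm := by
    refine d3d_int (F := fun x : E3 => (∑ i, ∑ j, QQ G Ψ i j (s, x) * zet G Ψ i (s, x) * zet G Ψ j (s, x)) *
      dA G Ψ (s, x)) fun x hx => ?_
    have hm := hR.mem s hs0 x hx
    refine ContinuousAt.mul (tendsto_finsetSum _ fun i _ => tendsto_finsetSum _ fun j _ => ?_) (d3d_c0 (dA_smooth hR hm))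
    exact ContinuousAt.mul (ContinuousAt.mul (d3d_c0 (QQ_smooth hR hm i j)) (d3d_c0 (zet_smooth hR hm i)))
      (d3d_c0 (zet_smooth hR hm j))
  have iC : Integrable (fun n : S2 => dzet G Ψ (s, (n : E3)) * dA G Ψ (s, (n : E3))) sm := by
    refine d3d_int (F := fun x : E3 => dzet G Ψ (s, x) * dA G Ψ (s, x)) fun x hx => ?_
    exact ContinuousAt.mul (d3d_dzet hR hs0 hx) (d3d_c0 (dA_smooth hR (hR.mem s hs0 x hx)))
  have iR : Integrable (fun n : S2 => rr G Ψ (s, (n : E3)) * dA G Ψ (s, (n : E3))) sm := by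
    refine d3d_int (F := fun x : E3 => rr G Ψ (s, x) * dA G Ψ (s, x)) fun x hx => ?_
    have hm := hR.mem s hs0 x hx
    refine ContinuousAt.mul ?_ (d3d_c0 (dA_smooth hR hm))
    unfold rr
    refine tendsto_finsetSum _ fun i _ => tendsto_finsetSum _ fun j _ => ?_
    exact ContinuousAt.mul (d3d_c0 (QQ_smooth hR hm i j))
      (d3d_c0 (Ric_smooth hR hm (fun a => XX_smooth hR hm i a) (fun a => XX_smooth hR hm j a)))
  have h3 : ∀ n : S2, scal (fun y => PP G Ψ (s, y)) (n : E3) * dA G Ψ (s, (n : E3)) =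
      fderiv ℝ (fun p : ℝ × E3 => tht G Ψ p * dA G Ψ p) (s, (n : E3)) dS +
        2 * ((∑ i, ∑ j, QQ G Ψ i j (s, (n : E3)) * zet G Ψ i (s, (n : E3)) * zet G Ψ j (s, (n : E3))) * dA G Ψ (s, (n : E3))) +
        2 * (dzet G Ψ (s, (n : E3)) * dA G Ψ (s, (n : E3))) + rr G Ψ (s, (n : E3)) * dA G Ψ (s, (n : E3)) := by
    intro n
    have hm := hR.mem s hs0 n (d3d_ne n)
    have g1 := d4d_dt (hF _ hm)
    have g2 : HasDerivAt (fun t : ℝ => tht G Ψ (t, (n : E3)) * dA G Ψ (t, (n : E3)))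
        (fderiv ℝ (tht G Ψ) (s, (n : E3)) dS * dA G Ψ (s, (n : E3)) +
          tht G Ψ (s, (n : E3)) * fderiv ℝ (dA G Ψ) (s, (n : E3)) dS) s :=
      (d4d_dt (tht_smooth hR hm)).mul (d4d_dt (dA_smooth hR hm))
    have g3 := theta_eq hR hs (d3d_ne n)
    rw [g1.unique g2, dA_ds hR hs0 (d3d_ne n)]
    linear_combination (-(dA G Ψ (s, (n : E3)))) * g3
  have h4 := int_scal hR hs0
  rw [integral_congr_ae (Eventually.of_forall h3), d4d_int iA iB iC iR, int_dzet hR hs0] at h4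
  have h5 : ∫ n : S2, (data G Ψ ψ).torSq s n * (data G Ψ ψ).dA s n ∂NullPen.sm =
      ∫ n : S2, (∑ i, ∑ j, QQ G Ψ i j (s, (n : E3)) * zet G Ψ i (s, (n : E3)) * zet G Ψ j (s, (n : E3))) *
        dA G Ψ (s, (n : E3)) ∂sm := by
    refine integral_congr_ae (Eventually.of_forall fun n => ?_)
    show (data G Ψ ψ).torSq s n * (data G Ψ ψ).dA s n = _
    rw [data_dA hR hc hs0 n]
    congr 1
    refine Finset.sum_congr rfl fun i _ => Finset.sum_congr rfl fun j _ => ?_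
    show QQ G Ψ i j (s, (n : E3)) * (ψ (s, (n : E3)) * zet G Ψ i (s, (n : E3))) * (ψ (s, (n : E3)) * zet G Ψ j (s, (n : E3))) = _
    rw [cut_eq hc hs0 n, one_mul, one_mul]
  have h6 : ∫ n : S2, (data G Ψ ψ).ρ s n * (data G Ψ ψ).dA s n ∂NullPen.sm =
      ∫ n : S2, rr G Ψ (s, (n : E3)) * dA G Ψ (s, (n : E3)) ∂sm := by
    refine integral_congr_ae (Eventually.of_forall fun n => ?_)
    show (data G Ψ ψ).ρ s n * (data G Ψ ψ).dA s n = _
    rw [data_dA hR hc hs0 n]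
    show ψ (s, (n : E3)) * rr G Ψ (s, (n : E3)) * dA G Ψ (s, (n : E3)) = _
    rw [cut_eq hc hs0 n, one_mul]
  rw [h5, h6]
  linarith

end H17W
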