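import Pool.Agent.Lib.H17W.E9A

set_option autoImplicit false

/-!
# H17W, chunk E9B (M, pure): the Bondi energy in terms of the area

`r = √a = s + c`, `|c| ≤ C`, `d = e r/2 - 1`, `0 ≤ s d ≤ 4C` and `s d(s, n) → 0` for every `n` (`e9a`). `e a = e r² = 2 (1 + d) r = 2 s + 2 c + 2 s d + 2 c d`.
(a) `∫ s d → 0`: dominated convergence (`tendsto_integral_filter_of_dominated_convergence`, bound `4C`; continuity in `n`), and `∫ c d → 0`
(`|c d| ≤ 4 C²/s`). (b) `∫ e a = 8πs + 2 I + 2 ∫ s d + 2 ∫ c d`, `I = ∫ c`, `|I| ≤ 4πC` (`sm_univ`: total mass `4π`, `integrable_S2`).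
(c) `∫ a = ∫ (s + c)² = 4πs² + 2 s I + J`, `J = ∫ c²`. `√(16π ∫ a) - (8πs + 2 I) = (16πJ - 4I²)/(√(..) + 8πs + 2I) → 0`.
(d) `(2m/s) ∫ e a → 16πm`. Sum up.
-/

open MeasureTheory Filter Topology Set Asymptotics
open scoped ContDiff

namespace H17W

open H17T (E4 pt pos tang slice second DEC)
open H17B (eta dl)
open Pool.Agent.Lib.PenroseSph (E3 Tens S2 sm pd)

variable {G : E4 → Matrix (Fin 4) (Fin 4) ℝ} {Ψ : ℝ × E3 → E4} {W : Set (ℝ × E3)} {ε m : ℝ}

theorem e9b_int {f : S2 → ℝ} {K : ℝ} (h : ∀ n, |f n| ≤ K) : |∫ n, f n ∂sm| ≤ K * (4 * Real.pi) := by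
  have h1 := norm_integral_le_of_norm_le_const (μ := sm) (f := f) (C := K) (Eventually.of_forall fun n => by
    rw [Real.norm_eq_abs]
    exact h n)
  rw [Pool.Agent.Lib.PenroseSph.sm_univ, Real.norm_eq_abs] at h1
  exact h1

theorem e9b {a e : ℝ → S2 → ℝ} {C m : ℝ} (ha : ∀ s, 0 < s → ∀ n, HasDerivAt (fun t => a t n) (e s n * a s n) s)
    (hpos : ∀ s, 0 < s → ∀ n, 0 < a s n)
    (he : ∀ s, 0 < s → ∀ n, ∃ e' : ℝ, HasDerivAt (fun t => e t n) e' s ∧ e' ≤ -(e s n ^ 2 / 2))
    (hca : ∀ s, 0 < s → Continuous (a s)) (hce : ∀ s, 0 < s → Continuous (e s))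
    (hC : ∀ s, 1 ≤ s → ∀ n, |a s n - s ^ 2| ≤ C * s) :
    Tendsto (fun s => Real.sqrt (16 * Real.pi * ∫ n, a s n ∂sm) - ∫ n, (1 - 2 * m / s) * e s n * a s n ∂sm) atTop
      (𝓝 (16 * Real.pi * m)) := by
  have hpi := Real.pi_pos
  have h9 := fun n => e9a (a := fun t => a t n) (e := fun t => e t n) (C := C) (fun s hs => ha s hs n)
    (fun s hs => hpos s hs n) (fun s hs => he s hs n) (fun s hs => hC s hs n)
  have hC0 : 0 ≤ C := by
    have n0 : S2 := ⟨EuclideanSpace.single 0 1, by simp⟩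
    have h := (h9 n0).1 1 le_rfl
    exact (abs_nonneg _).trans h
  set c : ℝ → S2 → ℝ := fun s n => Real.sqrt (a s n) - s with hc
  set d : ℝ → S2 → ℝ := fun s n => e s n * Real.sqrt (a s n) / 2 - 1 with hd
  have hcb : ∀ s, 1 ≤ s → ∀ n, |c s n| ≤ C := fun s hs n => (h9 n).1 s hs
  have hdb : ∀ s, 2 ≤ s → ∀ n, 0 ≤ s * d s n ∧ s * d s n ≤ 4 * C := fun s hs n => (h9 n).2.1 s hs
  have hdl : ∀ n, Tendsto (fun s => s * d s n) atTop (𝓝 0) := fun n => (h9 n).2.2
  have hcr : ∀ s, 0 < s → Continuous fun n => Real.sqrt (a s n) := fun s hs => (hca s hs).sqrt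
  have hcc : ∀ s, 0 < s → Continuous (c s) := fun s hs => (hcr s hs).sub continuous_const
  have hcd : ∀ s, 0 < s → Continuous (d s) := fun s hs => (((hce s hs).mul (hcr s hs)).div_const 2).sub continuous_const
  have hea : ∀ s, 0 < s → ∀ n, e s n * a s n = 2 * s + 2 * c s n + 2 * (s * d s n) + 2 * (c s n * d s n) := by
    intro s hs n
    have h4 : Real.sqrt (a s n) * Real.sqrt (a s n) = a s n := Real.mul_self_sqrt (hpos s hs n).le
    show e s n * a s n = 2 * s + 2 * (Real.sqrt (a s n) - s) + 2 * (s * (e s n * Real.sqrt (a s n) / 2 - 1)) +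
      2 * ((Real.sqrt (a s n) - s) * (e s n * Real.sqrt (a s n) / 2 - 1))
    linear_combination (-e s n) * h4
  have haa : ∀ s, 0 < s → ∀ n, a s n = s ^ 2 + 2 * s * c s n + c s n ^ 2 := by
    intro s hs n
    have h4 : Real.sqrt (a s n) * Real.sqrt (a s n) = a s n := Real.mul_self_sqrt (hpos s hs n).le
    show a s n = s ^ 2 + 2 * s * (Real.sqrt (a s n) - s) + (Real.sqrt (a s n) - s) ^ 2
    linear_combination -h4
  set I : ℝ → ℝ := fun s => ∫ n, c s n ∂sm with hI
  set J : ℝ → ℝ := fun s => ∫ n, c s n ^ 2 ∂sm with hJ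
  set D : ℝ → ℝ := fun s => ∫ n, s * d s n ∂sm with hD
  set E : ℝ → ℝ := fun s => ∫ n, c s n * d s n ∂sm with hE
  have hint := fun {f : S2 → ℝ} (hf : Continuous f) => Pool.Agent.Lib.PenroseSph.integrable_S2 hf
  have hconst : ∀ K : ℝ, ∫ _n : S2, K ∂sm = K * (4 * Real.pi) := by
    intro K
    rw [integral_const, Pool.Agent.Lib.PenroseSph.sm_univ, smul_eq_mul, mul_comm]
  have hEA : ∀ s, 0 < s → ∫ n, e s n * a s n ∂sm = 8 * Real.pi * s + 2 * I s + 2 * D s + 2 * E s := by
    intro s hs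
    have h1 : ∫ n, e s n * a s n ∂sm = ∫ n, (2 * s + 2 * c s n + 2 * (s * d s n) + 2 * (c s n * d s n)) ∂sm :=
      integral_congr_ae (Eventually.of_forall fun n => hea s hs n)
    have i1 : Integrable (fun _ : S2 => 2 * s) sm := hint continuous_const
    have i2 : Integrable (fun n : S2 => 2 * c s n) sm := hint (continuous_const.mul (hcc s hs))
    have i3 : Integrable (fun n : S2 => 2 * (s * d s n)) sm := hint (continuous_const.mul (continuous_const.mul (hcd s hs)))
    have i4 : Integrable (fun n : S2 => 2 * (c s n * d s n)) sm := hint (continuous_const.mul ((hcc s hs).mul (hcd s hs)))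
    have i12 : Integrable (fun n : S2 => 2 * s + 2 * c s n) sm := i1.add i2
    have i123 : Integrable (fun n : S2 => 2 * s + 2 * c s n + 2 * (s * d s n)) sm := i12.add i3
    have j1 : ∫ n, 2 * c s n ∂sm = 2 * I s := integral_const_mul _ _
    have j2 : ∫ n, 2 * (s * d s n) ∂sm = 2 * D s := integral_const_mul _ _
    have j3 : ∫ n, 2 * (c s n * d s n) ∂sm = 2 * E s := integral_const_mul _ _
    rw [h1, integral_add i123 i4, integral_add i12 i3, integral_add i1 i2, hconst, j1, j2, j3]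
    ring
  have hAA : ∀ s, 0 < s → ∫ n, a s n ∂sm = 4 * Real.pi * s ^ 2 + 2 * s * I s + J s := by
    intro s hs
    have h1 : ∫ n, a s n ∂sm = ∫ n, (s ^ 2 + 2 * s * c s n + c s n ^ 2) ∂sm :=
      integral_congr_ae (Eventually.of_forall fun n => haa s hs n)
    have i1 : Integrable (fun _ : S2 => s ^ 2) sm := hint continuous_const
    have i2 : Integrable (fun n : S2 => 2 * s * c s n) sm := hint (continuous_const.mul (hcc s hs))
    have i3 : Integrable (fun n : S2 => c s n ^ 2) sm := hint ((hcc s hs).pow 2)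
    have i12 : Integrable (fun n : S2 => s ^ 2 + 2 * s * c s n) sm := i1.add i2
    rw [h1, integral_add i12 i3, integral_add i1 i2, hconst, integral_const_mul]
    ring
  have hIb : ∀ s, 1 ≤ s → |I s| ≤ C * (4 * Real.pi) := fun s hs => e9b_int (hcb s hs)
  have hJb : ∀ s, 1 ≤ s → |J s| ≤ C ^ 2 * (4 * Real.pi) := by
    intro s hs
    refine e9b_int fun n => ?_
    have h1 := hcb s hs n
    rw [abs_pow]
    exact pow_le_pow_left₀ (abs_nonneg _) h1 2
  have hDb : ∀ s, 2 ≤ s → |D s| ≤ 4 * C * (4 * Real.pi) := by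
    intro s hs
    refine e9b_int fun n => ?_
    obtain ⟨h1, h2⟩ := hdb s hs n
    rw [abs_of_nonneg h1]
    exact h2
  have hEb : ∀ s, 2 ≤ s → |E s| ≤ (4 * C ^ 2 / s) * (4 * Real.pi) := by
    intro s hs
    have hs0 : 0 < s := by linarith
    refine e9b_int fun n => ?_
    obtain ⟨h1, h2⟩ := hdb s hs n
    have h3 := hcb s (by linarith) n
    have h4 : |d s n| ≤ 4 * C / s := by
      rw [le_div_iff₀ hs0]
      have h5 : |d s n| * s = |s * d s n| := by
        rw [abs_mul, abs_of_pos hs0]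
        ring
      rw [h5, abs_of_nonneg h1]
      exact h2
    rw [abs_mul]
    calc |c s n| * |d s n| ≤ C * (4 * C / s) := mul_le_mul h3 h4 (abs_nonneg _) hC0
      _ = 4 * C ^ 2 / s := by ring
  have hinv : Tendsto (fun s : ℝ => 1 / s) atTop (𝓝 0) := by
    simpa using tendsto_inv_atTop_zero (𝕜 := ℝ)
  have hDl : Tendsto D atTop (𝓝 0) := by
    have h1 := tendsto_integral_filter_of_dominated_convergence (μ := (sm : Measure S2)) (l := (atTop : Filter ℝ))
      (F := fun s n => s * d s n) (f := fun _ => (0 : ℝ)) (fun _ => 4 * C) ?_ ?_ ?_ ?_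
    · simpa using h1
    · filter_upwards [eventually_gt_atTop 0] with s hs
      exact (continuous_const.mul (hcd s hs)).aestronglyMeasurable
    · filter_upwards [eventually_ge_atTop 2] with s hs
      refine Eventually.of_forall fun n => ?_
      obtain ⟨h1, h2⟩ := hdb s hs n
      rw [Real.norm_eq_abs, abs_of_nonneg h1]
      exact h2
    · exact hint continuous_const
    · exact Eventually.of_forall fun n => hdl n
  have hEl : Tendsto E atTop (𝓝 0) := by
    refine squeeze_zero_norm' (a := fun s => (16 * Real.pi * C ^ 2) * (1 / s)) ?_ ?_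
    · filter_upwards [eventually_ge_atTop 2] with s hs
      rw [Real.norm_eq_abs]
      refine (hEb s hs).trans (le_of_eq ?_)
      ring
    · simpa using hinv.const_mul (16 * Real.pi * C ^ 2)
  -- the square root
  set Y : ℝ → ℝ := fun s => 8 * Real.pi * s + 2 * I s with hY
  have hXl : Tendsto (fun s => Real.sqrt (16 * Real.pi * ∫ n, a s n ∂sm) - Y s) atTop (𝓝 0) := by
    refine squeeze_zero_norm' (a := fun s => (16 * Real.pi * (C ^ 2 * (4 * Real.pi)) + 4 * (C * (4 * Real.pi)) ^ 2) / (4 * Real.pi) *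
      (1 / s)) ?_ ?_
    · filter_upwards [eventually_ge_atTop (max 1 (2 * C + 1))] with s hs
      have hs1 : 1 ≤ s := (le_max_left _ _).trans hs
      have hs2 : 2 * C + 1 ≤ s := (le_max_right _ _).trans hs
      have hs0 : 0 < s := by linarith
      have hI1 := abs_le.1 (hIb s hs1)
      have hJ1 := abs_le.1 (hJb s hs1)
      have hYl : 4 * Real.pi * s ≤ Y s := by
        show 4 * Real.pi * s ≤ 8 * Real.pi * s + 2 * I s
        nlinarith [hI1.1]
      have hY0 : 0 < Y s := lt_of_lt_of_le (by positivity) hYl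
      have hX0 : 0 ≤ Real.sqrt (16 * Real.pi * ∫ n, a s n ∂sm) := Real.sqrt_nonneg _
      have hint0 : 0 ≤ ∫ n, a s n ∂sm := integral_nonneg fun n => (hpos s hs0 n).le
      have hXX : Real.sqrt (16 * Real.pi * ∫ n, a s n ∂sm) ^ 2 = Y s ^ 2 + (16 * Real.pi * J s - 4 * I s ^ 2) := by
        rw [Real.sq_sqrt (by positivity), hAA s hs0]
        show 16 * Real.pi * (4 * Real.pi * s ^ 2 + 2 * s * I s + J s) = (8 * Real.pi * s + 2 * I s) ^ 2 +
          (16 * Real.pi * J s - 4 * I s ^ 2)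
        ring
      have hK : |16 * Real.pi * J s - 4 * I s ^ 2| ≤ 16 * Real.pi * (C ^ 2 * (4 * Real.pi)) + 4 * (C * (4 * Real.pi)) ^ 2 := by
        refine (abs_sub _ _).trans ?_
        have e1 : |16 * Real.pi * J s| ≤ 16 * Real.pi * (C ^ 2 * (4 * Real.pi)) := by
          rw [abs_mul, abs_of_pos (by positivity : (0 : ℝ) < 16 * Real.pi)]
          exact mul_le_mul_of_nonneg_left (hJb s hs1) (by positivity)
        have e2 : |4 * I s ^ 2| ≤ 4 * (C * (4 * Real.pi)) ^ 2 := by
          rw [abs_mul, abs_of_pos (by norm_num : (0 : ℝ) < 4), abs_pow]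
          exact mul_le_mul_of_nonneg_left (pow_le_pow_left₀ (abs_nonneg _) (hIb s hs1) 2) (by norm_num)
        exact add_le_add e1 e2
      have hprod : (Real.sqrt (16 * Real.pi * ∫ n, a s n ∂sm) - Y s) * (Real.sqrt (16 * Real.pi * ∫ n, a s n ∂sm) + Y s) =
          16 * Real.pi * J s - 4 * I s ^ 2 := by
        linear_combination hXX
      rw [Real.norm_eq_abs]
      have h7 : |Real.sqrt (16 * Real.pi * ∫ n, a s n ∂sm) - Y s| * (4 * Real.pi * s) ≤
          16 * Real.pi * (C ^ 2 * (4 * Real.pi)) + 4 * (C * (4 * Real.pi)) ^ 2 := by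
        refine le_trans ?_ hK
        rw [← hprod, abs_mul]
        refine mul_le_mul_of_nonneg_left ?_ (abs_nonneg _)
        rw [abs_of_nonneg (by linarith)]
        linarith
      have h8 : (16 * Real.pi * (C ^ 2 * (4 * Real.pi)) + 4 * (C * (4 * Real.pi)) ^ 2) / (4 * Real.pi) * (1 / s) =
          (16 * Real.pi * (C ^ 2 * (4 * Real.pi)) + 4 * (C * (4 * Real.pi)) ^ 2) / (4 * Real.pi * s) := by
        field_simp
      rw [h8, le_div_iff₀ (by positivity)]
      exact h7
    · simpa using hinv.const_mul ((16 * Real.pi * (C ^ 2 * (4 * Real.pi)) + 4 * (C * (4 * Real.pi)) ^ 2) / (4 * Real.pi))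
  -- the mass term
  have hMl : Tendsto (fun s => 2 * m * (8 * Real.pi + (2 * I s + 2 * D s + 2 * E s) * (1 / s))) atTop (𝓝 (16 * Real.pi * m)) := by
    have h1 : Tendsto (fun s => (2 * I s) * (1 / s)) atTop (𝓝 0) := by
      refine squeeze_zero_norm' (a := fun s => (8 * Real.pi * C) * (1 / s)) ?_ ?_
      · filter_upwards [eventually_ge_atTop 1] with s hs
        have hs0 : 0 < s := by linarith
        rw [Real.norm_eq_abs, abs_mul, abs_of_pos (by positivity : 0 < 1 / s), abs_mul, abs_of_pos (by norm_num : (0 : ℝ) < 2)]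
        refine mul_le_mul_of_nonneg_right ?_ (by positivity)
        have := hIb s hs
        linarith
      · simpa using hinv.const_mul (8 * Real.pi * C)
    have h2 : Tendsto (fun s => (2 * D s + 2 * E s) * (1 / s)) atTop (𝓝 0) := by
      have := ((hDl.const_mul 2).add (hEl.const_mul 2)).mul hinv
      simpa using this
    have h3 := ((h1.add h2).const_add (8 * Real.pi)).const_mul (2 * m)
    have h4 : 2 * m * (8 * Real.pi + (0 + 0)) = 16 * Real.pi * m := by ring
    rw [h4] at h3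
    refine h3.congr fun s => ?_
    ring
  have hfin := (hXl.sub ((hDl.const_mul 2).add (hEl.const_mul 2))).add hMl
  have h0 : (0 : ℝ) - (2 * 0 + 2 * 0) + 16 * Real.pi * m = 16 * Real.pi * m := by ring
  rw [h0] at hfin
  refine hfin.congr' ?_
  filter_upwards [eventually_gt_atTop 0] with s hs
  have h1 : ∫ n, (1 - 2 * m / s) * e s n * a s n ∂sm = (1 - 2 * m / s) * ∫ n, e s n * a s n ∂sm := by
    rw [← integral_const_mul]
    refine integral_congr_ae (Eventually.of_forall fun n => ?_)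
    show (1 - 2 * m / s) * e s n * a s n = (1 - 2 * m / s) * (e s n * a s n)
    ring
  rw [h1, hEA s hs]
  show Real.sqrt (16 * Real.pi * ∫ n, a s n ∂sm) - (8 * Real.pi * s + 2 * I s) - (2 * D s + 2 * E s) +
    2 * m * (8 * Real.pi + (2 * I s + 2 * D s + 2 * E s) * (1 / s)) =
    Real.sqrt (16 * Real.pi * ∫ n, a s n ∂sm) - (1 - 2 * m / s) * (8 * Real.pi * s + 2 * I s + 2 * D s + 2 * E s)
  field_simp
  ring

end H17W
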