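import Pool.Agent.Lib.H17W.E8B
import Pool.Agent.Lib.H17W.E9B

set_option autoImplicit false

/-!
# H17W, chunk EB (M): the Bondi energy of the null hypersurface

`e9b` with `a s n = dA (s, n)`, `e s n = exl (s, n)` (`j_area`, `e3_det`, `j_exl` and `hray`, `eq_ds`; continuity in `n` from `j_dA`, `j_exl`; `hC`: `Os.global`
of `e3_dA`). `∫ θ dA = ∫ (1 - 2m/s) exl dA + 2 ε ∫ divx dA + ∫ (Os (-3)) dA` (`e7_tht`), the second integral is zero (`e8_int`), the third is
`≤ C s⁻³ · C' s² · 4π → 0` (`e3_dA2`). Integrability: continuous functions on the sphere (`integrable_S2`; `divx` is continuous in `n` since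
`divx * dA` etc.: it suffices to write `2 ε divx dA = θ dA - (1 - 2m/s) exl dA - (rest)` and to have continuity of `divx`, which follows from `e7_id`:
the right side is continuous, `j_qq`, `j_tht`, `j_exl`, `j_xx`, `j_ll`, `j_kk`, `j_met`, and `∂_0 G_ab ∘ Φ` is continuous by `Reg.met`).
-/

open MeasureTheory Filter Topology Set Asymptotics
open scoped ContDiff

namespace H17W

open H17T (E4 pt pos tang slice second DEC)
open H17B (eta dl)
open Pool.Agent.Lib.PenroseSph (E3 Tens S2 sm pd)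

variable {G : E4 → Matrix (Fin 4) (Fin 4) ℝ} {Ψ : ℝ × E3 → E4} {W : Set (ℝ × E3)} {ε m : ℝ}

theorem eb_ne (n : S2) : (n : E3) ≠ 0 := by
  intro h
  have h1 : ‖(n : E3)‖ = 1 := by simp
  rw [h, norm_zero] at h1
  exact zero_ne_one h1

/-- from continuity at the points of the sphere to continuity on the sphere -/
theorem eb_cont {F : ℝ × E3 → ℝ} {s : ℝ} (h : ∀ n : S2, ContinuousAt F (s, (n : E3))) :
    Continuous fun n : S2 => F (s, (n : E3)) := by
  rw [continuous_iff_continuousAt]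
  intro n
  have h2 : ContinuousAt (fun q : S2 => ((s, (q : E3)) : ℝ × E3)) n := by fun_prop
  exact ContinuousAt.comp (g := F) (h n) h2

theorem eb_ip (hR : Reg G Ψ W) {A B : ℝ × E3 → Fin 4 → ℝ} {p : ℝ × E3} (hp : p ∈ W)
    (hA : ∀ a, ContinuousAt (fun q => A q a) p) (hB : ∀ a, ContinuousAt (fun q => B q a) p) :
    ContinuousAt (fun q => ip G (Ph Ψ q) (A q) (B q)) p := by
  unfold ip
  refine tendsto_finsetSum _ fun a _ => tendsto_finsetSum _ fun b _ => ?_
  exact (((j_met hR hp a b).continuousAt).mul (hA a)).mul (hB b)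

/-- the right side of `e7_id` -/
noncomputable def ebD (G : E4 → Matrix (Fin 4) (Fin 4) ℝ) (Ψ : ℝ × E3 → E4) (p : ℝ × E3) : ℝ :=
  (∑ i, ∑ j, QQ G Ψ i j p * ∑ a, ∑ b, H31R.pd 0 (fun q => G q a b) (Ph Ψ p) *
        XX Ψ i p a * XX Ψ j p b) / 2 -
      (ip G (Ph Ψ p) xi (LL Ψ p) * tht G Ψ p + ip G (Ph Ψ p) xi (kk G Ψ p) * exl G Ψ p) / 2

theorem eb_D (hR : Reg G Ψ W) {p : ℝ × E3} (hp : p ∈ W) : ContinuousAt (ebD G Ψ) p := by
  have hx : ∀ i a, ContinuousAt (fun q => XX Ψ i q a) p := fun i a => (j_xx hR hp i a).continuousAt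
  have hg : ∀ a b, ContinuousAt (fun q => H31R.pd 0 (fun q => G q a b) (Ph Ψ q)) p := by
    intro a b
    have h1 : ContDiffAt ℝ ∞ (fun q' => G q' a b) (Ph Ψ p) := (hR.met p hp).smooth.self_of_nhds a b
    have h2 : ContinuousAt (fderiv ℝ (fun q' => G q' a b)) (Ph Ψ p) :=
      (h1.fderiv_right (m := 0) (by simp)).continuousAt
    have h3 : ContinuousAt (Ph Ψ) p := (hR.smooth p hp).continuousAt
    have h4 : ContinuousAt (fun q => fderiv ℝ (fun q' => G q' a b) (Ph Ψ q)) p :=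
      ContinuousAt.comp (g := fderiv ℝ (fun q' => G q' a b)) h2 h3
    exact h4.clm_apply continuousAt_const
  unfold ebD
  refine ContinuousAt.sub (ContinuousAt.div_const ?_ 2) (ContinuousAt.div_const (ContinuousAt.add ?_ ?_) 2)
  · refine tendsto_finsetSum _ fun i _ => tendsto_finsetSum _ fun j _ => ?_
    refine ((j_qq hR hp i j).continuousAt).mul ?_
    refine tendsto_finsetSum _ fun a _ => tendsto_finsetSum _ fun b _ => ?_
    exact ((hg a b).mul (hx i a)).mul (hx j b)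
  · have h1 : ContinuousAt (fun q => ip G (Ph Ψ q) xi (LL Ψ q)) p :=
      eb_ip (A := fun _ => xi) (B := LL Ψ) hR hp (fun a => continuousAt_const)
        (fun a => (j_ll hR hp a).continuousAt)
    exact h1.mul (j_tht hR hp).continuousAt
  · have h1 : ContinuousAt (fun q => ip G (Ph Ψ q) xi (kk G Ψ q)) p :=
      eb_ip (A := fun _ => xi) (B := kk G Ψ) hR hp (fun a => continuousAt_const)
        (fun a => (j_kk hR hp a).continuousAt)
    exact h1.mul (j_exl hR hp).continuousAt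

theorem eb_divx (hR : Reg G Ψ W) {s : ℝ} (hs : 0 < s) : Continuous fun n : S2 => divx G Ψ (s, (n : E3)) := by
  have h1 : (fun n : S2 => divx G Ψ (s, (n : E3))) = fun n : S2 => ebD G Ψ (s, (n : E3)) := by
    funext n
    exact e7_id hR hs (eb_ne n)
  rw [h1]
  exact eb_cont fun n => eb_D hR (hR.mem s hs.le n (eb_ne n))

/-- The Bondi energy. The hypothesis `hray` is Raychaudhuri's inequality. -/
theorem bondi (hR : Reg G Ψ W) {ε m : ℝ} (hε : ε = 1 ∨ ε = -1) (hF : ConeFlat ε Ψ)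
    (hS : ∃ C R : ℝ, ∀ s : ℝ, R ≤ s → ∀ n : S2, NearSchw G m C (Ψ (s, (n : E3))))
    (hray : ∀ s : ℝ, 0 < s → ∀ n : S2, fderiv ℝ (exl G Ψ) (s, (n : E3)) dS ≤ -(exl G Ψ (s, (n : E3)) ^ 2 / 2)) :
    Tendsto (fun s : ℝ => (Real.sqrt (16 * Real.pi * ∫ n : S2, dA G Ψ (s, (n : E3)) ∂sm) -
      ∫ n : S2, tht G Ψ (s, (n : E3)) * dA G Ψ (s, (n : E3)) ∂sm) / (16 * Real.pi)) atTop (𝓝 m) := by
  have hFar : Far G Ψ W ε m := ⟨hR, hF, hS⟩
  have hmem : ∀ s : ℝ, 0 < s → ∀ n : S2, (s, (n : E3)) ∈ W := fun s hs n => hR.mem s hs.le n (eb_ne n)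
  have cdA : ∀ s : ℝ, 0 < s → Continuous fun n : S2 => dA G Ψ (s, (n : E3)) := fun s hs =>
    eb_cont fun n => (j_dA hR (hmem s hs n)).continuousAt
  have cex : ∀ s : ℝ, 0 < s → Continuous fun n : S2 => exl G Ψ (s, (n : E3)) := fun s hs =>
    eb_cont fun n => (j_exl hR (hmem s hs n)).continuousAt
  have cth : ∀ s : ℝ, 0 < s → Continuous fun n : S2 => tht G Ψ (s, (n : E3)) := fun s hs =>
    eb_cont fun n => (j_tht hR (hmem s hs n)).continuousAt
  obtain ⟨C, hC0, hC⟩ := (e3_dA hFar).global (fun s hs n => by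
    have hs0 : 0 < s := lt_of_lt_of_le one_pos hs
    exact (j_dA hR (hmem s hs0 n)).continuousAt.sub (continuousAt_fst.pow 2))
  have key := e9b (a := fun s n => dA G Ψ (s, (n : E3))) (e := fun s n => exl G Ψ (s, (n : E3))) (C := C) (m := m)
    (fun s hs n => j_area hR hs (eb_ne n))
    (fun s hs n => Real.sqrt_pos.mpr (e3_det hR hs.le (eb_ne n)))
    (fun s hs n => ⟨_, eq_ds ((j_exl hR (hmem s hs n)).differentiableAt (by simp)), hray s hs n⟩)
    cdA cex
    (fun s hs n => by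
      have := hC s hs n
      rw [zpow_one] at this
      exact this)
  -- the remainder
  set rest : ℝ × E3 → ℝ := fun p => tht G Ψ p - (1 - 2 * m / p.1) * exl G Ψ p - 2 * ε * divx G Ψ p with hrest
  obtain ⟨C1, R1, hR1, hC1, hb1⟩ := (e7_tht hFar hε).bound
  obtain ⟨C2, R2, hR2, hC2, hb2⟩ := (e3_dA2 hFar).bound
  have hsm : sm.real Set.univ = 4 * Real.pi := Pool.Agent.Lib.PenroseSph.sm_univ
  have hint : ∀ s : ℝ, 0 < s → ∫ n : S2, tht G Ψ (s, (n : E3)) * dA G Ψ (s, (n : E3)) ∂sm =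
      ∫ n : S2, (1 - 2 * m / s) * exl G Ψ (s, (n : E3)) * dA G Ψ (s, (n : E3)) ∂sm +
      ∫ n : S2, rest (s, (n : E3)) * dA G Ψ (s, (n : E3)) ∂sm := by
    intro s hs
    have c1 : Continuous fun n : S2 => (1 - 2 * m / s) * exl G Ψ (s, (n : E3)) * dA G Ψ (s, (n : E3)) :=
      (continuous_const.mul (cex s hs)).mul (cdA s hs)
    have c2 : Continuous fun n : S2 => divx G Ψ (s, (n : E3)) * dA G Ψ (s, (n : E3)) :=
      (eb_divx hR hs).mul (cdA s hs)
    have d1 : Continuous fun n : S2 => (1 - 2 * m / s) * exl G Ψ (s, (n : E3)) := continuous_const.mul (cex s hs)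
    have d2 : Continuous fun n : S2 => (2 * ε) * divx G Ψ (s, (n : E3)) := continuous_const.mul (eb_divx hR hs)
    have d3 : Continuous fun n : S2 => tht G Ψ (s, (n : E3)) - (1 - 2 * m / s) * exl G Ψ (s, (n : E3)) -
        (2 * ε) * divx G Ψ (s, (n : E3)) := ((cth s hs).sub d1).sub d2
    have c3 : Continuous fun n : S2 => rest (s, (n : E3)) * dA G Ψ (s, (n : E3)) := d3.mul (cdA s hs)
    have i1 := Pool.Agent.Lib.PenroseSph.integrable_S2 c1
    have i2 := Pool.Agent.Lib.PenroseSph.integrable_S2 c2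
    have i3 := Pool.Agent.Lib.PenroseSph.integrable_S2 c3
    have e1 : ∫ n : S2, tht G Ψ (s, (n : E3)) * dA G Ψ (s, (n : E3)) ∂sm =
        ∫ n : S2, ((1 - 2 * m / s) * exl G Ψ (s, (n : E3)) * dA G Ψ (s, (n : E3)) +
          rest (s, (n : E3)) * dA G Ψ (s, (n : E3))) + 2 * ε * (divx G Ψ (s, (n : E3)) * dA G Ψ (s, (n : E3))) ∂sm := by
      refine integral_congr_ae (Eventually.of_forall fun n => ?_)
      simp only [hrest]
      ring
    have i13 : Integrable (fun n : S2 => (1 - 2 * m / s) * exl G Ψ (s, (n : E3)) * dA G Ψ (s, (n : E3)) +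
        rest (s, (n : E3)) * dA G Ψ (s, (n : E3))) sm := i1.add i3
    have i4 : Integrable (fun n : S2 => 2 * ε * (divx G Ψ (s, (n : E3)) * dA G Ψ (s, (n : E3)))) sm :=
      i2.const_mul _
    rw [e1, integral_add i13 i4, integral_add i1 i3, integral_const_mul, e8_int hR hs.le,
      mul_zero, add_zero]
  have hrem : Tendsto (fun s : ℝ => ∫ n : S2, rest (s, (n : E3)) * dA G Ψ (s, (n : E3)) ∂sm) atTop (𝓝 0) := by
    have hbd : ∀ᶠ s : ℝ in atTop, ‖∫ n : S2, rest (s, (n : E3)) * dA G Ψ (s, (n : E3)) ∂sm‖ ≤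
        C1 * C2 * (4 * Real.pi) * s⁻¹ := by
      filter_upwards [eventually_ge_atTop R1, eventually_ge_atTop R2] with s h1 h2
      have hs0 : 0 < s := lt_of_lt_of_le one_pos (hR1.trans h1)
      have hpt : ∀ n : S2, ‖rest (s, (n : E3)) * dA G Ψ (s, (n : E3))‖ ≤ C1 * C2 * s⁻¹ := by
        intro n
        rw [norm_mul, Real.norm_eq_abs, Real.norm_eq_abs]
        have a1 := hb1 s h1 n
        have a2 := hb2 s h2 n
        have hz : s ^ (-3 : ℤ) * s ^ (2 : ℤ) = s⁻¹ := by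
          rw [← zpow_add₀ hs0.ne']
          norm_num
        calc |rest (s, (n : E3))| * |dA G Ψ (s, (n : E3))| ≤ (C1 * s ^ (-3 : ℤ)) * (C2 * s ^ (2 : ℤ)) :=
              mul_le_mul a1 a2 (abs_nonneg _) (mul_nonneg hC1 (zpow_pos hs0 _).le)
          _ = C1 * C2 * (s ^ (-3 : ℤ) * s ^ (2 : ℤ)) := by ring
          _ = C1 * C2 * s⁻¹ := by rw [hz]
      have h3 := norm_integral_le_of_norm_le_const (μ := sm) (Eventually.of_forall hpt)
      rw [hsm] at h3
      calc _ ≤ C1 * C2 * s⁻¹ * (4 * Real.pi) := h3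
        _ = _ := by ring
    have hlim : Tendsto (fun s : ℝ => C1 * C2 * (4 * Real.pi) * s⁻¹) atTop (𝓝 0) := by
      have := tendsto_inv_atTop_zero (𝕜 := ℝ)
      simpa using this.const_mul (C1 * C2 * (4 * Real.pi))
    exact squeeze_zero_norm' hbd hlim
  have hfin := (key.sub hrem).div_const (16 * Real.pi)
  have hpi : (16 * Real.pi) ≠ 0 := by positivity
  have hm : (16 * Real.pi * m - 0) / (16 * Real.pi) = m := by
    rw [sub_zero]
    field_simp
  rw [hm] at hfin
  refine hfin.congr' ?_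
  filter_upwards [eventually_gt_atTop 0] with s hs
  rw [hint s hs]
  ring

end H17W
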