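import Pool.Agent.Lib.H17W.Defs
import Pool.Agent.Lib.H17B.B3B
import Pool.Agent.Lib.H17B.B5

set_option autoImplicit false

/-!
# H17W, module E: the leading part of the Schwarzschild metric
-/

open MeasureTheory Filter Topology Set Asymptotics
open scoped ContDiff

namespace H17W

open H17T H17B
open Pool.Agent.Lib.PenroseSph (E3 Tens S2 sm pd trg fluxDensity momDensity admFlux admMom DefFun meanCurv trLevel)

theorem eg9_inv_has {f : E3 → ℝ} {x : E3} (hx : 0 < ‖x‖) : HasFDerivAt (fun p : E4 => 1 / ‖pos p‖)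
    ((-(‖x‖ ^ 2)⁻¹) • ((‖pos (PP f x)‖⁻¹ • innerSL ℝ (pos (PP f x))).comp b3b_pos)) (PP f x) := by
  have h1 := b3b_rho (b3b_ne f hx)
  have h2 : HasDerivAt (fun t : ℝ => t⁻¹) (-(‖x‖ ^ 2)⁻¹) ‖pos (PP f x)‖ := by
    rw [b3b_pp]
    exact hasDerivAt_inv hx.ne'
  have h3 := h2.comp_hasFDerivAt (PP f x) h1
  refine h3.congr_of_eventuallyEq (Eventually.of_forall fun p => ?_)
  show 1 / ‖pos p‖ = ‖pos p‖⁻¹
  rw [one_div]

theorem schw_eq (m : ℝ) (p : E4) (a b : Fin 4) : schw m p a b = eta a b + 2 * m * dl a b * (1 / ‖pos p‖) := by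
  unfold schw
  by_cases hab : a = b
  · subst hab
    rw [Matrix.diagonal_apply_eq]
    refine Fin.cases ?_ (fun i => ?_) a
    · simp only [Fin.cases_zero, eta, dl, if_true]
      ring
    · simp only [Fin.cases_succ, eta, dl, if_true, Fin.succ_ne_zero, if_false]
      ring
  · rw [Matrix.diagonal_apply_ne _ hab]
    simp [eta, dl, hab]

end H17W
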