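import Pool.Agent.Lib.H17W.EG8
import Pool.Agent.Lib.H17W.ES
import Pool.Agent.Lib.H17B.MainV

set_option autoImplicit false

/-!
# H17W, module E (ADM part): from the hypotheses to the limits
-/

open MeasureTheory Filter Topology Set Asymptotics
open scoped ContDiff

namespace H17W

open H17T H17B
open Pool.Agent.Lib.PenroseSph (E3 Tens S2 sm pd trg fluxDensity momDensity admFlux admMom DefFun meanCurv trLevel)

theorem ex_inv (f : E3 → ℝ) : Ex f 0 1 fun p => 1 / ‖pos p‖ := by
  have hev : ∀ᶠ x : E3 in LL, 0 < ‖x‖ := by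
    filter_upwards [tendsto_norm_cobounded_atTop.eventually_ge_atTop (1 : ℝ)] with x hx
    linarith
  refine ⟨?_, fun a => ?_, ?_⟩
  · have e : (fun x : E3 => (fun p : E4 => 1 / ‖pos p‖) (PP f x) - (0 + 1 / ‖x‖)) = fun _ => (0 : ℝ) := by
      funext x
      simp only [b3b_pp, zero_add, sub_self]
    show (fun x : E3 => (fun p : E4 => 1 / ‖pos p‖) (PP f x) - (0 + 1 / ‖x‖)) =O[LL] _
    rw [e]
    exact isBigO_zero _ _
  · refine (isBigO_zero (fun x : E3 => (‖x‖ ^ 3)⁻¹) LL).congr' ?_ EventuallyEq.rfl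
    filter_upwards [hev] with x hx
    have h1 := eg9_inv_has (f := f) hx
    have h2 : H31R.pd a (fun p : E4 => 1 / ‖pos p‖) (PP f x) = -(‖x‖ ^ 2)⁻¹ * om x a := by
      show fderiv ℝ (fun p : E4 => 1 / ‖pos p‖) (PP f x) (H31R.ebas a) = _
      rw [h1.fderiv]
      show -(‖x‖ ^ 2)⁻¹ * ((‖pos (PP f x)‖⁻¹ • innerSL ℝ (pos (PP f x))).comp b3b_pos) (H31R.ebas a) = _
      rw [b3b_ap, b3b_pp]
    rw [h2]
    ring
  · filter_upwards [hev] with x hx
    exact (eg9_inv_has (f := f) hx).differentiableAt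

theorem ex_schw (m : ℝ) (f : E3 → ℝ) (a b : Fin 4) : Ex f (eta a b) (2 * m * dl a b) fun p => schw m p a b := by
  have h := (Ex.const f (eta a b)).add ((Ex.const f (2 * m * dl a b)).mul (ex_inv f))
  have e : (fun p : E4 => eta a b + 2 * m * dl a b * (1 / ‖pos p‖)) = fun p => schw m p a b := by
    funext p
    exact (schw_eq m p a b).symm
  rw [e] at h
  have e1 : eta a b + 2 * m * dl a b * 0 = eta a b := by ring
  have e2 : (0 : ℝ) + (2 * m * dl a b * 1 + 0 * 0) = 2 * m * dl a b := by ring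
  rwa [e1, e2] at h

theorem st_det {U : Set E4} {G : E4 → Matrix (Fin 4) (Fin 4) ℝ} (hG : SpaceTime U G) {p : E4} (hp : p ∈ U) :
    (G p).det ≠ 0 := by
  intro h
  have h1 := hG.time p hp
  have h2 : (G p)⁻¹ = 0 := Matrix.nonsing_inv_apply_not_isUnit _ (by rw [h]; exact not_isUnit_zero)
  rw [h2] at h1
  exact lt_irrefl _ h1

theorem gend_of {U : Set E4} {G : E4 → Matrix (Fin 4) (Fin 4) ℝ} {O : Set E3} {f : E3 → ℝ} {m β : ℝ}
    (hG : SpaceTime U G) (hX : Exterior U G f O) (hA : AsympSchw G f m β) :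
    ∃ C R : ℝ, (∀ x : E3, R < ‖x‖ → x ∉ O) ∧ H17G.GEnd G f m β C R := by
  obtain ⟨C₁, R₁, hR₁, h₁⟩ := hA.f_decay
  obtain ⟨C₂, R₂, hR₂, h₂⟩ := hA.slice_decay
  obtain ⟨R₃, hR₃⟩ := hX.bounded.subset_ball (0 : E3)
  set R := max (max R₁ R₂) R₃ with hR
  have hO : ∀ x : E3, R ≤ ‖x‖ → x ∉ O := by
    intro x hx hxO
    have h1 := hR₃ hxO
    rw [mem_ball_zero_iff] at h1
    exact absurd (h1.trans_le ((le_max_right _ _).trans hx)) (lt_irrefl _)
  have a1 : R₁ ≤ R := (le_max_left _ _).trans (le_max_left _ _)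
  have a2 : R₂ ≤ R := (le_max_right _ _).trans (le_max_left _ _)
  have hRp : 0 < R := hR₁.trans_le a1
  have hsm : ∀ x : E3, R ≤ ‖x‖ → ∀ a b, ContDiffAt ℝ ∞ (fun p => G p a b) (PP f x) := fun x hx a b =>
    (hG.smooth a b).contDiffAt (hG.isOpen.mem_nhds (hX.mem x (hO x hx)))
  refine ⟨C₁, R, fun x hx => hO x hx.le, ⟨hA.beta, hRp, fun x hx => hX.smooth x (hO x hx), fun x hx i => ?_,
    fun x hx i j => ?_, hsm, fun x hx => st_det hG (hX.mem x (hO x hx)), fun a b => ?_⟩⟩
  · exact (h₁ x (a1.trans hx)).1 i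
  · exact (h₁ x (a1.trans hx)).2 i j
  · have hs := ex_schw m f a b
    have hev : ∀ᶠ x : E3 in LL, R ≤ ‖x‖ := tendsto_norm_cobounded_atTop.eventually_ge_atTop R
    have hD : Ex f 0 0 fun p => G p a b - schw m p a b := by
      refine ⟨?_, fun c => ?_, ?_⟩
      · refine b3b_bound (R := R) (C := C₂) 2 fun x hx => ?_
        have h := (h₂ x (a2.trans hx) a b).1
        have e : pos (pt (f x) x) = x := b3b_pp f x
        rw [e] at h
        have e2 : G (PP f x) a b - schw m (PP f x) a b - (0 + 0 / ‖x‖) = G (pt (f x) x) a b - schw m (pt (f x) x) a b := by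
          simp [PP]
        rw [e2]
        exact h
      · refine b3b_bound (R := R) (C := C₂) 3 fun x hx => ?_
        have h := (h₂ x (a2.trans hx) a b).2 c
        have e : pos (pt (f x) x) = x := b3b_pp f x
        rw [e] at h
        have e2 : H31R.pd c (fun p => G p a b - schw m p a b) (PP f x) + 0 / ‖x‖ ^ 2 * om x c =
            H31R.pd c (fun q => G q a b - schw m q a b) (pt (f x) x) := by
          simp [PP]
        rw [e2]
        exact h
      · filter_upwards [hev, hs.diff] with x hx hd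
        exact ((hsm x hx a b).differentiableAt (by simp)).sub hd
    have h := hD.add hs
    have e : (fun p : E4 => G p a b - schw m p a b + schw m p a b) = fun p => G p a b := by
      funext p
      ring
    rw [e] at h
    simpa using h

/-- The ADM energy and momentum of the spacelike hypersurface. -/
theorem adm {U : Set E4} {G : E4 → Matrix (Fin 4) (Fin 4) ℝ} {O : Set E3} {f : E3 → ℝ} {m β ε : ℝ}
    {g h : Tens} (hG : SpaceTime U G) (hX : Exterior U G f O)
    (hA : AsympSchw G f m β) (hε : ε = 1 ∨ ε = -1) (hg : ∀ x : E3, x ∉ O → g x = slice G f x)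
    (hh : ∀ x : E3, x ∉ O → h x = ε • second G f x) :
    Tendsto (admFlux (boost β g)) atTop (𝓝 (lor β * m)) ∧ ∃ P : Fin 3 → ℝ,
      (∀ i, Tendsto (admMom (boost β g) (boost β h) i) atTop (𝓝 (P i))) ∧ ∑ i, P i ^ 2 = β ^ 2 * (lor β * m) ^ 2 := by
  obtain ⟨C, R, hO, hB⟩ := gend_of hG hX hA
  have hR0 : 0 ≤ R := hB.R_pos.le
  have hg' : ∀ x : E3, R < ‖x‖ → g x = slice G f x := fun x hx => hg x (hO x hx)
  have hh' : ∀ x : E3, R < ‖x‖ → h x = ε • second G f x := fun x hx => hh x (hO x hx)
  refine ⟨?_, fun i => ε * (lor β * β * m * dz i), fun i => ?_, ?_⟩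
  · refine (H17G.energy_lim hB).congr' ?_
    filter_upwards [eventually_gt_atTop R] with t ht
    exact (H17V.admFlux_congr hR0 (H17V.boost_congr hB.beta hg') ht).symm
  · have h1 : Tendsto (admMom (boost β (slice G f)) (boost β fun x => ε • second G f x) i) atTop
        (𝓝 (ε * (lor β * β * m * dz i))) := by
      rcases hε with hε | hε
      · have e : (fun x => ε • second G f x) = second G f := by
          funext x
          rw [hε, one_smul]
        rw [e, hε, one_mul]
        exact H17G.momentum_lim hB i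
      · have e : (fun x => ε • second G f x) = fun x => -second G f x := by
          funext x
          rw [hε, neg_one_smul]
        rw [e, hε, H17V.boost_neg, H17V.admMom_neg, neg_one_mul]
        exact (H17G.momentum_lim hB i).neg
    refine h1.congr' ?_
    filter_upwards [eventually_gt_atTop R] with t ht
    exact (H17V.admMom_congr hR0 (H17V.boost_congr hB.beta hg') (H17V.boost_congr hB.beta hh') i ht).symm
  · have hε2 : ε ^ 2 = 1 := by
      rcases hε with hε | hε <;> rw [hε] <;> norm_num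
    rw [Fin.sum_univ_three]
    unfold dz
    simp only [if_true, Fin.isValue, one_ne_zero, if_false, Fin.reduceEq]
    linear_combination (β ^ 2 * (lor β * m) ^ 2) * hε2

end H17W
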