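import Pool.Agent.Lib.H17W.EF
import Pool.Agent.Lib.H17W.EB
import Pool.Agent.Lib.H17W.EG9

set_option autoImplicit false

/-!
# H17W, module E: interface (helper6)

`flat` (EF.lean), `bondi` (EB.lean), `adm` (EG9.lean).
-/
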