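import Pool.Agent.Lib.H17W.D1C
import Pool.Agent.Lib.H17W.D2B
import Pool.Agent.Lib.H17W.D4C
import Pool.Agent.Lib.H17W.D4D
import Pool.Agent.Lib.H17W.EI

set_option autoImplicit false

/-!
# H17W, chunk D4E (S): the constraint equations of the data

Auxiliary names start with `d4e_`.
-/

open MeasureTheory Filter Topology Set
open scoped ContDiff

namespace H17W

open H17T (E4 pt pos)
open Pool.Agent.Lib.PenroseSph (E3 S2 sm pd)

variable {U : Set E4} {G : E4 → Matrix (Fin 4) (Fin 4) ℝ} {Ψ : ℝ × E3 → E4} {W : Set (ℝ × E3)} {ψ : ℝ × E3 → ℝ}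

/-- The constraint equations and the dominant energy condition. -/
theorem data_isNull (hG : SpaceTime U G) (hN : NullCone U G Ψ) (hR : Reg G Ψ W) (hc : Cut W ψ) : (data G Ψ ψ).IsNull := by
  obtain ⟨s1, s2, s3, s4, s5⟩ := data_smooth hR hc
  exact {
    smooth_g := s1
    smooth_ζ := s2
    smooth_j := s3
    cont_θ := s4.continuous
    cont_ρ := s5.continuous
    g_symm := fun s hs n => (data_alg hR hc hs n).1
    g_tan := fun s hs n => (data_alg hR hc hs n).2.1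
    g_pos := fun s hs n => (data_alg hR hc hs n).2.2.1
    gi_symm := fun s hs n => (data_alg hR hc hs n).2.2.2.1
    gi_tan := fun s hs n => (data_alg hR hc hs n).2.2.2.2.1
    gi_inv := fun s hs n => (data_alg hR hc hs n).2.2.2.2.2.1
    ζ_tan := fun s hs n => (data_alg hR hc hs n).2.2.2.2.2.2.1
    j_tan := fun s hs n => (data_alg hR hc hs n).2.2.2.2.2.2.2
    e_nonneg := fun s hs n => ee_nonneg hN hR hs n
    ρ_nonneg := fun s hs n => by
      show 0 ≤ ψ (s, (n : E3)) * rr G Ψ (s, (n : E3))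
      rw [cut_eq hc hs n, one_mul]
      exact (dec_data hG hN hR hs n).1
    dec := fun s hs n => by
      show ∑ i, ∑ k, QQ G Ψ i k (s, (n : E3)) * (ψ (s, (n : E3)) * jj G Ψ i (s, (n : E3))) *
        (ψ (s, (n : E3)) * jj G Ψ k (s, (n : E3))) ≤ ee G Ψ (s, (n : E3)) * (ψ (s, (n : E3)) * rr G Ψ (s, (n : E3)))
      simp only [cut_eq hc hs n, one_mul]
      exact (dec_data hG hN hR hs n).2
    ray := fun s hs n => data_ray hR hc hs n
    torsion := fun V hV hT s hs => data_torsion hR hc hV hT hs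
    expansion := fun s hs => data_expansion hR hc hs }

theorem d4e_pd {f g : E3 → ℝ} {x : E3} (h : f =ᶠ[𝓝 x] g) (hg : DifferentiableAt ℝ g x) (k : Fin 3) :
    NullPen.pd k f x = pd k g x := by
  unfold NullPen.pd pd
  have h1 : HasDerivAt (fun r : ℝ => x + r • EuclideanSpace.single k (1 : ℝ)) (EuclideanSpace.single k (1 : ℝ)) 0 := by
    have h := ((hasDerivAt_id (0 : ℝ)).smul_const (EuclideanSpace.single k (1 : ℝ) : E3)).const_add x
    simpa using h
  have h3 : HasFDerivAt g (fderiv ℝ g x) (x + (0 : ℝ) • EuclideanSpace.single k (1 : ℝ)) := by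
    simpa using hg.hasFDerivAt
  have h4 := (h3.comp_hasDerivAt (0 : ℝ) h1)
  have h5 : (fun r : ℝ => f (x + r • EuclideanSpace.single k (1 : ℝ))) =ᶠ[𝓝 0] (g ∘ fun r : ℝ => x + r • EuclideanSpace.single k (1 : ℝ)) := by
    have h6 : Tendsto (fun r : ℝ => x + r • (EuclideanSpace.single k (1 : ℝ) : E3)) (𝓝 0) (𝓝 x) := by
      have := h1.continuousAt.tendsto
      simpa using this
    exact h6.eventually h
  rw [h5.deriv_eq, h4.deriv]

/-- Asymptotic flatness (`flat`; `NullPen.pd` of the data, which agree with `hh` near the sphere). -/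
theorem data_flat (hR : Reg G Ψ W) (hc : Cut W ψ) {ε m : ℝ} (hF : ConeFlat ε Ψ)
    (hS : ∃ C R : ℝ, ∀ s : ℝ, R ≤ s → ∀ n : S2, NearSchw G m C (Ψ (s, (n : E3)))) : (data G Ψ ψ).AsympFlat := by
  obtain ⟨C, hC⟩ := flat hR hF hS
  refine ⟨C, fun s hs n i j => ?_⟩
  have hs0 : (0 : ℝ) ≤ s := by linarith
  obtain ⟨h1, h2⟩ := hC s hs n i j
  refine ⟨?_, fun v hv hv1 => ?_⟩
  · show |ψ (s, (n : E3)) * hh G Ψ i j (s, (n : E3)) - s ^ 2 * ((if i = j then 1 else 0) - (n : E3) i * (n : E3) j)| ≤ C * s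
    rw [cut_eq hc hs0 n, one_mul]
    exact h1
  · have h3 := h2 v hv hv1
    have hm := hR.mem s hs0 n (d3d_ne n)
    have h4 : (fun y : E3 => (data G Ψ ψ).g s y i j - s ^ 2 * NullPen.proj y i j) =ᶠ[𝓝 (n : E3)]
        (fun y => hh G Ψ i j (s, y) - s ^ 2 * ((if i = j then 1 else 0) - y i * y j)) := by
      have h5 : Tendsto (fun y : E3 => ((s, y) : ℝ × E3)) (𝓝 (n : E3)) (𝓝 (s, (n : E3))) := d3d_pair.tendsto
      filter_upwards [h5.eventually (hc.one s hs0 n)] with y hy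
      show ψ (s, y) * hh G Ψ i j (s, y) - s ^ 2 * ((if i = j then 1 else 0) - y i * y j) = _
      rw [hy, one_mul]
    have h6 : DifferentiableAt ℝ (fun y : E3 => hh G Ψ i j (s, y) - s ^ 2 * ((if i = j then 1 else 0) - y i * y j)) (n : E3) := by
      have h7 : DifferentiableAt ℝ (fun y : E3 => hh G Ψ i j (s, y)) (n : E3) :=
        (d3d_slice (hh_smooth hR hm i j)).differentiableAt (by simp)
      have h8 : ∀ l : Fin 3, DifferentiableAt ℝ (fun y : E3 => y l) (n : E3) := fun l =>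
        (EuclideanSpace.proj (𝕜 := ℝ) l : E3 →L[ℝ] ℝ).differentiableAt
      exact h7.sub (((differentiableAt_const _).sub ((h8 i).mul (h8 j))).const_mul _)
    have h9 : ∑ k, v k * NullPen.pd k (fun y => (data G Ψ ψ).g s y i j - s ^ 2 * NullPen.proj y i j) n =
        ∑ k, v k * pd k (fun y => hh G Ψ i j (s, y) - s ^ 2 * ((if i = j then 1 else 0) - y i * y j)) n :=
      Finset.sum_congr rfl fun k _ => by rw [d4e_pd h4 h6 k]
    rw [h9]
    exact h3

/-- The Bondi energy (`bondi`; `ray`, `chi_cs`, `ee_nonneg`). -/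
theorem data_bondi (hG : SpaceTime U G) (hN : NullCone U G Ψ) (hR : Reg G Ψ W) (hc : Cut W ψ) {ε m : ℝ} (hε : ε = 1 ∨ ε = -1)
    (hF : ConeFlat ε Ψ) (hS : ∃ C R : ℝ, ∀ s : ℝ, R ≤ s → ∀ n : S2, NearSchw G m C (Ψ (s, (n : E3)))) :
    (data G Ψ ψ).BondiEnergy m := by
  have h1 := bondi hR hε hF hS (fun s hs n => by
    have g1 := ray hR hs.le (d3d_ne n)
    have g2 := chi_cs hR hs.le (d3d_ne n)
    have g3 := ee_nonneg hN hR hs.le n
    rw [g1]
    linarith)
  refine h1.congr' ?_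
  filter_upwards [eventually_ge_atTop (0 : ℝ)] with s hs
  have e1 : ∫ n : S2, dA G Ψ (s, (n : E3)) ∂sm = (data G Ψ ψ).area s := by
    refine integral_congr_ae (Eventually.of_forall fun n => ?_)
    show dA G Ψ (s, (n : E3)) = (data G Ψ ψ).dA s n
    rw [data_dA hR hc hs n]
  have e2 : ∫ n : S2, tht G Ψ (s, (n : E3)) * dA G Ψ (s, (n : E3)) ∂sm =
      ∫ n : NullPen.S2, (data G Ψ ψ).θ s n * (data G Ψ ψ).dA s n ∂NullPen.sm := by
    refine integral_congr_ae (Eventually.of_forall fun n => ?_)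
    show tht G Ψ (s, (n : E3)) * dA G Ψ (s, (n : E3)) = ψ (s, (n : E3)) * tht G Ψ (s, (n : E3)) * (data G Ψ ψ).dA s n
    rw [data_dA hR hc hs n, cut_eq hc hs n, one_mul]
  rw [e1, e2]

theorem data_area (hN : NullCone U G Ψ) (hR : Reg G Ψ W) (hc : Cut W ψ) : area G Ψ 0 = (data G Ψ ψ).area 0 := by
  refine integral_congr_ae (Eventually.of_forall fun n => ?_)
  have hn : ‖(n : E3)‖ = 1 := by simpa using n.2
  obtain ⟨W₀, hW₀, hmem, hsm⟩ := hN.smooth
  have hd : DifferentiableAt ℝ Ψ (0, (n : E3)) :=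
    ((hsm _ (hmem 0 le_rfl n)).contDiffAt (hW₀.mem_nhds (hmem 0 le_rfl n))).differentiableAt (by simp)
  have h1 : ∀ i, XX Ψ i (0, (n : E3)) = tanv Ψ 0 n (EuclideanSpace.single i (1 : ℝ) - (n : E3) i • (n : E3)) := by
    intro i
    have g := XX_tanv (Ψ := Ψ) (s := 0) (x := (n : E3)) (d3d_ne n) (by rw [hn, inv_one, one_smul]; exact hd) i
    rw [hn, inv_one, one_smul, one_smul] at g
    exact g
  have h2 : Ph Ψ (0, (n : E3)) = Ψ (0, (n : E3)) := by
    unfold Ph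
    simp only [hn, inv_one, one_smul]
  have h3 : ∀ i j, area.gm G Ψ 0 n i j = (data G Ψ ψ).g 0 n i j := by
    intro i j
    show ip G (Ψ (0, (n : E3))) (tanv Ψ 0 n (EuclideanSpace.single i (1 : ℝ) - (n : E3) i • (n : E3)))
      (tanv Ψ 0 n (EuclideanSpace.single j (1 : ℝ) - (n : E3) j • (n : E3))) = ψ (0, (n : E3)) * hh G Ψ i j (0, (n : E3))
    rw [cut_eq hc le_rfl n, one_mul]
    show _ = ip G (Ph Ψ (0, (n : E3))) (XX Ψ i (0, (n : E3))) (XX Ψ j (0, (n : E3)))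
    rw [h1, h1, h2]
  show Real.sqrt (((∑ i, area.gm G Ψ 0 n i i) ^ 2 - ∑ i, ∑ j, area.gm G Ψ 0 n i j ^ 2) / 2) =
    Real.sqrt (((∑ i, (data G Ψ ψ).g 0 n i i) ^ 2 - ∑ i, ∑ j, (data G Ψ ψ).g 0 n i j ^ 2) / 2)
  simp only [h3]

end H17W
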