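import Pool.Agent.Lib.H17W.D4A
import Pool.Agent.Lib.H17W.D4B
import Pool.Agent.Lib.H17W.D4C
import Pool.Agent.Lib.H17W.D4D
import Pool.Agent.Lib.H17W.D4E

set_option autoImplicit false

/-!
# H17W: the constraint equations of the data
-/
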