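import Pool.Agent.Lib.H17W.D1A
import Pool.Agent.Lib.H74P.T1

set_option autoImplicit false

/-!
# H17W, chunk D4A (M): the constraint equations of the data

Auxiliary names start with `d4a_`.
-/

open MeasureTheory Filter Topology Set
open scoped ContDiff

namespace H17W

open H17T (E4 pt pos)
open Pool.Agent.Lib.PenroseSph (E3 S2 sm pd)

variable {U : Set E4} {G : E4 → Matrix (Fin 4) (Fin 4) ℝ} {Ψ : ℝ × E3 → E4} {W : Set (ℝ × E3)} {ψ : ℝ × E3 → ℝ}

/-- Differentiation under the integral sign: `NullPen.t1_param` for `ψ F`, which is `F` near the points `(t, n)`, `t ≥ 0`. -/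
theorem int_derivS (hc : Cut W ψ) {F : ℝ × E3 → ℝ} (hF : ∀ p ∈ W, ContDiffAt ℝ ∞ F p) {s : ℝ} (hs : 0 < s) :
    HasDerivAt (fun t => ∫ n : S2, F (t, (n : E3)) ∂sm) (∫ n : S2, fderiv ℝ F (s, (n : E3)) dS ∂sm) s := by
  have h1 := NullPen.t1_param (hc.mul F hF) s
  have h2 : (fun t => ∫ n : S2, F (t, (n : E3)) ∂sm) =ᶠ[𝓝 s] fun t => ∫ n : S2, ψ (t, (n : E3)) * F (t, (n : E3)) ∂sm := by
    filter_upwards [lt_mem_nhds hs] with t ht
    refine integral_congr_ae (Filter.Eventually.of_forall fun n => ?_)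
    simp only [cut_eq hc ht.le n, one_mul]
  have h3 : ∀ n : S2, fderiv ℝ (fun p => ψ p * F p) (s, (n : E3)) (1, 0) = fderiv ℝ F (s, (n : E3)) dS := by
    intro n
    have h4 : (fun p => ψ p * F p) =ᶠ[𝓝 ((s, (n : E3)) : ℝ × E3)] F := by
      filter_upwards [hc.one s hs.le n] with q hq
      rw [hq, one_mul]
    rw [h4.fderiv_eq]
    rfl
  have h5 : (∫ n : S2, fderiv ℝ F (s, (n : E3)) dS ∂sm) =
      ∫ n : NullPen.S2, fderiv ℝ (fun p => ψ p * F p) (s, (n : E3)) (1, 0) ∂NullPen.sm := by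
    refine integral_congr_ae (Filter.Eventually.of_forall fun n => ?_)
    exact (h3 n).symm
  rw [h5]
  exact h1.congr_of_eventuallyEq h2

end H17W
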