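import Pool.Agent.Lib.H17T.Defs
import Pool.Agent.Lib.H17B.Defs

set_option autoImplicit false

/-!
# H17W: definitions of the statement

A space-time with coordinates `(T, x)`, a spacelike hypersurface `T = f(x)` in it, a surface `Σ` in the hypersurface, the null
hypersurface generated by the outgoing null geodesics orthogonal to `Σ`, and the asymptotic conditions.
-/

open MeasureTheory Filter Topology Set
open scoped ContDiff

namespace H17W

open H17T (E4 pt pos tang slice second DEC)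
open Pool.Agent.Lib.PenroseSph (E3 Tens S2 sm pd normal meanCurv trLevel DefFun)

/-- Scalar product of two vectors at the event `p`. -/
noncomputable def ip {d : ℕ} (G : H31R.EE d → Matrix (Fin d) (Fin d) ℝ) (p : H31R.EE d) (a b : Fin d → ℝ) : ℝ :=
  ∑ i, ∑ j, G p i j * a i * b j

/-- `G` is a smooth space-time metric on the open set `U`; the hypersurfaces `T = const` are spacelike, the future directed causal
vectors are those with positive time component. -/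
structure SpaceTime (U : Set E4) (G : E4 → Matrix (Fin 4) (Fin 4) ℝ) : Prop where
  isOpen : IsOpen U
  smooth : ∀ a b, ContDiffOn ℝ ∞ (fun p => G p a b) U
  symm : ∀ p ∈ U, ∀ a b, G p a b = G p b a
  spacelike : ∀ p ∈ U, ∀ ξ : Fin 3 → ℝ, ξ ≠ 0 → 0 < ∑ i, ∑ j, G p (Fin.succ i) (Fin.succ j) * ξ i * ξ j
  time : ∀ p ∈ U, (G p)⁻¹ 0 0 < 0

/-- The part of the hypersurface `T = f(x)` outside the open set `Om` is a smooth spacelike hypersurface of the space-time. -/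
structure Exterior (U : Set E4) (G : E4 → Matrix (Fin 4) (Fin 4) ℝ) (f : E3 → ℝ) (Om : Set E3) : Prop where
  isOpen : IsOpen Om
  bounded : Bornology.IsBounded Om
  mem : ∀ x : E3, x ∉ Om → pt (f x) x ∈ U
  smooth : ∀ x : E3, x ∉ Om → ContDiffAt ℝ ∞ f x
  spacelike : ∀ x : E3, x ∉ Om → ∀ ξ : Fin 3 → ℝ, ξ ≠ 0 → 0 < ∑ i, ∑ j, slice G f x i j * ξ i * ξ j

/-- The tangent vector of the generator `t ↦ Ψ(t, n)`. -/
noncomputable def gen (Ψ : ℝ × E3 → E4) (s : ℝ) (n : E3) : Fin 4 → ℝ := fun a => deriv (fun t : ℝ => Ψ (t, n) a) s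

/-- The derivative of `Ψ(s, ·)` at `n` in the direction `v`. -/
noncomputable def tanv (Ψ : ℝ × E3 → E4) (s : ℝ) (n v : E3) : Fin 4 → ℝ := fun a => fderiv ℝ (fun y => Ψ (s, y) a) n v

/-- `Ψ : [0, ∞) × S2 → U` is a regular null hypersurface, ruled by affinely parametrised null geodesics, which start orthogonally
to the surface `Ψ(0, S2)`; the dominant energy condition holds on it. -/
structure NullCone (U : Set E4) (G : E4 → Matrix (Fin 4) (Fin 4) ℝ) (Ψ : ℝ × E3 → E4) : Prop where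
  smooth : ∃ W : Set (ℝ × E3), IsOpen W ∧ (∀ s : ℝ, 0 ≤ s → ∀ n : S2, (s, (n : E3)) ∈ W) ∧ ContDiffOn ℝ ∞ Ψ W
  mem : ∀ s : ℝ, 0 ≤ s → ∀ n : S2, Ψ (s, (n : E3)) ∈ U
  geodesic : ∀ s : ℝ, 0 ≤ s → ∀ n : S2, ∀ a, deriv (fun t => gen Ψ t n a) s +
    ∑ b, ∑ c, H31R.chr G a b c (Ψ (s, (n : E3))) * gen Ψ s n b * gen Ψ s n c = 0
  null : ∀ n : S2, ip G (Ψ (0, (n : E3))) (gen Ψ 0 n) (gen Ψ 0 n) = 0
  orth : ∀ n : S2, ∀ v : E3, inner ℝ (n : E3) v = 0 → ip G (Ψ (0, (n : E3))) (gen Ψ 0 n) (tanv Ψ 0 n v) = 0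
  regular : ∀ s : ℝ, 0 ≤ s → ∀ n : S2, ∀ v : E3, v ≠ 0 → inner ℝ (n : E3) v = 0 →
    0 < ip G (Ψ (s, (n : E3))) (tanv Ψ s n v) (tanv Ψ s n v)
  dec : ∀ s : ℝ, 0 ≤ s → ∀ n : S2, DEC G (Ψ (s, (n : E3)))

/-- The null hypersurface `Ψ` starts at the boundary of `Om` in the hypersurface `T = f(x)`, to the outside, to the future if
`ε = 1` and to the past if `ε = -1`; at each point of the boundary `H ≤ tr h`. -/
structure Outer (G : E4 → Matrix (Fin 4) (Fin 4) ℝ) (f : E3 → ℝ) (h : Tens) (Om : Set E3) (ε : ℝ) (Ψ : ℝ × E3 → E4) : Prop where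
  sign : ε = 1 ∨ ε = -1
  start : ∀ n : S2, Ψ (0, (n : E3)) = pt (f (pos (Ψ (0, (n : E3))))) (pos (Ψ (0, (n : E3))))
  bij : Set.BijOn (fun n : E3 => pos (Ψ (0, n))) (Metric.sphere (0 : E3) 1) (frontier Om)
  time : ∀ n : S2, 0 < ε * gen Ψ 0 n 0
  horizon : ∀ n : S2, ∃ w : E3 → ℝ, DefFun Om w (pos (Ψ (0, (n : E3)))) ∧
    0 < ∑ i, normal (slice G f) w i (pos (Ψ (0, (n : E3)))) *
      ip G (Ψ (0, (n : E3))) (gen Ψ 0 n) (tang f (pos (Ψ (0, (n : E3)))) i) ∧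
    meanCurv (slice G f) w (pos (Ψ (0, (n : E3)))) ≤ trLevel (slice G f) h w (pos (Ψ (0, (n : E3))))

/-- The area of the surface `Ψ(s, S2)`. -/
noncomputable def area (G : E4 → Matrix (Fin 4) (Fin 4) ℝ) (Ψ : ℝ × E3 → E4) (s : ℝ) : ℝ :=
  ∫ n : S2, Real.sqrt (((∑ i, gm n i i) ^ 2 - ∑ i, ∑ j, gm n i j ^ 2) / 2) ∂sm
where
  /-- The induced metric on the tangent plane of the sphere. -/
  gm (n : S2) (i j : Fin 3) : ℝ :=
    ip G (Ψ (s, (n : E3))) (tanv Ψ s n (EuclideanSpace.single i (1 : ℝ) - (n : E3) i • (n : E3)))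
      (tanv Ψ s n (EuclideanSpace.single j (1 : ℝ) - (n : E3) j • (n : E3)))

/-- The difference of `Ψ(s, n)` and `(0, s n)`, extended to `x ≠ 0` by `n = x / |x|`. -/
noncomputable def dev (Ψ : ℝ × E3 → E4) (s : ℝ) (a : Fin 4) (x : E3) : ℝ :=
  Ψ (s, ‖x‖⁻¹ • x) a - Fin.cases 0 (fun i => s * (x i / ‖x‖)) a

/-- The null hypersurface is asymptotic to a light cone, and `n` is the asymptotic direction of the generator `n`:
`x - s n`, its derivatives of order at most two along the sphere and those of the time are bounded, the tangent vector of the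
generator is `(ε, n) + O(1/s)`. -/
def ConeFlat (ε : ℝ) (Ψ : ℝ × E3 → E4) : Prop :=
  ∃ C : ℝ, ∀ s : ℝ, 1 ≤ s → ∀ n : S2, (∀ i : Fin 3, |dev Ψ s (Fin.succ i) n| ≤ C) ∧
    (∀ a, ∀ i, |pd i (dev Ψ s a) n| ≤ C) ∧ (∀ a, ∀ i j, |pd i (pd j (dev Ψ s a)) n| ≤ C) ∧
    |gen Ψ s n 0 - ε| ≤ C / s ∧ ∀ i : Fin 3, |gen Ψ s n (Fin.succ i) - (n : E3) i| ≤ C / s

/-- The leading part `-(1 - 2m/ρ) dT² + (1 + 2m/ρ) |dx|²` of the Schwarzschild metric of mass `m`. -/
noncomputable def schw (m : ℝ) (p : E4) : Matrix (Fin 4) (Fin 4) ℝ :=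
  Matrix.diagonal fun a => Fin.cases (-(1 - 2 * m / ‖pos p‖)) (fun _ => 1 + 2 * m / ‖pos p‖) a

/-- At the event `p` the metric agrees with the Schwarzschild metric of mass `m` up to terms `C / ρ²`, and the first derivatives up
to terms `C / ρ³`. -/
def NearSchw (G : E4 → Matrix (Fin 4) (Fin 4) ℝ) (m C : ℝ) (p : E4) : Prop :=
  ∀ a b, |G p a b - schw m p a b| ≤ C / ‖pos p‖ ^ 2 ∧ ∀ c, |H31R.pd c (fun q => G q a b - schw m q a b) p| ≤ C / ‖pos p‖ ^ 3

/-- The hypersurface `T = f(x)` is asymptotic to the hyperplane `T = β x_0`, and the space-time metric is asymptotic to the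
Schwarzschild metric of mass `m` along it. -/
structure AsympSchw (G : E4 → Matrix (Fin 4) (Fin 4) ℝ) (f : E3 → ℝ) (m β : ℝ) : Prop where
  beta : |β| < 1
  f_decay : ∃ C R : ℝ, 0 < R ∧ ∀ x : E3, R ≤ ‖x‖ → (∀ i, |pd i f x - (if i = 0 then β else 0)| ≤ C / ‖x‖) ∧
    ∀ i j, |pd i (pd j f) x| ≤ C / ‖x‖ ^ 2
  slice_decay : ∃ C R : ℝ, 0 < R ∧ ∀ x : E3, R ≤ ‖x‖ → NearSchw G m C (pt (f x) x)

/-- The space-time metric is asymptotic to the Schwarzschild metric of mass `m` along the null hypersurface. -/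
def ConeSchw (G : E4 → Matrix (Fin 4) (Fin 4) ℝ) (Ψ : ℝ × E3 → E4) (m : ℝ) : Prop :=
  ∃ C R : ℝ, ∀ s : ℝ, R ≤ s → ∀ n : S2, NearSchw G m C (Ψ (s, (n : E3)))

end H17W
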