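import Pool.Agent.Lib.H17W.ES
import Pool.Agent.Lib.H17W.B0

set_option autoImplicit false

/-!
# H17W, module E: base file

The relation `Os k F`: `F = O(s^k)`, uniformly over the unit sphere. The hypotheses at infinity.
-/

open MeasureTheory Filter Topology Set Asymptotics
open scoped ContDiff

namespace H17W

open H17T (E4 pt pos tang slice second DEC)
open H17B (eta dl)
open Pool.Agent.Lib.PenroseSph (E3 Tens S2 sm pd)

/-- Large `s`, uniformly over the unit sphere. -/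
noncomputable def Inf : Filter (ℝ × E3) := comap Prod.fst atTop ⊓ 𝓟 {p | ‖p.2‖ = 1}

/-- `F(s, n) = O(s^k)`, uniformly over the unit sphere. -/
def Os (k : ℤ) (F : ℝ × E3 → ℝ) : Prop := F =O[Inf] fun p => p.1 ^ k

theorem inf_iff {P : ℝ × E3 → Prop} : (∀ᶠ p in Inf, P p) ↔ ∃ R : ℝ, ∀ s : ℝ, R ≤ s → ∀ n : S2, P (s, (n : E3)) := by
  unfold Inf
  rw [eventually_inf_principal, eventually_comap, eventually_atTop]
  constructor
  · rintro ⟨R, hR⟩
    exact ⟨R, fun s hs n => hR s hs (s, (n : E3)) rfl (by simp)⟩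
  · rintro ⟨R, hR⟩
    refine ⟨R, fun s hs p hp hn => ?_⟩
    have h := hR s hs ⟨p.2, by simpa using hn⟩
    rw [← hp] at h
    exact h

theorem inf_ge (R : ℝ) : ∀ᶠ p in Inf, R ≤ p.1 := inf_iff.2 ⟨R, fun _ hs _ => hs⟩

theorem inf_norm : ∀ᶠ p in Inf, ‖p.2‖ = 1 := inf_iff.2 ⟨0, fun _ _ n => by simp⟩

theorem Os.of_bound {k : ℤ} {F : ℝ × E3 → ℝ} (C R : ℝ) (h : ∀ s : ℝ, R ≤ s → 0 < s → ∀ n : S2, |F (s, (n : E3))| ≤ C * s ^ k) :
    Os k F := by
  refine IsBigO.of_bound C ?_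
  refine inf_iff.2 ⟨max R 1, fun s hs n => ?_⟩
  have hs0 : 0 < s := lt_of_lt_of_le one_pos ((le_max_right R 1).trans hs)
  have h1 := h s ((le_max_left R 1).trans hs) hs0 n
  rw [Real.norm_eq_abs, Real.norm_eq_abs, abs_of_pos (zpow_pos hs0 k)]
  exact h1

theorem Os.bound {k : ℤ} {F : ℝ × E3 → ℝ} (h : Os k F) :
    ∃ C R : ℝ, 1 ≤ R ∧ 0 ≤ C ∧ ∀ s : ℝ, R ≤ s → ∀ n : S2, |F (s, (n : E3))| ≤ C * s ^ k := by
  obtain ⟨C, hC⟩ := IsBigO.bound h
  obtain ⟨R, hR⟩ := inf_iff.1 hC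
  refine ⟨max C 0, max R 1, le_max_right _ _, le_max_right _ _, fun s hs n => ?_⟩
  have hs0 : 0 < s := lt_of_lt_of_le one_pos ((le_max_right R 1).trans hs)
  have h1 := hR s ((le_max_left R 1).trans hs) n
  rw [Real.norm_eq_abs, Real.norm_eq_abs, abs_of_pos (zpow_pos hs0 k)] at h1
  exact h1.trans (mul_le_mul_of_nonneg_right (le_max_left _ _) (zpow_pos hs0 k).le)

theorem Os.mono {k l : ℤ} {F : ℝ × E3 → ℝ} (h : Os k F) (hkl : k ≤ l) : Os l F := by
  refine IsBigO.trans h (IsBigO.of_bound 1 ?_)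
  filter_upwards [inf_ge 1] with p hp
  have hp0 : 0 < p.1 := lt_of_lt_of_le one_pos hp
  rw [Real.norm_eq_abs, Real.norm_eq_abs, abs_of_pos (zpow_pos hp0 k), abs_of_pos (zpow_pos hp0 l), one_mul]
  exact zpow_le_zpow_right₀ hp hkl

theorem Os.add {k : ℤ} {F F' : ℝ × E3 → ℝ} (h : Os k F) (h' : Os k F') : Os k fun p => F p + F' p := IsBigO.add h h'

theorem Os.sub {k : ℤ} {F F' : ℝ × E3 → ℝ} (h : Os k F) (h' : Os k F') : Os k fun p => F p - F' p := IsBigO.sub h h'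

theorem Os.neg {k : ℤ} {F : ℝ × E3 → ℝ} (h : Os k F) : Os k fun p => -F p := IsBigO.neg_left h

theorem Os.mul {k l j : ℤ} {F F' : ℝ × E3 → ℝ} (h : Os k F) (h' : Os l F') (hj : k + l ≤ j) : Os j fun p => F p * F' p := by
  have h1 : Os (k + l) fun p => F p * F' p := by
    refine IsBigO.congr' (IsBigO.mul h h') EventuallyEq.rfl ?_
    filter_upwards [inf_ge 1] with p hp
    have hp0 : p.1 ≠ 0 := (lt_of_lt_of_le one_pos hp).ne'
    exact (zpow_add₀ hp0 k l).symm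
  exact h1.mono hj

theorem Os.const (c : ℝ) : Os 0 fun _ => c := by
  refine IsBigO.of_bound |c| (Eventually.of_forall fun p => ?_)
  simp

theorem Os.const_mul {k : ℤ} {F : ℝ × E3 → ℝ} (h : Os k F) (c : ℝ) : Os k fun p => c * F p :=
  (Os.const c).mul h (by simp)

theorem Os.sum {ι : Type*} (S : Finset ι) {k : ℤ} {F : ι → ℝ × E3 → ℝ} (h : ∀ i ∈ S, Os k (F i)) :
    Os k fun p => ∑ i ∈ S, F i p := IsBigO.fun_sum h

theorem Os.congr {k : ℤ} {F F' : ℝ × E3 → ℝ} (h : Os k F) (h' : ∀ᶠ p in Inf, F p = F' p) : Os k F' :=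
  IsBigO.congr' h h' EventuallyEq.rfl

theorem Os.pow_self (k : ℤ) : Os k fun p => p.1 ^ k := isBigO_refl _ _

theorem Os.id : Os 1 fun p => p.1 := by
  have h := Os.pow_self 1
  simpa using h

theorem Os.inv : Os (-1) fun p => 1 / p.1 := by
  have h := Os.pow_self (-1)
  simpa using h

theorem Os.coord (i : Fin 3) : Os 0 fun p => p.2 i := by
  refine Os.of_bound 1 0 fun s _ _ n => ?_
  have h : |(n : E3) i| ≤ ‖(n : E3)‖ := by
    rw [← Real.norm_eq_abs]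
    exact PiLp.norm_apply_le (n : E3) i
  have h1 : ‖(n : E3)‖ = 1 := by simp
  simpa [h1] using h

theorem Os.tendsto {F : ℝ × E3 → ℝ} (h : Os (-1) F) : Tendsto F Inf (𝓝 0) := by
  refine IsBigO.trans_tendsto h ?_
  have h1 : Tendsto (fun p : ℝ × E3 => p.1) Inf atTop := tendsto_comap.mono_left inf_le_left
  have h2 := tendsto_inv_atTop_zero.comp h1
  refine h2.congr fun p => ?_
  simp

theorem inv_Os {d : ℕ} {A : ℝ × E3 → Matrix (Fin d) (Fin d) ℝ} {A0 : Matrix (Fin d) (Fin d) ℝ} (h0 : A0.det ≠ 0)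
    (hA : ∀ i j, Os (-1) fun p => A p i j - A0 i j) (i j : Fin d) : Os (-1) fun p => (A p)⁻¹ i j - A0⁻¹ i j := by
  have hent : ∀ i j, Tendsto (fun p => A p i j) Inf (𝓝 (A0 i j)) := by
    intro i j
    have h2 := (hA i j).tendsto.add_const (A0 i j)
    simpa using h2
  have hAt : Tendsto A Inf (𝓝 A0) := tendsto_pi_nhds.2 fun i => tendsto_pi_nhds.2 fun j => hent i j
  have hdet : Tendsto (fun p => (A p).det) Inf (𝓝 A0.det) := ((continuous_id.matrix_det).tendsto A0).comp hAt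
  have hadj : Tendsto (fun p => (A p).adjugate) Inf (𝓝 A0.adjugate) := ((continuous_id.matrix_adjugate).tendsto A0).comp hAt
  have hinv : Tendsto (fun p => (A p)⁻¹) Inf (𝓝 A0⁻¹) := by
    have h1 := (hdet.inv₀ h0).smul hadj
    simp only [Matrix.inv_def, Ring.inverse_eq_inv']
    exact h1
  have hbd : ∀ i j, Os 0 fun p => (A p)⁻¹ i j := by
    intro i j
    have h := (tendsto_pi_nhds.1 (tendsto_pi_nhds.1 hinv i) j).isBigO_one ℝ
    show (fun p => (A p)⁻¹ i j) =O[Inf] fun p : ℝ × E3 => p.1 ^ (0 : ℤ)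
    simpa using h
  have hne : ∀ᶠ p in Inf, (A p).det ≠ 0 := hdet.eventually_ne h0
  have hid : ∀ᶠ p in Inf, -∑ k, ∑ l, (A p)⁻¹ i k * (A p k l - A0 k l) * A0⁻¹ l j = (A p)⁻¹ i j - A0⁻¹ i j := by
    filter_upwards [hne] with x hx
    have hu : IsUnit (A x).det := isUnit_iff_ne_zero.2 hx
    have hu0 : IsUnit A0.det := isUnit_iff_ne_zero.2 h0
    have h1 : (A x)⁻¹ * (A x - A0) * A0⁻¹ = A0⁻¹ - (A x)⁻¹ := by
      rw [Matrix.mul_sub, Matrix.sub_mul, Matrix.nonsing_inv_mul _ hu, one_mul, mul_assoc,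
        Matrix.mul_nonsing_inv _ hu0, mul_one]
    have h2 : ((A x)⁻¹ * (A x - A0) * A0⁻¹) i j = ∑ k, ∑ l, (A x)⁻¹ i k * (A x k l - A0 k l) * A0⁻¹ l j := by
      rw [Matrix.mul_apply]
      simp only [Matrix.mul_apply, Finset.sum_mul, Matrix.sub_apply]
      rw [Finset.sum_comm]
    rw [← h2, h1, Matrix.sub_apply]
    ring
  refine Os.congr ?_ hid
  refine Os.neg ?_
  refine Os.sum _ fun k _ => Os.sum _ fun l _ => ?_
  exact ((hbd i k).mul (hA k l) (j := -1) (by norm_num)).mul (Os.const (A0⁻¹ l j)) (by norm_num)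

theorem det_Os {A : ℝ × E3 → Matrix (Fin 3) (Fin 3) ℝ} {A0 : Matrix (Fin 3) (Fin 3) ℝ}
    (hA : ∀ i j, Os (-1) fun p => A p i j - A0 i j) : Os (-1) fun p => (A p).det - A0.det := by
  have hb : ∀ i j, Os 0 fun p => A p i j := fun i j => by
    have h := ((hA i j).mono (show (-1 : ℤ) ≤ 0 by norm_num)).add (Os.const (A0 i j))
    simpa using h
  have h3 : ∀ i j k l u v : Fin 3, Os (-1) fun p => A p i j * A p k l * A p u v - A0 i j * A0 k l * A0 u v := by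
    intro i j k l u v
    have e : (fun p => A p i j * A p k l * A p u v - A0 i j * A0 k l * A0 u v) = fun p =>
        (A p i j - A0 i j) * (A p k l * A p u v) + A0 i j * ((A p k l - A0 k l) * A p u v + A0 k l * (A p u v - A0 u v)) := by
      funext p
      ring
    rw [e]
    refine Os.add ?_ (Os.const_mul (Os.add ?_ ?_) _)
    · exact (hA i j).mul ((hb k l).mul (hb u v) (j := 0) (by norm_num)) (by norm_num)
    · exact (hA k l).mul (hb u v) (by norm_num)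
    · exact Os.const_mul (hA u v) _
  have e : (fun p => (A p).det - A0.det) = fun p =>
      (A p 0 0 * A p 1 1 * A p 2 2 - A0 0 0 * A0 1 1 * A0 2 2) - (A p 0 0 * A p 1 2 * A p 2 1 - A0 0 0 * A0 1 2 * A0 2 1)
      - (A p 0 1 * A p 1 0 * A p 2 2 - A0 0 1 * A0 1 0 * A0 2 2) + (A p 0 1 * A p 1 2 * A p 2 0 - A0 0 1 * A0 1 2 * A0 2 0)
      + (A p 0 2 * A p 1 0 * A p 2 1 - A0 0 2 * A0 1 0 * A0 2 1) - (A p 0 2 * A p 1 1 * A p 2 0 - A0 0 2 * A0 1 1 * A0 2 0) := by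
    funext p
    rw [Matrix.det_fin_three, Matrix.det_fin_three]
    ring
  rw [e]
  exact (((((h3 _ _ _ _ _ _).sub (h3 _ _ _ _ _ _)).sub (h3 _ _ _ _ _ _)).add (h3 _ _ _ _ _ _)).add (h3 _ _ _ _ _ _)).sub
    (h3 _ _ _ _ _ _)

/-- From large `s` to `s ≥ 1`, by compactness. -/
theorem Os.global {k : ℤ} {F : ℝ × E3 → ℝ} (h : Os k F) (hc : ∀ s : ℝ, 1 ≤ s → ∀ n : S2, ContinuousAt F (s, (n : E3))) :
    ∃ C : ℝ, 0 ≤ C ∧ ∀ s : ℝ, 1 ≤ s → ∀ n : S2, |F (s, (n : E3))| ≤ C * s ^ k := by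
  obtain ⟨C, R, hR, hC, hb⟩ := h.bound
  have hcomp : IsCompact (Icc (1 : ℝ) R ×ˢ (univ : Set S2)) := isCompact_Icc.prod isCompact_univ
  have hcont : ContinuousOn (fun p : ℝ × S2 => F (p.1, (p.2 : E3)) / p.1 ^ k) (Icc (1 : ℝ) R ×ˢ (univ : Set S2)) := by
    intro p hp
    have hp1 : 1 ≤ p.1 := hp.1.1
    have h1 : ContinuousAt (fun q : ℝ × S2 => F (q.1, (q.2 : E3))) p := by
      have h2 : ContinuousAt (fun q : ℝ × S2 => ((q.1, (q.2 : E3)) : ℝ × E3)) p := by fun_prop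
      exact ContinuousAt.comp (g := F) (hc p.1 hp1 p.2) h2
    have h3 : ContinuousAt (fun q : ℝ × S2 => q.1 ^ k) p :=
      continuousAt_fst.zpow₀ k (Or.inl (lt_of_lt_of_le one_pos hp1).ne')
    exact (h1.div h3 (zpow_ne_zero _ (lt_of_lt_of_le one_pos hp1).ne')).continuousWithinAt
  obtain ⟨D, hD⟩ := hcomp.exists_bound_of_continuousOn hcont
  refine ⟨max C D, le_max_of_le_left hC, fun s hs n => ?_⟩
  have hs0 : 0 < s := lt_of_lt_of_le one_pos hs
  by_cases hsR : s ≤ R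
  · have h1 := hD (s, n) ⟨⟨hs, hsR⟩, mem_univ _⟩
    rw [Real.norm_eq_abs, abs_div, abs_of_pos (zpow_pos hs0 k), div_le_iff₀ (zpow_pos hs0 k)] at h1
    exact h1.trans (mul_le_mul_of_nonneg_right (le_max_right _ _) (zpow_pos hs0 k).le)
  · have h1 := hb s (not_le.1 hsR).le n
    exact h1.trans (mul_le_mul_of_nonneg_right (le_max_left _ _) (zpow_pos hs0 k).le)

/-- The hypotheses at infinity. -/
structure Far (G : E4 → Matrix (Fin 4) (Fin 4) ℝ) (Ψ : ℝ × E3 → E4) (W : Set (ℝ × E3)) (ε m : ℝ) : Prop where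
  reg : Reg G Ψ W
  cone : ConeFlat ε Ψ
  schw : ∃ C R : ℝ, ∀ s : ℝ, R ≤ s → ∀ n : S2, NearSchw G m C (Ψ (s, (n : E3)))

end H17W
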