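import Pool.Agent.Lib.H17W.E0

set_option autoImplicit false

/-!
# H17W, chunk E1A (S/M): partial derivatives; position and radius along the cone

(a) `eq_pd`: the map `y ↦ (s, y)` has derivative `v ↦ (0, v)`, chain rule. `eq_ds` likewise.
(b) `ph_sph`: `‖n‖ = 1`.
(c) `e1_pos`: for `s ≥ 1` and a point `n` of the sphere, `pos (Ψ (s, n)) i = Ψ (s, n) i.succ` and
    `dev Ψ s i.succ n = Ψ (s, ‖n‖⁻¹ • n) i.succ - s * (n i / ‖n‖)`, `‖n‖ = 1`: the quantity is `dev Ψ s i.succ n`, bounded by `C`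
    (`ConeFlat`). Use `Os.of_bound`.
(d) `e1_rho`: `|‖a‖ - ‖b‖| ≤ ‖a - b‖ ≤ Σ_i |a_i - b_i|` with `a = pos (Ph Ψ p)`, `b = s n`, `‖b‖ = s`.
(e) `e1_inv`: `1/ρ - 1/s = (s - ρ)/(ρ s)` and `ρ ≥ s/2` for large `s` (from (d)).
-/

open MeasureTheory Filter Topology Set Asymptotics
open scoped ContDiff

namespace H17W

open H17T (E4 pt pos tang slice second DEC)
open H17B (eta dl)
open Pool.Agent.Lib.PenroseSph (E3 Tens S2 sm pd)

variable {G : E4 → Matrix (Fin 4) (Fin 4) ℝ} {Ψ : ℝ × E3 → E4} {W : Set (ℝ × E3)} {ε m : ℝ}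

theorem eq_pd {F : ℝ × E3 → ℝ} {s : ℝ} {x : E3} (h : DifferentiableAt ℝ F (s, x)) (i : Fin 3) :
    fderiv ℝ F (s, x) (dX i) = pd i (fun y => F (s, y)) x := by
  have h1 : HasFDerivAt (fun y : E3 => (s, y)) (ContinuousLinearMap.inr ℝ ℝ E3) x :=
    hasFDerivAt_prodMk_right s x
  have h2 : HasFDerivAt (fun y : E3 => F (s, y)) ((fderiv ℝ F (s, x)).comp
      (ContinuousLinearMap.inr ℝ ℝ E3)) x := HasFDerivAt.comp x (g := F) h.hasFDerivAt h1
  unfold pd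
  rw [h2.fderiv, ContinuousLinearMap.comp_apply, ContinuousLinearMap.inr_apply]
  rfl

theorem eq_ds {F : ℝ × E3 → ℝ} {s : ℝ} {x : E3} (h : DifferentiableAt ℝ F (s, x)) :
    HasDerivAt (fun t => F (t, x)) (fderiv ℝ F (s, x) dS) s := by
  have h1 : HasDerivAt (fun t : ℝ => ((t, x) : ℝ × E3)) (1, 0) s :=
    (hasDerivAt_id s).prodMk (hasDerivAt_const s x)
  exact HasFDerivAt.comp_hasDerivAt s (l := F) h.hasFDerivAt h1

theorem ph_sph (Ψ : ℝ × E3 → E4) (s : ℝ) (n : S2) : Ph Ψ (s, (n : E3)) = Ψ (s, (n : E3)) := by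
  unfold Ph
  simp

theorem e1a_pos (p : E4) (i : Fin 3) : pos p i = p i.succ := by
  fin_cases i <;> rfl

theorem e1a_norm (v : E3) : ‖v‖ ≤ |v 0| + |v 1| + |v 2| := by
  rw [EuclideanSpace.norm_eq, Fin.sum_univ_three]
  apply Real.sqrt_le_iff.2
  refine ⟨by positivity, ?_⟩
  simp only [Real.norm_eq_abs]
  nlinarith [mul_nonneg (abs_nonneg (v 0)) (abs_nonneg (v 1)),
    mul_nonneg (abs_nonneg (v 0)) (abs_nonneg (v 2)), mul_nonneg (abs_nonneg (v 1)) (abs_nonneg (v 2))]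

theorem e1a_dev {s C : ℝ} {n : S2} (h : ∀ i : Fin 3, |dev Ψ s (Fin.succ i) n| ≤ C) (i : Fin 3) :
    |pos (Ψ (s, (n : E3))) i - s * (n : E3) i| ≤ C := by
  have h1 := h i
  unfold dev at h1
  have hn : ‖(n : E3)‖ = 1 := by simp
  rw [hn, inv_one, one_smul, Fin.cases_succ, div_one] at h1
  rwa [e1a_pos]

theorem e1_pos (h : Far G Ψ W ε m) (i : Fin 3) : Os 0 fun p => pos (Ph Ψ p) i - p.1 * p.2 i := by
  obtain ⟨C, hC⟩ := h.cone
  refine Os.of_bound C 1 fun s hs _ n => ?_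
  rw [ph_sph, zpow_zero, mul_one]
  exact e1a_dev (hC s hs n).1 i

theorem e1_rho (h : Far G Ψ W ε m) : Os 0 fun p => ‖pos (Ph Ψ p)‖ - p.1 := by
  obtain ⟨C, hC⟩ := h.cone
  refine Os.of_bound (3 * C) 1 fun s hs hs0 n => ?_
  rw [ph_sph, zpow_zero, mul_one]
  have hn : ‖(n : E3)‖ = 1 := by simp
  have h1 : ‖s • (n : E3)‖ = s := by rw [norm_smul, hn, mul_one, Real.norm_of_nonneg hs0.le]
  have h2 := abs_norm_sub_norm_le (pos (Ψ (s, (n : E3)))) (s • (n : E3))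
  rw [h1] at h2
  refine h2.trans ((e1a_norm _).trans ?_)
  have h3 : ∀ i, |(pos (Ψ (s, (n : E3))) - s • (n : E3)) i| ≤ C := by
    intro i
    have := e1a_dev (hC s hs n).1 i
    simpa using this
  have a0 := h3 0
  have a1 := h3 1
  have a2 := h3 2
  linarith

theorem e1_inv (h : Far G Ψ W ε m) : Os (-2) fun p => 1 / ‖pos (Ph Ψ p)‖ - 1 / p.1 := by
  obtain ⟨C, R, hR, hC, hb⟩ := (e1_rho h).bound
  refine Os.of_bound (2 * C) (max R (2 * C)) fun s hs hs0 n => ?_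
  have h1 := hb s ((le_max_left _ _).trans hs) n
  have h2 : 2 * C ≤ s := (le_max_right _ _).trans hs
  simp only [zpow_zero, mul_one] at h1
  set ρ := ‖pos (Ph Ψ (s, (n : E3)))‖ with hρ
  rw [abs_le] at h1
  have hρ2 : s / 2 ≤ ρ := by linarith [h1.1]
  have hρ0 : 0 < ρ := by linarith
  show |1 / ρ - 1 / s| ≤ 2 * C * s ^ (-2 : ℤ)
  have e1 : 1 / ρ - 1 / s = (s - ρ) / (ρ * s) := by
    field_simp
  have e2 : 2 * C * s ^ (-2 : ℤ) = C / (s / 2 * s) := by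
    rw [zpow_neg]
    have : s ^ (2 : ℤ) = s * s := by
      rw [show (2 : ℤ) = ((2 : ℕ) : ℤ) by norm_num, zpow_natCast, pow_two]
    rw [this]
    field_simp
  rw [e1, e2, abs_div, abs_of_pos (mul_pos hρ0 hs0)]
  apply div_le_div₀ hC _ (by positivity) (mul_le_mul_of_nonneg_right hρ2 hs0.le)
  rw [abs_le]
  constructor <;> linarith [h1.1, h1.2]

end H17W
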