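import Pool.Agent.Lib.H17W.E1A

set_option autoImplicit false

/-!
# H17W, chunk E1B (S/M): the metric along the cone

`schw_eq` (ES.lean): `schw m p a b = eta a b + 2 m dl a b (1/‖pos p‖)`. `NearSchw` at `Ψ (s, n) = Ph Ψ (s, n)` (`ph_sph`), `ρ = ‖pos (Ph Ψ p)‖`,
`ρ ≥ s/2` for large `s` (`e1_rho`).
(a) `e1_met`: `|G - schw| ≤ C/ρ² ≤ 4C/s²` and `2 m dl (1/ρ - 1/s) = Os (-2)` (`e1_inv`).
(b) `e1_met1`, `e1_met0`: from (a).
(c) `e1_minv`: `inv_Os` with `A0 = Matrix.of eta`, `H17B.b5_eta_det`, `H17B.b5_eta_inv`.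
-/

open MeasureTheory Filter Topology Set Asymptotics
open scoped ContDiff

namespace H17W

open H17T (E4 pt pos tang slice second DEC)
open H17B (eta dl)
open Pool.Agent.Lib.PenroseSph (E3 Tens S2 sm pd)

variable {G : E4 → Matrix (Fin 4) (Fin 4) ℝ} {Ψ : ℝ × E3 → E4} {W : Set (ℝ × E3)} {ε m : ℝ}

theorem e1b_half (h : Far G Ψ W ε m) : ∃ R : ℝ, 1 ≤ R ∧ ∀ s : ℝ, R ≤ s → ∀ n : S2,
    s / 2 ≤ ‖pos (Ph Ψ (s, (n : E3)))‖ := by
  obtain ⟨C, R, hR, hC, hb⟩ := (e1_rho h).bound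
  refine ⟨max R (2 * C), hR.trans (le_max_left _ _), fun s hs n => ?_⟩
  have h1 := hb s ((le_max_left _ _).trans hs) n
  have h2 : 2 * C ≤ s := (le_max_right _ _).trans hs
  simp only [zpow_zero, mul_one] at h1
  rw [abs_le] at h1
  linarith [h1.1]

theorem e1b_zpow2 (s : ℝ) : s ^ (-2 : ℤ) = 1 / s ^ 2 := by
  rw [zpow_neg, one_div]
  norm_cast

theorem e1b_zpow3 (s : ℝ) : s ^ (-3 : ℤ) = 1 / s ^ 3 := by
  rw [zpow_neg, one_div]
  norm_cast

theorem e1_met (h : Far G Ψ W ε m) (a b : Fin 4) :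
    Os (-2) fun p => G (Ph Ψ p) a b - eta a b - 2 * m * dl a b * (1 / p.1) := by
  have h1 : Os (-2) fun p => G (Ph Ψ p) a b - schw m (Ph Ψ p) a b := by
    obtain ⟨C, R, hC⟩ := h.schw
    obtain ⟨R', hR', hb⟩ := e1b_half h
    refine Os.of_bound (4 * max C 0) (max R R') fun s hs hs0 n => ?_
    have h2 := (hC s ((le_max_left _ _).trans hs) n a b).1
    have h3 := hb s ((le_max_right _ _).trans hs) n
    show |G (Ph Ψ (s, (n : E3))) a b - schw m (Ph Ψ (s, (n : E3))) a b| ≤ _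
    rw [ph_sph] at h3 ⊢
    refine h2.trans ?_
    rw [e1b_zpow2]
    have hρ0 : 0 < ‖pos (Ψ (s, (n : E3)))‖ := by linarith
    have e1 : C / ‖pos (Ψ (s, (n : E3)))‖ ^ 2 ≤ max C 0 / ‖pos (Ψ (s, (n : E3)))‖ ^ 2 :=
      div_le_div_of_nonneg_right (le_max_left _ _) (by positivity)
    have e2 : max C 0 / ‖pos (Ψ (s, (n : E3)))‖ ^ 2 ≤ max C 0 / (s / 2) ^ 2 :=
      div_le_div_of_nonneg_left (le_max_right _ _) (by positivity) (by gcongr)
    refine e1.trans (e2.trans (le_of_eq ?_))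
    field_simp
    norm_num
  have h2 := Os.const_mul (e1_inv h) (2 * m * dl a b)
  refine (h1.add h2).congr (Eventually.of_forall fun p => ?_)
  show G (Ph Ψ p) a b - schw m (Ph Ψ p) a b + 2 * m * dl a b * (1 / ‖pos (Ph Ψ p)‖ - 1 / p.1) = _
  rw [schw_eq]
  ring

theorem e1_met1 (h : Far G Ψ W ε m) (a b : Fin 4) : Os (-1) fun p => G (Ph Ψ p) a b - eta a b := by
  have h1 := (e1_met h a b).mono (show (-2 : ℤ) ≤ -1 by norm_num)
  have h2 := Os.const_mul Os.inv (2 * m * dl a b)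
  refine (h1.add h2).congr (Eventually.of_forall fun p => ?_)
  ring

theorem e1_met0 (h : Far G Ψ W ε m) (a b : Fin 4) : Os 0 fun p => G (Ph Ψ p) a b := by
  have h1 := (e1_met1 h a b).mono (show (-1 : ℤ) ≤ 0 by norm_num)
  refine (h1.add (Os.const (eta a b))).congr (Eventually.of_forall fun p => ?_)
  ring

theorem e1_minv (h : Far G Ψ W ε m) (a b : Fin 4) : Os (-1) fun p => (G (Ph Ψ p))⁻¹ a b - eta a b := by
  have h1 := inv_Os (A := fun p => G (Ph Ψ p)) H17B.b5_eta_det (fun i j => e1_met1 h i j) a b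
  rw [H17B.b5_eta_inv] at h1
  exact h1

end H17W
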