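import Pool.Agent.Lib.H17W.E1B

set_option autoImplicit false

/-!
# H17W, chunk E1C (M): the derivatives of the metric along the cone

`schw_eq` (ES.lean), `NearSchw` at `Ψ (s, n) = Ph Ψ (s, n)` (`ph_sph`), `ρ = ‖pos (Ph Ψ p)‖ ≥ s/2` for large `s` (`e1_rho`).
(c) The function `q ↦ 1/‖pos q‖` is differentiable at a point `q` with `pos q ≠ 0`, its derivative in the direction `ebas 0` is zero, and
    its partial derivatives are bounded by `1/‖pos q‖²` (see `eg9_inv_has` and `H17B.b3b_rho`, `H17B.b3b_ap` for the tools; `pos` is linear).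
    `q ↦ G q a b` is differentiable at `Ph Ψ p` for `p = (s, n)`, `s ≥ 0` (`Reg.met`, `Reg.mem`, `MetAt.smooth.self_of_nhds`). So
    `∂_c G = ∂_c (G - schw) + ∂_c schw`: `≤ C/ρ³ + 2|m|/ρ²` (`e1_dmet`) and for `c = 0` only `C/ρ³` (`e1_dtmet`).
(d) `e1_chr`: `H31R.chr` is a finite sum of products of `(G p)⁻¹ = Os 0` and first derivatives `= Os (-2)`.
-/

open MeasureTheory Filter Topology Set Asymptotics
open scoped ContDiff

namespace H17W

open H17T (E4 pt pos tang slice second DEC)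
open H17B (eta dl)
open Pool.Agent.Lib.PenroseSph (E3 Tens S2 sm pd)

variable {G : E4 → Matrix (Fin 4) (Fin 4) ℝ} {Ψ : ℝ × E3 → E4} {W : Set (ℝ × E3)} {ε m : ℝ}

theorem e1c_has {q : E4} (hq : pos q ≠ 0) : HasFDerivAt (fun p : E4 => 1 / ‖pos p‖)
    ((-(‖pos q‖ ^ 2)⁻¹) • ((‖pos q‖⁻¹ • innerSL ℝ (pos q)).comp H17B.b3b_pos)) q := by
  have h1 := H17B.b3b_rho hq
  have h2 : HasDerivAt (fun t : ℝ => t⁻¹) (-(‖pos q‖ ^ 2)⁻¹) ‖pos q‖ :=
    hasDerivAt_inv (norm_pos_iff.2 hq).ne'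
  have h3 := h2.comp_hasFDerivAt q h1
  refine h3.congr_of_eventuallyEq (Eventually.of_forall fun p => ?_)
  show 1 / ‖pos p‖ = ‖pos p‖⁻¹
  rw [one_div]

theorem e1c_schw {q : E4} (hq : pos q ≠ 0) (m : ℝ) (c a b : Fin 4) :
    DifferentiableAt ℝ (fun q => schw m q a b) q ∧
    H31R.pd c (fun q => schw m q a b) q =
      2 * m * dl a b * (-(‖pos q‖ ^ 2)⁻¹ * H17B.om (pos q) c) := by
  have e : (fun q : E4 => schw m q a b) = fun q => eta a b + 2 * m * dl a b * (1 / ‖pos q‖) := by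
    funext q
    exact schw_eq m q a b
  have h1 := ((e1c_has hq).const_mul (2 * m * dl a b)).const_add (eta a b)
  rw [e]
  refine ⟨h1.differentiableAt, ?_⟩
  unfold H31R.pd
  rw [h1.fderiv, ContinuousLinearMap.smul_apply, ContinuousLinearMap.smul_apply, H17B.b3b_ap,
    smul_eq_mul, smul_eq_mul]

theorem e1c_om_le (x : E3) (c : Fin 4) : |H17B.om x c| ≤ 1 := by
  refine Fin.cases ?_ (fun i => ?_) c
  · have : H17B.om x 0 = 0 := rfl
    rw [this, abs_zero]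
    norm_num
  · have h1 : H17B.om x i.succ = x i / ‖x‖ := rfl
    rw [h1, abs_div, abs_of_nonneg (norm_nonneg x)]
    have h2 : |x i| ≤ ‖x‖ := by
      rw [← Real.norm_eq_abs]
      exact PiLp.norm_apply_le x i
    exact div_le_one_of_le₀ h2 (norm_nonneg x)

theorem e1c_om (h : Far G Ψ W ε m) (c : Fin 4) :
    Os (-2) fun p => -(‖pos (Ph Ψ p)‖ ^ 2)⁻¹ * H17B.om (pos (Ph Ψ p)) c := by
  obtain ⟨R, hR, hb⟩ := e1b_half h
  refine Os.of_bound 4 R fun s hs hs0 n => ?_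
  have h1 := hb s hs n
  have h2 := e1c_om_le (pos (Ph Ψ (s, (n : E3)))) c
  show |-(‖pos (Ph Ψ (s, (n : E3)))‖ ^ 2)⁻¹ * H17B.om (pos (Ph Ψ (s, (n : E3)))) c| ≤ _
  have hρ0 : 0 < ‖pos (Ph Ψ (s, (n : E3)))‖ := by linarith
  rw [abs_mul, abs_neg, abs_of_pos (by positivity), e1b_zpow2]
  have e2 : (‖pos (Ph Ψ (s, (n : E3)))‖ ^ 2)⁻¹ ≤ ((s / 2) ^ 2)⁻¹ := by
    apply inv_anti₀ (by positivity)
    gcongr
  calc (‖pos (Ph Ψ (s, (n : E3)))‖ ^ 2)⁻¹ * |H17B.om (pos (Ph Ψ (s, (n : E3)))) c|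
      ≤ ((s / 2) ^ 2)⁻¹ * 1 := mul_le_mul e2 h2 (abs_nonneg _) (by positivity)
    _ = 4 * (1 / s ^ 2) := by
      field_simp
      norm_num

theorem e1c_diff (h : Far G Ψ W ε m) (c a b : Fin 4) :
    Os (-3) fun p => H31R.pd c (fun q => G q a b - schw m q a b) (Ph Ψ p) := by
  obtain ⟨C, R, hC⟩ := h.schw
  obtain ⟨R', hR', hb⟩ := e1b_half h
  refine Os.of_bound (8 * max C 0) (max R R') fun s hs hs0 n => ?_
  have h2 := (hC s ((le_max_left _ _).trans hs) n a b).2 c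
  have h3 := hb s ((le_max_right _ _).trans hs) n
  show |H31R.pd c (fun q => G q a b - schw m q a b) (Ph Ψ (s, (n : E3)))| ≤ _
  rw [ph_sph] at h3 ⊢
  refine h2.trans ?_
  rw [e1b_zpow3]
  have hρ0 : 0 < ‖pos (Ψ (s, (n : E3)))‖ := by linarith
  have e1 : C / ‖pos (Ψ (s, (n : E3)))‖ ^ 3 ≤ max C 0 / ‖pos (Ψ (s, (n : E3)))‖ ^ 3 :=
    div_le_div_of_nonneg_right (le_max_left _ _) (by positivity)
  have e2 : max C 0 / ‖pos (Ψ (s, (n : E3)))‖ ^ 3 ≤ max C 0 / (s / 2) ^ 3 :=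
    div_le_div_of_nonneg_left (le_max_right _ _) (by positivity) (by gcongr)
  refine e1.trans (e2.trans (le_of_eq ?_))
  field_simp
  norm_num

theorem e1c_split (h : Far G Ψ W ε m) (c a b : Fin 4) : ∀ᶠ p in Inf,
    H31R.pd c (fun q => G q a b - schw m q a b) (Ph Ψ p) +
      2 * m * dl a b * (-(‖pos (Ph Ψ p)‖ ^ 2)⁻¹ * H17B.om (pos (Ph Ψ p)) c) =
    H31R.pd c (fun q => G q a b) (Ph Ψ p) := by
  obtain ⟨R, hR, hb⟩ := e1b_half h
  refine inf_iff.2 ⟨R, fun s hs n => ?_⟩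
  have h1 := hb s hs n
  have hs0 : 0 < s := by linarith
  have hq : pos (Ph Ψ (s, (n : E3))) ≠ 0 := norm_pos_iff.1 (by linarith)
  have hn : (n : E3) ≠ 0 := by
    intro h0
    have h4 : ‖(n : E3)‖ = 1 := by simp
    rw [h0, norm_zero] at h4
    exact zero_ne_one h4
  have hG : DifferentiableAt ℝ (fun q => G q a b) (Ph Ψ (s, (n : E3))) :=
    ((h.reg.met (s, (n : E3)) (h.reg.mem s hs0.le _ hn)).smooth.self_of_nhds a b).differentiableAt
      (by simp)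
  obtain ⟨d1, d2⟩ := e1c_schw hq m c a b
  rw [← d2]
  unfold H31R.pd
  rw [fderiv_fun_sub hG d1, ContinuousLinearMap.sub_apply, sub_add_cancel]

theorem e1_dmet (h : Far G Ψ W ε m) (c a b : Fin 4) : Os (-2) fun p => H31R.pd c (fun q => G q a b) (Ph Ψ p) := by
  have h1 := (e1c_diff h c a b).mono (show (-3 : ℤ) ≤ -2 by norm_num)
  have h2 := Os.const_mul (e1c_om h c) (2 * m * dl a b)
  exact (h1.add h2).congr (e1c_split h c a b)

theorem e1_dtmet (h : Far G Ψ W ε m) (a b : Fin 4) : Os (-3) fun p => H31R.pd 0 (fun q => G q a b) (Ph Ψ p) := by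
  refine (e1c_diff h 0 a b).congr ?_
  filter_upwards [e1c_split h 0 a b] with p hp
  rw [← hp]
  have : H17B.om (pos (Ph Ψ p)) 0 = 0 := rfl
  rw [this]
  ring

theorem e1_chr (h : Far G Ψ W ε m) (c a b : Fin 4) : Os (-2) fun p => H31R.chr G c a b (Ph Ψ p) := by
  have hinv : ∀ i j : Fin 4, Os 0 fun p => (G (Ph Ψ p))⁻¹ i j := by
    intro i j
    have h1 := (e1_minv h i j).mono (show (-1 : ℤ) ≤ 0 by norm_num)
    refine (h1.add (Os.const (eta i j))).congr (Eventually.of_forall fun p => ?_)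
    ring
  unfold H31R.chr
  refine Os.const_mul (Os.sum _ fun l _ => ?_) _
  refine (hinv c l).mul (l := -2) ?_ (by norm_num)
  exact ((e1_dmet h a b l).add (e1_dmet h b a l)).sub (e1_dmet h l a b)

end H17W
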