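import Pool.Agent.Lib.H17W.E0

set_option autoImplicit false

/-!
# H17W, chunk E2A (S/M, pure): derivatives of the unit vector `x / |x|`

`‖·‖` has the derivative `v ↦ <x, v>/‖x‖` at `x ≠ 0` (`HasStrictFDerivAt.norm`... or `(hasFDerivAt_id x).norm`, see `H17B` or `PenroseSph` files for
`pd i (fun y => ‖y‖) x = x i / ‖x‖`). `e2_ray2`: near `x` (all `y ≠ 0`) the inner function equals the formula of `e2_ray`
(`Filter.EventuallyEq.fderiv_eq`), then quotient rule at `‖x‖ = 1`.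
-/

open MeasureTheory Filter Topology Set Asymptotics
open scoped ContDiff

namespace H17W

open H17T (E4 pt pos tang slice second DEC)
open H17B (eta dl)
open Pool.Agent.Lib.PenroseSph (E3 Tens S2 sm pd)

variable {G : E4 → Matrix (Fin 4) (Fin 4) ℝ} {Ψ : ℝ × E3 → E4} {W : Set (ℝ × E3)} {ε m : ℝ}

theorem e2_ray {x : E3} (hx : x ≠ 0) (i l : Fin 3) :
    pd i (fun y : E3 => y l / ‖y‖) x = ((if i = l then 1 else 0) - x i * x l / ‖x‖ ^ 2) / ‖x‖ := by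
  have hn : ‖x‖ ≠ 0 := norm_ne_zero_iff.mpr hx
  have e : (fun y : E3 => y l / ‖y‖) = fun y => (fun t : ℝ => t⁻¹) ‖y‖ * y l := by
    funext y
    show y l / ‖y‖ = ‖y‖⁻¹ * y l
    rw [div_eq_mul_inv, mul_comm]
  rw [e, Pool.Agent.Lib.PenroseSph.pd_radial_mul (F := fun t : ℝ => t⁻¹) hx (differentiableAt_inv hn) l i,
    (hasDerivAt_inv hn).deriv]
  by_cases hil : i = l
  · subst hil
    simp
    field_simp
    ring
  · have hli : l ≠ i := fun h => hil h.symm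
    simp [hil, hli]
    field_simp

theorem e2_ray2 {x : E3} (hx : ‖x‖ = 1) (k i l : Fin 3) :
    pd k (fun y : E3 => pd i (fun z : E3 => z l / ‖z‖) y) x =
      3 * x i * x l * x k - (if i = l then 1 else 0) * x k - (if i = k then 1 else 0) * x l - (if l = k then 1 else 0) * x i := by
  have hx0 : x ≠ 0 := by
    intro h0
    rw [h0] at hx
    simp at hx
  have hn : ‖x‖ ≠ 0 := norm_ne_zero_iff.mpr hx0
  have hev : (fun y : E3 => pd i (fun z : E3 => z l / ‖z‖) y) =ᶠ[𝓝 x]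
      fun y => (if i = l then 1 else 0) * (fun t : ℝ => t⁻¹) ‖y‖ -
        ((fun t : ℝ => (t ^ 3)⁻¹) ‖y‖ * y i) * y l := by
    filter_upwards [isOpen_ne.mem_nhds hx0] with y hy
    have hy' : ‖y‖ ≠ 0 := norm_ne_zero_iff.mpr hy
    rw [e2_ray hy]
    show _ = (if i = l then 1 else 0) * ‖y‖⁻¹ - ((‖y‖ ^ 3)⁻¹ * y i) * y l
    field_simp
  have d1 : DifferentiableAt ℝ (fun t : ℝ => t⁻¹) ‖x‖ := differentiableAt_inv hn
  have d3h : HasDerivAt (fun t : ℝ => (t ^ 3)⁻¹) (-(3 * ‖x‖ ^ 2) / (‖x‖ ^ 3) ^ 2) ‖x‖ := by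
    have h3 := (hasDerivAt_pow 3 ‖x‖).fun_inv (pow_ne_zero 3 hn)
    refine h3.congr_deriv ?_
    norm_num
  have d3 : DifferentiableAt ℝ (fun t : ℝ => (t ^ 3)⁻¹) ‖x‖ := d3h.differentiableAt
  have f1 : DifferentiableAt ℝ (fun y : E3 => (fun t : ℝ => t⁻¹) ‖y‖) x :=
    Pool.Agent.Lib.PenroseSph.diff_radial hx0 d1
  have f2 : DifferentiableAt ℝ (fun y : E3 => (if i = l then (1 : ℝ) else 0) * (fun t : ℝ => t⁻¹) ‖y‖) x :=
    f1.const_mul _
  have f3 : DifferentiableAt ℝ (fun y : E3 => (fun t : ℝ => (t ^ 3)⁻¹) ‖y‖ * y i) x :=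
    Pool.Agent.Lib.PenroseSph.diff_radial_mul hx0 d3 i
  have f4 : DifferentiableAt ℝ (fun y : E3 => y l) x := Pool.Agent.Lib.PenroseSph.diff_coord l x
  have f5 : DifferentiableAt ℝ (fun y : E3 => ((fun t : ℝ => (t ^ 3)⁻¹) ‖y‖ * y i) * y l) x := f3.mul f4
  rw [Pool.Agent.Lib.PenroseSph.pd_congr k hev, Pool.Agent.Lib.PenroseSph.pd_sub k f2 f5,
    Pool.Agent.Lib.PenroseSph.pd_const_mul k _ f1,
    Pool.Agent.Lib.PenroseSph.pd_radial (F := fun t : ℝ => t⁻¹) hx0 d1,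
    Pool.Agent.Lib.PenroseSph.pd_mul k f3 f4,
    Pool.Agent.Lib.PenroseSph.pd_radial_mul (F := fun t : ℝ => (t ^ 3)⁻¹) hx0 d3 i k,
    Pool.Agent.Lib.PenroseSph.pd_coord, (hasDerivAt_inv hn).deriv, d3h.deriv, hx]
  norm_num
  split_ifs <;> ring

end H17W
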