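import Pool.Agent.Lib.H17W.E0
import Pool.Agent.Lib.H17W.B2D
import Pool.Agent.Lib.H17W.B2E
import Pool.Agent.Lib.H17W.B2B
import Pool.Agent.Lib.H17W.B3B
import Pool.Agent.Lib.H17W.B3D
import Pool.Agent.Lib.H17W.B4A

set_option autoImplicit false

/-!
# H17W, module E: the facts of module B which module E uses (helper17 proves them)
-/

open MeasureTheory Filter Topology Set Asymptotics
open scoped ContDiff

namespace H17W

open H17T (E4 pt pos tang slice second DEC)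
open H17B (eta dl)
open Pool.Agent.Lib.PenroseSph (E3 Tens S2 sm pd)

variable {G : E4 → Matrix (Fin 4) (Fin 4) ℝ} {Ψ : ℝ × E3 → E4} {W : Set (ℝ × E3)} {ε m : ℝ}

/-- The vector `∂_T`. -/
noncomputable def xi : Fin 4 → ℝ := fun a => if a = 0 then 1 else 0

section Smooth

variable {p : ℝ × E3}

theorem j_xx (h : Reg G Ψ W) (hp : p ∈ W) (i : Fin 3) (a : Fin 4) : ContDiffAt ℝ ∞ (fun q => XX Ψ i q a) p := by
  exact XX_smooth h hp i a

theorem j_ll (h : Reg G Ψ W) (hp : p ∈ W) (a : Fin 4) : ContDiffAt ℝ ∞ (fun q => LL Ψ q a) p := by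
  exact LL_smooth h hp a

theorem j_kk (h : Reg G Ψ W) (hp : p ∈ W) (a : Fin 4) : ContDiffAt ℝ ∞ (fun q => kk G Ψ q a) p := by
  exact kk_smooth h hp a

theorem j_met (h : Reg G Ψ W) (hp : p ∈ W) (a b : Fin 4) : ContDiffAt ℝ ∞ (fun q => G (Ph Ψ q) a b) p := by
  have h1 := (h.met p hp).smooth.self_of_nhds a b
  exact ContDiffAt.comp (g := fun q' => G q' a b) p h1 (h.smooth p hp)

theorem j_hh (h : Reg G Ψ W) (hp : p ∈ W) (i j : Fin 3) : ContDiffAt ℝ ∞ (hh G Ψ i j) p := by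
  exact hh_smooth h hp i j

theorem j_pp (h : Reg G Ψ W) (hp : p ∈ W) (i j : Fin 3) : ContDiffAt ℝ ∞ (fun q => PP G Ψ q i j) p := by
  exact PP_smooth h hp i j

theorem j_qq (h : Reg G Ψ W) (hp : p ∈ W) (i j : Fin 3) : ContDiffAt ℝ ∞ (QQ G Ψ i j) p := by
  exact QQ_smooth h hp i j

theorem j_exl (h : Reg G Ψ W) (hp : p ∈ W) : ContDiffAt ℝ ∞ (exl G Ψ) p := by
  exact exl_smooth h hp

theorem j_tht (h : Reg G Ψ W) (hp : p ∈ W) : ContDiffAt ℝ ∞ (tht G Ψ) p := by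
  exact tht_smooth h hp

theorem j_dA (h : Reg G Ψ W) (hp : p ∈ W) : ContDiffAt ℝ ∞ (dA G Ψ) p := by
  exact dA_smooth h hp

end Smooth

section Algebra

variable {s : ℝ} {x : E3}

theorem ej_ipc (h : Reg G Ψ W) {p : ℝ × E3} (hp : p ∈ W) (u w : Fin 4 → ℝ) : ip G (Ph Ψ p) u w = ip G (Ph Ψ p) w u := by
  unfold ip
  rw [Finset.sum_comm]
  refine Finset.sum_congr rfl fun i _ => Finset.sum_congr rfl fun j _ => ?_
  rw [(h.met p hp).symm.self_of_nhds j i]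
  ring

/-- The cylinder metric. -/
theorem j_cyl (h : Reg G Ψ W) (hs : 0 ≤ s) : Cyl fun x => PP G Ψ (s, x) := by
  exact PP_cyl h hs

theorem j_qsymm (h : Reg G Ψ W) (hs : 0 ≤ s) (hx : x ≠ 0) (i j : Fin 3) : QQ G Ψ i j (s, x) = QQ G Ψ j i (s, x) := by
  exact QQ_symm h (h.mem s hs x hx) i j

theorem j_xhom (h : Reg G Ψ W) (hs : 0 ≤ s) (hx : x ≠ 0) {c : ℝ} (hc : 0 < c) (i : Fin 3) (a : Fin 4) :
    XX Ψ i (s, c • x) a = XX Ψ i (s, x) a / c := by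
  rw [XX_hom s x hc i]
  show c⁻¹ * XX Ψ i (s, x) a = _
  rw [inv_mul_eq_div]

theorem j_xrad (h : Reg G Ψ W) (hs : 0 ≤ s) (hx : x ≠ 0) (a : Fin 4) : ∑ i, x i * XX Ψ i (s, x) a = 0 := by
  exact XX_rad (p := (s, x)) hx ((h.smooth _ (h.mem s hs x hx)).differentiableAt (by simp)) a

/-- The metric in the basis of the tangent plane, `L` and `k`. -/
theorem j_split (h : Reg G Ψ W) (hs : 0 ≤ s) (hx : x ≠ 0) (u w : Fin 4 → ℝ) :
    ip G (Ph Ψ (s, x)) u w = ∑ i, ∑ j, QQ G Ψ i j (s, x) * ip G (Ph Ψ (s, x)) u (XX Ψ i (s, x)) *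
      ip G (Ph Ψ (s, x)) w (XX Ψ j (s, x)) + (ip G (Ph Ψ (s, x)) u (LL Ψ (s, x)) * ip G (Ph Ψ (s, x)) w (kk G Ψ (s, x)) +
      ip G (Ph Ψ (s, x)) u (kk G Ψ (s, x)) * ip G (Ph Ψ (s, x)) w (LL Ψ (s, x))) / 2 := by
  rw [ip_expand (h.met _ (h.mem s hs x hx)) (nframe h hs hx) u w]
  ring

/-- B1. -/
theorem j_covx (h : Reg G Ψ W) (hs : 0 < s) (hx : x ≠ 0) (i j : Fin 3) (a : Fin 4) :
    cov G (Ph Ψ) (XX Ψ j) (s, x) (dX i) a = ∑ m, cc G Ψ m i j (s, x) * XX Ψ m (s, x) a -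
      (kap G Ψ i j (s, x) * LL Ψ (s, x) a + chi G Ψ i j (s, x) * kk G Ψ (s, x) a) / 2 := by
  rw [DXX h hs.le hx i j]
  simp only [Pi.sub_apply, Finset.sum_apply, Pi.smul_apply, smul_eq_mul]
  ring

theorem j_chi (h : Reg G Ψ W) (hs : 0 < s) (hx : x ≠ 0) (i j : Fin 3) :
    chi G Ψ i j (s, x) = -ip G (Ph Ψ (s, x)) (LL Ψ (s, x)) (cov G (Ph Ψ) (XX Ψ j) (s, x) (dX i)) := by
  rw [chi_eq h hs.le hx i j, ej_ipc h (h.mem s hs.le x hx)]

theorem j_kap (h : Reg G Ψ W) (hs : 0 < s) (hx : x ≠ 0) (i j : Fin 3) :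
    kap G Ψ i j (s, x) = -ip G (Ph Ψ (s, x)) (kk G Ψ (s, x)) (cov G (Ph Ψ) (XX Ψ j) (s, x) (dX i)) := by
  rw [kap_eq h hs.le hx i j, ej_ipc h (h.mem s hs.le x hx)]

/-- First variation of the area. -/
theorem j_area (h : Reg G Ψ W) (hs : 0 < s) (hx : x ≠ 0) :
    HasDerivAt (fun t => dA G Ψ (t, x)) (exl G Ψ (s, x) * dA G Ψ (s, x)) s := by
  have h1 : DifferentiableAt ℝ (dA G Ψ) (s, x) := (j_dA h (h.mem s hs.le x hx)).differentiableAt (by simp)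
  have h2 : HasDerivAt (fun t : ℝ => ((t, x) : ℝ × E3)) dS s := (hasDerivAt_id s).prodMk (hasDerivAt_const s x)
  have h3 := h1.hasFDerivAt.comp_hasDerivAt s h2
  rw [dA_ds h hs.le hx] at h3
  exact h3

/-- The connection is metric. -/
theorem j_metric (h : Reg G Ψ W) (hs : 0 ≤ s) (hx : x ≠ 0) {A B : ℝ × E3 → Fin 4 → ℝ}
    (hA : ∀ a, DifferentiableAt ℝ (fun q => A q a) (s, x)) (hB : ∀ a, DifferentiableAt ℝ (fun q => B q a) (s, x))
    (v : ℝ × E3) : fderiv ℝ (ipp G Ψ A B) (s, x) v = ip G (Ph Ψ (s, x)) (cov G (Ph Ψ) A (s, x) v) (B (s, x)) +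
      ip G (Ph Ψ (s, x)) (A (s, x)) (cov G (Ph Ψ) B (s, x) v) := by
  exact ip_cov (h.met _ (h.mem s hs x hx)) ((h.smooth _ (h.mem s hs x hx)).differentiableAt (by simp)) hA hB v

end Algebra

end H17W
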