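import Pool.Agent.Lib.H17W.E1A
import Pool.Agent.Lib.H17W.E2A
import Pool.Agent.Lib.H17W.EJ

set_option autoImplicit false

/-!
# H17W, chunk E2B (M): the frame along the cone

For `p = (s, x)`, `x ≠ 0`: `Ph Ψ (s, x) a = dev Ψ s a x + (Fin.cases 0 (fun l => s * (x l / ‖x‖)) a)` (definition of `dev`), so with `eq_pd`
`XX Ψ i (s, x) a = pd i (dev Ψ s a) x + pd i (fun y => Fin.cases 0 (fun l => s * (y l / ‖y‖)) a) x` (`dev Ψ s a` is differentiable at `x ≠ 0`,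
`s ≥ 0`: it is the difference of two differentiable functions; `Ph Ψ` is smooth at `(s, x)` by `Reg.mem`, `Reg.smooth`); this is `e2_xdev`.
(b) `e2_xx0`, `e2_xx`, `e2_xx1`: at a point of the sphere, with `ConeFlat` (second clause) and `e2_ray`. (c) `e2_ll*`: `LL Ψ (s, n) a = gen Ψ s n a`
(`eq_ds`, `ph_sph`) and `ConeFlat` (last clauses).
-/

open MeasureTheory Filter Topology Set Asymptotics
open scoped ContDiff

namespace H17W

open H17T (E4 pt pos tang slice second DEC)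
open H17B (eta dl)
open Pool.Agent.Lib.PenroseSph (E3 Tens S2 sm pd)

variable {G : E4 → Matrix (Fin 4) (Fin 4) ℝ} {Ψ : ℝ × E3 → E4} {W : Set (ℝ × E3)} {ε m : ℝ}

theorem e2b_diff (h : Reg G Ψ W) {s : ℝ} (hs : 0 ≤ s) {x : E3} (hx : x ≠ 0) (a : Fin 4) :
    DifferentiableAt ℝ (fun p => Ph Ψ p a) (s, x) := by
  have h1 := (h.smooth (s, x) (h.mem s hs x hx)).differentiableAt (by simp)
  exact (differentiableAt_euclidean.1 h1) a

theorem e2b_ray {x : E3} (hx : x ≠ 0) (l : Fin 3) : DifferentiableAt ℝ (fun y : E3 => y l / ‖y‖) x := by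
  have h1 : DifferentiableAt ℝ (fun y : E3 => y l) x := by fun_prop
  have h2 : DifferentiableAt ℝ (fun y : E3 => ‖y‖) x := (differentiableAt_id).norm ℝ hx
  have h3 := h1.mul (h2.inv (norm_ne_zero_iff.2 hx))
  exact h3.congr_of_eventuallyEq (Eventually.of_forall fun y => div_eq_mul_inv _ _)

theorem e2b_slice {F : ℝ × E3 → ℝ} {s : ℝ} {x : E3} (h : DifferentiableAt ℝ F (s, x)) :
    DifferentiableAt ℝ (fun y : E3 => F (s, y)) x := by
  have h1 : DifferentiableAt ℝ (fun y : E3 => ((s, y) : ℝ × E3)) x := by fun_prop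
  exact DifferentiableAt.comp (g := F) x h h1

theorem e2_xdev (h : Reg G Ψ W) {s : ℝ} (hs : 0 ≤ s) {x : E3} (hx : x ≠ 0) (i : Fin 3) :
    XX Ψ i (s, x) 0 = pd i (dev Ψ s 0) x ∧
    ∀ l : Fin 3, XX Ψ i (s, x) l.succ = pd i (dev Ψ s l.succ) x + s * pd i (fun y : E3 => y l / ‖y‖) x := by
  have hd := e2b_diff h hs hx
  refine ⟨?_, fun l => ?_⟩
  · show fderiv ℝ (fun y => Ph Ψ y 0) (s, x) (dX i) = _
    rw [eq_pd (hd 0) i]
    congr 1
    funext y
    simp [Ph, dev]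
  · show fderiv ℝ (fun y => Ph Ψ y l.succ) (s, x) (dX i) = _
    rw [eq_pd (hd l.succ) i]
    have e : dev Ψ s l.succ = fun y => Ph Ψ (s, y) l.succ - s * (y l / ‖y‖) := by
      funext y
      simp [Ph, dev]
    rw [e]
    unfold pd
    have h1 := e2b_slice (hd l.succ)
    have h2 := (e2b_ray hx l).const_mul s
    rw [fderiv_fun_sub h1 h2, fderiv_const_mul (e2b_ray hx l)]
    simp

theorem e2b_sph {n : S2} : (n : E3) ≠ 0 := by
  intro h
  have h1 : ‖(n : E3)‖ = 1 := by simp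
  rw [h, norm_zero] at h1
  exact zero_ne_one h1

theorem e2_xx0 (h : Far G Ψ W ε m) (i : Fin 3) : Os 0 fun p => XX Ψ i p 0 := by
  obtain ⟨C, hC⟩ := h.cone
  refine Os.of_bound C 1 fun s hs hs0 n => ?_
  show |XX Ψ i (s, (n : E3)) 0| ≤ _
  rw [(e2_xdev h.reg hs0.le e2b_sph i).1, zpow_zero, mul_one]
  exact (hC s hs n).2.1 0 i

theorem e2_xx (h : Far G Ψ W ε m) (i l : Fin 3) :
    Os 0 fun p => XX Ψ i p l.succ - p.1 * ((if i = l then 1 else 0) - p.2 i * p.2 l) := by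
  obtain ⟨C, hC⟩ := h.cone
  refine Os.of_bound C 1 fun s hs hs0 n => ?_
  show |XX Ψ i (s, (n : E3)) l.succ - s * ((if i = l then 1 else 0) - (n : E3) i * (n : E3) l)| ≤ _
  have h1 : ‖(n : E3)‖ = 1 := by simp
  rw [(e2_xdev h.reg hs0.le e2b_sph i).2 l, e2_ray e2b_sph, h1, zpow_zero, mul_one]
  have e : pd i (dev Ψ s l.succ) (n : E3) + s * (((if i = l then 1 else 0) - (n : E3) i * (n : E3) l / 1 ^ 2) / 1) -
      s * ((if i = l then 1 else 0) - (n : E3) i * (n : E3) l) = pd i (dev Ψ s l.succ) (n : E3) := by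
    ring
  rw [e]
  exact (hC s hs n).2.1 l.succ i

theorem e2b_proj (i l : Fin 3) : Os 1 fun p : ℝ × E3 => p.1 * ((if i = l then 1 else 0) - p.2 i * p.2 l) := by
  have h1 : Os 0 fun p : ℝ × E3 => ((if i = l then 1 else 0 : ℝ) - p.2 i * p.2 l) :=
    (Os.const _).sub ((Os.coord i).mul (Os.coord l) (by norm_num))
  exact Os.id.mul h1 (by norm_num)

theorem e2_xx1 (h : Far G Ψ W ε m) (i : Fin 3) (a : Fin 4) : Os 1 fun p => XX Ψ i p a := by
  refine Fin.cases ?_ (fun l => ?_) a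
  · exact (e2_xx0 h i).mono (by norm_num)
  · have h1 := ((e2_xx h i l).mono (show (0 : ℤ) ≤ 1 by norm_num)).add (e2b_proj i l)
    refine h1.congr (Eventually.of_forall fun p => ?_)
    ring

theorem e2b_gen (h : Reg G Ψ W) {s : ℝ} (hs : 0 ≤ s) (n : S2) (a : Fin 4) : LL Ψ (s, (n : E3)) a = gen Ψ s n a := by
  have h1 := eq_ds (e2b_diff h hs (e2b_sph (n := n)) a)
  show fderiv ℝ (fun y => Ph Ψ y a) (s, (n : E3)) dS = deriv (fun t : ℝ => Ψ (t, (n : E3)) a) s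
  rw [← h1.deriv]
  congr 1
  funext t
  rw [ph_sph]

theorem e2_ll0 (h : Far G Ψ W ε m) : Os (-1) fun p => LL Ψ p 0 - ε := by
  obtain ⟨C, hC⟩ := h.cone
  refine Os.of_bound C 1 fun s hs hs0 n => ?_
  show |LL Ψ (s, (n : E3)) 0 - ε| ≤ _
  rw [e2b_gen h.reg hs0.le n, zpow_neg_one, ← div_eq_mul_inv]
  exact (hC s hs n).2.2.2.1

theorem e2_ll (h : Far G Ψ W ε m) (i : Fin 3) : Os (-1) fun p => LL Ψ p i.succ - p.2 i := by
  obtain ⟨C, hC⟩ := h.cone
  refine Os.of_bound C 1 fun s hs hs0 n => ?_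
  show |LL Ψ (s, (n : E3)) i.succ - (n : E3) i| ≤ _
  rw [e2b_gen h.reg hs0.le n, zpow_neg_one, ← div_eq_mul_inv]
  exact (hC s hs n).2.2.2.2 i

theorem e2_llb (h : Far G Ψ W ε m) (a : Fin 4) : Os 0 fun p => LL Ψ p a := by
  refine Fin.cases ?_ (fun l => ?_) a
  · have h1 := ((e2_ll0 h).mono (show (-1 : ℤ) ≤ 0 by norm_num)).add (Os.const ε)
    refine h1.congr (Eventually.of_forall fun p => ?_)
    ring
  · have h1 := ((e2_ll h l).mono (show (-1 : ℤ) ≤ 0 by norm_num)).add (Os.coord l)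
    refine h1.congr (Eventually.of_forall fun p => ?_)
    ring

end H17W
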