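import Pool.Agent.Lib.H17W.E2B
import Pool.Agent.Lib.H17W.E1C

set_option autoImplicit false

/-!
# H17W, chunk E2C (M): derivatives of the frame along the cone

(d) `e2_dxx*`: `fderiv ℝ (fun q => XX Ψ i q a) (s, n) (dX k) = pd k (fun y => XX Ψ i (s, y) a) n` (`eq_pd`, `j_xx`), and near `n` (all `y ≠ 0`)
`e2_xdev`; so the quantity is `pd k (pd i (dev Ψ s a)) n + s *` (the second derivative of `e2_ray2`), and `ConeFlat`, third clause. (`y ↦ pd i (dev Ψ s a) y`
is differentiable at `n`: by `e2_xdev` it is `XX Ψ i (s, y) a` minus an explicit smooth function near `n`.)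
`e2_dxx1`: the bound only. (e) `e2_cov`: `cov = fderiv + gam`, `gam` is a finite sum of `chr * XX * XX = Os (-2) * Os 1 * Os 1`
(`vel (Ph Ψ) p (dX k) = XX Ψ k p`).
-/

open MeasureTheory Filter Topology Set Asymptotics
open scoped ContDiff

namespace H17W

open H17T (E4 pt pos tang slice second DEC)
open H17B (eta dl)
open Pool.Agent.Lib.PenroseSph (E3 Tens S2 sm pd)

variable {G : E4 → Matrix (Fin 4) (Fin 4) ℝ} {Ψ : ℝ × E3 → E4} {W : Set (ℝ × E3)} {ε m : ℝ}

theorem e2c_rayd (i l : Fin 3) {x : E3} (hx : x ≠ 0) :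
    DifferentiableAt ℝ (fun y : E3 => pd i (fun z : E3 => z l / ‖z‖) y) x := by
  have h1 : DifferentiableAt ℝ (fun y : E3 => ((if i = l then (1 : ℝ) else 0) - y i * y l * ((‖y‖ ^ 2)⁻¹)) * ‖y‖⁻¹) x := by
    have hn : DifferentiableAt ℝ (fun y : E3 => ‖y‖) x := (differentiableAt_id).norm ℝ hx
    have hi : DifferentiableAt ℝ (fun y : E3 => y i) x := by fun_prop
    have hl : DifferentiableAt ℝ (fun y : E3 => y l) x := by fun_prop
    have hc : DifferentiableAt ℝ (fun _ : E3 => (if i = l then (1 : ℝ) else 0)) x := differentiableAt_const _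
    exact (hc.sub ((hi.mul hl).mul ((hn.pow 2).inv (pow_ne_zero 2 (norm_ne_zero_iff.2 hx))))).mul
      (hn.inv (norm_ne_zero_iff.2 hx))
  refine h1.congr_of_eventuallyEq ?_
  filter_upwards [isOpen_ne.mem_nhds hx] with y hy
  rw [e2_ray hy, div_eq_mul_inv, div_eq_mul_inv]

theorem e2c_eq (h : Reg G Ψ W) {s : ℝ} (hs : 0 ≤ s) (k i : Fin 3) (n : S2) :
    fderiv ℝ (fun q => XX Ψ i q 0) (s, (n : E3)) (dX k) = pd k (fun y => pd i (dev Ψ s 0) y) n ∧
    ∀ l : Fin 3, fderiv ℝ (fun q => XX Ψ i q l.succ) (s, (n : E3)) (dX k) = pd k (fun y => pd i (dev Ψ s l.succ) y) n +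
      s * pd k (fun y : E3 => pd i (fun z : E3 => z l / ‖z‖) y) n := by
  have hne : (n : E3) ≠ 0 := e2b_sph
  have hd : ∀ a, DifferentiableAt ℝ (fun q => XX Ψ i q a) (s, (n : E3)) := fun a =>
    (j_xx h (h.mem s hs n hne) i a).differentiableAt (by simp)
  have hnear : ∀ᶠ y : E3 in 𝓝 (n : E3), y ≠ 0 := isOpen_ne.mem_nhds hne
  refine ⟨?_, fun l => ?_⟩
  · rw [eq_pd (hd 0) k]
    have e : (fun y => XX Ψ i (s, y) 0) =ᶠ[𝓝 (n : E3)] fun y => pd i (dev Ψ s 0) y := by
      filter_upwards [hnear] with y hy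
      exact (e2_xdev h hs hy i).1
    unfold pd at e ⊢
    rw [e.fderiv_eq]
  · rw [eq_pd (hd l.succ) k]
    have hX := e2b_slice (hd l.succ)
    have hR := e2c_rayd i l hne
    have e : (fun y => pd i (dev Ψ s l.succ) y) =ᶠ[𝓝 (n : E3)]
        fun y => XX Ψ i (s, y) l.succ - s * pd i (fun z : E3 => z l / ‖z‖) y := by
      filter_upwards [hnear] with y hy
      rw [(e2_xdev h hs hy i).2 l]
      ring
    have e2 : pd k (fun y => pd i (dev Ψ s l.succ) y) n =
        pd k (fun y => XX Ψ i (s, y) l.succ - s * pd i (fun z : E3 => z l / ‖z‖) y) n := by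
      show fderiv ℝ _ _ _ = fderiv ℝ _ _ _
      rw [e.fderiv_eq]
    rw [e2]
    show fderiv ℝ (fun y => XX Ψ i (s, y) l.succ) (n : E3) _ =
      fderiv ℝ (fun y => XX Ψ i (s, y) l.succ - s * pd i (fun z : E3 => z l / ‖z‖) y) (n : E3) _ +
        s * fderiv ℝ (fun y : E3 => pd i (fun z : E3 => z l / ‖z‖) y) (n : E3) _
    rw [fderiv_fun_sub hX (hR.const_mul s), fderiv_const_mul hR]
    simp

theorem e2_dxx0 (h : Far G Ψ W ε m) (k i : Fin 3) : Os 0 fun p => fderiv ℝ (fun q => XX Ψ i q 0) p (dX k) := by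
  obtain ⟨C, hC⟩ := h.cone
  refine Os.of_bound C 1 fun s hs hs0 n => ?_
  rw [(e2c_eq h.reg hs0.le k i n).1, zpow_zero, mul_one]
  exact (hC s hs n).2.2.1 0 k i

theorem e2_dxx (h : Far G Ψ W ε m) (k i l : Fin 3) :
    Os 0 fun p => fderiv ℝ (fun q => XX Ψ i q l.succ) p (dX k) - p.1 * (3 * p.2 i * p.2 l * p.2 k -
      (if i = l then 1 else 0) * p.2 k - (if i = k then 1 else 0) * p.2 l - (if l = k then 1 else 0) * p.2 i) := by
  obtain ⟨C, hC⟩ := h.cone
  refine Os.of_bound C 1 fun s hs hs0 n => ?_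
  have h1 : ‖(n : E3)‖ = 1 := by simp
  show |fderiv ℝ (fun q => XX Ψ i q l.succ) (s, (n : E3)) (dX k) - s * (3 * (n : E3) i * (n : E3) l * (n : E3) k -
      (if i = l then 1 else 0) * (n : E3) k - (if i = k then 1 else 0) * (n : E3) l - (if l = k then 1 else 0) * (n : E3) i)| ≤ _
  rw [(e2c_eq h.reg hs0.le k i n).2 l, e2_ray2 h1 k i l, zpow_zero, mul_one, add_sub_cancel_right]
  exact (hC s hs n).2.2.1 l.succ k i

theorem e2_dxx1 (h : Far G Ψ W ε m) (k i : Fin 3) (a : Fin 4) : Os 1 fun p => fderiv ℝ (fun q => XX Ψ i q a) p (dX k) := by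
  refine Fin.cases ?_ (fun l => ?_) a
  · exact (e2_dxx0 h k i).mono (by norm_num)
  · have hq : Os 0 fun p : ℝ × E3 => (3 * p.2 i * p.2 l * p.2 k -
      (if i = l then 1 else 0) * p.2 k - (if i = k then 1 else 0) * p.2 l - (if l = k then 1 else 0) * p.2 i) := by
      have a1 : Os 0 fun p : ℝ × E3 => 3 * p.2 i * p.2 l * p.2 k :=
        (((Os.coord i).const_mul 3).mul (Os.coord l) (j := 0) (by norm_num)).mul (Os.coord k) (by norm_num)
      exact ((a1.sub ((Os.coord k).const_mul _)).sub ((Os.coord l).const_mul _)).sub ((Os.coord i).const_mul _)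
    have h1 := ((e2_dxx h k i l).mono (show (0 : ℤ) ≤ 1 by norm_num)).add (Os.id.mul hq (j := 1) (by norm_num))
    refine h1.congr (Eventually.of_forall fun p => ?_)
    ring

theorem e2_cov (h : Far G Ψ W ε m) (k i : Fin 3) (a : Fin 4) : Os 1 fun p => cov G (Ph Ψ) (XX Ψ i) p (dX k) a := by
  refine (e2_dxx1 h k i a).add ?_
  show Os 1 fun p => ∑ b, ∑ c, H31R.chr G a b c (Ph Ψ p) * XX Ψ k p b * XX Ψ i p c
  refine Os.sum _ fun b _ => Os.sum _ fun c _ => ?_
  exact ((e1_chr h a b c).mul (e2_xx1 h k b) (j := -1) (by norm_num)).mul (e2_xx1 h i c) (by norm_num)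

end H17W
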