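import Pool.Agent.Lib.H17W.E2B
import Pool.Agent.Lib.H17W.E1B

set_option autoImplicit false

/-!
# H17W, chunk E3A (S/M): the induced metric

`hh_ij = Σ_ab G_ab X_i^a X_j^b`, `G_ab = eta_ab + Os (-1)`, `X_i^0 = Os 0`, `X_i^l = s (δ_il - n_i n_l) + Os 0`.
(a) `e3_hh`: `Σ_ab (G_ab - eta_ab) X_i^a X_j^b = Os (-1) * Os 1 * Os 1`; `Σ_ab eta_ab X_i^a X_j^b = -X_i^0 X_j^0 + Σ_l X_i^l X_j^l` and
`Σ_l (δ_il - n_i n_l)(δ_jl - n_j n_l) = δ_ij - n_i n_j` for `‖n‖ = 1`. (In E3C: the derivatives.)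
-/

open MeasureTheory Filter Topology Set Asymptotics
open scoped ContDiff

namespace H17W

open H17T (E4 pt pos tang slice second DEC)
open H17B (eta dl)
open Pool.Agent.Lib.PenroseSph (E3 Tens S2 sm pd)

variable {G : E4 → Matrix (Fin 4) (Fin 4) ℝ} {Ψ : ℝ × E3 → E4} {W : Set (ℝ × E3)} {ε m : ℝ}

theorem e3a_sq {n : E3} (h : ‖n‖ = 1) : n 0 ^ 2 + n 1 ^ 2 + n 2 ^ 2 = 1 := by
  have h1 : ‖n‖ ^ 2 = ∑ i, n i ^ 2 := by
    rw [EuclideanSpace.norm_eq, Real.sq_sqrt (Finset.sum_nonneg fun i _ => sq_nonneg _)]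
    simp
  rw [h, Fin.sum_univ_three] at h1
  linarith

theorem e3a_pl (i l : Fin 3) : Os 0 fun p => (if i = l then 1 else 0) - p.2 i * p.2 l :=
  (Os.const _).sub ((Os.coord i).mul (Os.coord l) (by norm_num))

/-- `a b - a' b' = (a - a') b + a' (b - b')`. -/
theorem e3a_prod {a a' b b' : ℝ × E3 → ℝ} (h1 : Os 0 fun p => a p - a' p) (h2 : Os 1 b) (h3 : Os 1 a')
    (h4 : Os 0 fun p => b p - b' p) : Os 1 fun p => a p * b p - a' p * b' p := by
  have h := (h1.mul h2 (j := 1) (by norm_num)).add (h3.mul h4 (j := 1) (by norm_num))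
  refine h.congr (Eventually.of_forall fun p => ?_)
  show (a p - a' p) * b p + a' p * (b p - b' p) = a p * b p - a' p * b' p
  ring

theorem e3a_eta (u w : Fin 4 → ℝ) : ∑ a, ∑ b, eta a b * u a * w b = -(u 0 * w 0) + ∑ l : Fin 3, u l.succ * w l.succ := by
  rw [Fin.sum_univ_succ]
  congr 1
  · rw [Finset.sum_eq_single 0]
    · simp [eta]
    · intro b _ hb
      simp [eta, hb.symm]
    · simp
  · refine Finset.sum_congr rfl fun l _ => ?_
    rw [Finset.sum_eq_single l.succ]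
    · simp [eta, Fin.succ_ne_zero]
    · intro b _ hb
      simp [eta, hb.symm]
    · simp

theorem e3_hh (h : Far G Ψ W ε m) (i j : Fin 3) :
    Os 1 fun p => hh G Ψ i j p - p.1 ^ 2 * ((if i = j then 1 else 0) - p.2 i * p.2 j) := by
  have hA : Os 1 fun p => ∑ a, ∑ b, (G (Ph Ψ p) a b - eta a b) * XX Ψ i p a * XX Ψ j p b := by
    refine Os.sum _ fun a _ => Os.sum _ fun b _ => ?_
    exact ((e1_met1 h a b).mul (e2_xx1 h i a) (j := 0) (by norm_num)).mul (e2_xx1 h j b) (by norm_num)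
  have hB : Os 1 fun p => XX Ψ i p 0 * XX Ψ j p 0 :=
    ((e2_xx0 h i).mul (e2_xx0 h j) (j := 0) (by norm_num)).mono (by norm_num)
  have hP : ∀ k l : Fin 3, Os 1 fun p => p.1 * ((if k = l then 1 else 0) - p.2 k * p.2 l) := fun k l =>
    Os.id.mul (e3a_pl k l) (by norm_num)
  have hC : ∀ l : Fin 3, Os 1 fun p => XX Ψ i p l.succ * XX Ψ j p l.succ -
      (p.1 * ((if i = l then 1 else 0) - p.2 i * p.2 l)) * (p.1 * ((if j = l then 1 else 0) - p.2 j * p.2 l)) := fun l =>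
    e3a_prod (e2_xx h i l) (e2_xx1 h j l.succ) (hP i l) (e2_xx h j l)
  have hS := (hA.sub hB).add (Os.sum Finset.univ fun l _ => hC l)
  refine hS.congr ?_
  filter_upwards [inf_norm] with p hp
  have hn := e3a_sq hp
  have e1 : hh G Ψ i j p = ∑ a, ∑ b, (G (Ph Ψ p) a b - eta a b) * XX Ψ i p a * XX Ψ j p b - XX Ψ i p 0 * XX Ψ j p 0 +
      ∑ l : Fin 3, XX Ψ i p l.succ * XX Ψ j p l.succ := by
    unfold hh ipp ip
    have : ∀ a b, G (Ph Ψ p) a b * XX Ψ i p a * XX Ψ j p b =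
        (G (Ph Ψ p) a b - eta a b) * XX Ψ i p a * XX Ψ j p b + eta a b * XX Ψ i p a * XX Ψ j p b := by
      intro a b
      ring
    simp only [this, Finset.sum_add_distrib]
    rw [e3a_eta]
    ring
  rw [e1]
  rw [Finset.sum_sub_distrib]
  have e3 : ∑ l : Fin 3, (p.1 * ((if i = l then 1 else 0) - p.2 i * p.2 l)) * (p.1 * ((if j = l then 1 else 0) - p.2 j * p.2 l)) =
      p.1 ^ 2 * ((if i = j then 1 else 0) - p.2 i * p.2 j) := by
    have e4 : ∑ l : Fin 3, ((if i = l then (1 : ℝ) else 0) - p.2 i * p.2 l) * ((if j = l then 1 else 0) - p.2 j * p.2 l) =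
        (if i = j then 1 else 0) - p.2 i * p.2 j := by
      have e5 : ∀ l : Fin 3, ((if i = l then (1 : ℝ) else 0) - p.2 i * p.2 l) * ((if j = l then 1 else 0) - p.2 j * p.2 l) =
          (if i = l then (if j = l then (1 : ℝ) else 0) else 0) - (if i = l then p.2 j * p.2 l else 0) -
          (if j = l then p.2 i * p.2 l else 0) + p.2 i * p.2 j * p.2 l ^ 2 := by
        intro l
        split_ifs <;> ring
      simp only [e5, Finset.sum_add_distrib, Finset.sum_sub_distrib, Finset.sum_ite_eq, Finset.mem_univ, if_true]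
      rw [← Finset.mul_sum, Fin.sum_univ_three, hn]
      by_cases hij : i = j
      · subst hij
        simp
      · rw [if_neg hij, if_neg (Ne.symm hij)]
        ring
    rw [← e4, Finset.mul_sum]
    refine Finset.sum_congr rfl fun l _ => ?_
    ring
  rw [e3]
  ring

end H17W
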