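import Pool.Agent.Lib.H17W.E0

set_option autoImplicit false

/-!
# H17W, chunk E3M (S/M, pure): inverse and determinant, matrix algebra

(a) `e3_mat` is pure matrix algebra. `M = P/s² + (1 - 1/s²) n nᵀ`, `M n = n`, `M` symmetric. `P = s² M - (s² - 1) n nᵀ`. `P.det = s⁴ M.det`: for
instance expand both determinants with `Matrix.det_fin_three` and use the relations `P n = n`, `|n| = 1`; or
`P = M (s² - (s² - 1) n nᵀ)` (since `M n = n`) and `det (s² - (s² - 1) n nᵀ) = s⁴` (`Matrix.det_fin_three`, `Σ n_i² = 1`). So `M.det ≠ 0`. The inverse: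
`(s² - (s² - 1) n nᵀ)⁻¹ = s⁻² - (s⁻² - 1) n nᵀ` and `nᵀ M⁻¹ = nᵀ`, hence `P⁻¹ = (s⁻² - (s⁻² - 1) n nᵀ) M⁻¹ = s⁻² M⁻¹ - (s⁻² - 1) n nᵀ`.
-/

open MeasureTheory Filter Topology Set Asymptotics
open scoped ContDiff

namespace H17W

open H17T (E4 pt pos tang slice second DEC)
open H17B (eta dl)
open Pool.Agent.Lib.PenroseSph (E3 Tens S2 sm pd)

variable {G : E4 → Matrix (Fin 4) (Fin 4) ℝ} {Ψ : ℝ × E3 → E4} {W : Set (ℝ × E3)} {ε m : ℝ}

theorem e3_mat {P : Matrix (Fin 3) (Fin 3) ℝ} {n : Fin 3 → ℝ} {s : ℝ} (hs : s ≠ 0) (hn : ∑ i, n i ^ 2 = 1)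
    (hsym : ∀ i j, P i j = P j i) (hPn : ∀ i, ∑ j, P i j * n j = n i) (hdet : P.det ≠ 0) :
    P.det = s ^ 4 * (Matrix.of fun i j => P i j / s ^ 2 + (1 - 1 / s ^ 2) * (n i * n j) : Matrix (Fin 3) (Fin 3) ℝ).det ∧
    ∀ i j, P⁻¹ i j - n i * n j =
      ((Matrix.of fun i j => P i j / s ^ 2 + (1 - 1 / s ^ 2) * (n i * n j) : Matrix (Fin 3) (Fin 3) ℝ)⁻¹ i j - n i * n j) / s ^ 2 := by
  set M : Matrix (Fin 3) (Fin 3) ℝ := Matrix.of fun i j => P i j / s ^ 2 + (1 - 1 / s ^ 2) * (n i * n j) with hM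
  set N : Matrix (Fin 3) (Fin 3) ℝ := Matrix.of fun i j => n i * n j with hN
  have hc : s ^ 2 ≠ 0 := pow_ne_zero 2 hs
  have hNN : N * N = N := by
    ext i j
    rw [Matrix.mul_apply]
    show ∑ k, n i * n k * (n k * n j) = n i * n j
    have h1 : ∑ k, n i * n k * (n k * n j) = n i * n j * ∑ k, n k ^ 2 := by
      rw [Finset.mul_sum]
      exact Finset.sum_congr rfl fun k _ => by ring
    rw [h1, hn, mul_one]
  have hPN : P * N = N := by
    ext i j
    rw [Matrix.mul_apply]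
    show ∑ k, P i k * (n k * n j) = n i * n j
    rw [← hPn i, Finset.sum_mul]
    exact Finset.sum_congr rfl fun k _ => by ring
  have hNP : N * P = N := by
    ext i j
    rw [Matrix.mul_apply]
    show ∑ k, n i * n k * P k j = n i * n j
    rw [← hPn j, Finset.mul_sum]
    exact Finset.sum_congr rfl fun k _ => by rw [hsym j k]; ring
  have hMe : M = (s ^ 2)⁻¹ • P + (1 - (s ^ 2)⁻¹) • N := by
    ext i j
    show P i j / s ^ 2 + (1 - 1 / s ^ 2) * (n i * n j) = (s ^ 2)⁻¹ * P i j + (1 - (s ^ 2)⁻¹) * (n i * n j)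
    ring
  set A : Matrix (Fin 3) (Fin 3) ℝ := s ^ 2 • (1 : Matrix (Fin 3) (Fin 3) ℝ) - (s ^ 2 - 1) • N with hA
  have hMA : M * A = P := by
    rw [hMe, hA]
    simp only [add_mul, mul_sub, smul_mul_assoc, mul_smul_comm, mul_one, hPN, hNN]
    ext i j
    simp only [Matrix.add_apply, Matrix.sub_apply, Matrix.smul_apply, smul_eq_mul]
    field_simp
    ring
  have hAdet : A.det = s ^ 4 := by
    have h1 : n 0 ^ 2 + n 1 ^ 2 + n 2 ^ 2 = 1 := by
      rw [← hn, Fin.sum_univ_three]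
    rw [Matrix.det_fin_three, hA, hN]
    simp only [Matrix.sub_apply, Matrix.smul_apply, Matrix.of_apply, smul_eq_mul, Matrix.one_apply_eq]
    rw [Matrix.one_apply_ne (by decide : (0 : Fin 3) ≠ 1), Matrix.one_apply_ne (by decide : (0 : Fin 3) ≠ 2),
      Matrix.one_apply_ne (by decide : (1 : Fin 3) ≠ 0), Matrix.one_apply_ne (by decide : (1 : Fin 3) ≠ 2),
      Matrix.one_apply_ne (by decide : (2 : Fin 3) ≠ 0), Matrix.one_apply_ne (by decide : (2 : Fin 3) ≠ 1)]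
    linear_combination (-(s ^ 4 * (s ^ 2 - 1))) * h1
  have hdetP : P.det = s ^ 4 * M.det := by
    rw [← hMA, Matrix.det_mul, hAdet, mul_comm]
  have hMdet : M.det ≠ 0 := by
    intro h
    rw [h, mul_zero] at hdetP
    exact hdet hdetP
  have hMu : IsUnit M.det := isUnit_iff_ne_zero.2 hMdet
  have hNM : N * M = N := by
    rw [hMe]
    simp only [mul_add, mul_smul_comm, hNP, hNN]
    rw [← add_smul]
    simp
  have hNMi : N * M⁻¹ = N := by
    have h1 : N * M * M⁻¹ = N := by rw [mul_assoc, Matrix.mul_nonsing_inv _ hMu, mul_one]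
    rw [hNM] at h1
    exact h1
  have hPe : P = s ^ 2 • M - (s ^ 2 - 1) • N := by
    rw [hMe]
    ext i j
    simp only [Matrix.add_apply, Matrix.sub_apply, Matrix.smul_apply, smul_eq_mul]
    field_simp
    ring
  have hPM : P * M⁻¹ = s ^ 2 • (1 : Matrix (Fin 3) (Fin 3) ℝ) - (s ^ 2 - 1) • N := by
    rw [hPe, sub_mul, smul_mul_assoc, smul_mul_assoc, Matrix.mul_nonsing_inv _ hMu, hNMi]
  have hPi : P⁻¹ = (s ^ 2)⁻¹ • M⁻¹ + (1 - (s ^ 2)⁻¹) • N := by
    refine Matrix.inv_eq_right_inv ?_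
    rw [mul_add, mul_smul_comm, mul_smul_comm, hPM, hPN]
    ext i j
    simp only [Matrix.add_apply, Matrix.sub_apply, Matrix.smul_apply, smul_eq_mul]
    field_simp
    ring
  refine ⟨hdetP, fun i j => ?_⟩
  rw [hPi]
  show (s ^ 2)⁻¹ * M⁻¹ i j + (1 - (s ^ 2)⁻¹) * (n i * n j) - n i * n j = (M⁻¹ i j - n i * n j) / s ^ 2
  ring

end H17W
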