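import Pool.Agent.Lib.H17W.E3A
import Pool.Agent.Lib.H17W.E3M

set_option autoImplicit false

/-!
# H17W, chunk E3B (M): inverse and determinant of the cylinder metric

With `e3_mat` (`M = P/s² + (1 - 1/s²) n nᵀ`).
(b) `M p - 1 = Os (-1)` entrywise: `PP = hh + n nᵀ` (`‖n‖ = 1`) and `e3_hh`; so `M⁻¹ - 1 = Os (-1)` (`inv_Os`), `det M - 1 = Os (-1)` (`det_Os`).
(c) `e3_qq`: `QQ = PP⁻¹ - n nᵀ = (M⁻¹ - n nᵀ)/s²`. (d) `e3_dA`: `dA = √(det PP) = s² √(det M)` and `|√t - 1| ≤ |t - 1|`.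
The facts about `PP`: `j_cyl` (symmetric, positive definite so `det > 0`: `Matrix.PosDef.det_pos`, `P x = x/|x|²`).
-/

open MeasureTheory Filter Topology Set Asymptotics
open scoped ContDiff

namespace H17W

open H17T (E4 pt pos tang slice second DEC)
open H17B (eta dl)
open Pool.Agent.Lib.PenroseSph (E3 Tens S2 sm pd)

variable {G : E4 → Matrix (Fin 4) (Fin 4) ℝ} {Ψ : ℝ × E3 → E4} {W : Set (ℝ × E3)} {ε m : ℝ}

/-- The matrix `M`. -/
noncomputable def e3M (G : E4 → Matrix (Fin 4) (Fin 4) ℝ) (Ψ : ℝ × E3 → E4) (p : ℝ × E3) : Matrix (Fin 3) (Fin 3) ℝ :=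
  Matrix.of fun i j => PP G Ψ p i j / p.1 ^ 2 + (1 - 1 / p.1 ^ 2) * (p.2 i * p.2 j)

theorem e3_det (h : Reg G Ψ W) {s : ℝ} (hs : 0 ≤ s) {x : E3} (hx : x ≠ 0) : 0 < (PP G Ψ (s, x)).det := by
  have hC := j_cyl h hs
  exact hC.det_pos hx

theorem e3b_all (h : Far G Ψ W ε m) : ∀ᶠ p in Inf, 1 ≤ p.1 ∧ ‖p.2‖ = 1 ∧
    (PP G Ψ p).det = p.1 ^ 4 * (e3M G Ψ p).det ∧
    ∀ i j, QQ G Ψ i j p = ((e3M G Ψ p)⁻¹ i j - p.2 i * p.2 j) / p.1 ^ 2 := by
  filter_upwards [inf_ge 1, inf_norm] with p hp hn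
  have h0 : p.2 ≠ 0 := by
    intro h0
    rw [h0, norm_zero] at hn
    exact zero_ne_one hn
  have hp0 : (0 : ℝ) ≤ p.1 := zero_le_one.trans hp
  have hC := j_cyl h.reg hp0
  have hdet := e3_det h.reg hp0 h0
  have hq := e3a_sq hn
  have hm := e3_mat (P := PP G Ψ p) (n := fun i => p.2 i) (s := p.1) (lt_of_lt_of_le one_pos hp).ne'
    (by rw [Fin.sum_univ_three]; exact hq) (hC.symm p.2 h0) (fun i => by
      have := hC.rad p.2 h0 i
      rw [hn] at this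
      simpa using this) hdet.ne'
  exact ⟨hp, hn, hm.1, hm.2⟩

theorem e3b_M (h : Far G Ψ W ε m) (i j : Fin 3) : Os (-1) fun p => e3M G Ψ p i j - (1 : Matrix (Fin 3) (Fin 3) ℝ) i j := by
  have h1 := (e3_hh h i j).mul (Os.pow_self (-2)) (j := -1) (by norm_num)
  refine h1.congr ?_
  filter_upwards [inf_ge 1, inf_norm] with p hp hn
  have hp0 : p.1 ≠ 0 := (lt_of_lt_of_le one_pos hp).ne'
  have e1 : PP G Ψ p i j = hh G Ψ i j p + p.2 i * p.2 j := by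
    unfold PP
    rw [Matrix.of_apply, hn]
    ring
  have e2 : (p.1 : ℝ) ^ (-2 : ℤ) = 1 / p.1 ^ 2 := by
    rw [zpow_neg]
    simp
  unfold e3M
  rw [Matrix.of_apply, e1, e2, Matrix.one_apply]
  field_simp
  ring

theorem e3_qq (h : Far G Ψ W ε m) (i j : Fin 3) : Os (-2) (QQ G Ψ i j) := by
  have h1 := inv_Os (A := e3M G Ψ) (A0 := 1) (by simp) (e3b_M h) i j
  have h2 : Os 0 fun p => (e3M G Ψ p)⁻¹ i j - (1 : Matrix (Fin 3) (Fin 3) ℝ)⁻¹ i j + (1 : Matrix (Fin 3) (Fin 3) ℝ)⁻¹ i j -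
      p.2 i * p.2 j :=
    ((h1.mono (by norm_num)).add (Os.const _)).sub ((Os.coord i).mul (Os.coord j) (by norm_num))
  refine (h2.mul (Os.pow_self (-2)) (j := -2) (by norm_num)).congr ?_
  filter_upwards [e3b_all h] with p hp
  rw [hp.2.2.2 i j]
  have e2 : (p.1 : ℝ) ^ (-2 : ℤ) = 1 / p.1 ^ 2 := by
    rw [zpow_neg]
    simp
  rw [e2]
  ring

theorem e3b_sqrt (t : ℝ) : |Real.sqrt t - 1| ≤ |t - 1| := by
  rcases le_or_gt 0 t with ht | ht
  · have h1 : t - 1 = (Real.sqrt t - 1) * (Real.sqrt t + 1) := by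
      have := Real.mul_self_sqrt ht
      ring_nf
      nlinarith
    rw [h1, abs_mul]
    have h2 : 1 ≤ |Real.sqrt t + 1| := by
      rw [abs_of_pos (by positivity)]
      linarith [Real.sqrt_nonneg t]
    nlinarith [abs_nonneg (Real.sqrt t - 1)]
  · rw [Real.sqrt_eq_zero_of_nonpos ht.le, zero_sub, abs_neg, abs_one, abs_of_neg (by linarith)]
    linarith

theorem e3_dA (h : Far G Ψ W ε m) : Os 1 fun p => dA G Ψ p - p.1 ^ 2 := by
  have h1 := det_Os (A := e3M G Ψ) (A0 := 1) (e3b_M h)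
  have h2 : Os (-1) fun p => Real.sqrt (e3M G Ψ p).det - 1 := by
    refine IsBigO.trans (IsBigO.of_bound 1 (Eventually.of_forall fun p => ?_)) h1
    rw [Real.norm_eq_abs, Real.norm_eq_abs, one_mul, Matrix.det_one]
    exact e3b_sqrt _
  refine ((Os.pow_self 2).mul h2 (j := 1) (by norm_num)).congr ?_
  filter_upwards [e3b_all h] with p hp
  have hp0 : (0 : ℝ) ≤ p.1 := zero_le_one.trans hp.1
  have e1 : dA G Ψ p = p.1 ^ 2 * Real.sqrt (e3M G Ψ p).det := by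
    unfold dA
    rw [hp.2.2.1, show p.1 ^ 4 = (p.1 ^ 2) ^ 2 by ring, Real.sqrt_mul (sq_nonneg _), Real.sqrt_sq (sq_nonneg _)]
  have e2 : (p.1 : ℝ) ^ (2 : ℤ) = p.1 ^ 2 := by norm_cast
  rw [e1, e2]
  ring

theorem e3_dA2 (h : Far G Ψ W ε m) : Os 2 (dA G Ψ) := by
  refine (((e3_dA h).mono (by norm_num)).add (Os.pow_self 2)).congr (Eventually.of_forall fun p => ?_)
  have e2 : (p.1 : ℝ) ^ (2 : ℤ) = p.1 ^ 2 := by norm_cast
  rw [e2]
  ring

end H17W
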