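import Pool.Agent.Lib.H17W.E3A
import Pool.Agent.Lib.H17W.E2C
import Pool.Agent.Lib.H17W.A2

set_option autoImplicit false

/-!
# H17W, chunk E3C (M): derivatives of the induced metric

`e3_dhh`: product rule (`j_met`, `j_xx`):
`∂_k hh_ij = Σ_ab [∂_k (G_ab ∘ Φ) X_i^a X_j^b + G_ab (∂_k X_i^a) X_j^b + G_ab X_i^a (∂_k X_j^b)]`, `∂_k (G_ab ∘ Φ) = Σ_c (∂_c G_ab) X_k^c = Os (-1)`
(chain rule, `Reg.met`), and as before only `Σ_l (∂_k X_i^l X_j^l + X_i^l ∂_k X_j^l)` counts, with `e2_dxx`: it is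
`-s² (2 n_k δ_ij + δ_ik n_j + δ_jk n_i - 4 n_i n_j n_k) + Os 1`.
-/

open MeasureTheory Filter Topology Set Asymptotics
open scoped ContDiff

namespace H17W

open H17T (E4 pt pos tang slice second DEC)
open H17B (eta dl)
open Pool.Agent.Lib.PenroseSph (E3 Tens S2 sm pd)

variable {G : E4 → Matrix (Fin 4) (Fin 4) ℝ} {Ψ : ℝ × E3 → E4} {W : Set (ℝ × E3)} {ε m : ℝ}

theorem e3c_mem (h : Far G Ψ W ε m) : ∀ᶠ p in Inf, p ∈ W ∧ ‖p.2‖ = 1 := by
  filter_upwards [inf_ge 0, inf_norm] with p hp hn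
  refine ⟨?_, hn⟩
  have h0 : p.2 ≠ 0 := by
    intro h0
    rw [h0, norm_zero] at hn
    exact zero_ne_one hn
  exact h.reg.mem p.1 hp p.2 h0

/-- Chain rule. -/
theorem e3_dgp (h : Far G Ψ W ε m) (k : Fin 3) (a b : Fin 4) :
    Os (-1) fun p => fderiv ℝ (fun q => G (Ph Ψ q) a b) p (dX k) := by
  have hS : Os (-1) fun p => ∑ c, H31R.pd c (fun q => G q a b) (Ph Ψ p) * XX Ψ k p c :=
    Os.sum _ fun c _ => (e1_dmet h c a b).mul (e2_xx1 h k c) (by norm_num)
  refine hS.congr ?_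
  filter_upwards [e3c_mem h] with p hp
  have h1 : DifferentiableAt ℝ (fun q => G q a b) (Ph Ψ p) :=
    ((h.reg.met p hp.1).smooth.self_of_nhds a b).differentiableAt (by norm_num)
  have h2 : DifferentiableAt ℝ (Ph Ψ) p := (h.reg.smooth p hp.1).differentiableAt (by norm_num)
  exact (chain h1 h2 (dX k)).symm

/-- Product rule. -/
theorem e3c_prod (h : Reg G Ψ W) {p : ℝ × E3} (hp : p ∈ W) (v : ℝ × E3) (i j : Fin 3) :
    fderiv ℝ (hh G Ψ i j) p v = ∑ a, ∑ b, (fderiv ℝ (fun q => G (Ph Ψ q) a b) p v * XX Ψ i p a * XX Ψ j p b +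
      G (Ph Ψ p) a b * fderiv ℝ (fun q => XX Ψ i q a) p v * XX Ψ j p b +
      G (Ph Ψ p) a b * XX Ψ i p a * fderiv ℝ (fun q => XX Ψ j q b) p v) := by
  have hG : ∀ a b, HasFDerivAt (fun q => G (Ph Ψ q) a b) (fderiv ℝ (fun q => G (Ph Ψ q) a b) p) p := fun a b =>
    ((j_met h hp a b).differentiableAt (by norm_num)).hasFDerivAt
  have hX : ∀ i a, HasFDerivAt (fun q => XX Ψ i q a) (fderiv ℝ (fun q => XX Ψ i q a) p) p := fun i a =>
    ((j_xx h hp i a).differentiableAt (by norm_num)).hasFDerivAt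
  have h1 : HasFDerivAt (hh G Ψ i j) (∑ a, ∑ b, ((G (Ph Ψ p) a b * XX Ψ i p a) • fderiv ℝ (fun q => XX Ψ j q b) p +
      XX Ψ j p b • (G (Ph Ψ p) a b • fderiv ℝ (fun q => XX Ψ i q a) p +
        XX Ψ i p a • fderiv ℝ (fun q => G (Ph Ψ q) a b) p))) p := by
    have h2 := HasFDerivAt.fun_sum (u := Finset.univ) (fun a _ => HasFDerivAt.fun_sum (u := Finset.univ)
      (fun b _ => ((hG a b).mul (hX i a)).mul (hX j b)))
    exact h2
  rw [h1.fderiv]
  simp only [_root_.sum_apply, _root_.add_apply, _root_.smul_apply, smul_eq_mul]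
  refine Finset.sum_congr rfl fun a _ => Finset.sum_congr rfl fun b _ => ?_
  ring

/-- The leading part. -/
theorem e3c_lead {n : E3} (hn : ‖n‖ = 1) (k i j : Fin 3) :
    ∑ l : Fin 3, ((3 * n i * n l * n k - (if i = l then (1 : ℝ) else 0) * n k - (if i = k then 1 else 0) * n l -
      (if l = k then 1 else 0) * n i) * ((if j = l then 1 else 0) - n j * n l)) =
    2 * n i * n j * n k - (if i = j then 1 else 0) * n k - (if j = k then 1 else 0) * n i := by
  have hs := e3a_sq hn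
  have key : ∑ l : Fin 3, ((3 * n i * n l * n k - (if i = l then (1 : ℝ) else 0) * n k - (if i = k then 1 else 0) * n l -
      (if l = k then 1 else 0) * n i) * ((if j = l then 1 else 0) - n j * n l)) =
      2 * n i * n j * n k - (if i = j then 1 else 0) * n k - (if j = k then 1 else 0) * n i +
      (-(3 * n i * n j * n k) + (if i = k then 1 else 0) * n j) * (n 0 ^ 2 + n 1 ^ 2 + n 2 ^ 2 - 1) := by
    rw [Fin.sum_univ_three]
    fin_cases i <;> fin_cases j <;> fin_cases k <;> simp <;> ring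
  rw [key, hs]
  ring

theorem e3_dhh (h : Far G Ψ W ε m) (k i j : Fin 3) :
    Os 1 fun p => fderiv ℝ (hh G Ψ i j) p (dX k) + p.1 ^ 2 * (2 * p.2 k * (if i = j then 1 else 0) +
      (if i = k then 1 else 0) * p.2 j + (if j = k then 1 else 0) * p.2 i - 4 * p.2 i * p.2 j * p.2 k) := by
  have hA : Os 1 fun p => ∑ a, ∑ b, fderiv ℝ (fun q => G (Ph Ψ q) a b) p (dX k) * XX Ψ i p a * XX Ψ j p b := by
    refine Os.sum _ fun a _ => Os.sum _ fun b _ => ?_
    exact ((e3_dgp h k a b).mul (e2_xx1 h i a) (j := 0) (by norm_num)).mul (e2_xx1 h j b) (by norm_num)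
  have hB : Os 1 fun p => ∑ a, ∑ b, (G (Ph Ψ p) a b - eta a b) * fderiv ℝ (fun q => XX Ψ i q a) p (dX k) * XX Ψ j p b := by
    refine Os.sum _ fun a _ => Os.sum _ fun b _ => ?_
    exact ((e1_met1 h a b).mul (e2_dxx1 h k i a) (j := 0) (by norm_num)).mul (e2_xx1 h j b) (by norm_num)
  have hC : Os 1 fun p => ∑ a, ∑ b, (G (Ph Ψ p) a b - eta a b) * XX Ψ i p a * fderiv ℝ (fun q => XX Ψ j q b) p (dX k) := by
    refine Os.sum _ fun a _ => Os.sum _ fun b _ => ?_
    exact ((e1_met1 h a b).mul (e2_xx1 h i a) (j := 0) (by norm_num)).mul (e2_dxx1 h k j b) (by norm_num)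
  have hD : Os 1 fun p => fderiv ℝ (fun q => XX Ψ i q 0) p (dX k) * XX Ψ j p 0 :=
    ((e2_dxx0 h k i).mul (e2_xx0 h j) (j := 0) (by norm_num)).mono (by norm_num)
  have hE : Os 1 fun p => XX Ψ i p 0 * fderiv ℝ (fun q => XX Ψ j q 0) p (dX k) :=
    ((e2_xx0 h i).mul (e2_dxx0 h k j) (j := 0) (by norm_num)).mono (by norm_num)
  have hP : ∀ k l : Fin 3, Os 1 fun p => p.1 * ((if k = l then 1 else 0) - p.2 k * p.2 l) := fun k l =>
    Os.id.mul (e3a_pl k l) (by norm_num)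
  have hQ : ∀ i l : Fin 3, Os 1 fun p => p.1 * (3 * p.2 i * p.2 l * p.2 k -
      (if i = l then 1 else 0) * p.2 k - (if i = k then 1 else 0) * p.2 l - (if l = k then 1 else 0) * p.2 i) := by
    intro i l
    refine Os.id.mul (k := 1) (l := 0) ?_ (by norm_num)
    refine Os.sub (Os.sub (Os.sub ?_ ((Os.coord k).const_mul _)) ((Os.coord l).const_mul _)) ((Os.coord i).const_mul _)
    exact (((Os.coord i).const_mul 3).mul (Os.coord l) (j := 0) (by norm_num)).mul (Os.coord k) (by norm_num)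
  have hF : ∀ l : Fin 3, Os 1 fun p => fderiv ℝ (fun q => XX Ψ i q l.succ) p (dX k) * XX Ψ j p l.succ -
      (p.1 * (3 * p.2 i * p.2 l * p.2 k - (if i = l then 1 else 0) * p.2 k - (if i = k then 1 else 0) * p.2 l -
        (if l = k then 1 else 0) * p.2 i)) * (p.1 * ((if j = l then 1 else 0) - p.2 j * p.2 l)) := fun l =>
    e3a_prod (e2_dxx h k i l) (e2_xx1 h j l.succ) (hQ i l) (e2_xx h j l)
  have hF' : ∀ l : Fin 3, Os 1 fun p => fderiv ℝ (fun q => XX Ψ j q l.succ) p (dX k) * XX Ψ i p l.succ -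
      (p.1 * (3 * p.2 j * p.2 l * p.2 k - (if j = l then 1 else 0) * p.2 k - (if j = k then 1 else 0) * p.2 l -
        (if l = k then 1 else 0) * p.2 j)) * (p.1 * ((if i = l then 1 else 0) - p.2 i * p.2 l)) := fun l =>
    e3a_prod (e2_dxx h k j l) (e2_xx1 h i l.succ) (hQ j l) (e2_xx h i l)
  have hS := ((((hA.add hB).add hC).sub hD).sub hE).add ((Os.sum Finset.univ fun l _ => hF l).add
    (Os.sum Finset.univ fun l _ => hF' l))
  refine hS.congr ?_
  filter_upwards [e3c_mem h] with p hp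
  obtain ⟨hpW, hn⟩ := hp
  rw [e3c_prod h.reg hpW]
  have e1 : ∀ a b, fderiv ℝ (fun q => G (Ph Ψ q) a b) p (dX k) * XX Ψ i p a * XX Ψ j p b +
      G (Ph Ψ p) a b * fderiv ℝ (fun q => XX Ψ i q a) p (dX k) * XX Ψ j p b +
      G (Ph Ψ p) a b * XX Ψ i p a * fderiv ℝ (fun q => XX Ψ j q b) p (dX k) =
      fderiv ℝ (fun q => G (Ph Ψ q) a b) p (dX k) * XX Ψ i p a * XX Ψ j p b +
      (G (Ph Ψ p) a b - eta a b) * fderiv ℝ (fun q => XX Ψ i q a) p (dX k) * XX Ψ j p b +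
      (G (Ph Ψ p) a b - eta a b) * XX Ψ i p a * fderiv ℝ (fun q => XX Ψ j q b) p (dX k) +
      eta a b * fderiv ℝ (fun q => XX Ψ i q a) p (dX k) * XX Ψ j p b +
      eta a b * XX Ψ i p a * fderiv ℝ (fun q => XX Ψ j q b) p (dX k) := by
    intro a b
    ring
  rw [Finset.sum_congr rfl fun a _ => Finset.sum_congr rfl fun b _ => e1 a b]
  simp only [Finset.sum_add_distrib]
  have e2 := e3a_eta (fun a => fderiv ℝ (fun q => XX Ψ i q a) p (dX k)) (fun b => XX Ψ j p b)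
  have e3 := e3a_eta (fun a => XX Ψ i p a) (fun b => fderiv ℝ (fun q => XX Ψ j q b) p (dX k))
  rw [e2, e3]
  have e4 := e3c_lead hn k i j
  have e5 := e3c_lead hn k j i
  rw [Finset.sum_sub_distrib, Finset.sum_sub_distrib]
  have e6 : ∀ i j : Fin 3, ∑ l : Fin 3, (p.1 * (3 * p.2 i * p.2 l * p.2 k - (if i = l then 1 else 0) * p.2 k -
      (if i = k then 1 else 0) * p.2 l - (if l = k then 1 else 0) * p.2 i)) * (p.1 * ((if j = l then 1 else 0) - p.2 j * p.2 l)) =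
      p.1 ^ 2 * ∑ l : Fin 3, ((3 * p.2 i * p.2 l * p.2 k - (if i = l then (1 : ℝ) else 0) * p.2 k - (if i = k then 1 else 0) * p.2 l -
      (if l = k then 1 else 0) * p.2 i) * ((if j = l then 1 else 0) - p.2 j * p.2 l)) := by
    intro i j
    rw [Finset.mul_sum]
    refine Finset.sum_congr rfl fun l _ => ?_
    ring
  rw [e6 i j, e6 j i, e4, e5]
  have e7 : (if j = i then (1 : ℝ) else 0) = if i = j then 1 else 0 := by
    simp only [eq_comm]
  have e8 : ∑ l : Fin 3, fderiv ℝ (fun q => XX Ψ j q l.succ) p (dX k) * XX Ψ i p l.succ =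
      ∑ l : Fin 3, XX Ψ i p l.succ * fderiv ℝ (fun q => XX Ψ j q l.succ) p (dX k) :=
    Finset.sum_congr rfl fun l _ => mul_comm _ _
  rw [e7, e8]
  ring

end H17W
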