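import Pool.Agent.Lib.H17W.E3B

set_option autoImplicit false

/-!
# H17W, chunk E4A (S/M): the null normal

(a) `e4_zp`: `Zp^a = (G⁻¹)^{a0} - Q_ij X_j^0 X_i^a`: `Os 0`, `Os (-2) * Os 0 * Os 1`. `e4_ipb`: `ip` of vectors which are `Os k`, `Os l` is `Os (k + l)`
(finite sum, `e1_met0`). `e4_inv`: `1/L^0 = Os 0`, since `L^0 = ε + Os (-1)` and `|ε| = 1`, so `|L^0| ≥ 1/2` for large `s`.
(b) `e4_kk`: `k = (2/L^0)(Zp - <Zp,Zp>/(2L^0) L)`.
-/

open MeasureTheory Filter Topology Set Asymptotics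
open scoped ContDiff

namespace H17W

open H17T (E4 pt pos tang slice second DEC)
open H17B (eta dl)
open Pool.Agent.Lib.PenroseSph (E3 Tens S2 sm pd)

variable {G : E4 → Matrix (Fin 4) (Fin 4) ℝ} {Ψ : ℝ × E3 → E4} {W : Set (ℝ × E3)} {ε m : ℝ}

theorem e4_ipb (h : Far G Ψ W ε m) {k l j : ℤ} (hj : k + l ≤ j) {A B : ℝ × E3 → Fin 4 → ℝ} (hA : ∀ a, Os k fun p => A p a)
    (hB : ∀ a, Os l fun p => B p a) : Os j fun p => ip G (Ph Ψ p) (A p) (B p) := by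
  unfold ip
  refine Os.sum _ fun a _ => Os.sum _ fun b _ => ?_
  exact ((e1_met0 h a b).mul (hA a) (j := k) (by omega)).mul (hB b) hj

theorem e4_zp (h : Far G Ψ W ε m) (a : Fin 4) : Os 0 fun p => Zp G Ψ p a := by
  have h1 : Os 0 fun p => (G (Ph Ψ p))⁻¹ a 0 := by
    have h2 := ((e1_minv h a 0).mono (show (-1 : ℤ) ≤ 0 by norm_num)).add (Os.const (eta a 0))
    refine h2.congr (Eventually.of_forall fun p => ?_)
    ring
  have h3 : Os 0 fun p => ∑ i, ∑ j, QQ G Ψ i j p * XX Ψ j p 0 * XX Ψ i p a := by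
    refine Os.sum _ fun i _ => Os.sum _ fun j _ => ?_
    exact ((e3_qq h i j).mul (e2_xx0 h j) (j := -2) (by norm_num)).mul (e2_xx1 h i a) (by norm_num)
  exact h1.sub h3

theorem e4_inv (h : Far G Ψ W ε m) (hε : ε = 1 ∨ ε = -1) : Os 0 fun p => 1 / LL Ψ p 0 := by
  have h1 := (e2_ll0 h).tendsto
  have h2 : ∀ᶠ p in Inf, |LL Ψ p 0 - ε| < 1 / 2 := by
    have h3 := (Metric.tendsto_nhds.1 h1) (1 / 2) (by norm_num)
    refine h3.mono fun p hp => ?_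
    rw [Real.dist_eq, sub_zero] at hp
    exact hp
  refine IsBigO.of_bound 2 ?_
  refine h2.mono fun p hp => ?_
  have h4 : 1 / 2 ≤ |LL Ψ p 0| := by
    have h5 := abs_lt.1 hp
    rcases hε with rfl | rfl
    · rw [abs_of_pos (by linarith)]
      linarith
    · rw [abs_of_neg (by linarith)]
      linarith
  rw [zpow_zero, norm_one, mul_one, Real.norm_eq_abs, abs_div, abs_one]
  rw [div_le_iff₀ (by linarith)]
  linarith

theorem e4_kk (h : Far G Ψ W ε m) (hε : ε = 1 ∨ ε = -1) (a : Fin 4) : Os 0 fun p => kk G Ψ p a := by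
  have hi := e4_inv h hε
  have hz := e4_zp h
  have h1 : Os 0 fun p => ip G (Ph Ψ p) (Zp G Ψ p) (Zp G Ψ p) := e4_ipb h (by norm_num) hz hz
  have h2 : Os 0 fun p => (ip G (Ph Ψ p) (Zp G Ψ p) (Zp G Ψ p) * (1 / LL Ψ p 0)) * LL Ψ p a :=
    (h1.mul hi (j := 0) (by norm_num)).mul (e2_llb h a) (by norm_num)
  have h3 : Os 0 fun p => 2 * ((1 / LL Ψ p 0) * (Zp G Ψ p a -
      (1 / 2) * ((ip G (Ph Ψ p) (Zp G Ψ p) (Zp G Ψ p) * (1 / LL Ψ p 0)) * LL Ψ p a))) :=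
    Os.const_mul (hi.mul ((hz a).sub (Os.const_mul h2 (1 / 2))) (by norm_num)) 2
  refine h3.congr (Eventually.of_forall fun p => ?_)
  unfold kk ipp
  ring

end H17W
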