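import Pool.Agent.Lib.H17W.E4A
import Pool.Agent.Lib.H17W.E2C

set_option autoImplicit false

/-!
# H17W, chunk E4B (S/M): the expansions

(c) `e4_chi`: `chi_ij = -<L, D_i X_j>` (`j_chi`, for `s > 0`) with `e2_cov`: `Os 0 * Os 1`;
`e4_kap` likewise. (d) `e4_exl`, `e4_tht`: `Q_ij * chi_ij = Os (-2) * Os 1`.
-/

open MeasureTheory Filter Topology Set Asymptotics
open scoped ContDiff

namespace H17W

open H17T (E4 pt pos tang slice second DEC)
open H17B (eta dl)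
open Pool.Agent.Lib.PenroseSph (E3 Tens S2 sm pd)

variable {G : E4 → Matrix (Fin 4) (Fin 4) ℝ} {Ψ : ℝ × E3 → E4} {W : Set (ℝ × E3)} {ε m : ℝ}

theorem e4_chi (h : Far G Ψ W ε m) (i j : Fin 3) : Os 1 (chi G Ψ i j) := by
  have h1 : Os 1 fun p => ip G (Ph Ψ p) (LL Ψ p) (cov G (Ph Ψ) (XX Ψ j) p (dX i)) :=
    e4_ipb h (k := 0) (l := 1) (by norm_num) (fun a => e2_llb h a) (fun a => e2_cov h i j a)
  refine h1.neg.congr ?_
  refine inf_iff.2 ⟨1, fun s hs n => ?_⟩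
  have hn : (n : E3) ≠ 0 := by
    intro h0
    have h2 : ‖(n : E3)‖ = 1 := by simp
    rw [h0, norm_zero] at h2
    exact zero_ne_one h2
  exact (j_chi h.reg (lt_of_lt_of_le one_pos hs) hn i j).symm

theorem e4_kap (h : Far G Ψ W ε m) (hε : ε = 1 ∨ ε = -1) (i j : Fin 3) : Os 1 (kap G Ψ i j) := by
  have h1 : Os 1 fun p => ip G (Ph Ψ p) (kk G Ψ p) (cov G (Ph Ψ) (XX Ψ j) p (dX i)) :=
    e4_ipb h (k := 0) (l := 1) (by norm_num) (fun a => e4_kk h hε a) (fun a => e2_cov h i j a)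
  refine h1.neg.congr ?_
  refine inf_iff.2 ⟨1, fun s hs n => ?_⟩
  have hn : (n : E3) ≠ 0 := by
    intro h0
    have h2 : ‖(n : E3)‖ = 1 := by simp
    rw [h0, norm_zero] at h2
    exact zero_ne_one h2
  exact (j_kap h.reg (lt_of_lt_of_le one_pos hs) hn i j).symm

theorem e4_exl (h : Far G Ψ W ε m) : Os (-1) (exl G Ψ) := by
  unfold exl
  exact Os.sum _ fun i _ => Os.sum _ fun j _ => (e3_qq h i j).mul (e4_chi h i j) (by norm_num)

theorem e4_tht (h : Far G Ψ W ε m) (hε : ε = 1 ∨ ε = -1) : Os (-1) (tht G Ψ) := by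
  unfold tht
  exact Os.sum _ fun i _ => Os.sum _ fun j _ => (e3_qq h i j).mul (e4_kap h hε i j) (by norm_num)

end H17W
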