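import Pool.Agent.Lib.H17W.EJ

set_option autoImplicit false

/-!
# H17W, chunk E5A (S/M): covariant derivative of the constant vector `∂_T`

`xi = ∂_T` is constant, so `cov G (Ph Ψ) (fun _ => xi) p v = gam G (Ph Ψ p) (vel (Ph Ψ) p v) xi` (`fderiv` of a constant). With
`Γ_{w, u ξ} = (∂_u G_{ξ w} + ∂_ξ G_{u w} - ∂_w G_{u ξ})/2`, that is `Σ_c G_dc chr^c_ab = (∂_a G_bd + ∂_b G_ad - ∂_d G_ab)/2` (`G G⁻¹ = 1`,
`MetAt.nondeg`, `MetAt.symm`): `<Γ(u, ξ), w> + <Γ(w, ξ), u> = (∂_0 G)(u, w)`, the terms `∂_u G_{ξ w} - ∂_w G_{u ξ}` are antisymmetric in `u, w`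
(`G` is symmetric near `Φ p`, so the derivatives are symmetric as well).
-/

open MeasureTheory Filter Topology Set Asymptotics
open scoped ContDiff

namespace H17W

open H17T (E4 pt pos tang slice second DEC)
open H17B (eta dl)
open Pool.Agent.Lib.PenroseSph (E3 Tens S2 sm pd)

variable {G : E4 → Matrix (Fin 4) (Fin 4) ℝ} {Ψ : ℝ × E3 → E4} {W : Set (ℝ × E3)} {ε m : ℝ}

theorem e5a_lower {p : E4} (h : MetAt G p) (i j k : Fin 4) :
    ∑ l, G p l k * H31R.chr G l i j p = 1 / 2 * (H31R.pd i (fun y => G y j k) p +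
      H31R.pd j (fun y => G y i k) p - H31R.pd k (fun y => G y i j) p) := by
  have hs := h.symm.self_of_nhds
  have hinv : G p * (G p)⁻¹ = 1 := Matrix.mul_nonsing_inv _ (isUnit_iff_ne_zero.2 h.nondeg)
  set D : Fin 4 → ℝ := fun l => H31R.pd i (fun y => G y j l) p + H31R.pd j (fun y => G y i l) p -
    H31R.pd l (fun y => G y i j) p with hD
  calc ∑ l, G p l k * H31R.chr G l i j p
      = ∑ l, ∑ m, 1 / 2 * (G p k l * (G p)⁻¹ l m * D m) := by
        refine Finset.sum_congr rfl fun l _ => ?_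
        rw [hs l k]
        unfold H31R.chr
        rw [mul_left_comm, ← Finset.mul_sum, Finset.mul_sum]
        congr 1
        exact Finset.sum_congr rfl fun m _ => by rw [mul_assoc]
    _ = ∑ m, 1 / 2 * ((∑ l, G p k l * (G p)⁻¹ l m) * D m) := by
        rw [Finset.sum_comm]
        refine Finset.sum_congr rfl fun m _ => ?_
        rw [← Finset.mul_sum, Finset.sum_mul]
    _ = ∑ m, 1 / 2 * ((1 : Matrix (Fin 4) (Fin 4) ℝ) k m * D m) := by
        refine Finset.sum_congr rfl fun m _ => ?_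
        rw [← Matrix.mul_apply, hinv]
    _ = 1 / 2 * D k := by
        rw [← Finset.mul_sum]
        simp [Matrix.one_apply]

theorem e5a_pd {p : E4} (h : MetAt G p) (a b c : Fin 4) :
    H31R.pd c (fun y => G y a b) p = H31R.pd c (fun y => G y b a) p := by
  unfold H31R.pd
  have h1 : (fun y => G y a b) =ᶠ[𝓝 p] fun y => G y b a := by
    filter_upwards [h.symm] with q hq
    exact hq a b
  rw [h1.fderiv_eq]

theorem e5a_gam {p : E4} (u : Fin 4 → ℝ) (c : Fin 4) :
    gam G p u xi c = ∑ i, H31R.chr G c i 0 p * u i := by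
  unfold gam
  refine Finset.sum_congr rfl fun i _ => ?_
  rw [Finset.sum_eq_single (0 : Fin 4)]
  · simp [xi]
  · intro j _ hj
    simp [xi, hj]
  · intro h
    exact absurd (Finset.mem_univ _) h

theorem e5a_left {p : E4} (h : MetAt G p) (u w : Fin 4 → ℝ) :
    ip G p (gam G p u xi) w = ∑ a, ∑ b, (1 / 2 * (H31R.pd a (fun y => G y 0 b) p +
      H31R.pd 0 (fun y => G y a b) p - H31R.pd b (fun y => G y a 0) p)) * u a * w b := by
  have e1 : ip G p (gam G p u xi) w =
      ∑ c, ∑ b, ∑ a, G p c b * H31R.chr G c a 0 p * u a * w b := by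
    unfold ip
    refine Finset.sum_congr rfl fun c _ => Finset.sum_congr rfl fun b _ => ?_
    rw [e5a_gam, Finset.mul_sum, Finset.sum_mul]
    exact Finset.sum_congr rfl fun a _ => by ring
  have e2 : ∀ a b : Fin 4, (1 / 2 * (H31R.pd a (fun y => G y 0 b) p +
      H31R.pd 0 (fun y => G y a b) p - H31R.pd b (fun y => G y a 0) p)) * u a * w b =
      ∑ c, G p c b * H31R.chr G c a 0 p * u a * w b := by
    intro a b
    rw [← e5a_lower h a 0 b, Finset.sum_mul, Finset.sum_mul]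
  simp_rw [e2]
  rw [e1, Finset.sum_comm]
  calc ∑ b, ∑ c, ∑ a, G p c b * H31R.chr G c a 0 p * u a * w b
      = ∑ b, ∑ a, ∑ c, G p c b * H31R.chr G c a 0 p * u a * w b :=
        Finset.sum_congr rfl fun b _ => Finset.sum_comm
    _ = _ := Finset.sum_comm

theorem e5a_ipcomm {p : E4} (h : MetAt G p) (u w : Fin 4 → ℝ) : ip G p u w = ip G p w u := by
  unfold ip
  rw [Finset.sum_comm]
  refine Finset.sum_congr rfl fun i _ => Finset.sum_congr rfl fun j _ => ?_
  rw [h.symm.self_of_nhds j i]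
  ring

theorem e5_kill (h : Reg G Ψ W) {p : ℝ × E3} (hp : p ∈ W) (u w : Fin 4 → ℝ) :
    ip G (Ph Ψ p) (gam G (Ph Ψ p) u xi) w + ip G (Ph Ψ p) u (gam G (Ph Ψ p) w xi) =
      ∑ a, ∑ b, H31R.pd 0 (fun q => G q a b) (Ph Ψ p) * u a * w b := by
  have hm := h.met p hp
  rw [e5a_ipcomm hm u, e5a_left hm, e5a_left hm]
  rw [Finset.sum_comm (f := fun a b => (1 / 2 * (H31R.pd a (fun y => G y 0 b) (Ph Ψ p) +
      H31R.pd 0 (fun y => G y a b) (Ph Ψ p) - H31R.pd b (fun y => G y a 0) (Ph Ψ p))) * w a * u b),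
    ← Finset.sum_add_distrib]
  refine Finset.sum_congr rfl fun a _ => ?_
  rw [← Finset.sum_add_distrib]
  refine Finset.sum_congr rfl fun b _ => ?_
  rw [e5a_pd hm b a 0, e5a_pd hm b 0 a, e5a_pd hm a 0 b]
  ring

theorem e5_cov (p v : ℝ × E3) : cov G (Ph Ψ) (fun _ => xi) p v = gam G (Ph Ψ p) (vel (Ph Ψ) p v) xi := by
  funext a
  unfold cov
  simp

end H17W
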