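import Pool.Agent.Lib.H17W.E5A
import Pool.Agent.Lib.H17W.E4B

set_option autoImplicit false

/-!
# H17W, chunk E5B (M): the function `λ = <ξ, L>`

(a) `e5_dlam`: for `s > 0`, by `j_metric` in the direction `dS`, `cov L dS = 0` (`Reg.geo`) and `e5_cov`, `e5_kill` with `u = w = L = vel (Ph Ψ) p dS`:
`∂_s λ = <Γ(L, ξ), L> = (1/2) Σ_ab (∂_0 G_ab) L^a L^b`. (b) It is `Os (-3)` (`e1_dtmet`, `e2_llb`). (c) `λ + ε = Os (-1)`: `λ = Σ_b G_0b L^b`,
`eta_00 = -1`, `e1_met1`, `e2_ll0`; so `λ → -ε` along every generator. (d) `e5_lam`: for `s ≥ R`, `t ≥ s`: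
`|λ(t) - λ(s)| ≤ ∫_s^t C r⁻³ dr ≤ C/(2 s²)` (for instance `g = λ ± (C/2) s⁻²` is monotone, `antitoneOn_of_deriv_nonpos`), and `t → ∞`.
-/

open MeasureTheory Filter Topology Set Asymptotics
open scoped ContDiff

namespace H17W

open H17T (E4 pt pos tang slice second DEC)
open H17B (eta dl)
open Pool.Agent.Lib.PenroseSph (E3 Tens S2 sm pd)

variable {G : E4 → Matrix (Fin 4) (Fin 4) ℝ} {Ψ : ℝ × E3 → E4} {W : Set (ℝ × E3)} {ε m : ℝ}

theorem e5b_symm (h : Reg G Ψ W) {p : ℝ × E3} (hp : p ∈ W) (a b : Fin 4 → ℝ) :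
    ip G (Ph Ψ p) a b = ip G (Ph Ψ p) b a := by
  have h1 := (h.met p hp).symm.self_of_nhds
  unfold ip
  rw [Finset.sum_comm]
  refine Finset.sum_congr rfl fun i _ => Finset.sum_congr rfl fun j _ => ?_
  rw [h1 j i]
  ring

theorem e5_dlam (h : Reg G Ψ W) {s : ℝ} (hs : 0 < s) {x : E3} (hx : x ≠ 0) :
    HasDerivAt (fun t => ip G (Ph Ψ (t, x)) xi (LL Ψ (t, x)))
      ((∑ a, ∑ b, H31R.pd 0 (fun q => G q a b) (Ph Ψ (s, x)) * LL Ψ (s, x) a * LL Ψ (s, x) b) / 2) s := by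
  have hp : (s, x) ∈ W := h.mem s hs.le x hx
  have hdiff : DifferentiableAt ℝ (ipp G Ψ (fun _ => xi) (LL Ψ)) (s, x) := by
    unfold ipp ip
    refine DifferentiableAt.fun_sum (fun i _ => DifferentiableAt.fun_sum (fun j _ => ?_))
    exact (((j_met h hp i j).differentiableAt (by simp)).mul (differentiableAt_const _)).mul
      ((j_ll h hp j).differentiableAt (by simp))
  have h1 := eq_ds hdiff
  have h2 := j_metric h hs.le hx (A := fun _ => xi) (B := LL Ψ) (fun a => differentiableAt_const _)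
    (fun a => (j_ll h hp a).differentiableAt (by simp)) dS
  rw [h.geo s hs.le x hx, e5_cov] at h2
  have h3 : vel (Ph Ψ) (s, x) dS = LL Ψ (s, x) := rfl
  rw [h3] at h2
  have h4 := e5_kill h hp (LL Ψ (s, x)) (LL Ψ (s, x))
  rw [e5b_symm h hp (LL Ψ (s, x))] at h4
  have h6 : ip G (Ph Ψ (s, x)) xi 0 = 0 := by simp [ip]
  have h7 : fderiv ℝ (ipp G Ψ (fun _ => xi) (LL Ψ)) (s, x) dS =
      (∑ a, ∑ b, H31R.pd 0 (fun q => G q a b) (Ph Ψ (s, x)) * LL Ψ (s, x) a * LL Ψ (s, x) b) / 2 := by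
    rw [h2, h6]
    linarith
  rw [h7] at h1
  exact h1

theorem e5_lam1 (h : Far G Ψ W ε m) : Os (-1) fun p => ip G (Ph Ψ p) xi (LL Ψ p) + ε := by
  have e : (fun p => ip G (Ph Ψ p) xi (LL Ψ p) + ε) = fun p =>
      (∑ j, (G (Ph Ψ p) 0 j - eta 0 j) * LL Ψ p j) + -(LL Ψ p 0 - ε) := by
    funext p
    unfold ip xi eta
    simp only [Fin.sum_univ_four]
    simp
    ring
  rw [e]
  refine Os.add (Os.sum _ fun j _ => ?_) (Os.neg (e2_ll0 h))
  exact (e1_met1 h 0 j).mul (e2_llb h j) (by norm_num)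

theorem e5b_dec {f f' : ℝ → ℝ} {C R : ℝ} (hR : 1 ≤ R) (h1 : ∀ t, R ≤ t → HasDerivAt f (f' t) t)
    (h2 : ∀ t, R ≤ t → -(C * t ^ (-3 : ℤ)) ≤ f' t) (h3 : Tendsto f atTop (𝓝 0)) (t : ℝ)
    (ht : R ≤ t) : f t ≤ C / 2 * t ^ (-2 : ℤ) := by
  have hd : ∀ u, R ≤ u → HasDerivAt (fun u => f u - C / 2 * u ^ (-2 : ℤ)) (f' u + C * u ^ (-3 : ℤ)) u := by
    intro u hu
    have hu0 : u ≠ 0 := (lt_of_lt_of_le one_pos (hR.trans hu)).ne'
    have h4 := (h1 u hu).sub ((hasDerivAt_zpow (-2) u (Or.inl hu0)).const_mul (C / 2))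
    refine h4.congr_deriv ?_
    norm_num
    ring
  have hmono : MonotoneOn (fun u => f u - C / 2 * u ^ (-2 : ℤ)) (Ici R) := by
    refine monotoneOn_of_deriv_nonneg (convex_Ici R)
      (fun u hu => (hd u hu).continuousAt.continuousWithinAt) ?_ ?_
    · intro u hu
      rw [interior_Ici] at hu
      exact (hd u (le_of_lt hu)).differentiableAt.differentiableWithinAt
    · intro u hu
      rw [interior_Ici] at hu
      rw [(hd u (le_of_lt hu)).deriv]
      have := h2 u (le_of_lt hu)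
      linarith
  have hlim : Tendsto (fun u => f u - C / 2 * u ^ (-2 : ℤ)) atTop (𝓝 0) := by
    have h5 : Tendsto (fun u : ℝ => u ^ (-2 : ℤ)) atTop (𝓝 0) :=
      tendsto_zpow_atTop_zero (by norm_num)
    have h6 := h3.sub (h5.const_mul (C / 2))
    simpa using h6
  have h7 : f t - C / 2 * t ^ (-2 : ℤ) ≤ 0 := by
    refine ge_of_tendsto hlim ?_
    filter_upwards [eventually_ge_atTop t] with u hu
    exact hmono (show t ∈ Ici R from ht) (show u ∈ Ici R from ht.trans hu) hu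
  linarith

theorem e5b_tend {F : ℝ × E3 → ℝ} (h : Os (-1) F) (n : S2) :
    Tendsto (fun t => F (t, (n : E3))) atTop (𝓝 0) := by
  obtain ⟨C, R, _, _, hb⟩ := h.bound
  have h5 : Tendsto (fun u : ℝ => C * u ^ (-1 : ℤ)) atTop (𝓝 0) := by
    have h6 : Tendsto (fun u : ℝ => u ^ (-1 : ℤ)) atTop (𝓝 0) :=
      tendsto_zpow_atTop_zero (by norm_num)
    simpa using h6.const_mul C
  refine squeeze_zero_norm' ?_ h5
  filter_upwards [eventually_ge_atTop R] with u hu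
  rw [Real.norm_eq_abs]
  exact hb u hu n

theorem e5_lam (h : Far G Ψ W ε m) : Os (-2) fun p => ip G (Ph Ψ p) xi (LL Ψ p) + ε := by
  have hD : Os (-3) fun p =>
      (∑ a, ∑ b, H31R.pd 0 (fun q => G q a b) (Ph Ψ p) * LL Ψ p a * LL Ψ p b) / 2 := by
    have h1 : Os (-3) fun p =>
        ∑ a, ∑ b, H31R.pd 0 (fun q => G q a b) (Ph Ψ p) * LL Ψ p a * LL Ψ p b := by
      refine Os.sum _ fun a _ => Os.sum _ fun b _ => ?_
      exact ((e1_dtmet h a b).mul (e2_llb h a) (j := -3) (by norm_num)).mul (e2_llb h b) (by norm_num)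
    refine (Os.const_mul h1 (1 / 2)).congr (Eventually.of_forall fun p => ?_)
    ring
  obtain ⟨C, R, hR, _, hb⟩ := hD.bound
  refine Os.of_bound (C / 2) R fun s hs _ n => ?_
  have hn : (n : E3) ≠ 0 := by
    intro h0
    have h1 : ‖(n : E3)‖ = 1 := by simp
    rw [h0] at h1
    simp at h1
  have hder : ∀ t, R ≤ t → HasDerivAt (fun t => ip G (Ph Ψ (t, (n : E3))) xi (LL Ψ (t, (n : E3))) + ε)
      ((∑ a, ∑ b, H31R.pd 0 (fun q => G q a b) (Ph Ψ (t, (n : E3))) * LL Ψ (t, (n : E3)) a *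
        LL Ψ (t, (n : E3)) b) / 2) t := by
    intro t ht
    exact (e5_dlam h.reg (lt_of_lt_of_le one_pos (hR.trans ht)) hn).add_const ε
  have hlim : Tendsto (fun t => ip G (Ph Ψ (t, (n : E3))) xi (LL Ψ (t, (n : E3))) + ε) atTop (𝓝 0) :=
    e5b_tend (e5_lam1 h) n
  rw [abs_le]
  constructor
  · have h1 := e5b_dec (f := fun t => -(ip G (Ph Ψ (t, (n : E3))) xi (LL Ψ (t, (n : E3))) + ε))
      (C := C) hR (fun t ht => (hder t ht).neg) (fun t ht => by
        have := (abs_le.1 (hb t ht n)).2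
        linarith) (by simpa using hlim.neg) s hs
    linarith
  · exact e5b_dec (C := C) hR hder (fun t ht => (abs_le.1 (hb t ht n)).1) hlim s hs

end H17W
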