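import Pool.Agent.Lib.H17W.E5B

set_option autoImplicit false

/-!
# H17W, chunk E6 (M): `<ξ, X_i>` and `<ξ, k>`

(a) `e6_xi`: `ξ_i = Σ_b G_0b X_i^b = G_00 X_i^0 + Σ_l G_0l X_i^l`; `X_i^0 = Os 0` (`e2_xx0`), `G_0l = Os (-2)` (`e1_met`, `dl`, `eta` vanish
off the diagonal), `X_i^l = Os 1`. (b) `e6_g00`: `j_split` with `u = w = xi`; `ip xi xi = G_00`. (c) `e6_xik`: `G_00 = -1 + 2m/s + Os (-2)`
(`e1_met`, `eta 0 0 = -1`, `dl 0 0 = 1`) and `Q_ij ξ_i ξ_j = Os (-2)`.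
-/

open MeasureTheory Filter Topology Set Asymptotics
open scoped ContDiff

namespace H17W

open H17T (E4 pt pos tang slice second DEC)
open H17B (eta dl)
open Pool.Agent.Lib.PenroseSph (E3 Tens S2 sm pd)

variable {G : E4 → Matrix (Fin 4) (Fin 4) ℝ} {Ψ : ℝ × E3 → E4} {W : Set (ℝ × E3)} {ε m : ℝ}

theorem e6_ip (G : E4 → Matrix (Fin 4) (Fin 4) ℝ) (q : E4) (B : Fin 4 → ℝ) :
    ip G q xi B = G q 0 0 * B 0 + ∑ l : Fin 3, G q 0 l.succ * B l.succ := by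
  unfold ip
  rw [Fin.sum_univ_succ]
  have h : ∀ i : Fin 3, ∑ b, G q i.succ b * xi i.succ * B b = 0 := by
    intro i
    simp [xi, Fin.succ_ne_zero]
  simp only [h, Finset.sum_const_zero, add_zero]
  rw [Fin.sum_univ_succ]
  simp [xi]

theorem e6_xi (h : Far G Ψ W ε m) (i : Fin 3) : Os 0 fun p => ip G (Ph Ψ p) xi (XX Ψ i p) := by
  simp only [e6_ip]
  refine Os.add ?_ (Os.sum _ fun l _ => ?_)
  · exact (e1_met0 h 0 0).mul (e2_xx0 h i) (by norm_num)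
  · have h0 : Os (-2) fun p => G (Ph Ψ p) 0 l.succ := by
      refine Os.congr (e1_met h 0 l.succ) (Eventually.of_forall fun p => ?_)
      simp [eta, dl, (Fin.succ_ne_zero l).symm]
    exact h0.mul (e2_xx1 h i l.succ) (by norm_num)

theorem e6_g00 (h : Reg G Ψ W) {s : ℝ} (hs : 0 ≤ s) {x : E3} (hx : x ≠ 0) :
    G (Ph Ψ (s, x)) 0 0 = ∑ i, ∑ j, QQ G Ψ i j (s, x) * ip G (Ph Ψ (s, x)) xi (XX Ψ i (s, x)) *
      ip G (Ph Ψ (s, x)) xi (XX Ψ j (s, x)) +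
      ip G (Ph Ψ (s, x)) xi (LL Ψ (s, x)) * ip G (Ph Ψ (s, x)) xi (kk G Ψ (s, x)) := by
  have h1 := j_split h hs hx xi xi
  have h2 : ip G (Ph Ψ (s, x)) xi xi = G (Ph Ψ (s, x)) 0 0 := by
    rw [e6_ip]
    simp [xi, Fin.succ_ne_zero]
  rw [h2] at h1
  rw [h1]
  ring

theorem e6_xik (h : Far G Ψ W ε m) :
    Os (-2) fun p => ip G (Ph Ψ p) xi (LL Ψ p) * ip G (Ph Ψ p) xi (kk G Ψ p) + (1 - 2 * m / p.1) := by
  have h1 : Os (-2) fun p => ∑ i, ∑ j, QQ G Ψ i j p * ip G (Ph Ψ p) xi (XX Ψ i p) *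
      ip G (Ph Ψ p) xi (XX Ψ j p) := by
    refine Os.sum _ fun i _ => Os.sum _ fun j _ => ?_
    exact ((e3_qq h i j).mul (e6_xi h i) (j := -2) (by norm_num)).mul (e6_xi h j) (by norm_num)
  refine Os.congr ((e1_met h 0 0).sub h1) ?_
  filter_upwards [inf_ge 0, inf_norm] with p hp hn
  have hx : p.2 ≠ 0 := by
    intro h0
    rw [h0, norm_zero] at hn
    exact zero_ne_one hn
  have h2 := e6_g00 h.reg hp hx
  simp only [Prod.mk.eta] at h2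
  rw [h2]
  have e0 : eta 0 0 = -1 := by simp [eta]
  have e1 : dl (0 : Fin 4) 0 = 1 := by simp [dl]
  rw [e0, e1]
  ring

end H17W
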