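import Pool.Agent.Lib.H17W.E6

set_option autoImplicit false

/-!
# H17W, chunk E7A (M): the divergence of the tangential part of `ξ`

`divx = Q_ij (∂_i ξ_j - cc^m_ij ξ_m)`, `ξ_j = <ξ, X_j>`.
(a) `e7_id` (`s > 0`, `x ≠ 0`): `j_metric` with `A = ξ` (constant), `B = X_j`: `∂_i ξ_j = <Γ(X_i, ξ), X_j> + <ξ, D_i X_j>` (`e5_cov`), and
`j_covx`: `<ξ, D_i X_j> = cc^m_ij ξ_m - (kap_ij λ + chi_ij <ξ, k>)/2`. Contract with the symmetric `Q_ij` (`j_qsymm`) and use `e5_kill`: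
`Σ Q_ij <Γ(X_i, ξ), X_j> = (1/2) Σ Q_ij (∂_0 G)(X_i, X_j)`. (b) `e7_err`: `Os (-2) * Os (-3) * Os 1 * Os 1`.
-/

open MeasureTheory Filter Topology Set Asymptotics
open scoped ContDiff

namespace H17W

open H17T (E4 pt pos tang slice second DEC)
open H17B (eta dl)
open Pool.Agent.Lib.PenroseSph (E3 Tens S2 sm pd)

variable {G : E4 → Matrix (Fin 4) (Fin 4) ℝ} {Ψ : ℝ × E3 → E4} {W : Set (ℝ × E3)} {ε m : ℝ}

/-- The divergence of the tangential part of `∂_T`. -/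
noncomputable def divx (G : E4 → Matrix (Fin 4) (Fin 4) ℝ) (Ψ : ℝ × E3 → E4) (p : ℝ × E3) : ℝ :=
  ∑ i, ∑ j, QQ G Ψ i j p * (fderiv ℝ (fun q => ip G (Ph Ψ q) xi (XX Ψ j q)) p (dX i) -
    ∑ m, cc G Ψ m i j p * ip G (Ph Ψ p) xi (XX Ψ m p))

theorem e7_id (h : Reg G Ψ W) {s : ℝ} (hs : 0 < s) {x : E3} (hx : x ≠ 0) :
    divx G Ψ (s, x) = (∑ i, ∑ j, QQ G Ψ i j (s, x) * ∑ a, ∑ b, H31R.pd 0 (fun q => G q a b) (Ph Ψ (s, x)) *
        XX Ψ i (s, x) a * XX Ψ j (s, x) b) / 2 -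
      (ip G (Ph Ψ (s, x)) xi (LL Ψ (s, x)) * tht G Ψ (s, x) + ip G (Ph Ψ (s, x)) xi (kk G Ψ (s, x)) * exl G Ψ (s, x)) / 2 := by
  have hp : (s, x) ∈ W := h.mem s hs.le x hx
  have hsym : ∀ a b, G (Ph Ψ (s, x)) a b = G (Ph Ψ (s, x)) b a := (h.met _ hp).symm.self_of_nhds
  set q : E4 := Ph Ψ (s, x) with hq
  set A : Fin 3 → Fin 3 → ℝ := fun i j => ip G q (gam G q (XX Ψ i (s, x)) xi) (XX Ψ j (s, x)) with hA
  set D : Fin 3 → Fin 3 → ℝ := fun i j =>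
    ∑ a, ∑ b, H31R.pd 0 (fun q => G q a b) q * XX Ψ i (s, x) a * XX Ψ j (s, x) b with hD
  set lam : ℝ := ip G q xi (LL Ψ (s, x)) with hlam
  set kpa : ℝ := ip G q xi (kk G Ψ (s, x)) with hkpa
  -- the bracket
  have hbr : ∀ i j, fderiv ℝ (fun q => ip G (Ph Ψ q) xi (XX Ψ j q)) (s, x) (dX i) -
      ∑ m, cc G Ψ m i j (s, x) * ip G q xi (XX Ψ m (s, x)) =
      A i j - (kap G Ψ i j (s, x) * lam + chi G Ψ i j (s, x) * kpa) / 2 := by
    intro i j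
    have h1 := j_metric h hs.le hx (A := fun _ => xi) (B := XX Ψ j)
      (fun a => differentiableAt_const _)
      (fun a => (j_xx h hp j a).differentiableAt (by simp)) (dX i)
    rw [e5_cov] at h1
    have h2 : fderiv ℝ (fun q => ip G (Ph Ψ q) xi (XX Ψ j q)) (s, x) (dX i) =
        fderiv ℝ (ipp G Ψ (fun _ => xi) (XX Ψ j)) (s, x) (dX i) := rfl
    have h3 : ip G q xi (cov G (Ph Ψ) (XX Ψ j) (s, x) (dX i)) =
        ∑ m, cc G Ψ m i j (s, x) * ip G q xi (XX Ψ m (s, x)) -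
        (kap G Ψ i j (s, x) * lam + chi G Ψ i j (s, x) * kpa) / 2 := by
      have h4 : cov G (Ph Ψ) (XX Ψ j) (s, x) (dX i) = fun a => ∑ m, cc G Ψ m i j (s, x) * XX Ψ m (s, x) a -
        (kap G Ψ i j (s, x) * LL Ψ (s, x) a + chi G Ψ i j (s, x) * kk G Ψ (s, x) a) / 2 := by
        funext a
        exact j_covx h hs hx i j a
      rw [h4, e6_ip, hlam, hkpa, e6_ip, e6_ip]
      simp only [e6_ip, Fin.sum_univ_three]
      ring
    rw [h2, h1]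
    have h5 : vel (Ph Ψ) (s, x) (dX i) = XX Ψ i (s, x) := rfl
    rw [h5, ← hq, h3]
    simp only [hA]
    ring
  -- symmetric part
  have hkill : ∀ i j, A i j + A j i = D i j := by
    intro i j
    have h1 := e5_kill h hp (XX Ψ i (s, x)) (XX Ψ j (s, x))
    rw [← hq] at h1
    have h2 : ip G q (XX Ψ i (s, x)) (gam G q (XX Ψ j (s, x)) xi) = A j i := by
      simp only [hA]
      unfold ip
      rw [Finset.sum_comm]
      refine Finset.sum_congr rfl fun a _ => Finset.sum_congr rfl fun b _ => ?_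
      rw [hsym b a]
      ring
    rw [h2] at h1
    exact h1
  have hQ : ∀ i j, QQ G Ψ i j (s, x) = QQ G Ψ j i (s, x) := fun i j => j_qsymm h hs.le hx i j
  have hsum : ∑ i, ∑ j, QQ G Ψ i j (s, x) * D i j = 2 * ∑ i, ∑ j, QQ G Ψ i j (s, x) * A i j := by
    have e1 : ∑ i, ∑ j, QQ G Ψ i j (s, x) * D i j = ∑ i, ∑ j, QQ G Ψ i j (s, x) * A i j +
        ∑ i, ∑ j, QQ G Ψ i j (s, x) * A j i := by
      rw [← Finset.sum_add_distrib]
      refine Finset.sum_congr rfl fun i _ => ?_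
      rw [← Finset.sum_add_distrib]
      refine Finset.sum_congr rfl fun j _ => ?_
      rw [← hkill i j]
      ring
    have e2 : ∑ i, ∑ j, QQ G Ψ i j (s, x) * A j i = ∑ i, ∑ j, QQ G Ψ i j (s, x) * A i j := by
      rw [Finset.sum_comm]
      refine Finset.sum_congr rfl fun i _ => Finset.sum_congr rfl fun j _ => ?_
      rw [hQ j i]
    rw [e1, e2]
    ring
  have hdiv : divx G Ψ (s, x) = ∑ i, ∑ j, QQ G Ψ i j (s, x) *
      (A i j - (kap G Ψ i j (s, x) * lam + chi G Ψ i j (s, x) * kpa) / 2) := by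
    unfold divx
    refine Finset.sum_congr rfl fun i _ => Finset.sum_congr rfl fun j _ => ?_
    rw [← hq, hbr i j]
  have hsplit : ∑ i, ∑ j, QQ G Ψ i j (s, x) *
      (A i j - (kap G Ψ i j (s, x) * lam + chi G Ψ i j (s, x) * kpa) / 2) =
      ∑ i, ∑ j, QQ G Ψ i j (s, x) * A i j - (lam * ∑ i, ∑ j, QQ G Ψ i j (s, x) * kap G Ψ i j (s, x) +
        kpa * ∑ i, ∑ j, QQ G Ψ i j (s, x) * chi G Ψ i j (s, x)) / 2 := by
    simp only [Fin.sum_univ_three]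
    ring
  rw [hdiv, hsplit]
  have ht : tht G Ψ (s, x) = ∑ i, ∑ j, QQ G Ψ i j (s, x) * kap G Ψ i j (s, x) := rfl
  have he : exl G Ψ (s, x) = ∑ i, ∑ j, QQ G Ψ i j (s, x) * chi G Ψ i j (s, x) := rfl
  rw [ht, he]
  have hD' : (∑ i, ∑ j, QQ G Ψ i j (s, x) * ∑ a, ∑ b, H31R.pd 0 (fun q => G q a b) q *
        XX Ψ i (s, x) a * XX Ψ j (s, x) b) = ∑ i, ∑ j, QQ G Ψ i j (s, x) * D i j := rfl
  rw [hD', hsum]
  ring

theorem e7_err (h : Far G Ψ W ε m) : Os (-3) fun p => ∑ i, ∑ j, QQ G Ψ i j p * ∑ a, ∑ b,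
    H31R.pd 0 (fun q => G q a b) (Ph Ψ p) * XX Ψ i p a * XX Ψ j p b := by
  refine Os.sum _ fun i _ => Os.sum _ fun j _ => ?_
  refine (e3_qq h i j).mul (l := -1) (Os.sum _ fun a _ => Os.sum _ fun b _ => ?_) (by norm_num)
  exact ((e1_dtmet h a b).mul (e2_xx1 h i a) (j := -2) (by norm_num)).mul (e2_xx1 h j b) (by norm_num)

end H17W
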