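import Pool.Agent.Lib.H17W.E7A

set_option autoImplicit false

/-!
# H17W, chunk E7B (S/M): the expansion `θ` in terms of `exl`

With (a) = `e7_id`, (b) = `e7_err`.
(c) `e7_div`: `divx = Os (-1)` from (a), `e4_tht`, `e4_exl`, `e4_kk` (`<ξ, k> = Os 0`). (d) `e7_tht`: multiply (a) by `-2 λ`:
`λ² θ = -λ <ξ,k> exl - 2 λ divx + Os (-3)`; `λ² = 1 + Os (-2)` (`e5_lam`, `ε² = 1`), `λ = -ε + Os (-2)`, `λ <ξ,k> = -(1 - 2m/s) + Os (-2)` (`e6_xik`).
-/

open MeasureTheory Filter Topology Set Asymptotics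
open scoped ContDiff

namespace H17W

open H17T (E4 pt pos tang slice second DEC)
open H17B (eta dl)
open Pool.Agent.Lib.PenroseSph (E3 Tens S2 sm pd)

variable {G : E4 → Matrix (Fin 4) (Fin 4) ℝ} {Ψ : ℝ × E3 → E4} {W : Set (ℝ × E3)} {ε m : ℝ}

theorem e7b_id (h : Far G Ψ W ε m) : ∀ᶠ p in Inf, divx G Ψ p = (∑ i, ∑ j, QQ G Ψ i j p * ∑ a, ∑ b,
    H31R.pd 0 (fun q => G q a b) (Ph Ψ p) * XX Ψ i p a * XX Ψ j p b) / 2 -
      (ip G (Ph Ψ p) xi (LL Ψ p) * tht G Ψ p + ip G (Ph Ψ p) xi (kk G Ψ p) * exl G Ψ p) / 2 := by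
  filter_upwards [inf_ge 1, inf_norm] with p hp hn
  obtain ⟨s, x⟩ := p
  have hs : 0 < s := lt_of_lt_of_le one_pos hp
  have hx : x ≠ 0 := by
    intro h0
    rw [h0] at hn
    simp at hn
  exact e7_id h.reg hs hx

theorem e7b_lam0 (h : Far G Ψ W ε m) : Os 0 fun p => ip G (Ph Ψ p) xi (LL Ψ p) := by
  have h1 := ((e5_lam h).mono (show (-2 : ℤ) ≤ 0 by norm_num)).sub (Os.const ε)
  refine h1.congr (Eventually.of_forall fun p => ?_)
  ring

theorem e7b_xk0 (h : Far G Ψ W ε m) (hε : ε = 1 ∨ ε = -1) : Os 0 fun p => ip G (Ph Ψ p) xi (kk G Ψ p) :=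
  e4_ipb h (k := 0) (l := 0) (by norm_num) (fun a => Os.const (xi a)) (e4_kk h hε)

theorem e7_div (h : Far G Ψ W ε m) (hε : ε = 1 ∨ ε = -1) : Os (-1) (divx G Ψ) := by
  have h1 := (e7_err h).mono (show (-3 : ℤ) ≤ -1 by norm_num)
  have h2 := (e7b_lam0 h).mul (e4_tht h hε) (j := -1) (by norm_num)
  have h3 := (e7b_xk0 h hε).mul (e4_exl h) (j := -1) (by norm_num)
  have h4 := (Os.const_mul h1 (1 / 2)).sub (Os.const_mul (h2.add h3) (1 / 2))
  refine h4.congr ?_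
  filter_upwards [e7b_id h] with p hp
  rw [hp]
  ring

theorem e7_tht (h : Far G Ψ W ε m) (hε : ε = 1 ∨ ε = -1) :
    Os (-3) fun p => tht G Ψ p - (1 - 2 * m / p.1) * exl G Ψ p - 2 * ε * divx G Ψ p := by
  have hth := e4_tht h hε
  have hex := e4_exl h
  have hD := e7_div h hε
  have ha := e5_lam h
  have hb := e6_xik h
  have hE := e7_err h
  have hl := e7b_lam0 h
  have h1 : Os (-3) fun p => (ip G (Ph Ψ p) xi (LL Ψ p) + ε) * tht G Ψ p := ha.mul hth (by norm_num)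
  have h2 : Os (-3) fun p => (ip G (Ph Ψ p) xi (LL Ψ p) + ε) * ((ip G (Ph Ψ p) xi (LL Ψ p) + ε) * tht G Ψ p) :=
    ha.mul h1 (by norm_num)
  have h3 := hl.mul hE (j := -3) (by norm_num)
  have h4 := hb.mul hex (j := -3) (by norm_num)
  have h5 := ha.mul hD (j := -3) (by norm_num)
  have h6 := ((((Os.const_mul h1 (2 * ε)).sub h2).add h3).sub h4).sub (Os.const_mul h5 2)
  refine h6.congr ?_
  filter_upwards [e7b_id h] with p hp
  have hε2 : ε * ε = 1 := by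
    rcases hε with rfl | rfl
    · norm_num
    · norm_num
  set E := ∑ i, ∑ j, QQ G Ψ i j p * ∑ a, ∑ b,
    H31R.pd 0 (fun q => G q a b) (Ph Ψ p) * XX Ψ i p a * XX Ψ j p b with hEd
  have hE2 : E = 2 * divx G Ψ p + (ip G (Ph Ψ p) xi (LL Ψ p) * tht G Ψ p + ip G (Ph Ψ p) xi (kk G Ψ p) * exl G Ψ p) := by
    rw [hp]
    ring
  rw [hE2]
  linear_combination (tht G Ψ p) * hε2

end H17W
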