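import Pool.Agent.Lib.H17W.EJ

set_option autoImplicit false

/-!
# H17W, chunk E8A (M, pure): the radial field of the cylinder metric is parallel

`e8_chr`: `2 Σ_i,j x_i x_j Γ_{l,ij} = Σ x_i x_j (2 ∂_i P_jl - ∂_l P_ij)`;
`Σ_i x_i ∂_i P_jl = -2 P_jl` (Euler), `Σ_ij x_i x_j ∂_l P_ij = ∂_l (Σ x_i x_j P_ij) - 2 Σ_j P_lj x_j = ∂_l (1) - 2 x_l/|x|² = -2 x_l/|x|²`
(`rad`), `Σ_j x_j P_jl = x_l/|x|²`: total `2 Σ x_i x_j Γ_{l,ij} = -4 x_l/|x|² + 2 x_l/|x|² = -2 x_l/|x|²`; raise the index with `P⁻¹ (x/|x|²) = x`.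
-/

open MeasureTheory Filter Topology Set Asymptotics
open scoped ContDiff

namespace H17W

open H17T (E4 pt pos tang slice second DEC)
open H17B (eta dl)
open Pool.Agent.Lib.PenroseSph (E3 Tens S2 sm pd)

variable {G : E4 → Matrix (Fin 4) (Fin 4) ℝ} {Ψ : ℝ × E3 → E4} {W : Set (ℝ × E3)} {ε m : ℝ}

theorem e8a_sum (f : E3 → ℝ) (x : E3) : ∑ i, x i * pd i f x = fderiv ℝ f x x := by
  have h1 : ∑ i, x i • EuclideanSpace.single i (1 : ℝ) = x := by
    ext j
    simp [Pi.single_apply]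
  have h2 : fderiv ℝ f x (∑ i, x i • EuclideanSpace.single i (1 : ℝ)) = ∑ i, x i * pd i f x := by
    rw [map_sum]
    refine Finset.sum_congr rfl fun i _ => ?_
    rw [map_smul, smul_eq_mul]
    rfl
  rw [← h2, h1]

theorem e8a_hom {f : E3 → ℝ} {x : E3} {k : ℕ} (hf : DifferentiableAt ℝ f x) (h : ∀ c : ℝ, 0 < c → f (c • x) = f x / c ^ k) :
    ∑ i, x i * pd i f x = -(k : ℝ) * f x := by
  rw [e8a_sum]
  have h1 : HasDerivAt (fun t : ℝ => f (t • x)) (fderiv ℝ f x x) 1 := by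
    have h2 : HasDerivAt (fun t : ℝ => t • x) ((1 : ℝ) • x) 1 := (hasDerivAt_id (1 : ℝ)).smul_const x
    rw [one_smul] at h2
    have h3 : HasFDerivAt f (fderiv ℝ f x) ((1 : ℝ) • x) := by
      rw [one_smul]
      exact hf.hasFDerivAt
    exact h3.comp_hasDerivAt (1 : ℝ) h2
  have h4 : HasDerivAt (fun t : ℝ => f x * (t ^ k)⁻¹) (f x * (-((k : ℝ) * (1 : ℝ) ^ (k - 1)) / ((1 : ℝ) ^ k) ^ 2)) 1 :=
    (((hasDerivAt_pow k (1 : ℝ)).inv (by simp)).const_mul (f x))
  have h5 : HasDerivAt (fun t : ℝ => f (t • x)) (f x * (-((k : ℝ) * (1 : ℝ) ^ (k - 1)) / ((1 : ℝ) ^ k) ^ 2)) 1 := by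
    refine h4.congr_of_eventuallyEq ?_
    filter_upwards [lt_mem_nhds (one_pos : (0 : ℝ) < 1)] with t ht
    rw [h t ht, div_eq_mul_inv]
  rw [h1.unique h5]
  simp
  ring

theorem e8a_diff {P : E3 → Matrix (Fin 3) (Fin 3) ℝ} (hP : Cyl P) {x : E3} (hx : x ≠ 0) (i j : Fin 3) :
    DifferentiableAt ℝ (fun y => P y i j) x := (hP.smooth x hx i j).differentiableAt (by simp)

theorem e8a_rad {P : E3 → Matrix (Fin 3) (Fin 3) ℝ} (hP : Cyl P) {x : E3} (hx : x ≠ 0) (l : Fin 3) :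
    ∑ i, ∑ j, x i * x j * pd l (fun y => P y i j) x = -2 * (x l / ‖x‖ ^ 2) := by
  have hcoord : ∀ i : Fin 3, HasFDerivAt (fun y : E3 => y i) (EuclideanSpace.proj i : E3 →L[ℝ] ℝ) x := fun i =>
    (EuclideanSpace.proj i : E3 →L[ℝ] ℝ).hasFDerivAt
  have hterm : ∀ i j : Fin 3, HasFDerivAt (fun y : E3 => y i * y j * P y i j)
      ((x i * x j) • fderiv ℝ (fun y => P y i j) x + P x i j • (x i • (EuclideanSpace.proj j : E3 →L[ℝ] ℝ) +
        x j • (EuclideanSpace.proj i : E3 →L[ℝ] ℝ))) x := fun i j =>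
    ((hcoord i).mul (hcoord j)).mul (e8a_diff hP hx i j).hasFDerivAt
  have hf : HasFDerivAt (fun y : E3 => ∑ i, ∑ j, y i * y j * P y i j)
      (∑ i, ∑ j, ((x i * x j) • fderiv ℝ (fun y => P y i j) x + P x i j • (x i • (EuclideanSpace.proj j : E3 →L[ℝ] ℝ) +
        x j • (EuclideanSpace.proj i : E3 →L[ℝ] ℝ)))) x :=
    HasFDerivAt.fun_sum fun i _ => HasFDerivAt.fun_sum fun j _ => hterm i j
  have hone : ∀ y : E3, y ≠ 0 → ∑ i, ∑ j, y i * y j * P y i j = 1 := by
    intro y hy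
    have h1 : ∀ i, ∑ j, y i * y j * P y i j = y i * (y i / ‖y‖ ^ 2) := by
      intro i
      rw [← hP.rad y hy i, Finset.mul_sum]
      exact Finset.sum_congr rfl fun j _ => by ring
    have h2 : ∑ i, y i * (y i / ‖y‖ ^ 2) = (∑ i, y i ^ 2) / ‖y‖ ^ 2 := by
      rw [Finset.sum_div]
      exact Finset.sum_congr rfl fun j _ => by ring
    have h3 : ∑ i, y i ^ 2 = ‖y‖ ^ 2 := (EuclideanSpace.real_norm_sq_eq y).symm
    rw [Finset.sum_congr rfl fun i _ => h1 i, h2, h3]
    exact div_self (pow_ne_zero 2 (norm_ne_zero_iff.2 hy))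
  have hzero : HasFDerivAt (fun y : E3 => ∑ i, ∑ j, y i * y j * P y i j) (0 : E3 →L[ℝ] ℝ) x := by
    refine (hasFDerivAt_const (1 : ℝ) x).congr_of_eventuallyEq ?_
    filter_upwards [isOpen_ne.mem_nhds hx] with y hy
    exact hone y hy
  have heq := congrArg (fun T : E3 →L[ℝ] ℝ => T (EuclideanSpace.single l 1)) (hf.unique hzero)
  have hproj : ∀ i : Fin 3, (EuclideanSpace.proj i : E3 →L[ℝ] ℝ) (EuclideanSpace.single l (1 : ℝ)) = if i = l then 1 else 0 := by
    intro i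
    show (EuclideanSpace.single l (1 : ℝ) : E3) i = _
    simp
  have heq2 : ∑ i, ∑ j, (x i * x j * pd l (fun y => P y i j) x + P x i j * (x i * (if j = l then 1 else 0) +
      x j * (if i = l then 1 else 0))) = 0 := by
    have h := heq
    simp only [sum_apply, add_apply, smul_apply, smul_eq_mul, zero_apply, hproj] at h
    exact h
  have h1 : ∑ i, ∑ j, P x i j * (x i * (if j = l then (1 : ℝ) else 0) + x j * (if i = l then 1 else 0)) =
      ∑ i, P x i l * x i + ∑ j, P x l j * x j := by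
    have e1 : ∀ i, ∑ j, P x i j * (x i * (if j = l then (1 : ℝ) else 0) + x j * (if i = l then 1 else 0)) =
        P x i l * x i + (if i = l then ∑ j, P x i j * x j else 0) := by
      intro i
      simp only [mul_add, Finset.sum_add_distrib]
      congr 1
      · simp
      · by_cases hil : i = l
        · simp [hil]
        · simp [hil]
    rw [Finset.sum_congr rfl fun i _ => e1 i, Finset.sum_add_distrib]
    simp
  have h2 : ∑ i, P x i l * x i = ∑ j, P x l j * x j := Finset.sum_congr rfl fun i _ => by rw [hP.symm x hx i l]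
  simp only [Finset.sum_add_distrib] at heq2
  simp only [Finset.sum_add_distrib, mul_add] at heq2 h1
  rw [h2, hP.rad x hx l] at h1
  linarith

theorem e8a_det {P : E3 → Matrix (Fin 3) (Fin 3) ℝ} (hP : Cyl P) {x : E3} (hx : x ≠ 0) : (P x).det ≠ 0 := by
  intro h0
  obtain ⟨v, hv, hv0⟩ := Matrix.exists_mulVec_eq_zero_iff.2 h0
  have h1 := hP.pos x hx v hv
  have h2 : ∑ i, ∑ j, P x i j * v i * v j = 0 := by
    refine Finset.sum_eq_zero fun i _ => ?_
    have h3 := congrFun hv0 i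
    have h4 : ∑ j, P x i j * v j = 0 := h3
    have h5 : ∑ j, P x i j * v i * v j = v i * ∑ j, P x i j * v j := by
      rw [Finset.mul_sum]
      exact Finset.sum_congr rfl fun j _ => by ring
    rw [h5, h4, mul_zero]
  rw [h2] at h1
  exact lt_irrefl _ h1

theorem e8a_inv {P : E3 → Matrix (Fin 3) (Fin 3) ℝ} (hP : Cyl P) {x : E3} (hx : x ≠ 0) (m : Fin 3) :
    ∑ l, (P x)⁻¹ m l * (x l / ‖x‖ ^ 2) = x m := by
  have hu : IsUnit (P x).det := isUnit_iff_ne_zero.2 (e8a_det hP hx)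
  have h1 : (P x)⁻¹.mulVec ((P x).mulVec (fun i => x i)) = fun i => x i := by
    rw [Matrix.mulVec_mulVec, Matrix.nonsing_inv_mul _ hu, Matrix.one_mulVec]
  have h2 : (P x).mulVec (fun i => x i) = fun i => x i / ‖x‖ ^ 2 := by
    funext i
    exact hP.rad x hx i
  rw [h2] at h1
  exact congrFun h1 m

theorem e8_chr {P : E3 → Matrix (Fin 3) (Fin 3) ℝ} (hP : Cyl P) {x : E3} (hx : x ≠ 0) (m : Fin 3) :
    ∑ i, ∑ j, x i * x j * H31R.chr P m i j x = -x m := by
  have heul : ∀ j l, ∑ i, x i * pd i (fun y => P y j l) x = -2 * P x j l := by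
    intro j l
    have h := e8a_hom (k := 2) (e8a_diff hP hx j l) (fun c hc => hP.hom x hx c hc j l)
    rw [h]
    norm_num
  have hkey : ∀ l, ∑ i, ∑ j, x i * x j * (pd i (fun y => P y j l) x + pd j (fun y => P y i l) x - pd l (fun y => P y i j) x) =
      -2 * (x l / ‖x‖ ^ 2) := by
    intro l
    have e1 : ∑ i, ∑ j, x i * x j * pd i (fun y => P y j l) x = -2 * (x l / ‖x‖ ^ 2) := by
      rw [Finset.sum_comm]
      have e2 : ∀ j, ∑ i, x i * x j * pd i (fun y => P y j l) x = x j * (-2 * P x j l) := by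
        intro j
        rw [← heul j l, Finset.mul_sum]
        exact Finset.sum_congr rfl fun i _ => by ring
      rw [Finset.sum_congr rfl fun j _ => e2 j, ← hP.rad x hx l, Finset.mul_sum]
      exact Finset.sum_congr rfl fun j _ => by rw [hP.symm x hx l j]; ring
    have e3 : ∑ i, ∑ j, x i * x j * pd j (fun y => P y i l) x = -2 * (x l / ‖x‖ ^ 2) := by
      rw [← e1, Finset.sum_comm]
      exact Finset.sum_congr rfl fun i _ => Finset.sum_congr rfl fun j _ => by ring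
    have e4 := e8a_rad hP hx l
    have e5 : ∑ i, ∑ j, x i * x j * (pd i (fun y => P y j l) x + pd j (fun y => P y i l) x - pd l (fun y => P y i j) x) =
        ∑ i, ∑ j, x i * x j * pd i (fun y => P y j l) x + ∑ i, ∑ j, x i * x j * pd j (fun y => P y i l) x -
          ∑ i, ∑ j, x i * x j * pd l (fun y => P y i j) x := by
      simp only [mul_add, mul_sub, Finset.sum_add_distrib, Finset.sum_sub_distrib]
    rw [e5, e1, e3, e4]
    ring
  have hexp : ∑ i, ∑ j, x i * x j * H31R.chr P m i j x =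
      (1 / 2) * ∑ l, (P x)⁻¹ m l * ∑ i, ∑ j, x i * x j * (pd i (fun y => P y j l) x + pd j (fun y => P y i l) x -
        pd l (fun y => P y i j) x) := by
    have e1 : ∀ i j, x i * x j * H31R.chr P m i j x = ∑ l, (1 / 2) * ((P x)⁻¹ m l * (x i * x j * (pd i (fun y => P y j l) x +
        pd j (fun y => P y i l) x - pd l (fun y => P y i j) x))) := by
      intro i j
      show x i * x j * ((1 / 2) * ∑ l, (P x)⁻¹ m l * (pd i (fun y => P y j l) x + pd j (fun y => P y i l) x -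
        pd l (fun y => P y i j) x)) = _
      rw [Finset.mul_sum, Finset.mul_sum]
      exact Finset.sum_congr rfl fun l _ => by ring
    rw [Finset.sum_congr rfl fun i _ => Finset.sum_congr rfl fun j _ => e1 i j]
    rw [Finset.mul_sum]
    have e2 : ∀ i, ∑ j, ∑ l, (1 / 2) * ((P x)⁻¹ m l * (x i * x j * (pd i (fun y => P y j l) x +
        pd j (fun y => P y i l) x - pd l (fun y => P y i j) x))) = ∑ l, ∑ j, (1 / 2) * ((P x)⁻¹ m l * (x i * x j *
        (pd i (fun y => P y j l) x + pd j (fun y => P y i l) x - pd l (fun y => P y i j) x))) := fun i => Finset.sum_comm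
    rw [Finset.sum_congr rfl fun i _ => e2 i, Finset.sum_comm]
    refine Finset.sum_congr rfl fun l _ => ?_
    rw [Finset.mul_sum, Finset.mul_sum]
    refine Finset.sum_congr rfl fun i _ => ?_
    rw [Finset.mul_sum, Finset.mul_sum]
  rw [hexp, Finset.sum_congr rfl fun l _ => by rw [hkey l]]
  have h1 : ∑ l, (P x)⁻¹ m l * (-2 * (x l / ‖x‖ ^ 2)) = -2 * ∑ l, (P x)⁻¹ m l * (x l / ‖x‖ ^ 2) := by
    rw [Finset.mul_sum]
    exact Finset.sum_congr rfl fun l _ => by ring
  rw [h1, e8a_inv hP hx m]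
  ring

end H17W
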