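import Pool.Agent.Lib.H17W.E7B
import Pool.Agent.Lib.H17W.E8A

set_option autoImplicit false

/-!
# H17W, chunk E8B (M): the integral of the divergence is zero

`al y j = <ξ, X_j>(s, y)`, a one-form on `ℝ³ \ {0}`, homogeneous of degree `-1` (`j_xhom`; `Ph Ψ (s, c y) = Ph Ψ (s, y)`), `Σ_j y_j al_j = 0` (`j_xrad`).
`P = fun x => PP G Ψ (s, x)`, `j_cyl`. At a point `n` of the sphere (`dA = √det P`, `QQ_ij = P⁻¹_ij - x_i x_j`, `cc = H31R.chr P`, `eq_pd`):
`divx * dA = √det P Σ P⁻¹_ij (∂_i al_j - Γ^m_ij al_m) - √det P Σ x_i x_j (∂_i al_j - Γ^m_ij al_m)`. The second sum is zero: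
`Σ_i x_i ∂_i al_j = -al_j` (Euler, degree -1), so `Σ_ij x_i x_j ∂_i al_j = -Σ_j x_j al_j = 0`; and `Σ_ij x_i x_j Γ^m_ij = -x_m` (`e8_chr`), so
`Σ_m al_m x_m = 0` again. The first sum is `Σ_i ∂_i Z_i` with `Z_i = √det P Σ_j P⁻¹_ij al_j` (`div_form`), homogeneous of degree
`-3 + 2 - 1 = -2` (`√det P` has degree `-3`, `P⁻¹` degree `2`), so `flux` applies.
-/

open MeasureTheory Filter Topology Set Asymptotics
open scoped ContDiff

namespace H17W

open H17T (E4 pt pos tang slice second DEC)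
open H17B (eta dl)
open Pool.Agent.Lib.PenroseSph (E3 Tens S2 sm pd)

variable {G : E4 → Matrix (Fin 4) (Fin 4) ℝ} {Ψ : ℝ × E3 → E4} {W : Set (ℝ × E3)} {ε m : ℝ}

theorem e8b_lift {F : ℝ × E3 → ℝ} {s : ℝ} {x : E3} (hF : ContDiffAt ℝ ∞ F (s, x)) : ContDiffAt ℝ ∞ (fun y : E3 => F (s, y)) x := by
  have h1 : ContDiffAt ℝ ∞ (fun y : E3 => ((s, y) : ℝ × E3)) x := contDiffAt_const.prodMk contDiffAt_id
  exact ContDiffAt.comp (g := F) x hF h1

theorem e8b_al (h : Reg G Ψ W) {p : ℝ × E3} (hp : p ∈ W) (j : Fin 3) :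
    ContDiffAt ℝ ∞ (fun q => ip G (Ph Ψ q) xi (XX Ψ j q)) p := by
  unfold ip
  refine ContDiffAt.sum fun a _ => ContDiffAt.sum fun b _ => ?_
  exact ((j_met h hp a b).mul contDiffAt_const).mul (j_xx h hp j b)

theorem e8b_ph {s : ℝ} {x : E3} (hx : x ≠ 0) {c : ℝ} (hc : 0 < c) : Ph Ψ (s, c • x) = Ph Ψ (s, x) := by
  show Ψ (s, ‖c • x‖⁻¹ • (c • x)) = Ψ (s, ‖x‖⁻¹ • x)
  have h1 : ‖x‖ ≠ 0 := norm_ne_zero_iff.2 hx
  have h2 : ‖c • x‖⁻¹ • (c • x) = ‖x‖⁻¹ • x := by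
    rw [norm_smul, Real.norm_of_nonneg hc.le, smul_smul]
    congr 1
    field_simp
  rw [h2]

theorem e8b_alhom (h : Reg G Ψ W) {s : ℝ} (hs : 0 ≤ s) {x : E3} (hx : x ≠ 0) {c : ℝ} (hc : 0 < c) (j : Fin 3) :
    ip G (Ph Ψ (s, c • x)) xi (XX Ψ j (s, c • x)) = ip G (Ph Ψ (s, x)) xi (XX Ψ j (s, x)) / c := by
  rw [e8b_ph hx hc]
  unfold ip
  rw [Finset.sum_div]
  refine Finset.sum_congr rfl fun a _ => ?_
  rw [Finset.sum_div]
  refine Finset.sum_congr rfl fun b _ => ?_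
  rw [j_xhom h hs hx hc j b]
  ring

theorem e8b_alrad (h : Reg G Ψ W) {s : ℝ} (hs : 0 ≤ s) {x : E3} (hx : x ≠ 0) :
    ∑ j, x j * ip G (Ph Ψ (s, x)) xi (XX Ψ j (s, x)) = 0 := by
  have h1 : ∑ j, x j * ip G (Ph Ψ (s, x)) xi (XX Ψ j (s, x)) =
      ip G (Ph Ψ (s, x)) xi (fun b => ∑ j, x j * XX Ψ j (s, x) b) := by
    unfold ip
    simp only [Finset.mul_sum]
    rw [Finset.sum_comm]
    refine Finset.sum_congr rfl fun a _ => ?_
    rw [Finset.sum_comm]
    refine Finset.sum_congr rfl fun b _ => ?_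
    refine Finset.sum_congr rfl fun j _ => ?_
    ring
  rw [h1]
  have h2 : (fun b => ∑ j, x j * XX Ψ j (s, x) b) = fun _ => 0 := by
    funext b
    exact j_xrad h hs hx b
  rw [h2]
  unfold ip
  simp

theorem e8b_dethom {P : E3 → Matrix (Fin 3) (Fin 3) ℝ} (hP : Cyl P) {x : E3} (hx : x ≠ 0) {c : ℝ} (hc : 0 < c) :
    P (c • x) = (c ^ 2)⁻¹ • P x := by
  ext i j
  rw [hP.hom x hx c hc i j]
  show P x i j / c ^ 2 = (c ^ 2)⁻¹ * P x i j
  ring

theorem e8b_zhom {P : E3 → Matrix (Fin 3) (Fin 3) ℝ} (hP : Cyl P) {al : E3 → Fin 3 → ℝ}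
    (hal : ∀ x : E3, x ≠ 0 → ∀ c : ℝ, 0 < c → ∀ j, al (c • x) j = al x j / c) {x : E3} (hx : x ≠ 0) {c : ℝ} (hc : 0 < c) (i : Fin 3) :
    Real.sqrt (P (c • x)).det * ∑ j, (P (c • x))⁻¹ i j * al (c • x) j =
      (Real.sqrt (P x).det * ∑ j, (P x)⁻¹ i j * al x j) / c ^ 2 := by
  have hc2 : (c ^ 2)⁻¹ ≠ 0 := by positivity
  have h1 : Real.sqrt (P (c • x)).det = (c ^ 3)⁻¹ * Real.sqrt (P x).det := by
    rw [e8b_dethom hP hx hc, Matrix.det_smul, Fintype.card_fin]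
    have e1 : ((c ^ 2)⁻¹) ^ 3 = ((c ^ 3)⁻¹) ^ 2 := by
      rw [inv_pow, inv_pow, ← pow_mul, ← pow_mul]
    rw [e1, Real.sqrt_mul (by positivity), Real.sqrt_sq (by positivity)]
  have h2 : ∀ j, (P (c • x))⁻¹ i j = c ^ 2 * (P x)⁻¹ i j := by
    intro j
    have hu : IsUnit (P x).det := isUnit_iff_ne_zero.2 (e8a_det hP hx)
    have e1 : (P (c • x))⁻¹ = c ^ 2 • (P x)⁻¹ := by
      refine Matrix.inv_eq_right_inv ?_
      rw [e8b_dethom hP hx hc, smul_mul_smul_comm, Matrix.mul_nonsing_inv _ hu, inv_mul_cancel₀ (by positivity), one_smul]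
    rw [e1]
    rfl
  rw [h1]
  have h3 : ∑ j, (P (c • x))⁻¹ i j * al (c • x) j = c * ∑ j, (P x)⁻¹ i j * al x j := by
    rw [Finset.mul_sum]
    refine Finset.sum_congr rfl fun j _ => ?_
    rw [h2 j, hal x hx c hc j]
    field_simp
  rw [h3]
  field_simp

theorem e8_int (h : Reg G Ψ W) {s : ℝ} (hs : 0 ≤ s) : ∫ n : S2, divx G Ψ (s, (n : E3)) * dA G Ψ (s, (n : E3)) ∂sm = 0 := by
  have hP : Cyl fun x => PP G Ψ (s, x) := j_cyl h hs
  set P : E3 → Matrix (Fin 3) (Fin 3) ℝ := fun x => PP G Ψ (s, x) with hPdef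
  set al : E3 → Fin 3 → ℝ := fun y j => ip G (Ph Ψ (s, y)) xi (XX Ψ j (s, y)) with hal
  have hals : ∀ x : E3, x ≠ 0 → ∀ j, ContDiffAt ℝ ∞ (fun y => al y j) x := fun x hx j =>
    e8b_lift (e8b_al h (h.mem s hs x hx) j)
  have halhom : ∀ x : E3, x ≠ 0 → ∀ c : ℝ, 0 < c → ∀ j, al (c • x) j = al x j / c := fun x hx c hc j =>
    e8b_alhom h hs hx hc j
  set Z : E3 → Fin 3 → ℝ := fun y i => Real.sqrt (P y).det * ∑ j, (P y)⁻¹ i j * al y j with hZ
  have hZs : ∀ x : E3, x ≠ 0 → ∀ i, ContDiffAt ℝ 1 (fun y => Z y i) x := by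
    intro x hx i
    have hW := h.mem s hs x hx
    have h1 : ContDiffAt ℝ ∞ (fun y : E3 => Real.sqrt (P y).det) x := e8b_lift (j_dA h hW)
    have h2 : ∀ j, ContDiffAt ℝ ∞ (fun y : E3 => (P y)⁻¹ i j) x := by
      intro j
      have e1 : ContDiffAt ℝ ∞ (fun q : ℝ × E3 => QQ G Ψ i j q + q.2 i * q.2 j) (s, x) := by
        refine (j_qq h hW i j).add ?_
        have c1 : ∀ k : Fin 3, ContDiff ℝ ∞ (fun q : ℝ × E3 => q.2 k) := fun k => by fun_prop
        exact ((c1 i).mul (c1 j)).contDiffAt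
      have e2 := e8b_lift e1
      refine e2.congr_of_eventuallyEq (Eventually.of_forall fun y => ?_)
      show (PP G Ψ (s, y))⁻¹ i j = (PP G Ψ (s, y))⁻¹ i j - y i * y j + y i * y j
      ring
    have h3 : ContDiffAt ℝ ∞ (fun y => Z y i) x :=
      h1.mul (ContDiffAt.sum fun j _ => (h2 j).mul (hals x hx j))
    exact h3.of_le (by exact_mod_cast le_top)
  have hflux := flux hZs fun x hx c hc i => e8b_zhom hP halhom hx hc i
  rw [← hflux]
  refine integral_congr_ae (Eventually.of_forall fun n => ?_)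
  have hn0 : (n : E3) ≠ 0 := by
    intro h0
    have h1 : ‖(n : E3)‖ = 1 := by simp
    rw [h0, norm_zero] at h1
    exact zero_ne_one h1
  set x : E3 := (n : E3) with hx
  show divx G Ψ (s, x) * dA G Ψ (s, x) = ∑ i, pd i (fun y => Z y i) x
  have hdiff : ∀ j, DifferentiableAt ℝ (fun y => al y j) x := fun j => (hals x hn0 j).differentiableAt (by simp)
  have hdf := div_form (al := al) hP hn0 hdiff
  have hpd : ∀ i j, fderiv ℝ (fun q => ip G (Ph Ψ q) xi (XX Ψ j q)) (s, x) (dX i) = pd i (fun y => al y j) x := fun i j =>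
    eq_pd ((e8b_al h (h.mem s hs x hn0) j).differentiableAt (by simp)) i
  have hdivx : divx G Ψ (s, x) = ∑ i, ∑ j, (P x)⁻¹ i j * (pd i (fun y => al y j) x - ∑ k, H31R.chr P k i j x * al x k) -
      ∑ i, ∑ j, x i * x j * (pd i (fun y => al y j) x - ∑ k, H31R.chr P k i j x * al x k) := by
    rw [← Finset.sum_sub_distrib]
    refine Finset.sum_congr rfl fun i _ => ?_
    rw [← Finset.sum_sub_distrib]
    refine Finset.sum_congr rfl fun j _ => ?_
    rw [hpd i j]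
    show ((PP G Ψ (s, x))⁻¹ i j - x i * x j) * _ = _
    exact sub_mul _ _ _
  have hzero : ∑ i, ∑ j, x i * x j * (pd i (fun y => al y j) x - ∑ k, H31R.chr P k i j x * al x k) = 0 := by
    have e1 : ∑ i, ∑ j, x i * x j * pd i (fun y => al y j) x = 0 := by
      rw [Finset.sum_comm]
      have e2 : ∀ j, ∑ i, x i * x j * pd i (fun y => al y j) x = -(x j * al x j) := by
        intro j
        have e3 := e8a_hom (k := 1) (hdiff j) (fun c hc => by rw [pow_one]; exact halhom x hn0 c hc j)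
        have e4 : ∑ i, x i * x j * pd i (fun y => al y j) x = x j * ∑ i, x i * pd i (fun y => al y j) x := by
          rw [Finset.mul_sum]
          exact Finset.sum_congr rfl fun i _ => by ring
        rw [e4, e3]
        push_cast
        ring
      rw [Finset.sum_congr rfl fun j _ => e2 j, Finset.sum_neg_distrib, e8b_alrad h hs hn0, neg_zero]
    have e5 : ∑ i, ∑ j, x i * x j * ∑ k, H31R.chr P k i j x * al x k = 0 := by
      have e6 : ∑ i, ∑ j, x i * x j * ∑ k, H31R.chr P k i j x * al x k =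
          ∑ k, al x k * ∑ i, ∑ j, x i * x j * H31R.chr P k i j x := by
        simp only [Finset.mul_sum]
        rw [Finset.sum_congr rfl fun i _ => Finset.sum_comm, Finset.sum_comm]
        refine Finset.sum_congr rfl fun k _ => Finset.sum_congr rfl fun i _ => Finset.sum_congr rfl fun j _ => ?_
        ring
      rw [e6, Finset.sum_congr rfl fun k _ => by rw [e8_chr hP hn0 k]]
      have e7 : ∑ k, al x k * -x k = -∑ k, x k * al x k := by
        rw [← Finset.sum_neg_distrib]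
        exact Finset.sum_congr rfl fun k _ => by ring
      rw [e7, e8b_alrad h hs hn0, neg_zero]
    simp only [mul_sub, Finset.sum_sub_distrib]
    rw [e1, e5, sub_zero]
  rw [hdivx, hzero, sub_zero, mul_comm]
  exact hdf

end H17W
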