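import Pool.Agent.Lib.H17W.E0

set_option autoImplicit false

/-!
# H17W, chunk E9A (M, pure): the area radius of a generator

`r = √a`, `c = r - s`, `d = e r/2 - 1`.
(a) `|r - s| = |a - s²|/(r + s) ≤ C s/s = C`. (b) `r' = (e a)/(2 r) = e r/2`, so `c' = d`; `d' = (e' r + e · e r/2)/2 = (e' + e²/2) r/2 ≤ 0`, so `d` is
antitone on `(0, ∞)`. (c) `d ≥ 0` on `(0, ∞)`: otherwise `d ≤ -δ < 0` on `[s₀, ∞)` and `c → -∞`. (d) `c(s) - c(s/2) ≥ (s/2) d(s)` (mean value), so
`0 ≤ s d(s) ≤ 2 (c(s) - c(s/2)) ≤ 4 C` for `s ≥ 2`. (e) `c` is monotone and bounded on `[1, ∞)`, so it converges (`tendsto_atTop_ciSup` or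
`tendsto_of_monotone`), and `c(s) - c(s/2) → 0`: squeeze.
-/

open MeasureTheory Filter Topology Set Asymptotics
open scoped ContDiff

namespace H17W

open H17T (E4 pt pos tang slice second DEC)
open H17B (eta dl)
open Pool.Agent.Lib.PenroseSph (E3 Tens S2 sm pd)

variable {G : E4 → Matrix (Fin 4) (Fin 4) ℝ} {Ψ : ℝ × E3 → E4} {W : Set (ℝ × E3)} {ε m : ℝ}

theorem e9a_r {a e : ℝ → ℝ} (ha : ∀ s, 0 < s → HasDerivAt a (e s * a s) s) (hpos : ∀ s, 0 < s → 0 < a s)
    {s : ℝ} (hs : 0 < s) : HasDerivAt (fun t => Real.sqrt (a t)) (e s * Real.sqrt (a s) / 2) s := by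
  have h1 := (ha s hs).sqrt (hpos s hs).ne'
  have h2 : e s * a s / (2 * Real.sqrt (a s)) = e s * Real.sqrt (a s) / 2 := by
    have h3 : 0 < Real.sqrt (a s) := Real.sqrt_pos.2 (hpos s hs)
    have h4 : Real.sqrt (a s) * Real.sqrt (a s) = a s := Real.mul_self_sqrt (hpos s hs).le
    rw [div_eq_div_iff (by positivity) (by norm_num)]
    linear_combination (-2 * e s) * h4
  rw [h2] at h1
  exact h1

theorem e9a {a e : ℝ → ℝ} {C : ℝ} (ha : ∀ s, 0 < s → HasDerivAt a (e s * a s) s) (hpos : ∀ s, 0 < s → 0 < a s)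
    (he : ∀ s, 0 < s → ∃ e' : ℝ, HasDerivAt e e' s ∧ e' ≤ -(e s ^ 2 / 2)) (hC : ∀ s, 1 ≤ s → |a s - s ^ 2| ≤ C * s) :
    (∀ s, 1 ≤ s → |Real.sqrt (a s) - s| ≤ C) ∧
    (∀ s, 2 ≤ s → 0 ≤ s * (e s * Real.sqrt (a s) / 2 - 1) ∧ s * (e s * Real.sqrt (a s) / 2 - 1) ≤ 4 * C) ∧
    Tendsto (fun s => s * (e s * Real.sqrt (a s) / 2 - 1)) atTop (𝓝 0) := by
  have hC0 : 0 ≤ C := by
    have h := hC 1 le_rfl
    have h2 := abs_nonneg (a 1 - 1 ^ 2)
    linarith
  have hr : ∀ s, 0 < s → 0 < Real.sqrt (a s) := fun s hs => Real.sqrt_pos.2 (hpos s hs)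
  have hA : ∀ s, 1 ≤ s → |Real.sqrt (a s) - s| ≤ C := by
    intro s hs
    have hs0 : 0 < s := lt_of_lt_of_le one_pos hs
    have h1 := hC s hs
    have h2 : a s - s ^ 2 = (Real.sqrt (a s) - s) * (Real.sqrt (a s) + s) := by
      have h4 : Real.sqrt (a s) * Real.sqrt (a s) = a s := Real.mul_self_sqrt (hpos s hs0).le
      nlinarith [h4]
    rw [h2, abs_mul, abs_of_pos (add_pos (hr s hs0) hs0)] at h1
    have h5 : |Real.sqrt (a s) - s| * s ≤ |Real.sqrt (a s) - s| * (Real.sqrt (a s) + s) :=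
      mul_le_mul_of_nonneg_left (by linarith [hr s hs0]) (abs_nonneg _)
    exact le_of_mul_le_mul_right (h5.trans h1) hs0
  set d : ℝ → ℝ := fun s => e s * Real.sqrt (a s) / 2 - 1 with hd
  set c : ℝ → ℝ := fun s => Real.sqrt (a s) - s with hc
  have hcd : ∀ s, 0 < s → HasDerivAt c (d s) s := fun s hs => (e9a_r ha hpos hs).sub (hasDerivAt_id s)
  have hdd : ∀ s, 0 < s → ∃ d' : ℝ, HasDerivAt d d' s ∧ d' ≤ 0 := by
    intro s hs
    obtain ⟨e', he1, he2⟩ := he s hs
    refine ⟨_, (((he1.mul (e9a_r ha hpos hs)).div_const 2).sub_const 1), ?_⟩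
    have h3 := hr s hs
    have h4 : (e' * Real.sqrt (a s) + e s * (e s * Real.sqrt (a s) / 2)) / 2 = (e' + e s ^ 2 / 2) * Real.sqrt (a s) / 2 := by ring
    rw [h4]
    have h5 : (e' + e s ^ 2 / 2) * Real.sqrt (a s) ≤ 0 := mul_nonpos_of_nonpos_of_nonneg (by linarith) h3.le
    linarith
  have hanti : AntitoneOn d (Ioi 0) := by
    refine antitoneOn_of_deriv_nonpos (convex_Ioi 0) ?_ ?_ ?_
    · intro s hs
      obtain ⟨d', h1, _⟩ := hdd s hs
      exact h1.continuousAt.continuousWithinAt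
    · intro s hs
      rw [interior_Ioi] at hs
      obtain ⟨d', h1, _⟩ := hdd s hs
      exact h1.differentiableAt.differentiableWithinAt
    · intro s hs
      rw [interior_Ioi] at hs
      obtain ⟨d', h1, h2⟩ := hdd s hs
      rw [h1.deriv]
      exact h2
  have hmv : ∀ u v, 0 < u → u ≤ v → (v - u) * d v ≤ c v - c u ∧ c v - c u ≤ (v - u) * d u := by
    intro u v hu huv
    rcases huv.eq_or_lt with rfl | huv
    · simp
    · have hcont : ContinuousOn c (Icc u v) := fun s hs => (hcd s (lt_of_lt_of_le hu hs.1)).continuousAt.continuousWithinAt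
      obtain ⟨w, hw, hw2⟩ := exists_hasDerivAt_eq_slope c d huv hcont fun s hs => hcd s (hu.trans hs.1)
      have hvu : 0 < v - u := sub_pos.2 huv
      have hw0 : 0 < w := hu.trans hw.1
      have h1 : (v - u) * d w = c v - c u := by
        rw [hw2]
        field_simp
      have h2 : d v ≤ d w := hanti hw0 (hu.trans huv) hw.2.le
      have h3 : d w ≤ d u := hanti hu hw0 hw.1.le
      rw [← h1]
      exact ⟨mul_le_mul_of_nonneg_left h2 hvu.le, mul_le_mul_of_nonneg_left h3 hvu.le⟩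
  have hcb : ∀ s, 1 ≤ s → |c s| ≤ C := hA
  have hd0 : ∀ s, 0 < s → 0 ≤ d s := by
    intro s hs
    by_contra hneg
    rw [not_le] at hneg
    set s1 : ℝ := max s 1 with hs1
    have h1 : d s1 ≤ d s := hanti hs (lt_of_lt_of_le hs (le_max_left s 1)) (le_max_left s 1)
    have h2 : (1 : ℝ) ≤ s1 := le_max_right s 1
    set v : ℝ := s1 + (2 * C + 1) / (-d s) with hv
    have h3 : 0 < (2 * C + 1) / (-d s) := div_pos (by linarith) (by linarith)
    have h4 := (hmv s1 v (by linarith) (by linarith)).2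
    have h5 : (v - s1) * d s1 ≤ (v - s1) * d s := mul_le_mul_of_nonneg_left h1 (by linarith)
    have h6 : (v - s1) * d s = -(2 * C + 1) := by
      have h7 : d s ≠ 0 := hneg.ne
      rw [hv]
      field_simp
      ring
    have h8 := abs_le.1 (hcb v (by linarith))
    have h9 := abs_le.1 (hcb s1 h2)
    linarith [h8.1, h9.2]
  have hB : ∀ s, 2 ≤ s → 0 ≤ s * d s ∧ s * d s ≤ 2 * (c s - c (s / 2)) := by
    intro s hs
    have h1 := (hmv (s / 2) s (by linarith) (by linarith)).1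
    refine ⟨mul_nonneg (by linarith) (hd0 s (by linarith)), ?_⟩
    have h2 : (s - s / 2) * d s = s * d s / 2 := by ring
    linarith
  refine ⟨hA, fun s hs => ?_, ?_⟩
  · obtain ⟨h1, h2⟩ := hB s hs
    refine ⟨h1, ?_⟩
    have h3 := abs_le.1 (hcb s (by linarith))
    have h4 := abs_le.1 (hcb (s / 2) (by linarith))
    show s * d s ≤ 4 * C
    linarith [h3.2, h4.1]
  · have hmono : Monotone fun t => c (max t 1) := by
      intro u v huv
      have h1 : max u 1 ≤ max v 1 := max_le_max huv le_rfl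
      have h2 := (hmv (max u 1) (max v 1) (lt_of_lt_of_le one_pos (le_max_right u 1)) h1).1
      have h3 : 0 ≤ (max v 1 - max u 1) * d (max v 1) :=
        mul_nonneg (by linarith) (hd0 _ (lt_of_lt_of_le one_pos (le_max_right v 1)))
      show c (max u 1) ≤ c (max v 1)
      linarith
    have hbdd : BddAbove (range fun t => c (max t 1)) := by
      refine ⟨C, ?_⟩
      rintro _ ⟨t, rfl⟩
      exact (abs_le.1 (hcb _ (le_max_right t 1))).2
    have hL := tendsto_atTop_ciSup hmono hbdd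
    set L := ⨆ i, c (max i 1) with hLdef
    have hcL : Tendsto c atTop (𝓝 L) := by
      refine hL.congr' ?_
      filter_upwards [eventually_ge_atTop 1] with t ht
      rw [max_eq_left ht]
    have hcL2 : Tendsto (fun s => c (s / 2)) atTop (𝓝 L) :=
      hcL.comp (tendsto_id.atTop_div_const (by norm_num : (0 : ℝ) < 2))
    have hlim : Tendsto (fun s => 2 * (c s - c (s / 2))) atTop (𝓝 0) := by
      have := (hcL.sub hcL2).const_mul 2
      simpa using this
    refine squeeze_zero' ?_ ?_ hlim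
    · filter_upwards [eventually_ge_atTop 2] with s hs
      exact (hB s hs).1
    · filter_upwards [eventually_ge_atTop 2] with s hs
      exact (hB s hs).2

end H17W
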