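import Pool.Agent.Lib.H17W.E3C

set_option autoImplicit false

/-!
# H17W, chunk EF (M): the null hypersurface is asymptotically flat

`Far G Ψ W ε m`. `Os.global` for the functions of `e3_hh` and `e3_dhh` (continuity at `(s, n)`, `s ≥ 1`: `j_hh`, `Reg.mem`; the
`fderiv` of a smooth function, applied to a fixed vector, is continuous). Second clause: `pd k (fun y => hh (s, y) - s² (δ - y_i y_j)) n = ∂_k hh + s² (δ_ik n_j + n_i δ_jk)`
(`eq_pd`), and `Σ_k v_k n_k = 0`: `Σ_k v_k [..] = Σ_k v_k (fderiv hh (dX k) + s² (2 n_k δ_ij + δ_ik n_j + δ_jk n_i - 4 n_i n_j n_k))`, `|v_k| ≤ 1`.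
-/

open MeasureTheory Filter Topology Set Asymptotics
open scoped ContDiff

namespace H17W

open H17T (E4 pt pos tang slice second DEC)
open H17B (eta dl)
open Pool.Agent.Lib.PenroseSph (E3 Tens S2 sm pd)

variable {G : E4 → Matrix (Fin 4) (Fin 4) ℝ} {Ψ : ℝ × E3 → E4} {W : Set (ℝ × E3)} {ε m : ℝ}

/-- the deviation of the metric -/
noncomputable def efF (G : E4 → Matrix (Fin 4) (Fin 4) ℝ) (Ψ : ℝ × E3 → E4) (i j : Fin 3) (p : ℝ × E3) : ℝ :=
  hh G Ψ i j p - p.1 ^ 2 * ((if i = j then 1 else 0) - p.2 i * p.2 j)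

/-- the deviation of its derivatives -/
noncomputable def efG (G : E4 → Matrix (Fin 4) (Fin 4) ℝ) (Ψ : ℝ × E3 → E4) (k i j : Fin 3) (p : ℝ × E3) : ℝ :=
  fderiv ℝ (hh G Ψ i j) p (dX k) + p.1 ^ 2 * (2 * p.2 k * (if i = j then 1 else 0) +
      (if i = k then 1 else 0) * p.2 j + (if j = k then 1 else 0) * p.2 i - 4 * p.2 i * p.2 j * p.2 k)

theorem ef_ne (n : S2) : (n : E3) ≠ 0 := by
  intro h
  have h1 : ‖(n : E3)‖ = 1 := by simp
  rw [h, norm_zero] at h1
  exact zero_ne_one h1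

theorem ef_co (i : Fin 3) (p : ℝ × E3) : ContinuousAt (fun q : ℝ × E3 => q.2 i) p := by
  have h : Continuous fun q : ℝ × E3 => q.2 i := by fun_prop
  exact h.continuousAt

theorem ef_cF (hR : Reg G Ψ W) (i j : Fin 3) {s : ℝ} (hs : 1 ≤ s) (n : S2) :
    ContinuousAt (efF G Ψ i j) (s, (n : E3)) := by
  have hp := hR.mem s (zero_le_one.trans hs) n (ef_ne n)
  have h1 := (j_hh hR hp i j).continuousAt
  unfold efF
  refine h1.sub ((continuousAt_fst.pow 2).mul (continuousAt_const.sub ((ef_co i _).mul (ef_co j _))))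

theorem ef_cG (hR : Reg G Ψ W) (k i j : Fin 3) {s : ℝ} (hs : 1 ≤ s) (n : S2) :
    ContinuousAt (efG G Ψ k i j) (s, (n : E3)) := by
  have hp := hR.mem s (zero_le_one.trans hs) n (ef_ne n)
  have h1 : ContinuousAt (fderiv ℝ (hh G Ψ i j)) (s, (n : E3)) :=
    ((j_hh hR hp i j).fderiv_right (m := 0) (by simp)).continuousAt
  have h2 : ContinuousAt (fun p => fderiv ℝ (hh G Ψ i j) p (dX k)) (s, (n : E3)) :=
    h1.clm_apply continuousAt_const
  unfold efG
  refine h2.add ((continuousAt_fst.pow 2).mul ?_)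
  have hc : ∀ l, ContinuousAt (fun q : ℝ × E3 => q.2 l) (s, (n : E3)) := fun l => ef_co l _
  exact (((((continuousAt_const.mul (hc k)).mul continuousAt_const).add
    (continuousAt_const.mul (hc j))).add (continuousAt_const.mul (hc i))).sub
    (((continuousAt_const.mul (hc i)).mul (hc j)).mul (hc k)))

theorem ef_proj (i k : Fin 3) : (EuclideanSpace.proj i : E3 →L[ℝ] ℝ) (EuclideanSpace.single k (1 : ℝ)) =
    if i = k then 1 else 0 := by
  show (EuclideanSpace.single k (1 : ℝ) : E3) i = _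
  rw [PiLp.single_apply]

theorem ef_hd (s : ℝ) (i j : Fin 3) (n : E3) :
    HasFDerivAt (fun y : E3 => s ^ 2 * ((if i = j then (1 : ℝ) else 0) - y i * y j))
      (s ^ 2 • -(n i • (EuclideanSpace.proj j : E3 →L[ℝ] ℝ) + n j • (EuclideanSpace.proj i : E3 →L[ℝ] ℝ))) n := by
  have hi : HasFDerivAt (fun y : E3 => y i) (EuclideanSpace.proj i : E3 →L[ℝ] ℝ) n :=
    (EuclideanSpace.proj i : E3 →L[ℝ] ℝ).hasFDerivAt
  have hj : HasFDerivAt (fun y : E3 => y j) (EuclideanSpace.proj j : E3 →L[ℝ] ℝ) n :=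
    (EuclideanSpace.proj j : E3 →L[ℝ] ℝ).hasFDerivAt
  exact ((hi.mul hj).const_sub (if i = j then (1 : ℝ) else 0)).const_mul (s ^ 2)

theorem ef_der (hR : Reg G Ψ W) (k i j : Fin 3) {s : ℝ} (hs : 1 ≤ s) (n : S2) :
    pd k (fun y => hh G Ψ i j (s, y) - s ^ 2 * ((if i = j then 1 else 0) - y i * y j)) n =
      efG G Ψ k i j (s, (n : E3)) - s ^ 2 * (2 * (if i = j then 1 else 0) - 4 * (n : E3) i * (n : E3) j) * (n : E3) k := by
  have hp := hR.mem s (zero_le_one.trans hs) n (ef_ne n)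
  have hd : DifferentiableAt ℝ (hh G Ψ i j) (s, (n : E3)) := (j_hh hR hp i j).differentiableAt (by simp)
  have h1 : fderiv ℝ (hh G Ψ i j) (s, (n : E3)) (dX k) = pd k (fun y => hh G Ψ i j (s, y)) n := eq_pd hd k
  have hd2 : DifferentiableAt ℝ (fun y : E3 => hh G Ψ i j (s, y)) (n : E3) := by
    have h3 : DifferentiableAt ℝ (fun y : E3 => ((s, y) : ℝ × E3)) (n : E3) := by fun_prop
    exact DifferentiableAt.comp (n : E3) (g := hh G Ψ i j) hd h3
  have h2 := (hd2.hasFDerivAt.sub (ef_hd s i j (n : E3))).fderiv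
  have h4 : pd k (fun y => hh G Ψ i j (s, y) - s ^ 2 * ((if i = j then 1 else 0) - y i * y j)) n =
      pd k (fun y => hh G Ψ i j (s, y)) n + s ^ 2 * ((n : E3) i * (if j = k then 1 else 0) +
        (n : E3) j * (if i = k then 1 else 0)) := by
    have h5 : pd k (fun y => hh G Ψ i j (s, y) - s ^ 2 * ((if i = j then 1 else 0) - y i * y j)) n =
        fderiv ℝ (fun y : E3 => hh G Ψ i j (s, y) - s ^ 2 * ((if i = j then (1 : ℝ) else 0) - y i * y j)) n
          (EuclideanSpace.single k 1) := rfl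
    have h6 : pd k (fun y => hh G Ψ i j (s, y)) n = fderiv ℝ (fun y : E3 => hh G Ψ i j (s, y)) n
          (EuclideanSpace.single k 1) := rfl
    have h7 : fderiv ℝ (fun y : E3 => hh G Ψ i j (s, y) - s ^ 2 * ((if i = j then (1 : ℝ) else 0) - y i * y j)) n =
      fderiv ℝ (fun y : E3 => hh G Ψ i j (s, y)) n -
        (s ^ 2 • -((n : E3) i • (EuclideanSpace.proj j : E3 →L[ℝ] ℝ) + (n : E3) j • (EuclideanSpace.proj i : E3 →L[ℝ] ℝ))) := h2
    rw [h5, h6, h7]
    simp only [_root_.sub_apply, _root_.smul_apply, _root_.neg_apply,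
      _root_.add_apply, ef_proj, smul_eq_mul]
    ring
  rw [h4, ← h1]
  unfold efG
  simp only
  ring

/-- The null hypersurface is asymptotically flat. -/
theorem flat (hR : Reg G Ψ W) {ε m : ℝ} (hF : ConeFlat ε Ψ)
    (hS : ∃ C R : ℝ, ∀ s : ℝ, R ≤ s → ∀ n : S2, NearSchw G m C (Ψ (s, (n : E3)))) :
    ∃ C : ℝ, ∀ s : ℝ, 1 ≤ s → ∀ n : S2, ∀ i j,
      |hh G Ψ i j (s, n) - s ^ 2 * ((if i = j then 1 else 0) - (n : E3) i * (n : E3) j)| ≤ C * s ∧
      ∀ v : Fin 3 → ℝ, ∑ k, (n : E3) k * v k = 0 → (∑ k, v k ^ 2) = 1 →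
        |∑ k, v k * pd k (fun y => hh G Ψ i j (s, y) - s ^ 2 * ((if i = j then 1 else 0) - y i * y j)) n| ≤ C * s := by
  have hFar : Far G Ψ W ε m := ⟨hR, hF, hS⟩
  choose C1 h1 h2 using fun i j => (show Os 1 (efF G Ψ i j) from e3_hh hFar i j).global
    (fun s hs n => ef_cF hR i j hs n)
  choose C2 g1 g2 using fun k i j => (show Os 1 (efG G Ψ k i j) from e3_dhh hFar k i j).global
    (fun s hs n => ef_cG hR k i j hs n)
  refine ⟨(∑ i, ∑ j, C1 i j) + ∑ i, ∑ j, ∑ k, C2 k i j, fun s hs n i j => ⟨?_, ?_⟩⟩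
  · have a1 := h2 i j s hs n
    rw [zpow_one] at a1
    have b1 : C1 i j ≤ ∑ i, ∑ j, C1 i j :=
      (Finset.single_le_sum (f := fun j => C1 i j) (fun j _ => h1 i j) (Finset.mem_univ j)).trans
        (Finset.single_le_sum (f := fun i => ∑ j, C1 i j)
          (fun i _ => Finset.sum_nonneg fun j _ => h1 i j) (Finset.mem_univ i))
    have b2 : 0 ≤ ∑ i, ∑ j, ∑ k, C2 k i j :=
      Finset.sum_nonneg fun i _ => Finset.sum_nonneg fun j _ => Finset.sum_nonneg fun k _ => g1 k i j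
    refine a1.trans (mul_le_mul_of_nonneg_right (by linarith) (zero_le_one.trans hs))
  · intro v hv1 hv2
    have a1 : ∑ k, v k * pd k (fun y => hh G Ψ i j (s, y) - s ^ 2 * ((if i = j then 1 else 0) - y i * y j)) n =
        ∑ k, v k * efG G Ψ k i j (s, (n : E3)) := by
      simp only [ef_der hR _ i j hs n]
      have e : ∀ k, v k * (efG G Ψ k i j (s, (n : E3)) -
          s ^ 2 * (2 * (if i = j then 1 else 0) - 4 * (n : E3) i * (n : E3) j) * (n : E3) k) =
          v k * efG G Ψ k i j (s, (n : E3)) -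
          s ^ 2 * (2 * (if i = j then 1 else 0) - 4 * (n : E3) i * (n : E3) j) * ((n : E3) k * v k) := by
        intro k; ring
      simp only [e]
      rw [Finset.sum_sub_distrib, ← Finset.mul_sum, hv1, mul_zero, sub_zero]
    have hvk : ∀ k, |v k| ≤ 1 := by
      intro k
      have h3 : v k ^ 2 ≤ 1 := by
        rw [← hv2]
        exact Finset.single_le_sum (f := fun k => v k ^ 2) (fun k _ => sq_nonneg _) (Finset.mem_univ k)
      exact abs_le_one_iff_mul_self_le_one.mpr (by nlinarith)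
    have hs0 : 0 ≤ s := zero_le_one.trans hs
    have a2 : |∑ k, v k * efG G Ψ k i j (s, (n : E3))| ≤ ∑ k, C2 k i j * s := by
      refine (Finset.abs_sum_le_sum_abs _ _).trans (Finset.sum_le_sum fun k _ => ?_)
      rw [abs_mul]
      have a3 := g2 k i j s hs n
      rw [zpow_one] at a3
      calc |v k| * |efG G Ψ k i j (s, (n : E3))| ≤ 1 * |efG G Ψ k i j (s, (n : E3))| :=
            mul_le_mul_of_nonneg_right (hvk k) (abs_nonneg _)
        _ ≤ C2 k i j * s := by rw [one_mul]; exact a3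
    rw [a1]
    refine a2.trans ?_
    rw [← Finset.sum_mul]
    refine mul_le_mul_of_nonneg_right ?_ hs0
    have b1 : 0 ≤ ∑ i, ∑ j, C1 i j := Finset.sum_nonneg fun i _ => Finset.sum_nonneg fun j _ => h1 i j
    have b2 : ∑ k, C2 k i j ≤ ∑ i, ∑ j, ∑ k, C2 k i j :=
      (Finset.single_le_sum (f := fun j => ∑ k, C2 k i j)
        (fun j _ => Finset.sum_nonneg fun k _ => g1 k i j) (Finset.mem_univ j)).trans
        (Finset.single_le_sum (f := fun i => ∑ j, ∑ k, C2 k i j)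
          (fun i _ => Finset.sum_nonneg fun j _ => Finset.sum_nonneg fun k _ => g1 k i j) (Finset.mem_univ i))
    linarith

end H17W
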