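import Pool.Agent.Lib.H17B.B3B
import Pool.Agent.Lib.H17B.B7B
import Pool.Agent.Lib.H17B.B6B
import Pool.Agent.Lib.H17B.B5
import Pool.Agent.Lib.H17B.B7A

set_option autoImplicit false

/-!
# H17W, module E (ADM part): Christoffel symbols and second fundamental form

Port of `Lib/H17B` from the metrics `stMetric F k r` to a general metric.
-/

open MeasureTheory Filter Topology Set Asymptotics
open scoped ContDiff

namespace H17G

open H17T H17B
open Pool.Agent.Lib.PenroseSph (E3 Tens S2 sm pd trg fluxDensity momDensity admFlux admMom DefFun meanCurv trLevel)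

/-- Far out, the hypersurface `T = f(x)` is smooth and asymptotic to `T = β x_0`, the metric `G` is smooth along it and asymptotic to
the Schwarzschild metric of mass `m`. -/
structure GEnd (G : E4 → Matrix (Fin 4) (Fin 4) ℝ) (f : E3 → ℝ) (m β C R : ℝ) : Prop where
  beta : |β| < 1
  R_pos : 0 < R
  f_smooth : ∀ x : E3, R ≤ ‖x‖ → ContDiffAt ℝ ∞ f x
  f1 : ∀ x : E3, R ≤ ‖x‖ → ∀ i, |pd i f x - (if i = 0 then β else 0)| ≤ C / ‖x‖
  f2 : ∀ x : E3, R ≤ ‖x‖ → ∀ i j, |pd i (pd j f) x| ≤ C / ‖x‖ ^ 2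
  G_smooth : ∀ x : E3, R ≤ ‖x‖ → ∀ a b, ContDiffAt ℝ ∞ (fun p => G p a b) (PP f x)
  G_det : ∀ x : E3, R ≤ ‖x‖ → (G (PP f x)).det ≠ 0
  ex : ∀ a b, Ex f (eta a b) (2 * m * dl a b) fun p => G p a b

theorem ex_metric {G : E4 → Matrix (Fin 4) (Fin 4) ℝ} {f : E3 → ℝ} {m β C R : ℝ}
    (hB : GEnd G f m β C R) (a b : Fin 4) :
    Ex f (eta a b) (2 * m * dl a b) fun p => G p a b := hB.ex a b

theorem f_one {G : E4 → Matrix (Fin 4) (Fin 4) ℝ} {f : E3 → ℝ} {m β C R : ℝ}
    (hB : GEnd G f m β C R) (i : Fin 3) : (fun x => pd i f x - β * dz i) =O[LL] fun x => ‖x‖⁻¹ := by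
  have h : (fun x => pd i f x - β * dz i) =O[LL] fun x => (‖x‖ ^ 1)⁻¹ := by
    refine b3b_bound (R := R) (C := C) 1 fun x hx => ?_
    have h1 := hB.f1 x hx i
    have h2 : β * dz i = if i = 0 then β else 0 := by
      unfold dz
      split_ifs <;> simp
    rw [h2, pow_one]
    exact h1
  simpa using h

theorem f_two {G : E4 → Matrix (Fin 4) (Fin 4) ℝ} {f : E3 → ℝ} {m β C R : ℝ}
    (hB : GEnd G f m β C R) (i j : Fin 3) : (fun x => pd i (pd j f) x) =O[LL] fun x => (‖x‖ ^ 2)⁻¹ := by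
  exact b3b_bound (R := R) (C := C) 2 fun x hx => hB.f2 x hx i j

theorem inv_metric {G : E4 → Matrix (Fin 4) (Fin 4) ℝ} {f : E3 → ℝ} {m β C R : ℝ}
    (hB : GEnd G f m β C R) (a b : Fin 4) :
    (fun x => (G (PP f x))⁻¹ a b - eta a b) =O[LL] fun x => ‖x‖⁻¹ := by
  have h := inv_bigO (A := fun x => G (PP f x)) (A0 := Matrix.of eta) b5_eta_det
    (fun i j => (ex_metric hB i j).val1) a b
  rw [b5_eta_inv] at h
  exact h

theorem chr_exp {G : E4 → Matrix (Fin 4) (Fin 4) ℝ} {f : E3 → ℝ} {m β C R : ℝ}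
    (hB : GEnd G f m β C R) (c a b : Fin 4) :
    (fun x => H31R.chr G c a b (PP f x) - chlin m c a b x) =O[LL] fun x => (‖x‖ ^ 3)⁻¹ := by
  have hY : ∀ i j l : Fin 4, (fun x => H31R.pd l (fun y => G y i j) (PP f x)
      + 2 * m * dl i j / ‖x‖ ^ 2 * om x l) =O[LL] fun x => (‖x‖ ^ 3)⁻¹ := fun i j l => (ex_metric hB i j).der l
  have hY2 : ∀ i j l : Fin 4, (fun x => H31R.pd l (fun y => G y i j) (PP f x))
      =O[LL] fun x => (‖x‖ ^ 2)⁻¹ := fun i j l => (ex_metric hB i j).der2 l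
  have hI : ∀ l, (fun x => (G (PP f x))⁻¹ c l - eta c l) =O[LL] fun x => (‖x‖ ^ 1)⁻¹ := by
    intro l
    have h := inv_metric hB c l
    simpa using h
  have h1 : ∀ l : Fin 4, (fun x => ((G (PP f x))⁻¹ c l - eta c l)
      * (H31R.pd a (fun y => G y b l) (PP f x) + H31R.pd b (fun y => G y a l) (PP f x)
        - H31R.pd l (fun y => G y a b) (PP f x))) =O[LL] fun x => (‖x‖ ^ 3)⁻¹ := by
    intro l
    exact b5_mul (by norm_num) (hI l) (((hY2 b l a).add (hY2 a l b)).sub (hY2 a b l))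
  have h2 : ∀ l : Fin 4, (fun x => eta c l
      * ((H31R.pd a (fun y => G y b l) (PP f x) + 2 * m * dl b l / ‖x‖ ^ 2 * om x a)
        + (H31R.pd b (fun y => G y a l) (PP f x) + 2 * m * dl a l / ‖x‖ ^ 2 * om x b)
        - (H31R.pd l (fun y => G y a b) (PP f x) + 2 * m * dl a b / ‖x‖ ^ 2 * om x l)))
      =O[LL] fun x => (‖x‖ ^ 3)⁻¹ := by
    intro l
    exact (((hY b l a).add (hY a l b)).sub (hY a b l)).const_mul_left _
  have h3 : (fun x => (1 / 2 : ℝ) * ∑ l : Fin 4, (((G (PP f x))⁻¹ c l - eta c l)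
      * (H31R.pd a (fun y => G y b l) (PP f x) + H31R.pd b (fun y => G y a l) (PP f x)
        - H31R.pd l (fun y => G y a b) (PP f x)) + eta c l
      * ((H31R.pd a (fun y => G y b l) (PP f x) + 2 * m * dl b l / ‖x‖ ^ 2 * om x a)
        + (H31R.pd b (fun y => G y a l) (PP f x) + 2 * m * dl a l / ‖x‖ ^ 2 * om x b)
        - (H31R.pd l (fun y => G y a b) (PP f x) + 2 * m * dl a b / ‖x‖ ^ 2 * om x l))))
      =O[LL] fun x => (‖x‖ ^ 3)⁻¹ := by
    refine IsBigO.const_mul_left ?_ _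
    exact b5_sum Finset.univ fun l => (h1 l).add (h2 l)
  refine h3.congr_left fun x => ?_
  have e1 : chlin m c a b x = -((1 / 2 : ℝ) * ∑ l : Fin 4, eta c l
      * (2 * m * dl b l / ‖x‖ ^ 2 * om x a + 2 * m * dl a l / ‖x‖ ^ 2 * om x b
        - 2 * m * dl a b / ‖x‖ ^ 2 * om x l)) := by
    rw [Finset.sum_eq_single c]
    · have s1 : dl c b = dl b c := by
        simp only [dl, eq_comm]
      have s2 : dl c a = dl a c := by
        simp only [dl, eq_comm]
      rw [chlin, s1, s2]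
      ring
    · intro l _ hl
      have : eta c l = 0 := by
        simp [eta, hl.symm]
      rw [this, zero_mul]
    · intro h
      exact absurd (Finset.mem_univ c) h
  rw [H31R.chr, e1, sub_neg_eq_add, ← mul_add, ← Finset.sum_add_distrib]
  congr 1
  refine Finset.sum_congr rfl fun l _ => ?_
  ring

theorem b6b_con {G : E4 → Matrix (Fin 4) (Fin 4) ℝ} {f : E3 → ℝ} {m β C R : ℝ}
    (hB : GEnd G f m β C R) (c : Fin 4) :
    (fun x => conorm f x c - (Fin.cons 1 (fun l => -(β * dz l)) : Fin 4 → ℝ) c) =O[LL] fun x => (‖x‖ ^ 1)⁻¹ := by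
  simp only [pow_one]
  refine Fin.cases ?_ (fun l => ?_) c
  · simp only [conorm, Fin.cons_zero, sub_self]
    exact isBigO_zero _ _
  · simp only [conorm, Fin.cons_succ]
    refine (f_one hB l).neg_left.congr_left fun x => ?_
    ring

theorem b6b_tang {G : E4 → Matrix (Fin 4) (Fin 4) ℝ} {f : E3 → ℝ} {m β C R : ℝ}
    (hB : GEnd G f m β C R) (i : Fin 3) (c : Fin 4) :
    (fun x => tang f x i c - (Fin.cons (β * dz i) (fun l => dl l i) : Fin 4 → ℝ) c)
      =O[LL] fun x => (‖x‖ ^ 1)⁻¹ := by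
  simp only [pow_one]
  refine Fin.cases ?_ (fun l => ?_) c
  · simp only [tang, Fin.cons_zero]
    exact f_one hB i
  · simp only [tang, Fin.cons_succ, dl, sub_self]
    exact isBigO_zero _ _

theorem chr_sum {G : E4 → Matrix (Fin 4) (Fin 4) ℝ} {f : E3 → ℝ} {m β C R : ℝ}
    (hB : GEnd G f m β C R) (i j : Fin 3) :
    (fun x => (∑ c, ∑ a, ∑ b, H31R.chr G c a b (pt (f x) x) * conorm f x c * tang f x i a
      * tang f x j b) - kh m β i j x) =O[LL] fun x => (‖x‖ ^ 3)⁻¹ := by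
  set N' : Fin 4 → ℝ := Fin.cons 1 (fun l => -(β * dz l)) with hN'
  set t' : Fin 3 → Fin 4 → ℝ := fun i => Fin.cons (β * dz i) (fun l => dl l i) with ht'
  have hN : ∀ c, (fun x => conorm f x c - N' c) =O[LL] fun x => (‖x‖ ^ 1)⁻¹ := b6b_con hB
  have ht : ∀ i c, (fun x => tang f x i c - t' i c) =O[LL] fun x => (‖x‖ ^ 1)⁻¹ := b6b_tang hB
  have hN0 : ∀ c, (fun x => conorm f x c) =O[LL] fun x => (‖x‖ ^ 0)⁻¹ := fun c => b6b_bdd (hN c)
  have ht0 : ∀ i c, (fun x => tang f x i c) =O[LL] fun x => (‖x‖ ^ 0)⁻¹ := fun i c => b6b_bdd (ht i c)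
  have key : ∀ c a b, (fun x => (((H31R.chr G c a b (PP f x) - chlin m c a b x) * conorm f x c
      * tang f x i a * tang f x j b + chlin m c a b x * (conorm f x c - N' c) * tang f x i a * tang f x j b)
      + chlin m c a b x * N' c * (tang f x i a - t' i a) * tang f x j b)
      + chlin m c a b x * N' c * t' i a * (tang f x j b - t' j b)) =O[LL] fun x => (‖x‖ ^ 3)⁻¹ := by
    intro c a b
    have h1 : (fun x => (H31R.chr G c a b (PP f x) - chlin m c a b x) * conorm f x c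
      * tang f x i a * tang f x j b) =O[LL] fun x => (‖x‖ ^ 3)⁻¹ :=
      b5_mul (n := 3) (k := 0) (by norm_num) (b5_mul (n := 3) (k := 0) (by norm_num)
        (b5_mul (n := 3) (k := 0) (by norm_num) (chr_exp hB c a b) (hN0 c)) (ht0 i a)) (ht0 j b)
    have h2 : (fun x => chlin m c a b x * (conorm f x c - N' c) * tang f x i a * tang f x j b)
        =O[LL] fun x => (‖x‖ ^ 3)⁻¹ :=
      b5_mul (n := 3) (k := 0) (by norm_num) (b5_mul (n := 3) (k := 0) (by norm_num)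
        (b5_mul (n := 2) (k := 1) (by norm_num) (chlin_bigO m c a b) (hN c)) (ht0 i a)) (ht0 j b)
    have h3 : (fun x => chlin m c a b x * N' c * (tang f x i a - t' i a) * tang f x j b)
        =O[LL] fun x => (‖x‖ ^ 3)⁻¹ :=
      b5_mul (n := 3) (k := 0) (by norm_num) (b5_mul (n := 2) (k := 1) (by norm_num)
        (b5_mul (n := 2) (k := 0) (by norm_num) (chlin_bigO m c a b) (b6b_one (N' c))) (ht i a)) (ht0 j b)
    have h4 : (fun x => chlin m c a b x * N' c * t' i a * (tang f x j b - t' j b))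
        =O[LL] fun x => (‖x‖ ^ 3)⁻¹ :=
      b5_mul (n := 2) (k := 1) (by norm_num) (b5_mul (n := 2) (k := 0) (by norm_num)
        (b5_mul (n := 2) (k := 0) (by norm_num) (chlin_bigO m c a b) (b6b_one (N' c))) (b6b_one (t' i a))) (ht j b)
    exact ((h1.add h2).add h3).add h4
  have h5 := b5_sum Finset.univ fun c => b5_sum Finset.univ fun a => b5_sum Finset.univ fun b => key c a b
  refine h5.congr_left fun x => ?_
  rw [← chlin_sum m β x i j, ← Finset.sum_sub_distrib]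
  refine Finset.sum_congr rfl fun c _ => ?_
  rw [← Finset.sum_sub_distrib]
  refine Finset.sum_congr rfl fun a _ => ?_
  rw [← Finset.sum_sub_distrib]
  refine Finset.sum_congr rfl fun b _ => ?_
  have e1 : PP f x = pt (f x) x := rfl
  have e2 : (Fin.cons 1 (fun l => -(β * dz l)) : Fin 4 → ℝ) c = N' c := rfl
  have e3 : (Fin.cons (β * dz i) (fun l => dl l i) : Fin 4 → ℝ) a = t' i a := rfl
  have e4 : (Fin.cons (β * dz j) (fun l => dl l j) : Fin 4 → ℝ) b = t' j b := rfl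
  rw [e1, e2, e3, e4]
  ring

theorem b7a_conorm {G : E4 → Matrix (Fin 4) (Fin 4) ℝ} {f : E3 → ℝ} {m β C R : ℝ}
    (hB : GEnd G f m β C R) (a : Fin 4) :
    (fun x => conorm f x a - (Fin.cons 1 (fun l => -(β * dz l)) : Fin 4 → ℝ) a) =O[LL] fun x => ‖x‖⁻¹ := by
  refine Fin.cases ?_ (fun i => ?_) a
  · simp only [conorm, Fin.cons_zero, sub_self]
    exact isBigO_zero _ _
  · simp only [conorm, Fin.cons_succ]
    refine (f_one hB i).neg_left.congr_left fun x => ?_
    ring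

theorem conorm_len {G : E4 → Matrix (Fin 4) (Fin 4) ℝ} {f : E3 → ℝ} {m β C R : ℝ}
    (hB : GEnd G f m β C R) :
    (fun x => (-∑ a, ∑ b, (G (pt (f x) x))⁻¹ a b * conorm f x a * conorm f x b) - (1 - β ^ 2))
      =O[LL] fun x => ‖x‖⁻¹ := by
  have h : ∀ a b : Fin 4, (fun x => (G (pt (f x) x))⁻¹ a b * conorm f x a * conorm f x b -
      eta a b * (Fin.cons 1 (fun l => -(β * dz l)) : Fin 4 → ℝ) a * (Fin.cons 1 (fun l => -(β * dz l)) : Fin 4 → ℝ) b)
      =O[LL] fun x => ‖x‖⁻¹ := fun a b =>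
    b7a_mul (b7a_mul (inv_metric hB a b) (b7a_conorm hB a)) (b7a_conorm hB b)
  have h2 : (fun x => ∑ a, ∑ b, ((G (pt (f x) x))⁻¹ a b * conorm f x a * conorm f x b -
      eta a b * (Fin.cons 1 (fun l => -(β * dz l)) : Fin 4 → ℝ) a * (Fin.cons 1 (fun l => -(β * dz l)) : Fin 4 → ℝ) b))
      =O[LL] fun x => ‖x‖⁻¹ :=
    IsBigO.fun_sum fun a _ => IsBigO.fun_sum fun b _ => h a b
  refine h2.neg_left.congr_left fun x => ?_
  rw [← b7a_eta β]
  simp only [Finset.sum_sub_distrib]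
  ring

theorem conorm_sqrt {G : E4 → Matrix (Fin 4) (Fin 4) ℝ} {f : E3 → ℝ} {m β C R : ℝ}
    (hB : GEnd G f m β C R) :
    (fun x => 1 / Real.sqrt (-∑ a, ∑ b, (G (pt (f x) x))⁻¹ a b * conorm f x a * conorm f x b) - lor β)
      =O[LL] fun x => ‖x‖⁻¹ := by
  have h := conorm_len hB
  have h0 : 0 < 1 - β ^ 2 := by
    have := hB.beta
    have h1 : β ^ 2 < 1 := by
      rw [← sq_abs]
      have := abs_nonneg β
      nlinarith
    linarith
  have ht : Tendsto (fun x => -∑ a, ∑ b, (G (pt (f x) x))⁻¹ a b * conorm f x a * conorm f x b) LL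
      (𝓝 (1 - β ^ 2)) := by
    have h1 := h.trans_tendsto b7a_zero
    have h2 := h1.add_const (1 - β ^ 2)
    simpa using h2
  have hd : DifferentiableAt ℝ (fun s : ℝ => 1 / Real.sqrt s) (1 - β ^ 2) :=
    (differentiableAt_const _).div (Real.hasDerivAt_sqrt h0.ne').differentiableAt (Real.sqrt_pos.2 h0).ne'
  have h3 := hd.isBigO_sub.comp_tendsto ht
  exact h3.trans h

theorem second_exp {G : E4 → Matrix (Fin 4) (Fin 4) ℝ} {f : E3 → ℝ} {m β C R : ℝ}
    (hB : GEnd G f m β C R) (i j : Fin 3) :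
    (fun x => second G f x i j - lor β * (pd i (pd j f) x + kh m β i j x))
      =O[LL] fun x => (‖x‖ ^ 3)⁻¹ := by
  have h1 := chr_sum hB i j
  have h2 := conorm_sqrt hB
  have h3 : (fun x => pd i (pd j f) x + kh m β i j x) =O[LL] fun x => (‖x‖ ^ 2)⁻¹ :=
    (f_two hB i j).add (kh_bigO m β i j)
  have h4 : (fun x => 1 / Real.sqrt (-∑ a, ∑ b, (G (pt (f x) x))⁻¹ a b * conorm f x a * conorm f x b))
      =O[LL] fun _ => (1 : ℝ) := by
    have h5 := (h2.trans b7a_one).add (isBigO_const_const (lor β) (one_ne_zero (α := ℝ)) LL)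
    refine h5.congr_left fun x => ?_
    ring
  have e : ∀ x : E3, (‖x‖ ^ 2)⁻¹ * ‖x‖⁻¹ = (‖x‖ ^ 3)⁻¹ := fun x => by
    rw [← mul_inv, ← pow_succ]
  have h6 : (fun x => ((∑ c, ∑ a, ∑ b, H31R.chr G c a b (pt (f x) x) * conorm f x c * tang f x i a
      * tang f x j b) - kh m β i j x) *
      (1 / Real.sqrt (-∑ a, ∑ b, (G (pt (f x) x))⁻¹ a b * conorm f x a * conorm f x b)) +
      (pd i (pd j f) x + kh m β i j x) *
      (1 / Real.sqrt (-∑ a, ∑ b, (G (pt (f x) x))⁻¹ a b * conorm f x a * conorm f x b) - lor β))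
      =O[LL] fun x => (‖x‖ ^ 3)⁻¹ := by
    refine IsBigO.add ?_ ?_
    · simpa using h1.mul h4
    · exact (h3.mul h2).congr_right e
  refine h6.congr_left fun x => ?_
  simp only [second, Matrix.of_apply]
  ring

theorem second_bigO {G : E4 → Matrix (Fin 4) (Fin 4) ℝ} {f : E3 → ℝ} {m β C R : ℝ}
    (hB : GEnd G f m β C R) (i j : Fin 3) :
    (fun x => second G f x i j) =O[LL] fun x => (‖x‖ ^ 2)⁻¹ := by
  have h1 := (second_exp hB i j).trans (ex_pow_le (show 2 ≤ 3 by norm_num))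
  have h3 : (fun x => pd i (pd j f) x + kh m β i j x) =O[LL] fun x => (‖x‖ ^ 2)⁻¹ :=
    (f_two hB i j).add (kh_bigO m β i j)
  have h2 := h1.add (h3.const_mul_left (lor β))
  refine h2.congr_left fun x => ?_
  ring

end H17G
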