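import Pool.Agent.Lib.H17W.EG1
import Pool.Agent.Lib.H17B.B8B

set_option autoImplicit false

/-!
# H17W, module E (ADM part): the induced metric

Port of `Lib/H17B` from the metrics `stMetric F k r` to a general metric.
-/

open MeasureTheory Filter Topology Set Asymptotics
open scoped ContDiff

namespace H17G

open H17T H17B
open Pool.Agent.Lib.PenroseSph (E3 Tens S2 sm pd trg fluxDensity momDensity admFlux admMom DefFun meanCurv trLevel)

theorem slice_split (G : E4 → Matrix (Fin 4) (Fin 4) ℝ) (f : E3 → ℝ) (x : E3) (i j : Fin 3) :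
    slice G f x i j
      = (G (PP f x) i.succ j.succ + G (PP f x) 0 0 * (pd i f x * pd j f x)) +
        (G (PP f x) 0 j.succ * pd i f x + G (PP f x) i.succ 0 * pd j f x) := by
  have e3 : slice G f x i j = ∑ a, ∑ b, G (PP f x) a b * tang f x i a * tang f x j b := rfl
  rw [e3, Fin.sum_univ_succ]
  simp only [Fin.sum_univ_succ (n := 3), tang, Fin.cons_zero, Fin.cons_succ, mul_ite, mul_one, mul_zero, ite_mul, zero_mul,
    Finset.sum_add_distrib, Finset.sum_ite_eq', Finset.mem_univ, if_true]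
  have e4 : (∑ x_1 : Fin 3, ∑ x_2 : Fin 3, if x_1 = i then if x_2 = j then G (PP f x) x_1.succ x_2.succ else 0 else 0) =
      G (PP f x) i.succ j.succ := by
    rw [Finset.sum_eq_single i]
    · simp
    · intro b _ hb
      simp [hb]
    · intro h
      exact absurd (Finset.mem_univ i) h
  rw [e4]
  ring

theorem eg2_one {f : E3 → ℝ} {G : E4 → Matrix (Fin 4) (Fin 4) ℝ} {m β C R : ℝ} (hB : GEnd G f m β C R) (i : Fin 3) :
    (fun x => pd i f x) =O[LL] fun _ => (1 : ℝ) := by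
  have h0 : Tendsto (fun x : E3 => ‖x‖⁻¹) LL (𝓝 0) := tendsto_inv_atTop_zero.comp tendsto_norm_cobounded_atTop
  have h := ((f_one hB i).trans (h0.isBigO_one ℝ)).add (isBigO_const_const (β * dz i) (one_ne_zero (α := ℝ)) LL)
  refine h.congr_left fun x => ?_
  ring

theorem eg2_0 {f : E3 → ℝ} {G : E4 → Matrix (Fin 4) (Fin 4) ℝ} {m β C R : ℝ} (hB : GEnd G f m β C R) (j : Fin 3) :
    Ex f 0 0 fun p => G p 0 j.succ := by
  have h := hB.ex 0 j.succ
  have e1 : eta 0 j.succ = 0 := by simp [eta, (Fin.succ_ne_zero j).symm]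
  have e2 : 2 * m * dl (0 : Fin 4) j.succ = 0 := by simp [dl, (Fin.succ_ne_zero j).symm]
  rwa [e1, e2] at h

theorem eg2_1 {f : E3 → ℝ} {G : E4 → Matrix (Fin 4) (Fin 4) ℝ} {m β C R : ℝ} (hB : GEnd G f m β C R) (i : Fin 3) :
    Ex f 0 0 fun p => G p i.succ 0 := by
  have h := hB.ex i.succ 0
  have e1 : eta i.succ 0 = 0 := by simp [eta, Fin.succ_ne_zero i]
  have e2 : 2 * m * dl i.succ (0 : Fin 4) = 0 := by simp [dl, Fin.succ_ne_zero i]
  rwa [e1, e2] at h

/-- A mixed term. -/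
theorem eg2_mix {f : E3 → ℝ} {G : E4 → Matrix (Fin 4) (Fin 4) ℝ} {m β C R : ℝ} (hB : GEnd G f m β C R) {φ : E4 → ℝ}
    (hφ : Ex f 0 0 φ) (i : Fin 3) :
    (fun x => φ (PP f x) * pd i f x) =O[LL] fun x => (‖x‖ ^ 2)⁻¹ := by
  have h1 : (fun x => φ (PP f x)) =O[LL] fun x => (‖x‖ ^ 2)⁻¹ := by
    refine hφ.val.congr_left fun x => ?_
    simp
  simpa using h1.mul (eg2_one hB i)

theorem eg2_mixd {f : E3 → ℝ} {G : E4 → Matrix (Fin 4) (Fin 4) ℝ} {m β C R : ℝ} (hB : GEnd G f m β C R) {φ : E4 → ℝ}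
    (hφ : Ex f 0 0 φ) (l i : Fin 3) :
    (fun x => pd l (fun y => φ (PP f y) * pd i f y) x) =O[LL] fun x => (‖x‖ ^ 3)⁻¹ := by
  have h1 : (fun x => φ (PP f x)) =O[LL] fun x => (‖x‖ ^ 2)⁻¹ := by
    refine hφ.val.congr_left fun x => ?_
    simp
  have hd : ∀ a, (fun x => H31R.pd a φ (PP f x)) =O[LL] fun x => (‖x‖ ^ 3)⁻¹ := by
    intro a
    refine (hφ.der a).congr_left fun x => ?_
    simp
  have h2 : (fun x => (H31R.pd l.succ φ (PP f x) + pd l f x * H31R.pd 0 φ (PP f x)) * pd i f x)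
      =O[LL] fun x => (‖x‖ ^ 3)⁻¹ := by
    have h3 : (fun x => pd l f x * H31R.pd 0 φ (PP f x)) =O[LL] fun x => (‖x‖ ^ 3)⁻¹ := by
      simpa using (eg2_one hB l).mul (hd 0)
    simpa using ((hd l.succ).add h3).mul (eg2_one hB i)
  have h4 : (fun x => φ (PP f x) * pd l (pd i f) x) =O[LL] fun x => (‖x‖ ^ 3)⁻¹ := by
    have h5 := h1.mul (f_two hB l i)
    refine h5.trans ?_
    have e : (fun x : E3 => (‖x‖ ^ 2)⁻¹ * (‖x‖ ^ 2)⁻¹) = fun x => (‖x‖ ^ 4)⁻¹ := by
      funext x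
      rw [← mul_inv, ← pow_add]
    rw [e]
    exact ex_pow_le (by norm_num)
  refine (h2.add h4).congr' ?_ EventuallyEq.rfl
  have hev : ∀ᶠ x : E3 in LL, R ≤ ‖x‖ := tendsto_norm_cobounded_atTop.eventually_ge_atTop R
  filter_upwards [hev, hφ.diff] with x hx hd1
  have hf := hB.f_smooth x hx
  obtain ⟨k1, k2⟩ := b8b_chain (hf.differentiableAt (by simp)) hd1 l
  have k3 := b8b_diff hf i
  have h7 := k1.hasFDerivAt.mul k3.hasFDerivAt
  have e : pd l (fun y => φ (PP f y) * pd i f y) x =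
    fderiv ℝ (fun y => φ (PP f y) * pd i f y) x (EuclideanSpace.single l 1) := rfl
  have e2 : fderiv ℝ (fun y => φ (PP f y) * pd i f y) x = _ := h7.fderiv
  rw [e, e2, ← k2]
  simp only [add_apply, smul_apply, smul_eq_mul]
  have e3 : ∀ φ : E3 → ℝ, fderiv ℝ φ x (EuclideanSpace.single l 1) = pd l φ x := fun φ => rfl
  simp only [e3]
  ring

theorem slice_val {G : E4 → Matrix (Fin 4) (Fin 4) ℝ} {f : E3 → ℝ} {m β C R : ℝ}
    (hB : GEnd G f m β C R) (i j : Fin 3) :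
    (fun x => slice G f x i j - (dl i j - β ^ 2 * dz i * dz j)) =O[LL] fun x => ‖x‖⁻¹ := by
  have h1 := (ex_metric hB i.succ j.succ).val1
  have h2 := (ex_metric hB 0 0).val1
  have h3 := b8a_mul (f_one hB i) (f_one hB j)
  have h4 := h1.add (b8a_mul h2 h3)
  have h5 := ((eg2_mix hB (eg2_0 hB j) i).add (eg2_mix hB (eg2_1 hB i) j)).trans b3a_inv1
  refine (h4.add h5).congr_left fun x => ?_
  rw [slice_split, b8a_eta]
  have e : eta 0 0 = -1 := by simp [eta]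
  rw [e]
  ring

theorem slice_der {G : E4 → Matrix (Fin 4) (Fin 4) ℝ} {f : E3 → ℝ} {m β C R : ℝ}
    (hB : GEnd G f m β C R) (l i j : Fin 3) :
    (fun x => pd l (fun y => slice G f y i j) x
      + (2 * m / ‖x‖ ^ 2 * (x l / ‖x‖) * (dl i j + β ^ 2 * dz i * dz j)
        + β * (pd l (pd i f) x * dz j + pd l (pd j f) x * dz i))) =O[LL] fun x => (‖x‖ ^ 3)⁻¹ := by
  have h0 : Tendsto (fun x : E3 => ‖x‖⁻¹) LL (𝓝 0) := tendsto_inv_atTop_zero.comp tendsto_norm_cobounded_atTop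
  have hone : (fun x : E3 => ‖x‖⁻¹) =O[LL] fun _ => (1 : ℝ) := h0.isBigO_one ℝ
  have e23 : ∀ x : E3, (‖x‖ ^ 2)⁻¹ * ‖x‖⁻¹ = (‖x‖ ^ 3)⁻¹ := fun x => by
    rw [← mul_inv, ← pow_succ]
  have e32 : ∀ x : E3, ‖x‖⁻¹ * (‖x‖ ^ 2)⁻¹ = (‖x‖ ^ 3)⁻¹ := fun x => by
    rw [mul_comm, e23]
  have hij := ex_metric hB i.succ j.succ
  have h00 := ex_metric hB 0 0
  have hf1 : ∀ i, (fun x => pd i f x) =O[LL] fun _ => (1 : ℝ) := fun i => by
    have h := ((f_one hB i).trans hone).add (isBigO_const_const (β * dz i) (one_ne_zero (α := ℝ)) LL)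
    refine h.congr_left fun x => ?_
    ring
  -- the time derivatives
  have ht : ∀ {c0 c1 : ℝ} {φ : E4 → ℝ}, Ex f c0 c1 φ →
      (fun x => pd l f x * H31R.pd 0 φ (PP f x)) =O[LL] fun x => (‖x‖ ^ 3)⁻¹ := by
    intro c0 c1 φ h
    have h1 : (fun x => H31R.pd 0 φ (PP f x)) =O[LL] fun x => (‖x‖ ^ 3)⁻¹ := by
      refine (h.der 0).congr_left fun x => ?_
      simp [om]
    have h2 := (hf1 l).mul h1
    simpa using h2
  have hA : (fun x => H31R.pd l.succ (fun p => G p i.succ j.succ) (PP f x) +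
      2 * m * dl i j / ‖x‖ ^ 2 * (x l / ‖x‖)) =O[LL] fun x => (‖x‖ ^ 3)⁻¹ := by
    refine (hij.der l.succ).congr_left fun x => ?_
    have e : dl i.succ j.succ = dl i j := by simp [dl, Fin.succ_inj]
    rw [e]
    rfl
  have hB0 : (fun x => H31R.pd l.succ (fun p => G p 0 0) (PP f x) +
      2 * m / ‖x‖ ^ 2 * (x l / ‖x‖)) =O[LL] fun x => (‖x‖ ^ 3)⁻¹ := by
    refine (h00.der l.succ).congr_left fun x => ?_
    have e : dl (0 : Fin 4) 0 = 1 := by simp [dl]
    rw [e, mul_one]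
    rfl
  have hB1 : (fun x => ((H31R.pd l.succ (fun p => G p 0 0) (PP f x) +
      2 * m / ‖x‖ ^ 2 * (x l / ‖x‖)) + pd l f x * H31R.pd 0 (fun p => G p 0 0) (PP f x)) *
      (pd i f x * pd j f x)) =O[LL] fun x => (‖x‖ ^ 3)⁻¹ := by
    have h := (hB0.add (ht h00)).mul ((hf1 i).mul (hf1 j))
    simpa using h
  have hC : (fun x : E3 => 2 * m / ‖x‖ ^ 2 * (x l / ‖x‖) * (pd i f x * pd j f x - β * dz i * (β * dz j)))
      =O[LL] fun x => (‖x‖ ^ 3)⁻¹ := by
    have h1 := b8a_mul (f_one hB i) (f_one hB j)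
    have h2 : (fun x : E3 => 2 * m / ‖x‖ ^ 2 * (x l / ‖x‖)) =O[LL] fun x => (‖x‖ ^ 2)⁻¹ := by
      refine IsBigO.of_bound (|2 * m|) (Eventually.of_forall fun x => ?_)
      have h3 : |x l / ‖x‖| ≤ 1 := ex_om l.succ x
      have h4 : ‖2 * m / ‖x‖ ^ 2 * (x l / ‖x‖)‖ = |2 * m| * ‖(‖x‖ ^ 2)⁻¹‖ * |x l / ‖x‖| := by
        rw [norm_mul, div_eq_mul_inv, norm_mul, Real.norm_eq_abs, Real.norm_eq_abs (x l / ‖x‖)]
      rw [h4]
      calc |2 * m| * ‖(‖x‖ ^ 2)⁻¹‖ * |x l / ‖x‖| ≤ |2 * m| * ‖(‖x‖ ^ 2)⁻¹‖ * 1 :=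
            mul_le_mul_of_nonneg_left h3 (by positivity)
        _ = _ := by ring
    exact (h2.mul h1).congr_right e23
  have hD : (fun x => (G (PP f x) 0 0 + 1) * (pd l (pd i f) x * pd j f x + pd i f x * pd l (pd j f) x))
      =O[LL] fun x => (‖x‖ ^ 3)⁻¹ := by
    have h1 : (fun x => G (PP f x) 0 0 + 1) =O[LL] fun x => ‖x‖⁻¹ := by
      refine h00.val1.congr_left fun x => ?_
      have e : eta 0 0 = -1 := by simp [eta]
      rw [e]
      ring
    have h2 : (fun x => pd l (pd i f) x * pd j f x + pd i f x * pd l (pd j f) x) =O[LL] fun x => (‖x‖ ^ 2)⁻¹ := by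
      have h3 := (f_two hB l i).mul (hf1 j)
      have h4 := (hf1 i).mul (f_two hB l j)
      refine IsBigO.add ?_ ?_
      · simpa using h3
      · simpa using h4
    exact (h1.mul h2).congr_right e32
  have hE : (fun x => pd l (pd i f) x * (pd j f x - β * dz j)) =O[LL] fun x => (‖x‖ ^ 3)⁻¹ :=
    ((f_two hB l i).mul (f_one hB j)).congr_right e23
  have hE' : (fun x => pd l (pd j f) x * (pd i f x - β * dz i)) =O[LL] fun x => (‖x‖ ^ 3)⁻¹ :=
    ((f_two hB l j).mul (f_one hB i)).congr_right e23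
  have hX := (eg2_mixd hB (eg2_0 hB j) l i).add (eg2_mixd hB (eg2_1 hB i) l j)
  have hsum := ((((((hA.add (ht hij)).add hB1).sub hC).add hD).sub hE).sub hE').add hX
  refine hsum.congr' ?_ EventuallyEq.rfl
  have hev : ∀ᶠ x : E3 in LL, R ≤ ‖x‖ := tendsto_norm_cobounded_atTop.eventually_ge_atTop R
  filter_upwards [hev, hij.diff, h00.diff, (eg2_0 hB j).diff, (eg2_1 hB i).diff] with x hx hd1 hd2 hd3 hd4
  have hf := hB.f_smooth x hx
  have hfd : DifferentiableAt ℝ f x := hf.differentiableAt (by simp)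
  have k1 : DifferentiableAt ℝ (fun y => G (PP f y) i.succ j.succ + G (PP f y) 0 0 * (pd i f y * pd j f y)) x :=
    (b8b_chain hfd hd1 l).1.add ((b8b_chain hfd hd2 l).1.mul ((b8b_diff hf i).mul (b8b_diff hf j)))
  have k3 : DifferentiableAt ℝ (fun y => G (PP f y) 0 j.succ * pd i f y) x := (b8b_chain hfd hd3 l).1.mul (b8b_diff hf i)
  have k4 : DifferentiableAt ℝ (fun y => G (PP f y) i.succ 0 * pd j f y) x := (b8b_chain hfd hd4 l).1.mul (b8b_diff hf j)
  have e1 : (fun y => slice G f y i j) = fun y => (G (PP f y) i.succ j.succ + G (PP f y) 0 0 * (pd i f y * pd j f y)) +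
      (G (PP f y) 0 j.succ * pd i f y + G (PP f y) i.succ 0 * pd j f y) := by
    funext y
    exact slice_split G f y i j
  have e2 : pd l (fun y => slice G f y i j) x =
      pd l (fun y => (fun p => G p i.succ j.succ) (PP f y) + (fun p => G p 0 0) (PP f y) * (pd i f y * pd j f y)) x +
      (pd l (fun y => G (PP f y) 0 j.succ * pd i f y) x + pd l (fun y => G (PP f y) i.succ 0 * pd j f y) x) := by
    rw [e1]
    have h7 := (k1.hasFDerivAt.add (k3.hasFDerivAt.add k4.hasFDerivAt))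
    have e : pd l (fun y => (G (PP f y) i.succ j.succ + G (PP f y) 0 0 * (pd i f y * pd j f y)) +
      (G (PP f y) 0 j.succ * pd i f y + G (PP f y) i.succ 0 * pd j f y)) x =
      fderiv ℝ (fun y => (G (PP f y) i.succ j.succ + G (PP f y) 0 0 * (pd i f y * pd j f y)) +
      (G (PP f y) 0 j.succ * pd i f y + G (PP f y) i.succ 0 * pd j f y)) x (EuclideanSpace.single l 1) := rfl
    have e2 : fderiv ℝ (fun y => (G (PP f y) i.succ j.succ + G (PP f y) 0 0 * (pd i f y * pd j f y)) +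
      (G (PP f y) 0 j.succ * pd i f y + G (PP f y) i.succ 0 * pd j f y)) x = _ := h7.fderiv
    rw [e, e2]
    rfl
  rw [e2, b8b_der hf hd1 hd2 l i j]
  ring

end H17G
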