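import Pool.Agent.Lib.H17W.EG2
import Pool.Agent.Lib.H17B.D0A

set_option autoImplicit false

/-!
# H17W, module E (ADM part): smoothness

Port of `Lib/H17B` from the metrics `stMetric F k r` to a general metric.
-/

open MeasureTheory Filter Topology Set Asymptotics
open scoped ContDiff

namespace H17G

open H17T H17B
open Pool.Agent.Lib.PenroseSph (E3 Tens S2 sm pd trg fluxDensity momDensity admFlux admMom DefFun meanCurv trLevel)

theorem d0a_met {G : E4 → Matrix (Fin 4) (Fin 4) ℝ} {f : E3 → ℝ} {m β C R : ℝ} (hB : GEnd G f m β C R) {x : E3} (hx : R < ‖x‖) (a b : Fin 4) :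
    ContDiffAt ℝ ∞ (fun p => G p a b) (PP f x) := hB.G_smooth x hx.le a b

theorem d0a_det {G : E4 → Matrix (Fin 4) (Fin 4) ℝ} {f : E3 → ℝ} {m β C R : ℝ} (hB : GEnd G f m β C R) {x : E3} (hx : R < ‖x‖) : (G (PP f x)).det ≠ 0 :=
  hB.G_det x hx.le

theorem d0a_PP {G : E4 → Matrix (Fin 4) (Fin 4) ℝ} {f : E3 → ℝ} {m β C R : ℝ} (hB : GEnd G f m β C R) {x : E3} (hx : R < ‖x‖) : ContDiffAt ℝ ∞ (PP f) x :=
  ContDiffAt.comp (f := fun y : E3 => (f y, y)) (g := fun q : ℝ × E3 => pt q.1 q.2) x pt_smooth.contDiffAt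
    ((hB.f_smooth x hx.le).prodMk contDiffAt_id)

theorem slice_smooth_b {G : E4 → Matrix (Fin 4) (Fin 4) ℝ} {f : E3 → ℝ} {m β C R : ℝ}
    (hB : GEnd G f m β C R) {x : E3} (hx : R < ‖x‖) (i j : Fin 3) :
    ContDiffAt ℝ ∞ (fun y => slice G f y i j) x := by
  have e : (fun y => slice G f y i j) = fun y =>
      ((fun p => G p i.succ j.succ) (PP f y) + (fun p => G p 0 0) (PP f y) * (pd i f y * pd j f y)) +
      ((fun p => G p 0 j.succ) (PP f y) * pd i f y + (fun p => G p i.succ 0) (PP f y) * pd j f y) := by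
    funext y
    exact slice_split G f y i j
  rw [e]
  have hP := d0a_PP hB hx
  have h1 : ∀ a b, ContDiffAt ℝ ∞ (fun y => (fun p => G p a b) (PP f y)) x := fun a b =>
    ContDiffAt.comp (f := PP f) x (d0a_met hB hx a b) hP
  have hf := hB.f_smooth x hx.le
  exact ((h1 _ _).add ((h1 _ _).mul ((d0a_pd hf i).mul (d0a_pd hf j)))).add
    (((h1 _ _).mul (d0a_pd hf i)).add ((h1 _ _).mul (d0a_pd hf j)))

theorem second_cont_b {G : E4 → Matrix (Fin 4) (Fin 4) ℝ} {f : E3 → ℝ} {m β C R : ℝ}
    (hB : GEnd G f m β C R) {x : E3} (hx : R < ‖x‖)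
    (hpos : 0 < -∑ a, ∑ b, (G (pt (f x) x))⁻¹ a b * conorm f x a * conorm f x b) (i j : Fin 3) :
    ContinuousAt (fun y => second G f y i j) x := by
  have hP := (d0a_PP hB hx).continuousAt
  have hf := hB.f_smooth x hx.le
  have hinv : ∀ a b, ContinuousAt (fun y => (G (pt (f y) y))⁻¹ a b) x := by
    intro a b
    have h1 := d0a_inv (G := G) (p := PP f x) (fun a b => (d0a_met hB hx a b).continuousAt) (d0a_det hB hx) a b
    exact ContinuousAt.comp (f := PP f) h1 hP
  have hcon : ∀ a, ContinuousAt (fun y => conorm f y a) x := by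
    intro a
    refine Fin.cases ?_ (fun l => ?_) a
    · exact continuousAt_const
    · exact (d0a_pd hf l).continuousAt.neg
  have htan : ∀ l a, ContinuousAt (fun y => tang f y l a) x := by
    intro l a
    refine Fin.cases ?_ (fun l' => ?_) a
    · exact (d0a_pd hf l).continuousAt
    · exact continuousAt_const
  have hchr : ∀ c a b, ContinuousAt (fun y => H31R.chr G c a b (pt (f y) y)) x := by
    intro c a b
    have h1 : ContinuousAt (H31R.chr G c a b) (PP f x) := by
      unfold H31R.chr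
      refine continuousAt_const.mul (tendsto_finset_sum _ fun l _ => ?_)
      refine ContinuousAt.mul ?_ ?_
      · exact d0a_inv (G := G) (p := PP f x) (fun a b => (d0a_met hB hx a b).continuousAt) (d0a_det hB hx) c l
      · exact ((d0a_pd4 (d0a_met hB hx b l) a).continuousAt.add (d0a_pd4 (d0a_met hB hx a l) b).continuousAt).sub
          (d0a_pd4 (d0a_met hB hx a b) l).continuousAt
    exact ContinuousAt.comp (f := PP f) h1 hP
  unfold second
  refine ContinuousAt.div ?_ ?_ (Real.sqrt_pos.2 hpos).ne'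
  · refine ContinuousAt.add (d0a_pd (d0a_pd hf j) i).continuousAt ?_
    refine tendsto_finset_sum _ fun c _ => tendsto_finset_sum _ fun a _ => tendsto_finset_sum _ fun b _ => ?_
    exact (((hchr c a b).mul (hcon c)).mul (htan i a)).mul (htan j b)
  · refine Real.continuous_sqrt.continuousAt.comp (ContinuousAt.neg ?_)
    refine tendsto_finset_sum _ fun a _ => tendsto_finset_sum _ fun b _ => ?_
    exact ((hinv a b).mul (hcon a)).mul (hcon b)

end H17G
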