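import Pool.Agent.Lib.H17W.EG2
import Pool.Agent.Lib.H17W.EG3
import Pool.Agent.Lib.H17B.C1

set_option autoImplicit false

/-!
# H17W, module E (ADM part): the data in the coordinates y

Port of `Lib/H17B` from the metrics `stMetric F k r` to a general metric.
-/

open MeasureTheory Filter Topology Set Asymptotics
open scoped ContDiff

namespace H17G

open H17T H17B
open Pool.Agent.Lib.PenroseSph (E3 Tens S2 sm pd trg fluxDensity momDensity admFlux admMom DefFun meanCurv trLevel)

theorem boost_val {G : E4 → Matrix (Fin 4) (Fin 4) ℝ} {f : E3 → ℝ} {m β C R : ℝ}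
    (hB : GEnd G f m β C R) (i j : Fin 3) :
    (fun y => boost β (slice G f) y i j - dl i j) =O[LL] fun y => ‖y‖⁻¹ := by
  obtain ⟨hg1, hg2⟩ := lor_one_le hB.beta
  have h1 : (fun x => slice G f x i j - (dl i j - β ^ 2 * dz i * dz j))
      =O[LL] fun x => (‖x‖ ^ 1)⁻¹ := by
    simpa only [pow_one] using slice_val hB i j
  have h2 := (comp_stretch hg1 1 h1).const_mul_left (sc (lor β) i * sc (lor β) j)
  simp only [pow_one] at h2
  refine h2.congr_left fun y => ?_
  rw [c1_boost, mul_sub, c1_dl hg2]

theorem boost_der {G : E4 → Matrix (Fin 4) (Fin 4) ℝ} {f : E3 → ℝ} {m β C R : ℝ}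
    (hB : GEnd G f m β C R) (l i j : Fin 3) :
    (fun y => pd l (fun z => boost β (slice G f) z i j) y
      - sc (lor β) i * sc (lor β) j * sc (lor β) l * dg m β f l i j (stretch (lor β) y)) =O[LL] fun y => (‖y‖ ^ 3)⁻¹ := by
  obtain ⟨hg1, hg2⟩ := lor_one_le hB.beta
  have h2 := (comp_stretch hg1 3 (slice_der hB l i j)).const_mul_left (sc (lor β) i * sc (lor β) j * sc (lor β) l)
  refine h2.congr' ?_ (Filter.EventuallyEq.refl _ _)
  filter_upwards [(stretch_tendsto hg1).eventually (c1_far R)] with y hy
  have hd : DifferentiableAt ℝ (fun z => slice G f z i j) (stretch (lor β) y) :=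
    (slice_smooth_b hB hy i j).differentiableAt (by simp)
  have h3 : pd l (fun z => boost β (slice G f) z i j) y
      = sc (lor β) i * sc (lor β) j * (sc (lor β) l * pd l (fun z => slice G f z i j) (stretch (lor β) y)) := by
    have h4 : (fun z => boost β (slice G f) z i j)
        = fun z => (sc (lor β) i * sc (lor β) j) * (fun w => (fun v => slice G f v i j) (stretch (lor β) w)) z := by
      funext z
      rw [c1_boost]
    have h5 : DifferentiableAt ℝ (fun w => (fun v => slice G f v i j) (stretch (lor β) w)) y :=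
      DifferentiableAt.comp y hd ((stretch_smooth (lor β)).differentiable (by simp) y)
    rw [h4, c1_pd_const_mul _ _ h5, pd_stretch hd]
  rw [h3, dg]
  ring

theorem boost_second {G : E4 → Matrix (Fin 4) (Fin 4) ℝ} {f : E3 → ℝ} {m β C R : ℝ}
    (hB : GEnd G f m β C R) (i j : Fin 3) :
    (fun y => boost β (second G f) y i j - lor β * (sc (lor β) i * sc (lor β) j *
      (pd i (pd j f) (stretch (lor β) y) + kh m β i j (stretch (lor β) y)))) =O[LL] (fun y => (‖y‖ ^ 3)⁻¹) ∧
    (fun y => boost β (second G f) y i j) =O[LL] fun y => (‖y‖ ^ 2)⁻¹ := by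
  obtain ⟨hg1, hg2⟩ := lor_one_le hB.beta
  constructor
  · have h2 := (comp_stretch hg1 3 (second_exp hB i j)).const_mul_left (sc (lor β) i * sc (lor β) j)
    refine h2.congr_left fun y => ?_
    rw [c1_boost]
    ring
  · have h2 := (comp_stretch hg1 2 (second_bigO hB i j)).const_mul_left (sc (lor β) i * sc (lor β) j)
    refine h2.congr_left fun y => ?_
    rw [c1_boost]

end H17G
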