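import Pool.Agent.Lib.H17W.EG4
import Pool.Agent.Lib.H17B.C2B

set_option autoImplicit false

/-!
# H17W, module E (ADM part): the energy flux density

Port of `Lib/H17B` from the metrics `stMetric F k r` to a general metric.
-/

open MeasureTheory Filter Topology Set Asymptotics
open scoped ContDiff

namespace H17G

open H17T H17B
open Pool.Agent.Lib.PenroseSph (E3 Tens S2 sm pd trg fluxDensity momDensity admFlux admMom DefFun meanCurv trLevel)

theorem flux_exp_b {G : E4 → Matrix (Fin 4) (Fin 4) ℝ} {f : E3 → ℝ} {m β C R : ℝ}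
    (hB : GEnd G f m β C R) :
    (fun y => fluxDensity (boost β (slice G f)) y
      - (4 * m * lor β ^ 2 * ‖y‖ / ‖stretch (lor β) y‖ ^ 3
        + lor β * β / ‖y‖ * ∑ j, (y j * pd 0 (pd j fun z => f (stretch (lor β) z)) y
          - y 0 * pd j (pd j fun z => f (stretch (lor β) z)) y))) =O[LL] fun y => (‖y‖ ^ 3)⁻¹ := by
  obtain ⟨hγ1, hγ⟩ := lor_one_le hB.beta
  set γ := lor β with hγdef
  set g' := boost β (slice G f) with hg'
  have herr : ∀ l i j : Fin 3, (fun y => (pd l (fun z => g' z i j) y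
      - sc γ i * sc γ j * sc γ l * dg m β f l i j (stretch γ y))) =O[LL] fun y => (‖y‖ ^ 3)⁻¹ :=
    fun l i j => boost_der hB l i j
  have hsum : (fun y => ∑ i : Fin 3, ∑ j : Fin 3,
      ((pd j (fun z => g' z i j) y - sc γ i * sc γ j * sc γ j * dg m β f j i j (stretch γ y))
        - (pd i (fun z => g' z j j) y - sc γ j * sc γ j * sc γ i * dg m β f i j j (stretch γ y))) * (y i / ‖y‖))
      =O[LL] fun y => (‖y‖ ^ 3)⁻¹ := by
    have hh : ∀ i j : Fin 3, (fun y : E3 =>
      ((pd j (fun z => g' z i j) y - sc γ i * sc γ j * sc γ j * dg m β f j i j (stretch γ y))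
        - (pd i (fun z => g' z j j) y - sc γ j * sc γ j * sc γ i * dg m β f i j j (stretch γ y))) * (y i / ‖y‖))
      =O[LL] fun y : E3 => (‖y‖ ^ 3)⁻¹ := by
      intro i j
      have h1 := ((herr j i j).sub (herr i j j)).mul (c2b_unit i)
      simpa using h1
    exact IsBigO.fun_sum (fun (i : Fin 3) _ => IsBigO.fun_sum (fun (j : Fin 3) _ => hh i j))
  refine hsum.congr' ?_ EventuallyEq.rfl
  filter_upwards [c2b_far R hγ1] with y hy
  obtain ⟨hy0, hyR⟩ := hy
  have hfs : ContDiffAt ℝ ∞ f (stretch γ y) := hB.f_smooth _ hyR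
  have hρ : 0 < ‖stretch γ y‖ := lt_of_lt_of_le hB.R_pos hyR
  have hsq : ‖y‖ ^ 2 = y 0 ^ 2 + y 1 ^ 2 + y 2 ^ 2 := by
    rw [EuclideanSpace.norm_sq_eq, Fin.sum_univ_three]
    simp only [Real.norm_eq_abs, sq_abs]
  have halg := flux_alg (γ := γ) (β := β) (m := m) hy0 hρ (fun i => y i)
    (fun i j => pd i (pd j f) (stretch γ y)) (fun i j => c2b_symm hfs i j) hγ hsq
  have hp : ∀ i j : Fin 3, pd i (pd j fun z => f (stretch γ z)) y
      = sc γ i * sc γ j * pd i (pd j f) (stretch γ y) := fun i j =>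
    pd2_stretch (hfs.of_le (by norm_cast)) i j
  have hlead : ∑ i : Fin 3, ∑ j : Fin 3,
      (sc γ i * sc γ j * sc γ j * dg m β f j i j (stretch γ y)
        - sc γ j * sc γ j * sc γ i * dg m β f i j j (stretch γ y)) * (y i / ‖y‖)
      = 4 * m * γ ^ 2 * ‖y‖ / ‖stretch γ y‖ ^ 3
        + γ * β / ‖y‖ * ∑ j, (y j * pd 0 (pd j fun z => f (stretch γ z)) y
          - y 0 * pd j (pd j fun z => f (stretch γ z)) y) := by
    simp only [hp]
    rw [← halg]
    simp only [dg, stretch_apply]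
  rw [← hlead]
  unfold fluxDensity
  rw [← Finset.sum_sub_distrib]
  refine Finset.sum_congr rfl fun i _ => ?_
  rw [← Finset.sum_sub_distrib]
  refine Finset.sum_congr rfl fun j _ => ?_
  ring

end H17G
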