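import Pool.Agent.Lib.H17W.EG4
import Pool.Agent.Lib.H17B.C3C

set_option autoImplicit false

/-!
# H17W, module E (ADM part): the momentum flux density

Port of `Lib/H17B` from the metrics `stMetric F k r` to a general metric.
-/

open MeasureTheory Filter Topology Set Asymptotics
open scoped ContDiff

namespace H17G

open H17T H17B
open Pool.Agent.Lib.PenroseSph (E3 Tens S2 sm pd trg fluxDensity momDensity admFlux admMom DefFun meanCurv trLevel)

theorem mom_trace {G : E4 → Matrix (Fin 4) (Fin 4) ℝ} {f : E3 → ℝ} {m β C R : ℝ}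
    (hB : GEnd G f m β C R) (i : Fin 3) :
    (fun y => momDensity (boost β (slice G f)) (boost β (second G f)) i y
      - ∑ j, (boost β (second G f) y i j
        - (∑ l, boost β (second G f) y l l) * dl i j) * (y j / ‖y‖)) =O[LL] fun y => (‖y‖ ^ 3)⁻¹ := by
  set g : Tens := boost β (slice G f) with hg
  set h : Tens := boost β (second G f) with hh
  have hgv : ∀ a b, (fun y => g y a b - dl a b) =O[LL] fun y => ‖y‖⁻¹ := fun a b => boost_val hB a b
  have hhv : ∀ a b, (fun y => h y a b) =O[LL] fun y => (‖y‖ ^ 2)⁻¹ := fun a b => (boost_second hB a b).2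
  have hgi : ∀ a b, (fun y => (g y)⁻¹ a b - dl a b) =O[LL] fun y => ‖y‖⁻¹ := by
    intro a b
    have h1 := inv_bigO (A := g) (A0 := 1) (by simp) (fun i j => by
      have h2 := hgv i j
      simpa only [c3b_one] using h2) a b
    simpa only [inv_one, c3b_one] using h1
  have hT0 : (fun y => ∑ l, h y l l) =O[LL] fun y => (‖y‖ ^ 2)⁻¹ :=
    Asymptotics.IsBigO.fun_sum fun l _ => hhv l l
  have hT : (fun y => trg g h y - ∑ l, h y l l) =O[LL] fun y => (‖y‖ ^ 3)⁻¹ := by
    have h1 : (fun y => ∑ a, ∑ b, ((g y)⁻¹ a b - dl a b) * h y a b) =O[LL] fun y => (‖y‖ ^ 3)⁻¹ :=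
      Asymptotics.IsBigO.fun_sum fun a _ => Asymptotics.IsBigO.fun_sum fun b _ => c3b_mul12 (hgi a b) (hhv a b)
    refine h1.congr_left fun y => ?_
    unfold trg
    rw [c3b_trace (h y), ← Finset.sum_sub_distrib]
    refine Finset.sum_congr rfl fun a _ => ?_
    rw [← Finset.sum_sub_distrib]
    refine Finset.sum_congr rfl fun b _ => ?_
    ring
  have hmain : ∀ j, (fun y => -((trg g h y - ∑ l, h y l l) * g y i j + (∑ l, h y l l) * (g y i j - dl i j)) * (y j / ‖y‖))
      =O[LL] fun y => (‖y‖ ^ 3)⁻¹ := by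
    intro j
    have hgb : (fun y => g y i j) =O[LL] fun _ => (1 : ℝ) := by
      have h1 : (fun y => g y i j - dl i j) =O[LL] fun _ => (1 : ℝ) := (hgv i j).trans c3b_inv_one
      have h2 : (fun _ : E3 => dl i j) =O[LL] fun _ => (1 : ℝ) := Asymptotics.isBigO_const_const _ one_ne_zero _
      refine (h1.add h2).congr_left fun y => ?_
      ring
    have h1 : (fun y => (trg g h y - ∑ l, h y l l) * g y i j) =O[LL] fun y => (‖y‖ ^ 3)⁻¹ := by
      have h2 := hT.mul hgb
      simpa only [mul_one] using h2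
    have h2 : (fun y => (∑ l, h y l l) * (g y i j - dl i j)) =O[LL] fun y => (‖y‖ ^ 3)⁻¹ := by
      have h3 := c3b_mul12 (hgv i j) hT0
      refine h3.congr_left fun y => ?_
      ring
    have h3 := (h1.add h2).neg_left.mul (c3b_dir j)
    simpa only [mul_one] using h3
  have hall := Asymptotics.IsBigO.fun_sum (s := Finset.univ) fun j _ => hmain j
  refine hall.congr_left fun y => ?_
  unfold momDensity
  rw [← Finset.sum_sub_distrib]
  refine Finset.sum_congr rfl fun j _ => ?_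
  ring

theorem mom_exp {G : E4 → Matrix (Fin 4) (Fin 4) ℝ} {f : E3 → ℝ} {m β C R : ℝ}
    (hB : GEnd G f m β C R) (i : Fin 3) :
    (fun y => momDensity (boost β (slice G f)) (boost β (second G f)) i y
      - ((if i = 0 then 2 * lor β ^ 2 * β * m * ‖y‖ / ‖stretch (lor β) y‖ ^ 3
          else -(2 * lor β ^ 2 * (lor β ^ 2 - 1) * β * m * (y 0 * y i) / (‖stretch (lor β) y‖ ^ 3 * ‖y‖)))
        + lor β / ‖y‖ * ∑ j, (y j * pd i (pd j fun z => f (stretch (lor β) z)) y
          - y i * pd j (pd j fun z => f (stretch (lor β) z)) y))) =O[LL] fun y => (‖y‖ ^ 3)⁻¹ := by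
  obtain ⟨hγ1, hγ⟩ := lor_one_le hB.beta
  have htr := mom_trace hB i
  have hsec := fun a b => (boost_second hB a b).1
  set γ := lor β with hγdef
  set B := boost β (second G f) with hBdef
  set L : E3 → Fin 3 → Fin 3 → ℝ := fun y a b => γ * (sc γ a * sc γ b *
      (pd a (pd b f) (stretch γ y) + kh m β a b (stretch γ y))) with hL
  have herr : ∀ a b : Fin 3, (fun y => B y a b - L y a b) =O[LL] fun y => (‖y‖ ^ 3)⁻¹ := hsec
  have htrace : (fun y => ∑ l, (B y l l - L y l l)) =O[LL] fun y => (‖y‖ ^ 3)⁻¹ :=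
    IsBigO.fun_sum (fun (l : Fin 3) _ => herr l l)
  have hh : ∀ j : Fin 3, (fun y : E3 => ((B y i j - L y i j) - (∑ l, (B y l l - L y l l)) * dl i j) * (y j / ‖y‖))
      =O[LL] fun y : E3 => (‖y‖ ^ 3)⁻¹ := by
    intro j
    have h0 : (fun y => (∑ l, (B y l l - L y l l)) * dl i j) =O[LL] fun y => (‖y‖ ^ 3)⁻¹ := by
      have h1 := htrace.const_mul_left (dl i j)
      refine h1.congr' (Filter.Eventually.of_forall fun y => ?_) EventuallyEq.rfl
      exact mul_comm _ _
    have h1 := ((herr i j).sub h0).mul (c3c_unit j)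
    simpa using h1
  have hs : (fun y : E3 => ∑ j : Fin 3,
      ((B y i j - L y i j) - (∑ l, (B y l l - L y l l)) * dl i j) * (y j / ‖y‖)) =O[LL] fun y : E3 => (‖y‖ ^ 3)⁻¹ :=
    IsBigO.fun_sum (fun (j : Fin 3) _ => hh j)
  refine (htr.add hs).congr' ?_ EventuallyEq.rfl
  filter_upwards [c3c_far R hγ1] with y hy
  obtain ⟨hy0, hyR⟩ := hy
  have hfs : ContDiffAt ℝ ∞ f (stretch γ y) := hB.f_smooth _ hyR
  have hρ : 0 < ‖stretch γ y‖ := lt_of_lt_of_le hB.R_pos hyR
  have hsq : ‖y‖ ^ 2 = y 0 ^ 2 + y 1 ^ 2 + y 2 ^ 2 := by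
    rw [EuclideanSpace.norm_sq_eq, Fin.sum_univ_three]
    simp only [Real.norm_eq_abs, sq_abs]
  have halg := mom_alg (γ := γ) (β := β) (m := m) hy0 hρ (fun a => y a)
    (fun a b => pd a (pd b f) (stretch γ y)) hγ hsq (stretch_norm_sq γ y) (fun a b => L y a b)
    (fun a b => by simp only [hL, kh, stretch_apply]) i
  have hp : ∀ a b : Fin 3, pd a (pd b fun z => f (stretch γ z)) y
      = sc γ a * sc γ b * pd a (pd b f) (stretch γ y) := fun a b =>
    pd2_stretch (hfs.of_le (by norm_cast)) a b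
  have hlead : ∑ j, (L y i j - (∑ l, L y l l) * dl i j) * (y j / ‖y‖)
      = (if i = 0 then 2 * γ ^ 2 * β * m * ‖y‖ / ‖stretch γ y‖ ^ 3
          else -(2 * γ ^ 2 * (γ ^ 2 - 1) * β * m * (y 0 * y i) / (‖stretch γ y‖ ^ 3 * ‖y‖)))
        + γ / ‖y‖ * ∑ j, (y j * pd i (pd j fun z => f (stretch γ z)) y
          - y i * pd j (pd j fun z => f (stretch γ z)) y) := by
    simp only [hp]
    rw [halg, add_comm]
  rw [← hlead]
  have hfin : ∑ j : Fin 3, ((B y i j - L y i j) - (∑ l, (B y l l - L y l l)) * dl i j) * (y j / ‖y‖)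
      = ∑ j : Fin 3, (B y i j - (∑ l, B y l l) * dl i j) * (y j / ‖y‖)
        - ∑ j : Fin 3, (L y i j - (∑ l, L y l l) * dl i j) * (y j / ‖y‖) := by
    rw [← Finset.sum_sub_distrib]
    refine Finset.sum_congr rfl fun j _ => ?_
    rw [Finset.sum_sub_distrib]
    ring
  simp only [hfin]
  ring

end H17G
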