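import Pool.Agent.Lib.H17W.EG4
import Pool.Agent.Lib.H17B.D0

set_option autoImplicit false

/-!
# H17W, module E (ADM part): continuity of the densities

Port of `Lib/H17B` from the metrics `stMetric F k r` to a general metric.
-/

open MeasureTheory Filter Topology Set Asymptotics
open scoped ContDiff

namespace H17G

open H17T H17B
open Pool.Agent.Lib.PenroseSph (E3 Tens S2 sm pd trg fluxDensity momDensity admFlux admMom DefFun meanCurv trLevel)

theorem dens_cont_b {G : E4 → Matrix (Fin 4) (Fin 4) ℝ} {f : E3 → ℝ} {m β C R : ℝ}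
    (hB : GEnd G f m β C R) :
    ∃ R' : ℝ, 0 < R' ∧ ∀ y : E3, R' < ‖y‖ → ContinuousAt (fluxDensity (boost β (slice G f))) y ∧
      ∀ i, ContinuousAt (momDensity (boost β (slice G f)) (boost β (second G f)) i) y := by
  obtain ⟨hγ, hγ2⟩ := lor_one_le hB.beta
  have htend : Tendsto (fun x : E3 => ‖x‖⁻¹) LL (𝓝 0) := tendsto_inv_atTop_zero.comp tendsto_norm_cobounded_atTop
  have hG : ∀ i j, Tendsto (fun y => boost β (slice G f) y i j) LL (𝓝 (dl i j)) := by
    intro i j
    have h := ((boost_val hB i j).trans_tendsto htend).add_const (dl i j)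
    rw [zero_add] at h
    refine h.congr fun y => ?_
    rw [sub_add_cancel]
  have hdet : ∀ᶠ y in LL, (boost β (slice G f) y).det ≠ 0 := by
    have h1 : Tendsto (fun y => boost β (slice G f) y) LL (𝓝 (1 : Matrix (Fin 3) (Fin 3) ℝ)) := by
      refine tendsto_pi_nhds.2 fun i => tendsto_pi_nhds.2 fun j => ?_
      have e : (1 : Matrix (Fin 3) (Fin 3) ℝ) i j = dl i j := by
        rw [Matrix.one_apply]
        rfl
      rw [e]
      exact hG i j
    have h2 : Tendsto (fun y => (boost β (slice G f) y).det) LL (𝓝 1) := by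
      have h3 := (continuous_id.matrix_det (A := fun M : Matrix (Fin 3) (Fin 3) ℝ => M)).tendsto (1 : Matrix (Fin 3) (Fin 3) ℝ)
      rw [Matrix.det_one] at h3
      exact h3.comp h1
    exact h2.eventually_ne one_ne_zero
  have hpos : ∀ᶠ y in LL, 0 < -∑ a, ∑ b, (G (pt (f (stretch (lor β) y)) (stretch (lor β) y)))⁻¹ a b *
      conorm f (stretch (lor β) y) a * conorm f (stretch (lor β) y) b := by
    have h := ((conorm_len hB).trans_tendsto htend).add_const (1 - β ^ 2)
    rw [zero_add] at h
    have h1 : 0 < 1 - β ^ 2 := by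
      by_contra h2
      push Not at h2
      have : lor β ^ 2 * (1 - β ^ 2) ≤ 0 := mul_nonpos_of_nonneg_of_nonpos (sq_nonneg _) h2
      linarith
    have h3 : ∀ᶠ x in LL, 0 < -∑ a, ∑ b, (G (pt (f x) x))⁻¹ a b * conorm f x a * conorm f x b := by
      filter_upwards [h.eventually_const_lt h1] with x hx
      rwa [sub_add_cancel] at hx
    exact (stretch_tendsto hγ).eventually h3
  obtain ⟨R1, -, hR1⟩ := (Filter.hasBasis_cobounded_norm (E := E3)).eventually_iff.1 (hdet.and hpos)
  refine ⟨max R R1, hB.R_pos.trans_le (le_max_left _ _), fun y hy => ?_⟩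
  have hyR : R < ‖y‖ := (le_max_left _ _).trans_lt hy
  obtain ⟨hd, hp⟩ := hR1 ((le_max_right R R1).trans hy.le)
  have hy0 : y ≠ 0 := norm_pos_iff.1 (hB.R_pos.trans hyR)
  have hsR : R < ‖stretch (lor β) y‖ := hyR.trans_le (stretch_le hγ y).1
  have hg : ∀ i j, ContDiffAt ℝ ∞ (fun z => boost β (slice G f) z i j) y := by
    intro i j
    have h1 := ContDiffAt.comp (f := stretch (lor β)) (g := fun x => slice G f x i j) y
      (slice_smooth_b hB hsR i j) (stretch_smooth _).contDiffAt
    exact (contDiffAt_const (c := sc (lor β) i * sc (lor β) j)).mul h1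
  have hh : ∀ i j, ContinuousAt (fun z => boost β (second G f) z i j) y := by
    intro i j
    have h1 := ContinuousAt.comp (f := stretch (lor β)) (g := fun x => second G f x i j) (x := y)
      (second_cont_b hB hsR hp i j) (stretch_smooth _).continuous.continuousAt
    exact (continuousAt_const (y := sc (lor β) i * sc (lor β) j)).mul h1
  refine ⟨?_, fun i => ?_⟩
  · unfold fluxDensity
    refine tendsto_finset_sum _ fun i _ => tendsto_finset_sum _ fun j _ => ?_
    exact ((d0a_pd (hg i j) j).continuousAt.sub (d0a_pd (hg j j) i).continuousAt).mul (d0_co hy0 i)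
  · unfold momDensity trg
    refine tendsto_finset_sum _ fun j _ => ?_
    refine ContinuousAt.mul ((hh i j).sub (ContinuousAt.mul ?_ (hg i j).continuousAt)) (d0_co hy0 j)
    refine tendsto_finset_sum _ fun a _ => tendsto_finset_sum _ fun b _ => ?_
    exact (d0a_inv (G := boost β (slice G f)) (fun a b => (hg a b).continuousAt) hd a b).mul (hh a b)

end H17G
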