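import Pool.Agent.Lib.H17W.EG5
import Pool.Agent.Lib.H17W.EG6
import Pool.Agent.Lib.H17W.EG7
import Pool.Agent.Lib.H17B.D4
import Pool.Agent.Lib.H17B.D6

set_option autoImplicit false

/-!
# H17W, module E (ADM part): the limits

Port of `Lib/H17B` from the metrics `stMetric F k r` to a general metric.
-/

open MeasureTheory Filter Topology Set Asymptotics
open scoped ContDiff

namespace H17G

open H17T H17B
open Pool.Agent.Lib.PenroseSph (E3 Tens S2 sm pd trg fluxDensity momDensity admFlux admMom DefFun meanCurv trLevel)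

theorem d4_smooth {G : E4 → Matrix (Fin 4) (Fin 4) ℝ} {f : E3 → ℝ} {m β C R R1 : ℝ}
    (hB : GEnd G f m β C R) : ∀ y : E3, max R R1 < ‖y‖ → ContDiffAt ℝ ∞ (fun z => f (stretch (lor β) z)) y := by
  intro y hy
  obtain ⟨hg1, hg2⟩ := lor_one_le hB.beta
  have h1 : R ≤ ‖stretch (lor β) y‖ :=
    le_trans (le_trans (le_max_left _ _) hy.le) (stretch_le hg1 y).1
  exact ContDiffAt.comp y (hB.f_smooth _ h1) (stretch_smooth (lor β)).contDiffAt

theorem energy_lim {G : E4 → Matrix (Fin 4) (Fin 4) ℝ} {f : E3 → ℝ} {m β C R : ℝ}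
    (hB : GEnd G f m β C R) :
    Tendsto (admFlux (boost β (slice G f))) atTop (𝓝 (lor β * m)) := by
  obtain ⟨hg1, hg2⟩ := lor_one_le hB.beta
  have hg0 : 0 < lor β := lt_of_lt_of_le one_pos hg1
  obtain ⟨R1, hR1, hcont⟩ := dens_cont_b hB
  set γ := lor β with hγ
  set R' := max R R1 with hR'
  have hR0 : 0 ≤ R' := le_trans hR1.le (le_max_right _ _)
  have hτ : ∀ y : E3, R' < ‖y‖ → ContDiffAt ℝ ∞ (fun z => f (stretch γ z)) y := d4_smooth hB
  have h := lim_avg (R := R') (D := fluxDensity (boost β (slice G f)))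
    (M := fun y => 4 * m * γ ^ 2 * ‖y‖ / ‖stretch γ y‖ ^ 3)
    (Q := fun y => γ * β / ‖y‖ * ∑ j, (y j * pd 0 (pd j fun z => f (stretch γ z)) y
          - y 0 * pd j (pd j fun z => f (stretch γ z)) y))
    (fun y hy => (hcont y (lt_of_le_of_lt (le_max_right _ _) hy)).1)
    (fun y hy => by
      have h1 := d4_stretch_ne hg1 hy
      exact ((continuousAt_const.mul continuous_norm.continuousAt)).div
        (((stretch_smooth γ).continuous.norm.pow 3).continuousAt) (pow_ne_zero 3 h1))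
    (fun y hy => rot_cont hR0 hτ (γ * β) 0 hy)
    (fun t ht y hy => by
      have h1 := d4_stretch_ne hg1 hy
      rw [stretch_smul, norm_smul, norm_smul, Real.norm_of_nonneg ht.le]
      field_simp)
    (fun t ht => rot_zero hR0 hτ (γ * β) 0 ht)
    (flux_exp_b hB)
  have hI : ∫ n : S2, (fun y : E3 => 4 * m * γ ^ 2 * ‖y‖ / ‖stretch γ y‖ ^ 3) (n : E3) ∂sm
      = 16 * Real.pi * m * γ := by
    have h1 : (fun n : S2 => (fun y : E3 => 4 * m * γ ^ 2 * ‖y‖ / ‖stretch γ y‖ ^ 3) (n : E3))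
        = fun n : S2 => (4 * m * γ ^ 2) * (‖stretch γ (n : E3)‖ ^ 3)⁻¹ := by
      funext n
      have h2 : ‖(n : E3)‖ = 1 := by
        have := n.2
        simpa using this
      show 4 * m * γ ^ 2 * ‖(n : E3)‖ / ‖stretch γ (n : E3)‖ ^ 3 = _
      rw [h2]
      ring
    rw [h1, integral_const_mul, int_stretch hg1]
    field_simp
    ring
  rw [hI] at h
  have h3 := h.const_mul (1 / (16 * Real.pi))
  have h4 : 1 / (16 * Real.pi) * (16 * Real.pi * m * γ) = γ * m := by
    field_simp
  rw [h4] at h3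
  exact h3

theorem d6_smooth {G : E4 → Matrix (Fin 4) (Fin 4) ℝ} {f : E3 → ℝ} {m β C R R1 : ℝ}
    (hB : GEnd G f m β C R) : ∀ y : E3, max R R1 < ‖y‖ → ContDiffAt ℝ ∞ (fun z => f (stretch (lor β) z)) y := by
  intro y hy
  obtain ⟨hg1, hg2⟩ := lor_one_le hB.beta
  have h1 : R ≤ ‖stretch (lor β) y‖ :=
    le_trans (le_trans (le_max_left _ _) hy.le) (stretch_le hg1 y).1
  exact ContDiffAt.comp y (hB.f_smooth _ h1) (stretch_smooth (lor β)).contDiffAt

theorem momentum_lim {G : E4 → Matrix (Fin 4) (Fin 4) ℝ} {f : E3 → ℝ} {m β C R : ℝ}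
    (hB : GEnd G f m β C R) (i : Fin 3) :
    Tendsto (admMom (boost β (slice G f)) (boost β (second G f)) i) atTop
      (𝓝 (lor β * β * m * dz i)) := by
  obtain ⟨hg1, hg2⟩ := lor_one_le hB.beta
  have hg0 : 0 < lor β := lt_of_lt_of_le one_pos hg1
  obtain ⟨R1, hR1, hcont⟩ := dens_cont_b hB
  set γ := lor β with hγ
  set R' := max R R1 with hR'
  have hR0 : 0 ≤ R' := le_trans hR1.le (le_max_right _ _)
  have hτ : ∀ y : E3, R' < ‖y‖ → ContDiffAt ℝ ∞ (fun z => f (stretch γ z)) y := d6_smooth hB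
  have h := lim_avg (R := R')
    (D := momDensity (boost β (slice G f)) (boost β (second G f)) i)
    (M := fun y => if i = 0 then 2 * γ ^ 2 * β * m * ‖y‖ / ‖stretch γ y‖ ^ 3
          else -(2 * γ ^ 2 * (γ ^ 2 - 1) * β * m * (y 0 * y i) / (‖stretch γ y‖ ^ 3 * ‖y‖)))
    (Q := fun y => γ / ‖y‖ * ∑ j, (y j * pd i (pd j fun z => f (stretch γ z)) y
          - y i * pd j (pd j fun z => f (stretch γ z)) y))
    (fun y hy => (hcont y (lt_of_le_of_lt (le_max_right _ _) hy)).2 i)
    (fun y hy => by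
      have h1 := d6_stretch_ne hg1 hy
      have h2 : ‖y‖ ≠ 0 := norm_ne_zero_iff.mpr hy
      by_cases hi : i = 0
      · simp only [hi, if_true]
        exact ((continuousAt_const.mul continuous_norm.continuousAt)).div
          (((stretch_smooth γ).continuous.norm.pow 3).continuousAt) (pow_ne_zero 3 h1)
      · simp only [hi, if_false]
        have hc : ∀ l : Fin 3, ContinuousAt (fun y : E3 => y l) y := fun l =>
          (EuclideanSpace.proj (𝕜 := ℝ) l).continuous.continuousAt
        exact ((continuousAt_const.mul ((hc 0).mul (hc i))).div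
          ((((stretch_smooth γ).continuous.norm.pow 3).mul continuous_norm).continuousAt)
          (mul_ne_zero (pow_ne_zero 3 h1) h2)).neg)
    (fun y hy => rot_cont hR0 hτ γ i hy)
    (fun t ht y hy => by
      have h1 := d6_stretch_ne hg1 hy
      have h2 : ‖y‖ ≠ 0 := norm_ne_zero_iff.mpr hy
      have h3 : ∀ l : Fin 3, (t • y) l = t * y l := fun l => rfl
      by_cases hi : i = 0
      · simp only [hi, if_true]
        rw [stretch_smul, norm_smul, norm_smul, Real.norm_of_nonneg ht.le]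
        field_simp
      · simp only [hi, if_false]
        rw [stretch_smul, norm_smul, norm_smul, Real.norm_of_nonneg ht.le, h3, h3]
        field_simp)
    (fun t ht => rot_zero hR0 hτ γ i ht)
    (mom_exp hB i)
  have hI : ∫ n : S2, (fun y : E3 => if i = 0 then 2 * γ ^ 2 * β * m * ‖y‖ / ‖stretch γ y‖ ^ 3
          else -(2 * γ ^ 2 * (γ ^ 2 - 1) * β * m * (y 0 * y i) / (‖stretch γ y‖ ^ 3 * ‖y‖))) (n : E3) ∂sm
      = 8 * Real.pi * β * m * γ * dz i := by
    by_cases hi : i = 0
    · have h1 : (fun n : S2 => (fun y : E3 => if i = 0 then 2 * γ ^ 2 * β * m * ‖y‖ / ‖stretch γ y‖ ^ 3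
          else -(2 * γ ^ 2 * (γ ^ 2 - 1) * β * m * (y 0 * y i) / (‖stretch γ y‖ ^ 3 * ‖y‖))) (n : E3))
          = fun n : S2 => (2 * γ ^ 2 * β * m) * (‖stretch γ (n : E3)‖ ^ 3)⁻¹ := by
        funext n
        have h2 : ‖(n : E3)‖ = 1 := by
          have := n.2
          simpa using this
        simp only [hi, if_true]
        rw [h2]
        ring
      rw [h1, integral_const_mul, int_stretch hg1, dz, if_pos hi]
      field_simp
      ring
    · simp only [hi, if_false]
      rw [int_odd hg1 (2 * γ ^ 2 * (γ ^ 2 - 1) * β * m) hi, dz, if_neg hi, mul_zero]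
  rw [hI] at h
  have h3 := h.const_mul (1 / (8 * Real.pi))
  have h4 : 1 / (8 * Real.pi) * (8 * Real.pi * β * m * γ * dz i) = γ * β * m * dz i := by
    field_simp
  rw [h4] at h3
  exact h3

end H17G
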