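import Pool.Agent.Lib.H17W.B1A

set_option autoImplicit false

/-!
# H17W, module F: the expansion of the initial surface, definitions (helper74)

`x` is a point of the hypersurface `M = {T = f(x)}`; the surface `Σ` is `y ↦ pt (f (uu y)) (uu y)`, `y ≠ 0`, homogeneous of degree `0`.
-/

open MeasureTheory Filter Topology Set
open scoped ContDiff

namespace H17W

open H17T (E4 pt pos tang conorm slice second)
open Pool.Agent.Lib.PenroseSph (E3 Tens S2 sm pd)

/-- The position of the points of the surface. -/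
noncomputable def uu (Ψ : ℝ × E3 → E4) (y : E3) : E3 := pos (Ph Ψ (0, y))

/-- The product of the differentials of `T` and `T - f`. -/
noncomputable def orient (G : E4 → Matrix (Fin 4) (Fin 4) ℝ) (f : E3 → ℝ) (x : E3) : ℝ :=
  ∑ b, (G (pt (f x) x))⁻¹ 0 b * conorm f x b

/-- The length of the differential of `T - f`. -/
noncomputable def SS (G : E4 → Matrix (Fin 4) (Fin 4) ℝ) (f : E3 → ℝ) (x : E3) : ℝ :=
  Real.sqrt (-∑ a, ∑ b, (G (pt (f x) x))⁻¹ a b * conorm f x a * conorm f x b)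

/-- The unit normal `- grad (T - f)` of the hypersurface `T = f(x)`. -/
noncomputable def nor (G : E4 → Matrix (Fin 4) (Fin 4) ℝ) (f : E3 → ℝ) (x : E3) : Fin 4 → ℝ :=
  fun c => -(∑ b, (G (pt (f x) x))⁻¹ c b * conorm f x b) / SS G f x

/-- The hypersurface is smooth and spacelike at `x`. -/
structure SlAt (G : E4 → Matrix (Fin 4) (Fin 4) ℝ) (f : E3 → ℝ) (x : E3) : Prop where
  met : MetAt G (pt (f x) x)
  smooth : ContDiffAt ℝ ∞ f x
  pos : ∀ ξ : Fin 3 → ℝ, ξ ≠ 0 → 0 < ∑ i, ∑ j, slice G f x i j * ξ i * ξ j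
  sp : ∀ ξ : Fin 3 → ℝ, ξ ≠ 0 → 0 < ∑ i, ∑ j, G (pt (f x) x) (Fin.succ i) (Fin.succ j) * ξ i * ξ j
  time : (G (pt (f x) x))⁻¹ 0 0 < 0

theorem slAt_of {U : Set E4} {G : E4 → Matrix (Fin 4) (Fin 4) ℝ} {f : E3 → ℝ} {Om : Set E3} (hG : SpaceTime U G)
    (hX : Exterior U G f Om) {x : E3} (hx : x ∉ Om) : SlAt G f x :=
  ⟨metAt_of hG (hX.mem x hx), hX.smooth x hx, hX.spacelike x hx, hG.spacelike _ (hX.mem x hx), hG.time _ (hX.mem x hx)⟩

/-- A point of the frontier of an open set is outside of it. -/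
theorem not_mem_of_frontier {U : Set E4} {G : E4 → Matrix (Fin 4) (Fin 4) ℝ} {f : E3 → ℝ} {Om : Set E3}
    (hX : Exterior U G f Om) {x : E3} (hx : x ∈ frontier Om) : x ∉ Om := fun h => by
  rw [hX.isOpen.frontier_eq] at hx
  exact hx.2 h

end H17W
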