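import Pool.Agent.Lib.H17W.F0

set_option autoImplicit false

/-!
# H17W, chunk FA (M): the determinant of the induced metric (pure matrices)

Auxiliary names start with `fa_`.
-/

namespace H17W

/-- With `τ = (1, - p)` and `e_i = (p_i, δ_i)`: `det G · G⁻¹(τ, τ) = det (G(e_i, e_j))`.
Proof. Let `E` be the `4 × 4` matrix with the rows `(1, 0, 0, 0)`, `e_1`, `e_2`, `e_3`; it is triangular, `det E = 1`, and `E τ = e_0`.
Let `G' = E G Eᵀ`; its lower right block is `G(e_i, e_j)` and `det G' = det G`. `adjugate G' 0 0` is the determinant of this block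
(`Matrix.adjugate_fin_succ_eq_det_submatrix`), and `G'⁻¹ 0 0 = (E⁻ᵀ G⁻¹ E⁻¹)_00 = G⁻¹(τ, τ)` since the first column of `E⁻¹` is `τ`.
(Or by brute force with `Matrix.det_succ_row_zero`, `Matrix.adjugate`; it is a polynomial identity.) -/
theorem det_slice {G : Matrix (Fin 4) (Fin 4) ℝ} (hd : G.det ≠ 0) (p : Fin 3 → ℝ) {τ : Fin 4 → ℝ}
    (hτ : τ = Fin.cons 1 fun i => -p i) {e : Fin 3 → Fin 4 → ℝ} (he : ∀ i, e i = Fin.cons (p i) fun j => if j = i then 1 else 0) :
    G.det * (∑ a, ∑ b, G⁻¹ a b * τ a * τ b) = (Matrix.of fun i j : Fin 3 => ∑ a, ∑ b, G a b * e i a * e j b).det := by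
  obtain ⟨E, hE⟩ : ∃ E : Matrix (Fin 4) (Fin 4) ℝ, E = Matrix.of (Fin.cons (Fin.cons 1 fun _ => 0) e) := ⟨_, rfl⟩
  have hE0 : ∀ b, E 0 b = (Fin.cons 1 fun _ => 0 : Fin 4 → ℝ) b := fun b => by rw [hE]; rfl
  have hEs : ∀ (i : Fin 3) b, E i.succ b = e i b := fun i b => by rw [hE]; rfl
  have hdet : E.det = 1 := by
    rw [Matrix.det_of_isLowerTriangular]
    · rw [Fin.prod_univ_succ]
      have h1 : ∀ i : Fin 3, E i.succ i.succ = 1 := fun i => by
        rw [hEs, he]
        simp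
      rw [hE0]
      simp [h1]
    · intro i j hij
      have hij' : i < j := hij
      refine Fin.cases ?_ (fun i' => ?_) i hij'
      · intro h0
        obtain ⟨j', rfl⟩ := Fin.eq_succ_of_ne_zero (Fin.pos_iff_ne_zero.1 h0)
        rw [hE0]
        simp
      · intro h0
        have hj : j ≠ 0 := by
          rintro rfl
          exact absurd h0 (Fin.not_lt_zero _)
        obtain ⟨j', rfl⟩ := Fin.eq_succ_of_ne_zero hj
        rw [hEs, he, Fin.cons_succ, if_neg]
        intro h1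
        rw [h1] at h0
        exact lt_irrefl _ h0
  have hτE : E.mulVec τ = Pi.single 0 1 := by
    funext a
    refine Fin.cases ?_ (fun i => ?_) a
    · simp [Matrix.mulVec, dotProduct, Fin.sum_univ_succ, hE0, hτ]
    · rw [Pi.single_eq_of_ne (Fin.succ_ne_zero i)]
      simp only [Matrix.mulVec, dotProduct]
      rw [Fin.sum_univ_succ]
      simp [hEs, he, hτ]
  obtain ⟨G', hG'⟩ : ∃ G' : Matrix (Fin 4) (Fin 4) ℝ, G' = E * G * E.transpose := ⟨_, rfl⟩
  have hdG' : G'.det = G.det := by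
    rw [hG', Matrix.det_mul, Matrix.det_mul, Matrix.det_transpose, hdet, one_mul, mul_one]
  have hEu : IsUnit E.det := by rw [hdet]; exact isUnit_one
  have hEtu : IsUnit E.transpose.det := by rw [Matrix.det_transpose]; exact hEu
  have hinv : G⁻¹ = E.transpose * (G'⁻¹ * E) := by
    rw [hG', Matrix.mul_inv_rev, Matrix.mul_inv_rev, Matrix.mul_assoc, Matrix.mul_assoc,
      Matrix.nonsing_inv_mul _ hEu, Matrix.mul_one, ← Matrix.mul_assoc, Matrix.mul_nonsing_inv _ hEtu,
      Matrix.one_mul]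
  have hS : (∑ a, ∑ b, G⁻¹ a b * τ a * τ b) = G'⁻¹ 0 0 := by
    have h1 : (∑ a, ∑ b, G⁻¹ a b * τ a * τ b) = τ ⬝ᵥ (G⁻¹.mulVec τ) := by
      simp only [dotProduct, Matrix.mulVec, Finset.mul_sum]
      exact Finset.sum_congr rfl fun a _ => Finset.sum_congr rfl fun b _ => by ring
    rw [h1, hinv, ← Matrix.mulVec_mulVec, ← Matrix.mulVec_mulVec, Matrix.dotProduct_mulVec,
      Matrix.vecMul_transpose, hτE, single_dotProduct, Matrix.mulVec_single_one]
    simp
  have hadj : G'.det * G'⁻¹ 0 0 = G'.adjugate 0 0 := by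
    rw [Matrix.inv_def, Matrix.smul_apply, smul_eq_mul, Ring.inverse_eq_inv', ← mul_assoc,
      mul_inv_cancel₀ (by rw [hdG']; exact hd), one_mul]
  rw [hS, ← hdG', hadj, Matrix.adjugate_fin_succ_eq_det_submatrix]
  have h2 : G'.submatrix (0 : Fin 4).succAbove (0 : Fin 4).succAbove =
      Matrix.of fun i j : Fin 3 => ∑ a, ∑ b, G a b * e i a * e j b := by
    ext i j
    rw [Matrix.submatrix_apply, Fin.succAbove_zero, Matrix.of_apply, hG', Matrix.mul_apply]
    simp only [Matrix.mul_apply, Matrix.transpose_apply, hEs, Finset.sum_mul]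
    rw [Finset.sum_comm]
    exact Finset.sum_congr rfl fun a _ => Finset.sum_congr rfl fun b _ => by ring
  rw [h2]
  simp

end H17W
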