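import Pool.Agent.Lib.H17W.FA
import Pool.Agent.Lib.H17T.T4
import Pool.Agent.Lib.H17T.T3

set_option autoImplicit false

/-!
# H17W, chunk FB (M): the unit normal of the hypersurface

Auxiliary names start with `fb_`.
-/

open MeasureTheory Filter Topology Set
open scoped ContDiff

namespace H17W

open H17T (E4 pt pos tang conorm slice second)
open Pool.Agent.Lib.PenroseSph (E3 Tens S2 sm pd)

variable {G : E4 → Matrix (Fin 4) (Fin 4) ℝ} {f : E3 → ℝ} {x : E3}

theorem fb_symm (h : SlAt G f x) (a b : Fin 4) : G (pt (f x) x) a b = G (pt (f x) x) b a :=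
  h.met.symm.self_of_nhds a b

theorem fb_slice_symm (h : SlAt G f x) (i j : Fin 3) : slice G f x i j = slice G f x j i := by
  change ∑ a, ∑ b, G (pt (f x) x) a b * tang f x i a * tang f x j b =
    ∑ a, ∑ b, G (pt (f x) x) a b * tang f x j a * tang f x i b
  rw [Finset.sum_comm]
  refine Finset.sum_congr rfl fun a _ => Finset.sum_congr rfl fun b _ => ?_
  rw [fb_symm h b a]
  ring

/-- A positive definite symmetric matrix has positive determinant (`Matrix.PosDef.det_pos`; `H17T.t3_pd`). -/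
theorem slice_det (h : SlAt G f x) : 0 < (slice G f x).det :=
  (H17T.t3_pd (fb_slice_symm h) h.pos).det_pos

/-- `det_slice` with `p = 0` (`τ = e_0`): `det G · (G⁻¹)_00 = det (G_ij) > 0`, so `det G < 0`; then `det_slice` with `p_i = ∂_i f`. -/
theorem conorm_time (h : SlAt G f x) :
    0 < -∑ a, ∑ b, (G (pt (f x) x))⁻¹ a b * conorm f x a * conorm f x b := by
  have hd : (G (pt (f x) x)).det ≠ 0 := h.met.nondeg
  have h1 := det_slice hd (fun _ => 0) (τ := Fin.cons 1 fun _ => -0)
    rfl (e := fun i => Fin.cons 0 fun j => if j = i then 1 else 0) (fun i => rfl)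
  have h2 : ∑ a, ∑ b, (G (pt (f x) x))⁻¹ a b * (Fin.cons 1 fun _ => -0 : Fin 4 → ℝ) a *
      (Fin.cons 1 fun _ => -0 : Fin 4 → ℝ) b = (G (pt (f x) x))⁻¹ 0 0 := by
    simp [Fin.sum_univ_succ]
  rw [h2] at h1
  have h3 : (Matrix.of fun i j : Fin 3 => ∑ a, ∑ b, G (pt (f x) x) a b *
      (Fin.cons 0 fun j => if j = i then 1 else 0 : Fin 4 → ℝ) a *
      (Fin.cons 0 fun j' => if j' = j then 1 else 0 : Fin 4 → ℝ) b) =
      Matrix.of fun i j : Fin 3 => G (pt (f x) x) i.succ j.succ := by
    ext i j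
    simp only [Matrix.of_apply]
    rw [Fin.sum_univ_succ]
    simp only [Fin.cons_zero, mul_zero, zero_mul, Finset.sum_const_zero, zero_add, Fin.cons_succ]
    have h4 : ∀ a : Fin 3, ∑ b, G (pt (f x) x) a.succ b * (if a = i then (1 : ℝ) else 0) *
        (Fin.cons 0 fun j' => if j' = j then 1 else 0 : Fin 4 → ℝ) b =
        if a = i then G (pt (f x) x) a.succ j.succ else 0 := by
      intro a
      rw [Fin.sum_univ_succ]
      simp
    simp only [h4]
    simp
  have h5 : 0 < (Matrix.of fun i j : Fin 3 => G (pt (f x) x) i.succ j.succ).det := by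
    refine (H17T.t3_pd (fun i j => ?_) ?_).det_pos
    · exact fb_symm h _ _
    · exact h.sp
  have h6 : (G (pt (f x) x)).det * (G (pt (f x) x))⁻¹ 0 0 =
      (Matrix.of fun i j : Fin 3 => G (pt (f x) x) i.succ j.succ).det := by
    rw [h1]
    exact congrArg Matrix.det h3
  have h7 : (G (pt (f x) x)).det < 0 := by
    by_contra hc
    have h8 : (G (pt (f x) x)).det * (G (pt (f x) x))⁻¹ 0 0 ≤ 0 :=
      mul_nonpos_of_nonneg_of_nonpos (not_lt.1 hc) h.time.le
    rw [h6] at h8
    exact absurd h5 (not_lt.2 h8)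
  have h9 := det_slice hd (fun i => pd i f x) (τ := conorm f x) rfl (e := tang f x) (fun i => rfl)
  have h10 : (Matrix.of fun i j : Fin 3 => ∑ a, ∑ b, G (pt (f x) x) a b * tang f x i a * tang f x j b).det
      = (slice G f x).det := rfl
  rw [h10] at h9
  have h11 := slice_det h
  rw [← h9] at h11
  by_contra hc
  have h12 : 0 ≤ ∑ a, ∑ b, (G (pt (f x) x))⁻¹ a b * conorm f x a * conorm f x b := by
    linarith
  exact absurd h11 (not_lt.2 (mul_nonpos_of_nonpos_of_nonneg h7.le h12))

theorem SS_pos (h : SlAt G f x) : 0 < SS G f x := Real.sqrt_pos.2 (conorm_time h)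

theorem fb_SS_sq (h : SlAt G f x) :
    SS G f x ^ 2 = -∑ a, ∑ b, (G (pt (f x) x))⁻¹ a b * conorm f x a * conorm f x b :=
  Real.sq_sqrt (conorm_time h).le

theorem fb_mul_inv (h : SlAt G f x) (a b : Fin 4) :
    ∑ c, G (pt (f x) x) a c * (G (pt (f x) x))⁻¹ c b = if a = b then 1 else 0 := by
  have h1 : G (pt (f x) x) * (G (pt (f x) x))⁻¹ = 1 :=
    Matrix.mul_nonsing_inv _ (isUnit_iff_ne_zero.2 h.met.nondeg)
  rw [← Matrix.mul_apply, h1, Matrix.one_apply]

theorem fb_inv_mul (h : SlAt G f x) (a b : Fin 4) :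
    ∑ c, (G (pt (f x) x))⁻¹ a c * G (pt (f x) x) c b = if a = b then 1 else 0 := by
  have h1 : (G (pt (f x) x))⁻¹ * G (pt (f x) x) = 1 :=
    Matrix.nonsing_inv_mul _ (isUnit_iff_ne_zero.2 h.met.nondeg)
  rw [← Matrix.mul_apply, h1, Matrix.one_apply]

/-- `G (G⁻¹ τ) = τ` against `b`. -/
theorem fb_flat (h : SlAt G f x) (τ b : Fin 4 → ℝ) :
    ip G (pt (f x) x) (fun c => ∑ d, (G (pt (f x) x))⁻¹ c d * τ d) b = ∑ a, τ a * b a := by
  unfold ip
  have e : ∀ j, ∑ i, G (pt (f x) x) i j * (∑ d, (G (pt (f x) x))⁻¹ i d * τ d) * b j = τ j * b j := by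
    intro j
    have e1 : ∀ i, G (pt (f x) x) i j * (∑ d, (G (pt (f x) x))⁻¹ i d * τ d) * b j =
        ∑ d, (G (pt (f x) x) j i * (G (pt (f x) x))⁻¹ i d) * (τ d * b j) := by
      intro i
      rw [Finset.mul_sum, Finset.sum_mul]
      refine Finset.sum_congr rfl fun d _ => ?_
      rw [fb_symm h i j]
      ring
    simp only [e1]
    rw [Finset.sum_comm]
    simp only [← Finset.sum_mul, fb_mul_inv h]
    simp
  rw [Finset.sum_comm]
  exact Finset.sum_congr rfl fun j _ => e j

/-- `ip G p (nor) b = - τ(b) / S`, `τ = conorm f x`. -/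
theorem ip_nor (h : SlAt G f x) (b : Fin 4 → ℝ) :
    ip G (pt (f x) x) (nor G f x) b = -(∑ a, conorm f x a * b a) / SS G f x := by
  have e : nor G f x = (-(SS G f x)⁻¹) • (fun c => ∑ d, (G (pt (f x) x))⁻¹ c d * conorm f x d) := by
    funext c
    rw [Pi.smul_apply, smul_eq_mul]
    unfold nor
    rw [div_eq_mul_inv]
    ring
  rw [e, ip_smul_left, fb_flat h, div_eq_mul_inv]
  ring

theorem fb_tau_tang (i : Fin 3) : ∑ a, conorm f x a * tang f x i a = 0 := by
  have h1 : dotProduct (tang f x i) (conorm f x) = 0 := H17T.t4a_e_tau (p := fun i => pd i f x) i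
  calc ∑ a, conorm f x a * tang f x i a = ∑ a, tang f x i a * conorm f x a :=
        Finset.sum_congr rfl fun a _ => mul_comm _ _
    _ = 0 := h1

/-- `τ(tang_i) = 0`. -/
theorem nor_tang (h : SlAt G f x) (i : Fin 3) : ip G (pt (f x) x) (nor G f x) (tang f x i) = 0 := by
  rw [ip_nor h, fb_tau_tang, neg_zero, zero_div]

theorem nor_nor (h : SlAt G f x) : ip G (pt (f x) x) (nor G f x) (nor G f x) = -1 := by
  rw [ip_nor h]
  have hS := SS_pos h
  have h2 := fb_SS_sq h
  have e : ∑ a, conorm f x a * nor G f x a = SS G f x := by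
    have e1 : ∀ a, conorm f x a * nor G f x a =
        -(∑ b, (G (pt (f x) x))⁻¹ a b * conorm f x a * conorm f x b) / SS G f x := by
      intro a
      unfold nor
      have e2 : ∑ b, (G (pt (f x) x))⁻¹ a b * conorm f x a * conorm f x b =
          conorm f x a * ∑ b, (G (pt (f x) x))⁻¹ a b * conorm f x b := by
        rw [Finset.mul_sum]
        exact Finset.sum_congr rfl fun b _ => by ring
      rw [e2, div_eq_mul_inv, div_eq_mul_inv]
      ring
    simp only [e1]
    rw [← Finset.sum_div, Finset.sum_neg_distrib, ← h2]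
    field_simp
  rw [e, neg_div, div_self hS.ne']

theorem fb_norS (h : SlAt G f x) (c : Fin 4) :
    ∑ d, (G (pt (f x) x))⁻¹ c d * conorm f x d = -(SS G f x * nor G f x c) := by
  have hS := SS_pos h
  unfold nor
  field_simp

/-- `H17T.inv_decomp` (with `p_i = ∂_i f`, `e_i = tang f x i`, `τ = conorm f x`) applied to the vector `G a`:
`a^c = Σ_b (G⁻¹)_cb (G a)_b`, `Σ_b (G⁻¹ τ)_b (G a)_b = τ(a)`, `(G⁻¹ τ)^c = - S nor^c`, `G⁻¹(τ, τ) = - S²`. -/
theorem vec_slice (h : SlAt G f x) (a : Fin 4 → ℝ) (c : Fin 4) :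
    a c = -(ip G (pt (f x) x) a (nor G f x)) * nor G f x c +
      ∑ l, ∑ m, (slice G f x)⁻¹ l m * ip G (pt (f x) x) a (tang f x m) * tang f x l c := by
  have hS := SS_pos h
  have hT : ∑ a, ∑ b, (G (pt (f x) x))⁻¹ a b * conorm f x a * conorm f x b ≠ 0 := by
    have h1 := conorm_time h
    intro h2
    rw [h2] at h1
    simp at h1
  have hdec := H17T.inv_decomp (fb_symm h) h.met.nondeg (p := fun i => pd i f x) (e := tang f x)
    (fun i => rfl) (τ := conorm f x) rfl (g := slice G f x) (fun i j => rfl) (slice_det h).ne' hT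
  have h1 : a c = ∑ b, (G (pt (f x) x))⁻¹ c b * (∑ d, G (pt (f x) x) b d * a d) := by
    have e1 : ∀ b, (G (pt (f x) x))⁻¹ c b * (∑ d, G (pt (f x) x) b d * a d) =
        ∑ d, (G (pt (f x) x))⁻¹ c b * G (pt (f x) x) b d * a d := by
      intro b
      rw [Finset.mul_sum]
      exact Finset.sum_congr rfl fun d _ => by ring
    simp only [e1]
    rw [Finset.sum_comm]
    simp only [← Finset.sum_mul, fb_inv_mul h]
    simp
  have h2 : ∀ w : Fin 4 → ℝ, ∑ b, w b * (∑ d, G (pt (f x) x) b d * a d) = ip G (pt (f x) x) w a := by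
    intro w
    unfold ip
    refine Finset.sum_congr rfl fun b _ => ?_
    rw [Finset.mul_sum]
    exact Finset.sum_congr rfl fun d _ => by ring
  have h3 : ip G (pt (f x) x) (nor G f x) a = ip G (pt (f x) x) a (nor G f x) := ip_symm h.met _ _
  rw [h1]
  have h4 : ∀ b, (G (pt (f x) x))⁻¹ c b * (∑ d, G (pt (f x) x) b d * a d) =
      (∑ l, ∑ m, (slice G f x)⁻¹ l m * tang f x l c * (tang f x m b * (∑ d, G (pt (f x) x) b d * a d))) -
        nor G f x c * (nor G f x b * (∑ d, G (pt (f x) x) b d * a d)) := by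
    intro b
    rw [hdec c b, fb_norS h, fb_norS h]
    have h5 := fb_SS_sq h
    have h6 : ∑ a, ∑ b, (G (pt (f x) x))⁻¹ a b * conorm f x a * conorm f x b = -SS G f x ^ 2 := by
      rw [h5, neg_neg]
    rw [h6]
    have h7 : -(SS G f x * nor G f x c) * -(SS G f x * nor G f x b) / -SS G f x ^ 2 =
        -(nor G f x c * nor G f x b) := by
      field_simp
    rw [h7, add_mul, Finset.sum_mul, sub_eq_add_neg]
    congr 1
    · refine Finset.sum_congr rfl fun l _ => ?_
      rw [Finset.sum_mul]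
      exact Finset.sum_congr rfl fun m _ => by ring
    · ring
  simp only [h4]
  rw [Finset.sum_sub_distrib, ← Finset.mul_sum, h2, h3, sub_eq_add_neg, add_comm]
  congr 1
  · ring
  · rw [Finset.sum_comm]
    refine Finset.sum_congr rfl fun l _ => ?_
    rw [Finset.sum_comm]
    refine Finset.sum_congr rfl fun m _ => ?_
    rw [← Finset.mul_sum, h2, ip_symm h.met (tang f x m) a]
    ring

/-- `vec_slice` for `a`, and the scalar product with `b`. -/
theorem ip_slice (h : SlAt G f x) (a b : Fin 4 → ℝ) :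
    ip G (pt (f x) x) a b = -(ip G (pt (f x) x) a (nor G f x) * ip G (pt (f x) x) b (nor G f x)) +
      ∑ l, ∑ m, (slice G f x)⁻¹ l m * ip G (pt (f x) x) a (tang f x m) * ip G (pt (f x) x) b (tang f x l) := by
  have h2 : ∀ w : Fin 4 → ℝ, ip G (pt (f x) x) w b = ∑ c, w c * (∑ d, G (pt (f x) x) c d * b d) := by
    intro w
    unfold ip
    refine Finset.sum_congr rfl fun c _ => ?_
    rw [Finset.mul_sum]
    exact Finset.sum_congr rfl fun d _ => by ring
  rw [h2 a]
  have h3 : ∀ c, a c * (∑ d, G (pt (f x) x) c d * b d) =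
      -(ip G (pt (f x) x) a (nor G f x)) * (nor G f x c * (∑ d, G (pt (f x) x) c d * b d)) +
      ∑ l, ∑ m, (slice G f x)⁻¹ l m * ip G (pt (f x) x) a (tang f x m) *
        (tang f x l c * (∑ d, G (pt (f x) x) c d * b d)) := by
    intro c
    conv_lhs => rw [vec_slice h a c]
    rw [add_mul, Finset.sum_mul]
    congr 1
    · ring
    · refine Finset.sum_congr rfl fun l _ => ?_
      rw [Finset.sum_mul]
      exact Finset.sum_congr rfl fun m _ => by ring
  rw [Finset.sum_congr rfl fun c _ => h3 c, Finset.sum_add_distrib, ← Finset.mul_sum, ← h2, ip_symm h.met b]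
  congr 1
  · ring
  · rw [Finset.sum_comm]
    refine Finset.sum_congr rfl fun l _ => ?_
    rw [Finset.sum_comm]
    refine Finset.sum_congr rfl fun m _ => ?_
    rw [← Finset.mul_sum, ← h2, ip_symm h.met b]

/-- A nonzero vector with time component `0` is spacelike (`SlAt.sp`). -/
theorem sp_vec (h : SlAt G f x) {a : Fin 4 → ℝ} (h0 : a 0 = 0) (ha : a ≠ 0) : 0 < ip G (pt (f x) x) a a := by
  have h1 : (fun i : Fin 3 => a i.succ) ≠ 0 := by
    intro h2
    apply ha
    funext c
    refine Fin.cases h0 (fun i => ?_) c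
    exact congrFun h2 i
  have h2 := h.sp _ h1
  have h3 : ip G (pt (f x) x) a a = ∑ i : Fin 3, ∑ j : Fin 3, G (pt (f x) x) i.succ j.succ * a i.succ * a j.succ := by
    unfold ip
    rw [Fin.sum_univ_succ]
    simp only [h0, mul_zero, zero_mul, Finset.sum_const_zero, zero_add]
    refine Finset.sum_congr rfl fun i _ => ?_
    rw [Fin.sum_univ_succ]
    simp only [h0, mul_zero, zero_add]
  rw [h3]
  exact h2

theorem fb_nor_zero (G : E4 → Matrix (Fin 4) (Fin 4) ℝ) (f : E3 → ℝ) (x : E3) :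
    nor G f x 0 = -orient G f x / SS G f x := rfl

/-- If `nor^0 = 0` then `<nor, nor> ≥ 0`. -/
theorem orient_ne (h : SlAt G f x) : orient G f x ≠ 0 := by
  intro h0
  have h1 : nor G f x 0 = 0 := by
    rw [fb_nor_zero, h0, neg_zero, zero_div]
  have h2 := nor_nor h
  have h3 : nor G f x ≠ 0 := by
    intro h4
    rw [h4] at h2
    simp [ip] at h2
  have h4 := sp_vec h h1 h3
  rw [h2] at h4
  norm_num at h4

/-- `nor^0 = - orient / S`. -/
theorem nor_zero_pos (h : SlAt G f x) (ho : orient G f x < 0) : 0 < nor G f x 0 := by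
  rw [fb_nor_zero]
  exact div_pos (neg_pos.2 ho) (SS_pos h)

/-- A unit vector `a` orthogonal to the normal satisfies `|a^0| < nor^0`: `v = a^0 nor - nor^0 a` has `v^0 = 0`, it is not zero since
`<v, a> = - nor^0`, so `0 < <v, v> = (nor^0)² - (a^0)²`. -/
theorem unit_zero (h : SlAt G f x) (ho : orient G f x < 0) {a : Fin 4 → ℝ} (h1 : ip G (pt (f x) x) a a = 1)
    (h2 : ip G (pt (f x) x) a (nor G f x) = 0) : |a 0| < nor G f x 0 := by
  have hn := nor_zero_pos h ho
  have h3 : ip G (pt (f x) x) (nor G f x) a = 0 := by rw [ip_symm h.met, h2]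
  have hv0 : (a 0 • nor G f x + (-nor G f x 0) • a) 0 = 0 := by
    simp only [Pi.add_apply, Pi.smul_apply, smul_eq_mul]
    ring
  have hva : ip G (pt (f x) x) (a 0 • nor G f x + (-nor G f x 0) • a) a = -nor G f x 0 := by
    rw [ip_add_left, ip_smul_left, ip_smul_left, h1, h3]
    ring
  have hvv : ip G (pt (f x) x) (a 0 • nor G f x + (-nor G f x 0) • a) (a 0 • nor G f x + (-nor G f x 0) • a) =
      nor G f x 0 ^ 2 - a 0 ^ 2 := by
    rw [ip_add_right, ip_smul_right, ip_smul_right, hva, ip_add_left, ip_smul_left, ip_smul_left, h2, nor_nor h]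
    ring
  have hne : a 0 • nor G f x + (-nor G f x 0) • a ≠ 0 := by
    intro h4
    rw [h4] at hva
    simp only [ip, Pi.zero_apply, mul_zero, zero_mul, Finset.sum_const_zero] at hva
    linarith
  have h5 := sp_vec h hv0 hne
  rw [hvv] at h5
  exact abs_lt_of_sq_lt_sq (by linarith) hn.le

end H17W
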