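import Pool.Agent.Lib.H17W.FB
import Pool.Agent.Lib.H17T.T4B

set_option autoImplicit false

/-!
# H17W, chunk FD (M): the Gauss formula of the hypersurface

Auxiliary names start with `fd_`.
-/

open MeasureTheory Filter Topology Set
open scoped ContDiff

namespace H17W

open H17T (E4 pt pos tang conorm slice second)
open Pool.Agent.Lib.PenroseSph (E3 Tens S2 sm pd)

variable {G : E4 → Matrix (Fin 4) (Fin 4) ℝ} {f : E3 → ℝ} {x : E3}

/-- The symmetrized metric. -/
noncomputable def fd_S (G : E4 → Matrix (Fin 4) (Fin 4) ℝ) : E4 → Matrix (Fin 4) (Fin 4) ℝ :=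
  fun q => Matrix.of fun a b => (G q a b + G q b a) / 2

theorem fd_S_eq {q : E4} (h : ∀ a b, G q a b = G q b a) : fd_S G q = G q := by
  ext a b
  change (G q a b + G q b a) / 2 = G q a b
  rw [h b a]
  ring

theorem fd_ev (h : SlAt G f x) : ∀ᶠ q in 𝓝 (pt (f x) x), fd_S G q = G q :=
  h.met.symm.mono fun _ hq => fd_S_eq hq

theorem fd_cont (h : SlAt G f x) : ContinuousAt (fun y => pt (f y) y) x :=
  (H17T.t4b_io_diff (h.smooth.differentiableAt (by simp))).continuousAt

theorem fd_slice_ev (h : SlAt G f x) : ∀ᶠ y in 𝓝 x, slice (fd_S G) f y = slice G f y := by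
  refine ((fd_cont h).eventually (fd_ev h)).mono fun y hy => ?_
  unfold slice
  rw [hy]

theorem fd_chr3 (h : SlAt G f x) (k i j : Fin 3) :
    Pool.Agent.Lib.PenroseSph.chr (slice (fd_S G) f) k i j x = Pool.Agent.Lib.PenroseSph.chr (slice G f) k i j x := by
  have h1 : ∀ a b : Fin 3, (fun y => slice (fd_S G) f y a b) =ᶠ[𝓝 x] fun y => slice G f y a b := fun a b =>
    (fd_slice_ev h).mono fun y hy => congrFun (congrFun hy a) b
  have h2 : ∀ k a b : Fin 3, pd k (fun y => slice (fd_S G) f y a b) x = pd k (fun y => slice G f y a b) x := by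
    intro k a b
    unfold pd
    rw [(h1 a b).fderiv_eq]
  unfold Pool.Agent.Lib.PenroseSph.chr
  rw [(fd_slice_ev h).self_of_nhds]
  simp only [h2]

theorem fd_chr4 (h : SlAt G f x) (k i j : Fin 4) :
    H31R.chr (fd_S G) k i j (pt (f x) x) = H31R.chr G k i j (pt (f x) x) := by
  have h1 : ∀ a b : Fin 4, (fun y => fd_S G y a b) =ᶠ[𝓝 (pt (f x) x)] fun y => G y a b := fun a b =>
    (fd_ev h).mono fun y hy => congrFun (congrFun hy a) b
  have h2 : ∀ k a b : Fin 4, H31R.pd k (fun y => fd_S G y a b) (pt (f x) x) =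
      H31R.pd k (fun y => G y a b) (pt (f x) x) := by
    intro k a b
    exact H31R.N_pd_congr k (h1 a b)
  unfold H31R.chr
  rw [(fd_ev h).self_of_nhds]
  simp only [h2]

theorem fd_second (h : SlAt G f x) (i j : Fin 3) : second (fd_S G) f x i j = second G f x i j := by
  unfold second
  simp only [Matrix.of_apply, fd_chr4 h]
  rw [(fd_ev h).self_of_nhds]

theorem fd_pd_coord (c b : Fin 4) : H31R.pd b (fun p : E4 => p c) = fun _ => if b = c then (1 : ℝ) else 0 := by
  funext q
  unfold H31R.pd
  have h2 : HasFDerivAt (fun p : E4 => p c) (EuclideanSpace.proj c : E4 →L[ℝ] ℝ) q :=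
    (EuclideanSpace.proj c : E4 →L[ℝ] ℝ).hasFDerivAt
  rw [h2.fderiv]
  simp [eq_comm]

theorem fd_pd3 (f : E3 → ℝ) (x : E3) (j : Fin 3) (c : Fin 4) :
    pd j (fun y => pt (f y) y c) x = tang f x j c := by
  refine Fin.cases ?_ (fun k => ?_) c
  · have : (fun y => pt (f y) y 0) = f := by
      funext z
      exact H17T.pt_zero _ _
    rw [this]
    rfl
  · have : (fun y => pt (f y) y k.succ) = fun z : E3 => z k := by
      funext z
      exact H17T.pt_succ _ _ _
    rw [this, Pool.Agent.Lib.PenroseSph.pd_coord j k x]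
    simp [tang]

theorem fd_dl (c : Fin 4) : H17T.t4b_dl c = if c = 0 then 1 else 0 := by
  refine Fin.cases ?_ (fun k => ?_) c
  · simp [H17T.t4b_dl]
  · simp [H17T.t4b_dl, Fin.succ_ne_zero]

theorem fd_inv_symm (h : SlAt G f x) (a b : Fin 4) : (G (pt (f x) x))⁻¹ a b = (G (pt (f x) x))⁻¹ b a := by
  have h1 : (G (pt (f x) x)).transpose = G (pt (f x) x) := by
    ext i j
    exact fb_symm h j i
  have h2 : ((G (pt (f x) x))⁻¹).transpose = (G (pt (f x) x))⁻¹ := by
    rw [Matrix.transpose_nonsing_inv, h1]
  have h3 := congrFun (congrFun h2 b) a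
  exact h3

/-- Gauss formula. Proof: `H17T.gauss_hessian` for the coordinate function `ν p = p c` (its first derivatives are constant, the second
ones vanish; `fun y => pt (f y) y c` is `f` or a coordinate, its first derivatives are `tang f y l c`, its second derivatives are
`∂_i∂_j f` for `c = 0` and `0` otherwise). `gauss_hessian` needs a metric which is symmetric everywhere: apply it to
`G' q a b = (G q a b + G q b a) / 2`, which agrees with `G` near `pt (f x) x` (`MetAt.symm`), so `chr G' = chr G` there,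
`slice G' f = slice G f` near `x`, `second G' f x = second G f x` (`H31R.N_pd_congr`, `Filter.EventuallyEq`; continuity of
`y ↦ pt (f y) y` at `x`). `nor` is the vector on the right of `gauss_hessian`. -/
theorem gauss_vec (h : SlAt G f x) (i j : Fin 3) (c : Fin 4) :
    pd i (pd j f) x * (if c = 0 then 1 else 0) +
        ∑ a, ∑ b, H31R.chr G c a b (pt (f x) x) * tang f x i a * tang f x j b =
      (∑ l, Pool.Agent.Lib.PenroseSph.chr (slice G f) l i j x * tang f x l c) + second G f x i j * nor G f x c := by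
  have hP := (fd_ev h).self_of_nhds
  have hS := (fd_slice_ev h).self_of_nhds
  have key := H17T.gauss_hessian (G := fd_S G) (f := f) (ν := fun p => p c) (x := x)
    (fun p a b => by
      change (G p a b + G p b a) / 2 = (G p b a + G p a b) / 2
      rw [add_comm])
    (fun a b => by
      have h1 := h.met.smooth.self_of_nhds
      exact ((h1 a b).add (h1 b a)).div_const 2)
    (by rw [hP]; exact h.met.nondeg) h.smooth
    ((EuclideanSpace.proj c : E4 →L[ℝ] ℝ).contDiff.contDiffAt)
    (by rw [hS]; exact (slice_det h).ne') (by rw [hP]; exact conorm_time h) i j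
  rw [hP, fd_second h] at key
  simp only [fd_chr3 h, fd_chr4 h, fd_pd_coord, fd_pd3] at key
  have e1 : pd i (pd j fun y => pt (f y) y c) x = pd i (pd j f) x * (if c = 0 then 1 else 0) := by
    have e2 : (pd j fun y => pt (f y) y c) = fun y => tang f y j c := by
      funext y
      exact fd_pd3 f y j c
    rw [e2, H17T.t4b_tang_pd, fd_dl]
  rw [e1] at key
  have e4 : ∀ a b : Fin 4, H31R.pd a (fun _ : E4 => (if b = c then (1 : ℝ) else 0)) (pt (f x) x) = 0 := by
    intro a b
    exact H31R.N_pd_const a _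
  simp only [e4, zero_sub, mul_ite, mul_one, mul_zero, Finset.sum_ite_eq', Finset.mem_univ, if_true] at key
  have e5 : nor G f x c = -(∑ a, (G (pt (f x) x))⁻¹ a c * conorm f x a) /
      Real.sqrt (-∑ a, ∑ b, (G (pt (f x) x))⁻¹ a b * conorm f x a * conorm f x b) := by
    unfold nor SS
    congr 2
    exact Finset.sum_congr rfl fun a _ => by rw [fd_inv_symm h]
  rw [← e5] at key
  have e6 : ∑ a, ∑ b, -H31R.chr G c a b (pt (f x) x) * tang f x i a * tang f x j b =
      -∑ a, ∑ b, H31R.chr G c a b (pt (f x) x) * tang f x i a * tang f x j b := by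
    simp only [neg_mul, Finset.sum_neg_distrib]
  rw [e6] at key
  simp only [mul_ite, mul_one, mul_zero] at *
  linarith
end H17W
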