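import Pool.Agent.Lib.H17W.FE1

set_option autoImplicit false

/-!
# H17W, chunk FE (M): the time orientation on the surface

Auxiliary names start with `fe_`.
-/

open MeasureTheory Filter Topology Set
open scoped ContDiff

namespace H17W

open H17T (E4 pt pos tang conorm slice second)
open Pool.Agent.Lib.PenroseSph (E3 Tens S2 sm pd)

/-- The sign of a nonvanishing continuous function is constant on connected sets (`IsPreconnected.intermediate_value₂` or
`IsPreconnected.image`). -/
theorem fe_sign {U : Set E4} {G : E4 → Matrix (Fin 4) (Fin 4) ℝ} {f : E3 → ℝ} {Om : Set E3} (hG : SpaceTime U G)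
    (hX : Exterior U G f Om) {A : Set E3} (hA : IsPreconnected A) (hAO : ∀ x ∈ A, x ∉ Om) {x y : E3} (hx : x ∈ A) (hy : y ∈ A)
    (h : orient G f y < 0) : orient G f x < 0 := by
  have hc : ContinuousOn (orient G f) A := fun z hz =>
    (orient_cont (slAt_of hG hX (hAO z hz))).continuousWithinAt
  by_contra hn
  have h1 : orient G f x ≠ 0 := orient_ne (slAt_of hG hX (hAO x hx))
  have h2 : (0 : ℝ) ∈ Icc (orient G f y) (orient G f x) := ⟨h.le, not_lt.1 hn⟩
  obtain ⟨z, hz, hz0⟩ := hA.intermediate_value hy hx hc h2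
  exact orient_ne (slAt_of hG hX (hAO z hz)) hz0

theorem fe_rank : 1 < Module.rank ℝ E3 := by
  rw [← Module.finrank_eq_rank, finrank_euclideanSpace_fin]
  norm_num

/-- An open set is not contained in a point. -/
theorem fe_open {Om : Set E3} (hO : IsOpen Om) {z : E3} (hz : z ∈ Om) : ∃ y ∈ Om, ‖z‖ < ‖y‖ := by
  obtain ⟨ε, hε, hb⟩ := Metric.isOpen_iff.1 hO z hz
  by_cases h0 : z = 0
  · subst h0
    obtain ⟨v, hv⟩ := exists_ne (0 : E3)
    have hvn : 0 < ‖v‖ := norm_pos_iff.2 hv
    refine ⟨(ε / 2 / ‖v‖) • v, hb ?_, ?_⟩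
    · rw [Metric.mem_ball, dist_zero_right, norm_smul, Real.norm_of_nonneg (by positivity),
        div_mul_cancel₀ _ hvn.ne']
      linarith
    · rw [norm_zero, norm_smul, Real.norm_of_nonneg (by positivity), div_mul_cancel₀ _ hvn.ne']
      linarith
  · have hzn : 0 < ‖z‖ := norm_pos_iff.2 h0
    refine ⟨z + (ε / 2 / ‖z‖) • z, hb ?_, ?_⟩
    · rw [Metric.mem_ball, dist_eq_norm, add_sub_cancel_left, norm_smul, Real.norm_of_nonneg (by positivity),
        div_mul_cancel₀ _ hzn.ne']
      linarith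
    · have e : z + (ε / 2 / ‖z‖) • z = (1 + ε / 2 / ‖z‖) • z := by
        rw [add_smul, one_smul]
      rw [e, norm_smul, Real.norm_of_nonneg (by positivity)]
      have h1 : 0 < ε / 2 / ‖z‖ := by positivity
      nlinarith

/-- Proof. `Σ = frontier Om` is the image of the unit sphere under the continuous map `n ↦ pos (Ψ (0, n))` (`hO.bij`; continuity at the
points of the sphere from `hN.smooth`, `H17T.pos_smooth`), so it is compact, nonempty and connected (`isPreconnected_sphere`, the
dimension is `3`), and disjoint from `Om` (open). Let `x₁ ∈ Σ` have the largest norm; then `Om` is contained in the ball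
`‖x‖ ≤ ‖x₁‖`: the closure of `Om` is compact (`hX.bounded`), a point `z` of it with the largest norm is not in `Om` (if `Om` contained
`z` then it would contain `(1 + δ) z` for small `δ > 0`, or small nonzero vectors if `z = 0`), so `z ∈ Σ`. So the ray
`{t x₁ | t ≥ 1}` is outside of `Om` for `t > 1` (if `x₁ ≠ 0`), and `x₁ ∉ Om`. It is connected and contains points with norm `≥ R`, where
`orient < 0` (`orient_far`). By `fe_sign` (twice) `orient < 0` at `x₁` and on `Σ`. The case `x₁ = 0`: then `Om ⊆ {0}` is open, hence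
empty, and `Σ` is empty, a contradiction. (`orient_ne` and `slAt_of`, `orient_cont` at the points outside of `Om` are used in
`fe_sign`.) -/
theorem orient_surface {U : Set E4} {G : E4 → Matrix (Fin 4) (Fin 4) ℝ} {f : E3 → ℝ} {Om : Set E3} {h : Tens} {ε m β : ℝ}
    {Ψ : ℝ × E3 → E4} (hG : SpaceTime U G) (hX : Exterior U G f Om) (hN : NullCone U G Ψ) (hO : Outer G f h Om ε Ψ)
    (hA : AsympSchw G f m β) {x : E3} (hx : x ∈ frontier Om) : orient G f x < 0 := by
  obtain ⟨W, hWo, hW, hWs⟩ := hN.smooth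
  have hc : ContinuousOn (fun n : E3 => pos (Ψ (0, n))) (Metric.sphere (0 : E3) 1) := by
    intro n hn
    have h1 : ContinuousAt Ψ (0, n) :=
      (hWs.contDiffAt (hWo.mem_nhds (hW 0 le_rfl ⟨n, hn⟩))).continuousAt
    have h2 : ContinuousAt (fun n : E3 => ((0, n) : ℝ × E3)) n := by fun_prop
    have h3 : ContinuousAt (fun n : E3 => Ψ (0, n)) n :=
      ContinuousAt.comp (g := Ψ) (f := fun n : E3 => ((0, n) : ℝ × E3)) h1 h2
    exact (ContinuousAt.comp (g := pos) H17T.pos_smooth.continuous.continuousAt h3).continuousWithinAt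
  have himg : (fun n : E3 => pos (Ψ (0, n))) '' Metric.sphere (0 : E3) 1 = frontier Om := hO.bij.image_eq
  have hcomp : IsCompact (frontier Om) := by
    rw [← himg]
    exact (isCompact_sphere (0 : E3) 1).image_of_continuousOn hc
  have hconn : IsPreconnected (frontier Om) := by
    rw [← himg]
    exact (isPreconnected_sphere fe_rank 0 1).image _ hc
  have hdis : ∀ y ∈ frontier Om, y ∉ Om := fun y hy => not_mem_of_frontier hX hy
  obtain ⟨x₁, hx₁, hmax⟩ := hcomp.exists_isMaxOn ⟨x, hx⟩ continuous_norm.continuousOn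
  have hne : Om.Nonempty := by
    by_contra h0
    rw [Set.not_nonempty_iff_eq_empty] at h0
    rw [h0, frontier_empty] at hx
    exact hx
  have hball : ∀ y ∈ Om, ‖y‖ ≤ ‖x₁‖ := by
    have hcl : IsCompact (closure Om) := hX.bounded.isCompact_closure
    obtain ⟨z, hz, hzmax⟩ := hcl.exists_isMaxOn hne.closure continuous_norm.continuousOn
    have hzO : z ∉ Om := by
      intro hzO
      obtain ⟨y, hy, hlt⟩ := fe_open hX.isOpen hzO
      exact absurd (hzmax (subset_closure hy)) (not_le.2 hlt)
    have hzF : z ∈ frontier Om := by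
      rw [hX.isOpen.frontier_eq]
      exact ⟨hz, hzO⟩
    intro y hy
    exact (hzmax (subset_closure hy)).trans (hmax hzF)
  have hx₁0 : x₁ ≠ 0 := by
    intro h0
    obtain ⟨z, hz⟩ := hne
    obtain ⟨y, hy, hlt⟩ := fe_open hX.isOpen hz
    have h1 := hball y hy
    rw [h0, norm_zero] at h1
    exact absurd (norm_nonneg z) (not_le.2 (lt_of_lt_of_le hlt h1))
  have hn1 : 0 < ‖x₁‖ := norm_pos_iff.2 hx₁0
  have hray : IsPreconnected ((fun t : ℝ => t • x₁) '' Ici (1 : ℝ)) :=
    isPreconnected_Ici.image _ (by fun_prop)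
  have hrO : ∀ y ∈ (fun t : ℝ => t • x₁) '' Ici (1 : ℝ), y ∉ Om := by
    rintro y ⟨t, ht, rfl⟩
    have ht1 : (1 : ℝ) ≤ t := ht
    rcases ht1.eq_or_lt with h1 | h1
    · rw [← h1]
      simp only [one_smul]
      exact hdis x₁ hx₁
    · intro hy
      have h2 := hball _ hy
      simp only at h2
      rw [norm_smul, Real.norm_of_nonneg (by linarith)] at h2
      nlinarith
  obtain ⟨R, hR⟩ := orient_far hA
  have hfar : orient G f ((max 1 (R / ‖x₁‖)) • x₁) < 0 := by
    apply hR
    rw [norm_smul, Real.norm_of_nonneg (le_trans zero_le_one (le_max_left _ _))]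
    calc R = R / ‖x₁‖ * ‖x₁‖ := by field_simp
      _ ≤ max 1 (R / ‖x₁‖) * ‖x₁‖ := mul_le_mul_of_nonneg_right (le_max_right _ _) hn1.le
  have h1 : orient G f x₁ < 0 := by
    refine fe_sign hG hX hray hrO (x := x₁) (y := (max 1 (R / ‖x₁‖)) • x₁) ?_ ?_ hfar
    · exact ⟨1, mem_Ici.2 le_rfl, by simp only [one_smul]⟩
    · exact ⟨max 1 (R / ‖x₁‖), mem_Ici.2 (le_max_left _ _), rfl⟩
  exact fe_sign hG hX hconn hdis hx hx₁ h1

end H17W
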