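import Pool.Agent.Lib.H17W.FB
import Pool.Agent.Lib.H17T.T0

set_option autoImplicit false

/-!
# H17W, chunk FE1 (M): the time orientation at infinity

Auxiliary names start with `fe1_`.
-/

open MeasureTheory Filter Topology Set
open scoped ContDiff

namespace H17W

open H17T (E4 pt pos tang conorm slice second)
open Pool.Agent.Lib.PenroseSph (E3 Tens S2 sm pd)

/-- The Minkowski metric. -/
noncomputable def fe1_eta : Matrix (Fin 4) (Fin 4) ℝ := Matrix.diagonal fun a => Fin.cases (-1) (fun _ => 1) a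

theorem fe1_eta_inv : fe1_eta⁻¹ = fe1_eta := by
  apply Matrix.inv_eq_left_inv
  unfold fe1_eta
  rw [Matrix.diagonal_mul_diagonal, ← Matrix.diagonal_one]
  congr 1
  funext a
  refine Fin.cases ?_ (fun i => ?_) a
  · simp
  · simp

theorem fe1_eta_det : fe1_eta.det ≠ 0 := by
  intro h
  have h1 : fe1_eta⁻¹ = 0 := Matrix.nonsing_inv_apply_not_isUnit _ (by rw [h]; exact not_isUnit_zero)
  rw [fe1_eta_inv] at h1
  have h2 := congrFun (congrFun h1 0) 0
  simp [fe1_eta] at h2

/-- The filter at infinity. -/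
noncomputable def fe1_l : Filter E3 := Filter.comap (fun x : E3 => ‖x‖) atTop

theorem fe1_norm : Tendsto (fun x : E3 => ‖x‖) fe1_l atTop := tendsto_comap

theorem fe1_schw (m : ℝ) (f : E3 → ℝ) (a b : Fin 4) :
    Tendsto (fun x : E3 => schw m (pt (f x) x) a b) fe1_l (𝓝 (fe1_eta a b)) := by
  have h0 : Tendsto (fun x : E3 => 2 * m / ‖x‖) fe1_l (𝓝 0) := fe1_norm.const_div_atTop _
  unfold schw fe1_eta
  by_cases hab : a = b
  · subst hab
    simp only [Matrix.diagonal_apply_eq, H17T.pos_pt]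
    refine Fin.cases ?_ (fun i => ?_) a
    · simp only [Fin.cases_zero]
      have h1 := (h0.const_sub 1).neg
      simpa using h1
    · simp only [Fin.cases_succ]
      have h1 := h0.const_add 1
      simpa using h1
  · simp only [Matrix.diagonal_apply_ne _ hab]
    exact tendsto_const_nhds

theorem fe1_G {G : E4 → Matrix (Fin 4) (Fin 4) ℝ} {f : E3 → ℝ} {m β : ℝ} (hA : AsympSchw G f m β) :
    Tendsto (fun x : E3 => G (pt (f x) x)) fe1_l (𝓝 fe1_eta) := by
  obtain ⟨C, R, hR, hC⟩ := hA.slice_decay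
  refine tendsto_pi_nhds.2 fun a => tendsto_pi_nhds.2 fun b => ?_
  have h1 : Tendsto (fun x : E3 => C / ‖x‖ ^ 2) fe1_l (𝓝 0) :=
    ((tendsto_pow_atTop two_ne_zero).comp fe1_norm).const_div_atTop C
  have h2 : Tendsto (fun x : E3 => G (pt (f x) x) a b - schw m (pt (f x) x) a b) fe1_l (𝓝 0) := by
    refine squeeze_zero_norm' ?_ h1
    filter_upwards [fe1_norm.eventually (eventually_ge_atTop R)] with x hx
    have h3 := (hC x hx a b).1
    rw [H17T.pos_pt] at h3
    rw [Real.norm_eq_abs]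
    exact h3
  have h4 := h2.add (fe1_schw m f a b)
  simpa using h4

theorem fe1_inv {G : E4 → Matrix (Fin 4) (Fin 4) ℝ} {f : E3 → ℝ} {m β : ℝ} (hA : AsympSchw G f m β)
    (a b : Fin 4) : Tendsto (fun x : E3 => (G (pt (f x) x))⁻¹ a b) fe1_l (𝓝 (fe1_eta a b)) := by
  have hG := fe1_G hA
  have e : ∀ M : Matrix (Fin 4) (Fin 4) ℝ, M⁻¹ a b = M.det⁻¹ * M.adjugate a b := by
    intro M
    rw [Matrix.inv_def, Ring.inverse_eq_inv', Matrix.smul_apply, smul_eq_mul]
  have hdet : Continuous fun M : Matrix (Fin 4) (Fin 4) ℝ => M.det := Continuous.matrix_det continuous_id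
  have hadj : Continuous fun M : Matrix (Fin 4) (Fin 4) ℝ => M.adjugate a b :=
    Continuous.matrix_elem (Continuous.matrix_adjugate continuous_id) a b
  have h1 : Tendsto (fun x : E3 => (G (pt (f x) x)).det) fe1_l (𝓝 fe1_eta.det) :=
    (hdet.tendsto fe1_eta).comp hG
  have h2 : Tendsto (fun x : E3 => (G (pt (f x) x)).adjugate a b) fe1_l (𝓝 (fe1_eta.adjugate a b)) :=
    (hadj.tendsto fe1_eta).comp hG
  have h3 := (h1.inv₀ fe1_eta_det).mul h2
  rw [← e, fe1_eta_inv] at h3
  simp only [e]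
  exact h3

/-- As `‖x‖ → ∞` along `M` the matrix `G (pt (f x) x)` tends to `η = diag (-1, 1, 1, 1)` (`NearSchw`, `schw`, `H17T.pos_pt`), its inverse
tends to `η` (the entries of the inverse are continuous at a matrix with determinant `≠ 0`: adjugate and determinant), and
`conorm f x` tends to `(1, -β, 0, 0)` (`f_decay`), so `orient` tends to `-1`. Use the filter `comap norm atTop` on `E3`, or explicit
bounds. -/
theorem orient_far {G : E4 → Matrix (Fin 4) (Fin 4) ℝ} {f : E3 → ℝ} {m β : ℝ} (hA : AsympSchw G f m β) :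
    ∃ R : ℝ, ∀ x : E3, R ≤ ‖x‖ → orient G f x < 0 := by
  obtain ⟨C, R, hR, hC⟩ := hA.f_decay
  have h1 : ∀ i : Fin 3, Tendsto (fun x : E3 => pd i f x) fe1_l (𝓝 (if i = 0 then β else 0)) := by
    intro i
    have h2 : Tendsto (fun x : E3 => C / ‖x‖) fe1_l (𝓝 0) := fe1_norm.const_div_atTop C
    have h3 : Tendsto (fun x : E3 => pd i f x - (if i = 0 then β else 0)) fe1_l (𝓝 0) := by
      refine squeeze_zero_norm' ?_ h2
      filter_upwards [fe1_norm.eventually (eventually_ge_atTop R)] with x hx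
      rw [Real.norm_eq_abs]
      exact (hC x hx).1 i
    have h4 := h3.add_const (if i = 0 then β else 0)
    simpa using h4
  have h5 : Tendsto (orient G f) fe1_l (𝓝 (-1)) := by
    have e : orient G f = fun x => (G (pt (f x) x))⁻¹ 0 0 * 1 +
        ∑ i : Fin 3, (G (pt (f x) x))⁻¹ 0 i.succ * -pd i f x := by
      funext x
      unfold orient conorm
      rw [Fin.sum_univ_succ]
      simp only [Fin.cons_zero, Fin.cons_succ]
    rw [e]
    have h6 : Tendsto (fun x : E3 => (G (pt (f x) x))⁻¹ 0 0 * 1 +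
        ∑ i : Fin 3, (G (pt (f x) x))⁻¹ 0 i.succ * -pd i f x) fe1_l
        (𝓝 (fe1_eta 0 0 * 1 + ∑ i : Fin 3, fe1_eta 0 i.succ * -(if i = 0 then β else 0))) :=
      ((fe1_inv hA 0 0).mul_const 1).add
        (tendsto_finsetSum _ fun i _ => (fe1_inv hA 0 i.succ).mul (h1 i).neg)
    have h7 : fe1_eta 0 0 * 1 + ∑ i : Fin 3, fe1_eta 0 i.succ * -(if i = 0 then β else 0) = -1 := by
      have h8 : ∀ i : Fin 3, fe1_eta 0 i.succ = 0 := by
        intro i
        unfold fe1_eta
        exact Matrix.diagonal_apply_ne _ (Fin.succ_ne_zero i).symm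
      simp only [h8, zero_mul, Finset.sum_const_zero, add_zero, mul_one]
      simp [fe1_eta]
    rw [h7] at h6
    exact h6
  have h9 : ∀ᶠ x in fe1_l, orient G f x < 0 := h5.eventually (gt_mem_nhds (by norm_num))
  unfold fe1_l at h9
  rw [Filter.eventually_comap] at h9
  obtain ⟨R', hR'⟩ := Filter.eventually_atTop.1 h9
  exact ⟨R', fun x hx => hR' ‖x‖ hx x rfl⟩

/-- `f`, its derivative, and the entries of the inverse of `G` are continuous. -/
theorem orient_cont {G : E4 → Matrix (Fin 4) (Fin 4) ℝ} {f : E3 → ℝ} {x : E3} (h : SlAt G f x) :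
    ContinuousAt (orient G f) x := by
  have h1 : ContinuousAt (fun y : E3 => pt (f y) y) x := by
    have h2 : ContinuousAt (fun y : E3 => (f y, y)) x := h.smooth.continuousAt.prodMk continuousAt_id
    exact ContinuousAt.comp (g := fun q : ℝ × E3 => pt q.1 q.2) H17T.pt_smooth.continuous.continuousAt h2
  have h3 : ∀ b, ContinuousAt (fun y : E3 => (G (pt (f y) y))⁻¹ 0 b) x := fun b =>
    ContinuousAt.comp (g := fun q : E4 => (G q)⁻¹ 0 b) (a1_inv_at h.met 0 b).continuousAt h1
  have h4 : ∀ i : Fin 3, ContinuousAt (pd i f) x := by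
    intro i
    have h5 : ContDiffAt ℝ 0 (fderiv ℝ f) x := h.smooth.fderiv_right (by simp)
    exact h5.continuousAt.clm_apply continuousAt_const
  have h6 : ∀ b, ContinuousAt (fun y : E3 => conorm f y b) x := by
    intro b
    refine Fin.cases ?_ (fun i => ?_) b
    · exact continuousAt_const
    · exact (h4 i).neg
  unfold orient
  exact tendsto_finsetSum _ fun b _ => (h3 b).mul (h6 b)

end H17W
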