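import Pool.Agent.Lib.H17W.F0
import Pool.Agent.Lib.H17T.T0
import Pool.Agent.Lib.H31R.N1

set_option autoImplicit false

/-!
# H17W, chunk FF (M): the initial surface as a surface in the hypersurface

Auxiliary names start with `ff_`.
-/

open MeasureTheory Filter Topology Set
open scoped ContDiff

namespace H17W

open H17T (E4 pt pos tang conorm slice second)
open Pool.Agent.Lib.PenroseSph (E3 Tens S2 sm pd DefFun)

variable {U : Set E4} {G : E4 → Matrix (Fin 4) (Fin 4) ℝ} {f : E3 → ℝ} {Om : Set E3} {h : Tens} {ε : ℝ} {Ψ : ℝ × E3 → E4}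
  {w : E3 → ℝ} {y : E3}

theorem ff_norm {y : E3} (hy : y ≠ 0) : ‖y‖⁻¹ • y ∈ Metric.sphere (0 : E3) 1 := by
  rw [mem_sphere_zero_iff_norm, norm_smul, norm_inv, norm_norm, inv_mul_cancel₀ (norm_ne_zero_iff.2 hy)]

theorem ff_lin (g : E3 → ℝ) (x v : E3) : fderiv ℝ g x v = ∑ k, v k * pd k g x := by
  have h1 : v = ∑ k, v k • (EuclideanSpace.single k (1 : ℝ) : E3) := by
    ext j
    simp [Fin.sum_univ_three]
    fin_cases j <;> simp
  conv_lhs => rw [h1]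
  rw [map_sum]
  refine Finset.sum_congr rfl fun k _ => ?_
  rw [map_smul, smul_eq_mul]
  rfl

theorem ff_coord {u : E3 → E3} {x : E3} (hu : DifferentiableAt ℝ u x) (v : E3) (k : Fin 3) :
    (fderiv ℝ u x v) k = fderiv ℝ (fun z => u z k) x v := by
  have h1 : HasFDerivAt (fun z => (EuclideanSpace.proj k : E3 →L[ℝ] ℝ) (u z))
      ((EuclideanSpace.proj k : E3 →L[ℝ] ℝ).comp (fderiv ℝ u x)) x :=
    (EuclideanSpace.proj k : E3 →L[ℝ] ℝ).hasFDerivAt.comp x hu.hasFDerivAt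
  have h2 : fderiv ℝ (fun z => u z k) x = (EuclideanSpace.proj k : E3 →L[ℝ] ℝ).comp (fderiv ℝ u x) := h1.fderiv
  rw [h2]
  rfl

theorem ff_chain {u : E3 → E3} {g : E3 → ℝ} {x : E3} (hu : DifferentiableAt ℝ u x) (hg : DifferentiableAt ℝ g (u x)) (i : Fin 3) :
    pd i (fun z => g (u z)) x = ∑ k, pd i (fun z => u z k) x * pd k g (u x) := by
  have h1 : HasFDerivAt (fun z => g (u z)) ((fderiv ℝ g (u x)).comp (fderiv ℝ u x)) x :=
    hg.hasFDerivAt.comp x hu.hasFDerivAt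
  unfold pd
  rw [h1.fderiv]
  change fderiv ℝ g (u x) (fderiv ℝ u x (EuclideanSpace.single i 1)) = _
  rw [ff_lin]
  refine Finset.sum_congr rfl fun k _ => ?_
  rw [ff_coord hu]
  rfl

theorem ff_pd_diff {g : E3 → ℝ} {x : E3} (hg : ContDiffAt ℝ 2 g x) (k : Fin 3) : DifferentiableAt ℝ (pd k g) x := by
  have h1 : ContDiffAt ℝ 1 (fderiv ℝ g) x := hg.fderiv_right (by norm_num)
  exact (h1.clm_apply contDiffAt_const).differentiableAt (by norm_num)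

/-- `Ph_smooth` at `(0, y)`, composed with `y ↦ (0, y)`, and `H17T.pos_smooth`. -/
theorem uu_smooth (hN : NullCone U G Ψ) (hy : y ≠ 0) : ContDiffAt ℝ ∞ (uu Ψ) y := by
  obtain ⟨W₀, hW, hm, hΨ⟩ := hN.smooth
  have h1 : ContDiffAt ℝ ∞ (Ph Ψ) (0, y) := Ph_smooth hW hΨ (p := (0, y)) hy (hm 0 le_rfl ⟨‖y‖⁻¹ • y, ff_norm hy⟩)
  have h2 : ContDiffAt ℝ ∞ (fun z : E3 => ((0 : ℝ), z)) y := contDiffAt_const.prodMk contDiffAt_id
  have h3 : ContDiffAt ℝ ∞ (fun z : E3 => Ph Ψ (0, z)) y := ContDiffAt.comp y (f := fun z : E3 => ((0 : ℝ), z)) (g := Ph Ψ) h1 h2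
  exact ContDiffAt.comp y (f := fun z : E3 => Ph Ψ (0, z)) (g := pos) H17T.pos_smooth.contDiffAt h3

theorem uu_smooth_i (hN : NullCone U G Ψ) (hy : y ≠ 0) (i : Fin 3) : ContDiffAt ℝ ∞ (fun z => uu Ψ z i) y :=
  (contDiffAt_euclidean.1 (uu_smooth hN hy)) i

/-- `Ph Ψ (0, y) = Ψ (0, ‖y‖⁻¹ • y)`, and `hO.start`. -/
theorem Ph_uu (hO : Outer G f h Om ε Ψ) (hy : y ≠ 0) : Ph Ψ (0, y) = pt (f (uu Ψ y)) (uu Ψ y) :=
  hO.start ⟨‖y‖⁻¹ • y, ff_norm hy⟩

/-- `hO.bij` maps to the frontier. -/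
theorem uu_mem (hO : Outer G f h Om ε Ψ) (hy : y ≠ 0) : uu Ψ y ∈ frontier Om :=
  hO.bij.mapsTo (ff_norm hy)

/-- For `z` near `y` the point `v = uu Ψ z` is in the frontier of the open set `Om`, near `v` one has `· ∈ Om ↔ w · < 0`
(`Filter.Eventually.eventually_nhds`), and `w` is continuous at `v`: `v ∉ Om` gives `0 ≤ w v`, and `v` is a limit of points of
`Om`, which gives `w v ≤ 0`. -/
theorem w_uu (hX : Exterior U G f Om) (hN : NullCone U G Ψ) (hO : Outer G f h Om ε Ψ) (hy : y ≠ 0)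
    (hw : DefFun Om w (uu Ψ y)) : ∀ᶠ z in 𝓝 y, w (uu Ψ z) = 0 := by
  have hc : Tendsto (uu Ψ) (𝓝 y) (𝓝 (uu Ψ y)) := (uu_smooth hN hy).continuousAt
  have h1 : ∀ᶠ v in 𝓝 (uu Ψ y), ∀ᶠ v' in 𝓝 v, (v' ∈ Om ↔ w v' < 0) := hw.neg_iff.eventually_nhds
  have h2 : ∀ᶠ v in 𝓝 (uu Ψ y), ContinuousAt w v := by
    filter_upwards [hw.smooth.eventually (by norm_num)] with v hv
    exact hv.continuousAt
  filter_upwards [hc.eventually h1, hc.eventually h2, isOpen_ne.mem_nhds hy] with z hz1 hz2 hz3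
  have hf : uu Ψ z ∈ frontier Om := uu_mem hO hz3
  have h3 : ¬ w (uu Ψ z) < 0 := fun h => not_mem_of_frontier hX hf ((hz1.self_of_nhds).2 h)
  have h4 : ¬ 0 < w (uu Ψ z) := by
    intro h
    have h5 : ∀ᶠ v in 𝓝 (uu Ψ z), v ∉ Om := by
      filter_upwards [hz1, hz2.eventually (lt_mem_nhds h)] with v hv1 hv2 hv3
      exact absurd (hv1.1 hv3) (not_lt.2 hv2.le)
    exact (mem_closure_iff_frequently.1 hf.1) h5
  exact le_antisymm (not_lt.1 h4) (not_lt.1 h3)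

theorem ff_zero (hX : Exterior U G f Om) (hN : NullCone U G Ψ) (hO : Outer G f h Om ε Ψ) (hy : y ≠ 0)
    (hw : DefFun Om w (uu Ψ y)) (i : Fin 3) : ∀ᶠ z in 𝓝 y, ∑ k, pd i (fun z => uu Ψ z k) z * pd k w (uu Ψ z) = 0 := by
  have hc : Tendsto (uu Ψ) (𝓝 y) (𝓝 (uu Ψ y)) := (uu_smooth hN hy).continuousAt
  have h2 : ∀ᶠ v in 𝓝 (uu Ψ y), DifferentiableAt ℝ w v := by
    filter_upwards [hw.smooth.eventually (by norm_num)] with v hv
    exact hv.differentiableAt (by norm_num)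
  filter_upwards [hc.eventually h2, (w_uu hX hN hO hy hw).eventually_nhds, isOpen_ne.mem_nhds hy] with z hz1 hz2 hz3
  rw [← ff_chain ((uu_smooth hN hz3).differentiableAt (by simp)) hz1 i]
  have h3 : (fun z => w (uu Ψ z)) =ᶠ[𝓝 z] fun _ => (0 : ℝ) := hz2
  unfold pd
  rw [h3.fderiv_eq]
  simp

/-- Chain rule. -/
theorem w_first (hX : Exterior U G f Om) (hN : NullCone U G Ψ) (hO : Outer G f h Om ε Ψ) (hy : y ≠ 0)
    (hw : DefFun Om w (uu Ψ y)) (i : Fin 3) : ∑ k, pd i (fun z => uu Ψ z k) y * pd k w (uu Ψ y) = 0 :=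
  (ff_zero hX hN hO hy hw i).self_of_nhds

/-- Near `y` the function `z ↦ ∑ k, pd j (fun z => uu Ψ z k) z * pd k w (uu Ψ z)` is zero (chain rule for `w ∘ uu` near `y`, `w` is
`C²` near `uu Ψ y`), differentiate it. -/
theorem w_second (hX : Exterior U G f Om) (hN : NullCone U G Ψ) (hO : Outer G f h Om ε Ψ) (hy : y ≠ 0)
    (hw : DefFun Om w (uu Ψ y)) (i j : Fin 3) :
    (∑ k, pd i (pd j fun z => uu Ψ z k) y * pd k w (uu Ψ y)) +
      ∑ m, ∑ k, pd m (pd k w) (uu Ψ y) * pd i (fun z => uu Ψ z m) y * pd j (fun z => uu Ψ z k) y = 0 := by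
  have hu : DifferentiableAt ℝ (uu Ψ) y := (uu_smooth hN hy).differentiableAt (by simp)
  have hp : ∀ k, DifferentiableAt ℝ (pd j fun z => uu Ψ z k) y := fun k =>
    ff_pd_diff ((uu_smooth_i hN hy k).of_le (WithTop.coe_le_coe.2 (le_top : (2 : ℕ∞) ≤ ⊤))) j
  have hq : ∀ k, DifferentiableAt ℝ (fun z => pd k w (uu Ψ z)) y := fun k =>
    DifferentiableAt.comp y (f := uu Ψ) (g := pd k w) (ff_pd_diff hw.smooth k) hu
  have h1 : H31R.pd i (fun z => ∑ k, (pd j fun z => uu Ψ z k) z * pd k w (uu Ψ z)) y = 0 := by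
    have : (fun z => ∑ k, (pd j fun z => uu Ψ z k) z * pd k w (uu Ψ z)) =ᶠ[𝓝 y] fun _ => (0 : ℝ) := ff_zero hX hN hO hy hw j
    rw [H31R.N_pd_congr i this, H31R.N_pd_const]
  rw [H31R.N_pd_sum _ _ fun k _ => (hp k).fun_mul (hq k)] at h1
  have h2 : ∀ k, H31R.pd i (fun z => (pd j fun z => uu Ψ z k) z * pd k w (uu Ψ z)) y =
      pd i (pd j fun z => uu Ψ z k) y * pd k w (uu Ψ y) +
        (pd j fun z => uu Ψ z k) y * ∑ m, pd i (fun z => uu Ψ z m) y * pd m (pd k w) (uu Ψ y) := by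
    intro k
    rw [H31R.N_pd_mul (hp k) (hq k)]
    have e : H31R.pd i (fun z => pd k w (uu Ψ z)) y = ∑ m, pd i (fun z => uu Ψ z m) y * pd m (pd k w) (uu Ψ y) :=
      ff_chain hu (ff_pd_diff hw.smooth k) i
    rw [e]
    rfl
  simp only [h2] at h1
  rw [Finset.sum_add_distrib] at h1
  rw [← h1]
  congr 1
  rw [Finset.sum_comm]
  refine Finset.sum_congr rfl fun k _ => ?_
  rw [Finset.mul_sum]
  refine Finset.sum_congr rfl fun m _ => ?_
  ring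

end H17W
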