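import Pool.Agent.Lib.H17W.FF
import Pool.Agent.Lib.H17W.FD
import Pool.Agent.Lib.H17W.B2C

set_option autoImplicit false

/-!
# H17W, chunk FG (M): the second fundamental form of the initial surface

Auxiliary names start with `fg_`.
-/

open MeasureTheory Filter Topology Set
open scoped ContDiff

namespace H17W

open H17T (E4 pt pos tang conorm slice second)
open Pool.Agent.Lib.PenroseSph (E3 Tens S2 sm pd DefFun)

variable {U : Set E4} {G : E4 → Matrix (Fin 4) (Fin 4) ℝ} {f : E3 → ℝ} {Om : Set E3} {h : Tens} {ε : ℝ} {Ψ : ℝ × E3 → E4}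
  {W : Set (ℝ × E3)} {y : E3}

theorem fg_pd {F : ℝ × E3 → ℝ} {s : ℝ} {x : E3} (hF : DifferentiableAt ℝ F (s, x)) (i : Fin 3) :
    pd i (fun y => F (s, y)) x = fderiv ℝ F (s, x) (dX i) := by
  have h1 : HasFDerivAt (fun y : E3 => ((s, y) : ℝ × E3)) (ContinuousLinearMap.inr ℝ ℝ E3) x :=
    hasFDerivAt_prodMk_right s x
  have h2 : HasFDerivAt (fun y : E3 => F (s, y)) ((fderiv ℝ F (s, x)).comp (ContinuousLinearMap.inr ℝ ℝ E3)) x :=
    HasFDerivAt.comp x hF.hasFDerivAt h1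
  unfold pd
  rw [h2.fderiv]
  simp [dX]

theorem fg_congr {g g' : E3 → ℝ} {x : E3} (h : g =ᶠ[𝓝 x] g') (i : Fin 3) : pd i g x = pd i g' x :=
  H31R.N_pd_congr i h

theorem fg_pt_diff {f : E3 → ℝ} {x : E3} (hf : DifferentiableAt ℝ f x) (a : Fin 4) :
    DifferentiableAt ℝ (fun v => pt (f v) v a) x :=
  differentiableAt_euclidean.1 (H17T.t4b_io_diff hf) a

theorem fg_pt {f : E3 → ℝ} {x : E3} (hf : DifferentiableAt ℝ f x) (a : Fin 4) (l : Fin 3) :
    pd l (fun v => pt (f v) v a) x = tang f x l a := by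
  rw [← H17T.t4b_io_apply hf l a]
  have h : HasFDerivAt (fun z => pt (f z) z) (fderiv ℝ (fun z => pt (f z) z) x) x := (H17T.t4b_io_diff hf).hasFDerivAt
  have h2 : HasFDerivAt (fun z => pt (f z) z a)
      ((EuclideanSpace.proj a : E4 →L[ℝ] ℝ).comp (fderiv ℝ (fun z => pt (f z) z) x)) x :=
    (EuclideanSpace.proj a : E4 →L[ℝ] ℝ).hasFDerivAt.comp x h
  unfold pd
  rw [h2.fderiv]
  rfl

theorem fg_tang {f : E3 → ℝ} {x : E3} (hf : ContDiffAt ℝ 2 f x) (l : Fin 3) (a : Fin 4) :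
    DifferentiableAt ℝ (fun v => tang f v l a) x ∧
      ∀ m, pd m (fun v => tang f v l a) x = pd m (pd l f) x * (if a = 0 then 1 else 0) := by
  refine Fin.cases ?_ (fun j => ?_) a
  · have e : (fun v => tang f v l 0) = pd l f := by
      funext v
      simp [tang]
    rw [e]
    exact ⟨ff_pd_diff hf l, fun m => by simp⟩
  · have e : (fun v => tang f v l j.succ) = fun _ => if j = l then (1 : ℝ) else 0 := by
      funext v
      simp [tang]
    rw [e]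
    refine ⟨differentiableAt_const _, fun m => ?_⟩
    rw [if_neg (Fin.succ_ne_zero j), mul_zero]
    simp [pd]

theorem fg_bil (Γ : Fin 4 → Fin 4 → ℝ) (A B : Fin 3 → ℝ) (t : Fin 3 → Fin 4 → ℝ) :
    ∑ b, ∑ c, Γ b c * (∑ m, A m * t m b) * (∑ k, B k * t k c) =
      ∑ m, ∑ k, A m * B k * ∑ b, ∑ c, Γ b c * t m b * t k c := by
  simp only [Fin.sum_univ_three, Fin.sum_univ_four]
  ring

theorem fg_lin (p : E4) (c : Fin 3 → ℝ) (S : ℝ) (t : Fin 3 → Fin 4 → ℝ) (n k : Fin 4 → ℝ) :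
    ip G p (fun a => (∑ l, c l * t l a) + S * n a) k = (∑ l, c l * ip G p (t l) k) + S * ip G p n k := by
  unfold ip
  simp only [Fin.sum_univ_three, Fin.sum_univ_four]
  ring

theorem fg_fdiff (hX : Exterior U G f Om) (hO : Outer G f h Om ε Ψ) (hy : y ≠ 0) : ContDiffAt ℝ ∞ f (uu Ψ y) :=
  hX.smooth _ (not_mem_of_frontier hX (uu_mem hO hy))

/-- By definition `XX Ψ j (0, y) a` is the derivative of `q ↦ Ph Ψ q a` at `(0, y)` in the direction `(0, e_j)`, that is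
`pd j (fun z => Ph Ψ (0, z) a) y` (`Ph Ψ` is differentiable at `(0, y)`: `hR.smooth`), and `Ph Ψ (0, z) = pt (f (uu z)) (uu z)` for `z ≠ 0`:
for `a = 0` the chain rule for `f ∘ uu` (`f` is smooth at `uu y`, a point of the frontier of `Om`), for `a = k + 1` it is
`∂_j u^k`. See `H17T.t4b_io_apply`. -/
theorem XX_uu (hG : SpaceTime U G) (hX : Exterior U G f Om) (hN : NullCone U G Ψ) (hO : Outer G f h Om ε Ψ)
    (hR : Reg G Ψ W) (hy : y ≠ 0) (j : Fin 3) (a : Fin 4) :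
    XX Ψ j (0, y) a = ∑ l, pd j (fun z => uu Ψ z l) y * tang f (uu Ψ y) l a := by
  have hp : ((0 : ℝ), y) ∈ W := hR.mem 0 le_rfl y hy
  have hd : DifferentiableAt ℝ (fun q => Ph Ψ q a) ((0 : ℝ), y) :=
    differentiableAt_euclidean.1 ((hR.smooth _ hp).differentiableAt (by simp)) a
  have h1 : XX Ψ j (0, y) a = pd j (fun z => Ph Ψ (0, z) a) y := (fg_pd hd j).symm
  have h2 : (fun z => Ph Ψ (0, z) a) =ᶠ[𝓝 y] fun z => (fun v => pt (f v) v a) (uu Ψ z) := by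
    filter_upwards [isOpen_ne.mem_nhds hy] with z hz
    rw [Ph_uu hO hz]
  have hf : DifferentiableAt ℝ f (uu Ψ y) := (fg_fdiff hX hO hy).differentiableAt (by simp)
  rw [h1, fg_congr h2 j, ff_chain (u := uu Ψ) (g := fun v => pt (f v) v a)
    ((uu_smooth hN hy).differentiableAt (by simp)) (fg_pt_diff hf a) j]
  refine Finset.sum_congr rfl fun l _ => ?_
  rw [fg_pt hf a l]

/-- `cov = fderiv (XX Ψ j · a) + gam (X_i, X_j)` (`vel (Ph Ψ) p (dX i) = XX Ψ i p` by definition). The first term is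
`pd i (fun z => XX Ψ j (0, z) a) y` (`XX_smooth`), by `XX_uu` and the product rule
`Σ_l ∂_i∂_j u^l tang_l^a + Σ_ml ∂_i u^m ∂_j u^l ∂_m∂_l f δ_a0`; the second is `Σ_mk ∂_i u^m ∂_j u^k Γ^a_bc tang_m^b tang_k^c`. Then `gauss_vec`
(`slAt_of`, `not_mem_of_frontier`, `uu_mem`). -/
theorem cov_uu (hG : SpaceTime U G) (hX : Exterior U G f Om) (hN : NullCone U G Ψ) (hO : Outer G f h Om ε Ψ)
    (hR : Reg G Ψ W) (hy : y ≠ 0) (i j : Fin 3) (a : Fin 4) :
    cov G (Ph Ψ) (XX Ψ j) (0, y) (dX i) a =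
      (∑ l, (pd i (pd j fun z => uu Ψ z l) y + ∑ m, ∑ k, Pool.Agent.Lib.PenroseSph.chr (slice G f) l m k (uu Ψ y) *
          pd i (fun z => uu Ψ z m) y * pd j (fun z => uu Ψ z k) y) * tang f (uu Ψ y) l a) +
        (∑ m, ∑ k, second G f (uu Ψ y) m k * pd i (fun z => uu Ψ z m) y * pd j (fun z => uu Ψ z k) y) * nor G f (uu Ψ y) a := by
  have hp : ((0 : ℝ), y) ∈ W := hR.mem 0 le_rfl y hy
  have hf := fg_fdiff hX hO hy
  have hf2 : ContDiffAt ℝ 2 f (uu Ψ y) := hf.of_le (WithTop.coe_le_coe.2 (le_top : (2 : ℕ∞) ≤ ⊤))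
  have hu : DifferentiableAt ℝ (uu Ψ) y := (uu_smooth hN hy).differentiableAt (by simp)
  have hsl : SlAt G f (uu Ψ y) := slAt_of hG hX (not_mem_of_frontier hX (uu_mem hO hy))
  have h1 : fderiv ℝ (fun q => XX Ψ j q a) ((0 : ℝ), y) (dX i) =
      ∑ l, (pd i (pd j fun z => uu Ψ z l) y * tang f (uu Ψ y) l a +
        pd j (fun z => uu Ψ z l) y * ∑ m, pd i (fun z => uu Ψ z m) y * (pd m (pd l f) (uu Ψ y) * (if a = 0 then 1 else 0))) := by
    rw [← fg_pd (F := fun q => XX Ψ j q a) ((XX_smooth hR hp j a).differentiableAt (by simp)) i]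
    have h2 : (fun z => XX Ψ j (0, z) a) =ᶠ[𝓝 y] fun z => ∑ l, (pd j fun z => uu Ψ z l) z * tang f (uu Ψ z) l a := by
      filter_upwards [isOpen_ne.mem_nhds hy] with z hz
      exact XX_uu hG hX hN hO hR hz j a
    have hq : ∀ l, DifferentiableAt ℝ (pd j fun z => uu Ψ z l) y := fun l =>
      ff_pd_diff ((uu_smooth_i hN hy l).of_le (WithTop.coe_le_coe.2 (le_top : (2 : ℕ∞) ≤ ⊤))) j
    have ht : ∀ l, DifferentiableAt ℝ (fun z => tang f (uu Ψ z) l a) y := fun l =>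
      DifferentiableAt.comp y (f := uu Ψ) (g := fun v => tang f v l a) (fg_tang hf2 l a).1 hu
    rw [fg_congr h2 i]
    have h3 := H31R.N_pd_sum (x := y) Finset.univ (fun (l : Fin 3) (z : E3) => (pd j fun z => uu Ψ z l) z * tang f (uu Ψ z) l a)
      (fun l _ => (hq l).fun_mul (ht l)) i
    refine h3.trans (Finset.sum_congr rfl fun l _ => ?_)
    have h4 : pd i (fun z => tang f (uu Ψ z) l a) y =
        ∑ m, pd i (fun z => uu Ψ z m) y * (pd m (pd l f) (uu Ψ y) * (if a = 0 then 1 else 0)) := by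
      rw [ff_chain (u := uu Ψ) (g := fun v => tang f v l a) hu (fg_tang hf2 l a).1 i]
      exact Finset.sum_congr rfl fun m _ => by rw [(fg_tang hf2 l a).2 m]
    rw [← h4]
    exact H31R.N_pd_mul (hq l) (ht l) i
  have h5 : gam G (Ph Ψ (0, y)) (vel (Ph Ψ) (0, y) (dX i)) (XX Ψ j (0, y)) a =
      ∑ m, ∑ k, pd i (fun z => uu Ψ z m) y * pd j (fun z => uu Ψ z k) y *
        ∑ b, ∑ c, H31R.chr G a b c (pt (f (uu Ψ y)) (uu Ψ y)) * tang f (uu Ψ y) m b * tang f (uu Ψ y) k c := by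
    rw [← fg_bil, ← Ph_uu hO hy]
    unfold gam
    refine Finset.sum_congr rfl fun b _ => Finset.sum_congr rfl fun c _ => ?_
    have e1 : vel (Ph Ψ) (0, y) (dX i) b = XX Ψ i (0, y) b := rfl
    rw [e1, XX_uu hG hX hN hO hR hy i b, XX_uu hG hX hN hO hR hy j c]
  have h6 : cov G (Ph Ψ) (XX Ψ j) (0, y) (dX i) a = fderiv ℝ (fun q => XX Ψ j q a) ((0 : ℝ), y) (dX i) +
      gam G (Ph Ψ (0, y)) (vel (Ph Ψ) (0, y) (dX i)) (XX Ψ j (0, y)) a := rfl
  rw [h6, h1, h5]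
  have hg := fun m k => gauss_vec hsl m k a
  generalize (if a = 0 then (1 : ℝ) else 0) = δ at *
  have h7 : ∀ m k, (∑ b, ∑ c, H31R.chr G a b c (pt (f (uu Ψ y)) (uu Ψ y)) * tang f (uu Ψ y) m b * tang f (uu Ψ y) k c) =
      (∑ l, Pool.Agent.Lib.PenroseSph.chr (slice G f) l m k (uu Ψ y) * tang f (uu Ψ y) l a) +
        second G f (uu Ψ y) m k * nor G f (uu Ψ y) a - pd m (pd k f) (uu Ψ y) * δ := fun m k => by
    rw [← hg m k]
    ring
  simp only [h7]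
  simp only [Fin.sum_univ_three]
  ring

/-- `kap_eq` (B3B) and `cov_uu` (linearity of `ip`). -/
theorem kap_uu (hG : SpaceTime U G) (hX : Exterior U G f Om) (hN : NullCone U G Ψ) (hO : Outer G f h Om ε Ψ)
    (hR : Reg G Ψ W) (hk : ∀ i j, kap G Ψ i j (0, y) = -ip G (Ph Ψ (0, y)) (cov G (Ph Ψ) (XX Ψ j) (0, y) (dX i)) (kk G Ψ (0, y)))
    (hy : y ≠ 0) (i j : Fin 3) :
    kap G Ψ i j (0, y) =
      -(∑ l, (pd i (pd j fun z => uu Ψ z l) y + ∑ m, ∑ k, Pool.Agent.Lib.PenroseSph.chr (slice G f) l m k (uu Ψ y) *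
          pd i (fun z => uu Ψ z m) y * pd j (fun z => uu Ψ z k) y) * ip G (Ph Ψ (0, y)) (tang f (uu Ψ y) l) (kk G Ψ (0, y))) -
        (∑ m, ∑ k, second G f (uu Ψ y) m k * pd i (fun z => uu Ψ z m) y * pd j (fun z => uu Ψ z k) y) *
          ip G (Ph Ψ (0, y)) (nor G f (uu Ψ y)) (kk G Ψ (0, y)) := by
  rw [hk i j]
  have h1 : cov G (Ph Ψ) (XX Ψ j) (0, y) (dX i) = fun a =>
      (∑ l, (pd i (pd j fun z => uu Ψ z l) y + ∑ m, ∑ k, Pool.Agent.Lib.PenroseSph.chr (slice G f) l m k (uu Ψ y) *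
          pd i (fun z => uu Ψ z m) y * pd j (fun z => uu Ψ z k) y) * tang f (uu Ψ y) l a) +
        (∑ m, ∑ k, second G f (uu Ψ y) m k * pd i (fun z => uu Ψ z m) y * pd j (fun z => uu Ψ z k) y) * nor G f (uu Ψ y) a := by
    funext a
    exact cov_uu hG hX hN hO hR hy i j a
  rw [h1, fg_lin]
  ring

end H17W
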