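import Pool.Agent.Lib.H17T.T3

set_option autoImplicit false

/-!
# H17W, chunk FH (M): linear algebra of the surface (pure matrices)

Auxiliary names start with `fh_`.
-/

namespace H17W

theorem fh_nu {g : Matrix (Fin 3) (Fin 3) ℝ} (hs : ∀ i j, g i j = g j i)
    (hpos : ∀ ξ : Fin 3 → ℝ, ξ ≠ 0 → 0 < ∑ i, ∑ j, g i j * ξ i * ξ j) {l ν : Fin 3 → ℝ} {W : ℝ}
    (hl : l ≠ 0) (hW : W = Real.sqrt (∑ a, ∑ b, g⁻¹ a b * l a * l b)) (hν : ∀ m, ν m = (∑ a, g⁻¹ m a * l a) / W) :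
    0 < W ∧ (∑ m, ν m * l m = W) ∧ (∑ a, ∑ b, g⁻¹ a b * l a * l b = W ^ 2) ∧
      (∑ m, ∑ n, g m n * ν m * ν n = 1) ∧ ∀ m, ∑ n, g m n * ν n = l m / W := by
  obtain ⟨hdet, hsi, hM⟩ := H17T.plane_pos hs hpos hl
  have hu : IsUnit g.det := isUnit_iff_ne_zero.2 hdet
  have hm1 : g * g⁻¹ = 1 := Matrix.mul_nonsing_inv g hu
  have hW0 : 0 < W := by rw [hW]; exact Real.sqrt_pos.2 hM
  have hW2 : ∑ a, ∑ b, g⁻¹ a b * l a * l b = W ^ 2 := by rw [hW, Real.sq_sqrt hM.le]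
  have h5 : ∀ m, ∑ n, g m n * ν n = l m / W := by
    intro m
    have e2 : ∑ n, g m n * ν n = (∑ a, (∑ n, g m n * g⁻¹ n a) * l a) / W := by
      rw [Finset.sum_div]
      simp only [hν, Finset.sum_mul, Finset.sum_div, Finset.mul_sum]
      rw [Finset.sum_comm]
      exact Finset.sum_congr rfl fun a _ => Finset.sum_congr rfl fun j _ => by ring
    have e3 : ∀ a, ∑ j, g m j * g⁻¹ j a = (1 : Matrix (Fin 3) (Fin 3) ℝ) m a := by
      intro a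
      rw [← hm1, Matrix.mul_apply]
    rw [e2, Finset.sum_congr rfl fun a _ => by rw [e3 a]]
    simp [Matrix.one_apply]
  have h2 : ∑ m, ν m * l m = W := by
    have e1 : ∑ m, ν m * l m = (∑ a, ∑ b, g⁻¹ a b * l a * l b) / W := by
      rw [Finset.sum_div]
      refine Finset.sum_congr rfl fun m _ => ?_
      rw [hν, Finset.sum_div, Finset.sum_div, Finset.sum_mul]
      exact Finset.sum_congr rfl fun b _ => by ring
    rw [e1, hW2]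
    field_simp
  refine ⟨hW0, h2, hW2, ?_, h5⟩
  have e4 : ∑ m, ∑ n, g m n * ν m * ν n = ∑ m, ν m * l m / W := by
    refine Finset.sum_congr rfl fun m _ => ?_
    rw [mul_div_assoc, ← h5 m, Finset.mul_sum]
    exact Finset.sum_congr rfl fun n _ => by ring
  rw [e4, ← Finset.sum_div, h2, div_self hW0.ne']

theorem fh_JgJ {g P : Matrix (Fin 3) (Fin 3) ℝ} (hs : ∀ i j, g i j = g j i)
    (hpos : ∀ ξ : Fin 3 → ℝ, ξ ≠ 0 → 0 < ∑ i, ∑ j, g i j * ξ i * ξ j) {D : Fin 3 → Fin 3 → ℝ} {x l ν : Fin 3 → ℝ} {W : ℝ}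
    (hl : l ≠ 0) (hW : W = Real.sqrt (∑ a, ∑ b, g⁻¹ a b * l a * l b))
    (hν : ∀ m, ν m = (∑ a, g⁻¹ m a * l a) / W) (hDl : ∀ i, ∑ m, D i m * l m = 0)
    (hP : ∀ i j, P i j = (∑ m, ∑ n, g m n * D i m * D j n) + x i * x j) :
    P = (Matrix.of fun i m => D i m + x i * ν m) * g * (Matrix.of fun i m => D i m + x i * ν m).transpose := by
  obtain ⟨hW0, h2, hW2, h4, h5⟩ := fh_nu hs hpos hl hW hν
  have h5' : ∀ n, ∑ m, g m n * ν m = l n / W := by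
    intro n
    rw [← h5 n]
    exact Finset.sum_congr rfl fun m _ => by rw [hs m n]
  ext i j
  have a0 := h5 0
  have a1 := h5 1
  have a2 := h5 2
  have b0 := h5' 0
  have b1 := h5' 1
  have b2 := h5' 2
  have c1 := hDl i
  have c2 := hDl j
  rw [hP]
  simp only [Matrix.mul_apply, Matrix.transpose_apply, Matrix.of_apply, Fin.sum_univ_three] at *
  linear_combination (-(x j)) * (D i 0 * a0 + D i 1 * a1 + D i 2 * a2) - x i * (D j 0 * b0 + D j 1 * b1 + D j 2 * b2)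
    - x i * x j * h4 - x j / W * c1 - x i / W * c2

theorem fh_Jdet {g P : Matrix (Fin 3) (Fin 3) ℝ} (hs : ∀ i j, g i j = g j i)
    (hpos : ∀ ξ : Fin 3 → ℝ, ξ ≠ 0 → 0 < ∑ i, ∑ j, g i j * ξ i * ξ j) {D : Fin 3 → Fin 3 → ℝ} {x l ν : Fin 3 → ℝ} {W : ℝ}
    (hl : l ≠ 0) (hW : W = Real.sqrt (∑ a, ∑ b, g⁻¹ a b * l a * l b))
    (hν : ∀ m, ν m = (∑ a, g⁻¹ m a * l a) / W) (hDl : ∀ i, ∑ m, D i m * l m = 0)
    (hP : ∀ i j, P i j = (∑ m, ∑ n, g m n * D i m * D j n) + x i * x j) (hPd : P.det ≠ 0) :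
    (Matrix.of fun i m => D i m + x i * ν m).det ≠ 0 := by
  intro h0
  apply hPd
  rw [fh_JgJ hs hpos hl hW hν hDl hP, Matrix.det_mul, Matrix.det_mul, h0]
  ring

theorem fh_inv {g P J : Matrix (Fin 3) (Fin 3) ℝ} (hg : g.det ≠ 0) (hJ : J.det ≠ 0) (hP : P = J * g * J.transpose) :
    g⁻¹ = J.transpose * P⁻¹ * J := by
  have hJt : J.transpose.det ≠ 0 := by rwa [Matrix.det_transpose]
  rw [hP, Matrix.mul_inv_rev, Matrix.mul_inv_rev]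
  have e1 : J.transpose * (J.transpose⁻¹ * (g⁻¹ * J⁻¹)) * J = (J.transpose * J.transpose⁻¹) * g⁻¹ * (J⁻¹ * J) := by
    simp only [Matrix.mul_assoc]
  rw [e1, Matrix.mul_nonsing_inv _ (isUnit_iff_ne_zero.2 hJt), Matrix.nonsing_inv_mul _ (isUnit_iff_ne_zero.2 hJ),
    Matrix.one_mul, Matrix.mul_one]

theorem fh_Px {g P : Matrix (Fin 3) (Fin 3) ℝ} (hs : ∀ i j, g i j = g j i) {D : Fin 3 → Fin 3 → ℝ} {x : Fin 3 → ℝ}
    (hx : ∑ i, x i ^ 2 = 1) (hDx : ∀ m, ∑ i, x i * D i m = 0)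
    (hP : ∀ i j, P i j = (∑ m, ∑ n, g m n * D i m * D j n) + x i * x j) (hPd : P.det ≠ 0) :
    (∀ i, ∑ j, P⁻¹ i j * x j = x i) ∧ (∀ j, ∑ i, P⁻¹ i j * x i = x j) := by
  have h1 : P.mulVec x = x := by
    ext i
    have a0 := hDx 0
    have a1 := hDx 1
    have a2 := hDx 2
    simp only [Matrix.mulVec, dotProduct, Fin.sum_univ_three, hP] at *
    linear_combination x i * hx + (g 0 0 * D i 0 + g 1 0 * D i 1 + g 2 0 * D i 2) * a0
      + (g 0 1 * D i 0 + g 1 1 * D i 1 + g 2 1 * D i 2) * a1 + (g 0 2 * D i 0 + g 1 2 * D i 1 + g 2 2 * D i 2) * a2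
  have h2 : P⁻¹.mulVec x = x := by
    have e : P⁻¹.mulVec (P.mulVec x) = x := by
      rw [Matrix.mulVec_mulVec, Matrix.nonsing_inv_mul _ (isUnit_iff_ne_zero.2 hPd), Matrix.one_mulVec]
    rwa [h1] at e
  have hPs : P.transpose = P := by
    ext i j
    have hs' := hs
    rw [Matrix.transpose_apply, hP, hP, Finset.sum_comm]
    rw [mul_comm (x j) (x i)]
    congr 1
    exact Finset.sum_congr rfl fun m _ => Finset.sum_congr rfl fun n _ => by rw [hs n m]; ring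
  have h3 : ∀ i j, P⁻¹ i j = P⁻¹ j i := by
    intro i j
    have : P⁻¹.transpose = P⁻¹ := by rw [Matrix.transpose_nonsing_inv, hPs]
    calc P⁻¹ i j = P⁻¹.transpose j i := rfl
      _ = P⁻¹ j i := by rw [this]
  have h4 : ∀ i, ∑ j, P⁻¹ i j * x j = x i := fun i => congrFun h2 i
  refine ⟨h4, fun j => ?_⟩
  rw [← h4 j]
  exact Finset.sum_congr rfl fun i _ => by rw [h3 i j]

/-- The rows of `D` are the images of the basis vectors under a linear map which kills `x` and whose image is the kernel of `l`; `ν` is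
the unit normal. Put `J i m = D i m + x i * ν m`. Then `P = J g Jᵀ` (`Σ_mn g_mn D_im ν_n = Σ_m D_im l_m / W = 0`, `Σ g_mn ν_m ν_n = 1`), so `J` is
invertible and `g⁻¹ = Jᵀ P⁻¹ J`. Moreover `P x = x` (`hDx`, `hx`), so `P⁻¹ x = x`, and
`g⁻¹_mn = Σ_ij P⁻¹_ij (D_im + x_i ν_m) (D_jn + x_j ν_n) = Σ_ij P⁻¹_ij D_im D_jn + ν_m ν_n` (`Σ_i x_i D_im = 0`), and
`Σ_ij x_i x_j D_im D_jn = 0`. -/
theorem surf_inv {g P : Matrix (Fin 3) (Fin 3) ℝ} (hs : ∀ i j, g i j = g j i)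
    (hpos : ∀ ξ : Fin 3 → ℝ, ξ ≠ 0 → 0 < ∑ i, ∑ j, g i j * ξ i * ξ j) {D : Fin 3 → Fin 3 → ℝ} {x l ν : Fin 3 → ℝ} {W : ℝ}
    (hx : ∑ i, x i ^ 2 = 1) (hl : l ≠ 0) (hW : W = Real.sqrt (∑ a, ∑ b, g⁻¹ a b * l a * l b))
    (hν : ∀ m, ν m = (∑ a, g⁻¹ m a * l a) / W) (hDx : ∀ m, ∑ i, x i * D i m = 0) (hDl : ∀ i, ∑ m, D i m * l m = 0)
    (hP : ∀ i j, P i j = (∑ m, ∑ n, g m n * D i m * D j n) + x i * x j) (hPd : P.det ≠ 0) (m n : Fin 3) :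
    ∑ i, ∑ j, (P⁻¹ i j - x i * x j) * D i m * D j n = g⁻¹ m n - ν m * ν n := by
  obtain ⟨hdet, hsi, hM⟩ := H17T.plane_pos hs hpos hl
  have hJ := fh_Jdet hs hpos hl hW hν hDl hP hPd
  have hJP := fh_JgJ hs hpos hl hW hν hDl hP
  have hi := congrFun (congrFun (fh_inv hdet hJ hJP) m) n
  obtain ⟨hp1, hp2⟩ := fh_Px hs hx hDx hP hPd
  obtain ⟨Q, hQ⟩ : ∃ Q, Q = P⁻¹ := ⟨_, rfl⟩
  rw [← hQ] at hi hp1 hp2 ⊢
  rw [hi]
  have a0 := hp1 0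
  have a1 := hp1 1
  have a2 := hp1 2
  have b0 := hp2 0
  have b1 := hp2 1
  have b2 := hp2 2
  have c1 := hDx m
  have c2 := hDx n
  clear hi hp1 hp2 hJ hJP hP hDx hsi hM hW hν hDl hPd
  simp only [Matrix.mul_apply, Matrix.transpose_apply, Matrix.of_apply, Fin.sum_univ_three] at *
  linear_combination (-(x 0 * D 0 n + x 1 * D 1 n + x 2 * D 2 n)) * c1
    - ν n * (D 0 m * a0 + D 1 m * a1 + D 2 m * a2) - ν m * (D 0 n * b0 + D 1 n * b1 + D 2 n * b2)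
    - ν n * c1 - ν m * c2 - ν m * ν n * (x 0 * a0 + x 1 * a1 + x 2 * a2) - ν m * ν n * hx

/-- With `J` as above: `Σ_m J_im κ_m = x_i (Σ κ_n ν_n)` and `Σ_m J_im l_m = x_i W` (`Σ ν_m l_m = W`, `W > 0`), so `κ - (Σ κ_n ν_n / W) l` is in the
kernel of the invertible matrix `J`. -/
theorem surf_cov {g P : Matrix (Fin 3) (Fin 3) ℝ} (hs : ∀ i j, g i j = g j i)
    (hpos : ∀ ξ : Fin 3 → ℝ, ξ ≠ 0 → 0 < ∑ i, ∑ j, g i j * ξ i * ξ j) {D : Fin 3 → Fin 3 → ℝ} {x l ν κ : Fin 3 → ℝ} {W : ℝ}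
    (hx : ∑ i, x i ^ 2 = 1) (hl : l ≠ 0) (hW : W = Real.sqrt (∑ a, ∑ b, g⁻¹ a b * l a * l b))
    (hν : ∀ m, ν m = (∑ a, g⁻¹ m a * l a) / W) (hDx : ∀ m, ∑ i, x i * D i m = 0) (hDl : ∀ i, ∑ m, D i m * l m = 0)
    (hP : ∀ i j, P i j = (∑ m, ∑ n, g m n * D i m * D j n) + x i * x j) (hPd : P.det ≠ 0)
    (hκ : ∀ i, ∑ m, D i m * κ m = 0) (m : Fin 3) : κ m = (∑ n, κ n * ν n) / W * l m := by
  have hJ := fh_Jdet hs hpos hl hW hν hDl hP hPd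
  obtain ⟨hW0, h2, -, -, -⟩ := fh_nu hs hpos hl hW hν
  obtain ⟨c, hc⟩ : ∃ c, c = ∑ n, κ n * ν n := ⟨_, rfl⟩
  have h0 : (Matrix.of fun i m => D i m + x i * ν m).mulVec (fun m => κ m - c / W * l m) = 0 := by
    ext i
    have a := hκ i
    have b := hDl i
    have hcW : c / W * W = c := by field_simp
    simp only [Matrix.mulVec, dotProduct, Matrix.of_apply, Fin.sum_univ_three, Pi.zero_apply] at *
    linear_combination a - c / W * b - x i * hc - x i * (c / W) * h2 - x i * hcW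
  have h1 := Matrix.eq_zero_of_mulVec_eq_zero hJ h0
  have h3 := congrFun h1 m
  simp only [Pi.zero_apply] at h3
  rw [← hc]
  linarith

/-- `W > 0` and the normalisation of the normal. -/
theorem surf_nu {g : Matrix (Fin 3) (Fin 3) ℝ} (hs : ∀ i j, g i j = g j i)
    (hpos : ∀ ξ : Fin 3 → ℝ, ξ ≠ 0 → 0 < ∑ i, ∑ j, g i j * ξ i * ξ j) {l ν : Fin 3 → ℝ} {W : ℝ}
    (hl : l ≠ 0) (hW : W = Real.sqrt (∑ a, ∑ b, g⁻¹ a b * l a * l b)) (hν : ∀ m, ν m = (∑ a, g⁻¹ m a * l a) / W) :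
    0 < W ∧ (∑ m, ν m * l m = W) ∧ (∑ a, ∑ b, g⁻¹ a b * l a * l b = W ^ 2) ∧
      (∑ m, ∑ n, g m n * ν m * ν n = 1) ∧ ∀ m, ∑ n, g m n * ν n = l m / W :=
  fh_nu hs hpos hl hW hν

end H17W
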