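import Pool.Agent.Lib.H17W.FF
import Pool.Agent.Lib.H17W.FG
import Pool.Agent.Lib.H17W.FH
import Pool.Agent.Lib.H17W.B2A

set_option autoImplicit false

/-!
# H17W, chunk FI (M): the hypotheses of the linear algebra

Auxiliary names start with `fi_`.
-/

open MeasureTheory Filter Topology Set
open scoped ContDiff

namespace H17W

open H17T (E4 pt pos tang conorm slice second)
open Pool.Agent.Lib.PenroseSph (E3 Tens S2 sm pd DefFun gradNorm normal)

variable {U : Set E4} {G : E4 → Matrix (Fin 4) (Fin 4) ℝ} {f : E3 → ℝ} {Om : Set E3} {h : Tens} {ε : ℝ} {Ψ : ℝ × E3 → E4}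
  {W : Set (ℝ × E3)} {w : E3 → ℝ} {y : E3}

theorem fi_hom (c : ℝ) (hc : 0 < c) (y : E3) : uu Ψ (c • y) = uu Ψ y := by
  unfold uu
  rw [Ph_hom (Ψ := Ψ) 0 y hc]

theorem fi_sumL {p : E4} (c : Fin 3 → ℝ) (T : Fin 3 → Fin 4 → ℝ) (b : Fin 4 → ℝ) :
    ip G p (fun a => ∑ l, c l * T l a) b = ∑ l, c l * ip G p (T l) b := by
  have e : (fun a => ∑ l, c l * T l a) = c 0 • T 0 + c 1 • T 1 + c 2 • T 2 := by
    funext a
    simp [Fin.sum_univ_three]
  rw [e, ip_add_left, ip_add_left, ip_smul_left, ip_smul_left, ip_smul_left, Fin.sum_univ_three]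

theorem fi_sumR {p : E4} (c : Fin 3 → ℝ) (T : Fin 3 → Fin 4 → ℝ) (b : Fin 4 → ℝ) :
    ip G p b (fun a => ∑ l, c l * T l a) = ∑ l, c l * ip G p b (T l) := by
  have e : (fun a => ∑ l, c l * T l a) = c 0 • T 0 + c 1 • T 1 + c 2 • T 2 := by
    funext a
    simp [Fin.sum_univ_three]
  rw [e, ip_add_right, ip_add_right, ip_smul_right, ip_smul_right, ip_smul_right, Fin.sum_univ_three]

/-- `uu` is constant on rays (`Ph_hom`, or `XX_rad` with the components `a = i + 1`). -/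
theorem uu_rad (hN : NullCone U G Ψ) (hy : y ≠ 0) (m : Fin 3) : ∑ i, y i * pd i (fun z => uu Ψ z m) y = 0 := by
  rw [← ff_lin (fun z => uu Ψ z m) y y]
  have hd : HasFDerivAt (fun z => uu Ψ z m) (fderiv ℝ (fun z => uu Ψ z m) y) ((fun t : ℝ => y + t • y) 0) := by
    have h0 : (fun t : ℝ => y + t • y) 0 = y := by simp
    rw [h0]
    exact ((uu_smooth_i hN hy m).differentiableAt (by simp)).hasFDerivAt
  have hl : HasDerivAt (fun t : ℝ => y + t • y) y 0 := by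
    have h1 : HasDerivAt (fun t : ℝ => t • y) ((1 : ℝ) • y) 0 := (hasDerivAt_id (0 : ℝ)).smul_const y
    rw [one_smul] at h1
    exact h1.const_add y
  have h2 : HasDerivAt (fun t : ℝ => uu Ψ (y + t • y) m) (fderiv ℝ (fun z => uu Ψ z m) y y) 0 :=
    HasFDerivAt.comp_hasDerivAt (f := fun t : ℝ => y + t • y) (l := fun z => uu Ψ z m) (0 : ℝ) hd hl
  have h3 : (fun t : ℝ => uu Ψ (y + t • y) m) =ᶠ[𝓝 (0 : ℝ)] fun _ => uu Ψ y m := by
    have h4 : ∀ᶠ t : ℝ in 𝓝 0, -1 < t := lt_mem_nhds (by norm_num)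
    filter_upwards [h4] with t ht
    have h5 : y + t • y = (1 + t) • y := by rw [add_smul, one_smul]
    rw [h5, fi_hom (1 + t) (by linarith) y]
  have h6 : HasDerivAt (fun t : ℝ => uu Ψ (y + t • y) m) 0 0 :=
    (hasDerivAt_const (0 : ℝ) (uu Ψ y m)).congr_of_eventuallyEq h3
  exact h2.unique h6

/-- `hh = <X_i, X_j>` and `XX_uu`; `slice` is `G (tang_m, tang_n)`; `Ph_uu`. -/
theorem hh_uu (hG : SpaceTime U G) (hX : Exterior U G f Om) (hN : NullCone U G Ψ) (hO : Outer G f h Om ε Ψ)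
    (hR : Reg G Ψ W) (hy : y ≠ 0) (i j : Fin 3) : hh G Ψ i j (0, y) =
      ∑ m, ∑ n, slice G f (uu Ψ y) m n * pd i (fun z => uu Ψ z m) y * pd j (fun z => uu Ψ z n) y := by
  have e1 : ∀ k : Fin 3, XX Ψ k (0, y) = fun a => ∑ l, pd k (fun z => uu Ψ z l) y * tang f (uu Ψ y) l a := by
    intro k
    funext a
    exact XX_uu hG hX hN hO hR hy k a
  have e2 : hh G Ψ i j (0, y) = ip G (Ph Ψ (0, y)) (XX Ψ i (0, y)) (XX Ψ j (0, y)) := rfl
  rw [e2, e1 i, e1 j, fi_sumL]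
  simp only [fi_sumR]
  refine Finset.sum_congr rfl fun m _ => ?_
  rw [Finset.mul_sum]
  refine Finset.sum_congr rfl fun k _ => ?_
  have e3 : slice G f (uu Ψ y) m k = ip G (Ph Ψ (0, y)) (tang f (uu Ψ y) m) (tang f (uu Ψ y) k) := by
    rw [Ph_uu hO hy]
    rfl
  rw [e3]
  ring

theorem PP_uu (hG : SpaceTime U G) (hX : Exterior U G f Om) (hN : NullCone U G Ψ) (hO : Outer G f h Om ε Ψ)
    (hR : Reg G Ψ W) (n : S2) (i j : Fin 3) : PP G Ψ (0, (n : E3)) i j =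
      (∑ m, ∑ k, slice G f (uu Ψ n) m k * pd i (fun z => uu Ψ z m) n * pd j (fun z => uu Ψ z k) n) + (n : E3) i * (n : E3) j := by
  have hn : (n : E3) ≠ 0 := by
    intro h0
    have h1 : ‖(n : E3)‖ = 1 := mem_sphere_zero_iff_norm.1 n.2
    rw [h0, norm_zero] at h1
    exact zero_ne_one h1
  have h1 : ‖(n : E3)‖ = 1 := mem_sphere_zero_iff_norm.1 n.2
  unfold PP
  rw [Matrix.of_apply, hh_uu hG hX hN hO hR hn i j]
  simp [h1]

/-- A vector orthogonal to all `X_i` gives a covector which kills the `∂_i u` (`XX_uu`). -/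
theorem ip_uu (hG : SpaceTime U G) (hX : Exterior U G f Om) (hN : NullCone U G Ψ) (hO : Outer G f h Om ε Ψ)
    (hR : Reg G Ψ W) (hy : y ≠ 0) {a : Fin 4 → ℝ} (ha : ∀ i, ip G (Ph Ψ (0, y)) a (XX Ψ i (0, y)) = 0) (i : Fin 3) :
    ∑ m, pd i (fun z => uu Ψ z m) y * ip G (Ph Ψ (0, y)) a (tang f (uu Ψ y) m) = 0 := by
  have h1 := ha i
  have e1 : XX Ψ i (0, y) = fun a => ∑ l, pd i (fun z => uu Ψ z l) y * tang f (uu Ψ y) l a := by
    funext a
    exact XX_uu hG hX hN hO hR hy i a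
  rw [e1, fi_sumR] at h1
  exact h1

/-- The differential of a defining function is not zero. -/
theorem dw_ne (hw : DefFun Om w (uu Ψ y)) : (fun i => pd i w (uu Ψ y)) ≠ 0 := by
  intro h0
  apply hw.grad
  ext v
  rw [ff_lin w (uu Ψ y) v]
  have h1 : ∀ k, pd k w (uu Ψ y) = 0 := fun k => congrFun h0 k
  simp [h1]

end H17W
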