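import Pool.Agent.Lib.H17W.FI
import Pool.Agent.Lib.H17W.B2B
import Pool.Agent.Lib.H17W.B3B

set_option autoImplicit false

/-!
# H17W, chunk FJ (M): the expansion of the initial surface

Auxiliary names start with `fj_`.
-/

open MeasureTheory Filter Topology Set
open scoped ContDiff

namespace H17W

open H17T (E4 pt pos tang conorm slice second)
open Pool.Agent.Lib.PenroseSph (E3 Tens S2 sm pd DefFun gradNorm normal meanCurv trLevel)

variable {U : Set E4} {G : E4 → Matrix (Fin 4) (Fin 4) ℝ} {f : E3 → ℝ} {Om : Set E3} {h : Tens} {ε : ℝ} {Ψ : ℝ × E3 → E4}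
  {W : Set (ℝ × E3)} {w : E3 → ℝ}

theorem fj_swap (Q A D : Fin 3 → Fin 3 → ℝ) :
    ∑ i, ∑ j, Q i j * (∑ m, ∑ k, A m k * D i m * D j k) = ∑ m, ∑ k, A m k * ∑ i, ∑ j, Q i j * D i m * D j k := by
  simp only [Fin.sum_univ_three]
  ring

theorem fj_kap (u2 κ l : Fin 3 → ℝ) (ch : Fin 3 → Fin 3 → Fin 3 → ℝ) (w2 se D : Fin 3 → Fin 3 → ℝ) (r kn : ℝ) (i j : Fin 3)
    (hκ : ∀ m, κ m = r * l m) (hw : (∑ k, u2 k * l k) + ∑ m, ∑ k, w2 m k * D i m * D j k = 0) :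
    -(∑ q, (u2 q + ∑ m, ∑ k, ch q m k * D i m * D j k) * κ q) - (∑ m, ∑ k, se m k * D i m * D j k) * kn =
      ∑ m, ∑ k, (r * (w2 m k - ∑ q, ch q m k * l q) - kn * se m k) * D i m * D j k := by
  simp only [hκ]
  simp only [Fin.sum_univ_three] at hw ⊢
  linear_combination (-r) * hw

theorem fj_fin (gi w2 se : Fin 3 → Fin 3 → ℝ) (ν l : Fin 3 → ℝ) (ch : Fin 3 → Fin 3 → Fin 3 → ℝ) (c kn Wn : ℝ) :
    ∑ m, ∑ k, (c / Wn * (w2 m k - ∑ q, ch q m k * l q) - kn * se m k) * (gi m k - ν m * ν k) =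
      c * ((∑ m, ∑ k, (gi m k - ν m * ν k) * (w2 m k - ∑ q, ch q m k * l q)) / Wn) -
        kn * ∑ m, ∑ k, (gi m k - ν m * ν k) * se m k := by
  simp only [Fin.sum_univ_three]
  ring

theorem fj_norm (n : S2) : (n : E3) ≠ 0 := by
  intro h
  have h1 : ‖(n : E3)‖ = 1 := by simpa using n.2
  rw [h, norm_zero] at h1
  exact one_ne_zero h1.symm

theorem fj_sq (n : S2) : ∑ i, (n : E3) i ^ 2 = 1 := by
  have h1 : ‖(n : E3)‖ = 1 := by simpa using n.2
  rw [← EuclideanSpace.real_norm_sq_eq, h1, one_pow]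

/-- Write `x₀ = uu Ψ n`, `g = slice G f`, `l = dw`, `D i m = ∂_i u^m`, `ν = normal g w`, `W = gradNorm g w x₀`, `κ_m = <k, tang_m>`, `c = Σ κ_m ν_m`. By
`surf_cov` (`ip_uu` with `kk_X`) `κ_m = c / W l_m`. `kap_uu` and `w_second`: `kap_ij = Σ_mk (c/W (∂_m∂_k w - Γ^l_mk ∂_l w) - <k, nor> second_mk) D_im D_jk`.
Sum with `Q^ij = P⁻¹_ij - n_i n_j`: `surf_inv` gives `tht = Σ_mk (g⁻¹_mk - ν_m ν_k) (c/W Hess w_mk - <k, nor> second_mk)`, and this is
`c meanCurv - <k, nor> trLevel (second)` by definition. -/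
theorem tht_uu (hG : SpaceTime U G) (hX : Exterior U G f Om) (hN : NullCone U G Ψ) (hO : Outer G f h Om ε Ψ)
    (hR : Reg G Ψ W) (n : S2) (hw : DefFun Om w (uu Ψ n)) :
    tht G Ψ (0, (n : E3)) =
      (∑ m, ip G (Ph Ψ (0, (n : E3))) (kk G Ψ (0, (n : E3))) (tang f (uu Ψ n) m) * normal (slice G f) w m (uu Ψ n)) *
          meanCurv (slice G f) w (uu Ψ n) -
        ip G (Ph Ψ (0, (n : E3))) (kk G Ψ (0, (n : E3))) (nor G f (uu Ψ n)) * trLevel (slice G f) (second G f) w (uu Ψ n) := by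
  have hy : (n : E3) ≠ 0 := fj_norm n
  have hp : ((0 : ℝ), (n : E3)) ∈ W := hR.mem 0 le_rfl n hy
  have hsl : SlAt G f (uu Ψ n) := slAt_of hG hX (not_mem_of_frontier hX (uu_mem hO hy))
  have hmet : MetAt G (Ph Ψ (0, (n : E3))) := hR.met _ hp
  have hs : ∀ i j, slice G f (uu Ψ n) i j = slice G f (uu Ψ n) j i := by
    intro i j
    have hsym := hsl.met.symm.self_of_nhds
    simp only [slice, Matrix.of_apply]
    rw [Finset.sum_comm]
    refine Finset.sum_congr rfl fun a _ => Finset.sum_congr rfl fun b _ => ?_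
    rw [hsym b a]
    ring
  obtain ⟨D, hD⟩ : ∃ D : Fin 3 → Fin 3 → ℝ, D = fun i m => pd i (fun z => uu Ψ z m) n := ⟨_, rfl⟩
  obtain ⟨κ, hκ⟩ : ∃ κ : Fin 3 → ℝ, κ = fun m => ip G (Ph Ψ (0, (n : E3))) (kk G Ψ (0, (n : E3))) (tang f (uu Ψ n) m) := ⟨_, rfl⟩
  have hl : (fun i => pd i w (uu Ψ n)) ≠ 0 := dw_ne hw
  have hDx : ∀ m, ∑ i, (n : E3) i * D i m = 0 := fun m => by
    rw [hD]
    exact uu_rad hN hy m
  have hDl : ∀ i, ∑ m, D i m * (fun i => pd i w (uu Ψ n)) m = 0 := fun i => by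
    rw [hD]
    exact w_first hX hN hO hy hw i
  have hP : ∀ i j, PP G Ψ (0, (n : E3)) i j =
      (∑ m, ∑ k, slice G f (uu Ψ n) m k * D i m * D j k) + (n : E3) i * (n : E3) j := fun i j => by
    rw [hD]
    exact PP_uu hG hX hN hO hR n i j
  have hPd : (PP G Ψ (0, (n : E3))).det ≠ 0 := (PP_det hR hp).ne'
  have hW : gradNorm (slice G f) w (uu Ψ n) = Real.sqrt (∑ a, ∑ b, (slice G f (uu Ψ n))⁻¹ a b *
      (fun i => pd i w (uu Ψ n)) a * (fun i => pd i w (uu Ψ n)) b) := rfl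
  have hν : ∀ m, (fun m => normal (slice G f) w m (uu Ψ n)) m =
      (∑ a, (slice G f (uu Ψ n))⁻¹ m a * (fun i => pd i w (uu Ψ n)) a) / gradNorm (slice G f) w (uu Ψ n) := fun m => rfl
  have hinv := surf_inv (g := slice G f (uu Ψ n)) (P := PP G Ψ (0, (n : E3))) hs hsl.pos (D := D) (x := fun i => (n : E3) i)
    (l := fun i => pd i w (uu Ψ n)) (ν := fun m => normal (slice G f) w m (uu Ψ n)) (fj_sq n) hl hW hν hDx hDl hP hPd
  have hκ0 : ∀ i, ∑ m, D i m * κ m = 0 := fun i => by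
    rw [hD, hκ]
    exact ip_uu hG hX hN hO hR hy (fun i => kk_X hR le_rfl hy i) i
  have hcov := surf_cov (g := slice G f (uu Ψ n)) (P := PP G Ψ (0, (n : E3))) hs hsl.pos (D := D) (x := fun i => (n : E3) i)
    (l := fun i => pd i w (uu Ψ n)) (ν := fun m => normal (slice G f) w m (uu Ψ n)) (κ := κ) (fj_sq n) hl hW hν hDx hDl hP hPd hκ0
  have hkap : ∀ i j, kap G Ψ i j (0, (n : E3)) = ∑ m, ∑ k,
      (((∑ q, κ q * normal (slice G f) w q (uu Ψ n)) / gradNorm (slice G f) w (uu Ψ n)) *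
        (pd m (pd k w) (uu Ψ n) - ∑ q, Pool.Agent.Lib.PenroseSph.chr (slice G f) q m k (uu Ψ n) * pd q w (uu Ψ n)) -
        ip G (Ph Ψ (0, (n : E3))) (kk G Ψ (0, (n : E3))) (nor G f (uu Ψ n)) * second G f (uu Ψ n) m k) * D i m * D j k := by
    intro i j
    rw [← fj_kap (fun q => pd i (pd j fun z => uu Ψ z q) n) κ (fun q => pd q w (uu Ψ n))
      (fun q m k => Pool.Agent.Lib.PenroseSph.chr (slice G f) q m k (uu Ψ n)) (fun m k => pd m (pd k w) (uu Ψ n))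
      (fun m k => second G f (uu Ψ n) m k) D _ _ i j hcov (by
        rw [hD]
        exact w_second hX hN hO hy hw i j)]
    rw [kap_uu hG hX hN hO hR (fun i j => kap_eq hR le_rfl hy i j) hy i j, hκ, hD,
      ip_symm hmet (nor G f (uu Ψ n)) (kk G Ψ (0, (n : E3)))]
    have e : ∀ q, ip G (Ph Ψ (0, (n : E3))) (tang f (uu Ψ n) q) (kk G Ψ (0, (n : E3))) =
        ip G (Ph Ψ (0, (n : E3))) (kk G Ψ (0, (n : E3))) (tang f (uu Ψ n) q) := fun q => ip_symm hmet _ _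
    simp only [e]
  have hQ : ∀ i j, QQ G Ψ i j (0, (n : E3)) = (PP G Ψ (0, (n : E3)))⁻¹ i j - (n : E3) i * (n : E3) j := fun i j => rfl
  unfold tht
  simp only [hkap, hQ]
  rw [fj_swap (fun i j => (PP G Ψ (0, (n : E3)))⁻¹ i j - (n : E3) i * (n : E3) j)]
  have h2 := fun m k => hinv m k
  simp only [h2]
  rw [fj_fin (fun m k => (slice G f (uu Ψ n))⁻¹ m k) (fun m k => pd m (pd k w) (uu Ψ n)) (fun m k => second G f (uu Ψ n) m k)
    (fun m => normal (slice G f) w m (uu Ψ n)) (fun q => pd q w (uu Ψ n))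
    (fun q m k => Pool.Agent.Lib.PenroseSph.chr (slice G f) q m k (uu Ψ n))]
  rw [hκ]
  rfl

end H17W
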