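import Pool.Agent.Lib.H17W.FI
import Pool.Agent.Lib.H17W.B2B

set_option autoImplicit false

/-!
# H17W, chunk FK (M): the null normals of the initial surface

Auxiliary names start with `fk_`.
-/

open MeasureTheory Filter Topology Set
open scoped ContDiff

namespace H17W

open H17T (E4 pt pos tang conorm slice second)
open Pool.Agent.Lib.PenroseSph (E3 Tens S2 sm pd DefFun gradNorm normal meanCurv trLevel)

/-- Pure algebra: `b, c` the components of `L, k` along `ν`, `a, d` their scalar products with the normal, `N = nor^0`, `v = ν^0`;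
`L^0 = - a N + b v`. Proof: `a = ± b`; if `a = ε b` then `ε L^0 = b (- N + ε v) < 0`; so `a = - ε b`, and `2 = b (ε d + c)`, `(ε d)² = c²`: if `ε d = - c` the
right side is `0`, so `ε d = c`, `b c = 1`. -/
theorem null_alg {ε a b c d N v : ℝ} (hε : ε = 1 ∨ ε = -1) (hb : 0 < b) (h1 : -(a * a) + b * b = 0) (h2 : -(d * d) + c * c = 0)
    (h3 : -(a * d) + b * c = 2) (hv : |v| < N) (hL : 0 < ε * (-a * N + b * v)) : 0 < c ∧ d = ε * c := by
  have hv1 := abs_lt.1 hv
  have hε2 : ε * ε = 1 := by rcases hε with h | h <;> rw [h] <;> norm_num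
  have ha : a = ε * b ∨ a = -(ε * b) := by
    have h3 : (a - ε * b) * (a + ε * b) = 0 := by
      have h4 : (a - ε * b) * (a + ε * b) = a * a - (ε * ε) * (b * b) := by ring
      rw [h4, hε2]
      linarith
    rcases mul_eq_zero.1 h3 with h5 | h5
    · left; linarith
    · right; linarith
  have hNp : 0 < N := by linarith [hv1.1, hv1.2]
  rcases ha with ha | ha
  · exfalso
    rw [ha] at hL
    have h3 : ε * (-(ε * b) * N + b * v) = b * (-N + ε * v) := by
      have : ε * (-(ε * b) * N + b * v) = -((ε * ε) * (b * N)) + b * (ε * v) := by ring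
      rw [this, hε2]
      ring
    rw [h3] at hL
    have h4 : -N + ε * v < 0 := by
      rcases hε with h | h <;> rw [h] <;> linarith [hv1.1, hv1.2]
    exact absurd hL (not_lt.2 (mul_nonpos_of_nonneg_of_nonpos hb.le h4.le))
  · rw [ha] at h3
    have h4 : b * (ε * d + c) = 2 := by rw [← h3]; ring
    have h5 : (ε * d - c) * (ε * d + c) = 0 := by
      have h6 : (ε * d - c) * (ε * d + c) = (ε * ε) * (d * d) - c * c := by ring
      rw [h6, hε2]
      linarith
    rcases mul_eq_zero.1 h5 with h6 | h6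
    · have h7 : c = ε * d := by linarith
      have h8 : b * c = 1 := by
        have : b * (ε * d + c) = 2 * (b * c) := by rw [← h7]; ring
        linarith
      have h9 : 0 < c := by
        by_contra hc
        have := mul_nonpos_of_nonneg_of_nonpos hb.le (not_lt.1 hc)
        linarith
      refine ⟨h9, ?_⟩
      rw [h7, ← mul_assoc, hε2, one_mul]
    · rw [h6, mul_zero] at h4
      norm_num at h4

variable {U : Set E4} {G : E4 → Matrix (Fin 4) (Fin 4) ℝ} {f : E3 → ℝ} {Om : Set E3} {h : Tens} {ε : ℝ} {Ψ : ℝ × E3 → E4}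
  {W : Set (ℝ × E3)} {w : E3 → ℝ}

/-- Notation of FJ; `λ_m = <L, tang_m>`, `b = Σ λ_m ν_m > 0`. `L = LL Ψ (0, n) = gen Ψ 0 n` (`LL_gen`), `surf_cov` for `λ` and `κ`, `ip_slice` for
`<L, L> = 0`, `<k, k> = 0`, `<L, k> = 2` (`Reg.null`, `kk_k`, `kk_L`; `Σ g⁻¹ κ λ = b c`), `L^0 = - <L, nor> nor^0 + b ν^0` with `ν^0 = Σ_m ν_m tang_m^0`
(`vec_slice` with `c = 0`, `Σ_m g⁻¹_lm l_m = W ν_l`), `unit_zero` for the vector `Σ_m ν_m tang_m`, and `null_alg`. -/
theorem start_const (hG : SpaceTime U G) (hX : Exterior U G f Om) (hN : NullCone U G Ψ) (hO : Outer G f h Om ε Ψ)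
    (hR : Reg G Ψ W) (n : S2) (hw : DefFun Om w (uu Ψ n)) (ho : orient G f (uu Ψ n) < 0)
    (hout : 0 < ∑ i, normal (slice G f) w i (uu Ψ n) * ip G (Ph Ψ (0, (n : E3))) (LL Ψ (0, (n : E3))) (tang f (uu Ψ n) i)) :
    0 < (∑ m, ip G (Ph Ψ (0, (n : E3))) (kk G Ψ (0, (n : E3))) (tang f (uu Ψ n) m) * normal (slice G f) w m (uu Ψ n)) ∧
      ip G (Ph Ψ (0, (n : E3))) (kk G Ψ (0, (n : E3))) (nor G f (uu Ψ n)) =
        ε * ∑ m, ip G (Ph Ψ (0, (n : E3))) (kk G Ψ (0, (n : E3))) (tang f (uu Ψ n) m) * normal (slice G f) w m (uu Ψ n) := by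
  have hn1 : ‖(n : E3)‖ = 1 := mem_sphere_zero_iff_norm.1 n.2
  have hn : (n : E3) ≠ 0 := by
    intro h0
    rw [h0, norm_zero] at hn1
    exact zero_ne_one hn1
  have hS : SlAt G f (uu Ψ n) := slAt_of hG hX (not_mem_of_frontier hX (uu_mem hO hn))
  have hPh := Ph_uu (Ψ := Ψ) hO hn
  have hp := hR.mem 0 le_rfl n hn
  -- linear algebra data
  have hs := fb_slice_symm hS
  have hpos := hS.pos
  have hx : ∑ i, (n : E3) i ^ 2 = 1 := by
    have h1 := EuclideanSpace.norm_sq_eq (n : E3)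
    rw [hn1] at h1
    simp only [Real.norm_eq_abs, sq_abs] at h1
    rw [← h1]
    norm_num
  have hl := dw_ne hw
  have hDx : ∀ m, ∑ i, (n : E3) i * pd i (fun z => uu Ψ z m) n = 0 := fun m => uu_rad hN hn m
  have hDl : ∀ i, ∑ m, pd i (fun z => uu Ψ z m) n * pd m w (uu Ψ n) = 0 := fun i => w_first hX hN hO hn hw i
  have hP := PP_uu hG hX hN hO hR n
  have hPd := (PP_det hR hp).ne'
  obtain ⟨hW0, -, hW2, hg1, -⟩ := surf_nu (g := slice G f (uu Ψ n)) (l := fun m => pd m w (uu Ψ n))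
    (ν := fun m => normal (slice G f) w m (uu Ψ n)) (W := gradNorm (slice G f) w (uu Ψ n)) hs hpos hl rfl (fun m => rfl)
  have hlam := surf_cov (g := slice G f (uu Ψ n)) (P := PP G Ψ (0, (n : E3))) (D := fun i m => pd i (fun z => uu Ψ z m) n)
    (x := fun i => (n : E3) i) (l := fun m => pd m w (uu Ψ n))
    (ν := fun m => normal (slice G f) w m (uu Ψ n)) (W := gradNorm (slice G f) w (uu Ψ n))
    (κ := fun m => ip G (Ph Ψ (0, (n : E3))) (LL Ψ (0, (n : E3))) (tang f (uu Ψ n) m))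
    hs hpos hx hl rfl (fun m => rfl) hDx hDl hP hPd
    (fun i => ip_uu hG hX hN hO hR hn (fun i => hR.orth 0 le_rfl n hn i) i)
  have hkap := surf_cov (g := slice G f (uu Ψ n)) (P := PP G Ψ (0, (n : E3))) (D := fun i m => pd i (fun z => uu Ψ z m) n)
    (x := fun i => (n : E3) i) (l := fun m => pd m w (uu Ψ n))
    (ν := fun m => normal (slice G f) w m (uu Ψ n)) (W := gradNorm (slice G f) w (uu Ψ n))
    (κ := fun m => ip G (Ph Ψ (0, (n : E3))) (kk G Ψ (0, (n : E3))) (tang f (uu Ψ n) m))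
    hs hpos hx hl rfl (fun m => rfl) hDx hDl hP hPd
    (fun i => ip_uu hG hX hN hO hR hn (fun i => kk_X hR le_rfl hn i) i)
  obtain ⟨Wd, hWd⟩ : ∃ t, t = gradNorm (slice G f) w (uu Ψ n) := ⟨_, rfl⟩
  obtain ⟨b, hb⟩ : ∃ t, t = ∑ m, ip G (Ph Ψ (0, (n : E3))) (LL Ψ (0, (n : E3))) (tang f (uu Ψ n) m) *
    normal (slice G f) w m (uu Ψ n) := ⟨_, rfl⟩
  obtain ⟨c, hc⟩ : ∃ t, t = ∑ m, ip G (Ph Ψ (0, (n : E3))) (kk G Ψ (0, (n : E3))) (tang f (uu Ψ n) m) *
    normal (slice G f) w m (uu Ψ n) := ⟨_, rfl⟩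
  obtain ⟨a, ha⟩ : ∃ t, t = ip G (Ph Ψ (0, (n : E3))) (LL Ψ (0, (n : E3))) (nor G f (uu Ψ n)) := ⟨_, rfl⟩
  obtain ⟨d, hd⟩ : ∃ t, t = ip G (Ph Ψ (0, (n : E3))) (kk G Ψ (0, (n : E3))) (nor G f (uu Ψ n)) := ⟨_, rfl⟩
  simp only [← hb, ← hWd] at hlam
  simp only [← hc, ← hWd] at hkap
  rw [← hWd] at hW2 hW0
  have hb0 : 0 < b := by
    rw [hb]
    refine lt_of_lt_of_eq hout ?_
    exact Finset.sum_congr rfl fun i _ => mul_comm _ _
  have hQ : ∀ u v : ℝ, ∑ l, ∑ m, (slice G f (uu Ψ n))⁻¹ l m * (u / Wd * pd m w (uu Ψ n)) * (v / Wd * pd l w (uu Ψ n)) = u * v := by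
    intro u v
    have e1 : ∑ l, ∑ m, (slice G f (uu Ψ n))⁻¹ l m * (u / Wd * pd m w (uu Ψ n)) * (v / Wd * pd l w (uu Ψ n)) =
        (u / Wd * (v / Wd)) * ∑ l, ∑ m, (slice G f (uu Ψ n))⁻¹ l m * pd l w (uu Ψ n) * pd m w (uu Ψ n) := by
      rw [Finset.mul_sum]
      refine Finset.sum_congr rfl fun l _ => ?_
      rw [Finset.mul_sum]
      exact Finset.sum_congr rfl fun m _ => by ring
    rw [e1, hW2]
    field_simp
  have hLL : -(a * a) + b * b = 0 := by
    have h1 := ip_slice hS (LL Ψ (0, (n : E3))) (LL Ψ (0, (n : E3)))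
    rw [← hPh] at h1
    simp only [hlam] at h1
    rw [hQ, ← ha] at h1
    rw [← h1]
    exact hR.null 0 le_rfl n hn
  have hkk : -(d * d) + c * c = 0 := by
    have h1 := ip_slice hS (kk G Ψ (0, (n : E3))) (kk G Ψ (0, (n : E3)))
    rw [← hPh] at h1
    simp only [hkap] at h1
    rw [hQ, ← hd] at h1
    rw [← h1]
    exact kk_k hR le_rfl hn
  have hLk : -(a * d) + b * c = 2 := by
    have h1 := ip_slice hS (LL Ψ (0, (n : E3))) (kk G Ψ (0, (n : E3)))
    rw [← hPh] at h1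
    simp only [hlam, hkap] at h1
    rw [hQ, ← hd, ← ha] at h1
    rw [← h1]
    exact kk_L hR le_rfl hn
  -- the time component
  obtain ⟨v, hv⟩ : ∃ t, t = ∑ l, normal (slice G f) w l (uu Ψ n) * tang f (uu Ψ n) l 0 := ⟨_, rfl⟩
  have hL0 : LL Ψ (0, (n : E3)) 0 = -a * nor G f (uu Ψ n) 0 + b * v := by
    have h1 := vec_slice hS (LL Ψ (0, (n : E3))) 0
    rw [← hPh] at h1
    simp only [hlam] at h1
    rw [h1, ← ha, hv, Finset.mul_sum]
    congr 1
    refine Finset.sum_congr rfl fun l _ => ?_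
    have e1 : normal (slice G f) w l (uu Ψ n) = (∑ m, (slice G f (uu Ψ n))⁻¹ l m * pd m w (uu Ψ n)) / Wd := by
      rw [hWd]
      rfl
    rw [e1, Finset.sum_div, Finset.sum_mul, Finset.mul_sum]
    refine Finset.sum_congr rfl fun m _ => ?_
    field_simp
  have hLg : LL Ψ (0, (n : E3)) 0 = gen Ψ 0 n 0 := by
    obtain ⟨W₀, hW, hm, hΨ⟩ := hN.smooth
    have e1 : ‖(n : E3)‖⁻¹ • (n : E3) = n := by rw [hn1, inv_one, one_smul]
    have h1 := LL_gen (Ψ := Ψ) (s := 0) hn (by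
      rw [e1]
      exact (hΨ.contDiffAt (hW.mem_nhds (hm 0 le_rfl n))).differentiableAt (by simp))
    rw [h1, e1]
  have hu := unit_zero hS ho (a := fun q => ∑ l, normal (slice G f) w l (uu Ψ n) * tang f (uu Ψ n) l q)
    (by
      rw [fi_sumL]
      simp only [fi_sumR]
      rw [← hg1]
      refine Finset.sum_congr rfl fun m _ => ?_
      rw [Finset.mul_sum]
      refine Finset.sum_congr rfl fun k _ => ?_
      have e3 : slice G f (uu Ψ n) m k = ip G (pt (f (uu Ψ n)) (uu Ψ n)) (tang f (uu Ψ n) m) (tang f (uu Ψ n) k) := rfl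
      rw [e3]
      ring)
    (by
      rw [fi_sumL]
      refine Finset.sum_eq_zero fun l _ => ?_
      rw [ip_symm hS.met, nor_tang hS, mul_zero])
  have hu' : |v| < nor G f (uu Ψ n) 0 := by
    rw [hv]
    exact hu
  have hfin := null_alg hO.sign hb0 hLL hkk hLk hu' (by
    rw [← hL0, hLg]
    exact hO.time n)
  rw [← hc, ← hd]
  exact hfin

end H17W
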