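import Pool.Agent.Lib.H17W.FE
import Pool.Agent.Lib.H17W.FJ
import Pool.Agent.Lib.H17W.FK
import Pool.Agent.Lib.H17W.B1D

set_option autoImplicit false

/-!
# H17W, chunk FM (S): the expansion of the initial surface is not positive

Auxiliary names start with `fm_`.
-/

open MeasureTheory Filter Topology Set
open scoped ContDiff

namespace H17W

open H17T (E4 pt pos tang conorm slice second)
open Pool.Agent.Lib.PenroseSph (E3 Tens S2 sm pd DefFun gradNorm normal meanCurv trLevel)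

/-- With `w` from `hO.horizon`: by `tht_uu` and `start_const`, `tht = c (meanCurv - ε trLevel (second))`, `c > 0`, and
`trLevel (slice G f) h w x₀ = ε trLevel (slice G f) (second G f) w x₀` since `h x₀ = ε • second G f x₀` (`x₀ = uu Ψ n = pos (Ψ (0, n))` is in the
frontier of `Om`, so not in `Om`). `hout` in `start_const` is `hO.horizon` with `LL_gen` and `‖n‖ = 1`. -/
theorem start_tht {U : Set E4} {G : E4 → Matrix (Fin 4) (Fin 4) ℝ} {f : E3 → ℝ} {Om : Set E3} {h : Tens} {ε m β : ℝ}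
    {Ψ : ℝ × E3 → E4} {W : Set (ℝ × E3)} (hG : SpaceTime U G) (hX : Exterior U G f Om) (hN : NullCone U G Ψ)
    (hO : Outer G f h Om ε Ψ) (hA : AsympSchw G f m β) (hR : Reg G Ψ W) (hh : ∀ x : E3, x ∉ Om → h x = ε • second G f x) (n : S2) :
    tht G Ψ (0, (n : E3)) ≤ 0 := by
  have hy : (n : E3) ≠ 0 := fj_norm n
  have hn1 : ‖(n : E3)‖ = 1 := by simpa using n.2
  have e0 : ‖(n : E3)‖⁻¹ • (n : E3) = n := by rw [hn1, inv_one, one_smul]
  have hPh : Ph Ψ (0, (n : E3)) = Ψ (0, (n : E3)) := by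
    change Ψ (0, ‖(n : E3)‖⁻¹ • (n : E3)) = _
    rw [e0]
  have huu : uu Ψ n = pos (Ψ (0, (n : E3))) := by
    unfold uu
    rw [hPh]
  have hd : DifferentiableAt ℝ Ψ (0, ‖(n : E3)‖⁻¹ • (n : E3)) := by
    obtain ⟨W', hW'o, hW', hs⟩ := hN.smooth
    rw [e0]
    exact (hs.contDiffAt (hW'o.mem_nhds (hW' 0 le_rfl n))).differentiableAt (by simp)
  have hL : LL Ψ (0, (n : E3)) = gen Ψ 0 n := by rw [LL_gen hy hd, e0]
  obtain ⟨w, hw, hout, hmc⟩ := hO.horizon n
  rw [← huu] at hw hout hmc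
  rw [← hPh, ← hL] at hout
  have hmem := uu_mem (f := f) hO hy
  have ho := orient_surface hG hX hN hO hA hmem
  obtain ⟨hc, hk⟩ := start_const hG hX hN hO hR n hw ho hout
  have htr : trLevel (slice G f) h w (uu Ψ n) = ε * trLevel (slice G f) (second G f) w (uu Ψ n) := by
    unfold trLevel
    rw [hh _ (not_mem_of_frontier hX hmem), Finset.mul_sum]
    refine Finset.sum_congr rfl fun i _ => ?_
    rw [Finset.mul_sum]
    refine Finset.sum_congr rfl fun j _ => ?_
    rw [Matrix.smul_apply, smul_eq_mul]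
    ring
  rw [htr] at hmc
  rw [tht_uu hG hX hN hO hR n hw, hk]
  have h1 := mul_nonneg hc.le (sub_nonneg.2 hmc)
  linarith

end H17W
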