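import Pool.Agent.Lib.H17W.D4E
import Pool.Agent.Lib.H17W.FM
import Pool.Agent.Lib.H17S.Gen

set_option autoImplicit false

/-!
# H17W: the main theorem
-/

open MeasureTheory Filter Topology Set
open scoped ContDiff

namespace H17W

open H17T (E4 pt pos tang slice second DEC)
open H17B (lor boost)
open Pool.Agent.Lib.PenroseSph (E3 Tens S2 sm pd admFlux admMom)

variable {U : Set E4} {G : E4 → Matrix (Fin 4) (Fin 4) ℝ} {f : E3 → ℝ} {g h : Tens} {Om : Set E3} {ε m m' β : ℝ} {Ψ : ℝ × E3 → E4}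

/-- The inequality for the mass of the null hypersurface. -/
theorem main_mass (hG : SpaceTime U G) (hX : Exterior U G f Om) (hh : ∀ x : E3, x ∉ Om → h x = ε • second G f x)
    (hN : NullCone U G Ψ) (hO : Outer G f h Om ε Ψ) (hF : ConeFlat ε Ψ) (hA : AsympSchw G f m β)
    (hC : ConeSchw G Ψ m') :
    0 < m' ∧ Real.sqrt (area G Ψ 0 / (16 * Real.pi)) ≤ m' := by
  have hpi := Real.pi_pos
  have h0 : ∀ n : S2, gen Ψ 0 n 0 ≠ 0 := fun n hn => by
    have := hO.time n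
    rw [hn, mul_zero] at this
    exact lt_irrefl _ this
  obtain ⟨W, hR⟩ := reg_of hG hN h0
  have hW : ∀ s : ℝ, 0 ≤ s → ∀ n : S2, (s, (n : E3)) ∈ W := fun s hs n =>
    hR.mem s hs n (fun h => by
      have := norm_eq_of_mem_sphere n
      rw [h, norm_zero] at this
      norm_num at this)
  obtain ⟨ψ, hc⟩ := cut_exists hR.isOpen hW
  have hD := data_isNull hG hN hR hc
  have hFl := data_flat hR hc hF hC
  have hB := data_bondi hG hN hR hc hO.sign hF hC
  have hθ : ∀ n : S2, (data G Ψ ψ).θ 0 n ≤ 0 := fun n => by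
    have h1 : (data G Ψ ψ).θ 0 n = ψ (0, (n : E3)) * tht G Ψ (0, (n : E3)) := rfl
    rw [h1, cut_eq hc le_rfl n, one_mul]
    exact start_tht hG hX hN hO hA hR hh n
  have h1 := H17S.mainG.2.1 (data G Ψ ψ) hD hFl hθ m' hB
  have h2 : 0 < area G Ψ 0 := by
    rw [data_area hN hR hc]
    exact NullU.area_pos hD
  rw [data_area hN hR hc] at h2 ⊢
  exact ⟨lt_of_lt_of_le (Real.sqrt_pos.2 (by positivity)) h1, h1⟩

/-- The main theorem. -/
theorem main (hG : SpaceTime U G) (hX : Exterior U G f Om) (hg : ∀ x : E3, x ∉ Om → g x = slice G f x)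
    (hh : ∀ x : E3, x ∉ Om → h x = ε • second G f x) (hN : NullCone U G Ψ) (hO : Outer G f h Om ε Ψ) (hF : ConeFlat ε Ψ)
    (hA : AsympSchw G f m β) (hC : ConeSchw G Ψ m') (hm : m' ≤ m) :
    ∃ (E : ℝ) (P : Fin 3 → ℝ), Tendsto (admFlux (boost β g)) atTop (𝓝 E) ∧
      (∀ i, Tendsto (admMom (boost β g) (boost β h) i) atTop (𝓝 (P i))) ∧ ∑ i, P i ^ 2 = β ^ 2 * E ^ 2 ∧
      Real.sqrt (∑ i, P i ^ 2) < E ∧ Real.sqrt (area G Ψ 0 / (16 * Real.pi)) ≤ m' ∧
      Real.sqrt (area G Ψ 0 / (16 * Real.pi)) ≤ Real.sqrt (E ^ 2 - ∑ i, P i ^ 2) := by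
  obtain ⟨hm', h1⟩ := main_mass hG hX hh hN hO hF hA hC
  have hm0 : 0 < m := lt_of_lt_of_le hm' hm
  obtain ⟨hE, P, hP, hPs⟩ := adm hG hX hA hO.sign hg hh
  have hb : β ^ 2 < 1 := by
    have := hA.beta
    rw [← sq_abs]
    have h0 := abs_nonneg β
    nlinarith
  have hs : 0 < 1 - β ^ 2 := by linarith
  have hl : lor β ^ 2 * (1 - β ^ 2) = 1 := by
    unfold lor
    rw [div_pow, one_pow, Real.sq_sqrt hs.le, one_div, inv_mul_cancel₀ hs.ne']
  have hl0 : 0 < lor β := by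
    unfold lor
    exact div_pos one_pos (Real.sqrt_pos.2 hs)
  have hE0 : 0 < lor β * m := mul_pos hl0 hm0
  refine ⟨lor β * m, P, hE, hP, hPs, ?_, h1, ?_⟩
  · rw [hPs]
    refine (Real.sqrt_lt' hE0).2 ?_
    have : 0 < (lor β * m) ^ 2 := by positivity
    nlinarith
  · have h2 : (lor β * m) ^ 2 - ∑ i, P i ^ 2 = m ^ 2 := by
      rw [hPs]
      linear_combination m ^ 2 * hl
    rw [h2, Real.sqrt_sq hm0.le]
    exact h1.trans hm

end H17W
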